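import Pool.Agent.H407R3.Seven.Basic

namespace H407R3.Seven

theorem Y1.pos {c1 c2 a1 a2 e1 e2 z1 z2 : ℝ} (h : Y1 c1 c2 a1 a2 e1 e2 z1 z2) (he : 0 ≤ e2) :
    0 < z1 * e2 + z2 * e1 := by linarith [h.RL]

/-- Facet alternatives for the quadrilateral hull. -/
def D0 (c1 c2 z1 z2 : ℝ) : Prop :=
  (c2 < z1 * c2 + z2 * c1) ∨ (2 - c1 < z1 * (2 - c2) + z2 * (2 - c1))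

/-- Facet alternatives for the hexagonal hull. -/
def D1 (c1 c2 a1 a2 z1 z2 : ℝ) : Prop :=
  Y1 c1 c2 a1 a2 a1 a2 z1 z2 ∨ Y1 c1 c2 a1 a2 (2 - c1 - a1) (2 - c2 - a2) z1 z2 ∨
    Y1 c1 c2 a1 a2 c1 c2 z1 z2

structure BaseDd (c1 c2 x1 x2 r1 r2 : ℝ) : Prop where
  TR1 : 0 < c1 + c2 - 1
  RB1 : 0 < 1 + c1 - c2
  c21 : 0 ≤ c2 - c1
  c12 : 0 ≤ 2 - c1 - c2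
  pc1 : 0 < c1
  pc2 : 0 < c2
  pC2 : 0 < 2 - c2
  pg1 : 0 < 2 - c1
  r2n : 0 ≤ r2
  Tp1 : 0 ≤ r1 - c1
  pB2 : 0 ≤ 2 - c2 - r2
  Lp1 : 0 ≤ 2 - r1
  pin : 0 ≤ (2 - r1) * (2 - c2) - r2 * (2 - c1)
  x2n : 0 ≤ x2
  xr : 0 ≤ x1 - r1
  X2n : 0 ≤ 2 - c2 - x2
  Lx1 : 0 ≤ 2 - x1
  xin : 0 ≤ (2 - x1) * (2 - c2) - x2 * (2 - c1)

structure BaseUD (c1 c2 x1 x2 r1 r2 : ℝ) : Prop where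
  TR1 : 0 < c1 + c2 - 1
  RB1 : 0 < 1 + c1 - c2
  c21 : 0 ≤ c2 - c1
  c12 : 0 ≤ 2 - c1 - c2
  pc1 : 0 < c1
  pc2 : 0 < c2
  pC2 : 0 < 2 - c2
  pg1 : 0 < 2 - c1
  r2n : 0 ≤ r2
  Tp1 : 0 ≤ r1 - c1
  pB2 : 0 ≤ 2 - c2 - r2
  Lp1 : 0 ≤ 2 - r1
  pin : 0 ≤ (2 - r1) * (2 - c2) - r2 * (2 - c1)
  x1n : 0 ≤ x1
  x2n : 0 ≤ x2
  X1n : 0 ≤ 2 - c1 - x1
  X2n : 0 ≤ c2 - x2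
  qin : 0 ≤ c2 * x1 - (2 - c1) * x2

structure BaseDD (c1 c2 a1 a2 x1 x2 : ℝ) : Prop where
  TR1 : 0 < c1 + c2 - 1
  RB1 : 0 < 1 + c1 - c2
  c21 : 0 ≤ c2 - c1
  c12 : 0 ≤ 2 - c1 - c2
  pc1 : 0 < c1
  pc2 : 0 < c2
  pC2 : 0 < 2 - c2
  pg1 : 0 < 2 - c1
  a2n : 0 ≤ a2
  b1n : 0 ≤ 2 - c1 - a1
  b2n : 0 ≤ 2 - c2 - a2
  x1n : 0 ≤ x1
  x2n : 0 ≤ x2
  X2n : 0 ≤ 2 - c2 - x2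
  ax : 0 ≤ a1 - x1
  wout : 0 ≤ a2 * (2 - c1) - a1 * (2 - c2)
  xout : 0 ≤ x2 * (2 - c1) - x1 * (2 - c2)

structure Base (c1 c2 a1 a2 B1 B2 r1 r2 : ℝ) : Prop where
  TR1 : 0 < c1 + c2 - 1
  RB1 : 0 < 1 + c1 - c2
  c21 : 0 ≤ c2 - c1
  c12 : 0 ≤ 2 - c1 - c2
  pc1 : 0 < c1
  pc2 : 0 < c2
  pC2 : 0 < 2 - c2
  pg1 : 0 < 2 - c1
  a1n : 0 ≤ a1
  a2n : 0 ≤ a2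
  b1n : 0 ≤ 2 - c1 - a1
  b2n : 0 ≤ 2 - c2 - a2
  A1n : 0 ≤ 2 - c1 - B1
  A2n : 0 ≤ c2 - B2
  A2n_ : 0 ≤ 2 - (2 - c2) - B2
  B1n : 0 ≤ B1
  B2n : 0 ≤ B2
  r1n : 0 ≤ r1
  r2n : 0 ≤ r2
  Tp1 : 0 ≤ r1 - c1
  Lp1 : 0 ≤ 2 - r1
  pB2 : 0 ≤ 2 - c2 - r2
  qout : 0 ≤ (2 - c1) * B2 - c2 * B1
  wout : 0 ≤ a2 * (2 - c1) - a1 * (2 - c2)
  pin : 0 ≤ (2 - r1) * (2 - c2) - r2 * (2 - c1)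

end H407R3.Seven
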