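import Mathlib

namespace H407R3.Seven

/-- Gauge-type norm on the plane written in coordinates. -/
structure PN (N : ℝ → ℝ → ℝ) : Prop where
  add : ∀ x y x' y', N (x + x') (y + y') ≤ N x y + N x' y'
  smul : ∀ a x y, N (a * x) (a * y) = |a| * N x y

theorem PN.neg {N : ℝ → ℝ → ℝ} (h : PN N) (x y : ℝ) : N (-x) (-y) = N x y := by
  have := h.smul (-1) x y
  simpa using this

theorem PN.flipx {N : ℝ → ℝ → ℝ} (h : PN N) : PN (fun x y => N (-x) y) := by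
  refine ⟨fun x y x' y' => ?_, fun a x y => ?_⟩
  · have := h.add (-x) y (-x') y'
    have e : -(x + x') = -x + -x' := by ring
    simp only [e]
    exact this
  · have := h.smul a (-x) y
    have e : -(a * x) = a * -x := by ring
    simp only [e]
    exact this

theorem PN.flipy {N : ℝ → ℝ → ℝ} (h : PN N) : PN (fun x y => N x (-y)) := by
  refine ⟨fun x y x' y' => ?_, fun a x y => ?_⟩
  · have := h.add x (-y) x' (-y')
    have e : -(y + y') = -y + -y' := by ring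
    simp only [e]
    exact this
  · have := h.smul a x (-y)
    have e : -(a * y) = a * -y := by ring
    simp only [e]
    exact this

theorem PN.swap {N : ℝ → ℝ → ℝ} (h : PN N) : PN (fun x y => N y x) :=
  ⟨fun x y x' y' => h.add y x y' x', fun a x y => h.smul a y x⟩

theorem PN.comb {N : ℝ → ℝ → ℝ} (h : PN N) {α β k1 k2 l1 l2 : ℝ} (hα : 0 ≤ α) (hβ : 0 ≤ β)
    (hk : N k1 k2 ≤ 2) (hl : N l1 l2 ≤ 2) :
    N (α * k1 + β * l1) (α * k2 + β * l2) ≤ 2 * (α + β) := by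
  have h1 := h.add (α * k1) (α * k2) (β * l1) (β * l2)
  rw [h.smul, h.smul, abs_of_nonneg hα, abs_of_nonneg hβ] at h1
  have h2 := mul_le_mul_of_nonneg_left hk hα
  have h3 := mul_le_mul_of_nonneg_left hl hβ
  linarith

theorem cone_step {N : ℝ → ℝ → ℝ} (h : PN N) {k1 k2 l1 l2 z1 z2 : ℝ}
    (hk : N k1 k2 ≤ 2) (hl : N l1 l2 ≤ 2) (hk1 : 0 ≤ k1) (hk2 : 0 ≤ k2) (hks : 0 < k1 + k2)
    (hl1 : 0 ≤ l1) (hl2 : 0 ≤ l2) (hz1 : 0 ≤ z1) (hz2 : 0 ≤ z2)
    (hkz : 0 ≤ k1 * z2 - k2 * z1) (hzl : 0 < z1 * l2 - z2 * l1) (hz : 1 < N z1 z2) :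
    k1 * l2 - k2 * l1 < 2 * (z1 * (l2 - k2) + z2 * (k1 - l1)) := by
  have hD : 0 < k1 * l2 - k2 * l1 := by
    have e : (k1 * l2 - k2 * l1) * (z1 + z2)
        = (z1 * l2 - z2 * l1) * (k1 + k2) + (k1 * z2 - k2 * z1) * (l1 + l2) := by ring
    have p1 := mul_pos hzl hks
    have p2 := mul_nonneg hkz (add_nonneg hl1 hl2)
    have p3 : 0 < (k1 * l2 - k2 * l1) * (z1 + z2) := by rw [e]; linarith
    by_contra hcon
    have := mul_nonpos_of_nonpos_of_nonneg (not_lt.1 hcon) (add_nonneg hz1 hz2)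
    linarith
  set D := k1 * l2 - k2 * l1 with hDdef
  have hne : D ≠ 0 := ne_of_gt hD
  have hc := h.comb (α := (z1 * l2 - z2 * l1) / D) (β := (k1 * z2 - k2 * z1) / D)
    (div_nonneg hzl.le hD.le) (div_nonneg hkz hD.le) hk hl
  have e1 : (z1 * l2 - z2 * l1) / D * k1 + (k1 * z2 - k2 * z1) / D * l1 = z1 := by
    rw [div_mul_eq_mul_div, div_mul_eq_mul_div, ← add_div, div_eq_iff hne, hDdef]; ring
  have e2 : (z1 * l2 - z2 * l1) / D * k2 + (k1 * z2 - k2 * z1) / D * l2 = z2 := by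
    rw [div_mul_eq_mul_div, div_mul_eq_mul_div, ← add_div, div_eq_iff hne, hDdef]; ring
  rw [e1, e2, ← add_div] at hc
  have hlt : 1 < 2 * ((z1 * l2 - z2 * l1 + (k1 * z2 - k2 * z1)) / D) := lt_of_lt_of_le hz hc
  rw [← mul_div_assoc, lt_div_iff₀ hD] at hlt
  nlinarith [hlt]

/-- Three sorted edges `p, q, r` (steepest first) with sum `(2,2)`. -/
theorem facet3 {N : ℝ → ℝ → ℝ} (h : PN N) {p1 p2 q1 q2 r1 r2 z1 z2 : ℝ}
    (hp1 : 0 ≤ p1) (hp2 : 0 ≤ p2) (hq1 : 0 ≤ q1) (hq2 : 0 ≤ q2) (hr1 : 0 ≤ r1) (hr2 : 0 ≤ r2)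
    (s1 : p1 + q1 + r1 = 2) (s2 : p2 + q2 + r2 = 2)
    (dpq : p1 * q2 ≤ p2 * q1) (dpr : p1 * r2 ≤ p2 * r1) (dqr : q1 * r2 ≤ q2 * r1)
    (hr : 0 < r1 + r2)
    (n0 : N 2 0 ≤ 2) (n1 : N (2 - p1) p2 ≤ 2) (n2 : N r1 (2 - r2) ≤ 2) (n3 : N 0 2 ≤ 2)
    (hz1 : 0 ≤ z1) (hz2 : 0 ≤ z2) (hz : 1 < N z1 z2) :
    2 * p2 < 2 * (z1 * p2 + z2 * p1) ∨
    ((2 - p1) * q2 + p2 * q1 < 2 * (z1 * q2 + z2 * q1)) ∨
    2 * r1 < 2 * (z1 * r2 + z2 * r1) := by
  have hpp : p1 ≤ p2 := by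
    have h1 : p1 * (p2 + q2 + r2) ≤ p2 * (p1 + q1 + r1) := by linarith
    rw [s1, s2] at h1; linarith
  have hrr : r2 ≤ r1 := by
    have h1 : (p1 + q1 + r1) * r2 ≤ (p2 + q2 + r2) * r1 := by linarith
    rw [s1, s2] at h1; linarith
  rcases lt_or_ge ((2 - p1) * z2 - p2 * z1) 0 with h1 | h1
  · left
    have := cone_step h (k1 := 2) (k2 := 0) (l1 := 2 - p1) (l2 := p2) n0 n1 (by norm_num) le_rfl
      (by norm_num) (by linarith) hp2 hz1 hz2 (by linarith) (by linarith) hz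
    linarith
  · rcases lt_or_ge (r1 * z2 - (2 - r2) * z1) 0 with h2 | h2
    · right; left
      have := cone_step h (k1 := 2 - p1) (k2 := p2) (l1 := r1) (l2 := 2 - r2) n1 n2 (by linarith) hp2
        (by linarith) hr1 (by linarith) hz1 hz2 h1 (by linarith) hz
      have e1 : 2 - r2 = p2 + q2 := by linarith
      have e2 : r1 = 2 - p1 - q1 := by linarith
      rw [e1, e2] at this
      linarith [this]
    · right; right
      have hr1' : 0 < r1 := by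
        rcases lt_or_eq_of_le hr1 with hh | hh
        · exact hh
        · exfalso; linarith
      rcases lt_or_eq_of_le hz1 with hh | hh
      · have := cone_step h (k1 := r1) (k2 := 2 - r2) (l1 := 0) (l2 := 2) n2 n3 hr1 (by linarith)
          (by linarith) le_rfl (by norm_num) hz1 hz2 h2 (by linarith) hz
        linarith [this]
      · subst hh
        have e := h.smul (z2 / 2) 0 2
        rw [mul_zero, div_mul_cancel₀ _ (by norm_num : (2 : ℝ) ≠ 0),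
          abs_of_nonneg (by linarith : 0 ≤ z2 / 2)] at e
        rw [e] at hz
        have : 1 < z2 := by nlinarith
        nlinarith [mul_pos (sub_pos.2 this) hr1']

/-- The six width inequalities for a hexagonal configuration: `F = z1*e2+z2*e1` exceeds half the
width of the hexagon in the direction of the edge `e`. -/
structure Y1 (c1 c2 a1 a2 e1 e2 z1 z2 : ℝ) : Prop where
  RL : 2 * e2 < 2 * (z1 * e2 + z2 * e1)
  TB : 2 * e1 < 2 * (z1 * e2 + z2 * e1)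
  TL : (2 - c1) * e2 + c2 * e1 < 2 * (z1 * e2 + z2 * e1)
  Rw : (2 - a1) * e2 + a2 * e1 < 2 * (z1 * e2 + z2 * e1)
  Tw : (2 - a1 - c1) * e2 + (a2 + c2) * e1 < 2 * (z1 * e2 + z2 * e1)
  RB : c1 * e2 + (2 - c2) * e1 < 2 * (z1 * e2 + z2 * e1)

theorem det_trans {x1 x2 y1 y2 z1 z2 : ℝ} (hx1 : 0 ≤ x1) (hx2 : 0 ≤ x2)
    (hy : 0 < y1 + y2) (hz1 : 0 ≤ z1) (hz2 : 0 ≤ z2)
    (h1 : x1 * y2 ≤ x2 * y1) (h2 : y1 * z2 ≤ y2 * z1) : x1 * z2 ≤ x2 * z1 := by
  have e : (x2 * z1 - x1 * z2) * (y1 + y2)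
      = (x2 * y1 - x1 * y2) * (z1 + z2) + (y2 * z1 - y1 * z2) * (x1 + x2) := by ring
  have p : 0 ≤ (x2 * z1 - x1 * z2) * (y1 + y2) := by
    rw [e]
    exact add_nonneg (mul_nonneg (sub_nonneg.2 h1) (add_nonneg hz1 hz2))
      (mul_nonneg (sub_nonneg.2 h2) (add_nonneg hx1 hx2))
  have := nonneg_of_mul_nonneg_left p hy
  linarith

theorem hexfacet {N : ℝ → ℝ → ℝ} (h : PN N) {c1 c2 a1 a2 z1 z2 : ℝ}
    (hc1 : 0 ≤ c1) (hc2 : 0 ≤ c2) (ha1 : 0 ≤ a1) (ha2 : 0 ≤ a2)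
    (hb1 : 0 ≤ 2 - c1 - a1) (hb2 : 0 ≤ 2 - c2 - a2)
    (hc : 0 < c1 + c2) (ha : 0 < a1 + a2) (hb : 0 < (2 - c1 - a1) + (2 - c2 - a2))
    (dab : a1 * (2 - c2 - a2) ≤ a2 * (2 - c1 - a1))
    (n0 : N 2 0 ≤ 2) (n3 : N 0 2 ≤ 2) (nTL : N (2 - c1) c2 ≤ 2) (nRw : N (2 - a1) a2 ≤ 2)
    (nTw : N (2 - a1 - c1) (a2 + c2) ≤ 2) (nRB : N c1 (2 - c2) ≤ 2)
    (hz1 : 0 ≤ z1) (hz2 : 0 ≤ z2) (hz : 1 < N z1 z2) :
    Y1 c1 c2 a1 a2 a1 a2 z1 z2 ∨ Y1 c1 c2 a1 a2 (2 - c1 - a1) (2 - c2 - a2) z1 z2 ∨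
      Y1 c1 c2 a1 a2 c1 c2 z1 z2 := by
  have e1 : 2 - (2 - c2 - a2) = a2 + c2 := by ring
  have e2 : 2 - c1 - a1 = 2 - a1 - c1 := by ring
  rcases le_total (c1 * a2) (c2 * a1) with hca | hca
  · -- c, a, b
    have hcb : c1 * (2 - c2 - a2) ≤ c2 * (2 - c1 - a1) := det_trans hc1 hc2 ha hb1 hb2 hca dab
    rcases facet3 h hc1 hc2 ha1 ha2 hb1 hb2 (by ring) (by ring) hca hcb dab hb n0 nTL
      (by rw [e1, e2]; exact nTw) n3 hz1 hz2 hz with H | H | H
    · right; right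
      constructor <;> linarith
    · left
      constructor <;> linarith
    · right; left
      constructor <;> linarith
  · rcases le_total (c1 * (2 - c2 - a2)) (c2 * (2 - c1 - a1)) with hcb | hcb
    · -- a, c, b
      rcases facet3 h ha1 ha2 hc1 hc2 hb1 hb2 (by ring) (by ring) (by linarith) dab hcb hb n0 nRw
        (by rw [e1, e2]; exact nTw) n3 hz1 hz2 hz with H | H | H
      · left
        constructor <;> linarith
      · right; right
        constructor <;> linarith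
      · right; left
        constructor <;> linarith
    · -- a, b, c
      rcases facet3 h ha1 ha2 hb1 hb2 hc1 hc2 (by ring) (by ring) dab (by linarith) (by linarith) hc
        n0 nRw nRB n3 hz1 hz2 hz with H | H | H
      · left
        constructor <;> linarith
      · right; left
        constructor <;> linarith
      · right; right
        constructor <;> linarith

end H407R3.Seven
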