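import Pool.Agent.H407R3.Seven.Geo

namespace H407R3.Seven

theorem Main.hex1 {N : ℝ → ℝ → ℝ} {S : ℝ → ℝ → Prop} {s t : ℝ} (h : Main N S s t)
    {xw yw : ℝ} (hw : S xw yw) (hx : xw ≤ t) (hy : yw ≤ s)
    (hout : (xw + 1) * (1 + s) ≤ (s - yw) * (1 + t))
    (hL : xw ≠ -1 ∨ yw ≠ s) (hB : xw ≠ t ∨ yw ≠ -1)
    {x y x' y' z1 z2 : ℝ} (hp : S x y) (hq : S x' y') (hne : x ≠ x' ∨ y ≠ y')
    (e1 : z1 = x - x') (e2 : z2 = y - y') (hz1 : 0 ≤ z1) (hz2 : 0 ≤ z2) :
    D1 (1 - t) (1 - s) (xw + 1) (s - yw) z1 z2 := by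
  have hs := h.sep _ _ _ _ hp hq hne
  rw [← e1, ← e2] at hs
  have h1 := h.st; have h2 := h.ts; have h3 := h.d1; have h4 := h.d2
  have hx1 := h.x2 _ _ hw
  have hy1 := h.y2 _ _ hw
  have nTL := h.diam _ _ _ _ h.T h.L
  have f1 : t - -1 = 2 - (1 - t) := by ring
  rw [f1] at nTL
  have nRw := h.diam _ _ _ _ h.R hw
  have f2 : 1 - xw = 2 - (xw + 1) := by ring
  rw [f2] at nRw
  have nTw := h.diam _ _ _ _ h.T hw
  have f3 : t - xw = 2 - (xw + 1) - (1 - t) := by ring
  have f4 : 1 - yw = s - yw + (1 - s) := by ring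
  rw [f3, f4] at nTw
  have nRB := h.diam _ _ _ _ h.R h.B
  have f5 : s - -1 = 2 - (1 - s) := by ring
  rw [f5] at nRB
  have sL := h.sep _ _ _ _ h.L hw (by
    rcases hL with hh | hh
    · left; exact fun e => hh e.symm
    · right; exact fun e => hh e.symm)
  have f6 : -1 - xw = -(xw + 1) := by ring
  rw [f6] at sL
  have sL' := h.l1' (x := xw + 1) (y := s - yw) (by linarith) (by linarith)
  have sB := h.sep _ _ _ _ hw h.B hB
  have f7 : xw - t = -(t - xw) := by ring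
  rw [f7] at sB
  have sB' := h.l1' (x := t - xw) (y := yw - -1) (by linarith) (by linarith)
  refine hexfacet h.pn (by linarith) (by linarith) (by linarith) (by linarith) (by linarith)
    (by linarith) (by linarith) (by linarith) (by linarith) ?_ h.n0 h.n3 nTL nRw nTw nRB hz1 hz2 hs
  linarith

theorem Main.hex2 {N : ℝ → ℝ → ℝ} {S : ℝ → ℝ → Prop} {s t : ℝ} (h : Main N S s t)
    {xq yq : ℝ} (hw : S xq yq) (hx : xq ≤ t) (hy : s ≤ yq)
    (hout : (xq + 1) * (1 - s) ≤ (yq - s) * (1 + t))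
    (hL : xq ≠ -1 ∨ yq ≠ s) (hT : xq ≠ t ∨ yq ≠ 1)
    {x y x' y' z1 z2 : ℝ} (hp : S x y) (hq : S x' y') (hne : x ≠ x' ∨ y ≠ y')
    (e1 : z1 = x' - x) (e2 : z2 = y - y') (hz1 : 0 ≤ z1) (hz2 : 0 ≤ z2) :
    D1 (1 - t) (2 - (1 - s)) (xq + 1) (yq - s) z1 z2 := by
  have := h.flipy.hex1 (xw := xq) (yw := -yq) (x := x') (y := -y') (x' := x) (y' := -y)
    (z1 := z1) (z2 := z2) (by simpa using hw) hx (by linarith) (by linarith)
    (by
      rcases hL with hh | hh
      · left; exact hh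
      · right; intro e; apply hh; linarith)
    (by
      rcases hT with hh | hh
      · left; exact hh
      · right; intro e; apply hh; linarith)
    (by simpa using hq) (by simpa using hp)
    (by
      rcases hne with hh | hh
      · left; exact fun e => hh e.symm
      · right; intro e; apply hh; linarith)
    e1 (by rw [e2]; ring) hz1 hz2
  have g1 : 1 - -s = 2 - (1 - s) := by ring
  have g2 : -s - -yq = yq - s := by ring
  rw [g1, g2] at this
  exact this

/-- `p` is distinct from the four extreme points -/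
structure NC (s t x y : ℝ) : Prop where
  R : 1 ≠ x ∨ s ≠ y
  L : -1 ≠ x ∨ s ≠ y
  T : t ≠ x ∨ 1 ≠ y
  B : x ≠ t ∨ y ≠ -1

theorem or_symm' {a b c d : ℝ} (h : a ≠ b ∨ c ≠ d) : b ≠ a ∨ d ≠ c := by
  rcases h with h | h
  · left; exact h.symm
  · right; exact h.symm

theorem NC.flipy {s t x y : ℝ} (h : NC s t x y) : NC (-s) t x (-y) := by
  constructor
  · rcases h.R with h | h
    · left; exact h
    · right; intro e; apply h; linarith
  · rcases h.L with h | h
    · left; exact h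
    · right; intro e; apply h; linarith
  · rcases h.B with h | h
    · left; exact h.symm
    · right; intro e; apply h; linarith
  · rcases h.T with h | h
    · left; exact h.symm
    · right; intro e; apply h; linarith

theorem claim_dd_aux {N : ℝ → ℝ → ℝ} {S : ℝ → ℝ → Prop} {s t : ℝ} (h : Main N S s t)
    {x y x' y' : ℝ} (hp : S x y) (hp' : S x' y') (nc : NC s t x y) (nc' : NC s t x' y')
    (ne : x ≠ x' ∨ y ≠ y')
    (hx : x ≤ t) (hy : y ≤ s) (hin : (s - y) * (1 + t) ≤ (x + 1) * (1 + s))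
    (hx' : x' ≤ t) (hy' : y' ≤ s) (hin' : (s - y') * (1 + t) ≤ (x' + 1) * (1 + s))
    (hxx : x' ≤ x) : False := by
  have h1 := h.st; have h2 := h.ts; have h3 := h.d1; have h4 := h.d2
  have b1 := h.x1 _ _ hp; have b2 := h.x2 _ _ hp; have b3 := h.y1 _ _ hp; have b4 := h.y2 _ _ hp
  have b1' := h.x1 _ _ hp'; have b2' := h.x2 _ _ hp'; have b3' := h.y1 _ _ hp'
  have b4' := h.y2 _ _ hp'
  refine dd_arith (c1 := 1 - t) (c2 := 1 - s) (x1 := 1 - x') (x2 := s - y') (r1 := 1 - x)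
    (r2 := s - y) (by constructor <;> linarith)
    (h.q2 h.L hp nc.L (by ring) (by ring) (by linarith) (by linarith))
    (h.q2 hp h.B nc.B (by ring) (by ring) (by linarith) (by linarith))
    (h.q1 h.R hp nc.R (by ring) (by ring) (by linarith) (by linarith))
    (h.q2 h.L hp' nc'.L (by ring) (by ring) (by linarith) (by linarith)) ?_
  rcases le_total y' y with hh | hh
  · exact Or.inl ⟨by linarith, h.q1 hp hp' ne (by ring) (by ring) (by linarith) (by linarith)⟩
  · exact Or.inr ⟨by linarith, h.q2 hp' hp (or_symm' ne) (by ring) (by ring) (by linarith)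
      (by linarith)⟩

theorem claim_dd {N : ℝ → ℝ → ℝ} {S : ℝ → ℝ → Prop} {s t : ℝ} (h : Main N S s t)
    {x y x' y' : ℝ} (hp : S x y) (hp' : S x' y') (nc : NC s t x y) (nc' : NC s t x' y')
    (ne : x ≠ x' ∨ y ≠ y')
    (hx : x ≤ t) (hy : y ≤ s) (hin : (s - y) * (1 + t) ≤ (x + 1) * (1 + s))
    (hx' : x' ≤ t) (hy' : y' ≤ s) (hin' : (s - y') * (1 + t) ≤ (x' + 1) * (1 + s)) : False := by
  rcases le_total x' x with hh | hh
  · exact claim_dd_aux h hp hp' nc nc' ne hx hy hin hx' hy' hin' hh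
  · exact claim_dd_aux h hp' hp nc' nc (or_symm' ne) hx' hy' hin' hx hy hin hh

theorem claim_ud {N : ℝ → ℝ → ℝ} {S : ℝ → ℝ → Prop} {s t : ℝ} (h : Main N S s t)
    {x y x' y' : ℝ} (hq : S x y) (hp : S x' y') (nq : NC s t x y) (np : NC s t x' y')
    (ne : x ≠ x' ∨ y ≠ y')
    (hx : x ≤ t) (hy : s ≤ y) (hin : (y - s) * (1 + t) ≤ (x + 1) * (1 - s))
    (hx' : x' ≤ t) (hy' : y' ≤ s) (hin' : (s - y') * (1 + t) ≤ (x' + 1) * (1 + s)) : False := by
  have h1 := h.st; have h2 := h.ts; have h3 := h.d1; have h4 := h.d2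
  have b1 := h.x1 _ _ hq; have b2 := h.x2 _ _ hq; have b3 := h.y1 _ _ hq; have b4 := h.y2 _ _ hq
  have b1' := h.x1 _ _ hp; have b2' := h.x2 _ _ hp; have b3' := h.y1 _ _ hp
  have b4' := h.y2 _ _ hp
  refine ud_arith (c1 := 1 - t) (c2 := 1 - s) (x1 := x + 1) (x2 := y - s) (r1 := 1 - x')
    (r2 := s - y') (by constructor <;> linarith)
    (h.q1 hq h.L (or_symm' nq.L) (by ring) (by ring) (by linarith) (by linarith))
    (h.q1 h.T hq nq.T (by ring) (by ring) (by linarith) (by linarith))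
    (h.q2 h.L hp np.L (by ring) (by ring) (by linarith) (by linarith))
    (h.q2 hp h.B np.B (by ring) (by ring) (by linarith) (by linarith)) ?_
  rcases le_total x x' with hh | hh
  · exact Or.inl ⟨by linarith, h.q2 hq hp ne (by ring) (by ring) (by linarith) (by linarith)⟩
  · exact Or.inr ⟨by linarith, h.q1 hq hp ne (by ring) (by ring) (by linarith)
      (by linarith)⟩

theorem claim_DD_aux {N : ℝ → ℝ → ℝ} {S : ℝ → ℝ → Prop} {s t : ℝ} (h : Main N S s t)
    {x y x' y' : ℝ} (hp : S x y) (hp' : S x' y') (nc : NC s t x y) (nc' : NC s t x' y')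
    (ne : x ≠ x' ∨ y ≠ y')
    (hx : x ≤ t) (hy : y ≤ s) (hin : (x + 1) * (1 + s) ≤ (s - y) * (1 + t))
    (hx' : x' ≤ t) (hy' : y' ≤ s) (hin' : (x' + 1) * (1 + s) ≤ (s - y') * (1 + t))
    (hxx : x' ≤ x) : False := by
  have h1 := h.st; have h2 := h.ts; have h3 := h.d1; have h4 := h.d2
  have b1 := h.x1 _ _ hp; have b2 := h.x2 _ _ hp; have b3 := h.y1 _ _ hp; have b4 := h.y2 _ _ hp
  have b1' := h.x1 _ _ hp'; have b2' := h.x2 _ _ hp'; have b3' := h.y1 _ _ hp'
  have b4' := h.y2 _ _ hp'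
  refine DD_arith (c1 := 1 - t) (c2 := 1 - s) (x1 := x' + 1) (x2 := s - y') (a1 := x + 1)
    (a2 := s - y) (by constructor <;> linarith)
    (h.q2 h.L hp nc.L (by ring) (by ring) (by linarith) (by linarith))
    (h.q2 hp h.B nc.B (by ring) (by ring) (by linarith) (by linarith))
    (h.q2 h.L hp' nc'.L (by ring) (by ring) (by linarith) (by linarith)) ?_
  rcases le_total y' y with hh | hh
  · exact Or.inr ⟨by linarith, h.hex1 hp' hx' hy' hin' (or_symm' nc'.L) nc'.B hp hp' ne (by ring)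
      (by ring) (by linarith) (by linarith)⟩
  · exact Or.inl ⟨by linarith, h.q2 hp' hp (or_symm' ne) (by ring) (by ring) (by linarith)
      (by linarith)⟩

theorem claim_DD {N : ℝ → ℝ → ℝ} {S : ℝ → ℝ → Prop} {s t : ℝ} (h : Main N S s t)
    {x y x' y' : ℝ} (hp : S x y) (hp' : S x' y') (nc : NC s t x y) (nc' : NC s t x' y')
    (ne : x ≠ x' ∨ y ≠ y')
    (hx : x ≤ t) (hy : y ≤ s) (hin : (x + 1) * (1 + s) ≤ (s - y) * (1 + t))
    (hx' : x' ≤ t) (hy' : y' ≤ s) (hin' : (x' + 1) * (1 + s) ≤ (s - y') * (1 + t)) : False := by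
  rcases le_total x' x with hh | hh
  · exact claim_DD_aux h hp hp' nc nc' ne hx hy hin hx' hy' hin' hh
  · exact claim_DD_aux h hp' hp nc' nc (or_symm' ne) hx' hy' hin' hx hy hin hh

end H407R3.Seven
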