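import Pool.Agent.H407R3.Seven.Tab
import Pool.Agent.H407R3.Seven.Tcb
import Pool.Agent.H407R3.Seven.Tca

set_option maxRecDepth 20000

namespace H407R3.Seven

theorem Utop_aa {c1 c2 a1 a2 B1 B2 r1 r2 : ℝ} (hb : Base c1 c2 a1 a2 B1 B2 r1 r2) (k0 : Y1 c1 c2 a1 a2 a1 a2 (2-c1-B1) (c2-B2)) (k1 : Y1 c1 c2 a1 a2 a1 a2 B1 B2) : False := by
  linarith [(sub_pos.2 k0.TL),
    (sub_pos.2 k1.TL)]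

theorem Utop_ac {c1 c2 a1 a2 B1 B2 r1 r2 : ℝ} (hb : Base c1 c2 a1 a2 B1 B2 r1 r2) (k0 : Y1 c1 c2 a1 a2 a1 a2 (2-c1-B1) (c2-B2)) (k1 : Y1 c1 c2 a1 a2 c1 c2 B1 B2) : False := by
  linarith [(mul_pos (sub_pos.2 k1.RL) (k0.pos hb.a2n)),
    (mul_nonneg ((sub_pos.2 k0.RL)).le hb.qout),
    (mul_nonneg (mul_nonneg ((sub_pos.2 k0.TL)).le hb.A2n) hb.A2n),
    (mul_nonneg (mul_nonneg ((sub_pos.2 k0.TL)).le hb.A2n) hb.B2n),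
    (mul_nonneg (mul_nonneg ((sub_pos.2 k0.TL)).le hb.b1n) hb.A2n),
    (mul_nonneg (mul_nonneg ((sub_pos.2 k0.TL)).le hb.a1n) hb.A2n),
    (mul_nonneg ((mul_pos (sub_pos.2 k0.TL) hb.RB1)).le hb.A2n)]

theorem Utop_ba {c1 c2 a1 a2 B1 B2 r1 r2 : ℝ} (hb : Base c1 c2 a1 a2 B1 B2 r1 r2) (k0 : Y1 c1 c2 a1 a2 (2-c1-a1) (2-c2-a2) (2-c1-B1) (c2-B2)) (k1 : Y1 c1 c2 a1 a2 a1 a2 B1 B2) : False := by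
  linarith [(mul_pos (sub_pos.2 k0.TB) (k1.pos hb.a2n)),
    (mul_nonneg ((sub_pos.2 k1.TB)).le hb.wout),
    (mul_nonneg (mul_nonneg hb.wout hb.a1n) hb.A1n),
    (mul_nonneg (mul_nonneg hb.wout hb.a1n) hb.A2n),
    (mul_nonneg hb.qout hb.wout),
    (mul_nonneg (mul_nonneg hb.wout hb.a1n) hb.B1n),
    (mul_nonneg (mul_nonneg hb.wout hb.a1n) hb.B2n),
    (mul_nonneg (mul_nonneg hb.wout (hb.RB1).le) hb.a1n),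
    (mul_nonneg (mul_nonneg ((sub_pos.2 k1.TL)).le hb.b2n) hb.B1n),
    (mul_nonneg (mul_nonneg ((sub_pos.2 k1.TL)).le hb.b1n) hb.B2n)]

theorem Utop_bb {c1 c2 a1 a2 B1 B2 r1 r2 : ℝ} (hb : Base c1 c2 a1 a2 B1 B2 r1 r2) (k0 : Y1 c1 c2 a1 a2 (2-c1-a1) (2-c2-a2) (2-c1-B1) (c2-B2)) (k1 : Y1 c1 c2 a1 a2 (2-c1-a1) (2-c2-a2) B1 B2) : False := by
  linarith [(mul_pos (sub_pos.2 k1.TB) hb.pc2),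
    (mul_pos (sub_pos.2 k0.TB) hb.pc2),
    (mul_nonneg hb.wout (hb.pc2).le)]

theorem Utop_bc {c1 c2 a1 a2 B1 B2 r1 r2 : ℝ} (hb : Base c1 c2 a1 a2 B1 B2 r1 r2) (k0 : Y1 c1 c2 a1 a2 (2-c1-a1) (2-c2-a2) (2-c1-B1) (c2-B2)) (k1 : Y1 c1 c2 a1 a2 c1 c2 B1 B2) : False := by
  linarith [(mul_pos (sub_pos.2 k0.TL) hb.TR1),
    (mul_nonneg (mul_nonneg ((sub_pos.2 k0.TL)).le hb.b1n) hb.c21),
    (mul_nonneg (mul_nonneg ((sub_pos.2 k0.TB)).le hb.a1n) hb.c21),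
    (mul_nonneg (mul_nonneg hb.wout hb.a1n) hb.c21),
    (mul_nonneg (mul_nonneg ((sub_pos.2 k1.RL)).le hb.b1n) hb.B2n),
    (mul_pos (sub_pos.2 k1.RL) (k0.pos hb.b2n)),
    (mul_nonneg (mul_nonneg ((sub_pos.2 k1.RL)).le hb.b2n) hb.B1n),
    (mul_nonneg (mul_nonneg hb.wout (hb.TR1).le) hb.B2n),
    (sub_pos.2 k0.TB),
    (mul_nonneg hb.wout (hb.RB1).le),
    (mul_nonneg (mul_nonneg ((sub_pos.2 k0.TL)).le hb.A2n) hb.c21),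
    (mul_nonneg (mul_nonneg hb.qout hb.b2n) hb.c21),
    (mul_nonneg (mul_nonneg hb.wout hb.A1n) hb.c21),
    (mul_nonneg hb.wout hb.A1n),
    (mul_nonneg ((mul_pos (sub_pos.2 k0.TB) hb.TR1)).le hb.B1n),
    (mul_nonneg (mul_nonneg hb.qout hb.b1n) hb.c21),
    (mul_nonneg (mul_nonneg hb.wout (hb.TR1).le) hb.c12),
    (mul_nonneg (mul_nonneg hb.wout hb.B1n) hb.c12),
    (mul_nonneg ((mul_pos (sub_pos.2 k0.TL) hb.RB1)).le hb.c21),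
    (mul_nonneg hb.qout hb.wout),
    (mul_nonneg (mul_nonneg ((sub_pos.2 k1.RL)).le hb.b1n) hb.c12),
    (mul_nonneg ((mul_pos (sub_pos.2 k0.TL) hb.TR1)).le hb.c12),
    (mul_nonneg (mul_nonneg ((sub_pos.2 k0.TB)).le hb.B1n) hb.c21),
    (mul_nonneg (mul_nonneg ((sub_pos.2 k1.RL)).le hb.b1n) hb.c21),
    (mul_nonneg ((sub_pos.2 k0.TB)).le hb.B1n),
    (mul_nonneg (mul_nonneg hb.wout (hb.RB1).le) hb.a2n),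
    (mul_nonneg ((sub_pos.2 k0.TB)).le hb.B2n),
    (mul_nonneg ((mul_pos (sub_pos.2 k0.TL) hb.TR1)).le hb.B2n),
    (mul_nonneg (mul_nonneg hb.wout (hb.RB1).le) hb.B2n),
    (mul_nonneg ((sub_pos.2 k1.Rw)).le hb.wout),
    (mul_nonneg (mul_nonneg hb.wout (hb.TR1).le) hb.a2n),
    (mul_nonneg (mul_nonneg hb.wout hb.c21) hb.c21),
    (mul_nonneg hb.wout hb.b1n),
    (mul_nonneg (mul_nonneg hb.wout hb.a1n) hb.b2n),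
    (mul_nonneg (mul_nonneg hb.wout hb.a1n) hb.a2n)]

theorem Utop_cc {c1 c2 a1 a2 B1 B2 r1 r2 : ℝ} (hb : Base c1 c2 a1 a2 B1 B2 r1 r2) (k0 : Y1 c1 c2 a1 a2 c1 c2 (2-c1-B1) (c2-B2)) (k1 : Y1 c1 c2 a1 a2 c1 c2 B1 B2) : False := by
  linarith [(sub_pos.2 k0.RL),
    (sub_pos.2 k1.RL)]

theorem Uca_all {c1 c2 a1 a2 B1 B2 r1 r2 : ℝ} (hb : Base c1 c2 a1 a2 B1 B2 r1 r2) (dca : 0 ≤ c2*a1-c1*a2)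
    (hTq : Y1 c1 c2 a1 a2 c1 c2 (2-c1-B1) (c2-B2)) (hqL : Y1 c1 c2 a1 a2 a1 a2 B1 B2)
    (h_Rp : D1 c1 c2 a1 a2 r1 r2)
    (h_Lw : D1 c1 (2-c2) B1 B2 a1 a2) (h_wB : D1 c1 (2-c2) B1 B2 (2-c1-a1) (2-c2-a2))
    (h_Lp : D1 c1 (2-c2) B1 B2 (2-r1) r2) (h_pB : D1 c1 (2-c2) B1 B2 (r1-c1) (2-c2-r2))
    (h_qp : (0 ≤ 2-r1-B1 ∧ D1 c1 (2-c2) B1 B2 (2-r1-B1) (r2+B2)) ∨ (0 ≤ -(2-r1-B1) ∧ D1 c1 c2 a1 a2 (-(2-r1-B1)) (r2+B2)))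
    (h_pw : (0 ≤ 2-a1-r1 ∧ 0 ≤ a2-r2 ∧ D1 c1 c2 a1 a2 (2-a1-r1) (a2-r2)) ∨ (0 ≤ -(2-a1-r1) ∧ 0 ≤ a2-r2 ∧ D1 c1 (2-c2) B1 B2 (-(2-a1-r1)) (a2-r2)) ∨ (0 ≤ 2-a1-r1 ∧ 0 ≤ -(a2-r2) ∧ D1 c1 (2-c2) B1 B2 (2-a1-r1) (-(a2-r2)))) : False := by
  rcases h_Lw with hLw | hLw | hLw
  · rcases h_wB with hwB | hwB | hwB
    · exact K1 hb dca hLw hwB
    · exact K30 hb dca hLw hwB
    · rcases h_Rp with hRp | hRp | hRp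
      · exact Uca_D2a hb dca hTq hqL hLw hwB hRp h_Lp h_pB h_qp h_pw
      · exact Uca_D2b hb dca hTq hqL hLw hwB hRp h_Lp h_pB h_pw
      · exact Uca_D2c hb dca hTq hqL hLw hwB hRp h_Lp h_pB h_qp h_pw
  · exact Uca_caF1 hb dca hTq hqL hLw h_Rp h_wB h_Lp h_pB h_qp h_pw
  · exact Uca_caF3 hb dca hTq hqL hLw h_wB

theorem UdD_arith {c1 c2 a1 a2 B1 B2 r1 r2 : ℝ} (hb : Base c1 c2 a1 a2 B1 B2 r1 r2)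
    (h_Tq : D1 c1 c2 a1 a2 (2-c1-B1) (c2-B2)) (h_qL : D1 c1 c2 a1 a2 B1 B2)
    (h_Rp : D1 c1 c2 a1 a2 r1 r2)
    (h_Lw : D1 c1 (2-c2) B1 B2 a1 a2) (h_wB : D1 c1 (2-c2) B1 B2 (2-c1-a1) (2-c2-a2))
    (h_Lp : D1 c1 (2-c2) B1 B2 (2-r1) r2) (h_pB : D1 c1 (2-c2) B1 B2 (r1-c1) (2-c2-r2))
    (h_qp : (0 ≤ 2-r1-B1 ∧ D1 c1 (2-c2) B1 B2 (2-r1-B1) (r2+B2)) ∨ (0 ≤ -(2-r1-B1) ∧ D1 c1 c2 a1 a2 (-(2-r1-B1)) (r2+B2)))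
    (h_pw : (0 ≤ 2-a1-r1 ∧ 0 ≤ a2-r2 ∧ D1 c1 c2 a1 a2 (2-a1-r1) (a2-r2)) ∨ (0 ≤ -(2-a1-r1) ∧ 0 ≤ a2-r2 ∧ D1 c1 (2-c2) B1 B2 (-(2-a1-r1)) (a2-r2)) ∨ (0 ≤ 2-a1-r1 ∧ 0 ≤ -(a2-r2) ∧ D1 c1 (2-c2) B1 B2 (2-a1-r1) (-(a2-r2)))) : False := by
  rcases h_Tq with hTq | hTq | hTq
  · rcases h_qL with hqL | hqL | hqL
    · exact Utop_aa hb hTq hqL
    · exact Uab2_arith hb hTq hqL h_Rp h_Lw h_wB h_Lp h_pB h_pw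
    · exact Utop_ac hb hTq hqL
  · rcases h_qL with hqL | hqL | hqL
    · exact Utop_ba hb hTq hqL
    · exact Utop_bb hb hTq hqL
    · exact Utop_bc hb hTq hqL
  · rcases h_qL with hqL | hqL | hqL
    · exact Uca_all hb (dca_of hb hTq hqL) hTq hqL h_Rp h_Lw h_wB h_Lp h_pB h_qp h_pw
    · exact Ucb_arith hb hTq hqL h_Rp h_Lw h_wB h_Lp h_pB h_pw
    · exact Utop_cc hb hTq hqL


end H407R3.Seven
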