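import Pool.Agent.H407R3.Seven.Claims
import Pool.Agent.H407R3.Seven.UdD

namespace H407R3.Seven

theorem claim_UdD {N : ℝ → ℝ → ℝ} {S : ℝ → ℝ → Prop} {s t : ℝ} (h : Main N S s t)
    {xq yq xp yp xw yw : ℝ} (hq : S xq yq) (hp : S xp yp) (hw : S xw yw)
    (nq : NC s t xq yq) (np : NC s t xp yp) (nw : NC s t xw yw)
    (neqp : xq ≠ xp ∨ yq ≠ yp) (nepw : xp ≠ xw ∨ yp ≠ yw)
    (hqx : xq ≤ t) (hqy : s ≤ yq) (hqo : (xq + 1) * (1 - s) ≤ (yq - s) * (1 + t))
    (hpx : xp ≤ t) (hpy : yp ≤ s) (hpi : (s - yp) * (1 + t) ≤ (xp + 1) * (1 + s))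
    (hwx : xw ≤ t) (hwy : yw ≤ s) (hwo : (xw + 1) * (1 + s) ≤ (s - yw) * (1 + t)) : False := by
  have h1 := h.st; have h2 := h.ts; have h3 := h.d1; have h4 := h.d2
  have q1 := h.x1 _ _ hq; have q2 := h.x2 _ _ hq; have q3 := h.y1 _ _ hq; have q4 := h.y2 _ _ hq
  have p1 := h.x1 _ _ hp; have p2 := h.x2 _ _ hp; have p3 := h.y1 _ _ hp; have p4 := h.y2 _ _ hp
  have w1 := h.x1 _ _ hw; have w2 := h.x2 _ _ hw; have w3 := h.y1 _ _ hw; have w4 := h.y2 _ _ hw
  have wL := or_symm' nw.L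
  have qL := or_symm' nq.L
  have qT := or_symm' nq.T
  refine UdD_arith (c1 := 1 - t) (c2 := 1 - s) (a1 := xw + 1) (a2 := s - yw) (B1 := xq + 1)
    (B2 := yq - s) (r1 := 1 - xp) (r2 := s - yp) (by constructor <;> linarith)
    (h.hex1 hw hwx hwy hwo wL nw.B h.T hq nq.T (by ring) (by ring) (by linarith) (by linarith))
    (h.hex1 hw hwx hwy hwo wL nw.B hq h.L qL (by ring) (by ring) (by linarith) (by linarith))
    (h.hex1 hw hwx hwy hwo wL nw.B h.R hp np.R (by ring) (by ring) (by linarith) (by linarith))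
    (h.hex2 hq hqx hqy hqo qL qT h.L hw nw.L (by ring) (by ring) (by linarith) (by linarith))
    (h.hex2 hq hqx hqy hqo qL qT hw h.B nw.B (by ring) (by ring) (by linarith) (by linarith))
    (h.hex2 hq hqx hqy hqo qL qT h.L hp np.L (by ring) (by ring) (by linarith) (by linarith))
    (h.hex2 hq hqx hqy hqo qL qT hp h.B np.B (by ring) (by ring) (by linarith) (by linarith))
    ?_ ?_
  · rcases le_total xq xp with hh | hh
    · exact Or.inl ⟨by linarith, h.hex2 hq hqx hqy hqo qL qT hq hp neqp (by ring) (by ring)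
        (by linarith) (by linarith)⟩
    · exact Or.inr ⟨by linarith, h.hex1 hw hwx hwy hwo wL nw.B hq hp neqp (by ring) (by ring)
        (by linarith) (by linarith)⟩
  · rcases le_total yw yp with hh | hh
    · rcases le_total xw xp with hh' | hh'
      · exact Or.inl ⟨by linarith, by linarith, h.hex1 hw hwx hwy hwo wL nw.B hp hw nepw
          (by ring) (by ring) (by linarith) (by linarith)⟩
      · exact Or.inr (Or.inl ⟨by linarith, by linarith, h.hex2 hq hqx hqy hqo qL qT hp hw nepw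
          (by ring) (by ring) (by linarith) (by linarith)⟩)
    · rcases le_total xw xp with hh' | hh'
      · exact Or.inr (Or.inr ⟨by linarith, by linarith, h.hex2 hq hqx hqy hqo qL qT hw hp
          (or_symm' nepw) (by ring) (by ring) (by linarith) (by linarith)⟩)
      · -- p below and left of w: impossible since w is outside and p inside
        exfalso
        have e : (s - yp) * (1 + t) ≤ (s - yw) * (1 + t) := by
          have m1 : (xp + 1) * (1 + s) ≤ (xw + 1) * (1 + s) :=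
            mul_le_mul_of_nonneg_right (by linarith) (by linarith)
          linarith
        have e2 : s - yp ≤ s - yw := le_of_mul_le_mul_right e (by linarith)
        have ey : yp = yw := by linarith
        have ex : (xw + 1) * (1 + s) ≤ (xp + 1) * (1 + s) := by
          rw [ey] at hpi; linarith
        have ex2 : xw + 1 ≤ xp + 1 := le_of_mul_le_mul_right ex (by linarith)
        rcases nepw with hn | hn
        · exact hn (by linarith)
        · exact hn ey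

def IsU (s t x y : ℝ) : Prop := x ≤ t ∧ s ≤ y ∧ (x + 1) * (1 - s) ≤ (y - s) * (1 + t)
def Isu (s t x y : ℝ) : Prop := x ≤ t ∧ s ≤ y ∧ (y - s) * (1 + t) ≤ (x + 1) * (1 - s)
def Isd (s t x y : ℝ) : Prop := x ≤ t ∧ y ≤ s ∧ (s - y) * (1 + t) ≤ (x + 1) * (1 + s)
def IsD (s t x y : ℝ) : Prop := x ≤ t ∧ y ≤ s ∧ (x + 1) * (1 + s) ≤ (s - y) * (1 + t)

theorem IsU.flip {s t x y : ℝ} (h : IsU s t x y) : IsD (-s) t x (-y) :=
  ⟨h.1, by linarith [h.2.1], by linarith [h.2.2]⟩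
theorem Isu.flip {s t x y : ℝ} (h : Isu s t x y) : Isd (-s) t x (-y) :=
  ⟨h.1, by linarith [h.2.1], by linarith [h.2.2]⟩
theorem IsD.flip {s t x y : ℝ} (h : IsD s t x y) : IsU (-s) t x (-y) :=
  ⟨h.1, by linarith [h.2.1], by linarith [h.2.2]⟩

section
variable {N : ℝ → ℝ → ℝ} {S : ℝ → ℝ → Prop} {s t : ℝ}

theorem flipS {x y : ℝ} (h : S x y) : (fun x y => S x (-y)) x (-y) := by
  show S x (- -y)
  rw [neg_neg]; exact h

theorem flipne {x y x' y' : ℝ} (h : x ≠ x' ∨ y ≠ y') : x ≠ x' ∨ -y ≠ -y' := by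
  rcases h with h | h
  · left; exact h
  · right; intro e; exact h (neg_injective e)

theorem claim_dd_ (h : Main N S s t) {x y x' y' : ℝ} (hp : S x y) (hp' : S x' y')
    (nc : NC s t x y) (nc' : NC s t x' y') (ne : x ≠ x' ∨ y ≠ y')
    (c : Isd s t x y) (c' : Isd s t x' y') : False :=
  claim_dd h hp hp' nc nc' ne c.1 c.2.1 c.2.2 c'.1 c'.2.1 c'.2.2

theorem claim_DD_ (h : Main N S s t) {x y x' y' : ℝ} (hp : S x y) (hp' : S x' y')
    (nc : NC s t x y) (nc' : NC s t x' y') (ne : x ≠ x' ∨ y ≠ y')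
    (c : IsD s t x y) (c' : IsD s t x' y') : False :=
  claim_DD h hp hp' nc nc' ne c.1 c.2.1 c.2.2 c'.1 c'.2.1 c'.2.2

theorem claim_ud_ (h : Main N S s t) {x y x' y' : ℝ} (hp : S x y) (hp' : S x' y')
    (nc : NC s t x y) (nc' : NC s t x' y') (ne : x ≠ x' ∨ y ≠ y')
    (c : Isu s t x y) (c' : Isd s t x' y') : False :=
  claim_ud h hp hp' nc nc' ne c.1 c.2.1 c.2.2 c'.1 c'.2.1 c'.2.2

theorem claim_uu (h : Main N S s t) {x y x' y' : ℝ} (hp : S x y) (hp' : S x' y')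
    (nc : NC s t x y) (nc' : NC s t x' y') (ne : x ≠ x' ∨ y ≠ y')
    (c : Isu s t x y) (c' : Isu s t x' y') : False :=
  claim_dd_ h.flipy (flipS hp) (flipS hp') nc.flipy nc'.flipy (flipne ne) c.flip c'.flip

theorem claim_UU (h : Main N S s t) {x y x' y' : ℝ} (hp : S x y) (hp' : S x' y')
    (nc : NC s t x y) (nc' : NC s t x' y') (ne : x ≠ x' ∨ y ≠ y')
    (c : IsU s t x y) (c' : IsU s t x' y') : False :=
  claim_DD_ h.flipy (flipS hp) (flipS hp') nc.flipy nc'.flipy (flipne ne) c.flip c'.flip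

theorem claim_UdD_ (h : Main N S s t) {xq yq xp yp xw yw : ℝ} (hq : S xq yq) (hp : S xp yp)
    (hw : S xw yw) (nq : NC s t xq yq) (np : NC s t xp yp) (nw : NC s t xw yw)
    (neqp : xq ≠ xp ∨ yq ≠ yp) (nepw : xp ≠ xw ∨ yp ≠ yw)
    (cq : IsU s t xq yq) (cp : Isd s t xp yp) (cw : IsD s t xw yw) : False :=
  claim_UdD h hq hp hw nq np nw neqp nepw cq.1 cq.2.1 cq.2.2 cp.1 cp.2.1 cp.2.2 cw.1 cw.2.1 cw.2.2

theorem claim_UuD_ (h : Main N S s t) {xq yq xp yp xw yw : ℝ} (hq : S xq yq) (hp : S xp yp)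
    (hw : S xw yw) (nq : NC s t xq yq) (np : NC s t xp yp) (nw : NC s t xw yw)
    (neqp : xq ≠ xp ∨ yq ≠ yp) (nepw : xp ≠ xw ∨ yp ≠ yw)
    (cq : IsU s t xq yq) (cp : Isu s t xp yp) (cw : IsD s t xw yw) : False :=
  claim_UdD_ h.flipy (flipS hw) (flipS hp) (flipS hq) nw.flipy np.flipy nq.flipy
    (flipne (or_symm' nepw)) (flipne (or_symm' neqp)) cw.flip cp.flip cq.flip

theorem cls (h : Main N S s t) {x y : ℝ} (hp : S x y) (nc : NC s t x y) :
    IsU s t x y ∨ Isu s t x y ∨ Isd s t x y ∨ IsD s t x y := by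
  have h1 := h.st; have h2 := h.ts; have h3 := h.d1; have h4 := h.d2
  have b1 := h.x1 _ _ hp; have b2 := h.x2 _ _ hp; have b3 := h.y1 _ _ hp; have b4 := h.y2 _ _ hp
  have hx : x ≤ t := by
    by_contra hcon
    have hcon := not_le.1 hcon
    rcases le_total s y with hy | hy
    · have g1 := h.sep _ _ _ _ h.R hp nc.R
      have g2 := h.sep _ _ _ _ h.T hp nc.T
      have e1 : s - y = -(y - s) := by ring
      have e2 : (1 : ℝ) - x = - -(1 - x) := by ring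
      rw [e1, e2, h.pn.neg] at g1
      have g1' := h.l1' (x := 1 - x) (y := y - s) (by linarith) (by linarith)
      have e3 : t - x = -(x - t) := by ring
      rw [e3] at g2
      have g2' := h.l1' (x := x - t) (y := 1 - y) (by linarith) (by linarith)
      linarith
    · have g1 := h.sep _ _ _ _ h.R hp nc.R
      have g2 := h.sep _ _ _ _ hp h.B nc.B
      have g1' := h.l1 (x := 1 - x) (y := s - y) (by linarith) (by linarith)
      have g2' := h.l1 (x := x - t) (y := y - -1) (by linarith) (by linarith)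
      linarith
  rcases le_total s y with hy | hy
  · rcases le_total ((x + 1) * (1 - s)) ((y - s) * (1 + t)) with hh | hh
    · exact Or.inl ⟨hx, hy, hh⟩
    · exact Or.inr (Or.inl ⟨hx, hy, hh⟩)
  · rcases le_total ((x + 1) * (1 + s)) ((s - y) * (1 + t)) with hh | hh
    · exact Or.inr (Or.inr (Or.inr ⟨hx, hy, hh⟩))
    · exact Or.inr (Or.inr (Or.inl ⟨hx, hy, hh⟩))

theorem no_three (h : Main N S s t) {x1 y1 x2 y2 x3 y3 : ℝ} (hp1 : S x1 y1) (hp2 : S x2 y2)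
    (hp3 : S x3 y3) (n1 : NC s t x1 y1) (n2 : NC s t x2 y2) (n3 : NC s t x3 y3)
    (ne12 : x1 ≠ x2 ∨ y1 ≠ y2) (ne13 : x1 ≠ x3 ∨ y1 ≠ y3) (ne23 : x2 ≠ x3 ∨ y2 ≠ y3) : False := by
  rcases cls h hp1 n1 with c1 | c1 | c1 | c1
  · rcases cls h hp2 n2 with c2 | c2 | c2 | c2
    · rcases cls h hp3 n3 with c3 | c3 | c3 | c3
      · exact claim_UU h hp1 hp2 n1 n2 ne12 c1 c2
      · exact claim_UU h hp1 hp2 n1 n2 ne12 c1 c2
      · exact claim_UU h hp1 hp2 n1 n2 ne12 c1 c2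
      · exact claim_UU h hp1 hp2 n1 n2 ne12 c1 c2
    · rcases cls h hp3 n3 with c3 | c3 | c3 | c3
      · exact claim_UU h hp1 hp3 n1 n3 ne13 c1 c3
      · exact claim_uu h hp2 hp3 n2 n3 ne23 c2 c3
      · exact claim_ud_ h hp2 hp3 n2 n3 ne23 c2 c3
      · exact claim_UuD_ h hp1 hp2 hp3 n1 n2 n3 ne12 ne23 c1 c2 c3
    · rcases cls h hp3 n3 with c3 | c3 | c3 | c3
      · exact claim_UU h hp1 hp3 n1 n3 ne13 c1 c3
      · exact claim_ud_ h hp3 hp2 n3 n2 (or_symm' ne23) c3 c2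
      · exact claim_dd_ h hp2 hp3 n2 n3 ne23 c2 c3
      · exact claim_UdD_ h hp1 hp2 hp3 n1 n2 n3 ne12 ne23 c1 c2 c3
    · rcases cls h hp3 n3 with c3 | c3 | c3 | c3
      · exact claim_UU h hp1 hp3 n1 n3 ne13 c1 c3
      · exact claim_UuD_ h hp1 hp3 hp2 n1 n3 n2 ne13 (or_symm' ne23) c1 c3 c2
      · exact claim_UdD_ h hp1 hp3 hp2 n1 n3 n2 ne13 (or_symm' ne23) c1 c3 c2
      · exact claim_DD_ h hp2 hp3 n2 n3 ne23 c2 c3
  · rcases cls h hp2 n2 with c2 | c2 | c2 | c2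
    · rcases cls h hp3 n3 with c3 | c3 | c3 | c3
      · exact claim_UU h hp2 hp3 n2 n3 ne23 c2 c3
      · exact claim_uu h hp1 hp3 n1 n3 ne13 c1 c3
      · exact claim_ud_ h hp1 hp3 n1 n3 ne13 c1 c3
      · exact claim_UuD_ h hp2 hp1 hp3 n2 n1 n3 (or_symm' ne12) ne13 c2 c1 c3
    · rcases cls h hp3 n3 with c3 | c3 | c3 | c3
      · exact claim_uu h hp1 hp2 n1 n2 ne12 c1 c2
      · exact claim_uu h hp1 hp2 n1 n2 ne12 c1 c2
      · exact claim_uu h hp1 hp2 n1 n2 ne12 c1 c2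
      · exact claim_uu h hp1 hp2 n1 n2 ne12 c1 c2
    · rcases cls h hp3 n3 with c3 | c3 | c3 | c3
      · exact claim_ud_ h hp1 hp2 n1 n2 ne12 c1 c2
      · exact claim_ud_ h hp1 hp2 n1 n2 ne12 c1 c2
      · exact claim_ud_ h hp1 hp2 n1 n2 ne12 c1 c2
      · exact claim_ud_ h hp1 hp2 n1 n2 ne12 c1 c2
    · rcases cls h hp3 n3 with c3 | c3 | c3 | c3
      · exact claim_UuD_ h hp3 hp1 hp2 n3 n1 n2 (or_symm' ne13) ne12 c3 c1 c2
      · exact claim_uu h hp1 hp3 n1 n3 ne13 c1 c3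
      · exact claim_ud_ h hp1 hp3 n1 n3 ne13 c1 c3
      · exact claim_DD_ h hp2 hp3 n2 n3 ne23 c2 c3
  · rcases cls h hp2 n2 with c2 | c2 | c2 | c2
    · rcases cls h hp3 n3 with c3 | c3 | c3 | c3
      · exact claim_UU h hp2 hp3 n2 n3 ne23 c2 c3
      · exact claim_ud_ h hp3 hp1 n3 n1 (or_symm' ne13) c3 c1
      · exact claim_dd_ h hp1 hp3 n1 n3 ne13 c1 c3
      · exact claim_UdD_ h hp2 hp1 hp3 n2 n1 n3 (or_symm' ne12) ne13 c2 c1 c3
    · rcases cls h hp3 n3 with c3 | c3 | c3 | c3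
      · exact claim_ud_ h hp2 hp1 n2 n1 (or_symm' ne12) c2 c1
      · exact claim_ud_ h hp2 hp1 n2 n1 (or_symm' ne12) c2 c1
      · exact claim_ud_ h hp2 hp1 n2 n1 (or_symm' ne12) c2 c1
      · exact claim_ud_ h hp2 hp1 n2 n1 (or_symm' ne12) c2 c1
    · rcases cls h hp3 n3 with c3 | c3 | c3 | c3
      · exact claim_dd_ h hp1 hp2 n1 n2 ne12 c1 c2
      · exact claim_dd_ h hp1 hp2 n1 n2 ne12 c1 c2
      · exact claim_dd_ h hp1 hp2 n1 n2 ne12 c1 c2
      · exact claim_dd_ h hp1 hp2 n1 n2 ne12 c1 c2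
    · rcases cls h hp3 n3 with c3 | c3 | c3 | c3
      · exact claim_UdD_ h hp3 hp1 hp2 n3 n1 n2 (or_symm' ne13) ne12 c3 c1 c2
      · exact claim_ud_ h hp3 hp1 n3 n1 (or_symm' ne13) c3 c1
      · exact claim_dd_ h hp1 hp3 n1 n3 ne13 c1 c3
      · exact claim_DD_ h hp2 hp3 n2 n3 ne23 c2 c3
  · rcases cls h hp2 n2 with c2 | c2 | c2 | c2
    · rcases cls h hp3 n3 with c3 | c3 | c3 | c3
      · exact claim_UU h hp2 hp3 n2 n3 ne23 c2 c3
      · exact claim_UuD_ h hp2 hp3 hp1 n2 n3 n1 ne23 (or_symm' ne13) c2 c3 c1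
      · exact claim_UdD_ h hp2 hp3 hp1 n2 n3 n1 ne23 (or_symm' ne13) c2 c3 c1
      · exact claim_DD_ h hp1 hp3 n1 n3 ne13 c1 c3
    · rcases cls h hp3 n3 with c3 | c3 | c3 | c3
      · exact claim_UuD_ h hp3 hp2 hp1 n3 n2 n1 (or_symm' ne23) (or_symm' ne12) c3 c2 c1
      · exact claim_uu h hp2 hp3 n2 n3 ne23 c2 c3
      · exact claim_ud_ h hp2 hp3 n2 n3 ne23 c2 c3
      · exact claim_DD_ h hp1 hp3 n1 n3 ne13 c1 c3
    · rcases cls h hp3 n3 with c3 | c3 | c3 | c3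
      · exact claim_UdD_ h hp3 hp2 hp1 n3 n2 n1 (or_symm' ne23) (or_symm' ne12) c3 c2 c1
      · exact claim_ud_ h hp3 hp2 n3 n2 (or_symm' ne23) c3 c2
      · exact claim_dd_ h hp2 hp3 n2 n3 ne23 c2 c3
      · exact claim_DD_ h hp1 hp3 n1 n3 ne13 c1 c3
    · rcases cls h hp3 n3 with c3 | c3 | c3 | c3
      · exact claim_DD_ h hp1 hp2 n1 n2 ne12 c1 c2
      · exact claim_DD_ h hp1 hp2 n1 n2 ne12 c1 c2
      · exact claim_DD_ h hp1 hp2 n1 n2 ne12 c1 c2
      · exact claim_DD_ h hp1 hp2 n1 n2 ne12 c1 c2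

end

end H407R3.Seven
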