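import Pool.Agent.H407R3.Seven.Pairs

namespace H407R3.Seven

theorem facetQ {N : ℝ → ℝ → ℝ} (h : PN N) {c1 c2 z1 z2 : ℝ}
    (hc1 : 0 ≤ c1) (hc2 : 0 ≤ c2) (hg1 : 0 ≤ 2 - c1) (hg2 : 0 ≤ 2 - c2)
    (hs : 0 < (2 - c1) + (2 - c2)) (hd : c1 * (2 - c2) ≤ c2 * (2 - c1))
    (n0 : N 2 0 ≤ 2) (n3 : N 0 2 ≤ 2) (nTL : N (2 - c1) c2 ≤ 2)
    (hz1 : 0 ≤ z1) (hz2 : 0 ≤ z2) (hz : 1 < N z1 z2) : D0 c1 c2 z1 z2 := by
  have e1 : 2 - (2 - c2) = c2 := by ring
  rcases facet3 h (p1 := c1) (p2 := c2) (q1 := 0) (q2 := 0) (r1 := 2 - c1) (r2 := 2 - c2)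
    hc1 hc2 le_rfl le_rfl hg1 hg2 (by ring) (by ring) (by linarith) hd (by linarith) hs
    n0 nTL (by rw [e1]; exact nTL) n3 hz1 hz2 hz with H | H | H
  · left; linarith
  · exfalso; linarith
  · right; linarith

/-- A normalised configuration: all points in the box `[-1,1]²`, with the four extreme points
`(1,s), (-1,s), (t,1), (t,-1)` present, pairwise distances in `(1,2]`. -/
structure Good (N : ℝ → ℝ → ℝ) (S : ℝ → ℝ → Prop) (s t : ℝ) : Prop where
  pn : PN N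
  x1 : ∀ x y, S x y → x ≤ 1
  x2 : ∀ x y, S x y → -1 ≤ x
  y1 : ∀ x y, S x y → y ≤ 1
  y2 : ∀ x y, S x y → -1 ≤ y
  diam : ∀ x y x' y', S x y → S x' y' → N (x - x') (y - y') ≤ 2
  sep : ∀ x y x' y', S x y → S x' y' → (x ≠ x' ∨ y ≠ y') → 1 < N (x - x') (y - y')
  R : S 1 s
  L : S (-1) s
  T : S t 1
  B : S t (-1)

theorem Good.flipx {N : ℝ → ℝ → ℝ} {S : ℝ → ℝ → Prop} {s t : ℝ} (h : Good N S s t) :
    Good (fun x y => N (-x) y) (fun x y => S (-x) y) s (-t) where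
  pn := h.pn.flipx
  x1 := fun x y hx => by have := h.x2 _ _ hx; linarith
  x2 := fun x y hx => by have := h.x1 _ _ hx; linarith
  y1 := fun x y hx => h.y1 _ _ hx
  y2 := fun x y hx => h.y2 _ _ hx
  diam := fun x y x' y' h1 h2 => by
    have := h.diam _ _ _ _ h1 h2
    have e : -x - -x' = -(x - x') := by ring
    rwa [e] at this
  sep := fun x y x' y' h1 h2 hne => by
    have := h.sep _ _ _ _ h1 h2 (by
      rcases hne with hne | hne
      · left; intro hh; exact hne (neg_injective hh)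
      · right; exact hne)
    have e : -x - -x' = -(x - x') := by ring
    rwa [e] at this
  R := h.L
  L := by simpa using h.R
  T := by simpa using h.T
  B := by simpa using h.B

theorem Good.flipy {N : ℝ → ℝ → ℝ} {S : ℝ → ℝ → Prop} {s t : ℝ} (h : Good N S s t) :
    Good (fun x y => N x (-y)) (fun x y => S x (-y)) (-s) t where
  pn := h.pn.flipy
  x1 := fun x y hx => h.x1 _ _ hx
  x2 := fun x y hx => h.x2 _ _ hx
  y1 := fun x y hx => by have := h.y2 _ _ hx; linarith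
  y2 := fun x y hx => by have := h.y1 _ _ hx; linarith
  diam := fun x y x' y' h1 h2 => by
    have := h.diam _ _ _ _ h1 h2
    have e : -y - -y' = -(y - y') := by ring
    rwa [e] at this
  sep := fun x y x' y' h1 h2 hne => by
    have := h.sep _ _ _ _ h1 h2 (by
      rcases hne with hne | hne
      · left; exact hne
      · right; intro hh; exact hne (neg_injective hh))
    have e : -y - -y' = -(y - y') := by ring
    rwa [e] at this
  R := by simpa using h.R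
  L := by simpa using h.L
  T := h.B
  B := by simpa using h.T

theorem Good.swap {N : ℝ → ℝ → ℝ} {S : ℝ → ℝ → Prop} {s t : ℝ} (h : Good N S s t) :
    Good (fun x y => N y x) (fun x y => S y x) t s where
  pn := h.pn.swap
  x1 := fun x y hx => h.y1 _ _ hx
  x2 := fun x y hx => h.y2 _ _ hx
  y1 := fun x y hx => h.x1 _ _ hx
  y2 := fun x y hx => h.x2 _ _ hx
  diam := fun x y x' y' h1 h2 => h.diam _ _ _ _ h1 h2
  sep := fun x y x' y' h1 h2 hne => h.sep _ _ _ _ h1 h2 hne.symm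
  R := h.T
  L := h.B
  T := h.R
  B := h.L

theorem Good.n0 {N : ℝ → ℝ → ℝ} {S : ℝ → ℝ → Prop} {s t : ℝ} (h : Good N S s t) : N 2 0 ≤ 2 := by
  have := h.diam _ _ _ _ h.R h.L
  have e : (1 : ℝ) - -1 = 2 := by norm_num
  rwa [e, sub_self] at this

theorem Good.n3 {N : ℝ → ℝ → ℝ} {S : ℝ → ℝ → Prop} {s t : ℝ} (h : Good N S s t) : N 0 2 ≤ 2 := by
  have := h.diam _ _ _ _ h.T h.B
  have e : (1 : ℝ) - -1 = 2 := by norm_num
  rwa [e, sub_self] at this

/-- first-quadrant `ℓ₁` bound -/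
theorem Good.l1 {N : ℝ → ℝ → ℝ} {S : ℝ → ℝ → Prop} {s t : ℝ} (h : Good N S s t) {x y : ℝ}
    (hx : 0 ≤ x) (hy : 0 ≤ y) : N x y ≤ x + y := by
  have := h.pn.comb (α := x / 2) (β := y / 2) (by linarith) (by linarith) h.n0 h.n3
  have e1 : x / 2 * 2 + y / 2 * 0 = x := by ring
  have e2 : x / 2 * 0 + y / 2 * 2 = y := by ring
  rw [e1, e2] at this
  linarith

theorem Good.l1' {N : ℝ → ℝ → ℝ} {S : ℝ → ℝ → Prop} {s t : ℝ} (h : Good N S s t) {x y : ℝ}
    (hx : 0 ≤ x) (hy : 0 ≤ y) : N (-x) y ≤ x + y := h.flipx.l1 hx hy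

/-- the data of the main case -/
structure Main (N : ℝ → ℝ → ℝ) (S : ℝ → ℝ → Prop) (s t : ℝ) : Prop extends Good N S s t where
  st : s ≤ t
  ts : -t ≤ s
  d1 : s + t < 1
  d2 : t - s < 1

theorem Main.flipy {N : ℝ → ℝ → ℝ} {S : ℝ → ℝ → Prop} {s t : ℝ} (h : Main N S s t) :
    Main (fun x y => N x (-y)) (fun x y => S x (-y)) (-s) t where
  toGood := h.toGood.flipy
  st := by linarith [h.ts]
  ts := by linarith [h.st]
  d1 := by linarith [h.d2]
  d2 := by linarith [h.d1]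

/-- facet alternative in the NE quadrant for two points of the configuration -/
theorem Main.q1 {N : ℝ → ℝ → ℝ} {S : ℝ → ℝ → Prop} {s t : ℝ} (h : Main N S s t)
    {x y x' y' z1 z2 : ℝ} (hp : S x y) (hq : S x' y') (hne : x ≠ x' ∨ y ≠ y')
    (e1 : z1 = x - x') (e2 : z2 = y - y') (hz1 : 0 ≤ z1) (hz2 : 0 ≤ z2) :
    D0 (1 - t) (1 - s) z1 z2 := by
  have hs := h.sep _ _ _ _ hp hq hne
  rw [← e1, ← e2] at hs
  have h1 := h.st; have h2 := h.ts; have h3 := h.d1; have h4 := h.d2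
  have nTL := h.diam _ _ _ _ h.T h.L
  have f1 : t - -1 = 2 - (1 - t) := by ring
  rw [f1] at nTL
  refine facetQ h.pn (by linarith) (by linarith) (by linarith) (by linarith) (by linarith) ?_
    h.n0 h.n3 nTL hz1 hz2 hs
  nlinarith

/-- facet alternative in the NW quadrant -/
theorem Main.q2 {N : ℝ → ℝ → ℝ} {S : ℝ → ℝ → Prop} {s t : ℝ} (h : Main N S s t)
    {x y x' y' z1 z2 : ℝ} (hp : S x y) (hq : S x' y') (hne : x ≠ x' ∨ y ≠ y')
    (e1 : z1 = x' - x) (e2 : z2 = y - y') (hz1 : 0 ≤ z1) (hz2 : 0 ≤ z2) :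
    D0 (1 - t) (2 - (1 - s)) z1 z2 := by
  have hs := h.sep _ _ _ _ hp hq hne
  have e3 : x - x' = -z1 := by rw [e1]; ring
  rw [e3, ← e2] at hs
  have h1 := h.st; have h2 := h.ts; have h3 := h.d1; have h4 := h.d2
  have nLB := h.diam _ _ _ _ h.L h.B
  have f1 : -1 - t = -(2 - (1 - t)) := by ring
  have f2 : s - -1 = 2 - (1 - s) := by ring
  rw [f1, f2] at nLB
  refine facetQ h.pn.flipx (by linarith) (by linarith) (by linarith) (by linarith) (by linarith) ?_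
    ?_ ?_ nLB hz1 hz2 hs
  · nlinarith
  · have := h.pn.neg 2 0
    rw [neg_zero] at this
    show N (-2) 0 ≤ 2
    rw [this]; exact h.n0
  · show N (-0) 2 ≤ 2
    rw [neg_zero]; exact h.n3

end H407R3.Seven
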