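import Pool.Agent.H407R3.Seven.Bases

set_option maxRecDepth 40000

namespace H407R3.Seven

theorem K92 {c1 c2 a1 a2 B1 B2 r1 r2 : ℝ} (hb : Base c1 c2 a1 a2 B1 B2 r1 r2) (dca : 0 ≤ c2*a1-c1*a2) (k0 : Y1 c1 (2-c2) B1 B2 B1 B2 (2-r1) r2) (k1 : Y1 c1 (2-c2) B1 B2 B1 B2 a1 a2) (k2 : Y1 c1 c2 a1 a2 (2-c1-a1) (2-c2-a2) r1 r2) (k3 : Y1 c1 c2 a1 a2 c1 c2 (2-c1-B1) (c2-B2)) (k4 : Y1 c1 (2-c2) B1 B2 (2-c1-B1) (2-(2-c2)-B2) (r1-c1) (2-c2-r2)) (k5 : Y1 c1 c2 a1 a2 a1 a2 (2-a1-r1) (a2-r2)) (k6 : Y1 c1 c2 a1 a2 a1 a2 B1 B2) (k7 : Y1 c1 (2-c2) B1 B2 c1 (2-c2) (2-c1-a1) (2-c2-a2)) (o0 : 0 ≤ 2-a1-r1) (o1 : 0 ≤ a2-r2) : False := by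
  rcases le_total 0 (a2-(2-c2-a2)) with s | s
  · exact lt_irrefl (0:ℝ) (by
      linear_combination
        (3112016807904045740382910215347493561/8480735178215574486612019780979237387)*(mul_nonneg (mul_nonneg (hb.TR1).le hb.a2n) s) +
        (850727540464816053256744618839581264/8480735178215574486612019780979237387)*(mul_pos (sub_pos.2 k6.TB) hb.TR1) +
        (694293483091389924002879684166630246/8480735178215574486612019780979237387)*(mul_nonneg (mul_nonneg ((sub_pos.2 k3.Rw)).le hb.a1n) hb.A2n) +
        (1034109330585840139398508250754487496/8480735178215574486612019780979237387)*(mul_nonneg (mul_nonneg dca hb.A2n) hb.B1n) +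
        (5216651915891023626718653290221507828/8480735178215574486612019780979237387)*(mul_nonneg (mul_nonneg ((sub_pos.2 k4.TB)).le hb.a2n) hb.c21) +
        (2502772204257395316833565033775862100/8480735178215574486612019780979237387)*(mul_nonneg (mul_nonneg hb.wout hb.r1n) o1) +
        (2484943403776694168387227108992288512/8480735178215574486612019780979237387)*(mul_nonneg (mul_nonneg ((sub_pos.2 k6.RL)).le hb.b2n) hb.c21) +
        (1370056588137772029512942724919470538/8480735178215574486612019780979237387)*(mul_nonneg ((sub_pos.2 k2.TB)).le hb.a1n) +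
        (6892073826137579417669263516486361756/8480735178215574486612019780979237387)*(mul_nonneg (mul_nonneg dca hb.A2n) hb.r2n) +
        (1168398697943869472935812958014590952/8480735178215574486612019780979237387)*(mul_nonneg (mul_nonneg ((sub_pos.2 k3.Rw)).le hb.a1n) hb.r2n) +
        (467991701708162943058887409556069688/8480735178215574486612019780979237387)*(mul_pos (mul_pos (sub_pos.2 k6.RB) hb.TR1) hb.TR1) +
        (5009256564887975444978939085483189538/8480735178215574486612019780979237387)*(mul_nonneg (mul_nonneg ((sub_pos.2 k3.RL)).le hb.a2n) hb.r2n) +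
        (3944781132777955112569059942067531016/8480735178215574486612019780979237387)*(mul_nonneg (mul_nonneg ((sub_pos.2 k5.RL)).le hb.A2n) hb.c21) +
        (187438037864336067219176396453434830/8480735178215574486612019780979237387)*(mul_pos (sub_pos.2 k3.RL) (k0.pos hb.B2n)) +
        (12372557888521742493253486982805860/8480735178215574486612019780979237387)*(mul_nonneg (mul_nonneg ((sub_pos.2 k5.TL)).le hb.a1n) hb.b1n) +
        (65146665947071998385645130887559036/8480735178215574486612019780979237387)*(mul_nonneg ((mul_pos (sub_pos.2 k6.TL) hb.TR1)).le hb.B1n) +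
        (85717748337322040260471870033300222/8480735178215574486612019780979237387)*(mul_nonneg (mul_nonneg dca hb.r2n) hb.Tp1) +
        (2276994973195157759588231887652238870/8480735178215574486612019780979237387)*(mul_nonneg ((sub_pos.2 k7.Rw)).le dca) +
        (1700695720828997358393936250573618206/8480735178215574486612019780979237387)*(mul_pos (sub_pos.2 k3.RL) (k5.pos hb.a2n)) +
        (407514821911854880620563186100563024/8480735178215574486612019780979237387)*(mul_nonneg (mul_nonneg dca (hb.TR1).le) hb.B1n) +
        (368374684355748767095523213873830596/8480735178215574486612019780979237387)*(mul_nonneg (mul_nonneg ((sub_pos.2 k4.TL)).le hb.c21) o0) +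
        (1634867624463039584934590422411085898/8480735178215574486612019780979237387)*(mul_nonneg (mul_nonneg ((sub_pos.2 k2.TB)).le hb.a2n) hb.c21) +
        (368374684355748767095523213873830596/8480735178215574486612019780979237387)*(mul_nonneg (mul_nonneg ((sub_pos.2 k4.TB)).le hb.r1n) hb.c21) +
        (16459573474317724872470039612257122/8480735178215574486612019780979237387)*(mul_nonneg (mul_nonneg ((sub_pos.2 k5.TL)).le hb.a2n) hb.b2n) +
        (1734400986525539351368988111000984520/8480735178215574486612019780979237387)*(mul_nonneg (mul_nonneg ((sub_pos.2 k2.TB)).le hb.a1n) hb.a2n) +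
        (2262193060286674281034020475048857878/8480735178215574486612019780979237387)*(mul_nonneg ((sub_pos.2 k2.TB)).le hb.a2n) +
        (117774369861269514912118765677931804/8480735178215574486612019780979237387)*(mul_nonneg (mul_nonneg ((sub_pos.2 k2.TB)).le hb.a2n) hb.r2n) +
        (142252097511068872770805666023965096/8480735178215574486612019780979237387)*(mul_nonneg (mul_nonneg dca hb.a1n) hb.b2n) +
        (2916937968397489618557630110554296048/8480735178215574486612019780979237387)*(mul_nonneg (mul_nonneg ((sub_pos.2 k5.RL)).le hb.b2n) hb.B2n) +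
        (28437844722545921338493598019543720/446354483063977604558527356893644073)*(mul_nonneg (mul_nonneg ((sub_pos.2 k5.RL)).le hb.A2n) hb.B1n) +
        (49490231554086969973013947931223440/8480735178215574486612019780979237387)*(mul_nonneg (mul_nonneg ((sub_pos.2 k5.TL)).le hb.b1n) hb.r1n) +
        (1808594345275810223415676234412100424/8480735178215574486612019780979237387)*(mul_nonneg (mul_nonneg ((sub_pos.2 k5.RL)).le hb.a1n) hb.b2n) +
        (755775324239779779120435268676605492/8480735178215574486612019780979237387)*(mul_nonneg ((mul_pos (sub_pos.2 k5.TL) hb.RB1)).le hb.c21) +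
        (861014214318508804437867312009089330/8480735178215574486612019780979237387)*(mul_nonneg (mul_nonneg ((sub_pos.2 k7.RL)).le hb.a1n) o1) +
        (998122256979317047014380107738327895/8480735178215574486612019780979237387)*(mul_pos (sub_pos.2 k5.TL) hb.TR1) +
        (2068240206700552428919929612525865392/8480735178215574486612019780979237387)*(mul_nonneg (mul_nonneg ((sub_pos.2 k4.TB)).le hb.a1n) hb.c21) +
        (3444258597276950165768712571351962780/8480735178215574486612019780979237387)*(mul_nonneg (mul_nonneg ((sub_pos.2 k6.RL)).le hb.b2n) hb.r2n) +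
        (1467304091878599659951483012655972730/8480735178215574486612019780979237387)*(mul_nonneg (mul_nonneg ((sub_pos.2 k6.TL)).le hb.r1n) hb.c21) +
        (445385926668781989265858447037976226/8480735178215574486612019780979237387)*(mul_nonneg ((mul_pos hb.TR1 hb.TR1)).le s) +
        (676416258723012036361063657723075372/8480735178215574486612019780979237387)*(mul_nonneg (mul_nonneg ((sub_pos.2 k3.RL)).le hb.r1n) s) +
        (1523325348313488840873152318302204278/8480735178215574486612019780979237387)*(mul_nonneg (mul_nonneg ((sub_pos.2 k5.TL)).le hb.B1n) hb.c21) +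
        (101314796386951790039648726065674682/8480735178215574486612019780979237387)*(mul_nonneg (mul_nonneg ((sub_pos.2 k5.RL)).le hb.b2n) hb.r2n) +
        (7981425819467411580576261845054856/8480735178215574486612019780979237387)*(mul_nonneg ((sub_pos.2 k7.RL)).le o1) +
        (347374424147523081264410926350417842/8480735178215574486612019780979237387)*(mul_nonneg (mul_nonneg ((sub_pos.2 k2.TB)).le hb.a1n) hb.c21) +
        (897898998647633015371785155590743460/8480735178215574486612019780979237387)*(mul_nonneg ((sub_pos.2 k2.TB)).le hb.qout) +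
        (396864655701610051237424874281641282/8480735178215574486612019780979237387)*(mul_nonneg ((mul_pos (sub_pos.2 k2.TB) hb.TR1)).le hb.a1n) +
        (808835393071709132257238040421321662/8480735178215574486612019780979237387)*(mul_nonneg ((sub_pos.2 k4.TL)).le hb.wout) +
        (211873237359267988252952216503738816/8480735178215574486612019780979237387)*(mul_nonneg ((mul_pos (sub_pos.2 k2.TL) hb.TR1)).le hb.Tp1) +
        (317809856038901982379428324755608224/8480735178215574486612019780979237387)*(mul_pos (mul_pos (sub_pos.2 k2.TB) hb.TR1) hb.RB1) +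
        (483985100175249082276430842729127840/8480735178215574486612019780979237387)*(mul_nonneg ((mul_pos (sub_pos.2 k1.Tw) hb.RB1)).le hb.a1n) +
        (1021633105139760406661820503250649188/8480735178215574486612019780979237387)*(mul_nonneg ((mul_pos (sub_pos.2 k3.RL) hb.RB1)).le hb.Tp1) +
        (323378514705544136111733855171889764/8480735178215574486612019780979237387)*(mul_nonneg (mul_nonneg ((sub_pos.2 k3.RL)).le hb.r1n) hb.c12) +
        (624797499574427290251574848781470030/8480735178215574486612019780979237387)*(mul_pos (mul_pos (sub_pos.2 k3.RL) hb.TR1) hb.RB1) +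
        (1105347265661241948043115733547569264/8480735178215574486612019780979237387)*(mul_nonneg (mul_nonneg dca hb.c21) o0) +
        (1711565968203551419577467791535194416/8480735178215574486612019780979237387)*(mul_nonneg (mul_nonneg dca (hb.TR1).le) o0) +
        (619036596809189900694114837225015964/8480735178215574486612019780979237387)*(mul_nonneg ((mul_pos (sub_pos.2 k2.TB) hb.TR1)).le hb.B1n) +
        (423746474718535976505904433007477632/8480735178215574486612019780979237387)*(mul_nonneg (mul_nonneg ((sub_pos.2 k2.TB)).le hb.A2n) hb.A2n) +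
        (2931693739665467196468702686476209167/8480735178215574486612019780979237387)*(mul_nonneg ((mul_pos (sub_pos.2 k6.RL) hb.TR1)).le hb.r2n) +
        (3450733430230125263095694660642661616/8480735178215574486612019780979237387)*(mul_nonneg (mul_nonneg hb.wout (hb.TR1).le) hb.B2n) +
        (3107471741191935468824800162439850952/8480735178215574486612019780979237387)*(mul_nonneg (mul_nonneg hb.wout hb.B2n) hb.Tp1) +
        (9282976903466113616671013416855432/119446974341064429388901687056045597)*(mul_nonneg (mul_nonneg hb.A2n hb.A2n) hb.c21) +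
        (757133668301778905790314882975337692/8480735178215574486612019780979237387)*(mul_nonneg (mul_nonneg ((sub_pos.2 k2.TB)).le hb.a1n) hb.B2n) +
        (879241282825250811779239989153355507/16961470356431148973224039561958474774)*(mul_nonneg ((mul_pos (sub_pos.2 k7.RL) hb.TR1)).le o1) +
        (346343201565167630474235235071076828/8480735178215574486612019780979237387)*(mul_nonneg (mul_nonneg ((sub_pos.2 k1.Tw)).le hb.a1n) hb.B2n) +
        (16153262113791033884425522225826660/8480735178215574486612019780979237387)*(mul_nonneg ((mul_pos (sub_pos.2 k3.RL) hb.RB1)).le hb.a1n) +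
        (920678862201270118499133961908355351/8480735178215574486612019780979237387)*(mul_pos (sub_pos.2 k7.RL) hb.TR1) +
        (1677432807582376273202269071643825052/8480735178215574486612019780979237387)*(mul_nonneg (mul_nonneg hb.qout hb.Tp1) hb.c21) +
        (371244770242633567400920260767178242/8480735178215574486612019780979237387)*(mul_nonneg (mul_nonneg dca (hb.TR1).le) hb.pB2) +
        (289187366566291846636293741655479058/8480735178215574486612019780979237387)*(mul_nonneg ((sub_pos.2 k3.RL)).le dca) +
        (428545766573427575672308506942537344/8480735178215574486612019780979237387)*(mul_nonneg (mul_nonneg ((sub_pos.2 k2.TB)).le hb.A2n) hb.B2n) +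
        (169407001291177313018215268327628027/8480735178215574486612019780979237387)*(mul_nonneg (mul_nonneg dca (hb.RB1).le) s) +
        (867200493262769675684494055500492260/8480735178215574486612019780979237387)*(mul_nonneg (mul_nonneg hb.a1n s) s) +
        (1955824786485116897178508857798984065/16961470356431148973224039561958474774)*(mul_nonneg (mul_nonneg (hb.TR1).le hb.c21) o0) +
        (507238239434135531588324162125178272/8480735178215574486612019780979237387)*(mul_nonneg (mul_nonneg ((sub_pos.2 k6.TL)).le hb.r1n) o0) +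
        (2320770405291442001356308381493519777/16961470356431148973224039561958474774)*(mul_nonneg (mul_nonneg (hb.TR1).le hb.r1n) hb.c21) +
        (1135222597858423863783464092882701666/8480735178215574486612019780979237387)*(mul_pos (sub_pos.2 k5.TL) (k7.pos hb.pC2.le)) +
        (1467930165684014362031661559383497670/8480735178215574486612019780979237387)*(mul_nonneg (mul_nonneg ((sub_pos.2 k5.TL)).le hb.b2n) hb.r1n) +
        (1108989984701419861863285861872328447/8480735178215574486612019780979237387)*(mul_nonneg ((mul_pos (sub_pos.2 k5.TL) hb.TR1)).le hb.c21) +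
        (502336249727621851676013616311741193/8480735178215574486612019780979237387)*(mul_nonneg (mul_nonneg hb.wout (hb.RB1).le) o1) +
        (553717859712258829056124806410625416/8480735178215574486612019780979237387)*(mul_nonneg (mul_nonneg hb.wout (hb.RB1).le) hb.Tp1) +
        (211873237359267988252952216503738816/8480735178215574486612019780979237387)*(mul_nonneg ((mul_pos (sub_pos.2 k2.TL) hb.TR1)).le hb.Lp1) +
        (1429745704573274743150858206787544780/8480735178215574486612019780979237387)*(mul_nonneg (mul_nonneg ((sub_pos.2 k2.TB)).le hb.a2n) hb.r1n) +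
        (1066970206119583842987699064144704162/8480735178215574486612019780979237387)*(mul_nonneg (mul_nonneg ((sub_pos.2 k3.RL)).le hb.c21) s) +
        (1880017086035384234281298958143537832/8480735178215574486612019780979237387)*(mul_nonneg (mul_nonneg (hb.TR1).le hb.r1n) s) +
        (3255300577513801119974663627743020600/8480735178215574486612019780979237387)*(mul_nonneg (mul_nonneg hb.B2n hb.Tp1) s) +
        (134577058415592104461063050183144414/8480735178215574486612019780979237387)*(mul_nonneg ((sub_pos.2 k3.RL)).le hb.qout) +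
        (3591945697614853579341450036877515396/8480735178215574486612019780979237387)*(mul_nonneg (mul_nonneg (hb.TR1).le hb.c21) o1) +
        (82203921065532576904026760432419240/8480735178215574486612019780979237387)*(mul_nonneg (mul_nonneg ((sub_pos.2 k2.TB)).le hb.B2n) o1) +
        (1121270349414922724363642464330915338/8480735178215574486612019780979237387)*(mul_pos (mul_pos (sub_pos.2 k6.TB) hb.TR1) hb.RB1) +
        (998376857770693002918173617619776144/8480735178215574486612019780979237387)*(mul_nonneg (mul_nonneg dca hb.a1n) hb.r2n) +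
        (593247824009863942354683040696273368/8480735178215574486612019780979237387)*(mul_nonneg (mul_nonneg hb.c21 hb.c21) o0) +
        (164407842131065153808053520864838480/8480735178215574486612019780979237387)*(mul_nonneg (mul_nonneg ((sub_pos.2 k1.Tw)).le hb.r2n) o1) +
        (658798507516456134686773471287618160/8480735178215574486612019780979237387)*(mul_nonneg ((mul_pos (sub_pos.2 k7.RL) hb.TR1)).le hb.B1n) +
        (175349385329653177707634601054352660/8480735178215574486612019780979237387)*(mul_nonneg (mul_nonneg ((sub_pos.2 k2.TB)).le hb.r1n) hb.Lp1) +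
        (205731349164114394175336608862137290/8480735178215574486612019780979237387)*(mul_nonneg (mul_nonneg ((sub_pos.2 k3.RL)).le hb.A2n) hb.Lp1) +
        (937847605057382222811809471200512310/8480735178215574486612019780979237387)*(mul_nonneg ((mul_pos (sub_pos.2 k2.RL) hb.TR1)).le hb.B2n) +
        (105936618679633994126476108251869408/8480735178215574486612019780979237387)*(mul_nonneg (mul_nonneg ((sub_pos.2 k4.TB)).le hb.c21) hb.c21) +
        (14645092994456447935622393000113678/446354483063977604558527356893644073)*(mul_nonneg (mul_nonneg ((sub_pos.2 k5.TL)).le hb.A1n) hb.B1n) +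
        (2386584783070721166042072149840290/446354483063977604558527356893644073)*(mul_nonneg (mul_nonneg ((sub_pos.2 k2.TB)).le hb.r2n) hb.c21) +
        (907543359450982677763982506151571577/8480735178215574486612019780979237387)*(mul_nonneg (mul_nonneg ((sub_pos.2 k3.RL)).le hb.r2n) hb.c21) +
        (301151811362845359121224319729895745/8480735178215574486612019780979237387)*(mul_nonneg ((mul_pos hb.TR1 hb.RB1)).le hb.c21) +
        (416763948428854001529539060367656056/8480735178215574486612019780979237387)*(mul_nonneg (mul_nonneg hb.c21 hb.c21) hb.c21) +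
        (187438037864336067219176396453434830/8480735178215574486612019780979237387)*(mul_nonneg (mul_nonneg ((sub_pos.2 k3.RL)).le hb.B1n) o1) +
        (417410347982767767288554071310563390/8480735178215574486612019780979237387)*(mul_nonneg (mul_nonneg dca o0) s) +
        (545118341583264104597782436306390392/8480735178215574486612019780979237387)*(mul_nonneg (mul_nonneg ((sub_pos.2 k4.TB)).le hb.B1n) s) +
        (227700151319768017478536868092147058/8480735178215574486612019780979237387)*(mul_nonneg (mul_nonneg ((sub_pos.2 k3.RL)).le hb.B1n) s) +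
        (273296739880657836238820688865758486/8480735178215574486612019780979237387)*(mul_nonneg (mul_nonneg ((sub_pos.2 k1.TB)).le hb.r2n) s) +
        (1171491933624116716225306447284861320/8480735178215574486612019780979237387)*(mul_nonneg (mul_nonneg ((sub_pos.2 k5.TL)).le hb.B2n) o1) +
        (517320003945832210868543450572686600/8480735178215574486612019780979237387)*(mul_nonneg (mul_nonneg ((sub_pos.2 k2.TB)).le hb.B1n) hb.c21) +
        (84831573008623521239815462315357627/8480735178215574486612019780979237387)*(mul_nonneg ((mul_pos (sub_pos.2 k3.RL) hb.TR1)).le o1) +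
        (670762276410142329481132691961970880/8480735178215574486612019780979237387)*(mul_nonneg (mul_nonneg ((sub_pos.2 k6.RL)).le o0) o1) +
        (850248433066002909341526239082571615/8480735178215574486612019780979237387)*(mul_nonneg ((mul_pos (sub_pos.2 k6.RL) hb.RB1)).le hb.r2n) +
        (254494719025870563719446386946072881/16961470356431148973224039561958474774)*(mul_nonneg (mul_nonneg ((sub_pos.2 k3.RL)).le hb.r2n) hb.Lp1) +
        (701397541318612710830538404217410640/8480735178215574486612019780979237387)*(mul_nonneg (mul_nonneg hb.r1n hb.Tp1) s) +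
        (261856819941823108308759693133666104/8480735178215574486612019780979237387)*(mul_nonneg (mul_nonneg ((sub_pos.2 k7.RL)).le hb.a1n) hb.pB2) +
        (1284231734213996201141165448685106593/8480735178215574486612019780979237387)*(mul_nonneg (mul_nonneg (hb.TR1).le hb.r2n) s) +
        (833889982611201704689986275877381344/8480735178215574486612019780979237387)*(mul_nonneg (mul_nonneg hb.a1n hb.Tp1) s) +
        (876295763996553552085319869121763974/8480735178215574486612019780979237387)*(mul_nonneg ((mul_pos (sub_pos.2 k6.TL) hb.TR1)).le hb.a2n) +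
        (334344971927938632558225050233427548/8480735178215574486612019780979237387)*(mul_nonneg (mul_nonneg ((sub_pos.2 k1.Tw)).le hb.B2n) hb.c21) +
        (639996930792355578463495419086289719/8480735178215574486612019780979237387)*(mul_nonneg (mul_nonneg dca (hb.RB1).le) hb.Tp1) +
        (235891300759787290540861713066735410/8480735178215574486612019780979237387)*(mul_nonneg (mul_nonneg ((sub_pos.2 k5.TL)).le hb.B1n) s) +
        (3076865226156912559270529549663750585/16961470356431148973224039561958474774)*(mul_nonneg (mul_nonneg (hb.TR1).le hb.a1n) hb.c21) +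
        (35570448795736938008092005245512564/8480735178215574486612019780979237387)*(mul_nonneg (mul_nonneg ((sub_pos.2 k4.TL)).le hb.r2n) s) +
        (17785224397868469004046002622756282/8480735178215574486612019780979237387)*(mul_nonneg ((mul_pos (sub_pos.2 k2.Rw) hb.TR1)).le hb.r2n) +
        (131291004553606558870928485478961534/8480735178215574486612019780979237387)*(mul_nonneg ((sub_pos.2 k2.TB)).le s) +
        (549917633438155703764186510241450104/8480735178215574486612019780979237387)*(mul_nonneg (mul_nonneg ((sub_pos.2 k2.TB)).le hb.A2n) hb.B1n) +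
        (9598583709783198332808147870119424/8480735178215574486612019780979237387)*(mul_nonneg (mul_nonneg ((sub_pos.2 k6.TB)).le hb.B2n) hb.Tp1) +
        (675919231803422863671112864665740524/8480735178215574486612019780979237387)*(mul_nonneg (mul_nonneg ((sub_pos.2 k6.RL)).le hb.b2n) hb.r1n) +
        (3393869623870350385510963325552779552/8480735178215574486612019780979237387)*(mul_nonneg (mul_nonneg dca hb.r2n) hb.c21) +
        (1621865196650731012336659483598862428/8480735178215574486612019780979237387)*(mul_nonneg (mul_nonneg dca (hb.TR1).le) o1) +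
        (543398422577111436467231724374745220/8480735178215574486612019780979237387)*(mul_nonneg (mul_nonneg ((sub_pos.2 k6.TB)).le hb.Tp1) o1) +
        (717915759791699360650763380097551801/8480735178215574486612019780979237387)*(mul_nonneg (mul_nonneg (hb.TR1).le hb.c21) hb.c12) +
        (65146665947071998385645130887559036/8480735178215574486612019780979237387)*(mul_nonneg (mul_nonneg ((sub_pos.2 k6.RL)).le hb.B1n) hb.c21) +
        (836599560005987064050838306465741992/8480735178215574486612019780979237387)*(mul_nonneg ((mul_pos (sub_pos.2 k5.TL) hb.TR1)).le hb.B2n) +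
        (30989294676313614338520275727918202/446354483063977604558527356893644073)*(mul_nonneg ((mul_pos (sub_pos.2 k1.Tw) hb.RB1)).le o1) +
        (421912699854249249287321788690785336/8480735178215574486612019780979237387)*(mul_nonneg (mul_nonneg ((sub_pos.2 k6.RL)).le hb.a1n) hb.r2n) +
        (20501938329431159103782731604558644/446354483063977604558527356893644073)*(mul_nonneg (mul_nonneg ((sub_pos.2 k1.Tw)).le hb.B1n) hb.pB2) +
        (901345558680627028830799401265954524/8480735178215574486612019780979237387)*(mul_nonneg (mul_nonneg ((sub_pos.2 k1.TB)).le hb.Tp1) s) +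
        (312748158580926436309406717525658844/8480735178215574486612019780979237387)*(mul_nonneg ((mul_pos (sub_pos.2 k6.RB) hb.TR1)).le hb.A2n) +
        (831621056853920162714148451418507744/8480735178215574486612019780979237387)*(mul_nonneg (mul_nonneg ((sub_pos.2 k4.TL)).le hb.a2n) s) +
        (16459573474317724872470039612257122/8480735178215574486612019780979237387)*(mul_nonneg (mul_nonneg ((sub_pos.2 k5.TL)).le hb.a2n) o1) +
        (46633472269795638895934755186906676/8480735178215574486612019780979237387)*(mul_nonneg (mul_nonneg ((sub_pos.2 k2.TB)).le hb.B1n) o1) +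
        (1182554957098175417113149197226255432/8480735178215574486612019780979237387)*(mul_nonneg (mul_nonneg ((sub_pos.2 k5.TL)).le hb.B2n) hb.r2n) +
        (275902551165242552054887321866002456/8480735178215574486612019780979237387)*(mul_nonneg (mul_nonneg hb.qout s) s) +
        (3216757709401771648192254255687960502/8480735178215574486612019780979237387)*(mul_nonneg (mul_nonneg dca hb.a2n) hb.r2n) +
        (109008614183369772355404995881943479/8480735178215574486612019780979237387)*(mul_nonneg ((mul_pos (sub_pos.2 k3.RL) hb.TR1)).le hb.c12) +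
        (1481015730753653159240280566807589420/8480735178215574486612019780979237387)*(mul_nonneg (mul_nonneg ((sub_pos.2 k7.RL)).le hb.B2n) o1) +
        (23996459274457995832020369675298560/8480735178215574486612019780979237387)*(mul_nonneg (mul_nonneg ((sub_pos.2 k6.TL)).le hb.a2n) hb.B2n) +
        (700699854907336186223692972126166548/8480735178215574486612019780979237387)*(mul_nonneg (mul_nonneg ((sub_pos.2 k1.Tw)).le hb.A1n) hb.r2n) +
        (351123755159048553864626918394176430/8480735178215574486612019780979237387)*(mul_nonneg (mul_nonneg ((sub_pos.2 k7.RL)).le hb.B1n) hb.pB2) +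
        (89718038943728069640708700122096276/8480735178215574486612019780979237387)*(mul_nonneg ((mul_pos (sub_pos.2 k3.RL) hb.TR1)).le hb.B1n) +
        (189033489043288649646312968232069924/8480735178215574486612019780979237387)*(mul_nonneg (mul_nonneg ((sub_pos.2 k5.TL)).le hb.a1n) hb.B2n) +
        (624257774834756544733285868044444130/8480735178215574486612019780979237387)*(mul_nonneg ((mul_pos (sub_pos.2 k2.TB) hb.RB1)).le hb.B2n) +
        (65146665947071998385645130887559036/8480735178215574486612019780979237387)*(mul_nonneg (mul_nonneg ((sub_pos.2 k6.TL)).le hb.B1n) o1) +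
        (1070015161676729014054720769918591840/8480735178215574486612019780979237387)*(mul_nonneg (mul_nonneg ((sub_pos.2 k1.Tw)).le hb.a2n) hb.r2n) +
        (143803689795299863575101287920546878/8480735178215574486612019780979237387)*(mul_nonneg (mul_nonneg ((sub_pos.2 k6.RL)).le hb.b1n) o0) +
        (143803689795299863575101287920546878/8480735178215574486612019780979237387)*(mul_nonneg (mul_nonneg ((sub_pos.2 k6.RL)).le hb.a1n) o0) +
        (192784140005551259060088570415699312/8480735178215574486612019780979237387)*(mul_nonneg (mul_nonneg hb.r2n hb.Tp1) s) +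
        (324018876085726448766480842197412192/8480735178215574486612019780979237387)*(mul_nonneg ((sub_pos.2 k7.RL)).le hb.qout) +
        (175349385329653177707634601054352660/8480735178215574486612019780979237387)*(mul_nonneg (mul_nonneg ((sub_pos.2 k2.TB)).le hb.r1n) hb.r1n) +
        (87674692664826588853817300527176330/8480735178215574486612019780979237387)*(mul_nonneg (mul_nonneg ((sub_pos.2 k5.RL)).le hb.Tp1) o0) +
        (507238239434135531588324162125178272/8480735178215574486612019780979237387)*(mul_nonneg (mul_nonneg ((sub_pos.2 k6.TL)).le hb.a1n) hb.Tp1) +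
        (716951293787148035374098912612415266/8480735178215574486612019780979237387)*(mul_nonneg ((mul_pos (sub_pos.2 k1.Tw) hb.TR1)).le hb.r2n) +
        (1418582980185112095803888051497594010/8480735178215574486612019780979237387)*(mul_nonneg (mul_nonneg ((sub_pos.2 k7.RL)).le hb.B2n) hb.c21) +
        (504827983041647894922809632614164695/8480735178215574486612019780979237387)*(mul_nonneg ((mul_pos (sub_pos.2 k5.TL) hb.TR1)).le hb.a2n) +
        (154976945097450431641672383510912134/8480735178215574486612019780979237387)*(mul_nonneg (mul_nonneg ((sub_pos.2 k3.RL)).le hb.B2n) hb.c21) +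
        (155581513324072081625910535819776156/8480735178215574486612019780979237387)*(mul_nonneg (mul_nonneg ((sub_pos.2 k1.Tw)).le hb.b2n) hb.B1n) +
        (372377687047111461031292883065012041/8480735178215574486612019780979237387)*(mul_nonneg ((mul_pos (sub_pos.2 k3.RL) hb.RB1)).le hb.c21) +
        (1917628284106664230129418671014467544/8480735178215574486612019780979237387)*(mul_nonneg (mul_nonneg ((sub_pos.2 k6.TL)).le hb.c21) o1) +
        (65146665947071998385645130887559036/8480735178215574486612019780979237387)*(mul_nonneg (mul_nonneg ((sub_pos.2 k6.RL)).le hb.B1n) hb.r2n) +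
        (272384711152474250346991005867886536/8480735178215574486612019780979237387)*(mul_nonneg (mul_nonneg ((sub_pos.2 k6.RL)).le hb.c21) hb.c21) +
        (227368698302042444555048455274089268/8480735178215574486612019780979237387)*(mul_nonneg (mul_nonneg ((sub_pos.2 k7.RL)).le hb.Tp1) hb.c12) +
        (220371953365108670372365533943082268/8480735178215574486612019780979237387)*(mul_nonneg (mul_nonneg ((sub_pos.2 k1.Tw)).le hb.A2n) hb.r1n) +
        (4799291854891599166404073935059712/8480735178215574486612019780979237387)*(mul_nonneg (mul_nonneg ((sub_pos.2 k5.TL)).le hb.B2n) hb.B2n) +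
        (38184461110739618880803352595952890/8480735178215574486612019780979237387)*(mul_nonneg (mul_nonneg ((sub_pos.2 k5.TL)).le hb.r1n) o1) +
        (811637087240513643433551877114247552/8480735178215574486612019780979237387)*(mul_nonneg (mul_nonneg hb.Tp1 hb.c21) o1) +
        (810734135805483633904203020955823884/8480735178215574486612019780979237387)*(mul_nonneg (mul_nonneg (hb.TR1).le hb.B2n) hb.c21) +
        (210773369655325472039557386072962844/8480735178215574486612019780979237387)*(mul_nonneg (mul_nonneg ((sub_pos.2 k1.Tw)).le hb.B2n) hb.Tp1) +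
        (38184461110739618880803352595952890/8480735178215574486612019780979237387)*(mul_nonneg (mul_nonneg ((sub_pos.2 k5.TL)).le hb.r1n) hb.c21) +
        (564730625141404702044620759797178888/8480735178215574486612019780979237387)*(mul_nonneg (mul_nonneg (hb.TR1).le hb.B2n) s) +
        (164932485861033540821487543420648396/8480735178215574486612019780979237387)*(mul_nonneg (mul_nonneg dca hb.a2n) hb.A2n) +
        (89718038943728069640708700122096276/8480735178215574486612019780979237387)*(mul_nonneg (mul_nonneg ((sub_pos.2 k3.RL)).le hb.B1n) hb.c21) +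
        (38184461110739618880803352595952890/8480735178215574486612019780979237387)*(mul_nonneg (mul_nonneg ((sub_pos.2 k5.RL)).le hb.r2n) hb.Tp1) +
        (45217423688500041620132702466108560/8480735178215574486612019780979237387)*(mul_nonneg (mul_nonneg ((sub_pos.2 k6.TL)).le hb.B1n) s) +
        (74193358750270872046688123411115904/8480735178215574486612019780979237387)*(mul_nonneg (mul_nonneg ((sub_pos.2 k2.TB)).le hb.a1n) hb.r2n) +
        (74193358750270872046688123411115904/8480735178215574486612019780979237387)*(mul_nonneg (mul_nonneg ((sub_pos.2 k5.TL)).le hb.a1n) o1) +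
        (46633472269795638895934755186906676/8480735178215574486612019780979237387)*(mul_nonneg (mul_nonneg ((sub_pos.2 k5.RL)).le hb.B1n) hb.r2n) +
        (79817658195639148416574917580466416/8480735178215574486612019780979237387)*(mul_nonneg (mul_nonneg (hb.RB1).le hb.Tp1) s) +
        (290005406852740399416105642936806915/8480735178215574486612019780979237387)*(mul_nonneg (mul_nonneg dca (hb.TR1).le) hb.r1n) +
        (459993920322529429556633112575977983/8480735178215574486612019780979237387)*(mul_nonneg ((mul_pos (sub_pos.2 k5.TL) hb.RB1)).le hb.a2n) +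
        (87674692664826588853817300527176330/8480735178215574486612019780979237387)*(mul_nonneg (mul_nonneg ((sub_pos.2 k5.TL)).le hb.r1n) hb.r1n) +
        (14645092994456447935622393000113678/446354483063977604558527356893644073)*(mul_nonneg (mul_nonneg ((sub_pos.2 k5.TL)).le hb.B1n) hb.B1n) +
        (53355673193605407012138007868268846/8480735178215574486612019780979237387)*(mul_nonneg ((sub_pos.2 k2.TL)).le o1) +
        (213875541777848667729484834943515060/8480735178215574486612019780979237387)*(mul_nonneg (mul_nonneg ((sub_pos.2 k2.TB)).le hb.B1n) s) +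
        (507238239434135531588324162125178272/8480735178215574486612019780979237387)*(mul_nonneg (mul_nonneg ((sub_pos.2 k6.TL)).le hb.r1n) hb.Tp1) +
        (9598583709783198332808147870119424/8480735178215574486612019780979237387)*(mul_nonneg (mul_nonneg ((sub_pos.2 k6.TL)).le hb.B2n) hb.r2n) +
        (23996459274457995832020369675298560/8480735178215574486612019780979237387)*(mul_nonneg (mul_nonneg ((sub_pos.2 k1.Tw)).le hb.b2n) hb.B2n) +
        (14397875564674797499212221805179136/8480735178215574486612019780979237387)*(mul_nonneg (mul_nonneg hb.qout hb.A2n) s) +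
        (346343201565167630474235235071076828/8480735178215574486612019780979237387)*(mul_nonneg (mul_nonneg ((sub_pos.2 k6.TL)).le hb.a1n) hb.A2n) +
        (146507818919324023331826629445348600/8480735178215574486612019780979237387)*(mul_pos (sub_pos.2 k6.TL) (k5.pos hb.a2n)) +
        (997409824320979635483502157356292024/8480735178215574486612019780979237387)*(mul_nonneg (mul_nonneg hb.wout hb.A2n) o1) +
        (196813936410920517705034192686940898/8480735178215574486612019780979237387)*(mul_nonneg (mul_nonneg dca (hb.TR1).le) hb.c21) +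
        (69616742835505018252436728353167270/8480735178215574486612019780979237387)*(mul_nonneg ((sub_pos.2 k7.RL)).le hb.pB2) +
        (335381138205071164740566345980985440/8480735178215574486612019780979237387)*(mul_nonneg (mul_nonneg ((sub_pos.2 k6.TL)).le hb.a1n) s) +
        (19197167419566396665616295740238848/8480735178215574486612019780979237387)*(mul_nonneg (mul_nonneg ((sub_pos.2 k7.RL)).le hb.B1n) hb.B2n) +
        (74214428341883918851517521764333911/8480735178215574486612019780979237387)*(mul_nonneg (mul_nonneg dca (hb.RB1).le) hb.c21) +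
        (4799291854891599166404073935059712/8480735178215574486612019780979237387)*(mul_nonneg (mul_nonneg ((sub_pos.2 k4.TB)).le hb.B2n) hb.c21) +
        (87674692664826588853817300527176330/8480735178215574486612019780979237387)*(mul_nonneg (mul_nonneg dca hb.r1n) hb.Tp1) +
        (579338960008913979661973492450207836/8480735178215574486612019780979237387)*(mul_nonneg ((sub_pos.2 k0.Tw)).le dca) +
        (20969806306362007931604005442644072/446354483063977604558527356893644073)*(mul_nonneg (mul_nonneg (hb.TR1).le hb.B1n) hb.c21) +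
        (351974158694490517937678369536063592/8480735178215574486612019780979237387)*(mul_nonneg (mul_nonneg hb.r1n hb.c21) hb.c21) +
        (9472936362675015059824675713806295/8480735178215574486612019780979237387)*(mul_pos (mul_pos (sub_pos.2 k5.TL) hb.TR1) hb.TR1) +
        (27559886480475233150753368224209228/8480735178215574486612019780979237387)*(mul_nonneg (mul_nonneg ((sub_pos.2 k4.TB)).le hb.r2n) hb.c21) +
        (9598583709783198332808147870119424/8480735178215574486612019780979237387)*(mul_nonneg (mul_nonneg ((sub_pos.2 k1.Tw)).le hb.A2n) hb.r2n) +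
        (183165803065056849869040906409830536/8480735178215574486612019780979237387)*(mul_nonneg (mul_nonneg ((sub_pos.2 k7.RL)).le hb.r1n) o1) +
        (93266944539591277791869510373813352/8480735178215574486612019780979237387)*(mul_nonneg (mul_nonneg ((sub_pos.2 k1.Tw)).le hb.r1n) o1) +
        (19073585789320405745181386962697448/8480735178215574486612019780979237387)*(mul_nonneg (mul_nonneg ((sub_pos.2 k0.Tw)).le hb.r2n) hb.c21) +
        (93266944539591277791869510373813352/8480735178215574486612019780979237387)*(mul_nonneg (mul_nonneg ((sub_pos.2 k6.RL)).le hb.r2n) hb.r2n) +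
        (93266944539591277791869510373813352/8480735178215574486612019780979237387)*(mul_nonneg (mul_nonneg dca hb.r2n) o1) +
        (112419808441870073840324274492788050/8480735178215574486612019780979237387)*(mul_nonneg (mul_nonneg ((sub_pos.2 k5.RL)).le hb.a1n) hb.Tp1) +
        (254494719025870563719446386946072881/16961470356431148973224039561958474774)*(mul_nonneg (mul_nonneg ((sub_pos.2 k3.RL)).le hb.r1n) hb.r2n) +
        (290884243368520414644570211692183120/8480735178215574486612019780979237387)*(mul_nonneg ((mul_pos (sub_pos.2 k1.Tw) hb.TR1)).le hb.Tp1) +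
        (18293311299778326956160212408702460/8480735178215574486612019780979237387)*(mul_nonneg (mul_nonneg ((sub_pos.2 k3.RL)).le hb.A2n) hb.r1n) +
        (4799291854891599166404073935059712/8480735178215574486612019780979237387)*(mul_nonneg (mul_nonneg ((sub_pos.2 k7.RL)).le hb.B2n) hb.B2n) +
        (1101405078274085625763756618487447108/8480735178215574486612019780979237387)*(mul_nonneg (mul_nonneg dca (hb.TR1).le) hb.Tp1) +
        (141374556238142965717705228950700448/8480735178215574486612019780979237387)*(mul_nonneg (mul_nonneg ((sub_pos.2 k7.RL)).le hb.a1n) hb.B2n) +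
        (87451057641805034993427438387524392/8480735178215574486612019780979237387)*(mul_nonneg (mul_nonneg ((sub_pos.2 k1.TB)).le hb.Tp1) hb.c21) +
        (7637901742535127737983503694325200/446354483063977604558527356893644073)*(mul_nonneg (mul_nonneg dca hb.B1n) hb.Tp1) +
        (120550550536413414263207968524496446/8480735178215574486612019780979237387)*(mul_nonneg (mul_nonneg ((sub_pos.2 k6.RL)).le hb.a1n) hb.c21) +
        (12195540866518884637440141605801640/8480735178215574486612019780979237387)*(mul_nonneg ((mul_pos (sub_pos.2 k3.Rw) hb.TR1)).le hb.B2n) +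
        (12372557888521742493253486982805860/8480735178215574486612019780979237387)*(mul_nonneg (mul_nonneg ((sub_pos.2 k2.TB)).le hb.a1n) hb.a1n) +
        (24745115777043484986506973965611720/8480735178215574486612019780979237387)*(mul_nonneg (mul_nonneg dca hb.a1n) o0) +
        (3818950871267563868991751847162600/446354483063977604558527356893644073)*(mul_nonneg (mul_nonneg ((sub_pos.2 k3.RL)).le hb.a1n) hb.r1n) +
        (43303952609826098726387204439820510/8480735178215574486612019780979237387)*(mul_nonneg ((mul_pos (sub_pos.2 k7.RL) hb.TR1)).le hb.a1n) +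
        (24745115777043484986506973965611720/8480735178215574486612019780979237387)*(mul_nonneg (mul_nonneg ((sub_pos.2 k5.TB)).le hb.a1n) hb.Tp1) +
        (6186278944260871246626743491402930/8480735178215574486612019780979237387)*(mul_nonneg (mul_nonneg ((sub_pos.2 k7.RL)).le hb.a1n) hb.a1n) +
        (382344922169581242663610454268639302/8480735178215574486612019780979237387)*(mul_nonneg (mul_nonneg dca hb.a1n) hb.A2n) +
        (79252453976741790286534931891650552/8480735178215574486612019780979237387)*(mul_nonneg hb.A2n hb.c21) +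
        (8449011159056020015131402590953786/8480735178215574486612019780979237387)*(mul_nonneg (mul_nonneg ((sub_pos.2 k5.TL)).le hb.r2n) hb.c12) +
        (44568849379848312909497000505072876/8480735178215574486612019780979237387)*(mul_nonneg (mul_nonneg dca hb.b2n) hb.B2n) +
        (4607732709579795847761725870807386/8480735178215574486612019780979237387)*(mul_nonneg (mul_nonneg ((sub_pos.2 k3.RL)).le hb.a1n) hb.a2n) +
        (34096909293439615222031457213412308/8480735178215574486612019780979237387)*(mul_nonneg (mul_nonneg ((sub_pos.2 k6.TL)).le hb.r2n) hb.Lp1) +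
        (4220025816276304300904721599540044/8480735178215574486612019780979237387)*(mul_nonneg ((mul_pos (sub_pos.2 k0.RL) hb.TR1)).le hb.c21))
  · exact lt_irrefl (0:ℝ) (by
      linear_combination
        (6262620507085821400903/152877747813714646646825)*(mul_nonneg ((sub_pos.2 k5.TL)).le hb.Tp1) +
        (14214113432840805860974/152877747813714646646825)*(mul_nonneg ((sub_pos.2 k2.TL)).le hb.a1n) +
        (145875207503036857506278/1375899730323431819821425)*(mul_nonneg (mul_nonneg ((sub_pos.2 k2.TL)).le hb.B1n) (neg_nonneg.2 s)) +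
        (101845249475230705320164/275179946064686363964285)*(mul_nonneg hb.B1n (neg_nonneg.2 s)) +
        (10515158913607306556584/458633243441143939940475)*(mul_nonneg ((mul_pos (sub_pos.2 k6.TL) hb.TR1)).le hb.c21) +
        (1221631475836836480372767/8255398381940590918928550)*(mul_pos (mul_pos (sub_pos.2 k6.TB) hb.TR1) hb.RB1) +
        (302106653322857569195307/8255398381940590918928550)*(mul_nonneg (mul_nonneg ((sub_pos.2 k2.TB)).le hb.a1n) hb.r1n) +
        (8851033153016337978643/36690659475291515195238)*(mul_nonneg ((sub_pos.2 k5.TB)).le hb.qout) +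
        (67697631396513176773423/275179946064686363964285)*(mul_nonneg (mul_nonneg ((sub_pos.2 k0.RL)).le hb.a1n) (neg_nonneg.2 s)) +
        (647111268463016246577847/16510796763881181837857100)*(mul_nonneg ((mul_pos (sub_pos.2 k5.TB) hb.TR1)).le hb.c21) +
        (793345347625806899670172/4127699190970295459464275)*(mul_nonneg (mul_nonneg ((sub_pos.2 k2.TB)).le hb.a2n) hb.a2n) +
        (35065258709994636464053/4127699190970295459464275)*(mul_nonneg ((mul_pos (sub_pos.2 k6.TL) hb.TR1)).le hb.B1n) +
        (42134512740081853964623/458633243441143939940475)*(mul_nonneg (mul_nonneg dca hb.b1n) (neg_nonneg.2 s)) +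
        (2591210478330893452335431/4127699190970295459464275)*(mul_nonneg (mul_nonneg hb.wout hb.B2n) hb.r1n) +
        (228833157095013247584559/2751799460646863639642850)*(mul_nonneg ((mul_pos (sub_pos.2 k1.Tw) hb.RB1)).le hb.r1n) +
        (2509607375909169764624329/8255398381940590918928550)*(mul_nonneg (mul_nonneg ((sub_pos.2 k1.TB)).le hb.r2n) hb.c21) +
        (44100204679506189160027/458633243441143939940475)*(mul_nonneg (mul_nonneg ((sub_pos.2 k5.TB)).le hb.B1n) hb.c21) +
        (184448116660752837219497/1375899730323431819821425)*(mul_nonneg (mul_nonneg ((sub_pos.2 k6.RB)).le hb.B2n) o1) +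
        (507528851975684390501/32374111301727807525210)*(mul_nonneg (mul_nonneg ((sub_pos.2 k0.RL)).le hb.r1n) (neg_nonneg.2 s)) +
        (97309870495585212280261/917266486882287879880950)*(mul_nonneg (mul_nonneg ((sub_pos.2 k3.RL)).le hb.a2n) hb.r2n) +
        (559562019176497914943247/4127699190970295459464275)*(mul_nonneg (mul_nonneg ((sub_pos.2 k6.TB)).le hb.r1n) (neg_nonneg.2 s)) +
        (326426356756534750605163/1500981523989198348896100)*(mul_nonneg ((sub_pos.2 k5.TB)).le dca) +
        (986499392260492292600156/4127699190970295459464275)*(mul_nonneg (mul_nonneg ((sub_pos.2 k1.Tw)).le hb.a2n) hb.Tp1) +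
        (435580126962178972495831/5503598921293727279285700)*(mul_nonneg ((mul_pos (sub_pos.2 k6.TB) hb.RB1)).le hb.c21) +
        (804331272717562361687647/4127699190970295459464275)*(mul_nonneg ((mul_pos (sub_pos.2 k6.TB) hb.TR1)).le hb.B2n) +
        (60373342853330262110359/183453297376457575976190)*(mul_pos (sub_pos.2 k3.RL) (k6.pos hb.a2n)) +
        (900579164577602191233173/4127699190970295459464275)*(mul_nonneg (mul_nonneg ((sub_pos.2 k6.RL)).le hb.B1n) hb.c21) +
        (396672673812903449835086/4127699190970295459464275)*(mul_nonneg (mul_nonneg ((sub_pos.2 k5.RL)).le hb.a2n) (neg_nonneg.2 s)) +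
        (73045246030257733757117/1375899730323431819821425)*(mul_nonneg (mul_nonneg ((sub_pos.2 k4.TB)).le hb.a1n) hb.c21) +
        (917339585952255461702507/4127699190970295459464275)*(mul_nonneg (mul_nonneg dca hb.a2n) (neg_nonneg.2 s)) +
        (88847590593850207083146/1375899730323431819821425)*(mul_nonneg (mul_nonneg hb.a1n (neg_nonneg.2 s)) (neg_nonneg.2 s)) +
        (42222317001235871753306/275179946064686363964285)*(mul_nonneg (mul_nonneg ((sub_pos.2 k3.Rw)).le hb.a1n) (neg_nonneg.2 s)) +
        (5264276967995531493114/152877747813714646646825)*(mul_nonneg (mul_nonneg hb.wout hb.r1n) o1) +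
        (132277016352942219910279/1375899730323431819821425)*(mul_nonneg (mul_nonneg ((sub_pos.2 k3.RL)).le hb.a1n) hb.A2n) +
        (2105900731383616296529/80935278254319518813025)*(mul_nonneg (mul_nonneg ((sub_pos.2 k2.TB)).le hb.B2n) hb.c12) +
        (257492415736253891644706/375245380997299587224025)*(mul_nonneg (mul_nonneg dca hb.a1n) hb.r2n) +
        (81865451791223970537067/3302159352776236367571420)*(mul_nonneg (mul_nonneg ((sub_pos.2 k3.Rw)).le hb.c12) o1) +
        (546198707069628288601127/2751799460646863639642850)*(mul_pos (sub_pos.2 k5.TL) (k5.pos hb.a2n)) +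
        (29901542946318159264958/275179946064686363964285)*(mul_nonneg (mul_nonneg hb.A2n hb.r2n) (neg_nonneg.2 s)) +
        (35253863855467264577444/242805834762958556439075)*(mul_pos (sub_pos.2 k2.TB) (k6.pos hb.a2n)) +
        (425073176953231221463304/1375899730323431819821425)*(mul_nonneg hb.B2n (neg_nonneg.2 s)) +
        (1210249380381004982050609/4127699190970295459464275)*(mul_nonneg (mul_nonneg ((sub_pos.2 k5.TB)).le hb.a1n) hb.B2n) +
        (264554032705884439820558/1375899730323431819821425)*(mul_nonneg (mul_nonneg dca hb.A2n) hb.B1n) +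
        (672186643842881173103971/4127699190970295459464275)*(mul_nonneg (mul_nonneg ((sub_pos.2 k6.TB)).le hb.B1n) o1) +
        (46502364251200484259527/250163587331533058149350)*(mul_nonneg (mul_nonneg ((sub_pos.2 k5.RL)).le hb.a1n) hb.r2n) +
        (649592241842298341204017/8255398381940590918928550)*(mul_nonneg (mul_nonneg ((sub_pos.2 k6.RL)).le hb.B1n) (neg_nonneg.2 s)) +
        (1423311722392634249051621/8255398381940590918928550)*(mul_nonneg (mul_nonneg ((sub_pos.2 k5.TL)).le hb.b1n) hb.B1n) +
        (160657713991729046707286/1375899730323431819821425)*(mul_nonneg (mul_nonneg ((sub_pos.2 k5.RL)).le hb.a1n) hb.B1n) +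
        (74895632823705073968283/458633243441143939940475)*(mul_nonneg (mul_nonneg ((sub_pos.2 k5.TL)).le hb.a2n) hb.Tp1) +
        (173102781173521510953824/825539838194059091892855)*(mul_nonneg ((mul_pos (sub_pos.2 k6.RB) hb.TR1)).le hb.B1n) +
        (367254992528260290677981/6604318705552472735142840)*(mul_nonneg (mul_nonneg ((sub_pos.2 k5.TL)).le hb.a1n) o0) +
        (3736036791637780736358683/4127699190970295459464275)*(mul_nonneg (mul_nonneg ((sub_pos.2 k1.Tw)).le hb.a2n) hb.r2n) +
        (160207478729513052463061/1834532973764575759761900)*(mul_nonneg (mul_nonneg ((sub_pos.2 k1.Tw)).le hb.r1n) hb.Lp1) +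
        (132710747665768861036216/1375899730323431819821425)*(mul_nonneg (mul_nonneg hb.wout hb.r1n) hb.r1n) +
        (1809565065923948479867157/4127699190970295459464275)*(mul_nonneg (mul_nonneg ((sub_pos.2 k1.Tw)).le hb.a1n) hb.r2n) +
        (2794956254841842832034/75049076199459917444805)*(mul_nonneg (mul_nonneg ((sub_pos.2 k6.TL)).le hb.r1n) hb.c21) +
        (29915449324194404595778/242805834762958556439075)*(mul_nonneg ((mul_pos (sub_pos.2 k1.Tw) hb.RB1)).le hb.a1n) +
        (239935139275094677625159/16510796763881181837857100)*(mul_nonneg ((mul_pos (sub_pos.2 k5.RL) hb.RB1)).le hb.c21) +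
        (96542304609471332679371/4127699190970295459464275)*(mul_pos (mul_pos (sub_pos.2 k5.TL) hb.TR1) hb.TR1) +
        (622318026938868205515149/1651079676388118183785710)*(mul_nonneg (mul_nonneg dca hb.B1n) (neg_nonneg.2 s)) +
        (308068600594698933146257/4127699190970295459464275)*(mul_nonneg (mul_nonneg ((sub_pos.2 k0.RL)).le hb.c21) hb.c21) +
        (941338580417447108929763/8255398381940590918928550)*(mul_nonneg (mul_nonneg ((sub_pos.2 k3.RL)).le hb.a1n) hb.a1n) +
        (892480431942674198328989/16510796763881181837857100)*(mul_nonneg ((mul_pos (sub_pos.2 k1.RL) hb.TR1)).le hb.c21) +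
        (7816153367939446552937/152877747813714646646825)*(mul_pos (sub_pos.2 k1.Tw) (k3.pos hb.pc2.le)) +
        (672186643842881173103971/4127699190970295459464275)*(mul_nonneg (mul_nonneg ((sub_pos.2 k6.RL)).le hb.B1n) hb.r2n) +
        (166972422510205777195406/4127699190970295459464275)*(mul_nonneg (mul_nonneg hb.wout (hb.TR1).le) hb.a1n) +
        (52638086974445157041347/8255398381940590918928550)*(mul_nonneg (mul_nonneg ((sub_pos.2 k2.TB)).le hb.a1n) hb.a1n) +
        (355490843608463795240/9712233390518342257563)*(mul_nonneg (mul_nonneg ((sub_pos.2 k6.TB)).le hb.a1n) (neg_nonneg.2 s)) +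
        (68505106023743293890947/4127699190970295459464275)*(mul_nonneg (mul_nonneg ((sub_pos.2 k2.TB)).le hb.a2n) hb.r1n) +
        (159947650239237618955111/2751799460646863639642850)*(mul_nonneg (mul_nonneg ((sub_pos.2 k3.RL)).le hb.a1n) hb.r2n) +
        (1737941867911590051360629/8255398381940590918928550)*(mul_nonneg ((sub_pos.2 k1.RL)).le dca) +
        (710981687216927590480/9712233390518342257563)*(mul_nonneg (mul_nonneg ((sub_pos.2 k1.Tw)).le hb.a1n) hb.a2n) +
        (187271879323828800540751/8255398381940590918928550)*(mul_nonneg (mul_nonneg hb.wout hb.a1n) hb.Tp1) +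
        (9000870389300899305094/275179946064686363964285)*(mul_nonneg (mul_nonneg ((sub_pos.2 k5.TL)).le hb.r1n) hb.c12) +
        (395368844709753731569318/4127699190970295459464275)*(mul_nonneg (mul_nonneg dca (hb.TR1).le) o0) +
        (917339585952255461702507/4127699190970295459464275)*(mul_nonneg (mul_nonneg ((sub_pos.2 k7.RL)).le hb.a2n) o1) +
        (38395916798856089570563/550359892129372727928570)*(mul_nonneg (mul_nonneg ((sub_pos.2 k6.RL)).le hb.B2n) (neg_nonneg.2 s)) +
        (228392520734721018129202/4127699190970295459464275)*(mul_pos (sub_pos.2 k6.TL) (k6.pos hb.a2n)) +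
        (203225133380754228745922/4127699190970295459464275)*(sub_pos.2 k6.TL) +
        (719328801605682007489/30575549562742929329365)*(mul_nonneg (mul_nonneg dca (hb.RB1).le) hb.r1n) +
        (1223004943444020557123654/4127699190970295459464275)*(mul_nonneg (mul_nonneg ((sub_pos.2 k0.RL)).le hb.a2n) (neg_nonneg.2 s)) +
        (228392520734721018129202/4127699190970295459464275)*(mul_nonneg (mul_nonneg ((sub_pos.2 k1.Tw)).le hb.a1n) hb.A2n) +
        (51601076189989584884455/330215935277623636757142)*(mul_nonneg (mul_nonneg ((sub_pos.2 k6.TB)).le hb.r2n) (neg_nonneg.2 s)) +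
        (6922699097758378429951/242805834762958556439075)*(mul_nonneg ((mul_pos (sub_pos.2 k0.Tw) hb.TR1)).le hb.c21) +
        (170804919759575081998549/458633243441143939940475)*(mul_nonneg (mul_nonneg hb.a2n hb.r2n) (neg_nonneg.2 s)) +
        (169416093571867593745322/1375899730323431819821425)*(mul_nonneg (mul_nonneg hb.wout hb.a1n) o1) +
        (126806625082227759559912/825539838194059091892855)*(mul_nonneg (mul_nonneg (hb.TR1).le hb.B1n) hb.c21) +
        (96025589674449013913341/4127699190970295459464275)*(mul_nonneg (mul_nonneg ((sub_pos.2 k6.TL)).le o0) o0) +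
        (302106653322857569195307/4127699190970295459464275)*(mul_nonneg (mul_nonneg ((sub_pos.2 k6.RL)).le hb.a1n) o0) +
        (91873087688451993761581/1651079676388118183785710)*(mul_nonneg (mul_nonneg ((sub_pos.2 k2.TB)).le hb.a1n) hb.B1n) +
        (11883875193549418210787/97122333905183422575630)*(mul_nonneg (mul_nonneg ((sub_pos.2 k6.TB)).le hb.A2n) hb.c21) +
        (198336336906451724917543/4127699190970295459464275)*(mul_nonneg (mul_nonneg ((sub_pos.2 k5.TL)).le hb.A2n) (neg_nonneg.2 s)) +
        (301845764130117053064049/5503598921293727279285700)*(mul_nonneg ((sub_pos.2 k3.RL)).le o1) +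
        (206081063648408555281966/4127699190970295459464275)*(mul_nonneg (mul_nonneg ((sub_pos.2 k1.Tw)).le hb.a1n) hb.a1n) +
        (396672673812903449835086/4127699190970295459464275)*(mul_nonneg (mul_nonneg hb.a2n (neg_nonneg.2 s)) (neg_nonneg.2 s)) +
        (5865651537656019631104931/8255398381940590918928550)*(mul_nonneg (mul_nonneg dca hb.a2n) hb.Tp1) +
        (216610710391598194926461/825539838194059091892855)*(mul_nonneg (mul_nonneg hb.wout hb.a2n) hb.B2n) +
        (2510489111175870211106/458633243441143939940475)*(mul_nonneg (mul_nonneg hb.B1n hb.Tp1) hb.c21) +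
        (476787047765350763625428/4127699190970295459464275)*(mul_nonneg (mul_nonneg ((sub_pos.2 k6.RL)).le hb.r1n) (neg_nonneg.2 s)) +
        (151922642446828489635239/1500981523989198348896100)*(mul_nonneg ((mul_pos (sub_pos.2 k5.TL) hb.TR1)).le hb.a1n) +
        (1400759477801136488470441/16510796763881181837857100)*(mul_nonneg (mul_nonneg ((sub_pos.2 k5.TL)).le hb.a1n) hb.c21) +
        (216627872579911871576156/4127699190970295459464275)*(mul_nonneg (mul_nonneg dca (hb.RB1).le) hb.Tp1) +
        (84901202669241980764337/750490761994599174448050)*(mul_nonneg (mul_nonneg hb.wout hb.B1n) hb.Tp1) +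
        (95688866564651539940833/4127699190970295459464275)*(mul_nonneg (mul_nonneg dca (hb.TR1).le) hb.Tp1) +
        (286955979865485078194276/1375899730323431819821425)*(mul_nonneg (mul_nonneg dca hb.a1n) hb.A2n) +
        (125802942196495120083662/4127699190970295459464275)*(mul_nonneg (mul_nonneg hb.wout hb.a2n) hb.c21) +
        (7919483149627709159387/305755495627429293293650)*(mul_nonneg ((sub_pos.2 k1.TB)).le hb.wout) +
        (2049337213075137664412222/4127699190970295459464275)*(mul_nonneg (mul_nonneg ((sub_pos.2 k2.TB)).le hb.a2n) hb.B2n) +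
        (5741750721258391728923/275179946064686363964285)*(mul_nonneg (mul_nonneg dca hb.r2n) hb.c12) +
        (741891461903534238894931/2751799460646863639642850)*(mul_nonneg (mul_nonneg hb.wout (hb.TR1).le) hb.a2n) +
        (723693155889661886042816/1375899730323431819821425)*(mul_nonneg (mul_nonneg hb.B2n hb.r1n) hb.c21) +
        (72855869422630889187539/4127699190970295459464275)*(mul_nonneg (mul_nonneg ((sub_pos.2 k1.Tw)).le hb.B1n) hb.c21) +
        (252738784837427436249917/1651079676388118183785710)*(mul_nonneg (mul_nonneg dca (hb.RB1).le) hb.a2n) +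
        (49264321658894570461349/1000654349326132232597400)*(mul_nonneg (mul_nonneg ((sub_pos.2 k5.TL)).le hb.a1n) hb.a1n) +
        (7839177047730507257807/825539838194059091892855)*(mul_nonneg (mul_nonneg hb.r2n hb.Tp1) (neg_nonneg.2 s)) +
        (864834865651758241201661/4127699190970295459464275)*(mul_nonneg (mul_nonneg ((sub_pos.2 k1.Tw)).le hb.a2n) hb.r1n) +
        (507528851975684390501/32374111301727807525210)*(mul_nonneg (mul_nonneg ((sub_pos.2 k2.RL)).le hb.B2n) hb.r1n) +
        (458633834618502200541566/4127699190970295459464275)*(mul_nonneg (mul_nonneg ((sub_pos.2 k0.RL)).le hb.c21) (neg_nonneg.2 s)) +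
        (108151315865955486699616/4127699190970295459464275)*(mul_nonneg (mul_nonneg hb.qout hb.r2n) hb.c21) +
        (109143367007661647771174/4127699190970295459464275)*(mul_nonneg (mul_nonneg ((sub_pos.2 k5.TL)).le hb.B2n) hb.r2n) +
        (18791184016904746840577/550359892129372727928570)*(mul_nonneg (mul_nonneg ((sub_pos.2 k6.TB)).le hb.a1n) hb.Tp1) +
        (123972522812734603645571/825539838194059091892855)*(mul_nonneg (mul_nonneg dca hb.B2n) (neg_nonneg.2 s)) +
        (128983085662183849259144/4127699190970295459464275)*(mul_nonneg ((mul_pos (sub_pos.2 k0.RB) hb.TR1)).le hb.c21) +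
        (145711738845261778375078/4127699190970295459464275)*(mul_nonneg ((mul_pos (sub_pos.2 k1.Tw) hb.TR1)).le hb.B1n) +
        (100358398512552974032142/4127699190970295459464275)*(mul_nonneg ((mul_pos (sub_pos.2 k6.TB) hb.TR1)).le hb.r2n) +
        (134962852557241932803182/4127699190970295459464275)*(mul_nonneg (mul_nonneg hb.r2n hb.c21) hb.c21) +
        (903439494388132841728643/2751799460646863639642850)*(mul_nonneg (mul_nonneg hb.wout hb.B2n) hb.c21) +
        (6020882577589301018788/80935278254319518813025)*(mul_nonneg (mul_nonneg dca hb.A2n) hb.c21) +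
        (671429232606400593014018/4127699190970295459464275)*(mul_nonneg (mul_nonneg hb.a1n hb.B2n) (neg_nonneg.2 s)) +
        (125493461367651925014578/4127699190970295459464275)*(mul_nonneg (mul_nonneg ((sub_pos.2 k1.RL)).le hb.B1n) (neg_nonneg.2 s)) +
        (65561852698876230635497/8255398381940590918928550)*(mul_nonneg ((mul_pos (sub_pos.2 k3.RL) hb.RB1)).le hb.a2n) +
        (14704131365624925745694/125081793665766529074675)*(mul_nonneg (mul_nonneg hb.a1n hb.Tp1) (neg_nonneg.2 s)) +
        (840370788566661954335951/4127699190970295459464275)*(mul_nonneg (mul_nonneg hb.B1n hb.c21) (neg_nonneg.2 s)) +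
        (11732149328026411582604/80935278254319518813025)*(mul_nonneg ((mul_pos (sub_pos.2 k5.TL) hb.TR1)).le hb.B1n) +
        (49446417415438061353403/8255398381940590918928550)*(mul_nonneg (mul_nonneg ((sub_pos.2 k5.RL)).le hb.r2n) (neg_nonneg.2 s)) +
        (1400926589665192644580996/4127699190970295459464275)*(mul_nonneg ((sub_pos.2 k1.Tw)).le hb.r2n) +
        (314222613531568985187104/4127699190970295459464275)*(mul_nonneg (mul_nonneg dca hb.c21) hb.c12) +
        (38395916798856089570563/275179946064686363964285)*(mul_nonneg (mul_nonneg ((sub_pos.2 k6.TL)).le hb.B2n) hb.r2n) +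
        (37137291317996951712146/1375899730323431819821425)*(mul_nonneg ((mul_pos (sub_pos.2 k2.TB) hb.TR1)).le hb.B1n) +
        (5556915964818689395388/458633243441143939940475)*(mul_nonneg (mul_nonneg ((sub_pos.2 k2.TB)).le hb.B1n) hb.c21) +
        (1255244555587935105553/458633243441143939940475)*(mul_nonneg (mul_nonneg hb.qout hb.Tp1) hb.c21) +
        (52638086974445157041347/8255398381940590918928550)*(mul_nonneg (mul_nonneg hb.wout hb.a1n) hb.a1n) +
        (235222026724425637881686/4127699190970295459464275)*(mul_nonneg (mul_nonneg hb.B2n hb.r2n) (neg_nonneg.2 s)) +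
        (152338049398526256739259/4127699190970295459464275)*(mul_nonneg (mul_nonneg (hb.TR1).le hb.r2n) hb.c21) +
        (109143367007661647771174/4127699190970295459464275)*(mul_nonneg (mul_nonneg ((sub_pos.2 k6.TB)).le hb.r2n) hb.Tp1) +
        (390344909134305346221472/4127699190970295459464275)*(mul_nonneg (mul_nonneg hb.a2n hb.A2n) (neg_nonneg.2 s)) +
        (2272119554177455078937/305755495627429293293650)*(mul_nonneg ((sub_pos.2 k7.RL)).le o1) +
        (50653538709105159625076/825539838194059091892855)*(mul_nonneg (mul_nonneg hb.B1n hb.c21) hb.c21) +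
        (153464518334706946592393/8255398381940590918928550)*(mul_nonneg (mul_nonneg ((sub_pos.2 k5.TL)).le hb.r1n) o1) +
        (117947759735464791496319/4127699190970295459464275)*(mul_nonneg (mul_nonneg ((sub_pos.2 k7.RL)).le hb.B1n) o1) +
        (114196260367360509064601/4127699190970295459464275)*(mul_nonneg (mul_nonneg ((sub_pos.2 k7.RL)).le hb.B1n) hb.B2n) +
        (250931607016894685083/8992808694924390979225)*(mul_nonneg (mul_nonneg ((sub_pos.2 k5.TL)).le hb.B2n) hb.Tp1) +
        (7839177047730507257807/825539838194059091892855)*(mul_nonneg (mul_nonneg hb.r2n hb.r2n) (neg_nonneg.2 s)) +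
        (96025589674449013913341/4127699190970295459464275)*(mul_nonneg (mul_nonneg ((sub_pos.2 k6.TB)).le hb.r1n) o0) +
        (627848349349871176608677/33021593527762363675714200)*(mul_nonneg (mul_nonneg ((sub_pos.2 k5.TL)).le hb.a1n) hb.r1n) +
        (72855869422630889187539/4127699190970295459464275)*(mul_nonneg (mul_nonneg ((sub_pos.2 k1.Tw)).le hb.A1n) hb.B1n) +
        (1255244555587935105553/458633243441143939940475)*(mul_nonneg (mul_nonneg hb.qout hb.Tp1) (neg_nonneg.2 s)) +
        (72855869422630889187539/4127699190970295459464275)*(mul_nonneg (mul_nonneg ((sub_pos.2 k1.Tw)).le hb.B1n) hb.B1n) +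
        (35849353030854000780353/275179946064686363964285)*(mul_nonneg ((sub_pos.2 k2.TL)).le hb.B2n) +
        (32080541643830590042487/8255398381940590918928550)*(mul_nonneg (mul_nonneg ((sub_pos.2 k5.RL)).le hb.r1n) hb.c21) +
        (3467270030642296174633/275179946064686363964285)*(mul_nonneg (mul_nonneg ((sub_pos.2 k2.TB)).le hb.a1n) hb.r2n) +
        (153464518334706946592393/8255398381940590918928550)*(mul_nonneg (mul_nonneg ((sub_pos.2 k5.RL)).le hb.r2n) hb.Tp1) +
        (2229682625163855293870/165107967638811818378571)*(mul_nonneg (mul_nonneg hb.B1n hb.c21) o1) +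
        (160207478729513052463061/1834532973764575759761900)*(mul_nonneg (mul_nonneg ((sub_pos.2 k1.Tw)).le hb.r1n) hb.r1n) +
        (154498450734377324113949/2751799460646863639642850)*(mul_nonneg (mul_nonneg ((sub_pos.2 k1.Tw)).le hb.r1n) hb.c12) +
        (49446417415438061353403/8255398381940590918928550)*(mul_nonneg ((mul_pos (sub_pos.2 k5.RL) hb.RB1)).le hb.r2n) +
        (4462897341763130196844/152877747813714646646825)*(mul_nonneg (mul_nonneg dca hb.B1n) hb.r1n) +
        (2105900731383616296529/80935278254319518813025)*(mul_nonneg ((sub_pos.2 k3.RL)).le hb.qout) +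
        (6175926164851568691091/458633243441143939940475)*(mul_nonneg ((mul_pos (sub_pos.2 k3.RL) hb.TR1)).le hb.B1n) +
        (297434894068335185418073/4127699190970295459464275)*(mul_nonneg (mul_nonneg dca hb.r2n) o1) +
        (86882774478111453821477/16510796763881181837857100)*(mul_nonneg ((mul_pos (sub_pos.2 k3.RL) hb.RB1)).le hb.r2n) +
        (49446417415438061353403/4127699190970295459464275)*(mul_nonneg (mul_nonneg ((sub_pos.2 k2.Rw)).le hb.r2n) o1) +
        (49446417415438061353403/4127699190970295459464275)*(mul_nonneg (mul_nonneg ((sub_pos.2 k2.TL)).le hb.r2n) hb.r2n) +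
        (8122865886442862293873/242805834762958556439075)*(mul_nonneg (mul_nonneg hb.c21 o1) o1) +
        (1255244555587935105553/458633243441143939940475)*(mul_nonneg (mul_nonneg ((sub_pos.2 k0.RL)).le hb.B2n) (neg_nonneg.2 s)) +
        (38310801544697347252099/1375899730323431819821425)*(mul_nonneg (mul_nonneg hb.B2n hb.c12) (neg_nonneg.2 s)) +
        (23165959225844903747866/4127699190970295459464275)*(mul_nonneg (mul_nonneg dca hb.r1n) hb.c12) +
        (1255244555587935105553/1375899730323431819821425)*(mul_nonneg ((mul_pos (sub_pos.2 k3.RL) hb.RB1)).le hb.B2n) +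
        (86775355725306724937381/2751799460646863639642850)*(mul_nonneg (mul_nonneg (hb.RB1).le hb.B2n) hb.c21) +
        (19100676640050982281913/485611669525917112878150)*(mul_nonneg ((sub_pos.2 k2.TB)).le hb.a2n) +
        (11048993031260800341173/485611669525917112878150)*(mul_nonneg (mul_nonneg ((sub_pos.2 k2.TB)).le hb.a1n) hb.c12) +
        (99649224406582940004461/4127699190970295459464275)*(mul_nonneg (mul_nonneg dca hb.r2n) hb.r2n) +
        (779259518279913158047169/8255398381940590918928550)*(mul_nonneg (mul_nonneg dca (hb.TR1).le) hb.a1n) +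
        (7839177047730507257807/1651079676388118183785710)*(mul_nonneg ((sub_pos.2 k2.TL)).le o1) +
        (67729610950741922127779/1651079676388118183785710)*(mul_nonneg (mul_nonneg ((sub_pos.2 k3.RL)).le hb.a1n) hb.r1n) +
        (1979124666425682378989/161870556508639037626050)*(mul_nonneg (mul_nonneg ((sub_pos.2 k5.RL)).le hb.A2n) hb.r1n) +
        (185653795366864850773817/4127699190970295459464275)*(mul_nonneg ((sub_pos.2 k6.TB)).le o1) +
        (1255244555587935105553/458633243441143939940475)*(mul_nonneg (mul_nonneg ((sub_pos.2 k0.TB)).le hb.A2n) hb.c21) +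
        (2510489111175870211106/458633243441143939940475)*(mul_nonneg (mul_nonneg ((sub_pos.2 k0.RL)).le hb.B2n) hb.c21) +
        (109143367007661647771174/4127699190970295459464275)*(mul_nonneg (mul_nonneg ((sub_pos.2 k6.RL)).le hb.r2n) hb.r2n) +
        (17375196841284323936077/4127699190970295459464275)*(mul_nonneg (mul_nonneg hb.A1n hb.r2n) hb.c21) +
        (54571683503830823885587/4127699190970295459464275)*(mul_nonneg (mul_nonneg ((sub_pos.2 k0.RL)).le hb.r2n) (neg_nonneg.2 s)) +
        (54571683503830823885587/4127699190970295459464275)*(mul_nonneg (mul_nonneg ((sub_pos.2 k0.Tw)).le hb.r2n) hb.c21) +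
        (13818027151173416774176/275179946064686363964285)*(mul_nonneg (mul_nonneg hb.qout hb.B1n) hb.c21) +
        (664309265176842148708969/8255398381940590918928550)*(mul_nonneg (mul_nonneg dca hb.B1n) hb.c21) +
        (98277369129407056587/13897977073974058786075)*(mul_nonneg (mul_nonneg hb.wout hb.r1n) hb.c21) +
        (5244812349493650915997/917266486882287879880950)*(mul_nonneg (mul_nonneg hb.wout hb.a1n) hb.B1n) +
        (54571683503830823885587/4127699190970295459464275)*(mul_nonneg (mul_nonneg ((sub_pos.2 k2.TL)).le hb.B1n) o1) +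
        (54571683503830823885587/4127699190970295459464275)*(mul_nonneg (mul_nonneg ((sub_pos.2 k5.RL)).le hb.B1n) hb.r2n) +
        (129614943711761448094139/16510796763881181837857100)*(mul_nonneg ((mul_pos (sub_pos.2 k3.TB) hb.TR1)).le hb.a2n) +
        (12964443136123269789991/1651079676388118183785710)*(mul_nonneg (mul_nonneg dca hb.r2n) hb.Tp1) +
        (12964443136123269789991/3302159352776236367571420)*(mul_nonneg (mul_nonneg dca hb.c21) o1) +
        (1255244555587935105553/458633243441143939940475)*(mul_nonneg (mul_nonneg ((sub_pos.2 k0.RL)).le hb.B1n) (neg_nonneg.2 s)) +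
        (2510489111175870211106/458633243441143939940475)*(mul_nonneg (mul_nonneg ((sub_pos.2 k1.Tw)).le hb.B1n) hb.r2n) +
        (2510489111175870211106/458633243441143939940475)*(mul_nonneg (mul_nonneg ((sub_pos.2 k1.Tw)).le hb.A2n) hb.r1n) +
        (2510489111175870211106/458633243441143939940475)*(mul_nonneg (mul_nonneg ((sub_pos.2 k5.TL)).le hb.B2n) hb.B2n) +
        (38283390961369849077847/750490761994599174448050)*(mul_nonneg (mul_nonneg dca hb.B1n) hb.Tp1) +
        (1456117216670803260197/125081793665766529074675)*(mul_nonneg ((mul_pos (sub_pos.2 k3.RL) hb.RB1)).le hb.B1n) +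
        (11844942458476900723207/750490761994599174448050)*(mul_nonneg (mul_nonneg ((sub_pos.2 k6.TB)).le hb.a1n) hb.r1n) +
        (5060784159047283597299/2751799460646863639642850)*(mul_nonneg (mul_nonneg ((sub_pos.2 k6.TB)).le hb.A1n) hb.r1n) +
        (5060784159047283597299/2751799460646863639642850)*(mul_nonneg (mul_nonneg ((sub_pos.2 k6.RL)).le hb.B1n) hb.r1n) +
        (22151342724138750842264/4127699190970295459464275)*(mul_nonneg hb.r2n (neg_nonneg.2 s)) +
        (438257603030341988606/41693931221922176358225)*(mul_nonneg (mul_nonneg dca hb.a1n) hb.a1n) +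
        (2510489111175870211106/458633243441143939940475)*(mul_nonneg (mul_nonneg ((sub_pos.2 k6.RL)).le hb.B2n) hb.Tp1) +
        (2510489111175870211106/458633243441143939940475)*(mul_nonneg (mul_nonneg ((sub_pos.2 k5.RL)).le hb.B1n) hb.B2n) +
        (1255244555587935105553/458633243441143939940475)*(mul_nonneg (mul_nonneg hb.qout hb.A2n) (neg_nonneg.2 s)) +
        (1255244555587935105553/458633243441143939940475)*(mul_nonneg (mul_nonneg ((sub_pos.2 k3.RL)).le hb.a2n) hb.B2n) +
        (1255244555587935105553/2751799460646863639642850)*(mul_nonneg (mul_nonneg ((sub_pos.2 k3.Rw)).le hb.B2n) hb.c12) +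
        (2510489111175870211106/458633243441143939940475)*(mul_nonneg (mul_nonneg ((sub_pos.2 k1.Tw)).le hb.a2n) hb.B2n) +
        (20276490246137871806581/4127699190970295459464275)*(mul_nonneg (mul_nonneg ((sub_pos.2 k1.Tw)).le hb.r2n) hb.Tp1) +
        (4386157397555389217101/8255398381940590918928550)*(mul_nonneg ((mul_pos (sub_pos.2 k3.TB) hb.RB1)).le hb.a1n) +
        (1346786090497509185563/8255398381940590918928550)*(mul_pos (mul_pos (sub_pos.2 k6.TB) hb.TR1) hb.TR1))

theorem K80 {c1 c2 a1 a2 B1 B2 r1 r2 : ℝ} (hb : Base c1 c2 a1 a2 B1 B2 r1 r2) (dca : 0 ≤ c2*a1-c1*a2) (k0 : Y1 c1 (2-c2) B1 B2 c1 (2-c2) (2-r1) r2) (k1 : Y1 c1 (2-c2) B1 B2 (2-c1-B1) (2-(2-c2)-B2) a1 a2) (k2 : Y1 c1 c2 a1 a2 (2-c1-a1) (2-c2-a2) r1 r2) (k3 : Y1 c1 c2 a1 a2 c1 c2 (2-c1-B1) (c2-B2)) (k4 : Y1 c1 (2-c2) B1 B2 B1 B2 (r1-c1) (2-c2-r2)) (k5 : Y1 c1 c2 a1 a2 a1 a2 (2-a1-r1) (a2-r2)) (k6 : Y1 c1 c2 a1 a2 a1 a2 B1 B2) (k7 : Y1 c1 (2-c2) B1 B2 c1 (2-c2) (2-c1-a1) (2-c2-a2)) (o0 : 0 ≤ 2-a1-r1) (o1 : 0 ≤ a2-r2) : False := by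
  rcases le_total 0 (c2*a1-c1*a2) with s | s
  · exact lt_irrefl (0:ℝ) (by
      linear_combination
        (3125801125301626812360550008/129277279874575514667384737017)*(mul_pos (sub_pos.2 k5.TL) hb.RB1) +
        (8983367144723555713391790656/129277279874575514667384737017)*(mul_nonneg ((mul_pos (sub_pos.2 k6.TB) hb.TR1)).le hb.B2n) +
        (18868181366187058895703689040/129277279874575514667384737017)*(mul_nonneg ((sub_pos.2 k2.TB)).le hb.a1n) +
        (20788286588094608167723622448/129277279874575514667384737017)*(mul_nonneg (mul_nonneg ((sub_pos.2 k2.TB)).le hb.a1n) hb.c21) +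
        (25971096708165983674283391088/129277279874575514667384737017)*(mul_nonneg (mul_nonneg ((sub_pos.2 k2.TB)).le hb.a2n) hb.B1n) +
        (15696157434364350169406247432/129277279874575514667384737017)*(mul_nonneg ((sub_pos.2 k2.TB)).le hb.r2n) +
        (19980170081718205887298940192/129277279874575514667384737017)*(mul_pos (sub_pos.2 k3.RL) (k6.pos hb.a2n)) +
        (26592607643449589619778314384/129277279874575514667384737017)*(mul_nonneg (mul_nonneg ((sub_pos.2 k5.RL)).le hb.b2n) hb.c21) +
        (47223182165179533662234880/129277279874575514667384737017)*(mul_nonneg (mul_nonneg ((sub_pos.2 k6.RL)).le o0) o0) +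
        (101417627744291453375086543912/129277279874575514667384737017)*(mul_nonneg (mul_nonneg ((sub_pos.2 k6.RL)).le hb.r2n) hb.c21) +
        (41324473170364444306294921628/129277279874575514667384737017)*(mul_nonneg ((sub_pos.2 k7.RL)).le s) +
        (5305977715711955995422017538/129277279874575514667384737017)*(mul_nonneg (mul_nonneg s hb.a1n) o0) +
        (25971096708165983674283391088/129277279874575514667384737017)*(mul_nonneg (mul_nonneg ((sub_pos.2 k5.RL)).le hb.b2n) hb.B1n) +
        (14852821896798289051242765988/129277279874575514667384737017)*(mul_pos (mul_pos (sub_pos.2 k6.TL) hb.TR1) hb.RB1) +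
        (44450553306616079236209910800/129277279874575514667384737017)*(mul_nonneg (mul_nonneg ((sub_pos.2 k5.TL)).le hb.b2n) hb.r1n) +
        (40440317934968320306843950634/129277279874575514667384737017)*(mul_nonneg (mul_nonneg s (hb.TR1).le) hb.B1n) +
        (13018256702013773520775189568/129277279874575514667384737017)*(mul_nonneg (mul_nonneg ((sub_pos.2 k6.TL)).le hb.A2n) hb.c21) +
        (66898280943296892335281278/129277279874575514667384737017)*(mul_nonneg (mul_nonneg s hb.r1n) o0) +
        (98363948404549012219542572784/129277279874575514667384737017)*(mul_nonneg (mul_nonneg ((sub_pos.2 k4.Tw)).le hb.a2n) hb.c21) +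
        (13244649216362546323843267488/129277279874575514667384737017)*(mul_nonneg (mul_nonneg ((sub_pos.2 k6.TL)).le hb.B1n) hb.c21) +
        (12064077363164812296751629440/129277279874575514667384737017)*(mul_nonneg ((sub_pos.2 k4.Tw)).le hb.wout) +
        (13244649216362546323843267488/129277279874575514667384737017)*(mul_nonneg ((mul_pos (sub_pos.2 k6.TB) hb.TR1)).le hb.B1n) +
        (3939090935385623053170401652/129277279874575514667384737017)*(mul_nonneg (mul_nonneg ((sub_pos.2 k5.TL)).le hb.b1n) o1) +
        (1098824414692543276095512992/129277279874575514667384737017)*(mul_nonneg (mul_nonneg ((sub_pos.2 k7.RL)).le hb.a1n) hb.B1n) +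
        (14326078034455205403659779300/129277279874575514667384737017)*(mul_pos (sub_pos.2 k6.TL) hb.RB1) +
        (7351908835001061398399113524/129277279874575514667384737017)*(mul_nonneg ((sub_pos.2 k5.TL)).le s) +
        (23464872753448032820730214712/129277279874575514667384737017)*(mul_pos (sub_pos.2 k3.RL) (k5.pos hb.a2n)) +
        (27330928843891913048472711780/129277279874575514667384737017)*(mul_nonneg (mul_nonneg s hb.a1n) hb.b2n) +
        (38282539914027282458808841592/129277279874575514667384737017)*(mul_nonneg (mul_nonneg ((sub_pos.2 k2.TB)).le hb.c21) o1) +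
        (72377435560826304061059626760/129277279874575514667384737017)*(mul_nonneg (mul_nonneg s (hb.RB1).le) hb.r2n) +
        (26069023860241461789157201440/129277279874575514667384737017)*(mul_nonneg (mul_nonneg s (hb.TR1).le) o0) +
        (20953136319582036776179236784/129277279874575514667384737017)*(mul_nonneg (mul_nonneg s hb.c21) o0) +
        (66803083676847240257516883408/129277279874575514667384737017)*(mul_nonneg (mul_nonneg s hb.b2n) hb.c21) +
        (4345133759395800591715319472/129277279874575514667384737017)*(mul_nonneg (mul_nonneg s hb.c21) hb.c21) +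
        (31392314868728700338812494864/129277279874575514667384737017)*(mul_nonneg (mul_nonneg ((sub_pos.2 k2.TB)).le hb.r2n) hb.Tp1) +
        (2291079635486970082706876192/129277279874575514667384737017)*(mul_nonneg (mul_nonneg ((sub_pos.2 k7.RL)).le hb.B1n) hb.c21) +
        (5884029650303901468972372080/129277279874575514667384737017)*(mul_nonneg (mul_nonneg ((sub_pos.2 k2.TL)).le hb.B2n) o1) +
        (5884029650303901468972372080/129277279874575514667384737017)*(mul_nonneg (mul_nonneg ((sub_pos.2 k2.TB)).le hb.B2n) hb.r2n) +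
        (31392314868728700338812494864/129277279874575514667384737017)*(mul_nonneg (mul_nonneg ((sub_pos.2 k2.TL)).le hb.r1n) o1) +
        (1586011761857376825659500488/129277279874575514667384737017)*(mul_nonneg (mul_nonneg hb.qout (hb.TR1).le) hb.a2n) +
        (61769936930116962435977785616/129277279874575514667384737017)*(mul_nonneg (mul_nonneg s hb.a1n) hb.r2n) +
        (2569235098573225879994387272/129277279874575514667384737017)*(mul_nonneg (mul_nonneg ((sub_pos.2 k7.RL)).le hb.a1n) hb.a1n) +
        (17792675328847342301271734736/129277279874575514667384737017)*(mul_nonneg (mul_nonneg ((sub_pos.2 k1.TB)).le hb.a2n) hb.c21) +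
        (10669868828920366234681089744/129277279874575514667384737017)*(mul_nonneg (mul_nonneg hb.wout (hb.TR1).le) hb.r1n) +
        (480749603578687459091807424/129277279874575514667384737017)*(mul_nonneg (mul_nonneg ((sub_pos.2 k3.RL)).le hb.a1n) hb.r1n) +
        (4371686067687583337550934528/129277279874575514667384737017)*(mul_nonneg (mul_nonneg hb.wout hb.B1n) hb.Tp1) +
        (5345327913268190712768110334/129277279874575514667384737017)*(mul_nonneg (mul_nonneg ((sub_pos.2 k5.RL)).le hb.a1n) o0) +
        (9667265442616082918088164712/129277279874575514667384737017)*(mul_nonneg ((sub_pos.2 k4.Tw)).le s) +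
        (59166487287043041717474340471/258554559749151029334769474034)*(mul_nonneg ((mul_pos (sub_pos.2 k6.TB) hb.TR1)).le hb.c21) +
        (1848121458015560789560441296/129277279874575514667384737017)*(mul_nonneg (mul_nonneg ((sub_pos.2 k3.RL)).le hb.A1n) hb.r1n) +
        (5077170951633815604207599424/129277279874575514667384737017)*(mul_nonneg (mul_nonneg (hb.TR1).le hb.c21) o1) +
        (4034889557290217807383398912/129277279874575514667384737017)*(mul_nonneg ((mul_pos (sub_pos.2 k1.TB) hb.TR1)).le hb.A2n) +
        (30396494036441499068918608656/129277279874575514667384737017)*(mul_nonneg (mul_nonneg s hb.B1n) hb.c21) +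
        (1869436424718879934059743640/129277279874575514667384737017)*(mul_nonneg (mul_nonneg ((sub_pos.2 k7.RL)).le hb.a1n) o1) +
        (2186655891064440480477010512/129277279874575514667384737017)*(mul_nonneg (mul_nonneg ((sub_pos.2 k1.TB)).le hb.r1n) hb.r1n) +
        (19585695487158778699594310685/258554559749151029334769474034)*(mul_pos (mul_pos (sub_pos.2 k6.TB) hb.TR1) hb.TR1) +
        (1988835195726522157126529916/129277279874575514667384737017)*(mul_pos (sub_pos.2 k3.RL) (k3.pos hb.pc2.le)) +
        (6056163933630648318220546328/129277279874575514667384737017)*(mul_nonneg ((sub_pos.2 k6.TL)).le o1) +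
        (15592998236127031391899192112/129277279874575514667384737017)*(mul_nonneg (mul_nonneg hb.wout hb.r1n) o1) +
        (17973046142139488666295982368/129277279874575514667384737017)*(mul_nonneg (mul_nonneg hb.wout (hb.TR1).le) hb.a2n) +
        (9620047243934933278809493504/129277279874575514667384737017)*(mul_nonneg ((mul_pos (sub_pos.2 k6.TL) hb.RB1)).le hb.a1n) +
        (11547817258724891069173198500/129277279874575514667384737017)*(mul_nonneg (mul_nonneg (hb.TR1).le hb.B1n) hb.c21) +
        (6622324608181273161921633744/129277279874575514667384737017)*(mul_nonneg (mul_nonneg ((sub_pos.2 k6.TL)).le hb.B1n) hb.Lp1) +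
        (292342422186571091929485984/129277279874575514667384737017)*(mul_nonneg (mul_nonneg hb.qout hb.r1n) o1) +
        (50239188337041802943561424829/258554559749151029334769474034)*(mul_pos (sub_pos.2 k6.TB) hb.TR1) +
        (1030504571444976753219827136/129277279874575514667384737017)*(mul_nonneg (mul_nonneg ((sub_pos.2 k1.TB)).le hb.r2n) hb.c21) +
        (26410671518158379891379046816/129277279874575514667384737017)*(mul_nonneg (mul_nonneg hb.wout hb.A2n) hb.Tp1) +
        (2197648829385086552191025984/129277279874575514667384737017)*(mul_nonneg (mul_nonneg ((sub_pos.2 k3.RL)).le hb.a1n) hb.a1n) +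
        (2678760213768523035804469440/129277279874575514667384737017)*(mul_pos (mul_pos (sub_pos.2 k3.RL) hb.TR1) hb.RB1) +
        (2662965440969543649967235904/129277279874575514667384737017)*(mul_nonneg (mul_nonneg hb.B1n hb.c21) hb.c21) +
        (11862360842769047293458170468/129277279874575514667384737017)*(mul_nonneg (mul_nonneg ((sub_pos.2 k5.TL)).le hb.r2n) o0) +
        (25478896586668455125408294752/129277279874575514667384737017)*(mul_nonneg (mul_nonneg ((sub_pos.2 k2.TB)).le hb.a1n) hb.a2n) +
        (15696157434364350169406247432/129277279874575514667384737017)*(mul_nonneg ((mul_pos (sub_pos.2 k2.TB) hb.TR1)).le hb.r2n) +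
        (21453921662540639004906685600/129277279874575514667384737017)*(mul_nonneg (mul_nonneg hb.wout hb.a1n) o1) +
        (4034889557290217807383398912/129277279874575514667384737017)*(mul_nonneg (mul_nonneg hb.qout (hb.TR1).le) hb.B1n) +
        (13058238437887378897397415936/129277279874575514667384737017)*(mul_nonneg (mul_nonneg ((sub_pos.2 k5.RL)).le hb.a2n) hb.Tp1) +
        (41501136108407136356126440032/129277279874575514667384737017)*(mul_nonneg (mul_nonneg hb.wout (hb.TR1).le) hb.B2n) +
        (9568352610989243443610656512/129277279874575514667384737017)*(mul_nonneg (mul_nonneg (hb.TR1).le hb.A2n) hb.c21) +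
        (6622324608181273161921633744/129277279874575514667384737017)*(mul_nonneg (mul_nonneg ((sub_pos.2 k6.TL)).le hb.B1n) hb.r1n) +
        (1325890130484348104751019944/129277279874575514667384737017)*(mul_nonneg (mul_nonneg ((sub_pos.2 k3.RL)).le hb.A2n) hb.c21) +
        (94985089791724227524698358880/129277279874575514667384737017)*(mul_nonneg (mul_nonneg ((sub_pos.2 k5.TL)).le hb.B2n) hb.c21) +
        (1008722389322554451845849728/129277279874575514667384737017)*(mul_nonneg (mul_nonneg ((sub_pos.2 k3.Rw)).le hb.B1n) hb.Tp1) +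
        (25206492612961352324914924088/129277279874575514667384737017)*(mul_nonneg (mul_nonneg s hb.B2n) hb.c12) +
        (11862360842769047293458170468/129277279874575514667384737017)*(mul_nonneg (mul_nonneg ((sub_pos.2 k5.TL)).le hb.r2n) hb.Tp1) +
        (6509128351006886760387594784/129277279874575514667384737017)*(mul_nonneg ((sub_pos.2 k6.TB)).le hb.qout) +
        (8125993797671889327948365680/129277279874575514667384737017)*(mul_nonneg (mul_nonneg s hb.a2n) hb.A2n) +
        (2538585475816907802103799712/129277279874575514667384737017)*(mul_nonneg ((mul_pos (sub_pos.2 k7.RL) hb.TR1)).le o1) +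
        (11583139828622313364438552644/129277279874575514667384737017)*(mul_nonneg ((sub_pos.2 k5.TL)).le o0) +
        (486640329844538654888232800/129277279874575514667384737017)*(mul_pos (mul_pos (sub_pos.2 k5.TL) hb.TR1) hb.RB1) +
        (5372875996655252887757298816/129277279874575514667384737017)*(mul_nonneg (mul_nonneg ((sub_pos.2 k2.TB)).le hb.a1n) hb.r1n) +
        (9764618145498765986745647664/129277279874575514667384737017)*(mul_nonneg (mul_nonneg ((sub_pos.2 k3.RL)).le hb.a1n) hb.r2n) +
        (5884029650303901468972372080/129277279874575514667384737017)*(mul_nonneg (mul_nonneg hb.qout hb.a2n) hb.b2n) +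
        (14069131319869663877008812472/129277279874575514667384737017)*(mul_nonneg (mul_nonneg ((sub_pos.2 k3.RL)).le hb.a2n) hb.r1n) +
        (5884029650303901468972372080/129277279874575514667384737017)*(mul_nonneg (mul_nonneg ((sub_pos.2 k5.TL)).le hb.b2n) hb.B2n) +
        (5138470197146451759988774544/129277279874575514667384737017)*(mul_nonneg (mul_nonneg ((sub_pos.2 k2.TB)).le hb.a1n) hb.a1n) +
        (6710499199399573828166241456/129277279874575514667384737017)*(mul_nonneg (mul_nonneg hb.qout (hb.RB1).le) hb.Tp1) +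
        (1058617827125313465028982928/129277279874575514667384737017)*(mul_nonneg (mul_nonneg ((sub_pos.2 k1.TB)).le hb.r2n) hb.pB2) +
        (21539805651282832072237893100/129277279874575514667384737017)*(mul_nonneg (mul_nonneg ((sub_pos.2 k5.RL)).le hb.a1n) hb.b2n) +
        (1136508801767145848076498048/129277279874575514667384737017)*(mul_nonneg (mul_nonneg ((sub_pos.2 k4.Tw)).le hb.c21) hb.c21) +
        (3432427792260151783928728624/129277279874575514667384737017)*(mul_nonneg (mul_nonneg ((sub_pos.2 k7.RL)).le hb.a1n) hb.b2n) +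
        (3842681220616063004820058560/129277279874575514667384737017)*(mul_nonneg ((mul_pos (sub_pos.2 k5.RL) hb.TR1)).le hb.Tp1) +
        (2976237685595215737552094224/129277279874575514667384737017)*(mul_nonneg (mul_nonneg s hb.A2n) hb.r1n) +
        (22586382479662932289402594160/129277279874575514667384737017)*(mul_nonneg (mul_nonneg ((sub_pos.2 k2.TB)).le hb.r2n) hb.c21) +
        (274852578239911192829254128/129277279874575514667384737017)*(mul_nonneg (mul_nonneg ((sub_pos.2 k6.TB)).le hb.B2n) o1) +
        (1262184754733065573109133760/129277279874575514667384737017)*(mul_nonneg (mul_nonneg ((sub_pos.2 k6.TB)).le hb.c21) hb.c21) +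
        (2841263113915454772189809952/129277279874575514667384737017)*(mul_nonneg (mul_nonneg hb.qout (hb.TR1).le) hb.A2n) +
        (1008722389322554451845849728/129277279874575514667384737017)*(mul_nonneg (mul_nonneg ((sub_pos.2 k3.RL)).le hb.B1n) hb.c12) +
        (8521222829242390002713980512/129277279874575514667384737017)*(mul_nonneg ((mul_pos (sub_pos.2 k1.TB) hb.RB1)).le hb.a1n) +
        (2841263113915454772189809952/129277279874575514667384737017)*(mul_nonneg (mul_nonneg hb.qout (hb.TR1).le) hb.B2n) +
        (2665270237368609622653254664/129277279874575514667384737017)*(mul_nonneg ((mul_pos (sub_pos.2 k3.Rw) hb.TR1)).le hb.c12) +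
        (2012487462063908060250804576/129277279874575514667384737017)*(mul_nonneg (mul_nonneg ((sub_pos.2 k6.TB)).le hb.a1n) o1) +
        (1200287373620852066015687568/129277279874575514667384737017)*(mul_nonneg (mul_nonneg ((sub_pos.2 k1.TB)).le hb.a2n) hb.r1n) +
        (12818585136993736617640101952/129277279874575514667384737017)*(mul_nonneg (mul_nonneg ((sub_pos.2 k3.RL)).le hb.a1n) hb.a2n) +
        (274852578239911192829254128/129277279874575514667384737017)*(mul_nonneg (mul_nonneg ((sub_pos.2 k6.TL)).le hb.B2n) hb.r2n) +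
        (15045973161349217188962352968/129277279874575514667384737017)*(mul_nonneg ((mul_pos (sub_pos.2 k2.TL) hb.TR1)).le hb.a1n) +
        (7235985748823807617501482928/129277279874575514667384737017)*(mul_pos (mul_pos (sub_pos.2 k6.RL) hb.RB1) hb.RB1) +
        (10745751993310505775514597632/129277279874575514667384737017)*(mul_nonneg (mul_nonneg hb.wout hb.r1n) hb.Tp1) +
        (24044385846248076802977250296/129277279874575514667384737017)*(mul_nonneg hb.qout hb.wout) +
        (2475394687021681565142040032/129277279874575514667384737017)*(mul_nonneg (mul_nonneg ((sub_pos.2 k1.TL)).le hb.c21) hb.c21) +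
        (11689932270577692839030527208/129277279874575514667384737017)*(mul_nonneg ((mul_pos (sub_pos.2 k5.RL) hb.TR1)).le hb.b2n) +
        (10964005203067120063172203645/129277279874575514667384737017)*(mul_nonneg ((mul_pos (sub_pos.2 k3.TB) hb.TR1)).le hb.a1n) +
        (5238070721413052355062181288/129277279874575514667384737017)*(mul_nonneg (mul_nonneg hb.qout (hb.RB1).le) hb.r2n) +
        (18188401866765064209838647616/129277279874575514667384737017)*(mul_nonneg (mul_nonneg hb.wout hb.a1n) hb.Tp1) +
        (452785028697545606136155840/129277279874575514667384737017)*(mul_nonneg (mul_nonneg ((sub_pos.2 k3.RL)).le hb.a1n) hb.A2n) +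
        (2197648829385086552191025984/129277279874575514667384737017)*(mul_nonneg (mul_nonneg ((sub_pos.2 k5.TL)).le hb.b1n) hb.B1n) +
        (274852578239911192829254128/129277279874575514667384737017)*(mul_nonneg (mul_nonneg ((sub_pos.2 k6.RL)).le hb.a2n) hb.A2n) +
        (2273017603534291696152996096/129277279874575514667384737017)*(mul_nonneg (mul_nonneg ((sub_pos.2 k2.TB)).le hb.B2n) hb.c21) +
        (94446364330359067324469760/129277279874575514667384737017)*(mul_nonneg (mul_nonneg ((sub_pos.2 k6.RL)).le hb.a1n) o0) +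
        (2012487462063908060250804576/129277279874575514667384737017)*(mul_nonneg (mul_nonneg ((sub_pos.2 k6.RL)).le hb.a1n) hb.r2n) +
        (9638814924979448943137359176/129277279874575514667384737017)*(mul_nonneg (mul_nonneg s hb.B2n) hb.c21) +
        (2197648829385086552191025984/129277279874575514667384737017)*(mul_nonneg (mul_nonneg ((sub_pos.2 k2.TB)).le hb.a1n) hb.B1n) +
        (1269292737908453901051899856/129277279874575514667384737017)*(mul_nonneg (mul_nonneg ((sub_pos.2 k7.RL)).le hb.b1n) hb.Tp1) +
        (16917294814636560830113822640/129277279874575514667384737017)*(mul_nonneg (mul_nonneg hb.wout (hb.TR1).le) hb.r2n) +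
        (13514740360267955103196281336/129277279874575514667384737017)*(mul_nonneg (mul_nonneg s hb.r2n) hb.c12) +
        (2242349811057638846767715856/129277279874575514667384737017)*(mul_nonneg ((mul_pos (sub_pos.2 k4.Tw) hb.TR1)).le hb.c21) +
        (905570057395091212272311680/129277279874575514667384737017)*(mul_nonneg (mul_nonneg s hb.A2n) hb.B1n) +
        (26755420862877029290034540368/129277279874575514667384737017)*(mul_nonneg (mul_nonneg hb.wout hb.B1n) o1) +
        (47223182165179533662234880/129277279874575514667384737017)*(mul_nonneg (mul_nonneg ((sub_pos.2 k6.TL)).le hb.a1n) hb.a1n) +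
        (7923269907383424240287768816/129277279874575514667384737017)*(mul_nonneg (mul_nonneg ((sub_pos.2 k2.TB)).le hb.a1n) hb.r2n) +
        (662945065242174052375509972/129277279874575514667384737017)*(mul_nonneg ((sub_pos.2 k3.RL)).le hb.qout) +
        (1105841009290492998691217808/129277279874575514667384737017)*(mul_nonneg ((mul_pos (sub_pos.2 k2.RL) hb.TR1)).le hb.B1n) +
        (1058617827125313465028982928/129277279874575514667384737017)*(mul_nonneg (mul_nonneg ((sub_pos.2 k1.TB)).le hb.r2n) hb.r2n) +
        (2147720928326130242132048772/129277279874575514667384737017)*(mul_pos (mul_pos (sub_pos.2 k7.RL) hb.TR1) hb.TR1) +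
        (9219880242262189828798193032/129277279874575514667384737017)*(mul_nonneg ((mul_pos (sub_pos.2 k6.RL) hb.TR1)).le o1) +
        (3225839686004521750428771680/129277279874575514667384737017)*(mul_nonneg ((mul_pos (sub_pos.2 k7.RL) hb.TR1)).le hb.B1n) +
        (34938900940610053555447759360/129277279874575514667384737017)*(mul_nonneg (mul_nonneg hb.wout hb.A2n) hb.c21) +
        (1105841009290492998691217808/129277279874575514667384737017)*(mul_nonneg ((mul_pos (sub_pos.2 k2.RL) hb.TR1)).le hb.B2n) +
        (1129452600373082765522335248/129277279874575514667384737017)*(mul_nonneg (mul_nonneg ((sub_pos.2 k5.RL)).le hb.B1n) hb.c21) +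
        (2139432708899260946814775632/129277279874575514667384737017)*(mul_nonneg (mul_nonneg ((sub_pos.2 k1.TB)).le hb.Tp1) hb.Lp1) +
        (1577528458732152133573144704/129277279874575514667384737017)*(mul_nonneg (mul_nonneg ((sub_pos.2 k3.RL)).le hb.r1n) hb.c21) +
        (1200287373620852066015687568/129277279874575514667384737017)*(mul_nonneg (mul_nonneg ((sub_pos.2 k6.TB)).le hb.a2n) hb.Tp1) +
        (3188157385010989691420101632/129277279874575514667384737017)*(mul_nonneg ((sub_pos.2 k3.Rw)).le hb.Tp1) +
        (1594078692505494845710050816/129277279874575514667384737017)*(mul_nonneg (mul_nonneg ((sub_pos.2 k3.RL)).le hb.Tp1) hb.c12) +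
        (1439754944848327041823823238/129277279874575514667384737017)*(mul_nonneg ((mul_pos hb.TR1 hb.RB1)).le hb.c21) +
        (9098354317516915328693095240/129277279874575514667384737017)*(mul_nonneg (mul_nonneg ((sub_pos.2 k5.RL)).le hb.Tp1) hb.c21) +
        (486640329844538654888232800/129277279874575514667384737017)*(mul_nonneg ((mul_pos (sub_pos.2 k5.TL) hb.TR1)).le hb.B2n) +
        (486640329844538654888232800/129277279874575514667384737017)*(mul_nonneg ((mul_pos (sub_pos.2 k5.RL) hb.TR1)).le hb.A2n) +
        (455205833046812430758718816/129277279874575514667384737017)*(mul_nonneg (mul_nonneg ((sub_pos.2 k7.RL)).le hb.b2n) hb.B2n) +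
        (3365844934409774289274942832/129277279874575514667384737017)*(mul_nonneg (mul_nonneg s (hb.TR1).le) hb.a2n) +
        (2824596824445564483598107312/129277279874575514667384737017)*(mul_nonneg (mul_nonneg hb.qout (hb.TR1).le) hb.r1n) +
        (2012487462063908060250804576/129277279874575514667384737017)*(mul_nonneg (mul_nonneg ((sub_pos.2 k1.TB)).le hb.a1n) hb.a2n) +
        (4805423667108433136309285904/129277279874575514667384737017)*(mul_nonneg (mul_nonneg ((sub_pos.2 k1.TB)).le hb.r1n) hb.c21) +
        (3410346098029882580265216318/129277279874575514667384737017)*(mul_nonneg ((mul_pos hb.TR1 hb.TR1)).le hb.c21) +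
        (2208852945713074497233820288/129277279874575514667384737017)*(mul_nonneg ((mul_pos (sub_pos.2 k1.TB) hb.TR1)).le hb.r1n) +
        (1325890130484348104751019944/129277279874575514667384737017)*(mul_nonneg ((mul_pos (sub_pos.2 k3.RL) hb.TR1)).le hb.B2n) +
        (11220743205819957500262406776/129277279874575514667384737017)*(mul_nonneg (mul_nonneg ((sub_pos.2 k6.RL)).le hb.c21) hb.c21) +
        (148765066857331947062965776/129277279874575514667384737017)*(mul_nonneg (mul_nonneg hb.qout hb.a1n) hb.a2n) +
        (1643057871646141757656190160/129277279874575514667384737017)*(mul_nonneg (mul_nonneg ((sub_pos.2 k3.RL)).le hb.A2n) hb.B1n) +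
        (2737344781288347184255867392/129277279874575514667384737017)*(mul_nonneg (mul_nonneg hb.c21 hb.c21) hb.c21) +
        (5609177072063990276143117952/129277279874575514667384737017)*(mul_nonneg (mul_nonneg hb.qout hb.a2n) o1) +
        (1098824414692543276095512992/129277279874575514667384737017)*(mul_nonneg ((mul_pos (sub_pos.2 k6.TL) hb.TR1)).le hb.a1n) +
        (339565604351750625591720864/129277279874575514667384737017)*(mul_nonneg (mul_nonneg hb.qout hb.r2n) hb.Tp1) +
        (5286502000725390342259994400/129277279874575514667384737017)*(mul_nonneg (mul_nonneg hb.A2n hb.Tp1) hb.c21) +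
        (79642448419971341915282592/129277279874575514667384737017)*(mul_pos (mul_pos (sub_pos.2 k1.TB) hb.RB1) hb.RB1) +
        (1754544006084888305121745632/129277279874575514667384737017)*(mul_nonneg (mul_nonneg ((sub_pos.2 k7.Rw)).le hb.Tp1) hb.c21) +
        (430360884634550720211983352/129277279874575514667384737017)*(mul_nonneg (mul_nonneg ((sub_pos.2 k2.TB)).le hb.A2n) hb.Lp1) +
        (1643057871646141757656190160/129277279874575514667384737017)*(mul_nonneg (mul_nonneg ((sub_pos.2 k3.RL)).le hb.B1n) hb.B2n) +
        (2315830225273997013501553536/129277279874575514667384737017)*(mul_pos (mul_pos (sub_pos.2 k1.TL) hb.TR1) hb.TR1) +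
        (453972475717140487043100792/129277279874575514667384737017)*(mul_nonneg (mul_nonneg ((sub_pos.2 k2.TB)).le hb.A2n) hb.r1n) +
        (972283023750658287315205560/129277279874575514667384737017)*(mul_nonneg ((mul_pos (sub_pos.2 k3.RL) hb.RB1)).le hb.c21) +
        (8657400233072989347357074176/129277279874575514667384737017)*(mul_nonneg (mul_nonneg s (hb.TR1).le) hb.Tp1) +
        (1077144448632371517386422686/129277279874575514667384737017)*(mul_nonneg ((mul_pos (sub_pos.2 k1.TB) hb.TR1)).le hb.c21) +
        (11063791827914144699792632792/129277279874575514667384737017)*(mul_nonneg ((sub_pos.2 k3.RL)).le hb.a1n) +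
        (964715362969105960464903216/129277279874575514667384737017)*(mul_pos (sub_pos.2 k2.TB) hb.TR1) +
        (484742761016112053845685344/129277279874575514667384737017)*(mul_nonneg (mul_nonneg ((sub_pos.2 k7.RL)).le hb.b2n) hb.B1n) +
        (2379392153920495894826497424/129277279874575514667384737017)*(mul_nonneg ((mul_pos (sub_pos.2 k1.TB) hb.TR1)).le hb.a2n) +
        (7988306868535326954199469648/129277279874575514667384737017)*(mul_nonneg (mul_nonneg s hb.Tp1) hb.c21) +
        (1030499950229032363633797984/129277279874575514667384737017)*(mul_nonneg (mul_nonneg hb.qout hb.b2n) hb.c21) +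
        (1412295834265190255729029392/129277279874575514667384737017)*(mul_nonneg (mul_nonneg hb.qout hb.A1n) o1) +
        (1412295834265190255729029392/129277279874575514667384737017)*(mul_nonneg (mul_nonneg hb.qout hb.B1n) o1) +
        (10539908373145781578056157936/129277279874575514667384737017)*(mul_nonneg (mul_nonneg ((sub_pos.2 k6.TL)).le hb.a2n) hb.c21) +
        (603843229598939218772494936/129277279874575514667384737017)*(mul_nonneg ((mul_pos (sub_pos.2 k5.TL) hb.TR1)).le hb.a1n) +
        (543365541402825088419069360/129277279874575514667384737017)*(mul_pos (sub_pos.2 k2.TB) hb.RB1) +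
        (3601869099652202572729756960/129277279874575514667384737017)*(mul_nonneg (mul_nonneg s (hb.TR1).le) hb.c21) +
        (1228400629301188777824843360/129277279874575514667384737017)*(mul_nonneg (mul_nonneg ((sub_pos.2 k3.RL)).le hb.r2n) hb.c21) +
        (1228400629301188777824843360/129277279874575514667384737017)*(mul_nonneg (mul_nonneg ((sub_pos.2 k3.RL)).le hb.b2n) hb.r2n) +
        (839399068693006337714591568/129277279874575514667384737017)*(mul_nonneg (mul_nonneg ((sub_pos.2 k3.RL)).le hb.B1n) hb.r1n) +
        (1519646504236517034626246520/129277279874575514667384737017)*(mul_nonneg (mul_nonneg hb.qout (hb.TR1).le) o1) +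
        (2456801258602377555649686720/129277279874575514667384737017)*(mul_nonneg (mul_nonneg s hb.A2n) o1) +
        (4701232120629709302056916368/129277279874575514667384737017)*(mul_nonneg (mul_nonneg hb.qout hb.a1n) hb.r2n) +
        (1574541157980203421440763264/129277279874575514667384737017)*(mul_nonneg (mul_nonneg hb.wout hb.a2n) hb.Tp1) +
        (1038924056920378569631985344/129277279874575514667384737017)*(mul_nonneg (mul_nonneg s hb.a1n) hb.a2n) +
        (843441251744426084028027648/129277279874575514667384737017)*(mul_nonneg (mul_nonneg hb.r1n hb.c21) hb.c21) +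
        (2105098481506228045548663776/129277279874575514667384737017)*(mul_nonneg ((mul_pos (sub_pos.2 k6.TB) hb.TR1)).le hb.r2n) +
        (206857716121738952779335790/129277279874575514667384737017)*(mul_nonneg (mul_nonneg ((sub_pos.2 k5.RL)).le hb.a1n) hb.a1n) +
        (214730700730683769095477874/129277279874575514667384737017)*(mul_nonneg (mul_nonneg s hb.a1n) hb.a1n) +
        (89337290737726792172220864/129277279874575514667384737017)*(mul_nonneg (mul_nonneg hb.B1n hb.r2n) hb.c21) +
        (105397104213105680468703416/129277279874575514667384737017)*(mul_nonneg (mul_nonneg ((sub_pos.2 k5.RL)).le hb.r1n) hb.c21) +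
        (173598076198442758761046500/129277279874575514667384737017)*(mul_pos (sub_pos.2 k7.RL) hb.TR1) +
        (94446364330359067324469760/129277279874575514667384737017)*(mul_nonneg (mul_nonneg hb.r1n hb.Tp1) hb.c21) +
        (23611591082589766831117440/129277279874575514667384737017)*(mul_nonneg (mul_nonneg ((sub_pos.2 k2.TB)).le hb.B1n) hb.Lp1) +
        (23611591082589766831117440/129277279874575514667384737017)*(mul_nonneg (mul_nonneg ((sub_pos.2 k5.TL)).le hb.B1n) hb.r1n) +
        (47223182165179533662234880/129277279874575514667384737017)*(mul_nonneg (mul_nonneg s hb.r1n) o1) +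
        (47223182165179533662234880/129277279874575514667384737017)*(mul_nonneg (mul_nonneg ((sub_pos.2 k1.TB)).le hb.r1n) hb.r2n) +
        (47223182165179533662234880/129277279874575514667384737017)*(mul_nonneg (mul_nonneg ((sub_pos.2 k6.RL)).le hb.r1n) hb.r2n) +
        (23611591082589766831117440/129277279874575514667384737017)*(mul_nonneg ((sub_pos.2 k2.TB)).le hb.r1n) +
        (23611591082589766831117440/129277279874575514667384737017)*(mul_nonneg (mul_nonneg ((sub_pos.2 k4.TB)).le hb.c21) o0) +
        (47223182165179533662234880/129277279874575514667384737017)*(mul_nonneg (mul_nonneg hb.qout hb.r1n) hb.r1n) +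
        (11805795541294883415558720/129277279874575514667384737017)*(mul_nonneg (mul_nonneg ((sub_pos.2 k0.RL)).le hb.r1n) hb.c21) +
        (47223182165179533662234880/129277279874575514667384737017)*(mul_nonneg (mul_nonneg hb.r1n hb.c21) o1) +
        (23611591082589766831117440/129277279874575514667384737017)*(mul_nonneg (mul_nonneg ((sub_pos.2 k5.RL)).le hb.B2n) hb.r1n) +
        (11805795541294883415558720/129277279874575514667384737017)*(mul_nonneg (mul_nonneg ((sub_pos.2 k2.TB)).le hb.r1n) hb.c12) +
        (27548083387062174989188482/129277279874575514667384737017)*(mul_nonneg (mul_nonneg ((sub_pos.2 k5.RL)).le hb.r1n) o0) +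
        (27548083387062174989188482/129277279874575514667384737017)*(mul_nonneg (mul_nonneg ((sub_pos.2 k5.TL)).le hb.r1n) hb.r1n))
  · linarith [(sub_pos.2 k6.RL),
    (mul_nonneg (neg_nonneg.2 s) hb.B2n),
    (mul_nonneg (mul_nonneg (neg_nonneg.2 s) (hb.TR1).le) hb.r1n),
    (mul_pos (sub_pos.2 k3.RL) (k6.pos hb.a2n)),
    (mul_nonneg ((sub_pos.2 k3.Rw)).le (neg_nonneg.2 s)),
    (mul_pos (sub_pos.2 k3.RL) (k1.pos hb.A2n_)),
    (mul_nonneg (neg_nonneg.2 s) (neg_nonneg.2 s)),
    (mul_pos (sub_pos.2 k6.RL) hb.TR1),
    (mul_nonneg (mul_nonneg ((sub_pos.2 k6.RL)).le hb.Lp1) hb.c21),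
    (mul_nonneg (mul_nonneg ((sub_pos.2 k6.TL)).le hb.r1n) hb.c21),
    (mul_nonneg (mul_nonneg (neg_nonneg.2 s) (hb.RB1).le) hb.r1n),
    (mul_nonneg hb.qout (neg_nonneg.2 s)),
    (mul_nonneg (mul_nonneg (neg_nonneg.2 s) hb.Lp1) hb.Lp1),
    (mul_nonneg (mul_nonneg (neg_nonneg.2 s) hb.Lp1) hb.c21),
    (mul_nonneg (mul_nonneg (neg_nonneg.2 s) (hb.TR1).le) o0),
    (mul_nonneg (mul_nonneg (neg_nonneg.2 s) (hb.TR1).le) hb.a1n),
    (mul_nonneg (mul_nonneg (neg_nonneg.2 s) hb.r1n) hb.Lp1)]

theorem K71 {c1 c2 a1 a2 B1 B2 r1 r2 : ℝ} (hb : Base c1 c2 a1 a2 B1 B2 r1 r2) (dca : 0 ≤ c2*a1-c1*a2) (k0 : Y1 c1 c2 a1 a2 a1 a2 r1 r2) (k1 : Y1 c1 c2 a1 a2 (2-c1-a1) (2-c2-a2) (2-a1-r1) (a2-r2)) (k2 : Y1 c1 c2 a1 a2 a1 a2 B1 B2) (k3 : Y1 c1 (2-c2) B1 B2 B1 B2 (2-r1-B1) (r2+B2)) (k4 : Y1 c1 (2-c2) B1 B2 B1 B2 (2-c1-a1) (2-c2-a2)) (d22 : 0 ≤ a2-c2-2*r2) : False := by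
  exact lt_irrefl (0:ℝ) (by
      linear_combination
        (966689792239737/6813545340773270)*(sub_pos.2 k2.RL) +
        (175000307987808/3406772670386635)*(sub_pos.2 k4.Tw) +
        (1853650384249155/9538963477082578)*(mul_pos (sub_pos.2 k2.RL) hb.TR1) +
        (928497941906352/23847408692706445)*(mul_pos (sub_pos.2 k4.Tw) hb.TR1) +
        (808013354143224/4769481738541289)*(mul_nonneg hb.a1n hb.A2n) +
        (317228934513174/23847408692706445)*(mul_pos (sub_pos.2 k3.Tw) (k2.pos hb.a2n)) +
        (11355943675945146/23847408692706445)*(mul_nonneg (mul_nonneg hb.a1n hb.B1n) d22) +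
        (2543636718538656/23847408692706445)*(mul_nonneg hb.a1n d22) +
        (2548870503444642/23847408692706445)*(mul_nonneg ((mul_pos (sub_pos.2 k0.RL) hb.TR1)).le hb.B1n) +
        (529212585983712/4769481738541289)*(mul_nonneg hb.B2n d22) +
        (1228039721451948/3406772670386635)*(mul_nonneg hb.a2n hb.A2n) +
        (716028921770985/4769481738541289)*(mul_nonneg (mul_nonneg (hb.RB1).le hb.a2n) hb.A2n) +
        (5159837734900104/23847408692706445)*(mul_nonneg hb.B1n d22) +
        (507695041436448/4769481738541289)*(sub_pos.2 k0.TL) +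
        (407196649458507/4769481738541289)*(mul_nonneg (mul_nonneg ((sub_pos.2 k2.RL)).le hb.r1n) hb.c21) +
        (133334647533986/23847408692706445)*(mul_nonneg ((mul_pos (sub_pos.2 k2.RL) hb.TR1)).le hb.B1n) +
        (158614467256587/23847408692706445)*(mul_nonneg (mul_nonneg ((sub_pos.2 k2.RB)).le hb.B1n) d22) +
        (659737688748949/23847408692706445)*(mul_nonneg (mul_nonneg ((sub_pos.2 k2.RL)).le hb.B2n) hb.c21) +
        (69770065744413/4769481738541289)*(mul_nonneg (mul_nonneg hb.a1n hb.a2n) d22) +
        (183894286979188/23847408692706445)*(mul_pos (sub_pos.2 k2.RL) (k4.pos hb.B2n)) +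
        (264606292991856/23847408692706445)*(mul_nonneg (mul_nonneg ((sub_pos.2 k2.RB)).le hb.r1n) d22) +
        (2197643934663204/4769481738541289)*(mul_nonneg (mul_nonneg ((sub_pos.2 k0.RL)).le hb.B2n) hb.r1n) +
        (10459007087332308/23847408692706445)*(mul_pos (sub_pos.2 k3.Tw) (k0.pos hb.a2n)) +
        (5229503543666154/23847408692706445)*(mul_nonneg (mul_nonneg ((sub_pos.2 k0.TB)).le hb.B1n) d22) +
        (3164788536237033/23847408692706445)*(mul_nonneg (mul_nonneg ((sub_pos.2 k0.RL)).le hb.B2n) hb.c21) +
        (5252681578168341/47694817385412890)*(mul_nonneg ((mul_pos (sub_pos.2 k3.Tw) hb.TR1)).le hb.a2n) +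
        (2614751771833077/47694817385412890)*(mul_nonneg ((mul_pos (sub_pos.2 k2.TB) hb.TR1)).le d22) +
        (3217713310764108/23847408692706445)*(mul_nonneg (mul_nonneg hb.a2n hb.A2n) hb.A2n) +
        (625898061311608/23847408692706445)*(mul_nonneg (mul_nonneg ((sub_pos.2 k2.RL)).le hb.a1n) hb.B2n) +
        (350871217347456/3406772670386635)*(mul_nonneg (mul_nonneg ((sub_pos.2 k2.TL)).le hb.B2n) hb.B2n) +
        (4443458709849498/23847408692706445)*(mul_nonneg (mul_nonneg ((sub_pos.2 k4.Tw)).le hb.a2n) hb.A2n) +
        (1168592033076015/4769481738541289)*(mul_nonneg (mul_nonneg ((sub_pos.2 k0.RL)).le hb.b2n) hb.B1n) +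
        (2216127636282258/23847408692706445)*(mul_nonneg (mul_nonneg ((sub_pos.2 k0.RL)).le hb.B1n) hb.c21) +
        (13943344440165846/23847408692706445)*(mul_nonneg (mul_nonneg hb.a1n hb.B2n) d22) +
        (5328719573630931/47694817385412890)*(mul_nonneg ((mul_pos (sub_pos.2 k4.Tw) hb.RB1)).le hb.a2n) +
        (1623277465963107/23847408692706445)*(mul_nonneg (mul_nonneg ((sub_pos.2 k4.Tw)).le hb.a2n) hb.b1n) +
        (1756072201840146/23847408692706445)*(mul_nonneg (mul_nonneg dca (hb.TR1).le) hb.B2n) +
        (3595405260648279/47694817385412890)*(mul_nonneg (mul_nonneg ((sub_pos.2 k4.Tw)).le hb.a1n) hb.a2n) +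
        (3971735672732004/23847408692706445)*(mul_nonneg (mul_nonneg ((sub_pos.2 k4.Tw)).le hb.a2n) hb.B2n) +
        (157699700895213/3406772670386635)*(mul_nonneg (mul_nonneg dca hb.A2n) hb.B1n) +
        (2614751771833077/23847408692706445)*(mul_nonneg (mul_nonneg (hb.TR1).le hb.a1n) d22) +
        (3171247291716156/23847408692706445)*(mul_nonneg (mul_nonneg hb.a2n hb.A2n) hb.B1n) +
        (468489673413672/23847408692706445)*(mul_nonneg (mul_nonneg ((sub_pos.2 k4.Tw)).le hb.a1n) hb.c21) +
        (448468294306419/23847408692706445)*(mul_nonneg (mul_nonneg dca hb.a1n) hb.B2n) +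
        (157699700895213/3406772670386635)*(mul_nonneg (mul_nonneg dca hb.B1n) hb.B2n) +
        (2487570951229191/47694817385412890)*(mul_nonneg ((mul_pos (sub_pos.2 k2.RL) hb.RB1)).le hb.Tp1) +
        (237890903740911/23847408692706445)*(mul_nonneg (mul_nonneg ((sub_pos.2 k2.RL)).le hb.a1n) hb.c12) +
        (275006219497092/3406772670386635)*(mul_nonneg (mul_nonneg ((sub_pos.2 k3.Tw)).le hb.a2n) hb.A2n) +
        (2433431944043112/23847408692706445)*(mul_nonneg (mul_nonneg hb.a2n hb.B1n) d22) +
        (350871217347456/3406772670386635)*(mul_nonneg (mul_nonneg ((sub_pos.2 k4.Tw)).le hb.B2n) hb.B2n) +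
        (10323022712832/23847408692706445)*(mul_nonneg (mul_nonneg (hb.RB1).le hb.a1n) hb.r2n) +
        (356874639498312/23847408692706445)*(mul_nonneg (mul_nonneg ((sub_pos.2 k4.Tw)).le hb.r1n) hb.r1n) +
        (86582661901716/3406772670386635)*(mul_nonneg (mul_nonneg ((sub_pos.2 k3.RL)).le hb.a2n) hb.B2n) +
        (726405012515942/23847408692706445)*(mul_nonneg ((mul_pos (sub_pos.2 k2.RL) hb.TR1)).le hb.B2n) +
        (768445209377616/23847408692706445)*(mul_nonneg (mul_nonneg ((sub_pos.2 k2.TL)).le hb.Tp1) hb.c12) +
        (2773191578653563/47694817385412890)*(mul_nonneg ((mul_pos (sub_pos.2 k3.RL) hb.RB1)).le hb.a2n) +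
        (5870534276010696/23847408692706445)*(mul_nonneg (mul_nonneg hb.B1n hb.r2n) hb.Lp1) +
        (3162057312384552/23847408692706445)*(mul_nonneg (mul_nonneg hb.B1n hb.r1n) hb.r2n) +
        (1475225768620944/23847408692706445)*(mul_nonneg (mul_nonneg dca (hb.RB1).le) hb.r1n) +
        (1356087415263996/23847408692706445)*(mul_nonneg (mul_nonneg dca hb.Tp1) hb.Tp1) +
        (235861518558747/23847408692706445)*(mul_nonneg (mul_nonneg ((sub_pos.2 k2.RB)).le hb.a2n) hb.A2n) +
        (1021452028914588/23847408692706445)*(mul_nonneg (mul_nonneg hb.A2n hb.B1n) hb.Lp1) +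
        (2580755678208/23847408692706445)*(mul_nonneg (mul_nonneg ((sub_pos.2 k0.RL)).le hb.Lp1) hb.c21) +
        (235861518558747/23847408692706445)*(mul_nonneg (mul_nonneg ((sub_pos.2 k2.TL)).le hb.a2n) hb.A2n) +
        (471723037117494/23847408692706445)*(mul_nonneg (mul_nonneg hb.a2n hb.a2n) hb.A2n) +
        (156212039823003/9538963477082578)*(mul_nonneg (mul_nonneg ((sub_pos.2 k2.TL)).le hb.c21) hb.c21) +
        (14716641640431/6813545340773270)*(mul_nonneg (mul_nonneg dca hb.c21) hb.c21) +
        (529212585983712/23847408692706445)*(mul_nonneg (mul_nonneg dca hb.r1n) hb.r2n) +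
        (761880039894492/23847408692706445)*(mul_nonneg (mul_nonneg dca hb.r1n) hb.Lp1) +
        (790938602815167/23847408692706445)*(mul_nonneg dca hb.c21) +
        (326689426753308/23847408692706445)*(mul_nonneg (mul_nonneg hb.A2n hb.B1n) hb.r1n) +
        (593805967738080/4769481738541289)*(mul_nonneg (mul_nonneg hb.A2n hb.B1n) hb.B2n) +
        (2800083510240336/23847408692706445)*(mul_nonneg (mul_nonneg (hb.TR1).le hb.B1n) hb.r2n) +
        (34738130108064/4769481738541289)*(mul_nonneg (mul_nonneg ((sub_pos.2 k3.RL)).le hb.r1n) hb.c21) +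
        (529212585983712/23847408692706445)*(mul_nonneg (mul_nonneg hb.qout hb.r1n) d22) +
        (126032213222826/23847408692706445)*(mul_nonneg (mul_nonneg dca (hb.RB1).le) hb.a1n) +
        (188423557595376/3406772670386635)*(mul_nonneg (mul_nonneg ((sub_pos.2 k3.RB)).le hb.B2n) d22) +
        (376847115190752/3406772670386635)*(mul_nonneg (mul_nonneg ((sub_pos.2 k3.RB)).le hb.B2n) hb.r2n) +
        (971583602086992/23847408692706445)*(mul_nonneg (mul_nonneg ((sub_pos.2 k3.RB)).le hb.A2n) hb.B2n) +
        (971583602086992/23847408692706445)*(mul_nonneg (mul_nonneg ((sub_pos.2 k3.Tw)).le hb.B2n) hb.B2n) +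
        (34738130108064/4769481738541289)*(mul_nonneg (mul_nonneg ((sub_pos.2 k3.Tw)).le hb.A2n) hb.c12) +
        (34738130108064/4769481738541289)*(mul_nonneg (mul_nonneg ((sub_pos.2 k3.RL)).le hb.B2n) hb.c21) +
        (94304443944576/23847408692706445)*(mul_nonneg (mul_nonneg hb.r1n hb.c12) d22) +
        (81279053425200/4769481738541289)*(mul_nonneg (mul_nonneg hb.A2n hb.r1n) d22) +
        (529212585983712/23847408692706445)*(mul_nonneg (mul_nonneg ((sub_pos.2 k3.Tw)).le hb.Tp1) d22) +
        (591248448324288/3406772670386635)*(mul_nonneg (mul_nonneg hb.B2n hb.r2n) hb.c21) +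
        (1058425171967424/23847408692706445)*(mul_nonneg (mul_nonneg ((sub_pos.2 k3.RL)).le hb.r1n) hb.r2n) +
        (25975897843296/3406772670386635)*(mul_nonneg (mul_nonneg ((sub_pos.2 k3.RB)).le hb.A2n) hb.Tp1) +
        (1058425171967424/23847408692706445)*(mul_nonneg (mul_nonneg ((sub_pos.2 k3.RL)).le hb.A1n) hb.r2n) +
        (2116850343934848/23847408692706445)*(mul_nonneg (mul_nonneg hb.B1n hb.r2n) d22) +
        (1058425171967424/23847408692706445)*(mul_nonneg (mul_nonneg ((sub_pos.2 k3.RL)).le hb.B1n) hb.r2n) +
        (25975897843296/3406772670386635)*(mul_nonneg (mul_nonneg ((sub_pos.2 k3.Tw)).le hb.B2n) hb.r1n) +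
        (529212585983712/23847408692706445)*(mul_nonneg (mul_nonneg hb.qout (hb.RB1).le) hb.r2n) +
        (529212585983712/23847408692706445)*(mul_nonneg (mul_nonneg hb.qout (hb.TR1).le) hb.r2n) +
        (244922609485548/23847408692706445)*(mul_nonneg (mul_nonneg hb.b1n hb.A2n) hb.r1n) +
        (512931317258208/23847408692706445)*(mul_nonneg (mul_nonneg hb.qout hb.A2n) hb.B2n) +
        (529212585983712/23847408692706445)*(mul_nonneg (mul_nonneg (hb.TR1).le hb.B2n) d22) +
        (17369065054032/4769481738541289)*(mul_nonneg (mul_nonneg ((sub_pos.2 k3.RL)).le hb.c21) hb.c21) +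
        (17369065054032/4769481738541289)*(mul_nonneg ((mul_pos (sub_pos.2 k3.Tw) hb.TR1)).le hb.c21) +
        (38983506411240/681354534077327)*(mul_nonneg (mul_nonneg hb.A2n hb.B1n) hb.c21) +
        (53424666124539/6813545340773270)*(mul_nonneg ((sub_pos.2 k2.RL)).le dca) +
        (12987948921648/3406772670386635)*(mul_nonneg (mul_nonneg ((sub_pos.2 k3.RL)).le hb.B1n) hb.c21) +
        (529212585983712/23847408692706445)*(mul_nonneg (mul_nonneg hb.qout hb.B1n) hb.r2n) +
        (128232829314552/23847408692706445)*(mul_nonneg (mul_nonneg ((sub_pos.2 k3.RL)).le hb.B1n) hb.Lp1) +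
        (266235170942352/4769481738541289)*(mul_nonneg (mul_nonneg (hb.TR1).le hb.A2n) hb.B2n) +
        (1943167204173984/23847408692706445)*(mul_nonneg (mul_nonneg hb.A2n hb.B2n) hb.B2n) +
        (4341796839792/4769481738541289)*(mul_nonneg ((mul_pos hb.RB1 hb.RB1)).le hb.A2n) +
        (86847202965024/23847408692706445)*(mul_pos (sub_pos.2 k3.RL) hb.RB1) +
        (203408284662552/4769481738541289)*(mul_nonneg (mul_nonneg (hb.TR1).le hb.A2n) hb.B1n) +
        (2037411720367752/23847408692706445)*(mul_nonneg ((sub_pos.2 k4.Tw)).le hb.a1n) +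
        (317228934513174/23847408692706445)*(mul_nonneg (mul_nonneg ((sub_pos.2 k2.RL)).le hb.B2n) hb.r1n) +
        (212068565672472/4769481738541289)*(mul_nonneg ((sub_pos.2 k3.TB)).le dca) +
        (1287763519398432/23847408692706445)*(mul_nonneg hb.Lp1 d22) +
        (2618945007194784/23847408692706445)*(mul_nonneg hb.r2n hb.Lp1) +
        (69770065744413/9538963477082578)*(mul_nonneg (mul_nonneg ((sub_pos.2 k2.RL)).le hb.a1n) hb.a2n) +
        (8683593679584/4769481738541289)*(mul_nonneg (mul_nonneg hb.A2n hb.A2n) hb.c21) +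
        (17367187359168/4769481738541289)*(mul_nonneg (mul_nonneg (hb.TR1).le hb.r2n) hb.c21) +
        (435572758473696/23847408692706445)*(mul_nonneg (hb.TR1).le hb.r2n) +
        (8683593679584/4769481738541289)*(mul_nonneg (mul_nonneg hb.c21 hb.c21) d22) +
        (217121762802288/23847408692706445)*(mul_nonneg (mul_nonneg hb.B1n hb.r2n) hb.c21) +
        (69770065744413/4769481738541289)*(mul_nonneg (mul_nonneg ((sub_pos.2 k2.TL)).le hb.a2n) hb.r1n) +
        (67873403125644/23847408692706445)*(mul_nonneg ((mul_pos (sub_pos.2 k4.RL) hb.TR1)).le hb.a1n) +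
        (5537760497552544/23847408692706445)*(mul_nonneg (mul_nonneg hb.B2n hb.r1n) hb.r2n) +
        (1276909027298952/23847408692706445)*(mul_nonneg hb.A2n hb.Lp1) +
        (7525000735344/2167946244791495)*(mul_nonneg ((mul_pos (sub_pos.2 k3.RL) hb.TR1)).le hb.r1n) +
        (554993765058912/23847408692706445)*(mul_nonneg ((sub_pos.2 k4.RL)).le hb.c21) +
        (12987948921648/3406772670386635)*(mul_nonneg ((mul_pos (sub_pos.2 k3.RL) hb.TR1)).le hb.B1n) +
        (673789826507328/23847408692706445)*(mul_nonneg (mul_nonneg ((sub_pos.2 k3.Tw)).le hb.a1n) hb.a1n) +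
        (34734374718336/4769481738541289)*(mul_nonneg (mul_nonneg hb.r2n hb.Tp1) hb.c21) +
        (435572758473696/23847408692706445)*(mul_nonneg (mul_nonneg hb.r2n hb.Tp1) hb.Lp1) +
        (435572758473696/23847408692706445)*(mul_nonneg (mul_nonneg hb.r1n hb.r1n) hb.r2n) +
        (348736821677856/23847408692706445)*(mul_nonneg (hb.RB1).le hb.r2n) +
        (4341796839792/4769481738541289)*(mul_nonneg (mul_nonneg hb.A2n hb.c21) hb.c12) +
        (58106889998112/3406772670386635)*(mul_nonneg ((sub_pos.2 k3.Tw)).le hb.c12) +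
        (95748898778853/3406772670386635)*(mul_nonneg (mul_nonneg hb.a1n hb.a2n) hb.A2n) +
        (550036764403956/23847408692706445)*(mul_nonneg (mul_nonneg ((sub_pos.2 k2.RL)).le hb.pB2) hb.c21) +
        (1739171162000922/23847408692706445)*(mul_nonneg (mul_nonneg hb.a1n hb.B2n) hb.r2n) +
        (133334647533986/23847408692706445)*(mul_nonneg (mul_nonneg ((sub_pos.2 k2.RL)).le hb.B1n) hb.c21) +
        (234751980192984/23847408692706445)*(mul_nonneg (mul_nonneg ((sub_pos.2 k3.RL)).le hb.r1n) hb.Lp1) +
        (231354494361198/23847408692706445)*(mul_nonneg (mul_nonneg (hb.TR1).le hb.A2n) hb.r1n) +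
        (423135900907578/23847408692706445)*(mul_nonneg dca hb.a1n) +
        (234751980192984/23847408692706445)*(mul_nonneg (mul_nonneg ((sub_pos.2 k3.Tw)).le hb.r1n) hb.r1n) +
        (341046959344944/23847408692706445)*(mul_nonneg ((mul_pos (sub_pos.2 k3.Tw) hb.RB1)).le hb.a1n) +
        (7525000735344/2167946244791495)*(mul_nonneg (mul_nonneg hb.qout hb.B1n) d22) +
        (673789826507328/23847408692706445)*(mul_nonneg (mul_nonneg ((sub_pos.2 k3.Tw)).le hb.a1n) hb.b1n) +
        (1881250183836/2167946244791495)*(mul_nonneg ((mul_pos (sub_pos.2 k4.RL) hb.TR1)).le hb.B1n) +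
        (2546715870237879/47694817385412890)*(mul_nonneg ((mul_pos (sub_pos.2 k2.RL) hb.TR1)).le hb.r1n) +
        (128232829314552/23847408692706445)*(mul_nonneg (mul_nonneg ((sub_pos.2 k3.RL)).le hb.B1n) hb.r1n) +
        (25279819722601/23847408692706445)*(mul_nonneg (mul_nonneg ((sub_pos.2 k2.RL)).le hb.a2n) hb.B1n) +
        (1881250183836/2167946244791495)*(mul_nonneg ((sub_pos.2 k4.RL)).le hb.B1n) +
        (1881250183836/2167946244791495)*(mul_nonneg (mul_nonneg ((sub_pos.2 k4.RL)).le hb.B1n) hb.c21) +
        (546570119736129/23847408692706445)*(mul_nonneg (mul_nonneg ((sub_pos.2 k2.RL)).le hb.a1n) hb.Lp1) +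
        (400616270288028/23847408692706445)*(mul_nonneg (mul_nonneg ((sub_pos.2 k2.RB)).le hb.a1n) hb.A2n) +
        (1123419961353216/23847408692706445)*(mul_nonneg (mul_nonneg hb.a1n hb.r1n) d22) +
        (143932473253644/23847408692706445)*(mul_nonneg (mul_nonneg hb.a1n hb.A2n) hb.Tp1) +
        (77308700394804/4769481738541289)*(mul_nonneg (mul_nonneg dca hb.a1n) hb.c12) +
        (546570119736129/23847408692706445)*(mul_nonneg (mul_nonneg ((sub_pos.2 k2.RL)).le hb.a1n) hb.r1n) +
        (13821165700644/4769481738541289)*(mul_nonneg (mul_nonneg hb.a1n hb.A2n) hb.c21) +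
        (260511288751194/23847408692706445)*(mul_nonneg (mul_nonneg dca hb.b1n) hb.c12) +
        (72843369566328/2167946244791495)*(mul_nonneg (mul_nonneg dca hb.A2n) hb.r1n) +
        (594207375369504/23847408692706445)*(mul_nonneg (mul_nonneg ((sub_pos.2 k2.TL)).le hb.r1n) hb.r1n) +
        (700026319592046/23847408692706445)*(mul_nonneg (mul_nonneg dca hb.B2n) hb.c21) +
        (19350877450413/2167946244791495)*(mul_nonneg (mul_nonneg dca hb.a2n) hb.Lp1) +
        (15050001470688/2167946244791495)*(mul_nonneg (mul_nonneg hb.B1n hb.B1n) d22) +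
        (3762500367672/2167946244791495)*(mul_nonneg (mul_nonneg ((sub_pos.2 k4.RL)).le hb.a1n) hb.B2n) +
        (149197032761928/23847408692706445)*(mul_nonneg ((mul_pos (sub_pos.2 k0.RL) hb.TR1)).le hb.r1n) +
        (298394065523856/23847408692706445)*(mul_nonneg (mul_nonneg dca hb.B1n) hb.Lp1) +
        (1198516124168028/23847408692706445)*(mul_nonneg (mul_nonneg (hb.RB1).le hb.a2n) hb.r2n) +
        (1002790618940784/23847408692706445)*(mul_nonneg (mul_nonneg hb.A2n hb.B2n) hb.c21) +
        (139540131488826/4769481738541289)*(mul_nonneg hb.a2n d22) +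
        (148551843842376/23847408692706445)*(mul_nonneg (mul_nonneg dca hb.a1n) d22) +
        (148551843842376/23847408692706445)*(mul_nonneg (mul_nonneg dca hb.a2n) hb.b1n) +
        (74275921921188/23847408692706445)*(mul_nonneg (mul_nonneg dca (hb.RB1).le) hb.a2n) +
        (74275921921188/23847408692706445)*(mul_nonneg (mul_nonneg dca (hb.TR1).le) hb.a2n) +
        (14063227908588/3406772670386635)*(mul_nonneg (mul_nonneg hb.a2n hb.r2n) hb.c12) +
        (1540156983151296/23847408692706445)*(mul_nonneg (mul_nonneg hb.B2n hb.c21) d22) +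
        (1099587801182169/47694817385412890)*(mul_nonneg (mul_nonneg ((sub_pos.2 k3.RL)).le hb.a1n) hb.a2n) +
        (1034561247784692/23847408692706445)*(mul_nonneg (mul_nonneg dca hb.B1n) hb.r2n) +
        (14793215140647/2167946244791495)*(mul_nonneg (mul_nonneg ((sub_pos.2 k2.RL)).le hb.a1n) hb.c21) +
        (594207375369504/23847408692706445)*(mul_nonneg (mul_nonneg hb.a1n hb.a1n) hb.r2n) +
        (148551843842376/23847408692706445)*(mul_nonneg ((sub_pos.2 k0.RL)).le hb.wout) +
        (12987948921648/3406772670386635)*(mul_pos (mul_pos (sub_pos.2 k4.Tw) hb.TR1) hb.TR1) +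
        (951232016180112/23847408692706445)*(mul_nonneg hb.A2n hb.B2n) +
        (298394065523856/23847408692706445)*(mul_nonneg (mul_nonneg ((sub_pos.2 k0.TL)).le hb.A1n) hb.r1n) +
        (213038301756864/23847408692706445)*(mul_nonneg ((sub_pos.2 k1.TB)).le hb.B1n) +
        (2497062035329854/23847408692706445)*(mul_nonneg (mul_nonneg hb.a2n hb.A2n) hb.r1n) +
        (12987948921648/3406772670386635)*(mul_nonneg ((mul_pos (sub_pos.2 k3.Tw) hb.TR1)).le hb.r1n) +
        (8140634362752/23847408692706445)*(mul_nonneg (mul_nonneg hb.qout (hb.RB1).le) hb.A2n) +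
        (25975897843296/3406772670386635)*(mul_nonneg (mul_nonneg hb.B1n hb.B2n) d22) +
        (298394065523856/23847408692706445)*(mul_nonneg (mul_nonneg ((sub_pos.2 k3.RL)).le hb.a1n) hb.r1n) +
        (15050001470688/2167946244791495)*(mul_nonneg ((sub_pos.2 k3.RL)).le hb.B2n) +
        (339021853815999/23847408692706445)*(mul_nonneg (mul_nonneg dca (hb.TR1).le) hb.c21) +
        (63237376219518/4769481738541289)*(mul_nonneg (mul_nonneg dca hb.A2n) hb.B2n) +
        (34738130108064/4769481738541289)*(mul_nonneg ((mul_pos (sub_pos.2 k4.Tw) hb.RB1)).le hb.c21) +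
        (29323255416744/4769481738541289)*(mul_nonneg ((mul_pos (sub_pos.2 k0.RL) hb.RB1)).le hb.r1n) +
        (16788950391618/4769481738541289)*(mul_nonneg (mul_nonneg dca hb.B2n) hb.r1n) +
        (28126455817176/3406772670386635)*(mul_nonneg (mul_nonneg hb.a2n hb.B2n) hb.r2n) +
        (20477716944144/2167946244791495)*(mul_nonneg (mul_nonneg (hb.RB1).le hb.r1n) d22) +
        (215078154584712/23847408692706445)*(mul_nonneg (mul_nonneg (hb.TR1).le hb.B1n) d22) +
        (15464526091416/2167946244791495)*(mul_nonneg (mul_nonneg dca (hb.TR1).le) hb.Tp1) +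
        (51746641037313/23847408692706445)*(mul_nonneg ((sub_pos.2 k0.TL)).le hb.a2n) +
        (144518557565358/23847408692706445)*(mul_nonneg (mul_nonneg (hb.RB1).le hb.A2n) hb.r1n) +
        (28126455817176/3406772670386635)*(mul_nonneg (mul_nonneg hb.a2n hb.A2n) hb.r2n) +
        (6493974460824/3406772670386635)*(mul_nonneg ((mul_pos (sub_pos.2 k4.RL) hb.RB1)).le hb.r1n) +
        (185441166168/2167946244791495)*(mul_nonneg (mul_nonneg hb.B1n hb.c21) d22) +
        (2035158590688/23847408692706445)*(mul_nonneg ((mul_pos (sub_pos.2 k4.RL) hb.TR1)).le hb.c21) +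
        (18189348892239/6813545340773270)*(mul_nonneg (mul_nonneg ((sub_pos.2 k3.Tw)).le hb.a1n) hb.a2n) +
        (5551029968424/2167946244791495)*(mul_nonneg (mul_nonneg ((sub_pos.2 k4.RL)).le hb.r1n) hb.Lp1))

theorem K68 {c1 c2 a1 a2 B1 B2 r1 r2 : ℝ} (hb : Base c1 c2 a1 a2 B1 B2 r1 r2) (dca : 0 ≤ c2*a1-c1*a2) (k0 : Y1 c1 c2 a1 a2 c1 c2 r1 r2) (k1 : Y1 c1 c2 a1 a2 (2-c1-a1) (2-c2-a2) (2-a1-r1) (a2-r2)) (k2 : Y1 c1 c2 a1 a2 a1 a2 B1 B2) (k3 : Y1 c1 (2-c2) B1 B2 B1 B2 (2-r1-B1) (r2+B2)) (k4 : Y1 c1 (2-c2) B1 B2 B1 B2 (2-c1-a1) (2-c2-a2)) (o0 : 0 ≤ 2-a1-r1) (o1 : 0 ≤ a2-r2) (o2 : 0 ≤ 2-r1-B1) : False := by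
  rcases le_total 0 (c2*(2-c1-a1)-c1*(2-c2-a2)) with s | s
  · linarith [(sub_pos.2 k1.TB),
    (mul_pos (sub_pos.2 k1.TB) hb.TR1),
    (mul_nonneg ((sub_pos.2 k3.Tw)).le s),
    (mul_nonneg ((sub_pos.2 k0.Rw)).le hb.b2n),
    (mul_nonneg ((sub_pos.2 k2.RL)).le s),
    (mul_nonneg (mul_nonneg s hb.A2n) o2),
    (mul_nonneg ((sub_pos.2 k1.TB)).le hb.c21),
    (mul_nonneg (mul_nonneg s hb.r2n) o2),
    (mul_nonneg (mul_nonneg s hb.A2n) hb.B1n),
    (mul_nonneg ((sub_pos.2 k4.Tw)).le s),
    (mul_nonneg ((sub_pos.2 k0.RL)).le s),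
    (mul_nonneg (mul_nonneg s hb.r2n) hb.Tp1)]
  · exact lt_irrefl (0:ℝ) (by
      linear_combination
        (1130216393389/2097254795452)*(mul_nonneg (neg_nonneg.2 s) hb.r1n) +
        (365768741218/524313698863)*(mul_nonneg (mul_nonneg ((sub_pos.2 k0.RL)).le hb.r2n) hb.Tp1) +
        (365768741218/524313698863)*(mul_pos (sub_pos.2 k1.Rw) (k0.pos hb.pc2.le)) +
        (1718120244469/2097254795452)*(mul_nonneg (mul_nonneg hb.wout hb.A2n) hb.B1n) +
        (232354360665/1048627397726)*(mul_nonneg (mul_nonneg ((sub_pos.2 k2.RB)).le hb.A2n) hb.c21) +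
        (45223177324/524313698863)*(mul_nonneg ((mul_pos (sub_pos.2 k4.Tw) hb.TR1)).le hb.c21) +
        (77991659718/524313698863)*(mul_nonneg (mul_nonneg (neg_nonneg.2 s) hb.a2n) hb.c21) +
        (365768741218/524313698863)*(mul_nonneg (mul_nonneg ((sub_pos.2 k0.TB)).le hb.r2n) o0) +
        (103467227280/524313698863)*(mul_nonneg (mul_nonneg (neg_nonneg.2 s) hb.a2n) hb.r1n) +
        (200733561901/2097254795452)*(mul_nonneg (neg_nonneg.2 s) hb.c21) +
        (24569183824/524313698863)*(mul_nonneg (mul_nonneg hb.wout (hb.TR1).le) hb.r2n) +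
        (12364314191/524313698863)*(mul_nonneg (mul_nonneg ((sub_pos.2 k4.Tw)).le hb.a2n) hb.c21) +
        (116710410503/1048627397726)*(mul_nonneg (mul_nonneg ((sub_pos.2 k4.RL)).le hb.a1n) hb.c21) +
        (232354360665/1048627397726)*(mul_nonneg (mul_nonneg ((sub_pos.2 k2.TL)).le hb.B2n) hb.c21) +
        (365768741218/524313698863)*(mul_nonneg (mul_nonneg ((sub_pos.2 k0.TB)).le hb.b2n) hb.Tp1) +
        (105713280964/524313698863)*(mul_nonneg (mul_nonneg ((sub_pos.2 k0.TB)).le hb.a2n) hb.c21) +
        (198791438857/1048627397726)*(mul_nonneg (mul_nonneg (neg_nonneg.2 s) hb.a1n) hb.B1n) +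
        (76217116871/524313698863)*(mul_nonneg ((mul_pos (sub_pos.2 k0.RL) hb.TR1)).le hb.Tp1) +
        (917074255807/2097254795452)*(mul_nonneg (mul_nonneg hb.r2n hb.c21) hb.c21) +
        (232354360665/2097254795452)*(mul_nonneg (mul_nonneg hb.wout (hb.RB1).le) hb.c21) +
        (737420816909/2097254795452)*(mul_nonneg (mul_nonneg hb.r2n hb.c21) hb.c12) +
        (1375491695197/2097254795452)*(mul_nonneg (mul_nonneg (neg_nonneg.2 s) hb.B1n) hb.r1n) +
        (17791874200/524313698863)*(mul_nonneg (mul_nonneg hb.c21 hb.c21) hb.c21) +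
        (202188274149/1048627397726)*(mul_nonneg (mul_nonneg (hb.TR1).le hb.b1n) hb.c21) +
        (137504277864/524313698863)*(mul_nonneg (mul_nonneg ((sub_pos.2 k0.TB)).le hb.c21) o0) +
        (232354360665/524313698863)*(mul_nonneg (mul_nonneg hb.b2n hb.B2n) hb.c21) +
        (55866898149/1048627397726)*(mul_nonneg (mul_nonneg (neg_nonneg.2 s) hb.a2n) hb.a2n) +
        (41959725206/524313698863)*(mul_nonneg (mul_nonneg ((sub_pos.2 k4.RB)).le hb.r2n) hb.c21) +
        (46334065519/1048627397726)*(mul_nonneg ((mul_pos (sub_pos.2 k0.RL) hb.TR1)).le hb.c21) +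
        (128317903615/2097254795452)*(mul_nonneg ((mul_pos (sub_pos.2 k3.Tw) hb.TR1)).le hb.c21) +
        (105713280964/524313698863)*(mul_nonneg ((mul_pos (sub_pos.2 k0.Rw) hb.TR1)).le hb.b2n) +
        (140259800870/524313698863)*(mul_nonneg (mul_nonneg ((sub_pos.2 k0.RL)).le hb.a1n) hb.Tp1) +
        (55866898149/524313698863)*(mul_nonneg (mul_nonneg (neg_nonneg.2 s) hb.a2n) hb.pB2) +
        (53111375143/524313698863)*(mul_nonneg ((mul_pos (sub_pos.2 k1.TB) hb.TR1)).le hb.a2n) +
        (55866898149/1048627397726)*(mul_nonneg (mul_nonneg ((sub_pos.2 k0.Rw)).le hb.a2n) hb.b2n) +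
        (64729076037/524313698863)*(mul_nonneg (mul_nonneg (neg_nonneg.2 s) hb.B1n) hb.c21) +
        (94450974751/2097254795452)*(mul_nonneg ((mul_pos (sub_pos.2 k2.RL) hb.TR1)).le hb.c21) +
        (1251451706641/4194509590904)*(mul_nonneg (mul_nonneg (neg_nonneg.2 s) hb.r1n) hb.c12) +
        (2755523006/524313698863)*(mul_nonneg (mul_nonneg hb.wout hb.a1n) hb.r2n) +
        (2755523006/524313698863)*(mul_nonneg (mul_nonneg (neg_nonneg.2 s) hb.a1n) hb.a1n) +
        (30232687227/524313698863)*(mul_nonneg (mul_nonneg hb.wout (hb.TR1).le) hb.r1n) +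
        (59379215445/524313698863)*(mul_nonneg (mul_nonneg ((sub_pos.2 k0.Rw)).le hb.r1n) hb.c21) +
        (2755523006/524313698863)*(mul_nonneg (mul_nonneg (neg_nonneg.2 s) hb.a1n) hb.r2n) +
        (163345345157/1048627397726)*(mul_nonneg (mul_nonneg hb.c21 o0) o1) +
        (115048955391/1048627397726)*(mul_nonneg (mul_nonneg hb.qout (hb.RB1).le) hb.c21) +
        (353538358403/2097254795452)*(mul_nonneg (mul_nonneg ((sub_pos.2 k4.Tw)).le hb.c21) hb.c21) +
        (50355852137/1048627397726)*(mul_nonneg (mul_nonneg ((sub_pos.2 k1.Rw)).le hb.a2n) hb.b2n) +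
        (50355852137/1048627397726)*(mul_nonneg (mul_nonneg ((sub_pos.2 k1.Rw)).le hb.a2n) hb.a2n) +
        (256291859358/524313698863)*(mul_nonneg (mul_nonneg hb.a1n hb.b2n) hb.c21) +
        (2755523006/524313698863)*(mul_nonneg ((mul_pos (sub_pos.2 k1.Rw) hb.RB1)).le hb.a1n) +
        (2755523006/524313698863)*(mul_nonneg (mul_nonneg ((sub_pos.2 k0.Rw)).le hb.a1n) o0) +
        (16837901426/524313698863)*(mul_pos (sub_pos.2 k0.RL) (k4.pos hb.B2n)) +
        (12364314191/524313698863)*(mul_nonneg (mul_nonneg ((sub_pos.2 k2.RL)).le hb.a2n) hb.c21) +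
        (1381478347937/1048627397726)*(mul_nonneg (mul_nonneg hb.r2n hb.Tp1) hb.c21) +
        (137504277864/524313698863)*(mul_nonneg (mul_nonneg ((sub_pos.2 k0.RL)).le hb.r1n) hb.Tp1) +
        (507475797437/1048627397726)*(mul_nonneg (mul_nonneg ((sub_pos.2 k0.TB)).le hb.r1n) o0) +
        (1112612028891/2097254795452)*(mul_nonneg (mul_nonneg (neg_nonneg.2 s) hb.Tp1) o2) +
        (1112612028891/2097254795452)*(mul_nonneg (mul_nonneg (neg_nonneg.2 s) hb.r1n) hb.r1n) +
        (275008555728/524313698863)*(mul_nonneg (mul_nonneg hb.r1n hb.Tp1) hb.c21) +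
        (173288402023/524313698863)*(mul_nonneg (mul_nonneg hb.a1n hb.Tp1) hb.c21) +
        (294573788079/524313698863)*(mul_nonneg (mul_nonneg hb.B1n hb.c21) o0) +
        (232467241709/1048627397726)*(mul_nonneg (mul_nonneg ((sub_pos.2 k0.TB)).le o2) o0) +
        (1442843300901/2097254795452)*(mul_nonneg (mul_nonneg (neg_nonneg.2 s) hb.B1n) hb.c12) +
        (54234838837/524313698863)*(mul_nonneg (mul_nonneg (hb.RB1).le hb.r1n) hb.c21) +
        (17875360203/1048627397726)*(mul_nonneg (mul_nonneg hb.wout hb.a2n) hb.r1n) +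
        (52856640482/524313698863)*(mul_nonneg (mul_nonneg hb.wout (hb.TR1).le) (hb.TR1).le) +
        (198791438857/1048627397726)*(mul_nonneg (mul_nonneg ((sub_pos.2 k0.Rw)).le hb.B1n) o0) +
        (16837901426/524313698863)*(mul_nonneg (mul_nonneg ((sub_pos.2 k0.TB)).le hb.A2n) o0) +
        (18745846974/524313698863)*(mul_nonneg (mul_nonneg ((sub_pos.2 k0.RL)).le hb.A2n) hb.Tp1) +
        (198423835517/1048627397726)*(mul_nonneg (mul_nonneg ((sub_pos.2 k2.RL)).le hb.B1n) hb.c21) +
        (33675802852/524313698863)*(mul_nonneg (mul_nonneg (neg_nonneg.2 s) hb.r1n) hb.r2n) +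
        (50355852137/524313698863)*(mul_nonneg (mul_nonneg ((sub_pos.2 k0.RL)).le hb.a1n) hb.b2n) +
        (35866837263/524313698863)*(mul_nonneg (mul_nonneg hb.wout (hb.TR1).le) hb.a2n) +
        (488965868887/1048627397726)*(mul_nonneg (mul_nonneg hb.r1n hb.c21) hb.c12) +
        (141707056219/1048627397726)*(mul_pos (sub_pos.2 k1.RL) hb.TR1) +
        (141707056219/1048627397726)*(sub_pos.2 k1.Rw) +
        (198423835517/1048627397726)*(mul_nonneg (mul_nonneg hb.qout hb.c21) o2) +
        (198423835517/1048627397726)*(mul_nonneg (mul_nonneg ((sub_pos.2 k4.Tw)).le hb.B1n) hb.c21) +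
        (411624471057/1048627397726)*(mul_nonneg (mul_nonneg hb.A1n hb.B1n) hb.c21) +
        (71326334166/524313698863)*(mul_nonneg (mul_nonneg (hb.TR1).le hb.Tp1) hb.c21) +
        (5511046012/524313698863)*(mul_nonneg (mul_nonneg (neg_nonneg.2 s) hb.a1n) hb.Tp1) +
        (1449459396903/4194509590904)*(mul_nonneg (mul_nonneg (neg_nonneg.2 s) hb.r1n) hb.c21) +
        (16837901426/524313698863)*(mul_nonneg (mul_nonneg ((sub_pos.2 k0.RL)).le hb.A1n) hb.Tp1) +
        (425504521097/1048627397726)*(mul_nonneg (mul_nonneg (hb.TR1).le hb.pB2) hb.c21) +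
        (342063109441/1048627397726)*(mul_nonneg (mul_nonneg hb.B1n hb.c21) o1) +
        (12364314191/1048627397726)*(mul_nonneg (mul_nonneg hb.wout hb.a2n) o0) +
        (165092496409/1048627397726)*(mul_nonneg (mul_nonneg ((sub_pos.2 k0.TB)).le hb.c21) hb.c21) +
        (12364314191/1048627397726)*(mul_nonneg (mul_nonneg hb.wout hb.a1n) hb.a2n) +
        (1866586279889/2097254795452)*(mul_nonneg ((sub_pos.2 k4.Tw)).le hb.c21) +
        (111199364491/1048627397726)*(mul_nonneg (mul_nonneg ((sub_pos.2 k2.RL)).le hb.a1n) hb.c21) +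
        (1718120244469/2097254795452)*(mul_nonneg (mul_nonneg hb.wout hb.B1n) hb.B2n) +
        (16837901426/524313698863)*(mul_nonneg (mul_nonneg ((sub_pos.2 k3.RB)).le hb.a1n) hb.c21) +
        (260897985227/2097254795452)*(mul_nonneg (mul_nonneg ((sub_pos.2 k2.TL)).le hb.r1n) hb.c21) +
        (439980092948/524313698863)*(mul_nonneg (mul_nonneg (neg_nonneg.2 s) hb.A1n) hb.B2n) +
        (439980092948/524313698863)*(mul_nonneg (mul_nonneg (neg_nonneg.2 s) hb.B1n) hb.B2n) +
        (33264454515/524313698863)*(mul_nonneg (mul_nonneg ((sub_pos.2 k2.TL)).le hb.r2n) hb.c21) +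
        (219990046474/524313698863)*(mul_nonneg (mul_nonneg hb.wout (hb.TR1).le) hb.B2n) +
        (2927499183/1048627397726)*hb.wout +
        (448404850943/1048627397726)*(mul_nonneg (mul_nonneg hb.a1n hb.c21) o1) +
        (62939587809/524313698863)*(mul_nonneg (mul_nonneg ((sub_pos.2 k0.TB)).le hb.B2n) hb.c21) +
        (14953095474/524313698863)*(mul_nonneg ((sub_pos.2 k0.RL)).le hb.b2n) +
        (35743733239/1048627397726)*(mul_nonneg (mul_nonneg hb.wout hb.r1n) hb.r1n) +
        (2755523006/524313698863)*(mul_nonneg (mul_nonneg ((sub_pos.2 k2.TL)).le hb.a1n) hb.c21) +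
        (219990046474/524313698863)*(mul_nonneg hb.wout hb.B2n) +
        (18112830061/524313698863)*(mul_nonneg (mul_nonneg (neg_nonneg.2 s) (hb.TR1).le) hb.a2n) +
        (167838900824/524313698863)*(mul_nonneg (mul_nonneg hb.A2n hb.r2n) hb.c21) +
        (5511046012/524313698863)*(mul_nonneg (mul_nonneg hb.wout hb.a1n) hb.c21) +
        (33675802852/524313698863)*(mul_nonneg (mul_nonneg (neg_nonneg.2 s) hb.r2n) o2) +
        (19058137812/524313698863)*(mul_nonneg hb.wout hb.r2n) +
        (35743733239/1048627397726)*(mul_nonneg (mul_nonneg hb.wout hb.Tp1) o2) +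
        (27477164221/1048627397726)*(mul_nonneg (mul_nonneg hb.wout hb.B1n) hb.r1n) +
        (193546379523/2097254795452)*(mul_nonneg (mul_nonneg ((sub_pos.2 k4.RL)).le hb.r1n) hb.c21) +
        (123440447621/2097254795452)*(mul_nonneg (mul_nonneg ((sub_pos.2 k3.Tw)).le hb.c21) hb.c21) +
        (31237074855/1048627397726)*(mul_nonneg (mul_nonneg ((sub_pos.2 k0.RL)).le hb.B1n) hb.c21) +
        (8695270691/524313698863)*(mul_nonneg (mul_nonneg ((sub_pos.2 k2.RB)).le hb.r2n) hb.c21) +
        (23502523072/524313698863)*(mul_nonneg (mul_nonneg hb.wout (hb.RB1).le) hb.a2n) +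
        (19403990571/524313698863)*(mul_nonneg (mul_nonneg (hb.TR1).le hb.A2n) hb.c21) +
        (32960758362/524313698863)*(mul_nonneg (mul_nonneg hb.a2n hb.c21) hb.c21) +
        (52574805681/2097254795452)*(mul_nonneg (mul_nonneg hb.qout hb.c21) hb.c12) +
        (20927798737/2097254795452)*(mul_nonneg (mul_nonneg (neg_nonneg.2 s) (hb.TR1).le) (hb.RB1).le) +
        (5511046012/524313698863)*(mul_nonneg (mul_nonneg hb.wout hb.A1n) o0) +
        (17390541382/524313698863)*(mul_nonneg (mul_nonneg hb.a2n hb.r2n) hb.c21) +
        (40874364111/524313698863)*(mul_nonneg (mul_nonneg hb.r1n hb.c21) o1) +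
        (14776800023/1048627397726)*(mul_nonneg (mul_nonneg hb.B1n hb.B1n) hb.c21) +
        (4133284509/524313698863)*(mul_nonneg (mul_nonneg hb.wout hb.a1n) hb.r1n) +
        (4133284509/524313698863)*(mul_nonneg (mul_nonneg hb.wout hb.A1n) hb.B1n) +
        (1907945548/524313698863)*(mul_nonneg (mul_nonneg ((sub_pos.2 k0.TB)).le hb.B2n) hb.Tp1) +
        (58451917041/2097254795452)*(neg_nonneg.2 s) +
        (4133284509/524313698863)*(mul_nonneg (mul_nonneg hb.wout hb.B1n) hb.B1n) +
        (4133284509/524313698863)*(mul_nonneg (mul_nonneg hb.wout hb.a1n) o2) +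
        (1377761503/524313698863)*(mul_nonneg (mul_nonneg hb.wout hb.B1n) o0) +
        (2755523006/524313698863)*(mul_nonneg (mul_nonneg (neg_nonneg.2 s) hb.a1n) hb.r1n) +
        (1184209286/524313698863)*(mul_nonneg (mul_nonneg hb.a1n hb.c21) hb.c21))

theorem K42 {c1 c2 a1 a2 B1 B2 r1 r2 : ℝ} (hb : Base c1 c2 a1 a2 B1 B2 r1 r2) (dca : 0 ≤ c2*a1-c1*a2) (k0 : Y1 c1 (2-c2) B1 B2 B1 B2 a1 a2) (k1 : Y1 c1 (2-c2) B1 B2 (2-c1-B1) (2-(2-c2)-B2) (r1-c1) (2-c2-r2)) (o0 : 0 ≤ 2-a1-r1) (o1 : 0 ≤ -(a2-r2)) : False := by
  linarith [(mul_nonneg hb.qout hb.wout),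
    (mul_nonneg (mul_nonneg ((sub_pos.2 k0.Tw)).le hb.a2n) hb.A1n),
    (mul_pos (sub_pos.2 k1.TB) (k0.pos hb.B2n)),
    (mul_nonneg (mul_nonneg ((sub_pos.2 k0.Tw)).le hb.a1n) hb.A2n),
    (mul_nonneg (mul_nonneg ((sub_pos.2 k0.RB)).le hb.A2n) o0),
    (mul_nonneg ((sub_pos.2 k0.RB)).le hb.qout),
    (mul_nonneg (mul_nonneg hb.A2n hb.B2n) o0),
    (mul_nonneg (mul_nonneg hb.A2n hb.B1n) o1),
    (mul_nonneg (mul_nonneg ((sub_pos.2 k0.RB)).le hb.A1n) o1),
    (mul_nonneg (mul_nonneg hb.qout (hb.TR1).le) o1),
    (mul_nonneg (mul_nonneg hb.A2n hb.B1n) o0),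
    (mul_nonneg (mul_nonneg hb.qout hb.B1n) o1),
    (mul_nonneg (mul_nonneg hb.qout (hb.RB1).le) o1),
    (mul_nonneg (mul_nonneg hb.qout (hb.RB1).le) hb.B2n),
    (mul_nonneg (mul_nonneg ((sub_pos.2 k0.Tw)).le hb.A2n) hb.Lp1),
    (mul_nonneg (mul_nonneg hb.qout (hb.TR1).le) hb.B2n),
    (mul_nonneg (mul_nonneg hb.qout hb.A2n) hb.B1n),
    (mul_nonneg (mul_nonneg hb.qout hb.B1n) hb.B2n)]

theorem K36 {c1 c2 a1 a2 B1 B2 r1 r2 : ℝ} (hb : Base c1 c2 a1 a2 B1 B2 r1 r2) (dca : 0 ≤ c2*a1-c1*a2) (k0 : Y1 c1 (2-c2) B1 B2 B1 B2 a1 a2) (k1 : Y1 c1 (2-c2) B1 B2 (2-c1-B1) (2-(2-c2)-B2) (2-a1-r1) (-(a2-r2))) : False := by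
  linarith [(mul_pos (sub_pos.2 k1.TB) (k0.pos hb.B2n)),
    (mul_nonneg (mul_nonneg ((sub_pos.2 k0.RL)).le hb.A2n) hb.Tp1),
    (mul_nonneg hb.qout hb.wout),
    (mul_nonneg (mul_nonneg ((sub_pos.2 k0.Tw)).le hb.a1n) hb.A2n),
    (mul_nonneg (mul_nonneg hb.qout hb.a2n) hb.B1n),
    (mul_nonneg (mul_nonneg ((sub_pos.2 k0.RB)).le hb.A1n) hb.pB2),
    (mul_nonneg (mul_nonneg hb.qout hb.a1n) hb.B2n),
    (mul_nonneg (mul_nonneg hb.A2n hb.B2n) hb.Tp1),
    (mul_nonneg (mul_nonneg hb.qout hb.B1n) hb.pB2),
    (mul_nonneg (mul_nonneg ((sub_pos.2 k0.Tw)).le hb.a2n) hb.A1n),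
    (mul_nonneg (mul_nonneg hb.A2n hb.B1n) hb.pB2),
    (mul_nonneg (mul_nonneg hb.qout (hb.TR1).le) hb.pB2),
    (mul_nonneg (mul_nonneg hb.qout (hb.RB1).le) hb.pB2)]

theorem K34 {c1 c2 a1 a2 B1 B2 r1 r2 : ℝ} (hb : Base c1 c2 a1 a2 B1 B2 r1 r2) (dca : 0 ≤ c2*a1-c1*a2) (k0 : Y1 c1 (2-c2) B1 B2 (2-c1-B1) (2-(2-c2)-B2) a1 a2) (k1 : Y1 c1 c2 a1 a2 a1 a2 r1 r2) (k2 : Y1 c1 (2-c2) B1 B2 B1 B2 (2-a1-r1) (-(a2-r2))) (k3 : Y1 c1 c2 a1 a2 a1 a2 B1 B2) : False := by
  linarith [(mul_pos (sub_pos.2 k0.TB) (k3.pos hb.a2n)),
    (mul_nonneg ((sub_pos.2 k3.RL)).le hb.qout),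
    (mul_nonneg (mul_nonneg ((sub_pos.2 k0.RL)).le hb.B1n) hb.pB2),
    (mul_nonneg ((sub_pos.2 k1.RL)).le hb.qout),
    (mul_nonneg (mul_nonneg hb.A2n hb.B1n) hb.pB2),
    (mul_nonneg (mul_nonneg hb.qout hb.a1n) hb.pB2),
    (mul_pos (sub_pos.2 k2.Tw) (k0.pos hb.A2n_)),
    (mul_nonneg (mul_nonneg ((sub_pos.2 k3.RB)).le hb.A2n) hb.Tp1),
    (mul_nonneg (mul_nonneg hb.a2n hb.A2n) hb.Tp1),
    (mul_nonneg (mul_nonneg hb.a1n hb.A2n) hb.Tp1),
    (mul_nonneg (mul_nonneg hb.qout hb.a2n) hb.Tp1),
    (mul_nonneg (mul_nonneg ((sub_pos.2 k3.TL)).le hb.A2n) hb.Tp1)]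

theorem K29 {c1 c2 a1 a2 B1 B2 r1 r2 : ℝ} (hb : Base c1 c2 a1 a2 B1 B2 r1 r2) (dca : 0 ≤ c2*a1-c1*a2) (k0 : Y1 c1 c2 a1 a2 c1 c2 (2-c1-B1) (c2-B2)) (k1 : Y1 c1 c2 a1 a2 c1 c2 (-(2-r1-B1)) (r2+B2)) : False := by
  linarith [(sub_pos.2 k0.RL),
    (mul_nonneg hb.r2n hb.c21),
    (mul_nonneg hb.Lp1 hb.c21),
    (sub_pos.2 k1.RL),
    (mul_nonneg hb.pin (hb.pc2).le),
    (mul_nonneg hb.pin (hb.pc1).le),
    (mul_nonneg ((sub_pos.2 k0.RL)).le hb.c12),
    (mul_nonneg ((sub_pos.2 k1.RL)).le hb.c12)]

theorem K21 {c1 c2 a1 a2 B1 B2 r1 r2 : ℝ} (hb : Base c1 c2 a1 a2 B1 B2 r1 r2) (dca : 0 ≤ c2*a1-c1*a2) (k0 : Y1 c1 (2-c2) B1 B2 B1 B2 a1 a2) (k1 : Y1 c1 (2-c2) B1 B2 B1 B2 (r1-c1) (2-c2-r2)) (o0 : 0 ≤ 2-a1-r1) (o1 : 0 ≤ -(a2-r2)) : False := by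
  linarith [(mul_nonneg hb.B1n o1),
    (mul_nonneg hb.B2n o0),
    (mul_nonneg ((sub_pos.2 k0.Tw)).le hb.c12),
    (mul_pos (sub_pos.2 k0.Tw) hb.pc1),
    (mul_pos (sub_pos.2 k0.Tw) hb.pc2),
    (sub_pos.2 k1.Tw)]

theorem K8 {c1 c2 a1 a2 B1 B2 r1 r2 : ℝ} (hb : Base c1 c2 a1 a2 B1 B2 r1 r2) (dca : 0 ≤ c2*a1-c1*a2) (k0 : Y1 c1 (2-c2) B1 B2 c1 (2-c2) (-(2-a1-r1)) (a2-r2)) (k1 : Y1 c1 (2-c2) B1 B2 c1 (2-c2) (2-c1-a1) (2-c2-a2)) : False := by
  linarith [(mul_pos (sub_pos.2 k0.RL) hb.pc2),
    (mul_nonneg hb.pin (hb.pc2).le),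
    (mul_nonneg (hb.pc2).le hb.r2n),
    (mul_pos (sub_pos.2 k1.RL) hb.pc2)]

theorem K14 {c1 c2 a1 a2 B1 B2 r1 r2 : ℝ} (hb : Base c1 c2 a1 a2 B1 B2 r1 r2) (dca : 0 ≤ c2*a1-c1*a2) (k0 : Y1 c1 c2 a1 a2 (2-c1-a1) (2-c2-a2) (2-a1-r1) (a2-r2)) (k1 : Y1 c1 c2 a1 a2 (2-c1-a1) (2-c2-a2) (-(2-r1-B1)) (r2+B2)) : False := by
  linarith [(mul_nonneg hb.b1n hb.A2n),
    (mul_nonneg hb.b2n hb.A1n),
    (sub_pos.2 k0.TB),
    (sub_pos.2 k1.TB)]

theorem K4 {c1 c2 a1 a2 B1 B2 r1 r2 : ℝ} (hb : Base c1 c2 a1 a2 B1 B2 r1 r2) (dca : 0 ≤ c2*a1-c1*a2) (k0 : Y1 c1 (2-c2) B1 B2 B1 B2 (2-r1) r2) (k1 : Y1 c1 (2-c2) B1 B2 B1 B2 (r1-c1) (2-c2-r2)) : False := by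
  linarith [(sub_pos.2 k1.Tw),
    (sub_pos.2 k0.Tw)]

end H407R3.Seven
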