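import Pool.Agent.H407R3.Seven.Bases

set_option maxRecDepth 40000

namespace H407R3.Seven

theorem K93 {c1 c2 a1 a2 B1 B2 r1 r2 : ℝ} (hb : Base c1 c2 a1 a2 B1 B2 r1 r2) (dca : 0 ≤ c2*a1-c1*a2) (k0 : Y1 c1 (2-c2) B1 B2 B1 B2 (2-r1) r2) (k1 : Y1 c1 (2-c2) B1 B2 B1 B2 a1 a2) (k2 : Y1 c1 c2 a1 a2 (2-c1-a1) (2-c2-a2) r1 r2) (k3 : Y1 c1 c2 a1 a2 c1 c2 (2-c1-B1) (c2-B2)) (k4 : Y1 c1 (2-c2) B1 B2 (2-c1-B1) (2-(2-c2)-B2) (r1-c1) (2-c2-r2)) (k5 : Y1 c1 c2 a1 a2 c1 c2 (2-a1-r1) (a2-r2)) (k6 : Y1 c1 c2 a1 a2 a1 a2 B1 B2) (k7 : Y1 c1 (2-c2) B1 B2 c1 (2-c2) (2-c1-a1) (2-c2-a2)) (o0 : 0 ≤ 2-a1-r1) (o1 : 0 ≤ a2-r2) : False := by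
  rcases le_total 0 (a2-(2-c2-a2)) with s | s
  · exact lt_irrefl (0:ℝ) (by
      linear_combination
        (949518761117853173326550698266/16457275412932616948199055898567)*(mul_nonneg (mul_nonneg dca hb.A2n) hb.B1n) +
        (7399077690001491893134899797345/65829101651730467792796223594268)*(sub_pos.2 k2.TB) +
        (5687044353858526716889327505544/16457275412932616948199055898567)*(mul_nonneg (mul_nonneg (hb.TR1).le hb.r1n) hb.c21) +
        (24913271577255045619410468607681/263316406606921871171184894377072)*(mul_nonneg ((sub_pos.2 k2.TB)).le hb.a1n) +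
        (52391727650224979559650607200833/263316406606921871171184894377072)*(mul_nonneg (mul_nonneg ((sub_pos.2 k5.Rw)).le hb.a2n) hb.b2n) +
        (6506997404314537257071232989083/131658203303460935585592447188536)*(mul_pos (sub_pos.2 k6.TL) hb.TR1) +
        (10168570113637461534686371596125/65829101651730467792796223594268)*(mul_nonneg (mul_nonneg ((sub_pos.2 k4.TB)).le hb.c21) hb.c21) +
        (2291033736515552934861763453609/32914550825865233896398111797134)*(mul_nonneg (mul_nonneg ((sub_pos.2 k5.RL)).le hb.c21) hb.c21) +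
        (66525275737708651076781506708973/131658203303460935585592447188536)*(mul_nonneg (mul_nonneg dca (hb.TR1).le) hb.b2n) +
        (2485591664685056708533270828757/32914550825865233896398111797134)*(mul_nonneg (mul_nonneg ((sub_pos.2 k1.Tw)).le hb.a1n) hb.r2n) +
        (13762796123089206729654671759525/65829101651730467792796223594268)*(mul_nonneg ((sub_pos.2 k5.RL)).le dca) +
        (373895243043325250056407368633/16457275412932616948199055898567)*(mul_nonneg ((sub_pos.2 k3.Rw)).le s) +
        (43917502086723722699498106296719/263316406606921871171184894377072)*(mul_nonneg (mul_nonneg ((sub_pos.2 k2.TB)).le hb.a2n) hb.c21) +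
        (4714668575628652133140890743619/32914550825865233896398111797134)*(mul_nonneg (mul_nonneg (hb.TR1).le hb.r1n) s) +
        (4237112781750628430076250452057/65829101651730467792796223594268)*(mul_nonneg (mul_nonneg ((sub_pos.2 k4.TB)).le hb.r2n) hb.c21) +
        (394593728285547418123829586825/65829101651730467792796223594268)*(mul_nonneg (mul_nonneg ((sub_pos.2 k2.TB)).le hb.a2n) o0) +
        (3054373315796094398995722603957/32914550825865233896398111797134)*(mul_nonneg (mul_nonneg ((sub_pos.2 k2.TB)).le hb.a1n) hb.B2n) +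
        (4237112781750628430076250452057/131658203303460935585592447188536)*(mul_nonneg (mul_nonneg ((sub_pos.2 k5.RL)).le hb.B2n) o1) +
        (4237112781750628430076250452057/65829101651730467792796223594268)*(mul_nonneg (mul_nonneg ((sub_pos.2 k3.RL)).le hb.r2n) hb.r2n) +
        (158253126852975528887758449711/16457275412932616948199055898567)*(mul_nonneg (mul_nonneg ((sub_pos.2 k6.RL)).le hb.b2n) hb.B1n) +
        (316506253705951057775516899422/16457275412932616948199055898567)*(mul_nonneg (mul_nonneg ((sub_pos.2 k6.TL)).le hb.B1n) hb.c21) +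
        (158253126852975528887758449711/16457275412932616948199055898567)*(mul_pos (sub_pos.2 k6.TL) (k6.pos hb.a2n)) +
        (25696345926699738013186752440613/131658203303460935585592447188536)*(mul_nonneg ((mul_pos (sub_pos.2 k7.RL) hb.TR1)).le hb.c21) +
        (29745442009667535837367073565563/263316406606921871171184894377072)*(mul_nonneg (mul_nonneg ((sub_pos.2 k2.TB)).le hb.a1n) hb.c21) +
        (653633068487626376137076780627/2123519408120337670735362051428)*(mul_nonneg (mul_nonneg ((sub_pos.2 k4.TB)).le hb.a2n) hb.c21) +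
        (20796211719092680165122048224753/65829101651730467792796223594268)*(mul_nonneg ((sub_pos.2 k4.TB)).le hb.c21) +
        (14674368672783756255895413491775/131658203303460935585592447188536)*(mul_nonneg (mul_nonneg ((sub_pos.2 k7.Rw)).le hb.c21) o1) +
        (15584914641290154146844093476233/131658203303460935585592447188536)*(mul_nonneg (mul_nonneg dca hb.A2n) hb.c21) +
        (316506253705951057775516899422/16457275412932616948199055898567)*(mul_nonneg ((mul_pos (sub_pos.2 k6.RL) hb.TR1)).le hb.B1n) +
        (3778597586838236074423147836445/65829101651730467792796223594268)*(mul_nonneg (mul_nonneg dca hb.a1n) hb.Tp1) +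
        (1196414261447663610580847013671/65829101651730467792796223594268)*(mul_nonneg (mul_nonneg ((sub_pos.2 k4.TB)).le hb.B1n) hb.c21) +
        (24348580728169947610245143018603/131658203303460935585592447188536)*(mul_pos (sub_pos.2 k2.TL) hb.TR1) +
        (3687528729348049350268753100911/131658203303460935585592447188536)*(mul_nonneg (mul_nonneg ((sub_pos.2 k2.TL)).le hb.Tp1) o0) +
        (5385642430626221258647460039815/263316406606921871171184894377072)*(mul_nonneg (mul_nonneg ((sub_pos.2 k2.TB)).le hb.Lp1) hb.c21) +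
        (2356025033214756342504109323067/32914550825865233896398111797134)*(mul_pos (sub_pos.2 k5.RL) (k3.pos hb.pc2.le)) +
        (5299491241266938031484844913255/131658203303460935585592447188536)*(mul_nonneg ((sub_pos.2 k7.Rw)).le dca) +
        (2606959713843442522673124463309/65829101651730467792796223594268)*(mul_nonneg (mul_nonneg ((sub_pos.2 k7.RL)).le hb.B2n) o1) +
        (31644095354686241158129386282537/263316406606921871171184894377072)*(mul_nonneg (mul_nonneg ((sub_pos.2 k2.TB)).le hb.r1n) hb.c21) +
        (5078790300427810213792745786989/263316406606921871171184894377072)*(mul_pos (mul_pos (sub_pos.2 k7.RL) hb.RB1) hb.RB1) +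
        (39924243831126176867391260982713/263316406606921871171184894377072)*(mul_nonneg ((mul_pos hb.TR1 hb.TR1)).le hb.c21) +
        (33820698461195117439674563245423/65829101651730467792796223594268)*(mul_nonneg (mul_nonneg hb.B2n hb.Tp1) hb.c21) +
        (11363928339393934466639572133673/263316406606921871171184894377072)*(mul_pos (sub_pos.2 k7.RL) hb.TR1) +
        (3247109798380320366007872709831/131658203303460935585592447188536)*(mul_nonneg (mul_nonneg ((sub_pos.2 k5.RL)).le hb.a2n) o0) +
        (22938504297220874224835947851735/263316406606921871171184894377072)*(mul_nonneg (mul_nonneg ((sub_pos.2 k3.RL)).le hb.a2n) hb.a2n) +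
        (4237112781750628430076250452057/131658203303460935585592447188536)*(mul_nonneg (mul_nonneg ((sub_pos.2 k5.Rw)).le hb.A2n) hb.r2n) +
        (5612668851248351012442199716755/32914550825865233896398111797134)*(mul_nonneg (mul_nonneg ((sub_pos.2 k5.Rw)).le hb.b1n) hb.A2n) +
        (2673806833789689010267500531326/16457275412932616948199055898567)*(mul_pos (sub_pos.2 k5.RL) (k2.pos hb.b2n)) +
        (340543175686322056773672662943/16457275412932616948199055898567)*(mul_nonneg (mul_nonneg hb.B2n s) s) +
        (22076629227475015009688647342273/263316406606921871171184894377072)*(mul_nonneg ((mul_pos (sub_pos.2 k2.TB) hb.TR1)).le hb.a1n) +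
        (29069506749832879547290927929173/65829101651730467792796223594268)*(mul_nonneg (mul_nonneg (hb.TR1).le hb.c21) o1) +
        (844839258553008791328495637917/2123519408120337670735362051428)*(mul_nonneg (mul_nonneg ((sub_pos.2 k3.RL)).le hb.a2n) hb.r2n) +
        (4237112781750628430076250452057/131658203303460935585592447188536)*(mul_nonneg (mul_nonneg ((sub_pos.2 k2.TB)).le hb.A2n) hb.r2n) +
        (4237112781750628430076250452057/131658203303460935585592447188536)*(mul_nonneg (mul_nonneg ((sub_pos.2 k2.TB)).le hb.B2n) hb.r2n) +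
        (4237112781750628430076250452057/65829101651730467792796223594268)*(mul_nonneg (mul_nonneg dca hb.r2n) hb.r2n) +
        (5377187575973896424755256178833/65829101651730467792796223594268)*(mul_nonneg (mul_nonneg ((sub_pos.2 k3.RL)).le hb.c21) hb.c21) +
        (2128181101022026080293791603399/32914550825865233896398111797134)*(mul_nonneg (mul_nonneg ((sub_pos.2 k6.RB)).le hb.Tp1) hb.c21) +
        (70388073336679886574944660031997/263316406606921871171184894377072)*(mul_nonneg (mul_nonneg ((sub_pos.2 k3.RL)).le hb.r2n) hb.c21) +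
        (5754169003333911249203456919539/65829101651730467792796223594268)*(mul_nonneg ((mul_pos (sub_pos.2 k2.RL) hb.TR1)).le hb.r1n) +
        (7795039314249827706509640919089/131658203303460935585592447188536)*(mul_pos (mul_pos (sub_pos.2 k2.TL) hb.TR1) hb.RB1) +
        (38098152403335949057818371599503/263316406606921871171184894377072)*(mul_nonneg ((mul_pos (sub_pos.2 k6.RL) hb.RB1)).le hb.c21) +
        (3687528729348049350268753100911/131658203303460935585592447188536)*(mul_nonneg (mul_nonneg ((sub_pos.2 k2.TB)).le hb.r1n) hb.r1n) +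
        (1738719441507848265111805677729/65829101651730467792796223594268)*(mul_nonneg (mul_nonneg ((sub_pos.2 k1.TB)).le hb.r2n) s) +
        (6207931256643906532336427495493/32914550825865233896398111797134)*(mul_nonneg (mul_nonneg hb.wout hb.A2n) o1) +
        (62602870646149763396279001821/1061759704060168835367681025714)*(mul_pos (mul_pos (sub_pos.2 k1.Tw) hb.RB1) hb.RB1) +
        (1196414261447663610580847013671/65829101651730467792796223594268)*(mul_nonneg (mul_nonneg ((sub_pos.2 k3.RL)).le hb.A2n) hb.r2n) +
        (31223496159582946320095463522999/263316406606921871171184894377072)*(mul_nonneg ((sub_pos.2 k7.RL)).le o1) +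
        (1176614952929447504160483900681/16457275412932616948199055898567)*(mul_nonneg hb.Tp1 s) +
        (5821231688030028212051334751661/65829101651730467792796223594268)*(mul_nonneg (mul_nonneg hb.qout hb.r2n) hb.c21) +
        (4987292435904821442273325559867/65829101651730467792796223594268)*(mul_nonneg (mul_nonneg ((sub_pos.2 k6.RL)).le hb.c21) o1) +
        (17097436852029938632705353273863/263316406606921871171184894377072)*(mul_nonneg (mul_nonneg ((sub_pos.2 k6.TB)).le hb.b2n) hb.c21) +
        (394593728285547418123829586825/65829101651730467792796223594268)*(mul_nonneg (mul_nonneg ((sub_pos.2 k2.TB)).le hb.a1n) hb.a2n) +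
        (6107369899121256508091785415233/65829101651730467792796223594268)*(mul_nonneg (mul_nonneg hb.wout (hb.TR1).le) hb.B2n) +
        (22537422337880646341974149153347/131658203303460935585592447188536)*(mul_nonneg (mul_nonneg (hb.TR1).le hb.r2n) s) +
        (75081252076244676613008226361/530879852030084417683840512857)*(mul_pos (mul_pos (sub_pos.2 k7.RL) hb.TR1) hb.TR1) +
        (12575600983578106306727833464741/32914550825865233896398111797134)*(mul_nonneg ((mul_pos (sub_pos.2 k6.RL) hb.TR1)).le hb.r2n) +
        (10779265884840180179019476142587/263316406606921871171184894377072)*(mul_nonneg ((mul_pos (sub_pos.2 k7.RL) hb.TR1)).le hb.B1n) +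
        (1097930627983584094190261459540/16457275412932616948199055898567)*(mul_nonneg (mul_nonneg dca hb.r1n) hb.Tp1) +
        (7874102133554757622577412303745/65829101651730467792796223594268)*(mul_nonneg (mul_nonneg ((sub_pos.2 k2.TB)).le hb.A2n) hb.c21) +
        (3687528729348049350268753100911/131658203303460935585592447188536)*(mul_nonneg (mul_nonneg ((sub_pos.2 k2.TB)).le hb.a1n) hb.r1n) +
        (8892231285262701312486941231775/65829101651730467792796223594268)*(mul_nonneg (mul_nonneg ((sub_pos.2 k5.RL)).le hb.a2n) hb.c21) +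
        (6078360776321240718332106912491/65829101651730467792796223594268)*(mul_nonneg (mul_nonneg ((sub_pos.2 k3.RL)).le hb.c21) s) +
        (2679307567238185189553751513717/65829101651730467792796223594268)*(mul_nonneg ((sub_pos.2 k7.RL)).le hb.qout) +
        (3806881261977380687849178566845/65829101651730467792796223594268)*(mul_nonneg (mul_nonneg ((sub_pos.2 k5.RL)).le hb.A1n) hb.r2n) +
        (4237112781750628430076250452057/131658203303460935585592447188536)*(mul_nonneg (mul_nonneg ((sub_pos.2 k5.RL)).le hb.a2n) o1) +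
        (4237112781750628430076250452057/65829101651730467792796223594268)*(mul_nonneg (mul_nonneg ((sub_pos.2 k3.RL)).le hb.r1n) hb.r2n) +
        (4994232295722015976297533183215/131658203303460935585592447188536)*(mul_nonneg (mul_nonneg ((sub_pos.2 k6.TL)).le o0) o0) +
        (1318971141564966738281696399329/16457275412932616948199055898567)*(mul_nonneg (mul_nonneg ((sub_pos.2 k3.RL)).le hb.a1n) hb.r2n) +
        (76872509807799038394548788396759/131658203303460935585592447188536)*(mul_nonneg (mul_nonneg dca hb.A2n) hb.r2n) +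
        (6412553470612031281158443815919/131658203303460935585592447188536)*(mul_nonneg (mul_nonneg ((sub_pos.2 k6.TL)).le hb.a1n) o0) +
        (1097930627983584094190261459540/16457275412932616948199055898567)*(mul_nonneg (mul_nonneg ((sub_pos.2 k6.RL)).le hb.Tp1) o0) +
        (6651499565964243021338254681085/131658203303460935585592447188536)*(mul_nonneg (mul_nonneg ((sub_pos.2 k1.TB)).le hb.r1n) s) +
        (4845758553898618305241736843721/32914550825865233896398111797134)*(mul_nonneg (mul_nonneg ((sub_pos.2 k2.TB)).le hb.a2n) hb.A2n) +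
        (8668704891738836396227426561563/32914550825865233896398111797134)*(mul_nonneg (mul_nonneg ((sub_pos.2 k6.TL)).le hb.b2n) hb.r2n) +
        (7385782279067174832099422034995/32914550825865233896398111797134)*(mul_nonneg (mul_nonneg hb.qout hb.Tp1) hb.c21) +
        (14110804288558953451159451554461/263316406606921871171184894377072)*(mul_nonneg ((mul_pos (sub_pos.2 k5.RL) hb.RB1)).le hb.B1n) +
        (3045272782498386300410085327629/32914550825865233896398111797134)*(mul_nonneg ((sub_pos.2 k2.TB)).le hb.B2n) +
        (11372590237637623480458892717251/131658203303460935585592447188536)*(mul_nonneg (mul_nonneg dca hb.a2n) hb.r2n) +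
        (90781640341888612239309210997145/263316406606921871171184894377072)*(mul_nonneg (mul_nonneg (hb.TR1).le hb.c21) hb.c21) +
        (2566248953846377074710732560023/32914550825865233896398111797134)*(mul_nonneg ((mul_pos (sub_pos.2 k2.TB) hb.RB1)).le hb.r2n) +
        (4666609198400568488236235505769/65829101651730467792796223594268)*(mul_pos (mul_pos (sub_pos.2 k2.RL) hb.TR1) hb.TR1) +
        (1012406914094852976981721451801/131658203303460935585592447188536)*(mul_nonneg (mul_nonneg ((sub_pos.2 k5.Rw)).le hb.a1n) hb.Tp1) +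
        (6455454595587107719554069193721/131658203303460935585592447188536)*(mul_nonneg (mul_nonneg ((sub_pos.2 k5.Rw)).le hb.a1n) hb.c12) +
        (27930156598832474431750509348477/131658203303460935585592447188536)*(mul_nonneg (mul_nonneg dca hb.A2n) hb.c12) +
        (589046279935865096161017518621/65829101651730467792796223594268)*(mul_nonneg (mul_nonneg ((sub_pos.2 k3.RL)).le hb.r2n) hb.c12) +
        (6877125534385679251778722638957/32914550825865233896398111797134)*(mul_nonneg (mul_nonneg hb.A2n hb.c21) o1) +
        (1626448302804153166839290687352/16457275412932616948199055898567)*(mul_nonneg ((sub_pos.2 k3.Rw)).le dca) +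
        (1196414261447663610580847013671/131658203303460935585592447188536)*(mul_nonneg (mul_nonneg ((sub_pos.2 k3.RL)).le hb.A2n) hb.c21) +
        (36800562082502275744623762039067/131658203303460935585592447188536)*(mul_nonneg (mul_nonneg hb.wout (hb.TR1).le) o1) +
        (39296778040808806273690730840705/263316406606921871171184894377072)*(mul_nonneg (mul_nonneg dca hb.a2n) hb.b2n) +
        (3687528729348049350268753100911/131658203303460935585592447188536)*(mul_nonneg (mul_nonneg ((sub_pos.2 k6.TB)).le hb.a1n) hb.Tp1) +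
        (3720549545552785964030271294783/131658203303460935585592447188536)*(mul_nonneg ((mul_pos (sub_pos.2 k5.Rw) hb.TR1)).le hb.c12) +
        (1852552035551226606379787477864/16457275412932616948199055898567)*(mul_nonneg (mul_nonneg hb.B1n hb.Tp1) hb.c21) +
        (2584332824766231760840687431891/65829101651730467792796223594268)*(mul_nonneg (mul_nonneg ((sub_pos.2 k5.RL)).le hb.B2n) hb.B2n) +
        (474759380558926586663275349133/32914550825865233896398111797134)*(mul_nonneg (mul_nonneg ((sub_pos.2 k3.RL)).le hb.B1n) s) +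
        (1196414261447663610580847013671/131658203303460935585592447188536)*(mul_nonneg (mul_nonneg ((sub_pos.2 k3.RL)).le hb.A2n) hb.r1n) +
        (3054373315796094398995722603957/65829101651730467792796223594268)*(mul_nonneg (mul_nonneg ((sub_pos.2 k2.TB)).le hb.B1n) s) +
        (1890373543106947685710767222781/32914550825865233896398111797134)*(mul_nonneg (mul_nonneg dca hb.A2n) hb.A2n) +
        (1196414261447663610580847013671/65829101651730467792796223594268)*(mul_nonneg (mul_nonneg ((sub_pos.2 k5.RL)).le hb.A1n) hb.B1n) +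
        (1196414261447663610580847013671/65829101651730467792796223594268)*(mul_nonneg (mul_nonneg ((sub_pos.2 k4.TB)).le hb.A2n) hb.c21) +
        (1196414261447663610580847013671/131658203303460935585592447188536)*(mul_pos (sub_pos.2 k3.RL) (k0.pos hb.B2n)) +
        (1196414261447663610580847013671/65829101651730467792796223594268)*(mul_nonneg (mul_nonneg hb.qout hb.A2n) hb.c21) +
        (5449667875234078583429491771653/32914550825865233896398111797134)*(mul_nonneg (mul_nonneg dca hb.B2n) hb.Tp1) +
        (9637686784074588990987197417697/32914550825865233896398111797134)*(mul_nonneg ((mul_pos hb.TR1 hb.TR1)).le s) +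
        (8972531610506609942377957697139/65829101651730467792796223594268)*(mul_nonneg (mul_nonneg dca hb.a1n) hb.c21) +
        (88645073430625956553806914544/16457275412932616948199055898567)*(mul_nonneg (mul_nonneg ((sub_pos.2 k7.RL)).le hb.a1n) o1) +
        (2084226896332369825873884040113/32914550825865233896398111797134)*(mul_nonneg (mul_nonneg ((sub_pos.2 k6.RL)).le hb.a2n) hb.r2n) +
        (2187952769856966878522015966889/263316406606921871171184894377072)*(mul_nonneg ((mul_pos (sub_pos.2 k5.RL) hb.TR1)).le hb.B1n) +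
        (23964066423196439733742001790539/263316406606921871171184894377072)*(mul_nonneg (mul_nonneg ((sub_pos.2 k6.RL)).le hb.a1n) hb.c21) +
        (256079964499764009342692131549/16457275412932616948199055898567)*(mul_nonneg (mul_nonneg hb.Tp1 hb.c21) s) +
        (4107572837926815850462016480255/32914550825865233896398111797134)*(mul_nonneg (mul_nonneg hb.Tp1 hb.c21) o1) +
        (2731390618536943136712670356659/131658203303460935585592447188536)*(mul_nonneg (mul_nonneg dca (hb.TR1).le) hb.a1n) +
        (4845758553898618305241736843721/65829101651730467792796223594268)*(mul_nonneg (mul_nonneg ((sub_pos.2 k4.TL)).le hb.a2n) s) +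
        (2081303493027043129328956812039/65829101651730467792796223594268)*(mul_nonneg (mul_nonneg dca (hb.TR1).le) hb.r2n) +
        (685105893284824703701619312665/32914550825865233896398111797134)*(mul_nonneg (mul_nonneg hb.wout hb.B1n) o1) +
        (469056668233940642627820363838/16457275412932616948199055898567)*(mul_nonneg (mul_nonneg dca hb.r1n) hb.c21) +
        (330525599562320877486391654489/65829101651730467792796223594268)*(mul_nonneg (mul_nonneg ((sub_pos.2 k7.RL)).le hb.a1n) hb.B2n) +
        (616052704999092857217331936493/65829101651730467792796223594268)*(mul_nonneg (mul_nonneg dca hb.r2n) hb.Tp1) +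
        (3483585851153330078147046191949/65829101651730467792796223594268)*(mul_nonneg (mul_nonneg hb.qout hb.r2n) s) +
        (481871310737725622538285936321/4247038816240675341470724102856)*(mul_nonneg (mul_nonneg (hb.TR1).le hb.a1n) s) +
        (1196414261447663610580847013671/65829101651730467792796223594268)*(mul_nonneg (mul_nonneg ((sub_pos.2 k3.RL)).le hb.a1n) hb.B1n) +
        (1196414261447663610580847013671/131658203303460935585592447188536)*(mul_nonneg ((mul_pos (sub_pos.2 k1.Tw) hb.RB1)).le hb.B1n) +
        (572631359079866911441648409113/16457275412932616948199055898567)*(mul_nonneg (mul_nonneg hb.wout hb.B2n) hb.Tp1) +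
        (90808469316443848468294917465/16457275412932616948199055898567)*(mul_nonneg ((mul_pos (sub_pos.2 k3.RL) hb.TR1)).le hb.c21) +
        (1196414261447663610580847013671/131658203303460935585592447188536)*(mul_nonneg ((mul_pos (sub_pos.2 k1.Tw) hb.TR1)).le hb.B1n) +
        (1253887544395862394164071087865/32914550825865233896398111797134)*(mul_nonneg ((mul_pos (sub_pos.2 k2.TB) hb.RB1)).le hb.B1n) +
        (1745760066463861496622342271881/32914550825865233896398111797134)*(mul_nonneg (mul_nonneg dca o0) o1) +
        (19322641653076711894936712555999/131658203303460935585592447188536)*(mul_nonneg (mul_nonneg ((sub_pos.2 k5.Rw)).le hb.b2n) hb.B2n) +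
        (750557643917157312445075002305/16457275412932616948199055898567)*(mul_nonneg (mul_nonneg dca hb.a2n) hb.c21) +
        (1196414261447663610580847013671/131658203303460935585592447188536)*(mul_nonneg (mul_nonneg ((sub_pos.2 k3.Rw)).le hb.B1n) hb.Tp1) +
        (1196414261447663610580847013671/131658203303460935585592447188536)*(mul_nonneg (mul_nonneg ((sub_pos.2 k3.RL)).le hb.B1n) hb.r1n) +
        (542113230636073935700174715278/16457275412932616948199055898567)*(mul_nonneg (mul_nonneg dca hb.a1n) hb.r2n) +
        (231361661951081075092765325165/4247038816240675341470724102856)*(mul_nonneg ((mul_pos (sub_pos.2 k0.TB) hb.TR1)).le hb.c21) +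
        (158253126852975528887758449711/16457275412932616948199055898567)*(mul_nonneg (mul_nonneg ((sub_pos.2 k6.TL)).le hb.a1n) hb.A2n) +
        (263403387055755890352546591266/16457275412932616948199055898567)*(mul_nonneg ((sub_pos.2 k4.TB)).le s) +
        (3687528729348049350268753100911/131658203303460935585592447188536)*(mul_nonneg (mul_nonneg hb.wout hb.r1n) hb.Tp1) +
        (246895500329810437254296315405/65829101651730467792796223594268)*(mul_nonneg (mul_nonneg ((sub_pos.2 k3.RL)).le hb.A2n) hb.B1n) +
        (3789212728146656777224558493105/131658203303460935585592447188536)*(mul_nonneg (mul_nonneg ((sub_pos.2 k6.TL)).le hb.r1n) hb.r1n) +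
        (444728354914173270659914392287/131658203303460935585592447188536)*(mul_nonneg ((mul_pos (sub_pos.2 k3.RL) hb.RB1)).le hb.r1n) +
        (1253887544395862394164071087865/32914550825865233896398111797134)*(mul_nonneg (mul_nonneg ((sub_pos.2 k5.Rw)).le hb.a1n) hb.A1n) +
        (3899691083230147172089355859094/16457275412932616948199055898567)*(mul_nonneg (mul_nonneg hb.B2n hb.Tp1) s) +
        (1117351442142733694513075629015/65829101651730467792796223594268)*(mul_nonneg ((mul_pos (sub_pos.2 k5.Rw) hb.RB1)).le hb.Tp1) +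
        (1012406914094852976981721451801/131658203303460935585592447188536)*(mul_nonneg (mul_nonneg ((sub_pos.2 k5.Rw)).le hb.r1n) o0) +
        (2140015033842575365682220775621/65829101651730467792796223594268)*(mul_nonneg (mul_nonneg ((sub_pos.2 k5.RL)).le hb.a1n) hb.B2n) +
        (516660068496465474733675954657/32914550825865233896398111797134)*(mul_nonneg (mul_nonneg ((sub_pos.2 k2.TB)).le hb.A1n) hb.r1n) +
        (516660068496465474733675954657/32914550825865233896398111797134)*(mul_nonneg (mul_nonneg ((sub_pos.2 k2.TB)).le hb.B1n) hb.r1n) +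
        (107557879943311935556767971303/16457275412932616948199055898567)*(mul_nonneg (mul_nonneg ((sub_pos.2 k5.Rw)).le hb.a1n) hb.r2n) +
        (1644684463038070152186333723475/131658203303460935585592447188536)*(mul_nonneg (mul_nonneg ((sub_pos.2 k7.RL)).le hb.A1n) hb.r1n) +
        (394593728285547418123829586825/65829101651730467792796223594268)*(mul_nonneg (mul_nonneg ((sub_pos.2 k2.TB)).le hb.a2n) hb.r1n) +
        (2566248953846377074710732560023/32914550825865233896398111797134)*(mul_nonneg ((mul_pos (sub_pos.2 k2.TB) hb.TR1)).le hb.r2n) +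
        (2915865649515639305961683719519/32914550825865233896398111797134)*(mul_nonneg (mul_nonneg hb.B1n o1) s) +
        (1196414261447663610580847013671/131658203303460935585592447188536)*(mul_nonneg (mul_nonneg ((sub_pos.2 k3.RL)).le hb.B1n) hb.r2n) +
        (1012406914094852976981721451801/131658203303460935585592447188536)*(mul_nonneg (mul_nonneg ((sub_pos.2 k5.Rw)).le hb.r1n) hb.Tp1) +
        (760002586844311365908358012449/65829101651730467792796223594268)*(mul_nonneg (mul_nonneg ((sub_pos.2 k1.Tw)).le hb.a1n) hb.Tp1) +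
        (963375379396585108586281362025/131658203303460935585592447188536)*(mul_nonneg (mul_nonneg hb.a1n s) s) +
        (3924283777440817711796011583317/131658203303460935585592447188536)*(mul_nonneg (mul_nonneg dca hb.B1n) o0) +
        (9496715640319087769466848544481/131658203303460935585592447188536)*(mul_nonneg (mul_nonneg ((sub_pos.2 k6.RL)).le hb.b1n) hb.c21) +
        (346979640829642037564960104555/16457275412932616948199055898567)*(mul_nonneg (mul_nonneg ((sub_pos.2 k5.Rw)).le hb.A2n) hb.B2n) +
        (1117351442142733694513075629015/131658203303460935585592447188536)*(mul_nonneg (mul_nonneg ((sub_pos.2 k5.Rw)).le hb.r1n) hb.c12) +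
        (284390825555518845231225887600/16457275412932616948199055898567)*(mul_nonneg (mul_nonneg ((sub_pos.2 k6.RL)).le hb.a1n) hb.r2n) +
        (635721756570902120645225310985/131658203303460935585592447188536)*(mul_nonneg (mul_nonneg ((sub_pos.2 k7.RL)).le hb.a1n) hb.A1n) +
        (963375379396585108586281362025/131658203303460935585592447188536)*(mul_nonneg (mul_nonneg ((sub_pos.2 k7.RL)).le o1) o1) +
        (7973221366060967494183713768187/65829101651730467792796223594268)*(mul_nonneg (mul_nonneg dca hb.A2n) o0) +
        (1377949354487926707143151809383/65829101651730467792796223594268)*(mul_nonneg ((mul_pos (sub_pos.2 k6.RL) hb.TR1)).le hb.c21) +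
        (60169235511381120248098045937/8494077632481350682941448205712)*(mul_nonneg (mul_nonneg ((sub_pos.2 k1.Tw)).le hb.a1n) hb.c12) +
        (649079803009661378194347580785/263316406606921871171184894377072)*(mul_nonneg (mul_nonneg ((sub_pos.2 k3.RL)).le hb.Tp1) hb.Lp1) +
        (3488205611268304451505067256217/131658203303460935585592447188536)*(mul_nonneg ((mul_pos (sub_pos.2 k1.TB) hb.TR1)).le hb.c21) +
        (649079803009661378194347580785/263316406606921871171184894377072)*(mul_nonneg (mul_nonneg ((sub_pos.2 k3.RL)).le hb.r1n) hb.Tp1) +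
        (28767175056484263506939431797709/263316406606921871171184894377072)*(mul_nonneg (hb.TR1).le hb.c21) +
        (16007718333702391825128013313485/131658203303460935585592447188536)*(mul_nonneg (mul_nonneg dca hb.r2n) s) +
        (145095753614107849878050868481/4247038816240675341470724102856)*(mul_nonneg (mul_nonneg ((sub_pos.2 k5.RL)).le hb.a1n) hb.b1n) +
        (776759778097692510032482791498/16457275412932616948199055898567)*(mul_nonneg (mul_nonneg hb.r2n s) s) +
        (107557879943311935556767971303/16457275412932616948199055898567)*(mul_nonneg (mul_nonneg ((sub_pos.2 k5.Rw)).le hb.B1n) o1) +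
        (281141462848398294429997652809/32914550825865233896398111797134)*(mul_nonneg ((mul_pos (sub_pos.2 k6.TB) hb.TR1)).le hb.a1n) +
        (172248214665513480116385230447/65829101651730467792796223594268)*(mul_nonneg (mul_nonneg hb.c21 hb.c21) hb.c21) +
        (281141462848398294429997652809/32914550825865233896398111797134)*(mul_nonneg (mul_nonneg dca hb.a1n) hb.b1n) +
        (1310446717805756659902626032503/32914550825865233896398111797134)*(mul_nonneg (mul_nonneg (hb.TR1).le hb.B2n) s) +
        (1132544370785422563890022062407/131658203303460935585592447188536)*(mul_nonneg (mul_nonneg ((sub_pos.2 k6.TL)).le hb.a2n) hb.Lp1) +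
        (4644846023785554409790036933645/131658203303460935585592447188536)*(mul_nonneg (mul_nonneg ((sub_pos.2 k5.RL)).le hb.a1n) hb.a1n) +
        (442340938096879393138987855513/65829101651730467792796223594268)*(mul_nonneg (mul_nonneg ((sub_pos.2 k7.RL)).le hb.B1n) hb.Tp1) +
        (7178062964380743056717476848861/263316406606921871171184894377072)*(mul_nonneg (mul_nonneg ((sub_pos.2 k3.RL)).le hb.a1n) s) +
        (246895500329810437254296315405/32914550825865233896398111797134)*(mul_nonneg ((sub_pos.2 k3.RL)).le hb.A1n) +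
        (246895500329810437254296315405/65829101651730467792796223594268)*(mul_nonneg (mul_nonneg ((sub_pos.2 k3.RL)).le hb.B1n) hb.B2n) +
        (963375379396585108586281362025/131658203303460935585592447188536)*(mul_nonneg (mul_nonneg ((sub_pos.2 k7.RL)).le hb.r2n) hb.pB2) +
        (3065927897840298988274216876957/263316406606921871171184894377072)*(mul_nonneg ((sub_pos.2 k6.RL)).le hb.wout) +
        (2789691938011943741149089242839/263316406606921871171184894377072)*(mul_nonneg (mul_nonneg ((sub_pos.2 k1.Tw)).le hb.a1n) hb.c21) +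
        (618088400727440753984655240325/32914550825865233896398111797134)*(mul_nonneg ((mul_pos (sub_pos.2 k3.Rw) hb.TR1)).le hb.Tp1) +
        (72619218526797915752619472848/16457275412932616948199055898567)*(mul_pos (mul_pos (sub_pos.2 k3.RL) hb.TR1) hb.TR1) +
        (3651615419586872526048702066637/131658203303460935585592447188536)*(mul_nonneg (mul_nonneg ((sub_pos.2 k3.RL)).le hb.a1n) hb.Tp1) +
        (4779669455094942535190178851129/131658203303460935585592447188536)*(mul_nonneg (mul_nonneg dca hb.r1n) hb.c12) +
        (359689882982825800392891391755/32914550825865233896398111797134)*(mul_nonneg ((mul_pos (sub_pos.2 k6.TL) hb.TR1)).le hb.a2n) +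
        (7611207870012307326620177523855/131658203303460935585592447188536)*(mul_nonneg (mul_nonneg dca hb.Tp1) hb.c21) +
        (3269350565248607516316443121139/263316406606921871171184894377072)*(mul_nonneg (mul_nonneg dca hb.a1n) hb.b2n) +
        (327611526620249090974177348933/16457275412932616948199055898567)*(mul_nonneg ((mul_pos (sub_pos.2 k1.Tw) hb.TR1)).le hb.Tp1) +
        (3613963426274727768534644843439/131658203303460935585592447188536)*(mul_nonneg (mul_nonneg ((sub_pos.2 k3.RL)).le hb.a2n) hb.r1n) +
        (177290146861251913107613829088/16457275412932616948199055898567)*(mul_nonneg (mul_nonneg ((sub_pos.2 k1.Tw)).le hb.a1n) hb.a1n) +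
        (1410349553658187415541869191455/263316406606921871171184894377072)*(mul_nonneg (mul_nonneg ((sub_pos.2 k5.Rw)).le hb.a1n) hb.b2n) +
        (728482389770198919553922526733/65829101651730467792796223594268)*(mul_nonneg ((mul_pos (sub_pos.2 k1.Tw) hb.RB1)).le hb.a2n) +
        (2141316772331873593018897199773/131658203303460935585592447188536)*(mul_nonneg (mul_nonneg dca hb.B1n) hb.c21) +
        (1193701737918180339525703587735/263316406606921871171184894377072)*(mul_nonneg (mul_nonneg ((sub_pos.2 k3.RL)).le hb.a1n) hb.a1n) +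
        (413998457317990827783052394851/131658203303460935585592447188536)*(mul_pos (mul_pos (sub_pos.2 k6.TB) hb.TR1) hb.TR1) +
        (246434522199040612900849700479/65829101651730467792796223594268)*(mul_nonneg (mul_nonneg hb.wout hb.a2n) hb.Tp1) +
        (370073842627621571276805242069/263316406606921871171184894377072)*(mul_nonneg ((mul_pos (sub_pos.2 k1.TB) hb.TR1)).le s) +
        (12804417221943559333178852449/16457275412932616948199055898567)*(mul_nonneg (mul_nonneg dca hb.a1n) hb.B1n) +
        (73438830874105531785230005367/131658203303460935585592447188536)*(mul_nonneg (mul_nonneg ((sub_pos.2 k7.RL)).le hb.b1n) hb.B1n) +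
        (97796261399868449711473502191/32914550825865233896398111797134)*(mul_nonneg (mul_nonneg hb.a1n hb.Tp1) s) +
        (52472264023940358765677088607/65829101651730467792796223594268)*(mul_nonneg (mul_nonneg ((sub_pos.2 k5.Rw)).le hb.r1n) hb.c21) +
        (47038502041314117196403116065/131658203303460935585592447188536)*(mul_nonneg (mul_nonneg ((sub_pos.2 k6.RL)).le hb.a2n) hb.r1n))
  · exact lt_irrefl (0:ℝ) (by
      linear_combination
        (32929804745289057934083956036/125935502412556594971832099649)*(mul_nonneg (mul_nonneg ((sub_pos.2 k3.RL)).le hb.a1n) hb.A2n) +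
        (61714503545792292450334539331/125935502412556594971832099649)*(mul_nonneg (mul_nonneg dca hb.A2n) hb.B1n) +
        (6492463334158477898490736053/125935502412556594971832099649)*(sub_pos.2 k2.TB) +
        (23199188017188878025052314212/125935502412556594971832099649)*(mul_nonneg hb.B1n (neg_nonneg.2 s)) +
        (20499309625321177359374117050/125935502412556594971832099649)*(mul_nonneg (mul_nonneg (hb.TR1).le hb.Tp1) hb.c21) +
        (19163671471003223606004876953/125935502412556594971832099649)*(mul_nonneg (mul_nonneg ((sub_pos.2 k6.TB)).le hb.B1n) (neg_nonneg.2 s)) +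
        (21171560547257154427626497968/125935502412556594971832099649)*(mul_nonneg (mul_nonneg ((sub_pos.2 k6.TB)).le hb.B1n) o1) +
        (21025146831834032509877460144/125935502412556594971832099649)*(mul_pos (sub_pos.2 k1.Tw) hb.RB1) +
        (619648353099199767862747296/125935502412556594971832099649)*(mul_nonneg (mul_nonneg ((sub_pos.2 k5.TB)).le hb.A2n) hb.Tp1) +
        (23079196407502138856131167200/125935502412556594971832099649)*(mul_nonneg hb.wout hb.B2n) +
        (17155782394749292784383255938/125935502412556594971832099649)*(mul_nonneg (mul_nonneg ((sub_pos.2 k1.Tw)).le hb.a1n) hb.a2n) +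
        (98291875032614957888521364/17990786058936656424547442807)*(mul_nonneg (mul_nonneg ((sub_pos.2 k6.TB)).le hb.Tp1) (neg_nonneg.2 s)) +
        (28628168767095116567341845297/251871004825113189943664199298)*(mul_nonneg ((sub_pos.2 k2.TB)).le hb.a1n) +
        (13870781334188934999098252461/125935502412556594971832099649)*(mul_nonneg (mul_nonneg ((sub_pos.2 k6.RL)).le hb.a1n) (neg_nonneg.2 s)) +
        (227554485253075571363069132/1222674780704432960891573783)*(mul_pos (sub_pos.2 k3.RL) (k6.pos hb.a2n)) +
        (33546582989386784826529857849/125935502412556594971832099649)*(mul_nonneg (mul_nonneg dca (hb.TR1).le) hb.Tp1) +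
        (1327084430445960149267165282/125935502412556594971832099649)*(mul_nonneg (mul_nonneg ((sub_pos.2 k2.TB)).le hb.A1n) hb.B2n) +
        (207647539675735282971677712/17990786058936656424547442807)*(mul_nonneg (mul_nonneg ((sub_pos.2 k2.TL)).le hb.B1n) hb.B2n) +
        (18570788115686439526838410845/125935502412556594971832099649)*(mul_pos (sub_pos.2 k6.TB) hb.TR1) +
        (74752704166422048336763082207/251871004825113189943664199298)*(mul_nonneg (mul_nonneg ((sub_pos.2 k2.TB)).le hb.a1n) hb.c21) +
        (30769646778949295180944033367/251871004825113189943664199298)*(mul_nonneg (mul_nonneg dca hb.Tp1) hb.c21) +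
        (196583750065229915777042728/17990786058936656424547442807)*(mul_nonneg (mul_nonneg ((sub_pos.2 k1.Tw)).le hb.a2n) hb.r1n) +
        (39850770494239455814020763839/125935502412556594971832099649)*(mul_nonneg (mul_nonneg dca (hb.TR1).le) hb.r2n) +
        (6768286081171335874728753830/17990786058936656424547442807)*(mul_nonneg (mul_nonneg ((sub_pos.2 k5.RL)).le hb.a1n) (neg_nonneg.2 s)) +
        (21171560547257154427626497968/125935502412556594971832099649)*(mul_nonneg (mul_nonneg hb.a1n hb.r2n) (neg_nonneg.2 s)) +
        (74006776285136839264517705701/251871004825113189943664199298)*(mul_nonneg ((mul_pos (sub_pos.2 k2.TB) hb.TR1)).le hb.a1n) +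
        (44428787427749104996066292542/125935502412556594971832099649)*(mul_nonneg (mul_nonneg dca hb.a2n) hb.Tp1) +
        (34663449618579919793357760687/125935502412556594971832099649)*(mul_nonneg (mul_nonneg dca hb.r1n) (neg_nonneg.2 s)) +
        (26724262134290414543071924775/251871004825113189943664199298)*(mul_nonneg (mul_nonneg ((sub_pos.2 k3.RL)).le hb.Lp1) o1) +
        (7805163065452470083744339718/125935502412556594971832099649)*(mul_nonneg (mul_nonneg ((sub_pos.2 k6.TL)).le hb.r2n) o0) +
        (27986122352249655198331095962/125935502412556594971832099649)*(mul_nonneg (mul_nonneg hb.wout hb.r1n) o1) +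
        (47582940806893068360141675998/125935502412556594971832099649)*(mul_nonneg (mul_nonneg dca hb.a1n) (neg_nonneg.2 s)) +
        (4033984380048610658064025158/17990786058936656424547442807)*(mul_nonneg ((sub_pos.2 k5.RL)).le dca) +
        (4502637792210402197916916502/125935502412556594971832099649)*(mul_nonneg (mul_nonneg ((sub_pos.2 k2.TB)).le hb.c21) hb.c21) +
        (560104620396026348471980952/17990786058936656424547442807)*(mul_nonneg (mul_nonneg ((sub_pos.2 k2.TL)).le hb.a2n) o0) +
        (20376264910619258445562159666/125935502412556594971832099649)*(mul_nonneg ((sub_pos.2 k2.TB)).le hb.r2n) +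
        (11131465099187533251519535726/125935502412556594971832099649)*(sub_pos.2 k5.RL) +
        (50253040341740139044945968802/125935502412556594971832099649)*(mul_nonneg ((sub_pos.2 k1.TB)).le hb.wout) +
        (6168823564760563503240638264/17990786058936656424547442807)*(mul_nonneg (mul_nonneg hb.B2n hb.Tp1) hb.c21) +
        (19958408501614631197838387572/125935502412556594971832099649)*(mul_nonneg (mul_nonneg ((sub_pos.2 k6.TL)).le hb.B1n) hb.c21) +
        (13097515696057157683685360298/125935502412556594971832099649)*(mul_nonneg (mul_nonneg hb.wout hb.B2n) hb.r1n) +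
        (60705951009370037965811408224/125935502412556594971832099649)*(mul_nonneg (mul_nonneg hb.b1n hb.c21) o1) +
        (9337684478075366685849782045/251871004825113189943664199298)*(mul_nonneg (mul_nonneg ((sub_pos.2 k3.TB)).le hb.B2n) (neg_nonneg.2 s)) +
        (17155782394749292784383255938/125935502412556594971832099649)*(mul_nonneg (mul_nonneg ((sub_pos.2 k1.Tw)).le hb.a2n) hb.B1n) +
        (80647407571437383538771318656/125935502412556594971832099649)*(mul_nonneg (mul_nonneg hb.B1n hb.c21) o1) +
        (3085320392259297929029977895/17990786058936656424547442807)*(mul_nonneg ((sub_pos.2 k2.TB)).le hb.c21) +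
        (626226003723024475252587149/17990786058936656424547442807)*(mul_nonneg (mul_nonneg ((sub_pos.2 k5.Rw)).le hb.Tp1) hb.c12) +
        (37417388036623936894444057956/125935502412556594971832099649)*(mul_nonneg (mul_nonneg hb.wout hb.B2n) hb.B2n) +
        (19959904010652626529751159899/251871004825113189943664199298)*(mul_nonneg (mul_nonneg ((sub_pos.2 k2.TB)).le hb.r1n) hb.Lp1) +
        (1474511971695691624835735116/125935502412556594971832099649)*(sub_pos.2 k6.TL) +
        (15828697964303332635116090656/125935502412556594971832099649)*(mul_nonneg (mul_nonneg hb.B2n hb.B2n) (neg_nonneg.2 s)) +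
        (11510562159765197508188538404/125935502412556594971832099649)*(mul_nonneg (mul_nonneg hb.c12 o1) (neg_nonneg.2 s)) +
        (28572642934637265844531590034/125935502412556594971832099649)*(mul_nonneg ((sub_pos.2 k1.Tw)).le hb.r2n) +
        (12394156195399057473777807982/125935502412556594971832099649)*(mul_nonneg (mul_nonneg ((sub_pos.2 k6.RL)).le hb.A2n) hb.A2n) +
        (12394156195399057473777807982/125935502412556594971832099649)*(mul_nonneg (mul_nonneg ((sub_pos.2 k6.RB)).le hb.A2n) hb.B2n) +
        (63224173642093415767289351/125935502412556594971832099649)*(mul_nonneg (mul_nonneg ((sub_pos.2 k0.RL)).le hb.B2n) (neg_nonneg.2 s)) +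
        (5323249630760574266130479278/125935502412556594971832099649)*(mul_nonneg (mul_nonneg ((sub_pos.2 k5.RL)).le hb.a1n) hb.B2n) +
        (2029940441108788191810448779/17990786058936656424547442807)*(mul_nonneg ((mul_pos hb.TR1 hb.TR1)).le hb.c21) +
        (10589191288570947082817731445/125935502412556594971832099649)*(mul_nonneg ((mul_pos (sub_pos.2 k3.RL) hb.RB1)).le hb.a1n) +
        (4333557229240051653641328788/125935502412556594971832099649)*(mul_pos (mul_pos (sub_pos.2 k6.RB) hb.TR1) hb.TR1) +
        (4505015552735249526089174940/125935502412556594971832099649)*(mul_nonneg (mul_nonneg ((sub_pos.2 k5.RL)).le hb.a1n) hb.c21) +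
        (11341985011227667081182629394/125935502412556594971832099649)*(mul_nonneg (mul_nonneg hb.a2n hb.B1n) (neg_nonneg.2 s)) +
        (21171560547257154427626497968/125935502412556594971832099649)*(mul_nonneg (mul_nonneg ((sub_pos.2 k6.TL)).le hb.B1n) hb.r2n) +
        (38700843989457825452554352499/125935502412556594971832099649)*(mul_nonneg (mul_nonneg hb.wout hb.r1n) hb.c21) +
        (23021124319530395016377076808/125935502412556594971832099649)*(mul_nonneg hb.r2n (neg_nonneg.2 s)) +
        (328584691802690183536014243/17990786058936656424547442807)*(mul_nonneg (mul_nonneg ((sub_pos.2 k3.RL)).le hb.a1n) hb.Tp1) +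
        (2675137952053304236731870738/17990786058936656424547442807)*(mul_nonneg (mul_nonneg dca hb.B1n) (neg_nonneg.2 s)) +
        (47598853302451401839332476007/125935502412556594971832099649)*(mul_nonneg ((sub_pos.2 k6.TB)).le (neg_nonneg.2 s)) +
        (21171560547257154427626497968/125935502412556594971832099649)*(mul_nonneg ((mul_pos (sub_pos.2 k6.RL) hb.TR1)).le hb.B1n) +
        (1665443599866527663243999068/125935502412556594971832099649)*(mul_nonneg (mul_nonneg ((sub_pos.2 k3.TB)).le hb.r2n) o1) +
        (1028777017046702239303392210/17990786058936656424547442807)*(mul_nonneg (mul_nonneg hb.a1n hb.a2n) (neg_nonneg.2 s)) +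
        (14881057968230253677912357182/125935502412556594971832099649)*(mul_nonneg (mul_nonneg hb.B1n hb.r2n) (neg_nonneg.2 s)) +
        (19517126160731512268512889203/251871004825113189943664199298)*(mul_nonneg ((mul_pos (sub_pos.2 k3.RL) hb.RB1)).le hb.r2n) +
        (42859393184574696074904197392/125935502412556594971832099649)*(mul_nonneg (mul_nonneg (hb.TR1).le hb.r2n) hb.c21) +
        (6033610932650192669955643804/125935502412556594971832099649)*(mul_nonneg (mul_nonneg ((sub_pos.2 k2.TB)).le hb.a2n) (neg_nonneg.2 s)) +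
        (18390943339081047297557588702/125935502412556594971832099649)*(mul_nonneg (mul_nonneg ((sub_pos.2 k1.Tw)).le hb.a1n) hb.r2n) +
        (6754966089017900971992258164/125935502412556594971832099649)*(mul_nonneg (mul_nonneg ((sub_pos.2 k5.Rw)).le hb.a2n) (neg_nonneg.2 s)) +
        (27986122352249655198331095962/125935502412556594971832099649)*(mul_nonneg (mul_nonneg hb.wout hb.r2n) hb.Tp1) +
        (10585780273628577213813248984/125935502412556594971832099649)*(mul_nonneg (mul_nonneg ((sub_pos.2 k6.TL)).le hb.a1n) o1) +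
        (31544241104236352694732571971/251871004825113189943664199298)*(mul_nonneg (mul_nonneg ((sub_pos.2 k6.RB)).le hb.c21) (neg_nonneg.2 s)) +
        (26724262134290414543071924775/251871004825113189943664199298)*(mul_nonneg (mul_nonneg ((sub_pos.2 k3.RL)).le hb.r1n) o1) +
        (19959904010652626529751159899/125935502412556594971832099649)*(mul_nonneg (mul_nonneg ((sub_pos.2 k5.Rw)).le hb.r1n) (neg_nonneg.2 s)) +
        (19959904010652626529751159899/125935502412556594971832099649)*(mul_nonneg ((mul_pos (sub_pos.2 k2.Rw) hb.TR1)).le hb.r1n) +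
        (22360451208801751359719369976/125935502412556594971832099649)*(mul_nonneg (mul_nonneg hb.B2n hb.c12) (neg_nonneg.2 s)) +
        (19959904010652626529751159899/125935502412556594971832099649)*(mul_nonneg (mul_nonneg ((sub_pos.2 k2.TB)).le hb.r1n) hb.c21) +
        (14402485925610489341146381103/125935502412556594971832099649)*(mul_nonneg (mul_nonneg (hb.TR1).le hb.a1n) (neg_nonneg.2 s)) +
        (2984170957832566039940986224/17990786058936656424547442807)*(mul_nonneg (mul_nonneg dca hb.A2n) (neg_nonneg.2 s)) +
        (9995097840829455934372138356/125935502412556594971832099649)*(mul_nonneg (mul_nonneg hb.B1n hb.Tp1) hb.c21) +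
        (37066299444235889469045914724/125935502412556594971832099649)*(mul_nonneg (mul_nonneg hb.wout (hb.TR1).le) hb.r1n) +
        (1194869444540457160947074195/125935502412556594971832099649)*(mul_nonneg (mul_nonneg ((sub_pos.2 k3.Rw)).le hb.c21) hb.c12) +
        (6492463334158477898490736053/125935502412556594971832099649)*(mul_pos (sub_pos.2 k2.TB) hb.TR1) +
        (38975155867591074700997744921/251871004825113189943664199298)*(mul_nonneg (mul_nonneg hb.wout (hb.TR1).le) hb.c21) +
        (68160967709703446071031359644/125935502412556594971832099649)*(mul_nonneg ((sub_pos.2 k1.Tw)).le hb.a1n) +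
        (6058366639683545946744110120/17990786058936656424547442807)*(mul_nonneg (mul_nonneg hb.Tp1 hb.c21) hb.c21) +
        (76574729128092196978081449837/125935502412556594971832099649)*(mul_nonneg (mul_nonneg dca hb.c21) o1) +
        (2889367663922237284345023886/125935502412556594971832099649)*(mul_nonneg (mul_nonneg ((sub_pos.2 k5.Rw)).le hb.r1n) hb.c12) +
        (31166766691175912817532985880/125935502412556594971832099649)*(mul_nonneg (mul_nonneg dca hb.A2n) hb.r2n) +
        (6813563700914046653300355612/125935502412556594971832099649)*(mul_nonneg (mul_nonneg ((sub_pos.2 k6.TL)).le hb.a2n) hb.c21) +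
        (560104620396026348471980952/17990786058936656424547442807)*(mul_nonneg (mul_nonneg hb.a1n hb.a1n) (neg_nonneg.2 s)) +
        (10167927525640902659476943092/125935502412556594971832099649)*(mul_nonneg (mul_nonneg hb.B1n hb.B1n) (neg_nonneg.2 s)) +
        (12998312744972117647296516874/125935502412556594971832099649)*(mul_nonneg (mul_nonneg ((sub_pos.2 k7.RL)).le hb.B1n) hb.B2n) +
        (7851124808509572901790755977/125935502412556594971832099649)*(mul_nonneg (mul_nonneg ((sub_pos.2 k1.Tw)).le hb.B2n) hb.c12) +
        (9068085529637359954015580616/125935502412556594971832099649)*(mul_nonneg (mul_nonneg ((sub_pos.2 k1.Tw)).le hb.a2n) hb.B2n) +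
        (20376264910619258445562159666/125935502412556594971832099649)*(mul_nonneg ((mul_pos (sub_pos.2 k2.TB) hb.TR1)).le hb.r2n) +
        (5762309845895983567901902795/35981572117873312849094885614)*(mul_nonneg (mul_nonneg ((sub_pos.2 k5.Rw)).le hb.r2n) hb.c12) +
        (39919808021305253059502319798/125935502412556594971832099649)*(mul_nonneg (mul_nonneg ((sub_pos.2 k5.RL)).le hb.a1n) o1) +
        (7443923802716348796537093394/125935502412556594971832099649)*(mul_nonneg ((mul_pos (sub_pos.2 k6.TB) hb.TR1)).le hb.B2n) +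
        (3870811717177928099950361150/125935502412556594971832099649)*(mul_nonneg (mul_nonneg ((sub_pos.2 k1.Tw)).le hb.A1n) hb.Tp1) +
        (3870811717177928099950361150/125935502412556594971832099649)*(mul_nonneg (mul_nonneg ((sub_pos.2 k1.Tw)).le hb.B1n) hb.r1n) +
        (5762309845895983567901902795/17990786058936656424547442807)*(mul_nonneg ((sub_pos.2 k5.RL)).le hb.r2n) +
        (3870811717177928099950361150/125935502412556594971832099649)*(mul_nonneg (mul_nonneg ((sub_pos.2 k1.Tw)).le hb.A2n) hb.Tp1) +
        (27297389126778178231739326709/125935502412556594971832099649)*(mul_pos (sub_pos.2 k5.RL) (k6.pos hb.a2n)) +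
        (27839617310846472836130629408/125935502412556594971832099649)*(mul_nonneg (mul_nonneg dca hb.a1n) hb.r2n) +
        (4156703458632716540508208362/125935502412556594971832099649)*(mul_nonneg (mul_nonneg hb.a2n hb.Tp1) (neg_nonneg.2 s)) +
        (1956660219194930048668481510/17990786058936656424547442807)*(mul_nonneg ((mul_pos (sub_pos.2 k6.TB) hb.TR1)).le hb.r1n) +
        (22689303759020861348587930202/125935502412556594971832099649)*(mul_nonneg (mul_nonneg hb.wout hb.a1n) hb.r2n) +
        (39503447121338621143691320031/251871004825113189943664199298)*(mul_nonneg (mul_nonneg ((sub_pos.2 k5.Rw)).le hb.r2n) hb.c21) +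
        (19959904010652626529751159899/251871004825113189943664199298)*(mul_nonneg (mul_nonneg ((sub_pos.2 k2.TB)).le hb.r1n) hb.r1n) +
        (13306602673768417686500773266/125935502412556594971832099649)*(mul_nonneg ((mul_pos (sub_pos.2 k5.Rw) hb.RB1)).le hb.Tp1) +
        (19543543110685994613940160132/125935502412556594971832099649)*(mul_nonneg (mul_nonneg ((sub_pos.2 k2.Rw)).le hb.c21) o1) +
        (5505520526980307946961090300/125935502412556594971832099649)*(mul_nonneg (mul_nonneg ((sub_pos.2 k5.Rw)).le hb.A2n) (neg_nonneg.2 s)) +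
        (27113564355804357214673962239/125935502412556594971832099649)*(mul_nonneg (mul_nonneg (hb.TR1).le hb.c21) hb.c21) +
        (908666060983900543837935630/125935502412556594971832099649)*(mul_nonneg (mul_nonneg ((sub_pos.2 k0.Tw)).le hb.c21) (neg_nonneg.2 s)) +
        (12067221865300385339911287608/125935502412556594971832099649)*(mul_nonneg (mul_nonneg ((sub_pos.2 k2.Rw)).le hb.a2n) o1) +
        (12067221865300385339911287608/125935502412556594971832099649)*(mul_nonneg (mul_nonneg ((sub_pos.2 k2.TL)).le hb.r2n) o1) +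
        (2004113605051033851055062897/125935502412556594971832099649)*(mul_nonneg (mul_nonneg hb.wout hb.r1n) o0) +
        (12067221865300385339911287608/125935502412556594971832099649)*(mul_nonneg (mul_nonneg ((sub_pos.2 k2.TB)).le hb.r2n) hb.r2n) +
        (10720294924851464049356631444/125935502412556594971832099649)*(mul_nonneg (mul_nonneg dca hb.a1n) hb.c12) +
        (9529710628218947991176429603/71963144235746625698189771228)*(mul_nonneg (mul_nonneg hb.wout (hb.TR1).le) (hb.TR1).le) +
        (3254288146115734250814954072/125935502412556594971832099649)*(mul_nonneg (mul_nonneg ((sub_pos.2 k6.RL)).le hb.a2n) hb.A2n) +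
        (12110850531211473215123193269/251871004825113189943664199298)*(mul_nonneg ((mul_pos (sub_pos.2 k3.RL) hb.TR1)).le hb.r2n) +
        (811372198392989789428958517/17990786058936656424547442807)*(mul_pos (mul_pos (sub_pos.2 k6.TB) hb.TR1) hb.RB1) +
        (5458002163094201605305230652/125935502412556594971832099649)*(mul_nonneg (mul_nonneg ((sub_pos.2 k6.RL)).le hb.Tp1) hb.Lp1) +
        (404165091615539800792335189/17990786058936656424547442807)*(mul_nonneg (mul_nonneg ((sub_pos.2 k5.Rw)).le hb.a1n) hb.Tp1) +
        (3380211609710399601707124084/125935502412556594971832099649)*(mul_nonneg (mul_nonneg ((sub_pos.2 k1.Tw)).le hb.r1n) hb.c12) +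
        (5458002163094201605305230652/125935502412556594971832099649)*(mul_nonneg (mul_nonneg ((sub_pos.2 k6.TL)).le hb.r1n) hb.r1n) +
        (31788550840013730112279071164/125935502412556594971832099649)*(mul_nonneg (mul_nonneg hb.c21 hb.c21) (neg_nonneg.2 s)) +
        (1099864933216674333314234696/17990786058936656424547442807)*(mul_nonneg (mul_nonneg dca hb.r2n) hb.r2n) +
        (53548122154330516837152362261/125935502412556594971832099649)*(mul_nonneg hb.a1n (neg_nonneg.2 s)) +
        (1627144073057867125407477036/125935502412556594971832099649)*(mul_nonneg (mul_nonneg hb.qout hb.a2n) (neg_nonneg.2 s)) +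
        (12808004870427783429416309301/125935502412556594971832099649)*(mul_nonneg (mul_nonneg ((sub_pos.2 k6.TB)).le hb.r1n) hb.c21) +
        (5458002163094201605305230652/125935502412556594971832099649)*(mul_nonneg (mul_nonneg dca hb.r1n) hb.Tp1) +
        (1215885513020613691974453707/125935502412556594971832099649)*(mul_nonneg (mul_nonneg ((sub_pos.2 k5.Rw)).le hb.c21) hb.c21) +
        (38536102323405185745704218421/125935502412556594971832099649)*(mul_nonneg (hb.TR1).le hb.c21) +
        (7351774997161249354648996161/125935502412556594971832099649)*(mul_nonneg (mul_nonneg dca hb.A2n) hb.r1n) +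
        (12278230091447519309890857915/125935502412556594971832099649)*(mul_nonneg (mul_nonneg ((sub_pos.2 k1.Tw)).le hb.a2n) hb.c21) +
        (120275722198072924669451812/17990786058936656424547442807)*(mul_nonneg (mul_nonneg ((sub_pos.2 k6.RL)).le hb.a1n) hb.c12) +
        (6033610932650192669955643804/125935502412556594971832099649)*(mul_nonneg (mul_nonneg ((sub_pos.2 k6.TB)).le o1) o1) +
        (3016805466325096334977821902/125935502412556594971832099649)*(mul_nonneg (mul_nonneg ((sub_pos.2 k6.RL)).le hb.a2n) (neg_nonneg.2 s)) +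
        (6033610932650192669955643804/125935502412556594971832099649)*(mul_nonneg (mul_nonneg hb.a2n hb.a2n) (neg_nonneg.2 s)) +
        (21186409220567524705476878454/125935502412556594971832099649)*(mul_nonneg ((sub_pos.2 k4.TB)).le hb.c21) +
        (17137421751840247594351688894/125935502412556594971832099649)*(mul_nonneg (mul_nonneg hb.wout hb.a1n) hb.c21) +
        (7805163065452470083744339718/125935502412556594971832099649)*(mul_nonneg (mul_nonneg ((sub_pos.2 k6.TL)).le hb.r1n) hb.r2n) +
        (1293176678873299603912059029/503742009650226379887328398596)*(mul_nonneg (mul_nonneg ((sub_pos.2 k3.RL)).le hb.B2n) o0) +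
        (18768571416248676909284063538/125935502412556594971832099649)*(mul_nonneg (mul_nonneg hb.wout (hb.TR1).le) hb.a1n) +
        (3804785713922506176775947879/125935502412556594971832099649)*(mul_nonneg ((sub_pos.2 k5.RL)).le hb.qout) +
        (10849633413028974355618022960/125935502412556594971832099649)*(mul_nonneg (mul_nonneg dca hb.B2n) (neg_nonneg.2 s)) +
        (10200283657896046967034276446/125935502412556594971832099649)*(mul_nonneg (mul_nonneg hb.A1n hb.A2n) hb.c21) +
        (5083963762820451329738471546/125935502412556594971832099649)*(mul_nonneg (mul_nonneg ((sub_pos.2 k1.Tw)).le hb.A1n) hb.B1n) +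
        (1670658413148040790760756653/125935502412556594971832099649)*(mul_nonneg (mul_nonneg ((sub_pos.2 k1.TB)).le hb.A2n) hb.c21) +
        (3320511016009489611983549597/125935502412556594971832099649)*(mul_nonneg (mul_nonneg dca hb.A2n) hb.A2n) +
        (21619373115736356543122077649/251871004825113189943664199298)*(mul_nonneg (mul_nonneg dca hb.c21) hb.c12) +
        (10213646966217138682545999399/251871004825113189943664199298)*(mul_nonneg (mul_nonneg dca hb.r1n) hb.c21) +
        (8319228839818947791043626356/125935502412556594971832099649)*(mul_nonneg ((sub_pos.2 k6.TB)).le hb.qout) +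
        (780981822985348369414202985/71963144235746625698189771228)*(mul_nonneg (mul_nonneg ((sub_pos.2 k3.RL)).le hb.B2n) hb.c21) +
        (526371641861705271726414045/503742009650226379887328398596)*(mul_nonneg (mul_nonneg hb.wout (hb.RB1).le) (hb.RB1).le) +
        (6872950146592046075265296518/125935502412556594971832099649)*(mul_nonneg ((sub_pos.2 k5.Rw)).le hb.wout) +
        (404165091615539800792335189/17990786058936656424547442807)*(mul_nonneg (mul_nonneg ((sub_pos.2 k5.Rw)).le hb.r1n) o0) +
        (404165091615539800792335189/17990786058936656424547442807)*(mul_nonneg (mul_nonneg ((sub_pos.2 k5.Rw)).le hb.r1n) hb.Tp1) +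
        (8940812237424441143177151936/125935502412556594971832099649)*(mul_nonneg (mul_nonneg hb.B1n hb.Tp1) (neg_nonneg.2 s)) +
        (17324059482047612712727723660/125935502412556594971832099649)*(mul_nonneg ((mul_pos (sub_pos.2 k1.Tw) hb.TR1)).le hb.r2n) +
        (14919870800499587286064548724/125935502412556594971832099649)*(mul_nonneg (mul_nonneg hb.qout hb.r2n) hb.c21) +
        (2919690194625941075291747670/125935502412556594971832099649)*(mul_nonneg ((mul_pos (sub_pos.2 k6.RL) hb.RB1)).le hb.a1n) +
        (5846492514519065408553675504/125935502412556594971832099649)*(mul_nonneg (mul_nonneg ((sub_pos.2 k5.Rw)).le hb.A1n) hb.A2n) +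
        (606576022821261614894055198/125935502412556594971832099649)*(mul_nonneg (mul_nonneg ((sub_pos.2 k3.RL)).le hb.B1n) (neg_nonneg.2 s)) +
        (1213152045642523229788110396/125935502412556594971832099649)*(mul_nonneg (mul_nonneg ((sub_pos.2 k7.Rw)).le hb.B1n) hb.c21) +
        (3204497342476230469841293014/125935502412556594971832099649)*(mul_nonneg (mul_nonneg ((sub_pos.2 k5.Rw)).le hb.A1n) hb.Tp1) +
        (2903257850497723030641672438/125935502412556594971832099649)*(mul_nonneg ((mul_pos (sub_pos.2 k7.RL) hb.TR1)).le hb.B1n) +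
        (3204497342476230469841293014/125935502412556594971832099649)*(mul_nonneg (mul_nonneg ((sub_pos.2 k5.Rw)).le hb.B1n) hb.r1n) +
        (356250488823693002540195537/71963144235746625698189771228)*(mul_nonneg (mul_nonneg ((sub_pos.2 k3.RL)).le hb.B2n) hb.c12) +
        (560104620396026348471980952/17990786058936656424547442807)*(mul_nonneg (mul_nonneg ((sub_pos.2 k2.TB)).le hb.a1n) hb.a2n) +
        (560104620396026348471980952/17990786058936656424547442807)*(mul_nonneg (mul_nonneg ((sub_pos.2 k2.TB)).le hb.a2n) hb.r1n) +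
        (2004113605051033851055062897/125935502412556594971832099649)*(mul_nonneg (mul_nonneg hb.wout hb.r1n) hb.r1n) +
        (24207046970784568269549362436/125935502412556594971832099649)*(mul_nonneg hb.wout o1) +
        (6033610932650192669955643804/125935502412556594971832099649)*(mul_nonneg (mul_nonneg hb.wout hb.r2n) hb.r2n) +
        (2077760139239430602605584986/125935502412556594971832099649)*(mul_nonneg (mul_nonneg ((sub_pos.2 k3.RL)).le hb.a1n) hb.a1n) +
        (13037268032502648817078141683/125935502412556594971832099649)*(mul_nonneg (mul_nonneg dca hb.B2n) hb.Tp1) +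
        (4596854465996407403123154670/125935502412556594971832099649)*(mul_nonneg ((mul_pos (sub_pos.2 k0.TB) hb.TR1)).le (neg_nonneg.2 s)) +
        (4686676079864473598207593650/125935502412556594971832099649)*(mul_nonneg (mul_nonneg hb.qout hb.r1n) hb.c21) +
        (5083963762820451329738471546/125935502412556594971832099649)*(mul_nonneg (mul_nonneg ((sub_pos.2 k1.Tw)).le hb.B1n) hb.B1n) +
        (571037152066016418783562836/17990786058936656424547442807)*(mul_nonneg (mul_nonneg ((sub_pos.2 k1.Tw)).le hb.B2n) hb.r1n) +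
        (1302451470470968999101539098/125935502412556594971832099649)*(mul_nonneg (mul_nonneg ((sub_pos.2 k2.TL)).le hb.A1n) hb.B1n) +
        (1302451470470968999101539098/125935502412556594971832099649)*(mul_nonneg (mul_nonneg ((sub_pos.2 k2.TB)).le hb.B1n) hb.B1n) +
        (600288371446275706934654865/125935502412556594971832099649)*(mul_nonneg (mul_nonneg ((sub_pos.2 k3.RL)).le hb.A2n) o1) +
        (26520108874617583916318716245/503742009650226379887328398596)*(mul_nonneg (mul_nonneg ((sub_pos.2 k3.RL)).le hb.a1n) hb.B2n) +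
        (341482649534366001669639257/17990786058936656424547442807)*(mul_nonneg ((mul_pos (sub_pos.2 k1.RL) hb.RB1)).le hb.c21) +
        (1302451470470968999101539098/125935502412556594971832099649)*(mul_nonneg (mul_nonneg hb.wout hb.B1n) hb.B1n) +
        (9027387336798542131780018956/125935502412556594971832099649)*(mul_nonneg hb.a2n (neg_nonneg.2 s)) +
        (6446780885965341115488330369/125935502412556594971832099649)*(mul_nonneg (mul_nonneg ((sub_pos.2 k5.Rw)).le hb.A2n) hb.B1n) +
        (1665443599866527663243999068/125935502412556594971832099649)*(mul_nonneg (mul_nonneg ((sub_pos.2 k3.RL)).le hb.r2n) hb.r2n) +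
        (813291149696983649864934774/125935502412556594971832099649)*(mul_nonneg (mul_nonneg ((sub_pos.2 k5.RL)).le hb.B2n) hb.c12) +
        (3694330164658402431650678489/503742009650226379887328398596)*(mul_nonneg (mul_nonneg ((sub_pos.2 k3.RL)).le hb.B2n) hb.r1n) +
        (1059884874103312738745957749/17990786058936656424547442807)*(mul_nonneg ((sub_pos.2 k5.Rw)).le (neg_nonneg.2 s)) +
        (2077760139239430602605584986/125935502412556594971832099649)*(mul_nonneg (mul_nonneg ((sub_pos.2 k5.RL)).le hb.b1n) hb.B1n) +
        (2004113605051033851055062897/125935502412556594971832099649)*(mul_nonneg (mul_nonneg hb.wout hb.a1n) hb.Tp1) +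
        (6033610932650192669955643804/125935502412556594971832099649)*(mul_nonneg (mul_nonneg ((sub_pos.2 k6.RL)).le hb.r2n) o1) +
        (6033610932650192669955643804/125935502412556594971832099649)*(mul_nonneg (mul_nonneg ((sub_pos.2 k6.RL)).le hb.a2n) hb.r2n) +
        (537064197804182291167365514/125935502412556594971832099649)*(mul_nonneg (mul_nonneg ((sub_pos.2 k0.RL)).le hb.B2n) hb.c21) +
        (600288371446275706934654865/125935502412556594971832099649)*(mul_nonneg (mul_nonneg ((sub_pos.2 k5.Rw)).le hb.A2n) hb.B2n) +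
        (5813797383521625703200626544/125935502412556594971832099649)*(mul_nonneg (mul_nonneg ((sub_pos.2 k6.RB)).le hb.A2n) o1) +
        (3204497342476230469841293014/125935502412556594971832099649)*(mul_nonneg (mul_nonneg ((sub_pos.2 k4.TB)).le hb.a1n) hb.c21) +
        (619648353099199767862747296/125935502412556594971832099649)*(mul_nonneg (mul_nonneg ((sub_pos.2 k5.RL)).le hb.B2n) hb.r1n) +
        (416360899966631915810999767/125935502412556594971832099649)*(mul_nonneg (mul_nonneg ((sub_pos.2 k5.Rw)).le hb.r2n) (neg_nonneg.2 s)) +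
        (103050736623958328862373480/17990786058936656424547442807)*(mul_nonneg (mul_nonneg dca hb.a2n) (neg_nonneg.2 s)) +
        (740536414048506889028106380/125935502412556594971832099649)*(mul_nonneg (mul_nonneg ((sub_pos.2 k3.RL)).le hb.c21) hb.c21) +
        (5940245730805812534735205246/125935502412556594971832099649)*(mul_nonneg (mul_nonneg ((sub_pos.2 k6.RL)).le hb.A2n) hb.r2n) +
        (3979806011244692073345338902/125935502412556594971832099649)*(mul_nonneg (mul_nonneg dca hb.B1n) o1) +
        (15130426185584644777547348185/251871004825113189943664199298)*(mul_nonneg hb.wout (hb.TR1).le) +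
        (5940245730805812534735205246/125935502412556594971832099649)*(mul_nonneg (mul_nonneg hb.B2n hb.r2n) (neg_nonneg.2 s)) +
        (1282173623511927051724945792/125935502412556594971832099649)*(mul_nonneg (mul_nonneg ((sub_pos.2 k3.RL)).le hb.r1n) hb.c21) +
        (4992239017744391827946153856/125935502412556594971832099649)*(mul_nonneg (mul_nonneg dca (hb.TR1).le) hb.r1n) +
        (5669843661231125924256636936/125935502412556594971832099649)*(mul_nonneg (mul_nonneg dca hb.a2n) hb.B1n) +
        (372963940642604536122688253/125935502412556594971832099649)*(mul_nonneg (mul_nonneg dca hb.a1n) hb.a1n) +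
        (4774023175504655987096122694/125935502412556594971832099649)*(mul_nonneg (mul_nonneg ((sub_pos.2 k1.RL)).le hb.c21) o1) +
        (213002778250707942930279909/125935502412556594971832099649)*(mul_nonneg ((mul_pos (sub_pos.2 k5.RL) hb.RB1)).le hb.A2n) +
        (444665406758801364293029430/125935502412556594971832099649)*(mul_nonneg (mul_nonneg dca hb.B1n) hb.r1n) +
        (25102038176309875980833010/17990786058936656424547442807)*(mul_nonneg ((mul_pos (sub_pos.2 k2.TB) hb.RB1)).le hb.B1n) +
        (691407131240062482524442914/17990786058936656424547442807)*(mul_nonneg (mul_nonneg hb.B1n hb.B2n) hb.c21) +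
        (379345041852560494603736106/125935502412556594971832099649)*(mul_nonneg (mul_nonneg hb.A2n hb.A2n) hb.c21) +
        (126448347284186831534578702/125935502412556594971832099649)*(mul_nonneg (mul_nonneg ((sub_pos.2 k2.TB)).le hb.B2n) hb.B2n) +
        (372963940642604536122688253/125935502412556594971832099649)*(mul_nonneg (mul_nonneg ((sub_pos.2 k5.Rw)).le hb.a1n) hb.a1n) +
        (745927881285209072245376506/125935502412556594971832099649)*(mul_nonneg (mul_nonneg dca hb.a1n) hb.Tp1) +
        (252896694568373663069157404/125935502412556594971832099649)*(mul_nonneg (mul_nonneg ((sub_pos.2 k1.Tw)).le hb.B2n) hb.r2n) +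
        (35223261038241039426713438/17990786058936656424547442807)*(mul_nonneg ((mul_pos (sub_pos.2 k5.Rw) hb.RB1)).le hb.a2n) +
        (63224173642093415767289351/125935502412556594971832099649)*(mul_nonneg (mul_nonneg ((sub_pos.2 k0.RL)).le hb.B1n) (neg_nonneg.2 s)) +
        (126448347284186831534578702/125935502412556594971832099649)*(mul_nonneg (mul_nonneg ((sub_pos.2 k1.Tw)).le hb.B1n) hb.r2n) +
        (126448347284186831534578702/125935502412556594971832099649)*(mul_nonneg (mul_nonneg ((sub_pos.2 k6.RL)).le hb.A2n) hb.r1n) +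
        (2052698825537569376524457906/125935502412556594971832099649)*(mul_nonneg (mul_nonneg dca hb.a2n) hb.r2n))

theorem K78 {c1 c2 a1 a2 B1 B2 r1 r2 : ℝ} (hb : Base c1 c2 a1 a2 B1 B2 r1 r2) (dca : 0 ≤ c2*a1-c1*a2) (k0 : Y1 c1 c2 a1 a2 c1 c2 (2-c1-B1) (c2-B2)) (k1 : Y1 c1 c2 a1 a2 (2-c1-a1) (2-c2-a2) (2-a1-r1) (a2-r2)) (k2 : Y1 c1 c2 a1 a2 a1 a2 (-(2-r1-B1)) (r2+B2)) (o0 : 0 ≤ 2-a1-r1) (o1 : 0 ≤ a2-r2) (o2 : 0 ≤ -(2-r1-B1)) : False := by
  exact lt_irrefl (0:ℝ) (by
      linear_combination
        (453237928296244236877714179869/3638951693731725379284488798980)*(mul_nonneg (mul_nonneg (hb.TR1).le hb.r1n) o2) +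
        (329518330070549264978507315338/909737923432931344821122199745)*(mul_nonneg (hb.TR1).le o2) +
        (1359713784888732710633142539607/3638951693731725379284488798980)*(mul_nonneg hb.Lp1 o2) +
        (921928786253312675758433823529/3638951693731725379284488798980)*(sub_pos.2 k1.TB) +
        (1400527980245077153607579015899/7277903387463450758568977597960)*(mul_pos (sub_pos.2 k1.TB) hb.TR1) +
        (4763637900537276658257493479457/7277903387463450758568977597960)*(mul_nonneg hb.r2n o0) +
        (4121710022322666418020551079797/7277903387463450758568977597960)*(mul_nonneg (mul_nonneg (hb.TR1).le hb.r2n) o0) +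
        (492040166159545873285079756407/3638951693731725379284488798980)*(mul_nonneg (mul_nonneg (hb.RB1).le hb.r2n) hb.Tp1) +
        (119960616132693330825524363823/3638951693731725379284488798980)*(sub_pos.2 k2.TL) +
        (90114692634894846961616209541/3638951693731725379284488798980)*(mul_nonneg (mul_nonneg ((sub_pos.2 k2.RL)).le hb.A2n) hb.B1n) +
        (36389535393392665614193840489/3638951693731725379284488798980)*(mul_nonneg (mul_nonneg ((sub_pos.2 k1.TB)).le hb.r1n) o1) +
        (404438143931554108466830631631/3638951693731725379284488798980)*(mul_nonneg (mul_nonneg ((sub_pos.2 k0.Rw)).le hb.A2n) hb.c12) +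
        (11497786505650715805987115718/909737923432931344821122199745)*(mul_nonneg (mul_nonneg ((sub_pos.2 k2.RL)).le hb.b2n) hb.Tp1) +
        (1879697515213890161815945127009/1819475846865862689642244399490)*(mul_nonneg (mul_nonneg (hb.TR1).le hb.a2n) o0) +
        (1243729980548963627424755414283/1819475846865862689642244399490)*(mul_nonneg (mul_nonneg (hb.TR1).le hb.a1n) o1) +
        (18156546012179212747594863115/181947584686586268964224439949)*(mul_nonneg (mul_nonneg ((sub_pos.2 k0.Rw)).le hb.r1n) hb.c12) +
        (276198163592187917568995691269/1819475846865862689642244399490)*(mul_nonneg (mul_nonneg hb.b2n hb.B1n) hb.c21) +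
        (91539708312465328623802243741/1455580677492690151713795519592)*(mul_nonneg ((mul_pos (sub_pos.2 k0.Rw) hb.RB1)).le hb.c12) +
        (1189232004421461727559994633/5730632588553898235093683148)*(mul_nonneg (mul_nonneg hb.qout (hb.RB1).le) (hb.RB1).le) +
        (216585457228908580040624173968/909737923432931344821122199745)*(mul_pos (sub_pos.2 k2.TL) hb.TR1) +
        (22132330077388343439373051617/1819475846865862689642244399490)*(mul_nonneg (mul_nonneg ((sub_pos.2 k2.TL)).le hb.r1n) o1) +
        (81375354426150499936140738235/1455580677492690151713795519592)*(mul_pos (mul_pos (sub_pos.2 k0.RL) hb.TR1) hb.RB1) +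
        (289814639994803511306648089897/727790338746345075856897759796)*(mul_nonneg (mul_nonneg (hb.TR1).le hb.r2n) hb.Tp1) +
        (189340345754176257470157327537/1819475846865862689642244399490)*(mul_nonneg ((mul_pos (sub_pos.2 k0.RL) hb.RB1)).le hb.a1n) +
        (38245009089100421983067803034/909737923432931344821122199745)*(mul_nonneg (mul_nonneg ((sub_pos.2 k2.TL)).le hb.r1n) hb.c12) +
        (347912423981498542241503154011/1819475846865862689642244399490)*(mul_nonneg (mul_nonneg hb.b2n hb.r1n) o2) +
        (707607273519002352457495879819/3638951693731725379284488798980)*(mul_nonneg (mul_nonneg hb.qout (hb.TR1).le) hb.r1n) +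
        (12783100148996084249166639993/1819475846865862689642244399490)*(mul_nonneg (mul_nonneg hb.Tp1 o0) o0) +
        (820673213962992689290370196737/3638951693731725379284488798980)*(mul_nonneg (mul_nonneg hb.a1n hb.a1n) o1) +
        (37971519508521402150989709953/3638951693731725379284488798980)*(mul_nonneg (mul_nonneg ((sub_pos.2 k2.TB)).le hb.a1n) hb.c12) +
        (320677121530750042349081194809/7277903387463450758568977597960)*(mul_nonneg (mul_nonneg hb.qout (hb.TR1).le) hb.a2n) +
        (139536528383158606669012443747/1819475846865862689642244399490)*(mul_nonneg (mul_nonneg hb.pin hb.a1n) hb.a1n) +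
        (441416630120205338869460754823/3638951693731725379284488798980)*(mul_nonneg (mul_nonneg ((sub_pos.2 k0.Rw)).le hb.A2n) hb.B1n) +
        (546788475090904998619799597987/7277903387463450758568977597960)*(mul_nonneg ((mul_pos (sub_pos.2 k0.RL) hb.RB1)).le hb.c21) +
        (578020865727424084138251908883/1819475846865862689642244399490)*(mul_nonneg (mul_nonneg (hb.TR1).le hb.A2n) hb.c21) +
        (47332449423212557942608979953/727790338746345075856897759796)*(mul_nonneg (mul_nonneg hb.a2n hb.a2n) o0) +
        (267534458810077759769768819839/1819475846865862689642244399490)*(mul_nonneg (mul_nonneg ((sub_pos.2 k2.RL)).le hb.A2n) hb.r1n) +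
        (86148950904304925110771312071/3638951693731725379284488798980)*(mul_nonneg (mul_nonneg hb.wout hb.b2n) hb.B1n) +
        (63505458166720383442915189557/727790338746345075856897759796)*(mul_nonneg ((mul_pos hb.RB1 hb.RB1)).le hb.A1n) +
        (335445727015093574914638792891/1819475846865862689642244399490)*(mul_nonneg (mul_nonneg ((sub_pos.2 k2.TL)).le hb.B2n) hb.r1n) +
        (381311012280244918733890835427/3638951693731725379284488798980)*(mul_nonneg (mul_nonneg (hb.TR1).le hb.B2n) hb.r2n) +
        (701141826518923245002441490151/7277903387463450758568977597960)*(mul_nonneg (mul_nonneg ((sub_pos.2 k0.Rw)).le hb.r2n) o0) +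
        (293759559807387906411571329/363895169373172537928448879898)*(mul_nonneg (mul_nonneg hb.a2n hb.b2n) hb.b2n) +
        (1838728422779344893064835866613/3638951693731725379284488798980)*(mul_nonneg (mul_nonneg ((sub_pos.2 k1.TB)).le hb.a1n) hb.B2n) +
        (6329797264999521836262487793/727790338746345075856897759796)*(mul_nonneg ((mul_pos (sub_pos.2 k2.TL) hb.TR1)).le hb.Tp1) +
        (79222490901530808893891646867/727790338746345075856897759796)*(mul_nonneg (mul_nonneg hb.b2n hb.r1n) hb.r2n) +
        (2130819151563885799888027468019/3638951693731725379284488798980)*(mul_nonneg (mul_nonneg (hb.TR1).le hb.B2n) o0) +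
        (56503691107279880847503392831/3638951693731725379284488798980)*(mul_pos (mul_pos (sub_pos.2 k2.TB) hb.TR1) hb.RB1) +
        (90114692634894846961616209541/3638951693731725379284488798980)*(mul_nonneg (mul_nonneg ((sub_pos.2 k2.TL)).le hb.B1n) hb.B2n) +
        (117332801897178681819516498747/363895169373172537928448879898)*(mul_nonneg ((mul_pos hb.TR1 hb.RB1)).le hb.a1n) +
        (20443300223617712386094530602/181947584686586268964224439949)*(mul_nonneg (mul_nonneg (hb.TR1).le hb.B1n) o0) +
        (320677121530750042349081194809/7277903387463450758568977597960)*(mul_nonneg (mul_nonneg hb.qout (hb.RB1).le) hb.a2n) +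
        (200528813136686530205637749443/3638951693731725379284488798980)*(mul_nonneg (mul_nonneg ((sub_pos.2 k0.TB)).le hb.a1n) o0) +
        (24224931952000100194059162753/727790338746345075856897759796)*(mul_pos (mul_pos (sub_pos.2 k0.RL) hb.TR1) hb.TR1) +
        (1499922325011998981007115331821/3638951693731725379284488798980)*(mul_nonneg (mul_nonneg ((sub_pos.2 k1.Rw)).le hb.a1n) hb.A2n) +
        (992524092301507527872818086/181947584686586268964224439949)*(mul_nonneg ((mul_pos (sub_pos.2 k0.Rw) hb.RB1)).le hb.B1n) +
        (81833133920171421608051906607/3638951693731725379284488798980)*(mul_nonneg (mul_nonneg hb.pin (hb.RB1).le) hb.c21) +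
        (8257291160285082117778024647/909737923432931344821122199745)*(mul_nonneg ((mul_pos (sub_pos.2 k1.TB) hb.RB1)).le hb.r1n) +
        (43584964838970026655985947981/1819475846865862689642244399490)*(mul_nonneg (mul_nonneg ((sub_pos.2 k2.TL)).le hb.c21) hb.c21) +
        (701141826518923245002441490151/3638951693731725379284488798980)*(mul_nonneg (mul_nonneg hb.qout hb.r1n) hb.r2n) +
        (25524848384301812424858667242/909737923432931344821122199745)*(mul_nonneg ((mul_pos (sub_pos.2 k1.TB) hb.RB1)).le hb.B1n) +
        (62294701030537375248732443749/727790338746345075856897759796)*(mul_nonneg (mul_nonneg hb.qout (hb.RB1).le) hb.B2n) +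
        (913919937714178459329830370007/7277903387463450758568977597960)*(mul_pos (sub_pos.2 k0.Rw) hb.RB1) +
        (646999364706739741432910854803/1819475846865862689642244399490)*(mul_nonneg (mul_nonneg (hb.TR1).le hb.B2n) o2) +
        (720136892670379266865861997659/3638951693731725379284488798980)*(mul_nonneg ((sub_pos.2 k0.RL)).le hb.qout) +
        (953539298221894269175426473459/3638951693731725379284488798980)*(mul_nonneg (mul_nonneg hb.A2n hb.r2n) hb.c21) +
        (42472527121708596463515575719/3638951693731725379284488798980)*(mul_nonneg (mul_nonneg ((sub_pos.2 k0.RL)).le hb.a1n) hb.r1n) +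
        (82125183395454822190591083761/909737923432931344821122199745)*(mul_nonneg (mul_nonneg ((sub_pos.2 k0.Rw)).le hb.A2n) hb.Lp1) +
        (75389209000976359714950443047/1455580677492690151713795519592)*(mul_nonneg (mul_nonneg ((sub_pos.2 k0.RL)).le hb.a1n) hb.a1n) +
        (705568750745063125143875707/26274019449326537034545045480)*(mul_nonneg (mul_nonneg ((sub_pos.2 k0.RL)).le hb.a1n) hb.r2n) +
        (170830182766126377750883851193/727790338746345075856897759796)*(mul_nonneg (mul_nonneg ((sub_pos.2 k0.RL)).le hb.a2n) o0) +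
        (115052829602059941998770947369/909737923432931344821122199745)*(mul_nonneg (mul_nonneg ((sub_pos.2 k2.RB)).le hb.c21) o0) +
        (175883868686970053303937034611/7277903387463450758568977597960)*(mul_nonneg (mul_nonneg ((sub_pos.2 k0.RL)).le hb.a2n) hb.r1n) +
        (59462912035246620794080510144/909737923432931344821122199745)*(mul_nonneg (mul_nonneg hb.a1n hb.A1n) hb.r2n) +
        (32570067094247709630901969103/1455580677492690151713795519592)*(mul_nonneg (mul_nonneg ((sub_pos.2 k0.RL)).le hb.a1n) hb.c12) +
        (24052354401365988945586417313/1819475846865862689642244399490)*(mul_nonneg (mul_nonneg (hb.TR1).le hb.A2n) hb.B1n) +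
        (463679317666327407491686736597/3638951693731725379284488798980)*(mul_nonneg (mul_nonneg ((sub_pos.2 k1.TB)).le hb.a1n) hb.c12) +
        (649048513600126536474447482023/7277903387463450758568977597960)*(mul_nonneg (mul_nonneg hb.a1n hb.Lp1) o2) +
        (104529724090204687120712154047/1455580677492690151713795519592)*(mul_nonneg ((mul_pos (sub_pos.2 k1.RL) hb.RB1)).le hb.a1n) +
        (23120268844547797500660196485/727790338746345075856897759796)*(mul_nonneg (mul_nonneg ((sub_pos.2 k2.RL)).le hb.r1n) hb.Tp1) +
        (888821795696530728299601965483/3638951693731725379284488798980)*(mul_nonneg (mul_nonneg hb.a1n hb.a2n) o0) +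
        (137321335016498828766415522459/363895169373172537928448879898)*(mul_nonneg (mul_nonneg hb.a1n hb.b2n) hb.Tp1) +
        (298254329838021463793606727/14326581471384745587734207870)*(mul_pos (mul_pos (sub_pos.2 k1.TB) hb.TR1) hb.TR1) +
        (255698252053760469441158392139/3638951693731725379284488798980)*(mul_nonneg (mul_nonneg ((sub_pos.2 k2.TL)).le hb.r1n) hb.c21) +
        (275453684808506264278461840589/7277903387463450758568977597960)*(mul_nonneg ((mul_pos hb.RB1 hb.RB1)).le hb.a1n) +
        (34961623515762435300141821789/727790338746345075856897759796)*(mul_nonneg (mul_nonneg ((sub_pos.2 k0.Rw)).le hb.A2n) hb.r1n) +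
        (121626035047776898015837020684/909737923432931344821122199745)*(mul_nonneg (mul_nonneg (hb.TR1).le hb.a1n) o0) +
        (69680065637543481999100310709/1819475846865862689642244399490)*(mul_nonneg (mul_nonneg ((sub_pos.2 k0.Rw)).le hb.r1n) o2) +
        (27890396564741284436727270988/181947584686586268964224439949)*(mul_nonneg (mul_nonneg hb.a2n hb.B1n) o0) +
        (14105929781263987553494918115/363895169373172537928448879898)*(mul_nonneg (mul_nonneg ((sub_pos.2 k0.RL)).le hb.B2n) hb.c12) +
        (66338866243137250172318451477/727790338746345075856897759796)*(mul_nonneg (mul_nonneg (hb.RB1).le hb.a1n) o2) +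
        (121026797448610241171938122433/727790338746345075856897759796)*(mul_nonneg (mul_nonneg hb.A2n hb.r2n) hb.c12) +
        (101063832444445060519813652931/727790338746345075856897759796)*(mul_nonneg (mul_nonneg hb.a1n hb.r2n) o0) +
        (69680065637543481999100310709/1819475846865862689642244399490)*(mul_nonneg (mul_nonneg ((sub_pos.2 k0.RL)).le hb.Tp1) hb.Lp1) +
        (1450688427025033895643227396377/7277903387463450758568977597960)*(mul_nonneg (mul_nonneg ((sub_pos.2 k0.RL)).le hb.a2n) hb.Tp1) +
        (193379200432550801002099096697/3638951693731725379284488798980)*(mul_nonneg (mul_nonneg hb.qout (hb.TR1).le) hb.B2n) +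
        (25127391623062833208357563093/727790338746345075856897759796)*(mul_nonneg (mul_nonneg ((sub_pos.2 k0.Rw)).le hb.a1n) o2) +
        (202819129015094561634129050447/3638951693731725379284488798980)*(mul_nonneg (mul_nonneg ((sub_pos.2 k0.Rw)).le hb.a1n) hb.A2n) +
        (190475613914641701442456531983/3638951693731725379284488798980)*(mul_nonneg (mul_nonneg ((sub_pos.2 k2.TL)).le hb.a1n) hb.Tp1) +
        (145842509438387001815053776951/363895169373172537928448879898)*(mul_nonneg (mul_nonneg hb.a2n hb.c21) o0) +
        (36389535393392665614193840489/3638951693731725379284488798980)*(mul_nonneg (mul_nonneg ((sub_pos.2 k1.TB)).le hb.a2n) hb.B1n) +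
        (95760825718847281075209491971/727790338746345075856897759796)*(mul_nonneg (mul_nonneg hb.Lp1 hb.c21) o0) +
        (36389535393392665614193840489/3638951693731725379284488798980)*(mul_nonneg (mul_nonneg ((sub_pos.2 k1.Rw)).le hb.a1n) hb.r2n) +
        (281474122279773096073954307967/3638951693731725379284488798980)*(mul_nonneg ((mul_pos hb.RB1 hb.RB1)).le hb.a2n) +
        (301873233251526949658160955221/3638951693731725379284488798980)*(mul_nonneg (mul_nonneg hb.a1n hb.b2n) hb.b2n) +
        (23120268844547797500660196485/727790338746345075856897759796)*(mul_nonneg (mul_nonneg ((sub_pos.2 k2.RB)).le hb.r1n) o0) +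
        (69680065637543481999100310709/1819475846865862689642244399490)*(mul_nonneg (mul_nonneg ((sub_pos.2 k0.RL)).le hb.B1n) o0) +
        (1266642921835629832319229584627/1819475846865862689642244399490)*(mul_nonneg (mul_nonneg hb.b2n hb.B2n) o2) +
        (128252784710719633587906825449/1819475846865862689642244399490)*(mul_nonneg (mul_nonneg ((sub_pos.2 k0.RL)).le hb.A2n) hb.r2n) +
        (296181444262973063442212534332/909737923432931344821122199745)*(mul_nonneg (mul_nonneg hb.a1n hb.b2n) hb.r2n) +
        (36389535393392665614193840489/3638951693731725379284488798980)*(mul_nonneg (mul_nonneg ((sub_pos.2 k1.TL)).le hb.r2n) hb.Tp1) +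
        (34663049525566489268991480851/3638951693731725379284488798980)*(mul_nonneg (mul_nonneg ((sub_pos.2 k2.RB)).le hb.a2n) o0) +
        (36786505491475734261497315115/363895169373172537928448879898)*(mul_nonneg (mul_nonneg hb.pin hb.c21) o2) +
        (441416630120205338869460754823/3638951693731725379284488798980)*(mul_nonneg (mul_nonneg ((sub_pos.2 k0.RL)).le hb.B1n) hb.B2n) +
        (209047625311097753288250853417/909737923432931344821122199745)*(mul_nonneg (mul_nonneg ((sub_pos.2 k2.TL)).le hb.b1n) hb.B2n) +
        (70849035929091755391411970959/1819475846865862689642244399490)*(mul_nonneg (mul_nonneg hb.a2n hb.r1n) o0) +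
        (81833133920171421608051906607/1819475846865862689642244399490)*(mul_nonneg (mul_nonneg hb.pin (hb.TR1).le) hb.B1n) +
        (174202655489421531657867930647/1819475846865862689642244399490)*(mul_nonneg (mul_nonneg hb.b2n hb.r2n) hb.c21) +
        (62294701030537375248732443749/727790338746345075856897759796)*(mul_nonneg (mul_nonneg ((sub_pos.2 k2.TL)).le hb.a1n) hb.B2n) +
        (596508659676042927587213454/7163290735692372793867103935)*(mul_nonneg (mul_nonneg hb.pin (hb.TR1).le) hb.Tp1) +
        (233346333477886325215204123923/7277903387463450758568977597960)*(mul_pos (mul_pos (sub_pos.2 k1.Rw) hb.TR1) hb.RB1) +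
        (128252784710719633587906825449/1819475846865862689642244399490)*(mul_nonneg (mul_nonneg ((sub_pos.2 k0.RL)).le hb.B2n) hb.r2n) +
        (67578282370967832552297455923/1455580677492690151713795519592)*(mul_nonneg (mul_nonneg ((sub_pos.2 k2.TL)).le hb.a1n) hb.c21) +
        (276613272169917702581635075698/909737923432931344821122199745)*(mul_nonneg hb.qout o0) +
        (147748332203759841103039623213/727790338746345075856897759796)*(mul_nonneg hb.wout o0) +
        (643695911530256079831905147137/1819475846865862689642244399490)*(mul_nonneg (mul_nonneg hb.b2n hb.A2n) hb.B1n) +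
        (10411111130066290230300415305/363895169373172537928448879898)*(mul_nonneg (mul_nonneg hb.a1n hb.B1n) o0) +
        (101561303031948275019623756053/1819475846865862689642244399490)*(mul_nonneg (mul_nonneg ((sub_pos.2 k0.Rw)).le hb.A1n) hb.r2n) +
        (5688077898732405124818750172/909737923432931344821122199745)*(mul_nonneg ((mul_pos (sub_pos.2 k0.Rw) hb.RB1)).le hb.r2n) +
        (49163329884107287231464265669/909737923432931344821122199745)*(mul_nonneg ((sub_pos.2 k1.TB)).le hb.qout) +
        (229691734056158755553574375819/3638951693731725379284488798980)*(mul_nonneg (mul_nonneg hb.wout hb.a1n) hb.c21) +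
        (62294701030537375248732443749/363895169373172537928448879898)*(mul_nonneg (mul_nonneg hb.qout (hb.RB1).le) hb.A1n) +
        (15128367199672785425097293691/181947584686586268964224439949)*(mul_nonneg (mul_nonneg hb.A2n hb.Lp1) hb.c21) +
        (165980990674298108826419898557/1819475846865862689642244399490)*(mul_nonneg (mul_nonneg hb.wout hb.a1n) hb.A2n) +
        (162305637770824511436736819989/1819475846865862689642244399490)*(mul_nonneg (mul_nonneg (hb.RB1).le hb.c21) o0) +
        (365760073934599204538953473471/909737923432931344821122199745)*(mul_nonneg (mul_nonneg hb.B2n hb.r2n) o0) +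
        (878737430884696485517822275861/7277903387463450758568977597960)*(mul_nonneg (mul_nonneg hb.wout hb.a1n) hb.r2n) +
        (81833133920171421608051906607/3638951693731725379284488798980)*(mul_nonneg ((mul_pos (sub_pos.2 k1.TB) hb.TR1)).le hb.B2n) +
        (81833133920171421608051906607/3638951693731725379284488798980)*(mul_nonneg (mul_nonneg ((sub_pos.2 k1.TB)).le hb.A2n) hb.c21) +
        (523220653793800365953174019007/727790338746345075856897759796)*(mul_nonneg (mul_nonneg hb.B2n hb.r2n) o2) +
        (146237985870979011602773383107/1819475846865862689642244399490)*(mul_nonneg (mul_nonneg hb.wout (hb.TR1).le) hb.r2n) +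
        (302416562373953246443526694303/3638951693731725379284488798980)*(mul_nonneg (mul_nonneg ((sub_pos.2 k1.Rw)).le hb.A2n) hb.Lp1) +
        (419803616067495081200860345257/7277903387463450758568977597960)*(mul_nonneg (mul_nonneg hb.wout hb.r1n) hb.r2n) +
        (101561303031948275019623756053/1819475846865862689642244399490)*(mul_nonneg (mul_nonneg ((sub_pos.2 k0.RL)).le hb.B1n) hb.r2n) +
        (36389535393392665614193840489/7277903387463450758568977597960)*(mul_nonneg ((mul_pos (sub_pos.2 k1.Rw) hb.RB1)).le hb.r2n) +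
        (212260690759289653580018766237/1819475846865862689642244399490)*(mul_nonneg ((mul_pos hb.TR1 hb.TR1)).le o0) +
        (190568250299695135253378956083/3638951693731725379284488798980)*(mul_nonneg ((mul_pos (sub_pos.2 k0.RL) hb.RB1)).le hb.r2n) +
        (302416562373953246443526694303/3638951693731725379284488798980)*(mul_nonneg (mul_nonneg ((sub_pos.2 k1.Rw)).le hb.B2n) o0) +
        (204331693758846195311099889457/3638951693731725379284488798980)*(mul_nonneg (mul_nonneg ((sub_pos.2 k0.Rw)).le hb.A2n) hb.c21) +
        (660539532501735767199081141027/3638951693731725379284488798980)*(mul_nonneg (mul_nonneg ((sub_pos.2 k2.RL)).le hb.A2n) hb.Tp1) +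
        (8989802283009540229497212543/3638951693731725379284488798980)*(mul_nonneg (mul_nonneg ((sub_pos.2 k0.RL)).le hb.a2n) hb.B1n) +
        (92426065920426414455025246067/1819475846865862689642244399490)*(mul_nonneg (mul_nonneg ((sub_pos.2 k2.RB)).le hb.b2n) hb.A2n) +
        (264409593014930095227921069751/3638951693731725379284488798980)*(mul_nonneg ((mul_pos hb.TR1 hb.TR1)).le hb.b2n) +
        (69680065637543481999100310709/1819475846865862689642244399490)*(mul_nonneg ((mul_pos (sub_pos.2 k0.RL) hb.TR1)).le hb.B1n) +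
        (71619116306584234000512532607/1819475846865862689642244399490)*(mul_nonneg (mul_nonneg ((sub_pos.2 k0.RL)).le hb.a2n) hb.b2n) +
        (304219842396096501953574134071/7277903387463450758568977597960)*(mul_nonneg (mul_nonneg ((sub_pos.2 k0.RL)).le hb.a2n) hb.a2n) +
        (45880837938644629217071826609/727790338746345075856897759796)*(mul_nonneg (mul_nonneg (hb.RB1).le hb.B2n) o0) +
        (2530800908072062936205866617/181947584686586268964224439949)*(mul_nonneg ((mul_pos (sub_pos.2 k0.Rw) hb.RB1)).le hb.c21) +
        (51049696768603624849717334484/909737923432931344821122199745)*(mul_nonneg (mul_nonneg hb.pin hb.a1n) hb.A1n) +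
        (40562445175942653366059498499/1819475846865862689642244399490)*(mul_nonneg (mul_nonneg ((sub_pos.2 k0.Rw)).le hb.a2n) hb.B1n) +
        (2555346626268451501614939181453/3638951693731725379284488798980)*(mul_nonneg (mul_nonneg hb.A2n hb.r2n) o2) +
        (44264660154776686878746103234/909737923432931344821122199745)*(mul_nonneg (mul_nonneg hb.a1n hb.r2n) hb.r2n) +
        (49233428142813330418552422265/363895169373172537928448879898)*(mul_nonneg (mul_nonneg ((sub_pos.2 k0.RL)).le hb.a1n) hb.B2n) +
        (137536699327493324503827092904/909737923432931344821122199745)*(mul_nonneg (mul_nonneg (hb.RB1).le hb.a1n) hb.a1n) +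
        (694839427448128044822271773179/7277903387463450758568977597960)*(mul_nonneg (mul_nonneg ((sub_pos.2 k0.Rw)).le hb.a1n) hb.c12) +
        (36389535393392665614193840489/7277903387463450758568977597960)*(mul_nonneg ((mul_pos (sub_pos.2 k1.Rw) hb.TR1)).le hb.r2n) +
        (209909896178650848442628898949/3638951693731725379284488798980)*(mul_nonneg (mul_nonneg (hb.TR1).le hb.c21) hb.c12) +
        (95223035908725432357536943/2627401944932653703454504548)*(mul_nonneg (mul_nonneg ((sub_pos.2 k2.RL)).le hb.a2n) hb.A2n) +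
        (27066334091919349933858308958/909737923432931344821122199745)*(mul_nonneg (mul_nonneg ((sub_pos.2 k2.RL)).le hb.B2n) hb.pB2) +
        (27066334091919349933858308958/909737923432931344821122199745)*(mul_nonneg (mul_nonneg ((sub_pos.2 k2.TB)).le hb.B2n) hb.r2n) +
        (27066334091919349933858308958/909737923432931344821122199745)*(mul_nonneg (mul_nonneg hb.qout hb.a2n) hb.b2n) +
        (14189188461844381562743426579/363895169373172537928448879898)*(mul_nonneg (mul_nonneg hb.pin hb.a2n) hb.c21) +
        (23375262813692960797121135209/909737923432931344821122199745)*(mul_nonneg (mul_nonneg (hb.TR1).le hb.A1n) hb.Tp1) +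
        (524716996091704136909341194923/3638951693731725379284488798980)*(mul_nonneg (mul_nonneg ((sub_pos.2 k2.TB)).le hb.A2n) o0) +
        (54132668183838699867716617916/909737923432931344821122199745)*(mul_nonneg (mul_nonneg hb.a2n hb.A2n) hb.r2n) +
        (46843089135282126877535746654/909737923432931344821122199745)*(mul_nonneg (mul_nonneg hb.wout hb.B1n) hb.r2n) +
        (167672472550981937531800311259/3638951693731725379284488798980)*(mul_nonneg (mul_nonneg ((sub_pos.2 k0.Rw)).le hb.a2n) hb.Tp1) +
        (58060333225050160556626679896/909737923432931344821122199745)*(mul_nonneg (mul_nonneg (hb.TR1).le hb.a1n) hb.B1n) +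
        (36389535393392665614193840489/3638951693731725379284488798980)*(mul_nonneg (mul_nonneg ((sub_pos.2 k2.RL)).le hb.a1n) o1) +
        (25999332592688853143801291504/909737923432931344821122199745)*(mul_nonneg ((mul_pos hb.RB1 hb.RB1)).le hb.c21) +
        (162188824411553106526239004101/3638951693731725379284488798980)*(mul_nonneg (mul_nonneg ((sub_pos.2 k0.Rw)).le hb.b1n) hb.c12) +
        (38293397736587714587308628151/1819475846865862689642244399490)*(mul_nonneg (mul_nonneg ((sub_pos.2 k2.RB)).le hb.b2n) hb.B2n) +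
        (6469560999788568631882704947/727790338746345075856897759796)*(mul_nonneg (mul_nonneg ((sub_pos.2 k0.Rw)).le hb.a1n) o1) +
        (675111499446059572662295476377/7277903387463450758568977597960)*(mul_nonneg (mul_nonneg hb.r2n hb.c21) o0) +
        (22132330077388343439373051617/1819475846865862689642244399490)*(mul_nonneg (mul_nonneg ((sub_pos.2 k2.RB)).le hb.r2n) hb.Tp1) +
        (10411111130066290230300415305/363895169373172537928448879898)*(mul_nonneg (mul_nonneg hb.a1n hb.a1n) o2) +
        (62294701030537375248732443749/363895169373172537928448879898)*(mul_nonneg (mul_nonneg hb.qout hb.a1n) hb.A2n) +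
        (11150974464051778463649552991/909737923432931344821122199745)*(mul_nonneg ((mul_pos (sub_pos.2 k1.TL) hb.TR1)).le hb.a2n) +
        (43185007526814511423159694127/3638951693731725379284488798980)*(mul_nonneg ((mul_pos (sub_pos.2 k0.Rw) hb.TR1)).le o1) +
        (23618568365907324079755430223/3638951693731725379284488798980)*(mul_nonneg (mul_nonneg ((sub_pos.2 k2.TL)).le hb.a2n) hb.B2n) +
        (153692616003007112261655226099/3638951693731725379284488798980)*(mul_nonneg (mul_nonneg ((sub_pos.2 k0.Rw)).le hb.B2n) o0) +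
        (152262892031569761688005235607/3638951693731725379284488798980)*(mul_nonneg ((mul_pos (sub_pos.2 k0.RL) hb.RB1)).le hb.B1n) +
        (192494589714134933321098266531/1819475846865862689642244399490)*(mul_nonneg (mul_nonneg hb.a2n hb.B2n) o0) +
        (168387792657578868289362324193/3638951693731725379284488798980)*(mul_nonneg (mul_nonneg hb.a2n hb.A1n) hb.r2n) +
        (837078388716611425098114453867/7277903387463450758568977597960)*(mul_nonneg (mul_nonneg hb.qout (hb.RB1).le) hb.Lp1) +
        (4514472935755327435111378939/7277903387463450758568977597960)*(mul_nonneg ((mul_pos hb.TR1 hb.TR1)).le hb.a1n) +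
        (51997794321036148615506833997/7277903387463450758568977597960)*(mul_nonneg (mul_nonneg ((sub_pos.2 k2.RL)).le hb.a2n) hb.c21) +
        (1575024952276804252910452549/363895169373172537928448879898)*(mul_nonneg (mul_nonneg hb.pin hb.a1n) hb.r2n) +
        (37437134845951356969577774779/1819475846865862689642244399490)*(mul_nonneg (mul_nonneg ((sub_pos.2 k2.RB)).le hb.a1n) o0) +
        (37437134845951356969577774779/1819475846865862689642244399490)*(mul_nonneg (mul_nonneg ((sub_pos.2 k2.TL)).le hb.a1n) hb.a1n) +
        (37437134845951356969577774779/1819475846865862689642244399490)*(mul_nonneg (mul_nonneg hb.wout hb.a1n) hb.a1n) +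
        (75825079806364721737077420773/1819475846865862689642244399490)*(mul_nonneg ((mul_pos hb.RB1 hb.RB1)).le hb.r1n) +
        (95388958412664148326710884689/3638951693731725379284488798980)*(mul_nonneg (mul_nonneg hb.wout (hb.TR1).le) hb.c21) +
        (15975163040566169734971241726/909737923432931344821122199745)*(mul_nonneg (mul_nonneg (hb.TR1).le hb.a1n) hb.a1n) +
        (44123300070855030481702250711/3638951693731725379284488798980)*(mul_nonneg (mul_nonneg (hb.TR1).le hb.r1n) hb.c12) +
        (68684301080087649899979699543/3638951693731725379284488798980)*(mul_nonneg (mul_nonneg ((sub_pos.2 k0.Rw)).le hb.a1n) hb.r2n) +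
        (37437134845951356969577774779/1819475846865862689642244399490)*(mul_nonneg (mul_nonneg ((sub_pos.2 k0.Rw)).le hb.a1n) hb.a1n) +
        (293759559807387906411571329/727790338746345075856897759796)*(mul_nonneg (mul_nonneg ((sub_pos.2 k2.TL)).le hb.a2n) hb.a2n) +
        (69960445906898282142709631891/3638951693731725379284488798980)*(mul_nonneg ((mul_pos (sub_pos.2 k0.Rw) hb.RB1)).le hb.r1n) +
        (9322368437698469516052081193/727790338746345075856897759796)*(mul_nonneg (mul_nonneg (hb.TR1).le hb.c21) o0) +
        (293759559807387906411571329/727790338746345075856897759796)*(mul_nonneg (mul_nonneg ((sub_pos.2 k2.RB)).le hb.a2n) hb.b2n) +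
        (21855960434399488689258792483/1819475846865862689642244399490)*(mul_nonneg (mul_nonneg hb.a1n hb.B2n) o1) +
        (609836741476560770777740329/3638951693731725379284488798980)*(mul_nonneg (mul_nonneg ((sub_pos.2 k1.TB)).le hb.A1n) hb.r1n) +
        (14850614683253725681932546569/7277903387463450758568977597960)*(mul_nonneg ((mul_pos hb.RB1 hb.RB1)).le hb.c12) +
        (609836741476560770777740329/3638951693731725379284488798980)*(mul_nonneg (mul_nonneg ((sub_pos.2 k1.TB)).le hb.B1n) hb.r1n) +
        (23758787052347976494899638993/3638951693731725379284488798980)*(mul_nonneg (mul_nonneg hb.wout hb.r1n) o0) +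
        (59047152360068037620781561024/909737923432931344821122199745)*(mul_nonneg (mul_nonneg (hb.TR1).le hb.A2n) hb.A2n) +
        (578811131655911527394489029/909737923432931344821122199745)*(mul_nonneg (mul_nonneg hb.wout hb.a1n) hb.a2n) +
        (51948436890306805215036540031/7277903387463450758568977597960)*(mul_nonneg ((mul_pos hb.TR1 hb.TR1)).le hb.c12) +
        (32905701301401855418154974133/3638951693731725379284488798980)*(mul_nonneg (mul_nonneg (hb.RB1).le hb.B2n) hb.r2n) +
        (12783100148996084249166639993/1819475846865862689642244399490)*(mul_nonneg (mul_nonneg hb.Tp1 hb.Tp1) o0) +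
        (40475587903794343484978436379/7277903387463450758568977597960)*(mul_nonneg (mul_nonneg hb.a1n hb.r1n) o2) +
        (34319859459150587332296231779/909737923432931344821122199745)*(mul_nonneg (mul_nonneg (hb.RB1).le hb.a1n) hb.A2n) +
        (19827452504415574627222069013/3638951693731725379284488798980)*(mul_nonneg ((mul_pos hb.TR1 hb.RB1)).le hb.B1n) +
        (30378321350275164075465456791/1819475846865862689642244399490)*(mul_nonneg (mul_nonneg hb.A2n hb.B1n) hb.r2n) +
        (4561027710644152053518618319/7277903387463450758568977597960)*(mul_nonneg ((mul_pos (sub_pos.2 k1.TB) hb.RB1)).le hb.a2n) +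
        (60798778851107484274148287083/3638951693731725379284488798980)*(mul_nonneg (mul_nonneg hb.b2n hb.B1n) hb.r2n) +
        (20266259617035828091382762361/1819475846865862689642244399490)*(mul_nonneg (mul_nonneg (hb.RB1).le hb.A1n) hb.r2n) +
        (9860352770652269815126659103/909737923432931344821122199745)*(mul_nonneg (mul_nonneg hb.a2n hb.r2n) hb.Lp1) +
        (8357309085991450024888435979/1819475846865862689642244399490)*(mul_nonneg (mul_nonneg (hb.RB1).le hb.r1n) hb.r2n) +
        (49129127430881854032660973007/3638951693731725379284488798980)*(mul_nonneg (mul_nonneg hb.B1n hb.c21) o0) +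
        (13885256255098067508672637079/3638951693731725379284488798980)*(mul_nonneg ((mul_pos (sub_pos.2 k2.TL) hb.RB1)).le hb.a2n) +
        (37105213925002755427070730193/7277903387463450758568977597960)*(mul_nonneg (mul_nonneg hb.qout (hb.RB1).le) hb.r1n) +
        (293759559807387906411571329/363895169373172537928448879898)*(mul_nonneg (mul_nonneg ((sub_pos.2 k0.Rw)).le hb.a2n) hb.a2n) +
        (13723173159772797956412805953/3638951693731725379284488798980)*(mul_nonneg (mul_nonneg ((sub_pos.2 k0.RL)).le hb.a1n) hb.B1n) +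
        (844243030120325290893027781/1819475846865862689642244399490)*(mul_nonneg (mul_nonneg hb.b2n hb.r1n) hb.r1n) +
        (863242933913088172601179819/1819475846865862689642244399490)*(mul_nonneg (mul_nonneg ((sub_pos.2 k2.TB)).le hb.a1n) hb.b2n))

theorem K72 {c1 c2 a1 a2 B1 B2 r1 r2 : ℝ} (hb : Base c1 c2 a1 a2 B1 B2 r1 r2) (dca : 0 ≤ c2*a1-c1*a2) (k0 : Y1 c1 (2-c2) B1 B2 B1 B2 (2-r1) r2) (k1 : Y1 c1 c2 a1 a2 a1 a2 r1 r2) (k2 : Y1 c1 c2 a1 a2 (2-c1-a1) (2-c2-a2) (2-a1-r1) (a2-r2)) (k3 : Y1 c1 c2 a1 a2 a1 a2 B1 B2) (k4 : Y1 c1 (2-c2) B1 B2 c1 (2-c2) (2-c1-a1) (2-c2-a2)) (d22 : 0 ≤ a2-c2-2*r2) : False := by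
  exact lt_irrefl (0:ℝ) (by
      linear_combination
        (745874487826779/2829625514957750)*(mul_pos (sub_pos.2 k3.RL) hb.TR1) +
        (5137518806377/565925102991550)*(mul_pos (mul_pos (sub_pos.2 k3.RL) hb.TR1) hb.TR1) +
        (150811554514032/1414812757478875)*(mul_nonneg (mul_nonneg hb.A2n hb.A2n) hb.Lp1) +
        (258918708664152/1414812757478875)*(mul_nonneg (mul_nonneg (hb.TR1).le hb.a1n) hb.A2n) +
        (361356567866014/1414812757478875)*(mul_nonneg hb.a1n d22) +
        (83928594373238/282962551495775)*(mul_nonneg (mul_nonneg (hb.TR1).le hb.a1n) d22) +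
        (270323886114072/1414812757478875)*(mul_nonneg (mul_nonneg hb.a1n hb.B1n) d22) +
        (360032182069488/1414812757478875)*(mul_nonneg (mul_nonneg ((sub_pos.2 k1.RL)).le hb.B2n) hb.Tp1) +
        (12761480163948/1414812757478875)*(mul_nonneg ((mul_pos (sub_pos.2 k3.RL) hb.TR1)).le d22) +
        (54612197365321/848887654487325)*(mul_nonneg (mul_nonneg dca (hb.TR1).le) hb.B2n) +
        (36730251822278/282962551495775)*(mul_nonneg ((sub_pos.2 k3.RL)).le dca) +
        (151409723511404/1414812757478875)*(mul_nonneg (mul_nonneg ((sub_pos.2 k3.RL)).le hb.a2n) d22) +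
        (270736793772764/1414812757478875)*(mul_nonneg (mul_nonneg ((sub_pos.2 k1.TL)).le hb.B2n) hb.B2n) +
        (161640369529156/1414812757478875)*(mul_nonneg (mul_nonneg dca (hb.TR1).le) hb.Tp1) +
        (200787426167988/1414812757478875)*(mul_nonneg (mul_nonneg (hb.RB1).le hb.A2n) hb.Lp1) +
        (858791894527573/8488876544873250)*(mul_nonneg (mul_nonneg dca hb.a1n) d22) +
        (302819447022808/1414812757478875)*(mul_nonneg (mul_nonneg ((sub_pos.2 k1.TL)).le hb.a2n) hb.B2n) +
        (415156368974188/4244438272436625)*(mul_nonneg (mul_nonneg hb.A2n hb.B1n) hb.Lp1) +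
        (578655829497936/1414812757478875)*(mul_nonneg hb.Lp1 d22) +
        (184128802283336/1414812757478875)*(mul_nonneg (mul_nonneg hb.A1n hb.A2n) hb.Lp1) +
        (359701795292212/4244438272436625)*(mul_nonneg (mul_nonneg hb.A2n hb.A2n) hb.B1n) +
        (1931434862966/282962551495775)*(mul_nonneg (mul_nonneg ((sub_pos.2 k0.RL)).le hb.B2n) d22) +
        (145272542917508/1414812757478875)*(mul_nonneg (mul_nonneg ((sub_pos.2 k0.Tw)).le hb.a1n) hb.a2n) +
        (284374585588882/1414812757478875)*(sub_pos.2 k1.TL) +
        (150941952953552/1414812757478875)*(mul_nonneg (mul_nonneg ((sub_pos.2 k0.Tw)).le hb.a2n) hb.a2n) +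
        (222163523951304/1414812757478875)*(mul_nonneg (mul_nonneg hb.a2n hb.A2n) hb.Lp1) +
        (902040692088244/4244438272436625)*(mul_nonneg (mul_nonneg ((sub_pos.2 k3.RL)).le hb.a2n) hb.b2n) +
        (290795243121644/1414812757478875)*(mul_nonneg (mul_nonneg dca hb.a2n) hb.B2n) +
        (605638894045616/1414812757478875)*(mul_nonneg (mul_nonneg hb.a2n hb.b2n) hb.r2n) +
        (5055299930236/1414812757478875)*(mul_nonneg (mul_nonneg ((sub_pos.2 k3.RL)).le hb.a1n) hb.b2n) +
        (303754988138512/1414812757478875)*(mul_nonneg (mul_nonneg dca hb.B2n) hb.r2n) +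
        (174372702546219/1414812757478875)*(mul_nonneg (mul_nonneg ((sub_pos.2 k4.RL)).le hb.B2n) hb.r1n) +
        (326879072382912/1414812757478875)*(mul_nonneg (mul_nonneg ((sub_pos.2 k0.Tw)).le hb.a2n) hb.r1n) +
        (9043516546116/282962551495775)*(mul_nonneg (mul_nonneg ((sub_pos.2 k3.RL)).le hb.B2n) hb.Tp1) +
        (6531367403754/282962551495775)*(mul_nonneg (mul_nonneg ((sub_pos.2 k4.RL)).le hb.a2n) hb.c21) +
        (37432405551408/1414812757478875)*(mul_nonneg ((sub_pos.2 k3.RL)).le hb.Tp1) +
        (137115529540747/848887654487325)*(mul_nonneg (mul_nonneg dca (hb.TR1).le) (hb.RB1).le) +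
        (289327914748968/1414812757478875)*(mul_nonneg (mul_nonneg hb.b2n hb.r1n) d22) +
        (49729664529864/1414812757478875)*(mul_nonneg (mul_nonneg ((sub_pos.2 k0.RL)).le hb.r1n) d22) +
        (151877494069256/1414812757478875)*(mul_nonneg (mul_nonneg ((sub_pos.2 k1.TB)).le hb.A2n) d22) +
        (261771585909928/1414812757478875)*(mul_nonneg (mul_nonneg (hb.TR1).le hb.a2n) hb.A2n) +
        (206057036002484/1414812757478875)*(mul_nonneg (mul_nonneg dca hb.a2n) d22) +
        (161640369529156/1414812757478875)*(mul_nonneg (mul_nonneg dca hb.Tp1) hb.c21) +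
        (218477991334274/1414812757478875)*(mul_nonneg (mul_nonneg dca (hb.RB1).le) hb.c21) +
        (62653488269384/1414812757478875)*(mul_nonneg (mul_nonneg ((sub_pos.2 k3.RL)).le hb.r1n) hb.c21) +
        (83508002919008/282962551495775)*(mul_nonneg (mul_nonneg ((sub_pos.2 k0.Tw)).le hb.a2n) hb.c21) +
        (42517016395372/282962551495775)*(mul_nonneg (mul_nonneg ((sub_pos.2 k3.TL)).le hb.c21) d22) +
        (52976549259368/282962551495775)*(mul_nonneg (mul_nonneg dca (hb.RB1).le) hb.r2n) +
        (99459329059728/1414812757478875)*(mul_nonneg (mul_nonneg ((sub_pos.2 k0.Tw)).le hb.r1n) hb.r2n) +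
        (6222449404777/1414812757478875)*(mul_nonneg (mul_nonneg hb.qout (hb.TR1).le) d22) +
        (42122906577503/1414812757478875)*(mul_nonneg (mul_nonneg ((sub_pos.2 k4.RL)).le hb.B1n) hb.Lp1) +
        (56091428627356/1414812757478875)*(mul_nonneg (mul_nonneg hb.A2n hb.A2n) hb.B2n) +
        (42122906577503/1414812757478875)*(mul_nonneg (mul_nonneg ((sub_pos.2 k4.RL)).le hb.B1n) hb.r1n) +
        (484921108587468/1414812757478875)*(mul_nonneg (mul_nonneg hb.a1n hb.A2n) hb.Lp1) +
        (926259666161449/8488876544873250)*(mul_nonneg ((sub_pos.2 k1.TL)).le dca) +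
        (101592116928632/282962551495775)*(mul_nonneg ((sub_pos.2 k0.Tw)).le hb.r2n) +
        (101592116928632/282962551495775)*(mul_nonneg (mul_nonneg hb.B1n hb.r2n) d22) +
        (220833733236976/1414812757478875)*(mul_nonneg (mul_nonneg (hb.RB1).le hb.A2n) hb.r2n) +
        (6710472005152/56592510299155)*(mul_nonneg (mul_nonneg ((sub_pos.2 k1.RL)).le hb.b2n) hb.B1n) +
        (82972700217934/1414812757478875)*(mul_nonneg ((mul_pos (sub_pos.2 k4.RL) hb.TR1)).le hb.B1n) +
        (586378200261736/1414812757478875)*(mul_nonneg (mul_nonneg hb.b2n hb.B2n) hb.r2n) +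
        (76500960103687/1414812757478875)*(mul_nonneg (mul_nonneg ((sub_pos.2 k4.RL)).le hb.B2n) hb.c21) +
        (1157311658995872/1414812757478875)*(mul_nonneg hb.b2n hb.r2n) +
        (303754988138512/1414812757478875)*(mul_nonneg (mul_nonneg ((sub_pos.2 k0.Tw)).le hb.a2n) hb.r2n) +
        (151877494069256/1414812757478875)*(mul_nonneg (mul_nonneg ((sub_pos.2 k3.RB)).le hb.r2n) d22) +
        (303754988138512/1414812757478875)*(mul_nonneg (mul_nonneg hb.a2n hb.b2n) hb.A2n) +
        (573870281926528/1414812757478875)*(mul_nonneg (mul_nonneg dca hb.r2n) hb.r2n) +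
        (75938747034628/1414812757478875)*(mul_nonneg (mul_nonneg ((sub_pos.2 k1.RL)).le hb.a2n) d22) +
        (31906269850528/1414812757478875)*(mul_nonneg ((mul_pos (sub_pos.2 k1.RL) hb.RB1)).le hb.a1n) +
        (95718809551584/1414812757478875)*(mul_nonneg (mul_nonneg hb.a1n hb.a1n) d22) +
        (31906269850528/1414812757478875)*(mul_nonneg (mul_nonneg ((sub_pos.2 k1.TL)).le hb.a1n) hb.c12) +
        (425272568811443/4244438272436625)*(mul_nonneg ((mul_pos (sub_pos.2 k3.RL) hb.TR1)).le hb.a2n) +
        (6026243041159/282962551495775)*(mul_nonneg ((mul_pos (sub_pos.2 k0.RL) hb.RB1)).le hb.A2n) +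
        (92732261093263/282962551495775)*(mul_nonneg ((sub_pos.2 k3.TL)).le hb.b2n) +
        (281302681780408/1414812757478875)*(mul_nonneg (mul_nonneg ((sub_pos.2 k1.RL)).le hb.A2n) hb.B2n) +
        (193375422079187/1414812757478875)*(mul_nonneg (mul_nonneg hb.b2n hb.A2n) hb.r1n) +
        (75938747034628/1414812757478875)*(mul_nonneg (mul_nonneg dca (hb.TR1).le) hb.r2n) +
        (494508385527376/1414812757478875)*(mul_nonneg (mul_nonneg hb.A2n hb.r2n) hb.Lp1) +
        (56091428627356/1414812757478875)*(mul_nonneg (mul_nonneg hb.A2n hb.B2n) hb.B2n) +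
        (75938747034628/1414812757478875)*(mul_nonneg (mul_nonneg ((sub_pos.2 k1.RL)).le hb.a2n) hb.b2n) +
        (86034811777978/282962551495775)*(mul_nonneg (mul_nonneg dca hb.b2n) hb.r1n) +
        (135695887564456/1414812757478875)*(mul_nonneg (mul_nonneg hb.b2n hb.A2n) hb.B2n) +
        (33153109686576/1414812757478875)*(mul_nonneg (mul_nonneg ((sub_pos.2 k0.RL)).le hb.b2n) hb.c12) +
        (1412605266447/11318502059831)*(mul_nonneg (mul_nonneg hb.A2n hb.r1n) d22) +
        (2308799564758/4244438272436625)*(mul_nonneg (mul_nonneg hb.qout hb.A2n) hb.B1n) +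
        (102529478378354/1414812757478875)*(mul_nonneg (mul_nonneg hb.A2n hb.B1n) d22) +
        (11151191032084/56592510299155)*(mul_nonneg (mul_nonneg dca hb.B2n) hb.B2n) +
        (447811521554032/4244438272436625)*(mul_nonneg (mul_nonneg ((sub_pos.2 k3.TL)).le hb.a2n) hb.a2n) +
        (81776268986816/1414812757478875)*(mul_nonneg (mul_nonneg ((sub_pos.2 k0.Tw)).le hb.a1n) hb.c21) +
        (23929702387896/1414812757478875)*(mul_nonneg (mul_nonneg ((sub_pos.2 k4.RL)).le hb.a1n) hb.a2n) +
        (81483078427358/1414812757478875)*(mul_nonneg (mul_nonneg ((sub_pos.2 k4.RL)).le hb.a2n) hb.B2n) +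
        (380630363106372/1414812757478875)*(mul_pos (sub_pos.2 k1.TL) hb.TR1) +
        (515064782288381/4244438272436625)*(mul_nonneg (mul_nonneg dca (hb.TR1).le) hb.A2n) +
        (52441745116428/282962551495775)*(mul_nonneg ((sub_pos.2 k0.Tw)).le hb.a2n) +
        (28544677958261/4244438272436625)*(mul_nonneg (mul_nonneg ((sub_pos.2 k3.RL)).le hb.a2n) hb.c21) +
        (1115616523600909/8488876544873250)*(mul_nonneg (mul_nonneg dca hb.a1n) hb.b2n) +
        (47859404775792/1414812757478875)*(mul_nonneg (mul_nonneg ((sub_pos.2 k4.RL)).le hb.a2n) hb.r1n) +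
        (52956133732988/282962551495775)*(mul_nonneg (mul_nonneg dca hb.B2n) hb.c21) +
        (1991730382282/33955506179493)*(mul_nonneg (mul_nonneg ((sub_pos.2 k0.RL)).le hb.A1n) hb.A2n) +
        (246657498220492/4244438272436625)*(mul_nonneg (mul_nonneg ((sub_pos.2 k0.RL)).le hb.A2n) hb.B1n) +
        (77106081853469/4244438272436625)*(mul_nonneg (mul_nonneg dca hb.a2n) hb.Tp1) +
        (93929977250444/1414812757478875)*(mul_nonneg ((sub_pos.2 k1.TL)).le hb.c21) +
        (136478960801416/1414812757478875)*(mul_pos (sub_pos.2 k0.Tw) hb.TR1) +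
        (19122780717432/1414812757478875)*(mul_nonneg ((mul_pos (sub_pos.2 k0.Tw) hb.TR1)).le hb.a1n) +
        (3862869725932/282962551495775)*(mul_nonneg (mul_nonneg ((sub_pos.2 k0.Tw)).le hb.B2n) hb.r2n) +
        (119173340834464/1414812757478875)*(mul_nonneg (mul_nonneg hb.c21 d22) d22) +
        (130303639181546/4244438272436625)*(mul_nonneg (mul_nonneg hb.qout hb.A2n) d22) +
        (62653488269384/1414812757478875)*(mul_nonneg ((mul_pos (sub_pos.2 k1.RL) hb.TR1)).le hb.B1n) +
        (49729664529864/1414812757478875)*(mul_nonneg (mul_nonneg ((sub_pos.2 k2.TB)).le hb.B2n) hb.Lp1) +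
        (33153109686576/1414812757478875)*(mul_nonneg (mul_nonneg ((sub_pos.2 k0.RL)).le hb.b2n) hb.B2n) +
        (189259701498184/4244438272436625)*(mul_nonneg ((sub_pos.2 k0.Tw)).le hb.c21) +
        (12930047364102/1414812757478875)*(mul_nonneg (mul_nonneg ((sub_pos.2 k0.Tw)).le hb.a2n) hb.B2n) +
        (55208433309244/1414812757478875)*(mul_nonneg ((mul_pos hb.TR1 hb.RB1)).le hb.A2n) +
        (63997419808394/4244438272436625)*(mul_nonneg (mul_nonneg ((sub_pos.2 k0.Tw)).le hb.B2n) hb.c21) +
        (9043516546116/282962551495775)*(mul_nonneg (mul_nonneg ((sub_pos.2 k3.RB)).le hb.A2n) hb.c21) +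
        (155151258769812/1414812757478875)*(mul_nonneg (mul_nonneg ((sub_pos.2 k3.RL)).le hb.r1n) d22) +
        (24560773553328/1414812757478875)*(mul_nonneg (mul_nonneg (hb.RB1).le hb.A2n) hb.c21) +
        (395494747822761/2829625514957750)*(mul_nonneg ((sub_pos.2 k3.RL)).le hb.c21) +
        (152081500934072/1414812757478875)*(mul_nonneg (mul_nonneg hb.a1n hb.A2n) d22) +
        (202664232474112/4244438272436625)*(mul_nonneg (mul_nonneg hb.qout hb.A2n) hb.r2n) +
        (502464461279816/1414812757478875)*(mul_nonneg (mul_nonneg dca hb.b2n) hb.B1n) +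
        (10565888007644/1414812757478875)*(mul_nonneg (mul_nonneg ((sub_pos.2 k3.RL)).le hb.B2n) hb.r2n) +
        (41196091715912/1414812757478875)*(mul_nonneg (mul_nonneg ((sub_pos.2 k4.RL)).le hb.B2n) hb.B2n) +
        (3088603441952/56592510299155)*(mul_nonneg (mul_nonneg dca (hb.TR1).le) hb.B1n) +
        (3088603441952/56592510299155)*(mul_nonneg (mul_nonneg dca hb.B1n) hb.c21) +
        (51645956083242/1414812757478875)*(mul_nonneg (mul_nonneg ((sub_pos.2 k4.RL)).le hb.B1n) hb.c21) +
        (37969373517314/1414812757478875)*(mul_nonneg (mul_nonneg ((sub_pos.2 k1.RL)).le hb.c21) hb.c21) +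
        (295336376505992/1414812757478875)*(mul_nonneg (mul_nonneg hb.a1n hb.r2n) d22) +
        (47072398915482/1414812757478875)*(mul_nonneg (mul_nonneg dca hb.B2n) hb.r1n) +
        (389791775434072/1414812757478875)*(mul_nonneg (mul_nonneg dca hb.a1n) hb.A2n) +
        (239828154419399/1414812757478875)*(mul_nonneg (mul_nonneg (hb.RB1).le hb.B2n) d22) +
        (135057646894008/1414812757478875)*(mul_nonneg (mul_nonneg ((sub_pos.2 k2.TB)).le hb.a2n) hb.r2n) +
        (7809352491678/1414812757478875)*(mul_nonneg (mul_nonneg hb.B1n hb.B2n) d22) +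
        (75938747034628/1414812757478875)*(mul_nonneg ((mul_pos (sub_pos.2 k1.RL) hb.TR1)).le hb.c21) +
        (5779499649167/282962551495775)*(mul_nonneg ((mul_pos (sub_pos.2 k4.RL) hb.TR1)).le hb.B2n) +
        (8756474215976/1414812757478875)*(mul_nonneg (mul_nonneg (hb.TR1).le hb.A2n) d22) +
        (238346681668928/1414812757478875)*(mul_nonneg (mul_nonneg hb.r2n hb.Tp1) d22) +
        (119173340834464/1414812757478875)*(mul_nonneg (mul_nonneg hb.r1n d22) d22) +
        (66306219373152/1414812757478875)*(mul_nonneg (mul_nonneg ((sub_pos.2 k0.RL)).le hb.b2n) hb.r1n) +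
        (201923186033592/1414812757478875)*(mul_nonneg (mul_nonneg hb.a2n hb.Tp1) d22) +
        (2308799564758/4244438272436625)*(mul_nonneg (mul_nonneg ((sub_pos.2 k0.Tw)).le hb.A1n) hb.B2n) +
        (4617599129516/4244438272436625)*(mul_nonneg (mul_nonneg hb.A2n hb.B1n) hb.B1n) +
        (5525518281096/1414812757478875)*(mul_nonneg ((mul_pos (sub_pos.2 k2.TB) hb.RB1)).le hb.B1n) +
        (33153109686576/1414812757478875)*(mul_nonneg (mul_nonneg ((sub_pos.2 k0.Tw)).le hb.r1n) hb.c21) +
        (4378237107988/1414812757478875)*(mul_nonneg ((mul_pos hb.TR1 hb.TR1)).le hb.A2n) +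
        (53446659915789/2829625514957750)*(mul_nonneg ((mul_pos (sub_pos.2 k4.RL) hb.TR1)).le hb.r1n) +
        (53446659915789/2829625514957750)*(mul_nonneg ((sub_pos.2 k4.RL)).le hb.r1n) +
        (30143673700913/4244438272436625)*(mul_nonneg (mul_nonneg dca (hb.TR1).le) hb.b1n) +
        (48495961244328/1414812757478875)*(mul_nonneg ((mul_pos (sub_pos.2 k4.RL) hb.TR1)).le hb.a2n) +
        (53446659915789/2829625514957750)*(mul_nonneg (mul_nonneg ((sub_pos.2 k4.RL)).le hb.r1n) hb.c21) +
        (250740845690749/1414812757478875)*(mul_nonneg dca (hb.RB1).le) +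
        (37969373517314/1414812757478875)*(mul_pos (mul_pos (sub_pos.2 k1.RL) hb.TR1) hb.TR1) +
        (238346681668928/1414812757478875)*(mul_nonneg (mul_nonneg hb.A2n hb.r2n) d22) +
        (102211715109628/4244438272436625)*(mul_nonneg (mul_nonneg hb.qout hb.a2n) hb.A2n) +
        (172178296362136/1414812757478875)*(sub_pos.2 k0.Tw) +
        (36961569780764/1414812757478875)*(mul_nonneg (mul_nonneg ((sub_pos.2 k4.RL)).le hb.a1n) hb.B2n) +
        (343301541439904/1414812757478875)*(mul_nonneg (mul_nonneg hb.b2n hb.B1n) hb.r2n) +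
        (13162479024599/282962551495775)*(mul_nonneg (mul_nonneg (hb.TR1).le hb.B2n) d22) +
        (9043516546116/282962551495775)*(mul_nonneg (mul_nonneg ((sub_pos.2 k3.RL)).le hb.A2n) hb.r1n) +
        (63812539701056/1414812757478875)*(mul_nonneg (mul_nonneg ((sub_pos.2 k1.TB)).le hb.a1n) hb.A2n) +
        (969005298369776/4244438272436625)*(mul_nonneg (mul_nonneg dca hb.a2n) hb.c21) +
        (22489257211292/1414812757478875)*(mul_nonneg (mul_nonneg ((sub_pos.2 k3.TL)).le hb.a1n) hb.r2n) +
        (2469678963076/1414812757478875)*(mul_nonneg (mul_nonneg ((sub_pos.2 k4.RL)).le hb.a2n) d22) +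
        (238346681668928/1414812757478875)*(mul_nonneg (mul_nonneg hb.B2n hb.r2n) d22) +
        (84348670622252/1414812757478875)*(mul_nonneg ((mul_pos (sub_pos.2 k1.RL) hb.TR1)).le hb.r2n) +
        (82392183431824/1414812757478875)*(mul_nonneg ((sub_pos.2 k3.TL)).le hb.B2n) +
        (17400137173423/1414812757478875)*(mul_pos (mul_pos (sub_pos.2 k3.RL) hb.TR1) hb.RB1) +
        (22102073124384/1414812757478875)*(mul_nonneg (mul_nonneg ((sub_pos.2 k1.RL)).le hb.B1n) hb.B2n) +
        (135057646894008/1414812757478875)*(mul_nonneg (mul_nonneg hb.a2n d22) d22) +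
        (355084196162696/4244438272436625)*(mul_nonneg (mul_nonneg hb.A2n hb.B1n) hb.B2n) +
        (34071917290684/848887654487325)*(mul_nonneg (mul_nonneg dca hb.a2n) hb.b2n) +
        (135057646894008/1414812757478875)*(mul_nonneg (mul_nonneg hb.a2n hb.b2n) d22) +
        (2469678963076/1414812757478875)*(mul_nonneg (mul_nonneg ((sub_pos.2 k4.RL)).le hb.a2n) hb.b2n) +
        (44204146248768/1414812757478875)*(mul_nonneg (mul_nonneg hb.a1n hb.A2n) hb.B1n) +
        (44204146248768/1414812757478875)*(mul_nonneg (mul_nonneg dca hb.B1n) hb.B2n) +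
        (16658623884652/1414812757478875)*(mul_nonneg (mul_nonneg (hb.RB1).le hb.A2n) hb.r1n) +
        (81946380627776/4244438272436625)*(mul_nonneg ((mul_pos (sub_pos.2 k0.Tw) hb.TR1)).le hb.r1n) +
        (127994839616788/4244438272436625)*(mul_nonneg (mul_nonneg hb.A2n hb.B1n) hb.r1n) +
        (22102073124384/1414812757478875)*(mul_nonneg (mul_nonneg ((sub_pos.2 k2.TB)).le hb.A1n) hb.B2n) +
        (44204146248768/1414812757478875)*(mul_nonneg (mul_nonneg hb.qout hb.A2n) hb.r1n) +
        (22102073124384/1414812757478875)*(mul_nonneg (mul_nonneg hb.qout (hb.TR1).le) hb.A2n) +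
        (33392572151559/1414812757478875)*(mul_nonneg (mul_nonneg hb.qout (hb.RB1).le) d22) +
        (132942586010262/1414812757478875)*(mul_nonneg (mul_nonneg hb.a1n hb.c21) d22) +
        (84348670622252/1414812757478875)*(mul_nonneg (mul_nonneg ((sub_pos.2 k1.TL)).le hb.r2n) hb.c21) +
        (18081210106559/282962551495775)*(mul_nonneg ((sub_pos.2 k4.RL)).le hb.B2n) +
        (65575135850671/4244438272436625)*(mul_nonneg (mul_nonneg dca hb.a1n) hb.c21) +
        (3862869725932/282962551495775)*(mul_nonneg (mul_nonneg hb.B2n hb.B2n) d22) +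
        (17512948431952/4244438272436625)*(mul_nonneg (mul_nonneg ((sub_pos.2 k0.Tw)).le hb.c21) hb.c21) +
        (16819847175248/1414812757478875)*(mul_nonneg (mul_nonneg ((sub_pos.2 k1.RL)).le hb.a2n) hb.r2n) +
        (17512948431952/1414812757478875)*(mul_nonneg ((mul_pos (sub_pos.2 k2.Rw) hb.RB1)).le hb.A2n) +
        (30657190972262/1414812757478875)*(mul_nonneg (mul_nonneg hb.A2n hb.r1n) hb.r2n) +
        (17512948431952/4244438272436625)*(mul_nonneg ((mul_pos (sub_pos.2 k0.Tw) hb.TR1)).le hb.Tp1) +
        (29500378582808/1414812757478875)*(mul_nonneg (mul_nonneg (hb.TR1).le hb.B1n) d22) +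
        (5525518281096/1414812757478875)*(mul_nonneg (mul_nonneg ((sub_pos.2 k2.TB)).le hb.B1n) hb.c12) +
        (8756474215976/1414812757478875)*(mul_nonneg (mul_nonneg ((sub_pos.2 k2.TB)).le hb.c21) hb.c21) +
        (61688620243636/4244438272436625)*(mul_nonneg (mul_nonneg hb.A2n hb.B2n) hb.c21) +
        (41323282489764/1414812757478875)*(mul_nonneg (mul_nonneg ((sub_pos.2 k1.TL)).le hb.a1n) hb.B2n) +
        (75930058989732/1414812757478875)*(mul_nonneg ((sub_pos.2 k1.TL)).le hb.r2n) +
        (8756474215976/1414812757478875)*(mul_nonneg ((mul_pos (sub_pos.2 k2.TB) hb.TR1)).le hb.c21) +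
        (5055299930236/1414812757478875)*(mul_nonneg (mul_nonneg ((sub_pos.2 k3.TL)).le hb.a1n) hb.a2n) +
        (8756474215976/1414812757478875)*(mul_nonneg ((sub_pos.2 k2.TB)).le hb.c21) +
        (25960213421561/4244438272436625)*(mul_nonneg ((mul_pos (sub_pos.2 k0.RL) hb.TR1)).le hb.A2n) +
        (47381818556261/2829625514957750)*(mul_nonneg ((sub_pos.2 k4.RL)).le dca) +
        (6104119486944/282962551495775)*(mul_nonneg (mul_nonneg dca hb.B1n) hb.r2n) +
        (12610541358988/1414812757478875)*(mul_nonneg (mul_nonneg ((sub_pos.2 k3.RL)).le hb.a2n) hb.r1n) +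
        (21900716756286/1414812757478875)*(mul_nonneg hb.A2n hb.r1n) +
        (2165619890653/2829625514957750)*(mul_nonneg (mul_nonneg ((sub_pos.2 k3.RL)).le hb.c21) hb.c21) +
        (15325976945249/8488876544873250)*(mul_nonneg dca dca) +
        (1154399782379/4244438272436625)*(mul_nonneg ((mul_pos (sub_pos.2 k0.Tw) hb.TR1)).le hb.B1n) +
        (1154399782379/4244438272436625)*(mul_nonneg (mul_nonneg ((sub_pos.2 k0.Tw)).le hb.B1n) hb.c21) +
        (1154399782379/8488876544873250)*(mul_nonneg (mul_nonneg ((sub_pos.2 k0.Tw)).le hb.B1n) hb.Lp1) +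
        (1154399782379/8488876544873250)*(mul_nonneg (mul_nonneg ((sub_pos.2 k0.Tw)).le hb.B1n) hb.r1n))

theorem K66 {c1 c2 a1 a2 B1 B2 r1 r2 : ℝ} (hb : Base c1 c2 a1 a2 B1 B2 r1 r2) (dca : 0 ≤ c2*a1-c1*a2) (k0 : Y1 c1 (2-c2) B1 B2 (2-c1-B1) (2-(2-c2)-B2) a1 a2) (k1 : Y1 c1 c2 a1 a2 c1 c2 r1 r2) (k2 : Y1 c1 c2 a1 a2 c1 c2 (2-c1-B1) (c2-B2)) (k3 : Y1 c1 (2-c2) B1 B2 B1 B2 (2-a1-r1) (-(a2-r2))) (k4 : Y1 c1 c2 a1 a2 a1 a2 B1 B2) : False := by
  exact lt_irrefl (0:ℝ) (by
      linear_combination
        (1095570663/15129968602)*(sub_pos.2 k2.RL) +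
        (24928963399/211819560428)*(sub_pos.2 k3.Tw) +
        (477315248/52954890107)*(mul_nonneg hb.pB2 hb.pB2) +
        (12564424261/211819560428)*(sub_pos.2 k0.TB) +
        (25555140223/105909780214)*(mul_nonneg (mul_nonneg ((sub_pos.2 k4.TL)).le hb.Tp1) hb.c21) +
        (27789319837/211819560428)*(mul_nonneg ((sub_pos.2 k1.RL)).le hb.qout) +
        (9513204223/105909780214)*(mul_nonneg (mul_nonneg ((sub_pos.2 k2.RL)).le hb.r2n) hb.c21) +
        (9852904535/158864670321)*(mul_nonneg (mul_nonneg hb.A2n hb.pB2) hb.c21) +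
        (12748428565/211819560428)*(mul_pos (mul_pos (sub_pos.2 k0.TB) hb.TR1) hb.RB1) +
        (62933916/52954890107)*(mul_nonneg (mul_nonneg hb.pin hb.a2n) hb.A2n) +
        (48789274/7564984301)*(mul_nonneg ((mul_pos (sub_pos.2 k4.TL) hb.TR1)).le hb.r2n) +
        (2070471759/15129968602)*(mul_nonneg (mul_nonneg ((sub_pos.2 k0.TB)).le hb.r1n) hb.c21) +
        (3238807855/52954890107)*(mul_nonneg (mul_nonneg hb.pin hb.B1n) hb.c21) +
        (2190767309/211819560428)*(mul_nonneg (mul_nonneg ((sub_pos.2 k2.RL)).le hb.r1n) hb.c21) +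
        (6238958086/52954890107)*(mul_nonneg (mul_nonneg (hb.TR1).le hb.B1n) hb.Tp1) +
        (1225215368/52954890107)*(mul_nonneg (mul_nonneg (hb.TR1).le hb.a2n) hb.Tp1) +
        (146366712/52954890107)*(mul_nonneg (mul_nonneg ((sub_pos.2 k4.RL)).le hb.pB2) hb.c21) +
        (51828599041/317729340642)*(mul_nonneg (mul_nonneg hb.b2n hb.Tp1) hb.c21) +
        (66303320/7564984301)*(mul_nonneg (mul_nonneg ((sub_pos.2 k0.TB)).le hb.r2n) hb.c21) +
        (5593787617/52954890107)*(mul_nonneg (mul_nonneg hb.Tp1 hb.c21) hb.c21) +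
        (6796250173/423639120856)*(mul_nonneg (mul_nonneg ((sub_pos.2 k2.RL)).le hb.c21) hb.c21) +
        (28288377647/105909780214)*(mul_pos (sub_pos.2 k4.TL) hb.TR1) +
        (2580965953/52954890107)*(mul_nonneg (hb.TR1).le hb.pB2) +
        (3211271573/52954890107)*(mul_nonneg (mul_nonneg ((sub_pos.2 k0.TB)).le hb.A2n) hb.B2n) +
        (2053073465/52954890107)*(mul_nonneg ((mul_pos (sub_pos.2 k4.RB) hb.RB1)).le hb.Tp1) +
        (17713171509/423639120856)*(mul_nonneg (mul_nonneg ((sub_pos.2 k2.RL)).le hb.Lp1) hb.Lp1) +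
        (3697487935/30259937204)*(mul_pos (sub_pos.2 k3.Tw) hb.TR1) +
        (248466154/52954890107)*(mul_pos (sub_pos.2 k0.TB) (k1.pos hb.pc2.le)) +
        (8613810404/52954890107)*(mul_nonneg (mul_nonneg (hb.TR1).le hb.B2n) hb.Tp1) +
        (7001273641/317729340642)*(mul_nonneg (mul_nonneg (hb.RB1).le hb.pB2) hb.c21) +
        (3211271573/52954890107)*(mul_nonneg (mul_nonneg ((sub_pos.2 k0.TB)).le hb.B2n) hb.B2n) +
        (1451232375/52954890107)*(mul_nonneg (mul_nonneg hb.pin (hb.TR1).le) hb.B1n) +
        (5842798027/105909780214)*(mul_nonneg (mul_nonneg ((sub_pos.2 k1.RL)).le hb.B1n) hb.Tp1) +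
        (5823815741/105909780214)*(mul_nonneg (mul_nonneg hb.qout hb.r1n) hb.Tp1) +
        (8625370213/105909780214)*(mul_nonneg (mul_nonneg ((sub_pos.2 k2.RL)).le hb.b2n) hb.r2n) +
        (25290326121/105909780214)*(sub_pos.2 k4.TL) +
        (8625370213/105909780214)*(mul_nonneg (mul_nonneg ((sub_pos.2 k2.RL)).le hb.a2n) hb.r2n) +
        (6340072539/52954890107)*(mul_nonneg (mul_nonneg hb.b1n hb.Tp1) hb.c21) +
        (14990234621/211819560428)*(mul_nonneg (mul_nonneg ((sub_pos.2 k0.TB)).le hb.c21) hb.c21) +
        (1152757797/105909780214)*(mul_nonneg (mul_nonneg ((sub_pos.2 k1.RL)).le hb.B2n) hb.Tp1) +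
        (54138244/1080712043)*(mul_nonneg (mul_nonneg hb.a1n hb.Tp1) hb.c12) +
        (4115516331/105909780214)*(mul_nonneg (mul_nonneg (hb.TR1).le hb.pB2) hb.c12) +
        (2296121202/52954890107)*(mul_nonneg ((mul_pos hb.TR1 hb.TR1)).le hb.Tp1) +
        (1787575480/52954890107)*(mul_nonneg (mul_nonneg hb.pin hb.B1n) hb.r1n) +
        (29832203/105909780214)*(mul_nonneg (mul_nonneg ((sub_pos.2 k2.RL)).le hb.B2n) hb.c21) +
        (547556036/52954890107)*(mul_nonneg (mul_nonneg ((sub_pos.2 k4.TL)).le hb.r2n) hb.c21) +
        (62933916/52954890107)*(mul_nonneg (mul_nonneg hb.pin hb.a2n) hb.B2n) +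
        (51521395/15129968602)*(mul_nonneg ((mul_pos (sub_pos.2 k1.RL) hb.RB1)).le hb.Tp1) +
        (14876537471/211819560428)*(mul_nonneg (mul_nonneg ((sub_pos.2 k2.RL)).le hb.r1n) hb.c12) +
        (7630373507/105909780214)*(mul_nonneg (mul_nonneg ((sub_pos.2 k3.Tw)).le hb.r1n) hb.c21) +
        (182262728/52954890107)*(mul_nonneg (mul_nonneg ((sub_pos.2 k4.TL)).le hb.r2n) hb.r2n) +
        (953452146/52954890107)*(mul_nonneg (mul_nonneg ((sub_pos.2 k3.Tw)).le hb.b2n) hb.r1n) +
        (59664406/52954890107)*(mul_nonneg (mul_nonneg ((sub_pos.2 k3.Tw)).le hb.r2n) hb.c21) +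
        (3653105233/52954890107)*(mul_nonneg (mul_nonneg hb.A2n hb.Tp1) hb.c21) +
        (25716595533/105909780214)*(mul_nonneg ((sub_pos.2 k4.TL)).le hb.c21) +
        (9531416589/105909780214)*(mul_nonneg (mul_nonneg hb.qout hb.r2n) hb.Tp1) +
        (1304895677/211819560428)*(mul_pos (mul_pos (sub_pos.2 k2.RL) hb.TR1) hb.TR1) +
        (786213660/52954890107)*(mul_nonneg (mul_nonneg (hb.TR1).le hb.a2n) hb.pB2) +
        (19179899497/317729340642)*(mul_nonneg hb.pin hb.c21) +
        (1160691037/423639120856)*(mul_nonneg (mul_nonneg ((sub_pos.2 k2.RL)).le hb.r1n) hb.r1n) +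
        (7131415679/52954890107)*(mul_nonneg (mul_nonneg hb.A2n hb.Tp1) hb.Lp1) +
        (414084802/52954890107)*(mul_nonneg ((mul_pos (sub_pos.2 k2.Rw) hb.TR1)).le hb.pB2) +
        (30411018651/423639120856)*(mul_nonneg (mul_nonneg ((sub_pos.2 k3.Tw)).le hb.b1n) hb.c21) +
        (30411018651/423639120856)*(mul_nonneg (mul_nonneg ((sub_pos.2 k3.Tw)).le hb.a1n) hb.c21) +
        (215657086/52954890107)*(mul_nonneg ((mul_pos (sub_pos.2 k0.TB) hb.TR1)).le hb.r2n) +
        (119328812/52954890107)*(mul_nonneg (mul_nonneg hb.pin hb.B1n) hb.r2n) +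
        (2154179465/211819560428)*(mul_nonneg (mul_nonneg ((sub_pos.2 k2.RL)).le hb.r1n) hb.r2n) +
        (119328812/52954890107)*(mul_nonneg hb.pin ((k1.pos hb.pc2.le)).le) +
        (6422543146/52954890107)*(mul_nonneg ((sub_pos.2 k0.TB)).le hb.A2n) +
        (119328812/52954890107)*(mul_nonneg (mul_nonneg ((sub_pos.2 k0.TB)).le hb.r2n) hb.r2n) +
        (728092728/52954890107)*(mul_nonneg (mul_nonneg hb.b2n hb.r1n) hb.Tp1) +
        (468552298/52954890107)*(mul_nonneg (mul_nonneg hb.a1n hb.r2n) hb.Tp1) +
        (652958774/7564984301)*(mul_nonneg (mul_nonneg hb.pin hb.B2n) hb.r1n) +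
        (105041351/15129968602)*(mul_nonneg (mul_nonneg ((sub_pos.2 k4.RB)).le hb.Tp1) hb.c12) +
        (59664406/52954890107)*(mul_nonneg (mul_nonneg ((sub_pos.2 k1.RL)).le hb.r2n) hb.Tp1) +
        (5868194249/60519874408)*(mul_nonneg ((sub_pos.2 k2.RL)).le hb.c21) +
        (239552031/15129968602)*(mul_nonneg hb.pin hb.r1n) +
        (2951180240/52954890107)*(mul_nonneg (mul_nonneg hb.B1n hb.r1n) hb.Tp1) +
        (104026842/52954890107)*(mul_nonneg (mul_nonneg ((sub_pos.2 k1.TB)).le hb.a2n) hb.Tp1) +
        (12932044303/317729340642)*(mul_nonneg (mul_nonneg hb.a2n hb.Tp1) hb.c21) +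
        (2824924818/52954890107)*hb.pin +
        (866419298/52954890107)*(mul_nonneg (mul_nonneg hb.r2n hb.Tp1) hb.Tp1) +
        (866419298/52954890107)*(mul_nonneg (mul_nonneg hb.r1n hb.r1n) hb.pB2) +
        (208053684/52954890107)*(mul_nonneg (mul_nonneg hb.pin hb.a2n) hb.Lp1) +
        (3211271573/52954890107)*(mul_nonneg (mul_nonneg ((sub_pos.2 k0.TB)).le hb.b2n) hb.B2n) +
        (3211271573/52954890107)*(mul_nonneg (mul_nonneg ((sub_pos.2 k0.TB)).le hb.a2n) hb.B2n) +
        (1381987331/22694952903)*(mul_nonneg (mul_nonneg hb.B2n hb.pB2) hb.c21) +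
        (62933916/52954890107)*(mul_nonneg (mul_nonneg hb.pin hb.a2n) hb.r2n) +
        (2948465826/52954890107)*(mul_nonneg hb.B1n hb.pB2) +
        (646900655/52954890107)*(mul_nonneg (mul_nonneg (hb.TR1).le hb.r1n) hb.Tp1) +
        (62933916/52954890107)*(mul_nonneg (mul_nonneg ((sub_pos.2 k4.RL)).le hb.r2n) hb.pB2) +
        (31466958/52954890107)*(mul_nonneg (mul_nonneg ((sub_pos.2 k1.RL)).le hb.a2n) hb.pB2) +
        (59664406/52954890107)*(mul_nonneg (mul_nonneg ((sub_pos.2 k1.RL)).le hb.r1n) hb.pB2) +
        (13975115179/423639120856)*(mul_pos (sub_pos.2 k2.RL) hb.TR1) +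
        (218542670/52954890107)*(mul_nonneg (mul_nonneg hb.pin hb.a1n) hb.r1n) +
        (51521395/7564984301)*(mul_nonneg (mul_nonneg ((sub_pos.2 k1.RL)).le hb.b1n) hb.Tp1) +
        (5854705487/423639120856)*(mul_pos (mul_pos (sub_pos.2 k2.RL) hb.TR1) hb.RB1) +
        (1079530245/52954890107)*(mul_nonneg (mul_nonneg hb.r1n hb.Tp1) hb.c21) +
        (361205605/52954890107)*(mul_nonneg (mul_nonneg ((sub_pos.2 k4.TL)).le hb.Lp1) hb.Lp1) +
        (311985360/52954890107)*(mul_nonneg (mul_nonneg ((sub_pos.2 k0.TB)).le hb.r1n) hb.r1n) +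
        (155992680/52954890107)*(mul_nonneg (mul_nonneg ((sub_pos.2 k4.RB)).le hb.Tp1) hb.Lp1) +
        (218542670/52954890107)*(mul_nonneg (mul_nonneg hb.pin hb.a1n) hb.c21) +
        (316441110/52954890107)*(mul_nonneg (mul_nonneg hb.a1n hb.Tp1) hb.Tp1) +
        (56394896/52954890107)*(mul_nonneg (mul_nonneg hb.wout hb.r2n) hb.pB2) +
        (29832203/105909780214)*(mul_nonneg ((mul_pos (sub_pos.2 k2.RL) hb.TR1)).le hb.B2n) +
        (1331903563/52954890107)*(mul_nonneg (mul_nonneg hb.B1n hb.pB2) hb.c21) +
        (953452146/52954890107)*(mul_nonneg (mul_nonneg ((sub_pos.2 k3.Tw)).le hb.a2n) hb.r1n) +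
        (389993753/52954890107)*(mul_nonneg (mul_nonneg hb.B2n hb.r1n) hb.pB2) +
        (191341130/52954890107)*(mul_nonneg (mul_nonneg hb.b1n hb.r1n) hb.Tp1) +
        (11987717/1080712043)*(mul_nonneg ((mul_pos (sub_pos.2 k4.TL) hb.TR1)).le hb.c21) +
        (290239536/52954890107)*(mul_nonneg (mul_nonneg hb.b2n hb.r2n) hb.Tp1) +
        (91811820/52954890107)*(mul_nonneg (mul_nonneg hb.a1n hb.r2n) hb.pB2) +
        (51521395/15129968602)*(mul_nonneg ((mul_pos (sub_pos.2 k1.TB) hb.TR1)).le hb.Tp1) +
        (59664406/52954890107)*(mul_nonneg (mul_nonneg ((sub_pos.2 k3.RL)).le hb.A2n) hb.pB2) +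
        (10488986/52954890107)*(mul_nonneg (mul_nonneg hb.pin hb.a1n) hb.r2n) +
        (476726073/105909780214)*(mul_pos (mul_pos (sub_pos.2 k3.Tw) hb.TR1) hb.TR1) +
        (15253205/7564984301)*(mul_nonneg (mul_nonneg ((sub_pos.2 k4.TL)).le hb.r1n) hb.r1n) +
        (59664406/52954890107)*(mul_nonneg (mul_nonneg ((sub_pos.2 k3.RB)).le hb.B2n) hb.pB2) +
        (1096385145/105909780214)*(mul_nonneg (mul_nonneg hb.r2n hb.Tp1) hb.c12) +
        (29832203/52954890107)*(mul_nonneg (mul_nonneg ((sub_pos.2 k2.RL)).le hb.B2n) hb.r2n) +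
        (271755452/52954890107)*(mul_nonneg (mul_nonneg hb.a2n hb.pB2) hb.c21) +
        (3226017959/847278241712)*(mul_nonneg ((mul_pos (sub_pos.2 k3.Tw) hb.RB1)).le hb.c21) +
        (119328812/52954890107)*(mul_nonneg (mul_nonneg hb.A2n hb.B2n) hb.pB2) +
        (89496609/105909780214)*(mul_nonneg ((sub_pos.2 k2.RL)).le hb.A2n) +
        (10488986/52954890107)*(mul_nonneg (mul_nonneg hb.a1n hb.r1n) hb.pB2) +
        (111217826/52954890107)*(mul_nonneg (mul_nonneg ((sub_pos.2 k4.TL)).le hb.c21) hb.c21) +
        (125689215/52954890107)*(mul_nonneg (mul_nonneg ((sub_pos.2 k4.RB)).le hb.b1n) hb.Tp1) +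
        (251378430/52954890107)*(mul_nonneg (mul_nonneg hb.a1n hb.b1n) hb.Tp1) +
        (251378430/52954890107)*(mul_nonneg (mul_nonneg ((sub_pos.2 k1.Rw)).le hb.a1n) hb.Tp1) +
        (251378430/52954890107)*(mul_nonneg (mul_nonneg hb.a1n hb.a2n) hb.Tp1) +
        (125689215/52954890107)*(mul_nonneg (mul_nonneg ((sub_pos.2 k4.TL)).le hb.a1n) hb.Tp1) +
        (5244493/52954890107)*(mul_nonneg (mul_nonneg ((sub_pos.2 k1.TB)).le hb.a1n) hb.pB2) +
        (8202267/52954890107)*(mul_pos (mul_pos (sub_pos.2 k4.TL) hb.TR1) hb.TR1) +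
        (366839871/847278241712)*(mul_nonneg ((mul_pos (sub_pos.2 k3.Tw) hb.TR1)).le hb.c21))

theorem K50 {c1 c2 a1 a2 B1 B2 r1 r2 : ℝ} (hb : Base c1 c2 a1 a2 B1 B2 r1 r2) (dca : 0 ≤ c2*a1-c1*a2) (k0 : Y1 c1 (2-c2) B1 B2 (2-c1-B1) (2-(2-c2)-B2) a1 a2) (k1 : Y1 c1 c2 a1 a2 (2-c1-a1) (2-c2-a2) r1 r2) (k2 : Y1 c1 (2-c2) B1 B2 (2-c1-B1) (2-(2-c2)-B2) (r1-c1) (2-c2-r2)) (k3 : Y1 c1 c2 a1 a2 a1 a2 (2-a1-r1) (a2-r2)) (o0 : 0 ≤ 2-a1-r1) : False := by
  rcases le_total 0 (c2*a1-c1*a2) with s | s
  · linarith [(mul_nonneg (mul_nonneg s hb.b2n) hb.A1n),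
    (mul_nonneg (mul_nonneg hb.wout (hb.RB1).le) hb.A2n),
    (mul_nonneg (mul_nonneg s hb.A2n) o0),
    (mul_pos (sub_pos.2 k1.TB) (k0.pos hb.A2n_)),
    (mul_nonneg (mul_nonneg s hb.A2n) hb.Tp1),
    (mul_nonneg ((sub_pos.2 k2.TB)).le hb.wout),
    (mul_nonneg (mul_nonneg hb.wout (hb.TR1).le) hb.A1n),
    (mul_nonneg hb.qout hb.wout),
    (mul_nonneg (mul_nonneg hb.wout hb.A1n) hb.c21),
    (mul_nonneg (mul_nonneg ((sub_pos.2 k3.RL)).le hb.b1n) hb.A2n),
    (mul_nonneg (mul_nonneg hb.wout (hb.TR1).le) hb.A2n),
    (mul_nonneg (mul_nonneg ((sub_pos.2 k3.RL)).le hb.b2n) hb.A1n),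
    (mul_nonneg ((sub_pos.2 k0.TB)).le hb.wout)]
  · linarith [(mul_nonneg ((sub_pos.2 k0.TB)).le (neg_nonneg.2 s)),
    (mul_nonneg hb.qout (neg_nonneg.2 s)),
    (mul_nonneg (mul_nonneg hb.qout hb.a2n) hb.c21),
    (mul_nonneg ((mul_pos (sub_pos.2 k0.TB) hb.RB1)).le hb.c21),
    (mul_nonneg ((sub_pos.2 k2.TB)).le hb.wout),
    (mul_nonneg (mul_nonneg ((sub_pos.2 k0.Rw)).le hb.b2n) hb.c21),
    (mul_pos (sub_pos.2 k1.TB) (k0.pos hb.A2n_)),
    (mul_nonneg (mul_nonneg hb.qout (hb.RB1).le) hb.c21),
    (mul_nonneg (mul_nonneg hb.wout (hb.TR1).le) hb.A2n),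
    (mul_nonneg ((sub_pos.2 k0.TB)).le hb.wout),
    (mul_nonneg (mul_nonneg ((sub_pos.2 k3.RL)).le hb.A2n) o0),
    (mul_nonneg (mul_nonneg ((sub_pos.2 k3.RL)).le hb.b2n) hb.A1n),
    (mul_nonneg (mul_nonneg ((sub_pos.2 k3.RL)).le hb.A2n) hb.Tp1),
    (mul_nonneg (mul_nonneg hb.wout hb.A1n) hb.c21),
    (mul_nonneg (mul_nonneg hb.wout (hb.TR1).le) hb.A1n),
    (mul_nonneg (mul_nonneg hb.a1n hb.A2n) hb.c21),
    (mul_nonneg hb.qout hb.wout),
    (mul_nonneg (mul_nonneg (hb.RB1).le hb.A1n) hb.c21),
    (mul_nonneg (mul_nonneg hb.b2n hb.A2n) hb.c21),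
    (mul_nonneg (mul_nonneg hb.qout hb.b1n) hb.c21),
    (mul_nonneg (mul_nonneg (neg_nonneg.2 s) (hb.TR1).le) hb.A1n),
    (mul_nonneg (mul_nonneg ((sub_pos.2 k0.TB)).le hb.a2n) hb.c21),
    (mul_nonneg (mul_nonneg hb.qout hb.c21) hb.c12)]

theorem K38 {c1 c2 a1 a2 B1 B2 r1 r2 : ℝ} (hb : Base c1 c2 a1 a2 B1 B2 r1 r2) (dca : 0 ≤ c2*a1-c1*a2) (k0 : Y1 c1 (2-c2) B1 B2 c1 (2-c2) (r1-c1) (2-c2-r2)) (k1 : Y1 c1 (2-c2) B1 B2 B1 B2 (2-a1-r1) (-(a2-r2))) : False := by
  linarith [(mul_nonneg hb.a1n hb.B2n),
    (mul_nonneg hb.a2n hb.B1n),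
    (mul_nonneg ((mul_pos (sub_pos.2 k1.Tw) hb.RB1)).le hb.r2n),
    (mul_nonneg (mul_nonneg (hb.RB1).le hb.a1n) hb.B2n),
    (mul_nonneg (mul_nonneg (hb.RB1).le hb.a2n) hb.B1n),
    (mul_pos (sub_pos.2 k0.RL) (k1.pos hb.B2n)),
    (mul_nonneg ((sub_pos.2 k1.RL)).le hb.pin),
    (mul_nonneg (mul_nonneg ((sub_pos.2 k1.Tw)).le hb.A2n) hb.r2n),
    (mul_nonneg (mul_nonneg ((sub_pos.2 k1.Tw)).le hb.B2n) hb.r2n),
    (mul_nonneg (mul_nonneg ((sub_pos.2 k1.Tw)).le hb.A1n) hb.r2n),
    (mul_nonneg (mul_nonneg ((sub_pos.2 k1.Tw)).le hb.B1n) hb.r2n),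
    (mul_nonneg (mul_nonneg hb.a1n hb.B2n) hb.c12),
    (mul_nonneg (mul_nonneg hb.a2n hb.B1n) hb.c12)]

theorem K31 {c1 c2 a1 a2 B1 B2 r1 r2 : ℝ} (hb : Base c1 c2 a1 a2 B1 B2 r1 r2) (dca : 0 ≤ c2*a1-c1*a2) (k0 : Y1 c1 c2 a1 a2 (2-c1-a1) (2-c2-a2) r1 r2) (k1 : Y1 c1 c2 a1 a2 (2-c1-a1) (2-c2-a2) (2-a1-r1) (a2-r2)) : False := by
  linarith [(sub_pos.2 k0.RL),
    (sub_pos.2 k1.Rw),
    (mul_nonneg hb.wout (hb.TR1).le),
    (mul_pos (sub_pos.2 k0.Rw) hb.pc1),
    (mul_nonneg hb.b2n hb.c21),
    (sub_pos.2 k0.TB),
    (mul_nonneg hb.b1n hb.c21),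
    (mul_nonneg ((sub_pos.2 k0.TB)).le hb.c12),
    (mul_pos (sub_pos.2 k0.Rw) hb.pc2)]

theorem K25 {c1 c2 a1 a2 B1 B2 r1 r2 : ℝ} (hb : Base c1 c2 a1 a2 B1 B2 r1 r2) (dca : 0 ≤ c2*a1-c1*a2) (k0 : Y1 c1 c2 a1 a2 (2-c1-a1) (2-c2-a2) (2-a1-r1) (a2-r2)) (k1 : Y1 c1 (2-c2) B1 B2 (2-c1-B1) (2-(2-c2)-B2) (2-r1-B1) (r2+B2)) : False := by
  linarith [(mul_nonneg (mul_nonneg hb.b2n hb.A2n) hb.Tp1),
    (mul_pos (sub_pos.2 k0.TB) (k1.pos hb.A2n_)),
    (mul_nonneg (mul_nonneg ((sub_pos.2 k1.RL)).le hb.b2n) hb.Tp1),
    (mul_nonneg (mul_nonneg ((sub_pos.2 k1.TB)).le hb.b1n) hb.r2n),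
    (mul_nonneg (mul_nonneg ((sub_pos.2 k1.TB)).le hb.b1n) hb.A2n),
    (mul_nonneg (mul_nonneg ((sub_pos.2 k1.TB)).le hb.b1n) hb.B2n),
    (mul_nonneg (mul_nonneg hb.b1n hb.A2n) hb.Tp1)]

theorem K17 {c1 c2 a1 a2 B1 B2 r1 r2 : ℝ} (hb : Base c1 c2 a1 a2 B1 B2 r1 r2) (dca : 0 ≤ c2*a1-c1*a2) (k0 : Y1 c1 (2-c2) B1 B2 (2-c1-B1) (2-(2-c2)-B2) (2-r1) r2) (k1 : Y1 c1 (2-c2) B1 B2 (2-c1-B1) (2-(2-c2)-B2) (r1-c1) (2-c2-r2)) : False := by
  linarith [(sub_pos.2 k1.TL),
    (sub_pos.2 k0.TB),
    (mul_nonneg hb.qout hb.A1n),
    (mul_nonneg hb.qout hb.B1n),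
    (mul_nonneg hb.qout (hb.pc1).le)]

theorem K11 {c1 c2 a1 a2 B1 B2 r1 r2 : ℝ} (hb : Base c1 c2 a1 a2 B1 B2 r1 r2) (dca : 0 ≤ c2*a1-c1*a2) (k0 : Y1 c1 (2-c2) B1 B2 c1 (2-c2) a1 a2) (k1 : Y1 c1 (2-c2) B1 B2 c1 (2-c2) (2-c1-a1) (2-c2-a2)) : False := by
  linarith [(sub_pos.2 k1.RL),
    (mul_pos (sub_pos.2 k0.RL) hb.pc2),
    (mul_pos (sub_pos.2 k0.RL) hb.pc1),
    (mul_pos (sub_pos.2 k1.RL) hb.TR1)]

theorem K0 {c1 c2 a1 a2 B1 B2 r1 r2 : ℝ} (hb : Base c1 c2 a1 a2 B1 B2 r1 r2) (dca : 0 ≤ c2*a1-c1*a2) (k0 : Y1 c1 (2-c2) B1 B2 (2-c1-B1) (2-(2-c2)-B2) a1 a2) (k1 : Y1 c1 (2-c2) B1 B2 (2-c1-B1) (2-(2-c2)-B2) (2-c1-a1) (2-c2-a2)) : False := by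
  linarith [(sub_pos.2 k1.TL),
    (sub_pos.2 k0.TL)]

end H407R3.Seven
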