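import Pool.Agent.H407R3.Seven.Bases

set_option maxRecDepth 40000

namespace H407R3.Seven

theorem K91 {c1 c2 a1 a2 B1 B2 r1 r2 : ℝ} (hb : Base c1 c2 a1 a2 B1 B2 r1 r2) (dca : 0 ≤ c2*a1-c1*a2) (k0 : Y1 c1 (2-c2) B1 B2 c1 (2-c2) (2-r1) r2) (k1 : Y1 c1 (2-c2) B1 B2 B1 B2 a1 a2) (k2 : Y1 c1 c2 a1 a2 (2-c1-a1) (2-c2-a2) r1 r2) (k3 : Y1 c1 c2 a1 a2 c1 c2 (2-c1-B1) (c2-B2)) (k4 : Y1 c1 (2-c2) B1 B2 (2-c1-B1) (2-(2-c2)-B2) (r1-c1) (2-c2-r2)) (k5 : Y1 c1 c2 a1 a2 c1 c2 (2-a1-r1) (a2-r2)) (k6 : Y1 c1 c2 a1 a2 a1 a2 B1 B2) (k7 : Y1 c1 (2-c2) B1 B2 c1 (2-c2) (2-c1-a1) (2-c2-a2)) (o0 : 0 ≤ 2-a1-r1) (o1 : 0 ≤ a2-r2) : False := by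
  rcases le_total 0 (a2-(2-c2-a2)) with s | s
  · exact lt_irrefl (0:ℝ) (by
      linear_combination
        (6098085256813430285866806713915470/62979003359879674009502064523471891)*(mul_nonneg ((sub_pos.2 k7.Rw)).le dca) +
        (53118845791115574009831632104278/62979003359879674009502064523471891)*(mul_nonneg (mul_nonneg ((sub_pos.2 k3.RL)).le hb.B1n) hb.r2n) +
        (1336944786549118945988284394279859/62979003359879674009502064523471891)*(mul_nonneg (mul_nonneg ((sub_pos.2 k3.RL)).le hb.a1n) hb.a1n) +
        (72282833196356930151934441442608631/125958006719759348019004129046943782)*(mul_nonneg (mul_nonneg ((sub_pos.2 k4.TB)).le hb.B2n) hb.c21) +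
        (3488004253877789679748042865369262/62979003359879674009502064523471891)*(mul_nonneg (mul_nonneg dca hb.r2n) hb.r2n) +
        (5070789378283597381388631713241188/62979003359879674009502064523471891)*(mul_nonneg (mul_nonneg ((sub_pos.2 k3.RL)).le hb.r2n) hb.r2n) +
        (1817219246992904841988983420788649/62979003359879674009502064523471891)*(mul_nonneg (mul_nonneg ((sub_pos.2 k4.TB)).le hb.a1n) hb.c21) +
        (1334171005725523590977912720757518/62979003359879674009502064523471891)*(mul_nonneg ((mul_pos (sub_pos.2 k2.TB) hb.TR1)).le hb.r2n) +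
        (5690522748992471497755711570152258/62979003359879674009502064523471891)*(mul_nonneg (mul_nonneg ((sub_pos.2 k3.RL)).le hb.a1n) o1) +
        (22219946472903169101593184088819050/62979003359879674009502064523471891)*(mul_nonneg (mul_nonneg (hb.TR1).le hb.c21) o1) +
        (12111412300315609423375990222059284/62979003359879674009502064523471891)*(mul_nonneg (mul_nonneg ((sub_pos.2 k3.RL)).le hb.a1n) hb.r2n) +
        (13033087804294008512150922459682584/62979003359879674009502064523471891)*(mul_nonneg (mul_nonneg ((sub_pos.2 k4.TB)).le hb.a2n) hb.c21) +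
        (4498664571941510461585027119501194/62979003359879674009502064523471891)*(mul_nonneg ((mul_pos (sub_pos.2 k6.TB) hb.TR1)).le hb.Tp1) +
        (53118845791115574009831632104278/62979003359879674009502064523471891)*(mul_nonneg (mul_nonneg ((sub_pos.2 k4.TB)).le hb.B1n) hb.c21) +
        (2472858283385877041938373307674042/62979003359879674009502064523471891)*(mul_nonneg (mul_nonneg ((sub_pos.2 k2.TB)).le hb.a2n) hb.Lp1) +
        (1677279456394012222190817562174865/125958006719759348019004129046943782)*(mul_nonneg ((sub_pos.2 k7.RL)).le o1) +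
        (1246983405203374750381650411200032/62979003359879674009502064523471891)*(mul_nonneg (mul_nonneg ((sub_pos.2 k3.RL)).le hb.a1n) hb.r1n) +
        (14805854737980899293632061206829358/62979003359879674009502064523471891)*(mul_nonneg (mul_nonneg dca hb.a1n) hb.r2n) +
        (2707764311227039224190451406563662/62979003359879674009502064523471891)*(mul_nonneg (mul_nonneg ((sub_pos.2 k2.TB)).le hb.a1n) hb.B2n) +
        (2472858283385877041938373307674042/62979003359879674009502064523471891)*(mul_nonneg (mul_nonneg ((sub_pos.2 k2.TB)).le hb.a2n) hb.Tp1) +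
        (470898333045145836691935519126416/62979003359879674009502064523471891)*(mul_pos (sub_pos.2 k5.RL) hb.RB1) +
        (7787643873914960313065054923132961/62979003359879674009502064523471891)*(mul_nonneg ((sub_pos.2 k2.TB)).le dca) +
        (3114992057876990131593146776122187/62979003359879674009502064523471891)*(mul_pos (sub_pos.2 k5.RL) (k3.pos hb.pc2.le)) +
        (13526477919929850146939901556541515/125958006719759348019004129046943782)*(mul_nonneg (mul_nonneg ((sub_pos.2 k4.TB)).le hb.pB2) hb.c21) +
        (14953934716181058007749305860820006/62979003359879674009502064523471891)*(mul_nonneg (mul_nonneg (hb.TR1).le hb.r1n) s) +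
        (7561009996474235632496852515696398/62979003359879674009502064523471891)*(mul_nonneg (mul_nonneg ((sub_pos.2 k2.TB)).le hb.a2n) hb.A2n) +
        (2853994488320010761888886988214408/62979003359879674009502064523471891)*(mul_pos (mul_pos (sub_pos.2 k6.RB) hb.TR1) hb.TR1) +
        (12745138868818929439526858649769827/251916013439518696038008258093887564)*(mul_nonneg ((mul_pos (sub_pos.2 k6.TL) hb.RB1)).le hb.c21) +
        (23668056676497044909717164983023891/125958006719759348019004129046943782)*(mul_nonneg (mul_nonneg ((sub_pos.2 k4.TB)).le hb.r2n) hb.c21) +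
        (688150618743106629123715494606952/62979003359879674009502064523471891)*(mul_nonneg (mul_nonneg ((sub_pos.2 k5.RL)).le hb.A1n) hb.B1n) +
        (1616177514950242252877372091511928/62979003359879674009502064523471891)*(mul_nonneg (mul_nonneg ((sub_pos.2 k5.Rw)).le hb.a1n) hb.Tp1) +
        (14142772049622585805756607056841904/62979003359879674009502064523471891)*(sub_pos.2 k2.TB) +
        (2387357429048853609455554194895372/62979003359879674009502064523471891)*(mul_nonneg (mul_nonneg hb.qout hb.r2n) s) +
        (19924950994564711879516533005608492/62979003359879674009502064523471891)*(mul_nonneg (mul_nonneg hb.B1n hb.c21) o1) +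
        (25604061755354811530347678666093572/62979003359879674009502064523471891)*(mul_pos (sub_pos.2 k2.Rw) hb.TR1) +
        (5226833196924430834341913084171262/62979003359879674009502064523471891)*(mul_pos (sub_pos.2 k7.RL) hb.TR1) +
        (1786097647911543727207266815857628/62979003359879674009502064523471891)*(mul_nonneg (mul_nonneg hb.qout hb.r1n) s) +
        (1582785124405807701640588847871926/62979003359879674009502064523471891)*(mul_nonneg (mul_nonneg ((sub_pos.2 k6.TL)).le hb.r2n) o1) +
        (1267697344570899345347157928310297/62979003359879674009502064523471891)*(mul_nonneg (mul_nonneg ((sub_pos.2 k5.Rw)).le o1) o1) +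
        (667085502862761795488956360378759/62979003359879674009502064523471891)*(mul_nonneg (mul_nonneg ((sub_pos.2 k2.TB)).le hb.r2n) hb.Lp1) +
        (667085502862761795488956360378759/62979003359879674009502064523471891)*(mul_nonneg (mul_nonneg ((sub_pos.2 k2.TB)).le hb.r1n) hb.r2n) +
        (1579521366929502298579910839187213/62979003359879674009502064523471891)*(mul_nonneg (mul_nonneg ((sub_pos.2 k5.Rw)).le hb.r2n) hb.pB2) +
        (4519096325908463647235563180302955/62979003359879674009502064523471891)*(mul_nonneg (mul_nonneg ((sub_pos.2 k7.Rw)).le hb.c21) o1) +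
        (5585815457577536631375439309385526/62979003359879674009502064523471891)*(mul_nonneg (mul_nonneg ((sub_pos.2 k6.TB)).le hb.Tp1) hb.c21) +
        (2531027298800942750295663426382760/62979003359879674009502064523471891)*(mul_nonneg (mul_nonneg ((sub_pos.2 k5.RL)).le hb.Lp1) hb.c21) +
        (16919117815538379523561086712201849/62979003359879674009502064523471891)*(mul_nonneg ((sub_pos.2 k5.RL)).le dca) +
        (2093917083234113184435667319439109/62979003359879674009502064523471891)*(mul_nonneg (mul_nonneg ((sub_pos.2 k5.Rw)).le hb.r1n) hb.c21) +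
        (13126402190683274218759307598739237/62979003359879674009502064523471891)*(mul_nonneg (mul_nonneg (hb.TR1).le hb.r2n) s) +
        (1339963073300125720634758593240629/251916013439518696038008258093887564)*(mul_nonneg ((mul_pos (sub_pos.2 k1.Tw) hb.TR1)).le hb.a1n) +
        (38564847474322521591291492814068862/62979003359879674009502064523471891)*(mul_nonneg (mul_nonneg hb.B2n hb.Tp1) hb.c21) +
        (4438734769031231067947984519146266/62979003359879674009502064523471891)*(mul_nonneg ((mul_pos (sub_pos.2 k7.RL) hb.TR1)).le hb.B2n) +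
        (4758337590077625335229203820201092/62979003359879674009502064523471891)*(mul_nonneg (mul_nonneg dca hb.a1n) hb.c21) +
        (2406283658629108339494496534053375/62979003359879674009502064523471891)*(mul_nonneg ((sub_pos.2 k7.RL)).le hb.qout) +
        (72343612117144497365888281951872551/125958006719759348019004129046943782)*(mul_nonneg (mul_nonneg ((sub_pos.2 k4.TB)).le hb.A2n) hb.c21) +
        (3480462097954849203794714249284050/62979003359879674009502064523471891)*(mul_nonneg (mul_nonneg dca hb.Tp1) o1) +
        (13052677855039081437664885259691080/62979003359879674009502064523471891)*(mul_nonneg (mul_nonneg (hb.TR1).le hb.B2n) hb.c21) +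
        (5194756344447822950932524259398838/62979003359879674009502064523471891)*(mul_nonneg (mul_nonneg ((sub_pos.2 k3.RL)).le hb.B2n) s) +
        (4064532985803578165309039296398567/62979003359879674009502064523471891)*(mul_nonneg (mul_nonneg (hb.TR1).le hb.a2n) s) +
        (1407840757671423901271895814819076/62979003359879674009502064523471891)*(mul_pos (sub_pos.2 k7.RL) hb.RB1) +
        (3478117227953281901405467808947324/62979003359879674009502064523471891)*(mul_pos (mul_pos (sub_pos.2 k1.Tw) hb.RB1) hb.RB1) +
        (96358711042992898493138433337844/62979003359879674009502064523471891)*(mul_nonneg ((sub_pos.2 k6.TL)).le hb.B1n) +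
        (3151563924940315481028595951894937/62979003359879674009502064523471891)*(mul_nonneg (mul_nonneg ((sub_pos.2 k6.RB)).le hb.b2n) hb.c21) +
        (14132597617338147890197356861867800/62979003359879674009502064523471891)*(mul_nonneg ((mul_pos hb.TR1 hb.TR1)).le hb.c21) +
        (33655718183559763228891229756344339/125958006719759348019004129046943782)*(mul_nonneg (mul_nonneg ((sub_pos.2 k5.Rw)).le hb.A2n) hb.c21) +
        (6679493493110993306204532809135742/62979003359879674009502064523471891)*(mul_pos (mul_pos (sub_pos.2 k2.RL) hb.TR1) hb.TR1) +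
        (9066143197752251704095933204837488/62979003359879674009502064523471891)*(mul_nonneg (mul_nonneg (hb.TR1).le hb.B2n) s) +
        (56068272341265725231186695247844981/125958006719759348019004129046943782)*(mul_nonneg (mul_nonneg ((sub_pos.2 k3.RL)).le hb.r2n) hb.c21) +
        (12644187463788682116042828678334995/62979003359879674009502064523471891)*(mul_nonneg ((mul_pos (sub_pos.2 k3.Rw) hb.TR1)).le hb.c21) +
        (26220424378605494597481852911546884/62979003359879674009502064523471891)*(mul_nonneg (mul_nonneg hb.qout hb.c21) hb.c21) +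
        (13884047476364769833951470329274116/62979003359879674009502064523471891)*(mul_nonneg (mul_nonneg (hb.TR1).le hb.r1n) hb.c21) +
        (7227375290326893754604822317134925/125958006719759348019004129046943782)*(mul_nonneg (mul_nonneg ((sub_pos.2 k5.RL)).le hb.a2n) hb.c12) +
        (1799055095932470782991755213638337/62979003359879674009502064523471891)*(mul_nonneg (mul_nonneg ((sub_pos.2 k5.Rw)).le hb.A2n) hb.r2n) +
        (32001724593180158572611658087385783/251916013439518696038008258093887564)*(mul_nonneg (mul_nonneg dca (hb.RB1).le) hb.c21) +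
        (10637149831101945191497662754006790/62979003359879674009502064523471891)*(mul_nonneg (mul_nonneg ((sub_pos.2 k6.RL)).le hb.b2n) hb.r2n) +
        (73532160586909873583811269933034799/125958006719759348019004129046943782)*(mul_nonneg (mul_nonneg dca hb.A2n) hb.c21) +
        (1495310064567799144760580981908561/251916013439518696038008258093887564)*(mul_nonneg ((mul_pos (sub_pos.2 k1.Tw) hb.RB1)).le hb.a1n) +
        (3070173610526878367307647750533279/62979003359879674009502064523471891)*(mul_nonneg ((mul_pos (sub_pos.2 k5.Rw) hb.TR1)).le hb.c12) +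
        (19615651092556304586710765521553342/62979003359879674009502064523471891)*(mul_nonneg ((mul_pos (sub_pos.2 k6.RL) hb.TR1)).le hb.r2n) +
        (5487028775301272163053897080282611/62979003359879674009502064523471891)*(mul_nonneg (mul_nonneg ((sub_pos.2 k3.RL)).le hb.a2n) hb.r2n) +
        (5637318168504123295955380409008950/62979003359879674009502064523471891)*(mul_nonneg (mul_nonneg ((sub_pos.2 k1.Tw)).le hb.a1n) hb.r2n) +
        (5179561614250931147444064132082858/62979003359879674009502064523471891)*(mul_nonneg (mul_nonneg ((sub_pos.2 k3.RL)).le hb.A2n) s) +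
        (60216379982802725097925185744118163/251916013439518696038008258093887564)*(mul_nonneg ((sub_pos.2 k2.TB)).le hb.c21) +
        (22394304155491718845337913979908001/62979003359879674009502064523471891)*(mul_nonneg (mul_nonneg dca hb.A2n) hb.r2n) +
        (15471239710359973131234259856623944/62979003359879674009502064523471891)*(mul_nonneg (mul_nonneg dca (hb.TR1).le) hb.b2n) +
        (2737451846998917401721146580271948/62979003359879674009502064523471891)*(mul_nonneg (mul_nonneg ((sub_pos.2 k5.Rw)).le hb.A2n) hb.Tp1) +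
        (9849916052184765102749618190689543/251916013439518696038008258093887564)*(mul_nonneg (mul_nonneg ((sub_pos.2 k2.TB)).le hb.c21) hb.c21) +
        (247532504749638473982571436723312/62979003359879674009502064523471891)*(mul_nonneg (mul_nonneg ((sub_pos.2 k1.Tw)).le hb.a2n) hb.r2n) +
        (4301524987697066232915473490939263/62979003359879674009502064523471891)*(mul_nonneg (mul_nonneg ((sub_pos.2 k5.RL)).le hb.a2n) hb.b2n) +
        (8363027497556308200841206293003612/62979003359879674009502064523471891)*(mul_nonneg ((sub_pos.2 k5.RL)).le o0) +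
        (5765399907799015926523683165866051/62979003359879674009502064523471891)*(mul_nonneg ((mul_pos (sub_pos.2 k6.TB) hb.TR1)).le o1) +
        (26035636444788543121777142852873999/251916013439518696038008258093887564)*(mul_nonneg ((mul_pos (sub_pos.2 k2.TL) hb.TR1)).le hb.c21) +
        (2059129536103382179255335302158269/62979003359879674009502064523471891)*(mul_nonneg (mul_nonneg ((sub_pos.2 k7.RL)).le hb.a1n) hb.B2n) +
        (201497754750012503605643003219724/62979003359879674009502064523471891)*(mul_nonneg (mul_nonneg ((sub_pos.2 k7.RL)).le hb.r1n) o0) +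
        (25577251710164611527871982947875632/62979003359879674009502064523471891)*(mul_nonneg (mul_nonneg (hb.TR1).le hb.c21) hb.c21) +
        (1150371335107435743880228891195986/62979003359879674009502064523471891)*(mul_nonneg (mul_nonneg ((sub_pos.2 k2.TB)).le hb.a1n) hb.c21) +
        (2263591176674034372464268476533716/62979003359879674009502064523471891)*(mul_nonneg (mul_nonneg ((sub_pos.2 k4.TL)).le hb.a2n) s) +
        (1444061901779236698699456566229858/62979003359879674009502064523471891)*(mul_nonneg (mul_nonneg ((sub_pos.2 k5.RL)).le hb.r1n) o0) +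
        (1444061901779236698699456566229858/62979003359879674009502064523471891)*(mul_nonneg (mul_nonneg ((sub_pos.2 k5.RL)).le hb.r1n) hb.r1n) +
        (3006220740173716944737178498148419/62979003359879674009502064523471891)*(mul_nonneg (mul_nonneg ((sub_pos.2 k5.Rw)).le hb.a1n) hb.c12) +
        (4782145813732758677211466200033152/62979003359879674009502064523471891)*(mul_nonneg (mul_nonneg ((sub_pos.2 k5.Rw)).le hb.A1n) hb.r2n) +
        (2737451846998917401721146580271948/62979003359879674009502064523471891)*(mul_nonneg (mul_nonneg ((sub_pos.2 k5.RL)).le hb.B2n) hb.r1n) +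
        (1322486948278441298058144416478056/62979003359879674009502064523471891)*(mul_nonneg ((mul_pos (sub_pos.2 k2.RL) hb.TR1)).le hb.a1n) +
        (17299924661874987850989436076920450/62979003359879674009502064523471891)*(mul_nonneg (mul_nonneg dca hb.c21) hb.c12) +
        (11394862746765264023012689811096872/62979003359879674009502064523471891)*(mul_nonneg hb.Tp1 s) +
        (19434919325197221723680978099305898/62979003359879674009502064523471891)*(mul_nonneg (mul_nonneg dca (hb.TR1).le) hb.r2n) +
        (2737451846998917401721146580271948/62979003359879674009502064523471891)*(mul_nonneg (mul_nonneg ((sub_pos.2 k5.RL)).le hb.r1n) hb.pB2) +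
        (2737451846998917401721146580271948/62979003359879674009502064523471891)*(mul_nonneg (mul_nonneg ((sub_pos.2 k5.RL)).le hb.r2n) hb.Tp1) +
        (1353882155613519612095225703281831/62979003359879674009502064523471891)*(mul_nonneg (mul_nonneg ((sub_pos.2 k2.TB)).le hb.B1n) s) +
        (5797607474613254067609087236459026/62979003359879674009502064523471891)*(mul_nonneg (mul_nonneg hb.wout hb.A2n) o1) +
        (1861052328465280866531018236245890/62979003359879674009502064523471891)*(mul_nonneg (mul_nonneg ((sub_pos.2 k7.RL)).le hb.B2n) o1) +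
        (1980786226401307166955249346168383/251916013439518696038008258093887564)*(mul_nonneg ((mul_pos (sub_pos.2 k6.RB) hb.TR1)).le hb.c21) +
        (11699827683337542353866393654137904/62979003359879674009502064523471891)*(mul_nonneg (mul_nonneg ((sub_pos.2 k5.Rw)).le hb.b1n) hb.A2n) +
        (14041230909971100738083530482751719/62979003359879674009502064523471891)*(mul_nonneg (mul_nonneg ((sub_pos.2 k5.Rw)).le hb.b2n) hb.B2n) +
        (1582785124405807701640588847871926/62979003359879674009502064523471891)*(mul_nonneg (mul_nonneg ((sub_pos.2 k6.RL)).le hb.r2n) hb.r2n) +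
        (1612167791451456859918697929014930/62979003359879674009502064523471891)*(mul_nonneg (mul_nonneg ((sub_pos.2 k6.TL)).le hb.a2n) hb.a2n) +
        (1488992318124474576653011073874834/62979003359879674009502064523471891)*(mul_nonneg ((sub_pos.2 k2.TL)).le hb.qout) +
        (1158566594127919632567936601245898/62979003359879674009502064523471891)*(mul_nonneg ((mul_pos (sub_pos.2 k2.TB) hb.RB1)).le hb.B1n) +
        (2315860960138830206282471482169470/62979003359879674009502064523471891)*(mul_nonneg ((mul_pos (sub_pos.2 k5.Rw) hb.TR1)).le hb.r2n) +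
        (3051527821225030816433722418062211/62979003359879674009502064523471891)*(mul_nonneg (mul_nonneg dca hb.a2n) hb.A2n) +
        (437110215566829565859996106943651/62979003359879674009502064523471891)*(mul_nonneg (mul_nonneg ((sub_pos.2 k5.Rw)).le hb.Tp1) hb.c21) +
        (1270425121265185322680550283391594/62979003359879674009502064523471891)*(mul_nonneg (mul_nonneg ((sub_pos.2 k1.Tw)).le hb.b2n) o1) +
        (2975785841120824474556920022034547/62979003359879674009502064523471891)*(mul_nonneg (mul_nonneg ((sub_pos.2 k5.Rw)).le hb.B1n) o0) +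
        (105030691746624522695536483392503/62979003359879674009502064523471891)*(mul_nonneg (mul_nonneg ((sub_pos.2 k3.RL)).le hb.a1n) hb.Tp1) +
        (2648041483002406560725626794656095/62979003359879674009502064523471891)*(mul_nonneg (mul_nonneg ((sub_pos.2 k3.RL)).le hb.r1n) hb.r2n) +
        (1008081354747335006055908806451398/62979003359879674009502064523471891)*(mul_nonneg (mul_nonneg ((sub_pos.2 k6.TB)).le hb.pB2) s) +
        (1671068744620284671216268609641120/62979003359879674009502064523471891)*(mul_nonneg (mul_nonneg hb.wout (hb.TR1).le) hb.r1n) +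
        (2975785841120824474556920022034547/62979003359879674009502064523471891)*(mul_nonneg (mul_nonneg ((sub_pos.2 k5.RL)).le hb.B1n) hb.r1n) +
        (30138620801760654177805000625352/62979003359879674009502064523471891)*(mul_nonneg (mul_nonneg ((sub_pos.2 k6.TL)).le hb.a1n) hb.B1n) +
        (635212560632592661340275141695797/62979003359879674009502064523471891)*(mul_nonneg (mul_nonneg hb.a2n s) s) +
        (7084705214106240137969989011322064/62979003359879674009502064523471891)*(mul_nonneg (mul_nonneg ((sub_pos.2 k3.Rw)).le hb.r2n) s) +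
        (3351793896524574628160863754915604/62979003359879674009502064523471891)*(mul_nonneg (mul_nonneg hb.Tp1 hb.c21) hb.c21) +
        (3033827643126166887568315562628966/62979003359879674009502064523471891)*(mul_nonneg (mul_nonneg ((sub_pos.2 k2.TB)).le hb.a2n) hb.B2n) +
        (2044060225702501852166432801845593/62979003359879674009502064523471891)*(mul_nonneg (mul_nonneg ((sub_pos.2 k7.RL)).le hb.B1n) o1) +
        (10129820131261202325640084877320/62979003359879674009502064523471891)*(mul_nonneg (mul_nonneg ((sub_pos.2 k3.RL)).le hb.A1n) hb.B1n) +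
        (5723184839371776260565091124553299/62979003359879674009502064523471891)*(mul_nonneg (mul_nonneg dca hb.a2n) hb.b2n) +
        (851819841382361636040391415353502/62979003359879674009502064523471891)*(mul_nonneg (mul_nonneg hb.wout hb.A1n) hb.Tp1) +
        (306066604370057121485183023080427/62979003359879674009502064523471891)*(mul_nonneg ((mul_pos (sub_pos.2 k7.RL) hb.RB1)).le hb.r1n) +
        (48179355521496449246569216668922/62979003359879674009502064523471891)*(mul_nonneg (mul_nonneg ((sub_pos.2 k3.RL)).le hb.B1n) s) +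
        (791819558055161400608690160910073/62979003359879674009502064523471891)*(mul_nonneg (mul_nonneg ((sub_pos.2 k6.RL)).le hb.r1n) hb.r2n) +
        (1757516346327630707911572149253058/62979003359879674009502064523471891)*(mul_nonneg (mul_nonneg ((sub_pos.2 k7.RL)).le hb.r1n) o1) +
        (4011959897510491635877983818981340/62979003359879674009502064523471891)*(mul_nonneg (mul_nonneg ((sub_pos.2 k6.RL)).le hb.r1n) hb.c21) +
        (2457804222155467937284034849882611/125958006719759348019004129046943782)*(mul_nonneg (mul_nonneg ((sub_pos.2 k6.TL)).le hb.a1n) o1) +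
        (1201223683416275099716403135863076/62979003359879674009502064523471891)*(mul_nonneg (mul_nonneg ((sub_pos.2 k2.TB)).le hb.r2n) hb.c21) +
        (2670578958753894618859340078541992/62979003359879674009502064523471891)*(mul_nonneg (mul_nonneg ((sub_pos.2 k1.Tw)).le hb.Tp1) o1) +
        (6983272446282867780839803745955632/62979003359879674009502064523471891)*(mul_nonneg (mul_nonneg hb.wout hb.B2n) hb.Tp1) +
        (2083240801548596065372941550622484/62979003359879674009502064523471891)*(mul_nonneg (mul_nonneg ((sub_pos.2 k6.TL)).le hb.r1n) hb.r1n) +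
        (523534821175928577454052738743224/62979003359879674009502064523471891)*(mul_nonneg (mul_nonneg ((sub_pos.2 k5.Rw)).le hb.B1n) hb.c21) +
        (2062415281640864621105689310859560/62979003359879674009502064523471891)*(mul_nonneg (mul_nonneg hb.qout hb.r2n) hb.c21) +
        (208076971233299370052396831071668/62979003359879674009502064523471891)*(mul_nonneg ((sub_pos.2 k6.RL)).le hb.c21) +
        (268314813682410385229904622245676/62979003359879674009502064523471891)*(mul_nonneg (mul_nonneg dca hb.A2n) hb.B1n) +
        (459082528721629407316787865527209/125958006719759348019004129046943782)*(mul_nonneg ((mul_pos (sub_pos.2 k6.TB) hb.TR1)).le hb.B1n) +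
        (2422747895281190820663004918585093/62979003359879674009502064523471891)*(mul_nonneg (mul_nonneg ((sub_pos.2 k3.Rw)).le hb.r2n) hb.Tp1) +
        (7244338066792378949606959603211390/62979003359879674009502064523471891)*(mul_nonneg (mul_nonneg ((sub_pos.2 k3.Rw)).le hb.Tp1) s) +
        (2118529083605661429228658437303180/62979003359879674009502064523471891)*(mul_nonneg ((mul_pos (sub_pos.2 k3.RL) hb.RB1)).le hb.r1n) +
        (2512693718413957480188616422927661/62979003359879674009502064523471891)*(mul_nonneg (mul_nonneg ((sub_pos.2 k1.TB)).le hb.r2n) s) +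
        (805077696417507011866500480575652/62979003359879674009502064523471891)*(mul_nonneg (mul_nonneg hb.a1n hb.A2n) s) +
        (30389460393783606976920254631960/62979003359879674009502064523471891)*(mul_nonneg (mul_nonneg ((sub_pos.2 k3.RL)).le hb.A2n) hb.r2n) +
        (2083240801548596065372941550622484/62979003359879674009502064523471891)*(mul_nonneg (mul_nonneg ((sub_pos.2 k6.RL)).le hb.Tp1) o0) +
        (1423753467803374067472491106083101/125958006719759348019004129046943782)*(mul_nonneg (mul_nonneg ((sub_pos.2 k6.TL)).le hb.a2n) o0) +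
        (1286310670061101881494882121736731/62979003359879674009502064523471891)*(mul_nonneg (mul_nonneg ((sub_pos.2 k6.TL)).le hb.a1n) hb.Tp1) +
        (959962489477741796660721836057282/62979003359879674009502064523471891)*(mul_nonneg (mul_nonneg ((sub_pos.2 k3.RL)).le hb.r1n) hb.c12) +
        (3271734282351126598396876499602851/62979003359879674009502064523471891)*(mul_nonneg (mul_nonneg ((sub_pos.2 k5.RL)).le hb.B2n) o1) +
        (4806367691609366727831831938932798/62979003359879674009502064523471891)*(mul_nonneg (mul_nonneg dca (hb.RB1).le) s) +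
        (146206150951192966250205917244532/62979003359879674009502064523471891)*(mul_nonneg ((mul_pos (sub_pos.2 k5.RL) hb.TR1)).le hb.B2n) +
        (2670578958753894618859340078541992/62979003359879674009502064523471891)*(mul_nonneg (mul_nonneg ((sub_pos.2 k1.Tw)).le hb.r1n) hb.r2n) +
        (2540314479342846417746911032293836/62979003359879674009502064523471891)*(mul_nonneg (mul_nonneg ((sub_pos.2 k7.RL)).le hb.A2n) hb.r1n) +
        (4346646430558354288615088993977421/62979003359879674009502064523471891)*(mul_nonneg ((sub_pos.2 k6.TL)).le dca) +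
        (198252845579196047282167225950393/62979003359879674009502064523471891)*(mul_nonneg (mul_nonneg ((sub_pos.2 k1.TB)).le hb.r1n) s) +
        (370634732267111101566773563355615/62979003359879674009502064523471891)*(mul_nonneg (mul_nonneg ((sub_pos.2 k3.RL)).le hb.a1n) hb.B1n) +
        (11490112494677459916013315739463/62979003359879674009502064523471891)*(mul_nonneg ((mul_pos (sub_pos.2 k1.Tw) hb.TR1)).le hb.B1n) +
        (1322516537812574551113507617435012/62979003359879674009502064523471891)*(mul_nonneg (mul_nonneg dca hb.A2n) hb.c12) +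
        (16429602764296584679275731174819/62979003359879674009502064523471891)*(mul_nonneg (mul_nonneg ((sub_pos.2 k3.RL)).le hb.B1n) hb.Tp1) +
        (172115613171005554177915525282070/62979003359879674009502064523471891)*(mul_nonneg (mul_nonneg ((sub_pos.2 k5.RL)).le hb.a1n) o0) +
        (2567854583597364339655657982763757/125958006719759348019004129046943782)*(mul_nonneg (mul_nonneg ((sub_pos.2 k5.RL)).le hb.B2n) hb.c21) +
        (1166163959226365534312166664903888/62979003359879674009502064523471891)*(mul_nonneg ((mul_pos hb.TR1 hb.TR1)).le s) +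
        (30389460393783606976920254631960/62979003359879674009502064523471891)*(mul_nonneg (mul_nonneg ((sub_pos.2 k5.RL)).le hb.B2n) hb.B2n) +
        (2293198114043253297321761745734484/62979003359879674009502064523471891)*(mul_nonneg (mul_nonneg hb.r1n s) s) +
        (661243474139220649029072208239028/62979003359879674009502064523471891)*(mul_nonneg (mul_nonneg ((sub_pos.2 k7.RL)).le o0) o1) +
        (330621737069610324514536104119514/62979003359879674009502064523471891)*(mul_nonneg (mul_nonneg ((sub_pos.2 k7.RL)).le hb.a1n) s) +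
        (30389460393783606976920254631960/62979003359879674009502064523471891)*(mul_nonneg (mul_nonneg hb.qout hb.A2n) hb.c21) +
        (344231226342011108355831050564140/62979003359879674009502064523471891)*(mul_nonneg (mul_nonneg dca hb.a1n) o0) +
        (330621737069610324514536104119514/62979003359879674009502064523471891)*(mul_nonneg (mul_nonneg ((sub_pos.2 k7.RL)).le hb.a1n) hb.c12) +
        (2083240801548596065372941550622484/62979003359879674009502064523471891)*(mul_nonneg (mul_nonneg dca hb.Tp1) hb.Tp1) +
        (1096272872188410058882499941014030/62979003359879674009502064523471891)*(mul_nonneg (mul_nonneg ((sub_pos.2 k7.RL)).le hb.r2n) hb.Tp1) +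
        (2317133188255839265135873202491796/62979003359879674009502064523471891)*(mul_nonneg ((mul_pos (sub_pos.2 k1.Tw) hb.TR1)).le hb.Tp1) +
        (402995509500025007211286006439448/62979003359879674009502064523471891)*(mul_nonneg (mul_nonneg hb.wout hb.a1n) hb.Tp1) +
        (192378277392003911772410978121473/62979003359879674009502064523471891)*(mul_nonneg (mul_nonneg ((sub_pos.2 k7.RL)).le hb.B1n) hb.Tp1) +
        (1118659592413529817025665443635370/62979003359879674009502064523471891)*(mul_nonneg (mul_nonneg dca hb.B1n) hb.c21) +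
        (3392200918731872304945592653015051/125958006719759348019004129046943782)*(mul_nonneg (mul_nonneg hb.wout (hb.TR1).le) hb.B1n) +
        (443012762860879515969491184079639/125958006719759348019004129046943782)*(mul_nonneg (mul_nonneg ((sub_pos.2 k3.RL)).le hb.a2n) s) +
        (3260844908263127997044805967711775/62979003359879674009502064523471891)*(mul_nonneg dca dca) +
        (201497754750012503605643003219724/62979003359879674009502064523471891)*(mul_nonneg (mul_nonneg ((sub_pos.2 k7.RL)).le hb.r1n) hb.r1n) +
        (30389460393783606976920254631960/62979003359879674009502064523471891)*(mul_nonneg (mul_nonneg ((sub_pos.2 k3.RL)).le hb.A2n) hb.Tp1) +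
        (1330161448756001555290212250966862/62979003359879674009502064523471891)*(mul_nonneg (mul_nonneg ((sub_pos.2 k5.RL)).le hb.a1n) hb.pB2) +
        (531789289236993965046038339577768/62979003359879674009502064523471891)*(mul_nonneg (mul_nonneg hb.r2n hb.Tp1) hb.c21) +
        (1197214126446753064028702666072420/62979003359879674009502064523471891)*(mul_nonneg (mul_nonneg ((sub_pos.2 k5.Rw)).le hb.a1n) hb.r2n) +
        (10129820131261202325640084877320/62979003359879674009502064523471891)*(mul_nonneg ((sub_pos.2 k3.RL)).le hb.qout) +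
        (705112790432879089006044858324869/125958006719759348019004129046943782)*(mul_nonneg (mul_nonneg ((sub_pos.2 k6.TL)).le hb.a2n) hb.r1n) +
        (91161891603141742057461907555795/62979003359879674009502064523471891)*(mul_nonneg ((mul_pos (sub_pos.2 k3.Rw) hb.TR1)).le hb.c12) +
        (20259640262522404651280169754640/62979003359879674009502064523471891)*(mul_nonneg (mul_nonneg ((sub_pos.2 k3.RL)).le hb.A2n) hb.c21) +
        (63742780447533654372665013087948/62979003359879674009502064523471891)*(mul_nonneg ((mul_pos (sub_pos.2 k3.Rw) hb.TR1)).le hb.A2n) +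
        (53612960316272452047024928210628/62979003359879674009502064523471891)*(mul_nonneg ((mul_pos (sub_pos.2 k3.RL) hb.TR1)).le hb.B2n) +
        (357744896143437575966716001478881/125958006719759348019004129046943782)*(mul_nonneg (mul_nonneg ((sub_pos.2 k3.RL)).le hb.c21) hb.c21) +
        (517025377176046934905771871899755/62979003359879674009502064523471891)*(mul_nonneg (mul_nonneg ((sub_pos.2 k6.TL)).le hb.a1n) hb.b2n) +
        (3401303492398700206245823155007965/125958006719759348019004129046943782)*(mul_nonneg (mul_nonneg ((sub_pos.2 k6.TL)).le hb.r2n) o0) +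
        (635031772951991055113883862502674/62979003359879674009502064523471891)*(mul_nonneg (mul_nonneg ((sub_pos.2 k5.Rw)).le hb.B1n) hb.B1n) +
        (189860896877521359080219099155898/62979003359879674009502064523471891)*(mul_nonneg ((sub_pos.2 k4.TL)).le s) +
        (288643564550838704177165513208036/62979003359879674009502064523471891)*(mul_nonneg (mul_nonneg ((sub_pos.2 k5.Rw)).le hb.B1n) o1) +
        (311824022358602953232752910876916/62979003359879674009502064523471891)*(mul_nonneg (mul_nonneg ((sub_pos.2 k5.Rw)).le hb.r2n) hb.r2n) +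
        (30389460393783606976920254631960/62979003359879674009502064523471891)*(mul_nonneg (mul_nonneg ((sub_pos.2 k1.Tw)).le hb.A2n) hb.Tp1) +
        (206087865032122301974900997600817/125958006719759348019004129046943782)*(mul_nonneg ((mul_pos (sub_pos.2 k6.TL) hb.RB1)).le hb.B1n) +
        (271757647220825928402546232849477/62979003359879674009502064523471891)*(mul_nonneg (mul_nonneg dca hb.B1n) o0) +
        (5509583953653251664051546047809/272047530712223213863939803557114)*(mul_nonneg (mul_nonneg hb.wout (hb.TR1).le) hb.c21) +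
        (30389460393783606976920254631960/62979003359879674009502064523471891)*(mul_nonneg (mul_nonneg ((sub_pos.2 k6.TB)).le hb.B2n) hb.c21) +
        (467063286598353812495569459110556/62979003359879674009502064523471891)*(mul_nonneg (mul_nonneg ((sub_pos.2 k1.Tw)).le hb.a1n) hb.r1n) +
        (337607258810712908477219856786383/125958006719759348019004129046943782)*(mul_nonneg (mul_nonneg ((sub_pos.2 k1.Tw)).le hb.a1n) hb.A1n) +
        (1817664376288377405028442833187819/125958006719759348019004129046943782)*(mul_nonneg (mul_nonneg ((sub_pos.2 k6.TL)).le hb.r1n) hb.r2n) +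
        (329866844889140371382489969775197/62979003359879674009502064523471891)*(mul_nonneg (mul_nonneg ((sub_pos.2 k6.TL)).le hb.a1n) hb.r1n) +
        (277330017207191600121609855535679/125958006719759348019004129046943782)*(mul_nonneg (mul_nonneg ((sub_pos.2 k1.Tw)).le hb.a1n) hb.B1n) +
        (53513475732158179021606865211343/62979003359879674009502064523471891)*(mul_nonneg (mul_nonneg ((sub_pos.2 k7.Rw)).le hb.c21) hb.c21) +
        (240970644514559929541905496797178/62979003359879674009502064523471891)*(mul_nonneg (mul_nonneg dca hb.c21) o1) +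
        (41628733296438114093818316364815/62979003359879674009502064523471891)*(mul_nonneg ((mul_pos (sub_pos.2 k1.Tw) hb.RB1)).le hb.B1n) +
        (170871335093135768619073822811668/62979003359879674009502064523471891)*(mul_nonneg (mul_nonneg ((sub_pos.2 k6.RL)).le hb.b2n) s) +
        (36689243026818989330555900929459/62979003359879674009502064523471891)*(mul_nonneg (mul_nonneg ((sub_pos.2 k3.RL)).le hb.B1n) hb.r1n) +
        (30389460393783606976920254631960/62979003359879674009502064523471891)*(mul_nonneg (mul_nonneg ((sub_pos.2 k1.Tw)).le hb.B2n) hb.r1n) +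
        (22729385397331967032911377472318/62979003359879674009502064523471891)*(mul_nonneg (mul_nonneg ((sub_pos.2 k5.TB)).le hb.A2n) hb.B1n) +
        (10129820131261202325640084877320/62979003359879674009502064523471891)*(mul_nonneg (mul_nonneg ((sub_pos.2 k3.RL)).le hb.B1n) hb.B1n) +
        (15069310400880327088902500312676/62979003359879674009502064523471891)*(mul_nonneg (mul_nonneg ((sub_pos.2 k7.RL)).le hb.B1n) hb.B2n) +
        (43066175734095043819935338258755/62979003359879674009502064523471891)*(mul_nonneg (mul_nonneg ((sub_pos.2 k7.Rw)).le hb.a1n) hb.c21) +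
        (208429751907501498659560984211982/62979003359879674009502064523471891)*(mul_nonneg (mul_nonneg (hb.TR1).le hb.B1n) hb.c21) +
        (13344741535518952077703555441193/62979003359879674009502064523471891)*(mul_nonneg (mul_nonneg ((sub_pos.2 k3.RL)).le hb.r1n) hb.Lp1) +
        (15069310400880327088902500312676/62979003359879674009502064523471891)*(mul_nonneg (mul_nonneg ((sub_pos.2 k7.RL)).le hb.B1n) hb.B1n) +
        (13344741535518952077703555441193/62979003359879674009502064523471891)*(mul_nonneg (mul_nonneg ((sub_pos.2 k3.RL)).le hb.r1n) hb.r1n))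
  · exact lt_irrefl (0:ℝ) (by
      linear_combination
        (715167371941287622378978161/16640998429674696710721211252)*(sub_pos.2 k2.TL) +
        (6948676908448705715219710137/16640998429674696710721211252)*(mul_nonneg hb.B1n (neg_nonneg.2 s)) +
        (16347812591239946156090631741/16640998429674696710721211252)*(mul_nonneg (mul_nonneg hb.B1n hb.c21) o1) +
        (3995177122489076259202909165/16640998429674696710721211252)*(mul_pos (sub_pos.2 k5.RL) (k6.pos hb.a2n)) +
        (732281467141010440005985233/8320499214837348355360605626)*(mul_nonneg (mul_nonneg hb.B2n (neg_nonneg.2 s)) (neg_nonneg.2 s)) +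
        (6597625600487249598721723819/33281996859349393421442422504)*(mul_nonneg ((sub_pos.2 k2.TB)).le hb.B1n) +
        (1198368262701835289441736861/16640998429674696710721211252)*(mul_nonneg (mul_nonneg (hb.TR1).le hb.c21) hb.c21) +
        (2781504829996872619639839697/33281996859349393421442422504)*(mul_nonneg (mul_nonneg ((sub_pos.2 k5.RL)).le hb.a1n) (neg_nonneg.2 s)) +
        (386289493501927079954069352/4160249607418674177680302813)*(mul_nonneg (mul_nonneg hb.B1n hb.B2n) (neg_nonneg.2 s)) +
        (1667748269719970690139747718/4160249607418674177680302813)*(mul_nonneg hb.qout hb.wout) +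
        (307503657986752757132278915/16640998429674696710721211252)*(mul_nonneg (mul_nonneg dca hb.b1n) hb.A2n) +
        (2243381507503478956991685225/33281996859349393421442422504)*(mul_nonneg ((sub_pos.2 k2.TL)).le dca) +
        (3172167665779064821091239039/16640998429674696710721211252)*(mul_nonneg (mul_nonneg dca hb.a1n) hb.r2n) +
        (5720979080938071937248865043/66563993718698786842884845008)*(mul_nonneg (mul_nonneg ((sub_pos.2 k5.RL)).le hb.B1n) (neg_nonneg.2 s)) +
        (2836003001569319911379709677/66563993718698786842884845008)*(mul_pos (sub_pos.2 k6.TB) hb.TR1) +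
        (389524994763699867869856787/33281996859349393421442422504)*(mul_nonneg ((sub_pos.2 k6.TB)).le hb.Tp1) +
        (1316941895714851739627869231/16640998429674696710721211252)*(mul_nonneg (mul_nonneg ((sub_pos.2 k2.TB)).le hb.a1n) hb.c21) +
        (4128146319586389254669407105/66563993718698786842884845008)*(mul_nonneg (mul_nonneg ((sub_pos.2 k6.TB)).le hb.r1n) hb.c21) +
        (1820522260369026679050905524/4160249607418674177680302813)*(mul_pos (sub_pos.2 k1.Tw) hb.RB1) +
        (5666529094367045796328510933/66563993718698786842884845008)*(mul_nonneg ((sub_pos.2 k1.RL)).le dca) +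
        (393716485028973438478456375/16640998429674696710721211252)*(mul_nonneg (mul_nonneg ((sub_pos.2 k2.TB)).le hb.B2n) hb.c21) +
        (7366491014633005058963151825/16640998429674696710721211252)*(mul_nonneg hb.B2n (neg_nonneg.2 s)) +
        (772603228034344360861086921/16640998429674696710721211252)*(mul_pos (sub_pos.2 k1.Tw) (k3.pos hb.pc2.le)) +
        (2242612556710845782511983545/33281996859349393421442422504)*(mul_nonneg (mul_nonneg ((sub_pos.2 k3.RL)).le hb.a1n) hb.a1n) +
        (2156916945717402855392284869/16640998429674696710721211252)*(mul_nonneg (mul_nonneg ((sub_pos.2 k5.Rw)).le hb.r1n) (neg_nonneg.2 s)) +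
        (6794467873120401834900948907/33281996859349393421442422504)*(mul_nonneg (mul_nonneg hb.wout (hb.RB1).le) hb.B2n) +
        (15227224165056069822850825/4160249607418674177680302813)*(mul_nonneg ((sub_pos.2 k3.RL)).le hb.qout) +
        (2870677377875596588787134149/33281996859349393421442422504)*(mul_nonneg (mul_nonneg ((sub_pos.2 k6.TL)).le hb.a2n) hb.c21) +
        (376325942209849931852868817/33281996859349393421442422504)*(mul_nonneg (mul_nonneg ((sub_pos.2 k2.TB)).le hb.c21) hb.c21) +
        (3863709998779173638493083201/16640998429674696710721211252)*(mul_nonneg (mul_nonneg dca (hb.TR1).le) hb.r2n) +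
        (353690225576980087091773505/4160249607418674177680302813)*(mul_nonneg (mul_nonneg hb.wout hb.B2n) hb.r1n) +
        (880929214705222950594502155/33281996859349393421442422504)*(mul_nonneg (mul_nonneg ((sub_pos.2 k3.RL)).le hb.a2n) hb.A2n) +
        (930749115744075871392699651/8320499214837348355360605626)*(mul_nonneg (mul_nonneg ((sub_pos.2 k2.TL)).le hb.A2n) hb.r1n) +
        (930749115744075871392699651/8320499214837348355360605626)*(mul_nonneg (mul_nonneg ((sub_pos.2 k2.RL)).le hb.B2n) hb.r1n) +
        (1368200387987017184925728555/16640998429674696710721211252)*(mul_nonneg (mul_nonneg ((sub_pos.2 k6.TL)).le hb.a1n) hb.A2n) +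
        (671568019344188212621071287/33281996859349393421442422504)*(mul_nonneg (mul_nonneg ((sub_pos.2 k5.RL)).le hb.a1n) hb.c21) +
        (206202630308134659274091100/4160249607418674177680302813)*(mul_nonneg (mul_nonneg hb.r1n hb.c21) o1) +
        (933691719345416162541635773/33281996859349393421442422504)*(mul_nonneg (mul_nonneg hb.r2n hb.Lp1) (neg_nonneg.2 s)) +
        (2353862755203570263796875247/16640998429674696710721211252)*(mul_nonneg (mul_nonneg ((sub_pos.2 k5.Rw)).le hb.a2n) hb.Tp1) +
        (378591241564030352914211728/4160249607418674177680302813)*(mul_nonneg (mul_nonneg ((sub_pos.2 k1.Tw)).le hb.a1n) hb.r2n) +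
        (3558479771113714585891017039/66563993718698786842884845008)*(sub_pos.2 k5.RL) +
        (98472904743083704202295189/16640998429674696710721211252)*(mul_nonneg (mul_nonneg ((sub_pos.2 k2.TB)).le hb.r1n) (neg_nonneg.2 s)) +
        (732281467141010440005985233/8320499214837348355360605626)*(mul_nonneg ((mul_pos (sub_pos.2 k2.TL) hb.TR1)).le hb.a1n) +
        (279386974739007236219643090/4160249607418674177680302813)*(mul_nonneg (mul_nonneg (hb.TR1).le hb.B2n) hb.c21) +
        (2202180732478352455991944961/33281996859349393421442422504)*(mul_nonneg (mul_nonneg (hb.TR1).le hb.c21) (neg_nonneg.2 s)) +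
        (665365339967187090734101715/16640998429674696710721211252)*(mul_pos (sub_pos.2 k2.TL) hb.TR1) +
        (2761632469366671704131849347/66563993718698786842884845008)*(mul_nonneg ((mul_pos (sub_pos.2 k3.TB) hb.TR1)).le o1) +
        (564892804889647571047357515/8320499214837348355360605626)*(mul_nonneg (mul_nonneg hb.Tp1 hb.c21) hb.c21) +
        (552963140411850518734586711/8320499214837348355360605626)*(mul_nonneg (mul_nonneg dca hb.B2n) hb.Tp1) +
        (3193360070627643283341060435/33281996859349393421442422504)*(mul_nonneg ((sub_pos.2 k4.TB)).le hb.c21) +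
        (43840257613745893838368075/33281996859349393421442422504)*(mul_nonneg ((mul_pos (sub_pos.2 k6.TB) hb.TR1)).le hb.r1n) +
        (480199234779712818920099659/66563993718698786842884845008)*(mul_nonneg (mul_nonneg dca (hb.TR1).le) hb.c12) +
        (732281467141010440005985233/4160249607418674177680302813)*(mul_nonneg (mul_nonneg hb.wout hb.B1n) o1) +
        (1579558140218787759129811055/16640998429674696710721211252)*(mul_nonneg ((sub_pos.2 k2.TB)).le hb.B2n) +
        (357746220561814097059764158/4160249607418674177680302813)*(mul_nonneg ((sub_pos.2 k2.TB)).le hb.r2n) +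
        (536762201972659847836638779/66563993718698786842884845008)*(mul_nonneg ((mul_pos (sub_pos.2 k5.Rw) hb.TR1)).le hb.c21) +
        (5061206169299765946563720077/33281996859349393421442422504)*(mul_nonneg ((sub_pos.2 k6.RL)).le (neg_nonneg.2 s)) +
        (158930306435134378791447359/33281996859349393421442422504)*(mul_nonneg (mul_nonneg ((sub_pos.2 k5.RL)).le hb.a2n) (neg_nonneg.2 s)) +
        (598252176692926327036976097/8320499214837348355360605626)*(mul_nonneg (mul_nonneg hb.b1n o1) (neg_nonneg.2 s)) +
        (189295620782015176457105864/4160249607418674177680302813)*(mul_nonneg (mul_nonneg ((sub_pos.2 k6.TB)).le hb.a1n) (neg_nonneg.2 s)) +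
        (732281467141010440005985233/16640998429674696710721211252)*(mul_nonneg (mul_nonneg ((sub_pos.2 k7.Rw)).le hb.B1n) (neg_nonneg.2 s)) +
        (158930306435134378791447359/16640998429674696710721211252)*(mul_nonneg (mul_nonneg ((sub_pos.2 k2.TL)).le hb.a2n) hb.A2n) +
        (378591241564030352914211728/4160249607418674177680302813)*(mul_nonneg (mul_nonneg ((sub_pos.2 k6.TL)).le hb.a1n) o1) +
        (7435384357716418521786541431/33281996859349393421442422504)*(mul_nonneg (mul_nonneg hb.wout (hb.TR1).le) hb.B2n) +
        (542133640741638173928980942/4160249607418674177680302813)*(mul_nonneg (mul_nonneg dca hb.A2n) hb.A2n) +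
        (7593956291077122582828308597/33281996859349393421442422504)*(mul_nonneg (mul_nonneg (hb.TR1).le hb.r1n) hb.c21) +
        (59635078710923183285774937/16640998429674696710721211252)*(mul_nonneg (mul_nonneg ((sub_pos.2 k3.RL)).le hb.c21) hb.c21) +
        (203345806166779494471475955/8320499214837348355360605626)*(mul_nonneg (mul_nonneg ((sub_pos.2 k1.Tw)).le hb.A2n) hb.B1n) +
        (112155359466380347636125785/8320499214837348355360605626)*(mul_nonneg (mul_nonneg ((sub_pos.2 k2.RL)).le hb.pB2) hb.c21) +
        (248201941390720822480263635/8320499214837348355360605626)*(mul_nonneg (mul_nonneg hb.c21 hb.c21) (neg_nonneg.2 s)) +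
        (583498812557713448893981879/8320499214837348355360605626)*(mul_nonneg (mul_nonneg ((sub_pos.2 k6.TB)).le hb.c21) (neg_nonneg.2 s)) +
        (111861841983960601253705148/4160249607418674177680302813)*(mul_nonneg (mul_nonneg ((sub_pos.2 k1.Tw)).le hb.A2n) hb.c21) +
        (378591241564030352914211728/4160249607418674177680302813)*(mul_nonneg (mul_nonneg hb.a1n hb.a1n) (neg_nonneg.2 s)) +
        (158930306435134378791447359/16640998429674696710721211252)*(mul_nonneg (mul_nonneg ((sub_pos.2 k2.TL)).le hb.a2n) hb.B2n) +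
        (158930306435134378791447359/16640998429674696710721211252)*(mul_nonneg (mul_nonneg ((sub_pos.2 k6.RB)).le hb.a2n) (neg_nonneg.2 s)) +
        (445605886788072409398716296/4160249607418674177680302813)*(mul_nonneg (mul_nonneg hb.a1n hb.r2n) (neg_nonneg.2 s)) +
        (800334174979535510790195213/16640998429674696710721211252)*(mul_nonneg (mul_nonneg hb.A2n hb.B2n) hb.c21) +
        (1185306072812100455391383761/16640998429674696710721211252)*(mul_nonneg (mul_nonneg dca hb.A2n) (neg_nonneg.2 s)) +
        (1790622718323772811988610297/8320499214837348355360605626)*(mul_nonneg (mul_nonneg dca hb.c21) o1) +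
        (3235103256356564270534802427/16640998429674696710721211252)*(mul_nonneg (mul_nonneg (hb.TR1).le hb.B1n) hb.c21) +
        (158930306435134378791447359/8320499214837348355360605626)*(mul_nonneg (mul_nonneg ((sub_pos.2 k1.Tw)).le hb.a2n) hb.a2n) +
        (550508986812069918943522579/16640998429674696710721211252)*(mul_nonneg (mul_nonneg ((sub_pos.2 k6.TB)).le hb.c21) hb.c21) +
        (279256861469920424620586705/16640998429674696710721211252)*(mul_nonneg (mul_nonneg ((sub_pos.2 k5.Rw)).le hb.A2n) hb.c21) +
        (2258632682837264929994710733/16640998429674696710721211252)*(mul_nonneg (mul_nonneg ((sub_pos.2 k5.Rw)).le hb.r2n) o0) +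
        (98472904743083704202295189/8320499214837348355360605626)*(mul_nonneg (mul_nonneg ((sub_pos.2 k2.RL)).le hb.r1n) o1) +
        (272924693339701397500735698/4160249607418674177680302813)*(mul_nonneg (mul_nonneg hb.wout (hb.RB1).le) hb.A1n) +
        (203345806166779494471475955/8320499214837348355360605626)*(mul_nonneg (mul_nonneg ((sub_pos.2 k1.Tw)).le hb.B1n) hb.B2n) +
        (422546351948792139192382369/66563993718698786842884845008)*(mul_nonneg ((mul_pos (sub_pos.2 k3.RL) hb.TR1)).le hb.c21) +
        (97157924061745104296595829/16640998429674696710721211252)*(sub_pos.2 k6.TL) +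
        (2258632682837264929994710733/16640998429674696710721211252)*(mul_nonneg (mul_nonneg ((sub_pos.2 k5.Rw)).le hb.r2n) hb.Tp1) +
        (1534650545019463412922172741/66563993718698786842884845008)*(mul_nonneg (mul_nonneg ((sub_pos.2 k5.RL)).le hb.A1n) hb.B1n) +
        (641924565154145907176764851/16640998429674696710721211252)*(mul_nonneg (mul_nonneg ((sub_pos.2 k7.RL)).le hb.a1n) hb.c21) +
        (98472904743083704202295189/8320499214837348355360605626)*(mul_nonneg (mul_nonneg ((sub_pos.2 k2.TB)).le hb.r1n) hb.r2n) +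
        (1182857966387498796022103051/16640998429674696710721211252)*(mul_nonneg (mul_nonneg hb.B2n hb.Tp1) hb.c21) +
        (707380451153960174183547010/4160249607418674177680302813)*(mul_nonneg ((sub_pos.2 k1.Tw)).le hb.Tp1) +
        (1316313227022739117496811405/33281996859349393421442422504)*(mul_nonneg (mul_nonneg ((sub_pos.2 k3.Rw)).le hb.a1n) (neg_nonneg.2 s)) +
        (1534650545019463412922172741/66563993718698786842884845008)*(mul_nonneg (mul_nonneg ((sub_pos.2 k5.RL)).le hb.B1n) hb.B1n) +
        (6677901489009780230184480383/33281996859349393421442422504)*(mul_nonneg (mul_nonneg ((sub_pos.2 k3.RL)).le hb.a1n) o1) +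
        (357746220561814097059764158/4160249607418674177680302813)*(mul_nonneg ((mul_pos (sub_pos.2 k2.TB) hb.TR1)).le hb.r2n) +
        (596852455072878774888432603/33281996859349393421442422504)*(mul_nonneg (mul_nonneg ((sub_pos.2 k5.Rw)).le hb.c21) (neg_nonneg.2 s)) +
        (2253514826789793303990680245/33281996859349393421442422504)*(mul_nonneg (mul_nonneg (hb.TR1).le hb.c21) o0) +
        (7106300439860065935059628091/33281996859349393421442422504)*(mul_nonneg (mul_nonneg (hb.TR1).le hb.r2n) hb.c21) +
        (184006037105099406049282621/16640998429674696710721211252)*(mul_nonneg ((mul_pos (sub_pos.2 k0.Rw) hb.TR1)).le (neg_nonneg.2 s)) +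
        (2709739012704192369238840379/16640998429674696710721211252)*(mul_nonneg (mul_nonneg hb.wout hb.A2n) o1) +
        (876128666605088407908299023/16640998429674696710721211252)*(mul_nonneg dca hb.Tp1) +
        (2544941522516980270274378489/33281996859349393421442422504)*(mul_nonneg (mul_nonneg dca hb.r1n) hb.c21) +
        (5539260817320033065973028419/16640998429674696710721211252)*(mul_nonneg ((sub_pos.2 k1.Tw)).le hb.r2n) +
        (244093822380336813335328411/8320499214837348355360605626)*(mul_nonneg (mul_nonneg ((sub_pos.2 k1.Tw)).le hb.A1n) hb.B1n) +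
        (3768103795871408901987535779/33281996859349393421442422504)*(mul_nonneg ((mul_pos (sub_pos.2 k2.RL) hb.TR1)).le hb.B1n) +
        (1368200387987017184925728555/16640998429674696710721211252)*(mul_nonneg (mul_nonneg ((sub_pos.2 k1.Tw)).le hb.a1n) hb.B2n) +
        (279256861469920424620586705/16640998429674696710721211252)*(mul_nonneg (mul_nonneg ((sub_pos.2 k5.Rw)).le hb.B2n) (neg_nonneg.2 s)) +
        (1368200387987017184925728555/16640998429674696710721211252)*(mul_nonneg (mul_nonneg ((sub_pos.2 k6.TB)).le hb.a2n) hb.B2n) +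
        (608253946018912072317700873/4160249607418674177680302813)*(mul_nonneg ((mul_pos (sub_pos.2 k6.RL) hb.TR1)).le hb.Tp1) +
        (244093822380336813335328411/8320499214837348355360605626)*(mul_nonneg ((mul_pos (sub_pos.2 k1.Tw) hb.RB1)).le hb.B1n) +
        (244093822380336813335328411/8320499214837348355360605626)*(mul_nonneg (mul_nonneg ((sub_pos.2 k1.Tw)).le hb.B1n) hb.B1n) +
        (1368200387987017184925728555/33281996859349393421442422504)*(mul_nonneg (mul_nonneg ((sub_pos.2 k1.RB)).le hb.B2n) (neg_nonneg.2 s)) +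
        (50337614351814396904847365/4160249607418674177680302813)*(mul_nonneg (mul_nonneg hb.wout hb.r2n) hb.Tp1) +
        (5667272118405575776027654139/66563993718698786842884845008)*(mul_pos (mul_pos (sub_pos.2 k6.TB) hb.TR1) hb.TR1) +
        (2710759272637143441967031063/66563993718698786842884845008)*(mul_nonneg ((mul_pos (sub_pos.2 k3.RL) hb.TR1)).le hb.r2n) +
        (637293628064325833428888955/33281996859349393421442422504)*(mul_nonneg (mul_nonneg ((sub_pos.2 k6.RL)).le hb.B2n) hb.Tp1) +
        (5917257250579410409214972267/66563993718698786842884845008)*(mul_nonneg ((sub_pos.2 k6.RL)).le hb.wout) +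
        (40297519862843719902153471/16640998429674696710721211252)*(mul_nonneg (mul_nonneg ((sub_pos.2 k1.Tw)).le hb.B2n) hb.c12) +
        (111227148783097519799972662/4160249607418674177680302813)*(mul_nonneg ((mul_pos hb.TR1 hb.TR1)).le hb.c21) +
        (603337081657247846483402531/16640998429674696710721211252)*(mul_nonneg (mul_nonneg ((sub_pos.2 k5.Rw)).le hb.c21) o1) +
        (439936712955937839952628671/4160249607418674177680302813)*(mul_nonneg (mul_nonneg hb.B2n hb.c21) (neg_nonneg.2 s)) +
        (1206674163314495692966805062/4160249607418674177680302813)*(mul_nonneg (mul_nonneg hb.r2n hb.c21) o1) +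
        (575288184893030035563899631/16640998429674696710721211252)*(mul_nonneg (mul_nonneg hb.A2n hb.c21) o1) +
        (2709739012704192369238840379/16640998429674696710721211252)*(mul_nonneg (mul_nonneg hb.B1n hb.r2n) (neg_nonneg.2 s)) +
        (603337081657247846483402531/4160249607418674177680302813)*(mul_nonneg (mul_nonneg dca hb.r2n) hb.r2n) +
        (4172520641418044533147492783/66563993718698786842884845008)*(mul_nonneg (mul_nonneg dca hb.B1n) hb.c21) +
        (2273067005040957922157685195/8320499214837348355360605626)*(mul_nonneg (mul_nonneg hb.B1n hb.Tp1) hb.c21) +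
        (2280459473066976948945923767/33281996859349393421442422504)*(mul_nonneg (mul_nonneg ((sub_pos.2 k3.RL)).le hb.a1n) hb.r1n) +
        (1130678385809741792198695479/33281996859349393421442422504)*(mul_nonneg (mul_nonneg ((sub_pos.2 k6.TL)).le hb.a1n) hb.r1n) +
        (98472904743083704202295189/8320499214837348355360605626)*(mul_nonneg (mul_nonneg ((sub_pos.2 k5.Rw)).le hb.r1n) hb.c21) +
        (60908896660224279291403300/4160249607418674177680302813)*(mul_nonneg (mul_nonneg hb.qout hb.B1n) hb.c21) +
        (603337081657247846483402531/16640998429674696710721211252)*(mul_nonneg (mul_nonneg ((sub_pos.2 k5.Rw)).le hb.r2n) (neg_nonneg.2 s)) +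
        (30454448330112139645701650/4160249607418674177680302813)*(mul_nonneg ((mul_pos (sub_pos.2 k3.RL) hb.RB1)).le hb.B1n) +
        (188374973539792421890323621/4160249607418674177680302813)*(mul_nonneg ((mul_pos (sub_pos.2 k1.Tw) hb.RB1)).le hb.a1n) +
        (1797313122586111002364720883/33281996859349393421442422504)*(mul_nonneg ((mul_pos (sub_pos.2 k6.TL) hb.TR1)).le hb.a2n) +
        (2273067005040957922157685195/33281996859349393421442422504)*(mul_nonneg (mul_nonneg ((sub_pos.2 k5.RL)).le hb.b1n) hb.B1n) +
        (603337081657247846483402531/16640998429674696710721211252)*(mul_nonneg (mul_nonneg ((sub_pos.2 k5.Rw)).le hb.a1n) hb.r2n) +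
        (2709739012704192369238840379/16640998429674696710721211252)*(mul_nonneg (mul_nonneg hb.B2n hb.r2n) (neg_nonneg.2 s)) +
        (732281467141010440005985233/8320499214837348355360605626)*(mul_nonneg (mul_nonneg hb.wout hb.a1n) hb.r2n) +
        (245992290251187377163400715/4160249607418674177680302813)*(mul_nonneg (mul_nonneg hb.a2n (neg_nonneg.2 s)) (neg_nonneg.2 s)) +
        (491984580502374754326801430/4160249607418674177680302813)*(mul_nonneg (mul_nonneg hb.a2n hb.a2n) (neg_nonneg.2 s)) +
        (52226763273037417967930211/4160249607418674177680302813)*(mul_nonneg ((mul_pos (sub_pos.2 k0.Rw) hb.RB1)).le (neg_nonneg.2 s)) +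
        (1534650545019463412922172741/66563993718698786842884845008)*(mul_nonneg (mul_nonneg ((sub_pos.2 k5.Rw)).le hb.B1n) hb.c12) +
        (2732331466714884710126021077/33281996859349393421442422504)*(mul_nonneg (mul_nonneg dca hb.a1n) (neg_nonneg.2 s)) +
        (186879598853806372478731323/4160249607418674177680302813)*(mul_nonneg (mul_nonneg ((sub_pos.2 k2.TB)).le hb.B1n) hb.c21) +
        (4414298287365917884683723287/33281996859349393421442422504)*(mul_nonneg (mul_nonneg hb.wout (hb.TR1).le) hb.r1n) +
        (1534650545019463412922172741/33281996859349393421442422504)*(mul_nonneg ((mul_pos (sub_pos.2 k5.RL) hb.RB1)).le hb.B1n) +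
        (1753238334454558721135430411/16640998429674696710721211252)*(mul_nonneg ((sub_pos.2 k5.Rw)).le dca) +
        (108900377598981854261057137/8320499214837348355360605626)*(mul_nonneg ((sub_pos.2 k5.RL)).le hb.c12) +
        (3607162461835585179301965739/66563993718698786842884845008)*(mul_nonneg (mul_nonneg hb.wout hb.r1n) hb.c21) +
        (637293628064325833428888955/33281996859349393421442422504)*(mul_nonneg (mul_nonneg ((sub_pos.2 k6.RL)).le hb.A2n) hb.r1n) +
        (1175285061749263117683116691/33281996859349393421442422504)*(mul_nonneg (mul_nonneg dca hb.c21) (neg_nonneg.2 s)) +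
        (24901015987050265822438223/8320499214837348355360605626)*(mul_nonneg (mul_nonneg ((sub_pos.2 k6.RL)).le hb.r2n) hb.c12) +
        (1592711566824510670756493559/16640998429674696710721211252)*(mul_nonneg (mul_nonneg dca hb.A2n) hb.r2n) +
        (1069769489149517512907292179/33281996859349393421442422504)*(mul_nonneg (mul_nonneg hb.wout hb.B1n) hb.Tp1) +
        (1130678385809741792198695479/33281996859349393421442422504)*(mul_nonneg (mul_nonneg ((sub_pos.2 k1.Tw)).le hb.a1n) hb.Lp1) +
        (40297519862843719902153471/16640998429674696710721211252)*(mul_nonneg (mul_nonneg ((sub_pos.2 k7.RL)).le hb.B2n) hb.B2n) +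
        (933691719345416162541635773/33281996859349393421442422504)*(mul_nonneg (mul_nonneg hb.r1n hb.r2n) (neg_nonneg.2 s)) +
        (4000204550535698677783283661/66563993718698786842884845008)*(mul_nonneg (mul_nonneg dca hb.Tp1) hb.c21) +
        (1473777510604813908267094381/33281996859349393421442422504)*(mul_nonneg (mul_nonneg hb.a1n hb.r1n) (neg_nonneg.2 s)) +
        (292148419937615661006072053/8320499214837348355360605626)*(mul_nonneg (mul_nonneg dca hb.a1n) hb.c12) +
        (1359712923478088082316515723/16640998429674696710721211252)*(mul_nonneg (mul_nonneg (hb.TR1).le o1) (neg_nonneg.2 s)) +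
        (1118158087278066777155618057/33281996859349393421442422504)*(mul_nonneg (mul_nonneg dca hb.a2n) hb.Tp1) +
        (111101693805528366922988793/4160249607418674177680302813)*(mul_nonneg (mul_nonneg dca hb.r2n) (neg_nonneg.2 s)) +
        (50337614351814396904847365/8320499214837348355360605626)*(mul_nonneg (mul_nonneg ((sub_pos.2 k1.RB)).le hb.r1n) (neg_nonneg.2 s)) +
        (18809657584716165681821397/8320499214837348355360605626)*(mul_nonneg (mul_nonneg ((sub_pos.2 k3.RL)).le hb.r2n) hb.c21) +
        (37153418321419210179969636/4160249607418674177680302813)*(mul_nonneg (mul_nonneg ((sub_pos.2 k7.RL)).le hb.B1n) hb.c21) +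
        (560146640575760115577234753/33281996859349393421442422504)*(mul_nonneg (mul_nonneg ((sub_pos.2 k6.RL)).le hb.r2n) hb.Tp1) +
        (560146640575760115577234753/33281996859349393421442422504)*(mul_nonneg (mul_nonneg ((sub_pos.2 k6.TL)).le hb.r1n) o1) +
        (98472904743083704202295189/8320499214837348355360605626)*(mul_nonneg (mul_nonneg ((sub_pos.2 k5.RL)).le hb.a1n) o0) +
        (174987902856808388959798369/66563993718698786842884845008)*(mul_nonneg (mul_nonneg dca hb.A2n) hb.c21) +
        (196945809486167408404590378/4160249607418674177680302813)*(mul_nonneg (mul_nonneg hb.r1n hb.Tp1) hb.c21) +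
        (98472904743083704202295189/8320499214837348355360605626)*(mul_nonneg ((mul_pos (sub_pos.2 k2.RL) hb.TR1)).le hb.r1n) +
        (15227224165056069822850825/8320499214837348355360605626)*(mul_nonneg (mul_nonneg ((sub_pos.2 k6.TL)).le hb.a1n) hb.B1n) +
        (164797237910867410762717035/16640998429674696710721211252)*(mul_nonneg ((mul_pos (sub_pos.2 k2.RL) hb.TR1)).le hb.B2n) +
        (5922705925954632565974395/16640998429674696710721211252)*(mul_nonneg ((mul_pos (sub_pos.2 k6.TB) hb.TR1)).le hb.a1n) +
        (184006037105099406049282621/33281996859349393421442422504)*(mul_nonneg ((mul_pos (sub_pos.2 k5.Rw) hb.TR1)).le hb.c12) +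
        (94560560892149299239445971/33281996859349393421442422504)*(mul_nonneg (mul_nonneg ((sub_pos.2 k1.Tw)).le hb.A2n) hb.B2n) +
        (98472904743083704202295189/4160249607418674177680302813)*(mul_nonneg (mul_nonneg dca hb.Tp1) hb.Lp1) +
        (94560560892149299239445971/33281996859349393421442422504)*(mul_nonneg (mul_nonneg ((sub_pos.2 k1.Tw)).le hb.B2n) hb.B2n) +
        (49324770918998268020489143/16640998429674696710721211252)*(mul_nonneg (mul_nonneg ((sub_pos.2 k5.RL)).le hb.a1n) hb.a1n) +
        (98473757010419366797794165/16640998429674696710721211252)*(mul_nonneg (mul_nonneg hb.wout hb.a2n) hb.B2n) +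
        (723767356540597142257445787/33281996859349393421442422504)*(mul_nonneg ((mul_pos (sub_pos.2 k1.Tw) hb.TR1)).le hb.a1n) +
        (184006037105099406049282621/33281996859349393421442422504)*(mul_nonneg ((mul_pos (sub_pos.2 k1.Tw) hb.TR1)).le hb.c12) +
        (18923458178065583216970111/8320499214837348355360605626)*(mul_nonneg (mul_nonneg dca hb.B1n) hb.Tp1) +
        (72108236739074483114653453/33281996859349393421442422504)*(mul_nonneg ((sub_pos.2 k6.TB)).le hb.wout) +
        (9753867833128639460078481/8320499214837348355360605626)*(mul_nonneg (mul_nonneg ((sub_pos.2 k7.RL)).le hb.a1n) hb.Lp1) +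
        (9753867833128639460078481/4160249607418674177680302813)*(mul_nonneg (mul_nonneg hb.wout hb.a1n) hb.Tp1) +
        (157445725761244940338455833/66563993718698786842884845008)*(mul_nonneg (mul_nonneg ((sub_pos.2 k6.RL)).le hb.r1n) (neg_nonneg.2 s)) +
        (147621038567169140384101235/8320499214837348355360605626)*(mul_nonneg (mul_nonneg dca hb.a1n) o0) +
        (15227224165056069822850825/8320499214837348355360605626)*(mul_nonneg (mul_nonneg ((sub_pos.2 k6.RL)).le hb.B1n) o0) +
        (115043876355270638273774075/33281996859349393421442422504)*(mul_nonneg (mul_nonneg dca hb.a1n) hb.c21) +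
        (184006037105099406049282621/8320499214837348355360605626)*(mul_nonneg (mul_nonneg (hb.TR1).le hb.B2n) (neg_nonneg.2 s)) +
        (15227224165056069822850825/8320499214837348355360605626)*(mul_nonneg (mul_nonneg ((sub_pos.2 k6.TB)).le hb.B1n) hb.r1n) +
        (152122391763158796229466387/66563993718698786842884845008)*(mul_nonneg (mul_nonneg ((sub_pos.2 k5.Rw)).le hb.c21) hb.c21) +
        (2202323960545089607399541/8320499214837348355360605626)*(mul_nonneg (mul_nonneg hb.wout hb.r1n) o1) +
        (15227224165056069822850825/4160249607418674177680302813)*(mul_nonneg (mul_nonneg ((sub_pos.2 k6.RL)).le hb.B1n) hb.c21) +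
        (15227224165056069822850825/4160249607418674177680302813)*(mul_nonneg ((mul_pos (sub_pos.2 k6.TB) hb.TR1)).le hb.B1n) +
        (30454448330112139645701650/4160249607418674177680302813)*(mul_nonneg (mul_nonneg ((sub_pos.2 k3.RL)).le hb.B2n) hb.c21) +
        (38154897547146196623613713/33281996859349393421442422504)*(mul_nonneg (mul_nonneg ((sub_pos.2 k3.RL)).le hb.r2n) hb.Lp1) +
        (24901015987050265822438223/8320499214837348355360605626)*(mul_nonneg (mul_nonneg ((sub_pos.2 k1.Tw)).le hb.A2n) hb.r2n) +
        (563537671598185476370726675/33281996859349393421442422504)*(mul_nonneg (mul_nonneg dca (hb.TR1).le) (neg_nonneg.2 s)) +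
        (264663880656778521519129647/33281996859349393421442422504)*(mul_nonneg (mul_nonneg dca hb.r1n) hb.r2n) +
        (23534473314884159360712383/16640998429674696710721211252)*(mul_nonneg (mul_nonneg hb.wout (hb.RB1).le) (hb.RB1).le) +
        (96362546295003695086241911/16640998429674696710721211252)*(mul_nonneg (mul_nonneg hb.wout hb.B1n) hb.B2n) +
        (391998715731187954877288605/66563993718698786842884845008)*(mul_pos (sub_pos.2 k5.RL) hb.RB1) +
        (38154897547146196623613713/33281996859349393421442422504)*(mul_nonneg (mul_nonneg ((sub_pos.2 k3.RL)).le hb.r1n) hb.r2n) +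
        (342895147865072158580333967/33281996859349393421442422504)*(mul_nonneg (mul_nonneg dca hb.a1n) hb.Tp1) +
        (184815023975023140351969395/33281996859349393421442422504)*(mul_nonneg (mul_nonneg (hb.TR1).le hb.a1n) (neg_nonneg.2 s)) +
        (24901015987050265822438223/8320499214837348355360605626)*(mul_nonneg (mul_nonneg ((sub_pos.2 k1.Tw)).le hb.B2n) hb.r2n) +
        (19962328938794025164561683/66563993718698786842884845008)*(mul_nonneg (mul_nonneg dca hb.B2n) hb.c21))

theorem K81 {c1 c2 a1 a2 B1 B2 r1 r2 : ℝ} (hb : Base c1 c2 a1 a2 B1 B2 r1 r2) (dca : 0 ≤ c2*a1-c1*a2) (k0 : Y1 c1 c2 a1 a2 c1 c2 r1 r2) (k1 : Y1 c1 c2 a1 a2 (2-c1-a1) (2-c2-a2) (2-a1-r1) (a2-r2)) (k2 : Y1 c1 c2 a1 a2 a1 a2 B1 B2) (k3 : Y1 c1 (2-c2) B1 B2 c1 (2-c2) (2-r1-B1) (r2+B2)) (k4 : Y1 c1 (2-c2) B1 B2 c1 (2-c2) (2-c1-a1) (2-c2-a2)) (d22 : 0 ≤ a2-c2-2*r2) : False := by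
  exact lt_irrefl (0:ℝ) (by
      linear_combination
        (86966473377221809038407/3662827218770634613547568)*(sub_pos.2 k2.RL) +
        (33908634487386305981429/101745200521406517042988)*(sub_pos.2 k0.RL) +
        (17832357121807231917437/915706804692658653386892)*(mul_pos (mul_pos (sub_pos.2 k0.Rw) hb.RB1) hb.RB1) +
        (141417501142497617375951/915706804692658653386892)*(mul_nonneg (mul_nonneg (hb.TR1).le hb.r1n) d22) +
        (275255029904971159212811/915706804692658653386892)*(mul_nonneg (mul_nonneg (hb.RB1).le hb.r1n) d22) +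
        (163787743349626587845957/1831413609385317306773784)*(mul_nonneg (mul_nonneg hb.A2n hb.Lp1) hb.c21) +
        (67035440421418158547900/228926701173164663346723)*(mul_nonneg (mul_nonneg hb.r1n hb.r1n) hb.r2n) +
        (193859776244584082423123/1831413609385317306773784)*(mul_nonneg (mul_nonneg ((sub_pos.2 k2.TB)).le hb.r1n) d22) +
        (4197131025469827442356541/21976963312623807681285408)*(mul_nonneg ((mul_pos (sub_pos.2 k3.RL) hb.TR1)).le hb.a2n) +
        (209650084256423847043951/915706804692658653386892)*(mul_nonneg (hb.TR1).le hb.A2n) +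
        (10390175458229438120440/228926701173164663346723)*(mul_nonneg ((mul_pos hb.TR1 hb.TR1)).le hb.A2n) +
        (65470737631884192943169/915706804692658653386892)*(mul_nonneg hb.A2n hb.Lp1) +
        (15844089241827651509753/152617800782109775564482)*(sub_pos.2 k3.RL) +
        (13330034083893714455230/76308900391054887782241)*(mul_nonneg (mul_nonneg hb.A1n hb.r1n) d22) +
        (46377084699679784370478/228926701173164663346723)*(mul_nonneg (mul_nonneg hb.A2n hb.B1n) d22) +
        (36702995294787055635481/228926701173164663346723)*(mul_nonneg (mul_nonneg (hb.TR1).le hb.r2n) d22) +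
        (39340898959548668717761/457853402346329326693446)*(mul_nonneg ((sub_pos.2 k3.Rw)).le hb.c21) +
        (193859776244584082423123/457853402346329326693446)*(mul_nonneg (mul_nonneg hb.a2n hb.r2n) hb.Tp1) +
        (117306404221366776605311/915706804692658653386892)*(mul_nonneg (mul_nonneg ((sub_pos.2 k0.TB)).le hb.r2n) hb.c12) +
        (292826363142934966852/76308900391054887782241)*(mul_nonneg (mul_nonneg dca hb.r1n) hb.r2n) +
        (186544399068864682106749/1220942406256878204515856)*(mul_nonneg (mul_nonneg dca hb.A2n) hb.B1n) +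
        (193859776244584082423123/3662827218770634613547568)*(mul_nonneg (mul_nonneg ((sub_pos.2 k3.RL)).le hb.a2n) hb.a2n) +
        (26983891327332967969334/228926701173164663346723)*(mul_pos (sub_pos.2 k3.Rw) hb.TR1) +
        (216559450163237090881457/610471203128439102257928)*(mul_nonneg (mul_nonneg (hb.TR1).le hb.a1n) d22) +
        (26639208687328087993371/406980802085626068171952)*(mul_nonneg ((sub_pos.2 k2.RL)).le hb.B1n) +
        (91625070122069156731115/1220942406256878204515856)*(mul_nonneg (mul_nonneg ((sub_pos.2 k0.RL)).le hb.a2n) hb.b2n) +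
        (65213566431903119581233/101745200521406517042988)*(mul_nonneg (mul_nonneg hb.a1n hb.r1n) d22) +
        (435566354113564095580627/1831413609385317306773784)*(mul_nonneg (mul_nonneg ((sub_pos.2 k2.RL)).le hb.b2n) hb.r1n) +
        (5633420176945303912997/228926701173164663346723)*(mul_nonneg ((mul_pos (sub_pos.2 k0.RL) hb.TR1)).le hb.r2n) +
        (289682449602700512348737/686780103519493990040169)*(mul_nonneg (mul_nonneg hb.b2n hb.A2n) hb.r1n) +
        (7967202858809163028773/50872600260703258521494)*(mul_nonneg (mul_nonneg ((sub_pos.2 k4.RL)).le hb.B2n) hb.r1n) +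
        (22761161604605385141067/76308900391054887782241)*(mul_nonneg (mul_nonneg hb.A2n hb.r1n) d22) +
        (22761161604605385141067/152617800782109775564482)*(mul_nonneg (mul_nonneg ((sub_pos.2 k3.Rw)).le hb.B2n) hb.r2n) +
        (212739305664425294490059/1831413609385317306773784)*(mul_nonneg (mul_nonneg ((sub_pos.2 k4.RL)).le hb.B1n) hb.B2n) +
        (19868740544929018001075/228926701173164663346723)*(mul_nonneg (mul_nonneg ((sub_pos.2 k0.RL)).le hb.a1n) hb.B2n) +
        (149037729966359428021535/915706804692658653386892)*(mul_nonneg (mul_nonneg ((sub_pos.2 k0.TB)).le hb.A2n) hb.r2n) +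
        (98326298627061577758269/915706804692658653386892)*(mul_nonneg (mul_nonneg hb.qout hb.A2n) d22) +
        (145956445075044164919497/610471203128439102257928)*(mul_nonneg (mul_nonneg dca hb.a2n) d22) +
        (193859776244584082423123/3662827218770634613547568)*(mul_nonneg (mul_nonneg ((sub_pos.2 k2.RL)).le hb.a2n) hb.b2n) +
        (1145058166352715418613585/3662827218770634613547568)*(mul_nonneg (mul_nonneg hb.a2n hb.b2n) hb.A2n) +
        (893249091629771646147115/7325654437541269227095136)*(mul_nonneg (mul_nonneg ((sub_pos.2 k4.RL)).le hb.a2n) hb.B2n) +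
        (54605024033272990149885/813961604171252136343904)*(mul_nonneg (mul_nonneg hb.wout hb.a2n) hb.A2n) +
        (114159555653281676811431/1831413609385317306773784)*(mul_nonneg (mul_nonneg ((sub_pos.2 k3.RL)).le hb.B2n) hb.c21) +
        (94772723513585560953323/1831413609385317306773784)*(mul_nonneg (mul_nonneg ((sub_pos.2 k0.RL)).le hb.c21) d22) +
        (193859776244584082423123/915706804692658653386892)*(mul_nonneg (mul_nonneg ((sub_pos.2 k2.RL)).le hb.r1n) hb.r2n) +
        (778938966789636870281309/3662827218770634613547568)*(mul_pos (mul_pos (sub_pos.2 k2.RL) hb.TR1) hb.RB1) +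
        (26392317040419567285979/305235601564219551128964)*(mul_nonneg ((mul_pos (sub_pos.2 k2.TL) hb.TR1)).le hb.Tp1) +
        (78524741282892724224859/915706804692658653386892)*(mul_nonneg (mul_nonneg ((sub_pos.2 k2.RL)).le hb.r1n) hb.c21) +
        (40507717060811693885111/915706804692658653386892)*(mul_nonneg (mul_nonneg ((sub_pos.2 k0.RL)).le hb.a2n) hb.r2n) +
        (40507717060811693885111/1831413609385317306773784)*(mul_nonneg (mul_nonneg ((sub_pos.2 k0.TB)).le d22) d22) +
        (40507717060811693885111/915706804692658653386892)*(mul_nonneg (mul_nonneg ((sub_pos.2 k0.RL)).le hb.r2n) d22) +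
        (48814689749032104144731/610471203128439102257928)*(mul_nonneg (mul_nonneg hb.A2n hb.B1n) hb.Lp1) +
        (393666156002315341798663/1831413609385317306773784)*(mul_nonneg (mul_nonneg (hb.TR1).le hb.a1n) hb.A2n) +
        (20467794390093646619105/915706804692658653386892)*(mul_nonneg ((mul_pos (sub_pos.2 k0.RL) hb.TR1)).le hb.c21) +
        (14796595180650684582758/228926701173164663346723)*(mul_nonneg (mul_nonneg hb.B1n hb.r1n) d22) +
        (14585523417150424693160/228926701173164663346723)*(mul_nonneg ((mul_pos (sub_pos.2 k4.RL) hb.TR1)).le hb.B1n) +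
        (3530554786871672323711/76308900391054887782241)*(mul_nonneg ((mul_pos (sub_pos.2 k0.RL) hb.RB1)).le hb.B1n) +
        (57618213782132705758582/228926701173164663346723)*(mul_nonneg (mul_nonneg dca hb.b2n) hb.B1n) +
        (321443537091878695782785/5494240828155951920321352)*(mul_nonneg (mul_nonneg hb.A2n hb.r1n) hb.c21) +
        (134343076980807424322455/915706804692658653386892)*(mul_nonneg (mul_nonneg hb.qout (hb.RB1).le) d22) +
        (36444469051926981840149/228926701173164663346723)*(mul_nonneg (mul_nonneg ((sub_pos.2 k4.RL)).le hb.B2n) hb.B2n) +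
        (3131764714674120651905/152617800782109775564482)*(mul_nonneg (mul_nonneg ((sub_pos.2 k3.Rw)).le hb.r1n) hb.Lp1) +
        (12143866037840190291122/228926701173164663346723)*(mul_nonneg ((mul_pos (sub_pos.2 k3.RL) hb.TR1)).le hb.r1n) +
        (362390373165766746480127/305235601564219551128964)*(mul_nonneg dca hb.r2n) +
        (74857698727604330883619/228926701173164663346723)*(mul_nonneg (mul_nonneg hb.A1n hb.r1n) hb.r2n) +
        (461544091412391427176703/1831413609385317306773784)*(mul_nonneg ((mul_pos (sub_pos.2 k0.RL) hb.RB1)).le hb.a2n) +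
        (180454792070610658867297/1831413609385317306773784)*(mul_nonneg (mul_nonneg hb.qout (hb.RB1).le) hb.A2n) +
        (21485281722428831966969/228926701173164663346723)*(mul_nonneg ((mul_pos (sub_pos.2 k0.RL) hb.RB1)).le hb.r1n) +
        (193859776244584082423123/3662827218770634613547568)*(mul_nonneg (mul_nonneg ((sub_pos.2 k2.TL)).le hb.a2n) hb.a2n) +
        (178122408636615042539689/610471203128439102257928)*(mul_nonneg (mul_nonneg (hb.RB1).le hb.A2n) hb.B1n) +
        (10564200723008344493531/457853402346329326693446)*(mul_nonneg (mul_nonneg ((sub_pos.2 k4.Rw)).le hb.B1n) hb.c21) +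
        (36951729091171998953447/1831413609385317306773784)*(mul_nonneg (mul_nonneg ((sub_pos.2 k3.RL)).le hb.A2n) hb.B1n) +
        (36951729091171998953447/1831413609385317306773784)*(mul_nonneg (mul_nonneg ((sub_pos.2 k3.RL)).le hb.B1n) hb.B2n) +
        (2787254736457216888616101/21976963312623807681285408)*(mul_nonneg (mul_nonneg ((sub_pos.2 k3.RL)).le hb.a2n) hb.c21) +
        (383549623750518207018593/3662827218770634613547568)*(mul_nonneg ((mul_pos (sub_pos.2 k2.RL) hb.RB1)).le hb.c21) +
        (48814689749032104144731/610471203128439102257928)*(mul_nonneg (mul_nonneg hb.A2n hb.B1n) hb.r1n) +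
        (212739305664425294490059/1831413609385317306773784)*(mul_nonneg (mul_nonneg ((sub_pos.2 k3.RL)).le hb.a2n) hb.B1n) +
        (26639208687328087993371/406980802085626068171952)*(mul_nonneg ((mul_pos (sub_pos.2 k2.RL) hb.RB1)).le hb.B1n) +
        (185725733142897797039779/3662827218770634613547568)*(mul_nonneg (mul_nonneg ((sub_pos.2 k2.RL)).le hb.B1n) hb.c12) +
        (22761161604605385141067/76308900391054887782241)*(mul_nonneg (mul_nonneg hb.A2n hb.B2n) hb.r2n) +
        (31836346305878034326683/610471203128439102257928)*(mul_nonneg (mul_nonneg hb.qout (hb.TR1).le) hb.A2n) +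
        (15254629649041178488904/228926701173164663346723)*(mul_nonneg (mul_nonneg ((sub_pos.2 k0.RL)).le hb.B2n) hb.r2n) +
        (5394195361937510753387/203490401042813034085976)*(mul_nonneg (mul_nonneg ((sub_pos.2 k0.RL)).le hb.B2n) d22) +
        (36702995294787055635481/228926701173164663346723)*(mul_nonneg hb.r2n d22) +
        (29929342688500174013981/152617800782109775564482)*(mul_nonneg (mul_nonneg hb.a1n hb.c21) d22) +
        (42415997580626023039567/1373560207038987980080338)*(mul_nonneg (mul_nonneg ((sub_pos.2 k3.RL)).le hb.a2n) hb.B2n) +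
        (82936329539002901696419/3662827218770634613547568)*(mul_nonneg ((mul_pos (sub_pos.2 k0.TB) hb.RB1)).le hb.A2n) +
        (23908384583084497970005/457853402346329326693446)*(mul_nonneg (mul_nonneg ((sub_pos.2 k3.RL)).le hb.r1n) hb.c21) +
        (954057054283138573475449/7325654437541269227095136)*(mul_nonneg (mul_nonneg dca (hb.TR1).le) hb.B2n) +
        (99729505890992024728831/457853402346329326693446)*(mul_nonneg (mul_nonneg hb.A2n hb.B2n) hb.c21) +
        (49198122482138889860897/915706804692658653386892)*(mul_nonneg (mul_nonneg ((sub_pos.2 k0.RL)).le hb.b2n) hb.B2n) +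
        (1668041347227372505597985/7325654437541269227095136)*(mul_nonneg (mul_nonneg dca hb.B2n) hb.c21) +
        (3376696565190937181285/228926701173164663346723)*(mul_nonneg (mul_nonneg ((sub_pos.2 k3.RL)).le hb.b1n) hb.B1n) +
        (2020821328687383215598161/7325654437541269227095136)*(mul_nonneg ((sub_pos.2 k2.TL)).le hb.B2n) +
        (145956445075044164919497/305235601564219551128964)*(mul_nonneg (mul_nonneg dca hb.a2n) hb.r2n) +
        (3530554786871672323711/76308900391054887782241)*(mul_nonneg (mul_nonneg ((sub_pos.2 k0.RL)).le hb.B1n) hb.c12) +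
        (129646229313929653555693/457853402346329326693446)*(mul_nonneg (mul_nonneg hb.b2n hb.A2n) hb.B2n) +
        (21485281722428831966969/228926701173164663346723)*(mul_nonneg (mul_nonneg ((sub_pos.2 k0.RL)).le hb.r1n) hb.c12) +
        (43140211295068706740273/915706804692658653386892)*(mul_nonneg (mul_nonneg ((sub_pos.2 k0.RL)).le hb.b1n) hb.A2n) +
        (10966091176254139128617/76308900391054887782241)*(mul_nonneg (mul_nonneg hb.r2n hb.r2n) hb.c21) +
        (51931264660421783438965/457853402346329326693446)*(mul_nonneg (mul_nonneg hb.a2n hb.r2n) d22) +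
        (51931264660421783438965/228926701173164663346723)*(mul_nonneg (mul_nonneg hb.a2n hb.r2n) hb.r2n) +
        (1370330039117367818214205/21976963312623807681285408)*(mul_nonneg (mul_nonneg ((sub_pos.2 k2.RL)).le hb.A2n) hb.A2n) +
        (1370330039117367818214205/21976963312623807681285408)*(mul_nonneg (mul_nonneg ((sub_pos.2 k2.RL)).le hb.A2n) hb.B2n) +
        (1758313136113714988407/50872600260703258521494)*(mul_nonneg ((mul_pos (sub_pos.2 k4.RL) hb.TR1)).le hb.r1n) +
        (55165416906228415442390/228926701173164663346723)*(mul_nonneg (mul_nonneg (hb.RB1).le hb.B1n) d22) +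
        (964133489483995112793/50872600260703258521494)*(mul_nonneg (mul_nonneg ((sub_pos.2 k3.RL)).le hb.a1n) hb.c21) +
        (261913807842174824657263/1220942406256878204515856)*(mul_nonneg (mul_nonneg dca hb.a2n) hb.b2n) +
        (567199043829540574101/25436300130351629260747)*(mul_nonneg (mul_nonneg hb.A2n hb.A2n) hb.r1n) +
        (567199043829540574101/101745200521406517042988)*(mul_nonneg (mul_nonneg ((sub_pos.2 k3.RL)).le hb.B2n) hb.B2n) +
        (567199043829540574101/101745200521406517042988)*(mul_nonneg (mul_nonneg ((sub_pos.2 k0.TB)).le hb.A2n) hb.B2n) +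
        (567199043829540574101/50872600260703258521494)*(mul_nonneg (mul_nonneg hb.qout hb.A2n) hb.A2n) +
        (567199043829540574101/25436300130351629260747)*(mul_nonneg (mul_nonneg hb.A2n hb.A2n) hb.A2n) +
        (8137482158536819222306471/21976963312623807681285408)*(mul_nonneg (mul_nonneg (hb.TR1).le hb.a2n) hb.A2n) +
        (8571058859978038972747/457853402346329326693446)*(mul_nonneg (mul_nonneg ((sub_pos.2 k4.RL)).le hb.a1n) hb.b1n) +
        (51931264660421783438965/915706804692658653386892)*(mul_nonneg (mul_nonneg (hb.TR1).le hb.a2n) d22) +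
        (35152050320100894019465/3662827218770634613547568)*(mul_nonneg ((mul_pos (sub_pos.2 k2.RL) hb.RB1)).le hb.a1n) +
        (44448603724473054858833/305235601564219551128964)*(mul_nonneg (mul_nonneg ((sub_pos.2 k0.RL)).le hb.a1n) hb.r2n) +
        (100664217124585938787273/610471203128439102257928)*(mul_nonneg (mul_nonneg dca (hb.RB1).le) hb.r2n) +
        (44448603724473054858833/610471203128439102257928)*(mul_nonneg (mul_nonneg ((sub_pos.2 k3.RL)).le hb.a1n) d22) +
        (423660226140547527850781/7325654437541269227095136)*(mul_nonneg ((sub_pos.2 k2.TL)).le dca) +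
        (94943869203367739019709/915706804692658653386892)*(mul_nonneg (mul_nonneg (hb.RB1).le hb.a1n) hb.r2n) +
        (44448603724473054858833/152617800782109775564482)*(mul_nonneg (mul_nonneg hb.a1n hb.B1n) d22) +
        (44448603724473054858833/152617800782109775564482)*(mul_nonneg (mul_nonneg dca hb.B1n) hb.r2n) +
        (120708196638719939504299/915706804692658653386892)*(mul_nonneg (mul_nonneg ((sub_pos.2 k0.RL)).le hb.a2n) hb.b1n) +
        (119839024912655415851359/915706804692658653386892)*(mul_nonneg (mul_nonneg dca hb.B1n) hb.B2n) +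
        (400131566423172305745421/2747120414077975960160676)*(mul_nonneg (mul_nonneg (hb.TR1).le hb.A2n) hb.r1n) +
        (163403237513314626816155/915706804692658653386892)*(mul_nonneg (mul_nonneg hb.b2n hb.B2n) d22) +
        (50370667577129228772632/228926701173164663346723)*(mul_nonneg (mul_nonneg hb.a2n hb.A2n) hb.r2n) +
        (813459889916502919605821/7325654437541269227095136)*(mul_nonneg (mul_nonneg dca hb.a2n) hb.A2n) +
        (12884955330921807956500/228926701173164663346723)*(mul_nonneg (mul_nonneg (hb.TR1).le hb.B2n) d22) +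
        (51931264660421783438965/915706804692658653386892)*(mul_nonneg (mul_nonneg ((sub_pos.2 k2.RL)).le hb.a2n) hb.r2n) +
        (17198099650068942087253/457853402346329326693446)*(mul_nonneg (mul_nonneg ((sub_pos.2 k3.RL)).le hb.a2n) hb.r1n) +
        (16319620560640137186697/457853402346329326693446)*(mul_nonneg (mul_nonneg ((sub_pos.2 k0.RL)).le hb.a2n) hb.Lp1) +
        (62661902359056169270891/915706804692658653386892)*(mul_nonneg (mul_nonneg ((sub_pos.2 k2.RB)).le hb.A2n) hb.r2n) +
        (49696327925450138907511/457853402346329326693446)*(mul_nonneg (mul_nonneg ((sub_pos.2 k4.RL)).le hb.B2n) hb.r2n) +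
        (15796337411963208081872/228926701173164663346723)*(mul_nonneg (mul_nonneg ((sub_pos.2 k2.TL)).le hb.a2n) hb.r1n) +
        (62661902359056169270891/915706804692658653386892)*(mul_nonneg (mul_nonneg ((sub_pos.2 k2.TL)).le hb.B2n) hb.r2n) +
        (36730753491844108544131/915706804692658653386892)*(mul_nonneg (mul_nonneg dca hb.B2n) d22) +
        (45374469780914795453051/152617800782109775564482)*(mul_nonneg (mul_nonneg hb.b2n hb.B1n) hb.r2n) +
        (33517720210709079273950/228926701173164663346723)*(mul_nonneg (mul_nonneg hb.r1n hb.r1n) d22) +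
        (37519029429114342162815/457853402346329326693446)*(mul_nonneg (mul_nonneg (hb.TR1).le hb.B1n) d22) +
        (44129316625229000696117/457853402346329326693446)*(mul_nonneg (mul_nonneg dca (hb.TR1).le) hb.c21) +
        (34785050037587762343431/228926701173164663346723)*(mul_nonneg (mul_nonneg hb.a1n hb.A2n) hb.r1n) +
        (51931264660421783438965/915706804692658653386892)*(mul_nonneg (mul_nonneg ((sub_pos.2 k2.TB)).le hb.b2n) hb.r2n) +
        (2005089174900212420333/457853402346329326693446)*(mul_nonneg (mul_nonneg ((sub_pos.2 k0.RL)).le hb.B1n) d22) +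
        (51931264660421783438965/915706804692658653386892)*(mul_nonneg (mul_nonneg hb.a1n hb.a2n) d22) +
        (198811611968013181181305/915706804692658653386892)*(mul_nonneg (mul_nonneg (hb.TR1).le hb.B1n) hb.r2n) +
        (78920734111610292415064/228926701173164663346723)*(mul_nonneg (mul_nonneg (hb.RB1).le hb.r2n) hb.Tp1) +
        (32491041285144262999087/915706804692658653386892)*(mul_nonneg (mul_nonneg ((sub_pos.2 k0.RL)).le hb.B1n) hb.r2n) +
        (51931264660421783438965/3662827218770634613547568)*(mul_nonneg (mul_nonneg ((sub_pos.2 k4.RL)).le hb.a2n) hb.a2n) +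
        (15823327645155309966385/915706804692658653386892)*(mul_nonneg ((mul_pos (sub_pos.2 k3.Rw) hb.RB1)).le hb.B1n) +
        (21530242323266433649297/915706804692658653386892)*(mul_nonneg ((sub_pos.2 k2.RL)).le hb.r2n) +
        (24470684585543413317755/915706804692658653386892)*(mul_nonneg (mul_nonneg hb.qout hb.B1n) d22) +
        (292826363142934966852/76308900391054887782241)*(mul_nonneg ((mul_pos (sub_pos.2 k1.TB) hb.RB1)).le hb.r1n) +
        (39068943971107584839433/406980802085626068171952)*(mul_nonneg (mul_nonneg dca hb.b1n) hb.B2n) +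
        (567199043829540574101/25436300130351629260747)*(mul_nonneg (mul_nonneg hb.A2n hb.A2n) hb.B1n) +
        (4205657751048950740763197/21976963312623807681285408)*(mul_nonneg ((sub_pos.2 k3.RL)).le hb.a2n) +
        (15823327645155309966385/305235601564219551128964)*(mul_nonneg ((sub_pos.2 k4.Rw)).le hb.B1n) +
        (24470684585543413317755/1831413609385317306773784)*(mul_nonneg (mul_nonneg ((sub_pos.2 k3.RL)).le hb.B1n) d22) +
        (24470684585543413317755/457853402346329326693446)*(mul_nonneg (mul_nonneg hb.B1n hb.B1n) d22) +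
        (7079498049564863179109/457853402346329326693446)*(mul_nonneg (mul_nonneg ((sub_pos.2 k4.RL)).le hb.B1n) hb.r1n) +
        (14416984821659293562816/228926701173164663346723)*(mul_nonneg (mul_nonneg ((sub_pos.2 k2.RL)).le hb.a2n) hb.Tp1) +
        (94014916673159836023203/1831413609385317306773784)*(mul_nonneg (mul_nonneg ((sub_pos.2 k0.RL)).le hb.a1n) hb.a2n) +
        (2241442542597097171687253/5494240828155951920321352)*(mul_nonneg (mul_nonneg hb.a2n hb.A2n) hb.B1n) +
        (316064578981954511338229/2747120414077975960160676)*(mul_nonneg (mul_nonneg dca hb.A2n) hb.B2n) +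
        (5754749826081883030373/228926701173164663346723)*(mul_nonneg (mul_nonneg ((sub_pos.2 k2.TL)).le hb.B2n) hb.c12) +
        (15340686125028374533123/228926701173164663346723)*(mul_nonneg (mul_nonneg hb.qout hb.a2n) hb.A2n) +
        (54205999715738979923131/915706804692658653386892)*(mul_nonneg (mul_nonneg ((sub_pos.2 k0.RL)).le hb.B2n) hb.Tp1) +
        (83284649948796422517635/915706804692658653386892)*(mul_nonneg (mul_nonneg dca (hb.TR1).le) hb.pB2) +
        (2124674545987965089108/25436300130351629260747)*(mul_nonneg (mul_nonneg ((sub_pos.2 k0.RL)).le hb.A2n) hb.r1n) +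
        (146413181571467483426/25436300130351629260747)*(mul_nonneg (mul_nonneg ((sub_pos.2 k3.Rw)).le hb.A1n) hb.r1n) +
        (58141532203625107773115/915706804692658653386892)*(mul_nonneg ((mul_pos hb.TR1 hb.RB1)).le hb.A2n) +
        (1484095833087514780273/228926701173164663346723)*(mul_nonneg (mul_nonneg ((sub_pos.2 k3.Rw)).le hb.a1n) hb.Lp1) +
        (104263460171924970955/50872600260703258521494)*(mul_pos (mul_pos (sub_pos.2 k3.RL) hb.TR1) hb.TR1) +
        (2316541384391561241245/915706804692658653386892)*(mul_nonneg (mul_nonneg ((sub_pos.2 k3.Rw)).le hb.A1n) hb.B1n) +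
        (2316541384391561241245/915706804692658653386892)*(mul_nonneg (mul_nonneg ((sub_pos.2 k3.RL)).le hb.B1n) hb.B1n) +
        (3187811438532230785685/228926701173164663346723)*(sub_pos.2 k4.Rw) +
        (173204620660583350417591/1220942406256878204515856)*(mul_nonneg (mul_nonneg hb.a1n hb.b2n) hb.A2n) +
        (358544221349023288855921/3662827218770634613547568)*(mul_nonneg ((mul_pos (sub_pos.2 k4.Rw) hb.TR1)).le hb.a2n) +
        (103874896878647874057125/7325654437541269227095136)*(mul_nonneg ((mul_pos (sub_pos.2 k2.RL) hb.RB1)).le hb.B2n) +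
        (40772417311672053762607/457853402346329326693446)*(mul_nonneg ((sub_pos.2 k0.RL)).le hb.r2n) +
        (162534043448150227750825/1220942406256878204515856)*(mul_nonneg dca hb.b2n) +
        (146413181571467483426/25436300130351629260747)*(mul_nonneg (mul_nonneg ((sub_pos.2 k3.Rw)).le hb.B1n) hb.r1n) +
        (3278397439753493992957/76308900391054887782241)*(mul_nonneg hb.b2n hb.r2n) +
        (3571223802896428959809/76308900391054887782241)*(mul_nonneg ((mul_pos hb.TR1 hb.TR1)).le d22) +
        (62306870558424027426932/228926701173164663346723)*(mul_nonneg (mul_nonneg hb.a1n hb.r1n) hb.r2n) +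
        (15547937585108245698425/1831413609385317306773784)*(mul_nonneg (mul_nonneg ((sub_pos.2 k4.RL)).le hb.a2n) hb.b1n) +
        (15547937585108245698425/1831413609385317306773784)*(mul_nonneg (mul_nonneg ((sub_pos.2 k4.RL)).le hb.a1n) hb.a2n) +
        (54506726079213525171704/228926701173164663346723)*(mul_nonneg (mul_nonneg dca hb.A2n) hb.r1n) +
        (1323464435602261339569/50872600260703258521494)*(mul_nonneg ((mul_pos (sub_pos.2 k4.Rw) hb.TR1)).le hb.B2n) +
        (2316541384391561241245/915706804692658653386892)*(mul_nonneg (mul_nonneg ((sub_pos.2 k4.Rw)).le hb.B1n) hb.B1n) +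
        (4198511108888773664707/406980802085626068171952)*(mul_nonneg ((mul_pos (sub_pos.2 k0.TB) hb.TR1)).le hb.A2n) +
        (732065907857337417130/76308900391054887782241)*(mul_nonneg ((mul_pos (sub_pos.2 k4.RL) hb.RB1)).le hb.c21) +
        (13857234647942140315147/1220942406256878204515856)*(mul_nonneg (mul_nonneg dca (hb.TR1).le) hb.a1n) +
        (585652726285869933704/76308900391054887782241)*(mul_nonneg (mul_nonneg dca hb.a1n) hb.b2n) +
        (42165794888983560560881/1220942406256878204515856)*(mul_nonneg ((mul_pos (sub_pos.2 k0.RL) hb.RB1)).le hb.a1n) +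
        (326104919182988816539/228926701173164663346723)*(mul_nonneg (mul_nonneg ((sub_pos.2 k3.RL)).le hb.r1n) hb.r1n) +
        (156835330166281034449769/915706804692658653386892)*(mul_pos (sub_pos.2 k2.TL) hb.RB1) +
        (18008389176872923282093/228926701173164663346723)*(mul_nonneg (mul_nonneg hb.qout (hb.RB1).le) hb.r2n) +
        (5927263204359294696475451/21976963312623807681285408)*(mul_nonneg (mul_nonneg (hb.RB1).le hb.a2n) hb.A2n) +
        (3052237195421302968817/101745200521406517042988)*(mul_nonneg ((sub_pos.2 k4.RL)).le hb.wout) +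
        (1983227429920437068590/228926701173164663346723)*(mul_nonneg (mul_nonneg dca hb.r1n) hb.r1n) +
        (7898168705981604040936/228926701173164663346723)*(mul_nonneg (mul_nonneg ((sub_pos.2 k4.RL)).le hb.a2n) hb.Tp1) +
        (133044616404240060774347/7325654437541269227095136)*(mul_nonneg (mul_nonneg ((sub_pos.2 k0.Rw)).le hb.a1n) hb.Lp1) +
        (3810807592626470130961/457853402346329326693446)*(mul_nonneg (mul_nonneg ((sub_pos.2 k4.Rw)).le hb.A1n) hb.Tp1) +
        (3810807592626470130961/457853402346329326693446)*(mul_nonneg (mul_nonneg ((sub_pos.2 k4.Rw)).le hb.B1n) hb.r1n) +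
        (4194153794886164348293/152617800782109775564482)*(mul_nonneg (mul_nonneg ((sub_pos.2 k4.RL)).le hb.B1n) hb.c21) +
        (585652726285869933704/76308900391054887782241)*(mul_nonneg (mul_nonneg ((sub_pos.2 k0.RL)).le hb.a1n) hb.a1n) +
        (10328017038835648773859/457853402346329326693446)*(mul_nonneg ((mul_pos (sub_pos.2 k4.RL) hb.RB1)).le hb.a1n) +
        (22282283939827763284757/915706804692658653386892)*(mul_nonneg (mul_nonneg ((sub_pos.2 k0.RL)).le hb.B2n) hb.r1n) +
        (585652726285869933704/76308900391054887782241)*(mul_nonneg (mul_nonneg ((sub_pos.2 k1.TB)).le hb.a1n) hb.c21) +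
        (585652726285869933704/76308900391054887782241)*(mul_nonneg (mul_nonneg dca hb.a1n) d22) +
        (3376696565190937181285/228926701173164663346723)*(mul_nonneg (mul_nonneg ((sub_pos.2 k0.RL)).le hb.a1n) hb.B1n) +
        (6753393130381874362570/228926701173164663346723)*(mul_nonneg (mul_nonneg dca hb.B1n) hb.Lp1) +
        (350265979268668762059755/1831413609385317306773784)*(mul_nonneg (mul_nonneg dca (hb.TR1).le) hb.r2n) +
        (204570461190758490958441/7325654437541269227095136)*(mul_nonneg dca dca) +
        (30637299397626456137039/915706804692658653386892)*(mul_nonneg (mul_nonneg dca (hb.TR1).le) hb.r1n) +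
        (7379810588230746930877/457853402346329326693446)*(mul_nonneg (mul_nonneg dca hb.r1n) hb.c21) +
        (8571058859978038972747/457853402346329326693446)*(mul_nonneg (mul_nonneg ((sub_pos.2 k4.Rw)).le hb.a1n) hb.a1n) +
        (7510703453311355583767/228926701173164663346723)*(mul_nonneg (mul_nonneg hb.qout hb.B2n) d22) +
        (42149721399542512471/50872600260703258521494)*(mul_nonneg (mul_nonneg ((sub_pos.2 k3.RL)).le hb.Tp1) hb.c21) +
        (71587581109699390976185/1831413609385317306773784)*(mul_nonneg (mul_nonneg (hb.TR1).le hb.A2n) hb.B1n) +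
        (6082064545224228547907/76308900391054887782241)*(mul_nonneg (mul_nonneg dca hb.a2n) hb.c21) +
        (596146538813021435107/50872600260703258521494)*(mul_nonneg ((mul_pos (sub_pos.2 k2.RL) hb.RB1)).le hb.r2n) +
        (385996971301508654578/76308900391054887782241)*(mul_nonneg (mul_nonneg ((sub_pos.2 k3.Rw)).le hb.a1n) hb.Tp1) +
        (326104919182988816539/228926701173164663346723)*(mul_nonneg (mul_nonneg ((sub_pos.2 k4.Rw)).le hb.r1n) hb.r1n) +
        (8743084305656384322637/457853402346329326693446)*(mul_nonneg (mul_nonneg ((sub_pos.2 k3.Rw)).le hb.r1n) hb.r1n) +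
        (43447930472579243903573/915706804692658653386892)*(mul_nonneg (mul_nonneg (hb.RB1).le hb.B1n) hb.r2n) +
        (101312977525513067676907/7325654437541269227095136)*(mul_nonneg (mul_nonneg ((sub_pos.2 k0.RL)).le hb.a1n) hb.r1n) +
        (8571058859978038972747/915706804692658653386892)*(mul_nonneg (mul_nonneg ((sub_pos.2 k4.RL)).le hb.a1n) hb.B1n) +
        (1243360541819131942655/101745200521406517042988)*(mul_nonneg (mul_nonneg ((sub_pos.2 k4.RL)).le hb.B1n) hb.B1n) +
        (20599292957353033503179/7325654437541269227095136)*(mul_nonneg (mul_nonneg dca hb.a1n) hb.r1n) +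
        (36887680080478370276419/1831413609385317306773784)*(mul_nonneg (mul_nonneg hb.a1n hb.a1n) hb.A2n) +
        (36887680080478370276419/7325654437541269227095136)*(mul_nonneg (mul_nonneg ((sub_pos.2 k4.RL)).le hb.a2n) hb.B1n) +
        (80277097555972382914811/3662827218770634613547568)*(mul_nonneg (mul_nonneg hb.qout hb.a1n) hb.A2n) +
        (1175370324340055429293/457853402346329326693446)*(mul_nonneg ((mul_pos (sub_pos.2 k4.Rw) hb.RB1)).le hb.Tp1) +
        (146413181571467483426/76308900391054887782241)*(mul_nonneg ((mul_pos (sub_pos.2 k1.TB) hb.TR1)).le hb.Tp1) +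
        (430710569294373294673/228926701173164663346723)*(mul_nonneg (mul_nonneg dca (hb.RB1).le) hb.c21) +
        (20118530201983543334335/5494240828155951920321352)*(mul_nonneg (mul_nonneg ((sub_pos.2 k0.RL)).le hb.a2n) hb.A2n) +
        (146413181571467483426/76308900391054887782241)*(mul_pos (mul_pos (sub_pos.2 k1.TB) hb.TR1) hb.RB1) +
        (4486791027368221375883/1220942406256878204515856)*(mul_nonneg (mul_nonneg dca hb.a1n) hb.c21) +
        (3480195979969620441337/1220942406256878204515856)*(mul_nonneg (mul_nonneg ((sub_pos.2 k0.RL)).le hb.a1n) hb.c12) +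
        (289271626729579376159/1220942406256878204515856)*(mul_nonneg (mul_nonneg ((sub_pos.2 k2.RL)).le hb.a1n) hb.c12))

theorem K73 {c1 c2 a1 a2 B1 B2 r1 r2 : ℝ} (hb : Base c1 c2 a1 a2 B1 B2 r1 r2) (dca : 0 ≤ c2*a1-c1*a2) (k0 : Y1 c1 (2-c2) B1 B2 B1 B2 (2-r1) r2) (k1 : Y1 c1 c2 a1 a2 c1 c2 r1 r2) (k2 : Y1 c1 c2 a1 a2 (2-c1-a1) (2-c2-a2) (2-a1-r1) (a2-r2)) (k3 : Y1 c1 c2 a1 a2 a1 a2 B1 B2) (k4 : Y1 c1 (2-c2) B1 B2 c1 (2-c2) (2-c1-a1) (2-c2-a2)) (d22 : 0 ≤ a2-c2-2*r2) : False := by
  exact lt_irrefl (0:ℝ) (by
      linear_combination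
        (1174423771248472020931/2647016830314018930955)*(mul_pos (sub_pos.2 k3.RL) hb.TR1) +
        (317065558412693728358/2647016830314018930955)*(sub_pos.2 k1.RL) +
        (22228038861258678642/240637893664910811905)*(mul_nonneg (mul_nonneg hb.A2n hb.A2n) hb.Lp1) +
        (427089515018533332556/2647016830314018930955)*(mul_nonneg (hb.TR1).le d22) +
        (2392629974908715119/529403366062803786191)*(mul_pos (mul_pos (sub_pos.2 k0.Tw) hb.TR1) hb.TR1) +
        (640615436076911550367/10588067321256075723820)*(mul_nonneg ((mul_pos (sub_pos.2 k1.RL) hb.TR1)).le d22) +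
        (1436996792968085318592/2647016830314018930955)*(mul_nonneg (mul_nonneg (hb.RB1).le hb.B2n) d22) +
        (89901171442163529609/1058806732125607572382)*(mul_nonneg ((sub_pos.2 k0.RL)).le dca) +
        (641415892709779640424/2647016830314018930955)*(mul_nonneg (mul_nonneg (hb.TR1).le hb.r2n) d22) +
        (2020952580373017209991/10588067321256075723820)*(mul_nonneg ((mul_pos (sub_pos.2 k1.RL) hb.RB1)).le hb.B2n) +
        (27206884991730381368/2647016830314018930955)*(mul_nonneg (mul_nonneg hb.a2n hb.A2n) d22) +
        (1140998042720101410918/2647016830314018930955)*(mul_nonneg (mul_nonneg ((sub_pos.2 k0.Tw)).le hb.a2n) hb.A2n) +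
        (370779798646748935758/2647016830314018930955)*(mul_nonneg (mul_nonneg ((sub_pos.2 k0.RL)).le hb.A2n) hb.Lp1) +
        (3924549584820496416656/2647016830314018930955)*(mul_nonneg (mul_nonneg dca hb.B2n) hb.r2n) +
        (114071301882392714441/2647016830314018930955)*(mul_nonneg (mul_nonneg ((sub_pos.2 k0.Tw)).le hb.B2n) d22) +
        (232033661029158513621/5294033660628037861910)*(mul_nonneg ((mul_pos (sub_pos.2 k3.RL) hb.TR1)).le d22) +
        (1139434893334292481/96255157465964324762)*(mul_nonneg ((mul_pos (sub_pos.2 k4.RL) hb.TR1)).le hb.c21) +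
        (17365864472487795728/2647016830314018930955)*(mul_pos (sub_pos.2 k0.Tw) (k3.pos hb.a2n)) +
        (202755763795862263607/5294033660628037861910)*(mul_nonneg (mul_nonneg ((sub_pos.2 k3.RL)).le hb.B1n) d22) +
        (37625229338324457886/240637893664910811905)*(mul_nonneg (mul_nonneg ((sub_pos.2 k3.TL)).le hb.b1n) hb.c21) +
        (1430363743528604269251/2647016830314018930955)*(mul_nonneg (mul_nonneg ((sub_pos.2 k0.Tw)).le hb.a2n) hb.B2n) +
        (405511527591724527214/7941050490942056792865)*(mul_nonneg (mul_nonneg ((sub_pos.2 k3.RL)).le hb.b2n) hb.B1n) +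
        (202755763795862263607/7941050490942056792865)*(mul_nonneg (mul_nonneg ((sub_pos.2 k3.RL)).le hb.B1n) hb.c21) +
        (1602524467045230479101/10588067321256075723820)*(mul_nonneg (mul_nonneg ((sub_pos.2 k4.RL)).le hb.B2n) hb.r1n) +
        (202755763795862263607/7941050490942056792865)*(mul_nonneg ((mul_pos (sub_pos.2 k3.TL) hb.TR1)).le hb.B1n) +
        (17365864472487795728/2647016830314018930955)*(mul_nonneg (mul_nonneg ((sub_pos.2 k3.TL)).le hb.B2n) hb.Tp1) +
        (177225693896019680188/2647016830314018930955)*(mul_pos (sub_pos.2 k4.RL) hb.TR1) +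
        (466898068887034367288/2647016830314018930955)*(sub_pos.2 k0.Tw) +
        (1922899386811459399/48127578732982162381)*(mul_nonneg (mul_nonneg ((sub_pos.2 k1.RL)).le hb.a1n) hb.B2n) +
        (52266020884026634896/240637893664910811905)*(mul_nonneg (mul_nonneg hb.qout hb.b2n) hb.r2n) +
        (201278163734480506061/2117613464251215144764)*(mul_nonneg (mul_nonneg ((sub_pos.2 k4.RL)).le hb.B2n) hb.c21) +
        (47622688556588237441/529403366062803786191)*(mul_nonneg (mul_nonneg hb.a1n hb.A2n) hb.Lp1) +
        (289124743482643518556/2647016830314018930955)*(mul_nonneg (mul_nonneg hb.qout hb.Tp1) d22) +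
        (1296256452465161979369/2647016830314018930955)*(mul_nonneg (mul_nonneg ((sub_pos.2 k1.RL)).le hb.a2n) hb.B2n) +
        (155782273783284104288/2647016830314018930955)*(mul_nonneg (mul_nonneg dca hb.a1n) hb.r2n) +
        (424530812968361033475/1058806732125607572382)*(mul_nonneg (mul_nonneg hb.a2n hb.A2n) hb.Lp1) +
        (178876573951526570036/2647016830314018930955)*(mul_nonneg (mul_nonneg dca hb.pB2) hb.c21) +
        (754129571908338430729/5294033660628037861910)*(mul_nonneg (mul_nonneg dca hb.r2n) hb.c21) +
        (63369875546681563086/529403366062803786191)*(mul_nonneg (mul_nonneg ((sub_pos.2 k4.RL)).le hb.A2n) hb.B1n) +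
        (77248016265568429022/529403366062803786191)*(mul_nonneg (mul_nonneg dca hb.c21) hb.c21) +
        (77891136891642052144/2647016830314018930955)*(mul_nonneg (mul_nonneg dca hb.a1n) d22) +
        (484506074538828149341/5294033660628037861910)*(mul_nonneg (mul_nonneg ((sub_pos.2 k3.RL)).le hb.a2n) d22) +
        (63369875546681563086/529403366062803786191)*(mul_nonneg (mul_nonneg ((sub_pos.2 k4.RL)).le hb.B1n) hb.B2n) +
        (167383022777167881661/1058806732125607572382)*(mul_nonneg (mul_nonneg ((sub_pos.2 k1.RL)).le hb.A1n) hb.B2n) +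
        (484506074538828149341/5294033660628037861910)*(mul_nonneg (mul_nonneg ((sub_pos.2 k3.RL)).le hb.a2n) hb.b2n) +
        (1080830659773247988/21876172151355528355)*(mul_nonneg (mul_nonneg ((sub_pos.2 k3.RL)).le hb.A2n) hb.c21) +
        (928161971477179898009/5294033660628037861910)*(mul_nonneg (mul_nonneg ((sub_pos.2 k3.RB)).le hb.A2n) d22) +
        (721872549148659630449/5294033660628037861910)*(mul_nonneg (mul_nonneg ((sub_pos.2 k1.RL)).le hb.B1n) hb.B2n) +
        (129788507958036398079/962551574659643247620)*(mul_nonneg ((mul_pos (sub_pos.2 k4.RL) hb.TR1)).le hb.B2n) +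
        (608293968074733149982/2647016830314018930955)*(mul_nonneg (mul_nonneg dca hb.a2n) hb.r2n) +
        (1244280230837358048439/5294033660628037861910)*(mul_nonneg (mul_nonneg ((sub_pos.2 k2.TB)).le hb.a2n) hb.B1n) +
        (548221770236754518046/529403366062803786191)*(mul_nonneg (mul_nonneg hb.b2n hb.r1n) hb.r2n) +
        (270849408928347547898/2647016830314018930955)*(mul_nonneg (mul_nonneg (hb.TR1).le hb.a1n) d22) +
        (586641272345036581501/5294033660628037861910)*(mul_nonneg (mul_nonneg dca (hb.TR1).le) hb.r2n) +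
        (65853342813864164864/2647016830314018930955)*(mul_nonneg ((mul_pos (sub_pos.2 k3.TL) hb.RB1)).le hb.Tp1) +
        (371025783234634092211/2647016830314018930955)*(mul_nonneg (mul_nonneg ((sub_pos.2 k0.Tw)).le hb.r2n) hb.Lp1) +
        (522551994130705173006/2647016830314018930955)*(mul_nonneg ((sub_pos.2 k3.RL)).le hb.b2n) +
        (370779798646748935758/2647016830314018930955)*(mul_nonneg (mul_nonneg ((sub_pos.2 k0.Tw)).le hb.A2n) hb.r1n) +
        (371025783234634092211/2647016830314018930955)*(mul_nonneg (mul_nonneg ((sub_pos.2 k0.Tw)).le hb.r1n) hb.r2n) +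
        (444208238455570506243/5294033660628037861910)*(mul_nonneg (mul_nonneg dca hb.r1n) d22) +
        (1116445235720815791522/2647016830314018930955)*(mul_nonneg (mul_nonneg (hb.TR1).le hb.a2n) d22) +
        (928161971477179898009/5294033660628037861910)*(mul_nonneg (mul_nonneg ((sub_pos.2 k3.RL)).le hb.B2n) d22) +
        (74213514158441024971/2647016830314018930955)*(mul_nonneg (mul_nonneg dca hb.A2n) hb.A2n) +
        (569425753160639890797/5294033660628037861910)*(mul_nonneg (mul_nonneg ((sub_pos.2 k0.RL)).le hb.a1n) hb.b2n) +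
        (249539446422952240057/529403366062803786191)*(mul_nonneg (mul_nonneg hb.b2n hb.r1n) d22) +
        (19068402016628985408/2647016830314018930955)*(mul_nonneg (mul_nonneg hb.qout (hb.RB1).le) hb.A2n) +
        (274110885118377259023/1058806732125607572382)*(mul_nonneg (mul_nonneg ((sub_pos.2 k3.RL)).le hb.b2n) hb.r1n) +
        (195170291157143926309/529403366062803786191)*(mul_nonneg (mul_nonneg (hb.TR1).le hb.a2n) hb.A2n) +
        (562074718706213402491/2647016830314018930955)*(mul_nonneg (mul_nonneg hb.a1n hb.B1n) d22) +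
        (547131303123709308398/7941050490942056792865)*(mul_nonneg (mul_nonneg dca (hb.TR1).le) hb.B1n) +
        (239264047958603090349/2647016830314018930955)*(mul_nonneg (mul_nonneg ((sub_pos.2 k0.Tw)).le hb.A2n) hb.B2n) +
        (969012149077656298682/2647016830314018930955)*(mul_nonneg (mul_nonneg ((sub_pos.2 k3.RL)).le hb.r2n) hb.r2n) +
        (1037485022207895289188/2647016830314018930955)*(mul_nonneg (mul_nonneg dca hb.b2n) hb.B1n) +
        (92710269200667528654/529403366062803786191)*(mul_nonneg (mul_nonneg hb.a1n hb.b2n) hb.A2n) +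
        (202755763795862263607/15882100981884113585730)*(mul_nonneg (mul_nonneg ((sub_pos.2 k3.RL)).le hb.a2n) hb.B1n) +
        (1332036679890172457918/2647016830314018930955)*(mul_nonneg (mul_nonneg hb.a2n hb.b2n) hb.A2n) +
        (129862903318515865269/2647016830314018930955)*(mul_nonneg (mul_nonneg ((sub_pos.2 k1.RL)).le hb.a2n) hb.b2n) +
        (16786994018976350567/529403366062803786191)*(mul_nonneg ((mul_pos (sub_pos.2 k3.RL) hb.TR1)).le hb.Tp1) +
        (441871769157737909503/2647016830314018930955)*(mul_nonneg (mul_nonneg ((sub_pos.2 k1.RL)).le hb.B2n) hb.r2n) +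
        (7718700047854653043/240637893664910811905)*(mul_nonneg (mul_nonneg ((sub_pos.2 k1.TB)).le hb.B1n) d22) +
        (26543770211731748557/529403366062803786191)*(mul_nonneg ((mul_pos (sub_pos.2 k0.Tw) hb.RB1)).le hb.c21) +
        (53203005330184810946/529403366062803786191)*(mul_nonneg (mul_nonneg hb.c21 hb.c21) d22) +
        (2305259299222102793/5294033660628037861910)*(mul_nonneg (mul_nonneg ((sub_pos.2 k4.RL)).le hb.a1n) hb.b1n) +
        (1269408184652020085037/5294033660628037861910)*(mul_nonneg (mul_nonneg hb.b2n hb.A2n) hb.r1n) +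
        (116022728107694766883/10588067321256075723820)*(mul_nonneg (mul_nonneg ((sub_pos.2 k4.RL)).le hb.Tp1) hb.Lp1) +
        (34608262059550207759/529403366062803786191)*(mul_nonneg (mul_nonneg dca hb.B2n) hb.c21) +
        (24151140236823033438/529403366062803786191)*(mul_pos (mul_pos (sub_pos.2 k0.Tw) hb.TR1) hb.RB1) +
        (641415892709779640424/2647016830314018930955)*(mul_nonneg hb.r2n d22) +
        (103135135802848312144/2647016830314018930955)*(mul_nonneg (mul_nonneg hb.A2n hb.B2n) d22) +
        (150548789408865339974/2647016830314018930955)*(mul_nonneg ((sub_pos.2 k4.RL)).le hb.c21) +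
        (696128310448021384388/2647016830314018930955)*(mul_nonneg (mul_nonneg hb.wout hb.A2n) hb.r2n) +
        (380889629439879819829/2647016830314018930955)*(mul_nonneg (mul_nonneg ((sub_pos.2 k1.TB)).le hb.A2n) hb.r2n) +
        (640615436076911550367/5294033660628037861910)*(mul_nonneg ((mul_pos (sub_pos.2 k1.RL) hb.RB1)).le hb.r2n) +
        (41175165726056787806/240637893664910811905)*(mul_nonneg (mul_nonneg hb.B1n hb.r2n) d22) +
        (444208238455570506243/2647016830314018930955)*(mul_nonneg (mul_nonneg dca hb.r1n) hb.r2n) +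
        (173435966351864361667/1058806732125607572382)*(mul_nonneg (mul_nonneg dca hb.B2n) d22) +
        (7568928755221229039/96255157465964324762)*(mul_nonneg (mul_nonneg ((sub_pos.2 k3.RL)).le hb.r1n) hb.c21) +
        (537101295953494418229/2647016830314018930955)*(mul_nonneg (mul_nonneg hb.b2n hb.A2n) hb.B1n) +
        (30579960828265906845/529403366062803786191)*(mul_nonneg (mul_nonneg dca hb.a2n) d22) +
        (1494351448153701911704/2647016830314018930955)*(mul_nonneg (mul_nonneg (hb.TR1).le hb.A2n) hb.r2n) +
        (165638869783816870513/2647016830314018930955)*(mul_nonneg (mul_nonneg hb.qout hb.B2n) d22) +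
        (2926392335225565884347/5294033660628037861910)*(mul_nonneg (mul_nonneg hb.b2n hb.r2n) hb.c21) +
        (30579960828265906845/529403366062803786191)*(mul_nonneg (mul_nonneg dca hb.a2n) hb.b2n) +
        (408916602680006906574/2647016830314018930955)*(mul_nonneg (mul_nonneg (hb.TR1).le hb.A2n) hb.B1n) +
        (115973887828749080846/2647016830314018930955)*(mul_nonneg (mul_nonneg ((sub_pos.2 k0.RB)).le hb.A2n) d22) +
        (337427238838359078821/2647016830314018930955)*(mul_nonneg (mul_nonneg ((sub_pos.2 k0.Tw)).le hb.a2n) hb.b1n) +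
        (126274194754528246676/2647016830314018930955)*(mul_nonneg (mul_nonneg ((sub_pos.2 k2.TB)).le hb.B2n) hb.r1n) +
        (1726485449880251890749/10588067321256075723820)*(mul_nonneg (mul_nonneg ((sub_pos.2 k3.TL)).le hb.a1n) hb.c21) +
        (49193995756890448148/240637893664910811905)*(mul_nonneg (mul_nonneg (hb.TR1).le hb.A2n) hb.r1n) +
        (259725806637031730538/2647016830314018930955)*(mul_nonneg (mul_nonneg ((sub_pos.2 k1.RL)).le hb.a2n) hb.r2n) +
        (146746541737786578493/2647016830314018930955)*(mul_pos (sub_pos.2 k1.RL) hb.RB1) +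
        (129862903318515865269/2647016830314018930955)*(mul_nonneg (mul_nonneg ((sub_pos.2 k1.TB)).le d22) d22) +
        (259725806637031730538/2647016830314018930955)*(mul_nonneg (mul_nonneg ((sub_pos.2 k1.RL)).le hb.r2n) d22) +
        (484506074538828149341/2647016830314018930955)*(mul_nonneg (mul_nonneg ((sub_pos.2 k3.TB)).le hb.r2n) d22) +
        (75623589948018520383/2647016830314018930955)*(mul_nonneg (mul_nonneg ((sub_pos.2 k4.RL)).le hb.a2n) hb.b2n) +
        (75623589948018520383/2647016830314018930955)*(mul_nonneg (mul_nonneg ((sub_pos.2 k4.RL)).le hb.a2n) d22) +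
        (1031176309951911702978/2647016830314018930955)*(mul_nonneg (mul_nonneg hb.A2n hb.r1n) d22) +
        (61404718232268318084/2647016830314018930955)*(mul_nonneg (mul_nonneg dca (hb.TR1).le) hb.r1n) +
        (379933973356066017263/2647016830314018930955)*(mul_nonneg (mul_nonneg hb.A2n hb.B1n) d22) +
        (114791846442615681597/2647016830314018930955)*(mul_nonneg (mul_nonneg dca hb.B1n) hb.c21) +
        (185389899323374467879/2647016830314018930955)*(mul_nonneg (mul_nonneg dca hb.A2n) hb.B1n) +
        (185389899323374467879/2647016830314018930955)*(mul_nonneg (mul_nonneg ((sub_pos.2 k2.TB)).le hb.B1n) hb.B2n) +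
        (444208238455570506243/5294033660628037861910)*(mul_nonneg (mul_nonneg dca hb.b2n) hb.Tp1) +
        (1139434893334292481/96255157465964324762)*(mul_nonneg (mul_nonneg ((sub_pos.2 k4.RL)).le hb.c21) hb.c21) +
        (243928558871432358696/2647016830314018930955)*(mul_nonneg (mul_nonneg hb.A2n hb.r2n) hb.r2n) +
        (8208738274769881997/529403366062803786191)*(sub_pos.2 k3.TL) +
        (249131388231653341506/2647016830314018930955)*(mul_nonneg (mul_nonneg (hb.RB1).le hb.Tp1) d22) +
        (63137097377264123338/2647016830314018930955)*(mul_nonneg (mul_nonneg ((sub_pos.2 k3.RL)).le hb.Tp1) d22) +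
        (3719339274780080561/48127578732982162381)*(mul_nonneg (mul_nonneg ((sub_pos.2 k1.RL)).le hb.b2n) hb.B1n) +
        (484506074538828149341/2647016830314018930955)*(mul_nonneg (mul_nonneg hb.a2n d22) d22) +
        (173528789227016607199/2647016830314018930955)*(mul_pos (sub_pos.2 k0.Tw) hb.TR1) +
        (557474838118822015928/2647016830314018930955)*(mul_nonneg ((mul_pos (sub_pos.2 k0.Tw) hb.TR1)).le hb.r2n) +
        (63137097377264123338/2647016830314018930955)*(mul_nonneg (mul_nonneg ((sub_pos.2 k1.RL)).le hb.r1n) hb.c12) +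
        (19068402016628985408/2647016830314018930955)*(mul_nonneg ((sub_pos.2 k0.Tw)).le hb.qout) +
        (88612846948009840094/2647016830314018930955)*(mul_nonneg ((sub_pos.2 k4.Rw)).le hb.b2n) +
        (185389899323374467879/2647016830314018930955)*(mul_nonneg (mul_nonneg ((sub_pos.2 k0.Tw)).le hb.a2n) hb.B1n) +
        (21906291547902612403/2647016830314018930955)*(mul_nonneg (mul_nonneg ((sub_pos.2 k4.RL)).le hb.r2n) hb.Lp1) +
        (21906291547902612403/2647016830314018930955)*(mul_nonneg (mul_nonneg ((sub_pos.2 k4.RL)).le hb.r1n) hb.r2n) +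
        (146675091068549859087/2647016830314018930955)*(mul_nonneg (mul_nonneg ((sub_pos.2 k4.RL)).le hb.B2n) hb.B2n) +
        (252548389509056493352/2647016830314018930955)*(mul_nonneg (mul_nonneg hb.pin hb.A2n) hb.r1n) +
        (686570134071883801479/5294033660628037861910)*(mul_nonneg (mul_nonneg dca hb.A2n) hb.r1n) +
        (129862903318515865269/5294033660628037861910)*(mul_nonneg (mul_nonneg ((sub_pos.2 k1.Rw)).le hb.b2n) hb.c21) +
        (969012149077656298682/2647016830314018930955)*(mul_nonneg (mul_nonneg hb.a1n hb.r2n) d22) +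
        (134175047318089248686/2647016830314018930955)*(mul_nonneg ((mul_pos (sub_pos.2 k0.RL) hb.TR1)).le d22) +
        (26133010442013317448/240637893664910811905)*(mul_nonneg (mul_nonneg ((sub_pos.2 k0.RL)).le hb.b2n) hb.B2n) +
        (209144433995401133612/2647016830314018930955)*(mul_nonneg (mul_nonneg dca hb.a2n) hb.c21) +
        (108800214938155593543/2647016830314018930955)*(mul_nonneg ((mul_pos (sub_pos.2 k0.RL) hb.RB1)).le hb.A2n) +
        (63137097377264123338/2647016830314018930955)*(mul_nonneg ((mul_pos (sub_pos.2 k1.RL) hb.RB1)).le hb.r1n) +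
        (520252069906931551133/2647016830314018930955)*(mul_nonneg ((sub_pos.2 k1.RL)).le hb.r2n) +
        (484506074538828149341/2647016830314018930955)*(mul_nonneg (mul_nonneg hb.a2n hb.b2n) d22) +
        (67540132977263766813/2647016830314018930955)*(mul_nonneg (mul_nonneg (hb.TR1).le hb.A2n) hb.B2n) +
        (94890525401777761081/2647016830314018930955)*(mul_nonneg (mul_nonneg ((sub_pos.2 k0.Tw)).le hb.a2n) hb.b2n) +
        (1835734014206360407829/5294033660628037861910)*(mul_nonneg (mul_nonneg (hb.TR1).le hb.b2n) hb.r2n) +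
        (239264047958603090349/2647016830314018930955)*(mul_nonneg (mul_nonneg ((sub_pos.2 k0.Tw)).le hb.B2n) hb.B2n) +
        (380889629439879819829/10588067321256075723820)*(mul_nonneg ((mul_pos (sub_pos.2 k1.TB) hb.TR1)).le hb.A2n) +
        (330774021878301266216/2647016830314018930955)*(mul_nonneg (hb.TR1).le hb.A2n) +
        (322352840655279862724/2647016830314018930955)*(mul_nonneg (mul_nonneg hb.A2n hb.Tp1) hb.c21) +
        (153886740068292813762/2647016830314018930955)*(mul_nonneg (mul_nonneg ((sub_pos.2 k3.TL)).le hb.B2n) hb.B2n) +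
        (122097577596319108684/2647016830314018930955)*(mul_nonneg ((mul_pos (sub_pos.2 k3.RB) hb.TR1)).le hb.A2n) +
        (171073903808062213568/2647016830314018930955)*(mul_nonneg (mul_nonneg ((sub_pos.2 k1.RL)).le hb.a2n) hb.c21) +
        (82947178881134335299/5294033660628037861910)*(mul_nonneg ((mul_pos (sub_pos.2 k3.RL) hb.TR1)).le hb.r1n) +
        (761034378542546562/529403366062803786191)*(mul_nonneg (mul_nonneg ((sub_pos.2 k0.RB)).le hb.A2n) hb.r2n) +
        (116022728107694766883/5294033660628037861910)*(mul_nonneg ((mul_pos (sub_pos.2 k4.RL) hb.TR1)).le hb.r1n) +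
        (16883638419270713224/2647016830314018930955)*(mul_nonneg (mul_nonneg ((sub_pos.2 k1.RL)).le hb.a1n) hb.B1n) +
        (115042564737179777856/2647016830314018930955)*(mul_nonneg (mul_nonneg hb.qout hb.A2n) hb.r1n) +
        (11931334242984115161/529403366062803786191)*(mul_nonneg (mul_nonneg ((sub_pos.2 k1.Rw)).le hb.B1n) d22) +
        (30491069858929044837/2647016830314018930955)*(mul_nonneg (mul_nonneg hb.qout d22) d22) +
        (51129478120637552487/529403366062803786191)*(mul_nonneg ((mul_pos (sub_pos.2 k3.RL) hb.RB1)).le hb.c21) +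
        (2305259299222102793/2647016830314018930955)*(mul_nonneg ((mul_pos (sub_pos.2 k4.RL) hb.TR1)).le hb.a1n) +
        (264368887587441419446/2647016830314018930955)*(mul_nonneg (mul_nonneg hb.a1n hb.b1n) d22) +
        (264368887587441419446/2647016830314018930955)*(mul_nonneg (mul_nonneg hb.a1n hb.a1n) d22) +
        (4846934574739440306/529403366062803786191)*(mul_nonneg (mul_nonneg ((sub_pos.2 k0.Tw)).le hb.a1n) hb.c21) +
        (7351034454426488306/2647016830314018930955)*(mul_nonneg (mul_nonneg hb.a1n hb.a1n) hb.A2n) +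
        (18829143632867867204/2647016830314018930955)*(mul_nonneg (mul_nonneg hb.qout (hb.RB1).le) d22) +
        (119110433443169511241/10588067321256075723820)*(mul_nonneg (mul_nonneg ((sub_pos.2 k3.TL)).le hb.r1n) hb.Lp1) +
        (2423467287369720153/1058806732125607572382)*(mul_nonneg (mul_nonneg ((sub_pos.2 k4.RL)).le hb.B1n) hb.Lp1) +
        (8441819209635356612/2647016830314018930955)*(mul_nonneg ((mul_pos (sub_pos.2 k4.RL) hb.TR1)).le hb.B1n) +
        (2423467287369720153/1058806732125607572382)*(mul_nonneg (mul_nonneg ((sub_pos.2 k4.RL)).le hb.B1n) hb.r1n) +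
        (87529992627824053643/529403366062803786191)*(mul_nonneg (mul_nonneg hb.b2n hb.B2n) d22) +
        (155789326014649180167/2647016830314018930955)*(mul_nonneg (mul_nonneg hb.qout hb.b2n) hb.A2n) +
        (94890525401777761081/2647016830314018930955)*(mul_nonneg (mul_nonneg ((sub_pos.2 k0.Tw)).le hb.a2n) hb.a2n) +
        (85677427902828720377/10588067321256075723820)*(mul_nonneg ((sub_pos.2 k3.TL)).le hb.a1n) +
        (3474172856376115748/240637893664910811905)*(mul_nonneg (mul_nonneg dca (hb.TR1).le) hb.Tp1) +
        (153886740068292813762/2647016830314018930955)*(mul_nonneg (mul_nonneg ((sub_pos.2 k3.TB)).le hb.A2n) hb.B2n) +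
        (119110433443169511241/10588067321256075723820)*(mul_nonneg (mul_nonneg ((sub_pos.2 k3.TL)).le hb.r1n) hb.r1n) +
        (38347521579059925952/2647016830314018930955)*(mul_nonneg ((mul_pos (sub_pos.2 k1.RL) hb.TR1)).le hb.B1n) +
        (38347521579059925952/2647016830314018930955)*(mul_nonneg (mul_nonneg ((sub_pos.2 k1.RL)).le hb.B1n) hb.c21) +
        (604988719584148163064/2647016830314018930955)*(mul_nonneg (mul_nonneg hb.a1n hb.b2n) hb.r2n) +
        (145549221791841355133/2117613464251215144764)*(mul_nonneg ((sub_pos.2 k4.RL)).le hb.B2n) +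
        (29486617328631898568/529403366062803786191)*(mul_nonneg (mul_nonneg hb.a2n hb.B1n) d22) +
        (86921071977672326199/2647016830314018930955)*(mul_nonneg (mul_nonneg (hb.RB1).le hb.A2n) hb.c21) +
        (14195071798795148753/2117613464251215144764)*(mul_nonneg ((mul_pos (sub_pos.2 k3.RL) hb.TR1)).le hb.a1n) +
        (77891136891642052144/2647016830314018930955)*(mul_nonneg (mul_nonneg dca hb.a2n) hb.b1n) +
        (14195071798795148753/529403366062803786191)*(mul_nonneg (mul_nonneg dca hb.a1n) hb.A2n) +
        (14195071798795148753/2117613464251215144764)*(mul_nonneg (mul_nonneg dca hb.a1n) hb.c21) +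
        (3417001277403151846/2647016830314018930955)*(mul_nonneg (mul_nonneg (hb.TR1).le hb.r1n) d22) +
        (3417001277403151846/2647016830314018930955)*(mul_nonneg (mul_nonneg hb.a2n hb.Tp1) d22) +
        (126274194754528246676/2647016830314018930955)*(mul_nonneg (mul_nonneg ((sub_pos.2 k0.Tw)).le hb.a2n) hb.r1n) +
        (348068184323084300649/10588067321256075723820)*(mul_nonneg (mul_nonneg ((sub_pos.2 k4.RL)).le hb.r1n) hb.c21) +
        (116022728107694766883/10588067321256075723820)*(mul_nonneg (mul_nonneg ((sub_pos.2 k4.RL)).le hb.r1n) hb.r1n) +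
        (129737593573001211229/2647016830314018930955)*(mul_nonneg ((mul_pos (sub_pos.2 k4.RL) hb.RB1)).le hb.r2n) +
        (33767276838541426448/2647016830314018930955)*(mul_nonneg (mul_nonneg dca hb.A1n) hb.r1n) +
        (17730380565793903394/529403366062803786191)*(mul_nonneg ((mul_pos (sub_pos.2 k1.RL) hb.RB1)).le hb.a1n) +
        (17730380565793903394/529403366062803786191)*(mul_nonneg (mul_nonneg ((sub_pos.2 k1.RL)).le hb.a1n) hb.c12) +
        (493169595150061709127/10588067321256075723820)*(mul_nonneg ((mul_pos (sub_pos.2 k1.RL) hb.TR1)).le hb.a2n) +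
        (22319902653290646837/2117613464251215144764)*(mul_nonneg dca hb.a1n) +
        (62503733980968558369/2647016830314018930955)*(mul_nonneg (mul_nonneg ((sub_pos.2 k1.RL)).le hb.B2n) hb.B2n) +
        (160692413569753068111/5294033660628037861910)*(mul_nonneg ((mul_pos (sub_pos.2 k3.RL) hb.RB1)).le hb.a2n) +
        (4767100504157246352/2647016830314018930955)*(mul_nonneg (mul_nonneg ((sub_pos.2 k0.Tw)).le hb.B1n) hb.Lp1) +
        (35212364744683202938/529403366062803786191)*(mul_nonneg (mul_nonneg dca hb.B1n) hb.r2n) +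
        (4767100504157246352/2647016830314018930955)*(mul_nonneg (mul_nonneg ((sub_pos.2 k0.Tw)).le hb.B1n) hb.r1n) +
        (31568548688632061669/2647016830314018930955)*(mul_nonneg (mul_nonneg ((sub_pos.2 k1.RL)).le hb.r1n) hb.Lp1) +
        (31568548688632061669/2647016830314018930955)*(mul_nonneg (mul_nonneg ((sub_pos.2 k1.RL)).le hb.r1n) hb.r1n) +
        (7369687159094421027/2647016830314018930955)*(mul_nonneg (mul_nonneg (hb.RB1).le hb.A2n) hb.B2n) +
        (26123116135824363507/481275787329821623810)*(mul_nonneg hb.b2n hb.r2n) +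
        (9534201008314492704/2647016830314018930955)*(mul_nonneg (mul_nonneg ((sub_pos.2 k0.Tw)).le hb.B1n) hb.c21) +
        (9534201008314492704/2647016830314018930955)*(mul_nonneg ((mul_pos (sub_pos.2 k0.Tw) hb.TR1)).le hb.B1n) +
        (43956049570170722153/1058806732125607572382)*(mul_nonneg dca hb.r2n) +
        (56206631076793826773/5294033660628037861910)*(mul_nonneg (mul_nonneg (hb.TR1).le hb.A2n) hb.c21) +
        (15694261506069326443/2647016830314018930955)*(mul_nonneg (mul_nonneg dca hb.A2n) hb.B2n) +
        (7351034454426488306/2647016830314018930955)*(mul_nonneg ((mul_pos (sub_pos.2 k0.Tw) hb.TR1)).le hb.a1n) +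
        (2305259299222102793/5294033660628037861910)*(mul_nonneg (mul_nonneg ((sub_pos.2 k4.RL)).le hb.a1n) hb.c21) +
        (2305259299222102793/5294033660628037861910)*(mul_nonneg (mul_nonneg ((sub_pos.2 k4.RL)).le hb.a1n) hb.a1n) +
        (159178638880371017/1058806732125607572382)*(mul_nonneg dca hb.Lp1))

theorem K64 {c1 c2 a1 a2 B1 B2 r1 r2 : ℝ} (hb : Base c1 c2 a1 a2 B1 B2 r1 r2) (dca : 0 ≤ c2*a1-c1*a2) (k0 : Y1 c1 (2-c2) B1 B2 (2-c1-B1) (2-(2-c2)-B2) a1 a2) (k1 : Y1 c1 c2 a1 a2 (2-c1-a1) (2-c2-a2) r1 r2) (k2 : Y1 c1 (2-c2) B1 B2 (2-c1-B1) (2-(2-c2)-B2) (r1-c1) (2-c2-r2)) (k3 : Y1 c1 c2 a1 a2 c1 c2 (2-a1-r1) (a2-r2)) (o0 : 0 ≤ 2-a1-r1) (o1 : 0 ≤ a2-r2) : False := by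
  rcases le_total 0 (c2*(2-c1-a1)-c1*(2-c2-a2)) with s | s
  · linarith [(mul_nonneg ((sub_pos.2 k2.TB)).le s),
    (mul_nonneg ((mul_pos (sub_pos.2 k1.TB) hb.TR1)).le hb.A2n),
    (mul_nonneg (mul_nonneg s (hb.TR1).le) hb.A2n),
    (mul_nonneg ((sub_pos.2 k0.TB)).le s),
    (mul_nonneg (mul_nonneg s (hb.TR1).le) hb.A1n),
    (mul_pos (sub_pos.2 k1.TB) (k2.pos hb.A2n_)),
    (mul_nonneg (mul_nonneg ((sub_pos.2 k3.Rw)).le hb.A2n) o0),
    (mul_nonneg ((mul_pos (sub_pos.2 k1.TB) hb.RB1)).le hb.A2n),
    (mul_nonneg (mul_nonneg ((sub_pos.2 k1.TB)).le hb.A1n) hb.c21),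
    (mul_nonneg (mul_nonneg ((sub_pos.2 k1.TB)).le hb.A1n) hb.r2n),
    (mul_nonneg (mul_nonneg ((sub_pos.2 k3.Rw)).le hb.b2n) hb.A1n),
    (mul_nonneg (mul_nonneg ((sub_pos.2 k3.Rw)).le hb.A2n) hb.Tp1),
    (mul_nonneg (mul_nonneg ((sub_pos.2 k1.TB)).le hb.A2n) o0),
    (mul_nonneg (mul_nonneg ((sub_pos.2 k1.TB)).le hb.a1n) hb.A2n),
    (mul_nonneg hb.qout s),
    (mul_nonneg ((mul_pos (sub_pos.2 k1.TB) hb.TR1)).le hb.A1n),
    (mul_nonneg (mul_nonneg s hb.b2n) hb.A2n),
    (mul_nonneg (mul_nonneg s hb.A2n) o1),
    (mul_nonneg (mul_nonneg ((sub_pos.2 k3.Rw)).le hb.b2n) hb.A2n),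
    (mul_nonneg (mul_nonneg s hb.A1n) hb.c21),
    (mul_nonneg (mul_nonneg ((sub_pos.2 k1.TB)).le hb.A2n) hb.r1n)]
  · exact lt_irrefl (0:ℝ) (by
      linear_combination
        (31402/180513)*(mul_nonneg ((mul_pos (sub_pos.2 k3.Rw) hb.TR1)).le hb.Tp1) +
        (22148/60171)*(sub_pos.2 k1.TB) +
        (2114/5823)*(mul_nonneg (mul_nonneg (neg_nonneg.2 s) hb.r2n) hb.Lp1) +
        (1754/180513)*(mul_nonneg (mul_nonneg hb.wout hb.Lp1) o1) +
        (139760/180513)*(mul_nonneg (mul_nonneg hb.a1n hb.b2n) hb.c21) +
        (236128/541539)*(mul_nonneg (mul_nonneg hb.a2n hb.b2n) hb.c21) +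
        (59425/180513)*(mul_nonneg (mul_nonneg hb.wout hb.a1n) hb.r1n) +
        (89818/180513)*(mul_pos (mul_pos (sub_pos.2 k1.Rw) hb.TR1) hb.RB1) +
        (70084/180513)*(mul_nonneg ((mul_pos (sub_pos.2 k1.TL) hb.TR1)).le hb.c21) +
        (2114/5823)*(mul_nonneg (mul_nonneg (neg_nonneg.2 s) hb.r1n) hb.r2n) +
        (116392/180513)*(mul_nonneg (neg_nonneg.2 s) hb.Lp1) +
        (495398/1624617)*(mul_nonneg (mul_nonneg hb.wout (hb.TR1).le) hb.a2n) +
        (31402/180513)*(mul_nonneg (mul_nonneg ((sub_pos.2 k3.RL)).le hb.b2n) hb.r1n) +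
        (3640/180513)*(mul_nonneg ((mul_pos (sub_pos.2 k1.TL) hb.RB1)).le hb.c21) +
        (877/180513)*(mul_nonneg (mul_nonneg ((sub_pos.2 k1.TB)).le hb.a1n) hb.B2n) +
        (31402/180513)*(mul_nonneg (mul_nonneg ((sub_pos.2 k3.Rw)).le hb.r1n) o0) +
        (877/180513)*(mul_nonneg (mul_nonneg hb.wout hb.a1n) hb.B2n) +
        (167204/541539)*(mul_nonneg (mul_nonneg (neg_nonneg.2 s) (hb.TR1).le) hb.b2n) +
        (59425/180513)*(mul_nonneg (mul_nonneg hb.wout hb.a1n) o0) +
        (877/180513)*(mul_pos (sub_pos.2 k1.RL) (k0.pos hb.A2n_)) +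
        (877/180513)*(mul_nonneg (mul_nonneg ((sub_pos.2 k1.TL)).le hb.B1n) o1) +
        (209536/180513)*(mul_nonneg (mul_nonneg (neg_nonneg.2 s) hb.a1n) hb.c12) +
        (125602/180513)*(mul_nonneg (mul_nonneg hb.wout (hb.TR1).le) hb.a1n) +
        (29120/180513)*(mul_nonneg hb.qout (neg_nonneg.2 s)) +
        (754/5823)*(mul_pos (mul_pos (sub_pos.2 k1.TL) hb.TR1) hb.TR1) +
        (59425/180513)*(mul_nonneg (mul_nonneg hb.wout hb.a1n) hb.a1n) +
        (116480/180513)*(mul_nonneg (mul_nonneg hb.B2n hb.c21) o0) +
        (31402/60171)*(mul_nonneg ((sub_pos.2 k3.Rw)).le o0) +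
        (31152/20057)*(mul_nonneg hb.b2n hb.c21) +
        (31402/180513)*(mul_nonneg (mul_nonneg ((sub_pos.2 k3.RL)).le hb.r1n) hb.Tp1) +
        (37607/180513)*(mul_nonneg (mul_nonneg hb.wout (hb.RB1).le) hb.r2n) +
        (152132/180513)*(mul_nonneg (mul_nonneg (neg_nonneg.2 s) hb.r1n) hb.c12) +
        (82814/1624617)*(mul_nonneg (mul_nonneg hb.wout hb.a2n) hb.c21) +
        (129116/180513)*(mul_nonneg hb.Tp1 hb.c21) +
        (78722/180513)*(mul_nonneg (mul_nonneg hb.wout (hb.TR1).le) hb.r1n) +
        (31402/180513)*(mul_nonneg (mul_nonneg (neg_nonneg.2 s) hb.r1n) hb.Tp1) +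
        (614/20057)*(mul_nonneg (mul_nonneg (neg_nonneg.2 s) hb.Tp1) hb.c21) +
        (75214/180513)*(mul_nonneg hb.wout hb.r1n) +
        (34910/180513)*(mul_nonneg (mul_nonneg ((sub_pos.2 k3.RL)).le hb.a2n) hb.Tp1) +
        (37607/180513)*(mul_nonneg (mul_nonneg hb.wout (hb.TR1).le) hb.r2n) +
        (224020/1624617)*(mul_nonneg (mul_nonneg hb.wout hb.a2n) hb.b2n) +
        (554560/541539)*(mul_nonneg (mul_nonneg (hb.TR1).le hb.b2n) hb.c21) +
        (162718/541539)*(mul_nonneg hb.wout (hb.TR1).le) +
        (3508/180513)*(mul_nonneg (mul_nonneg (neg_nonneg.2 s) hb.a2n) hb.r1n) +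
        (877/180513)*(mul_nonneg (mul_nonneg ((sub_pos.2 k1.RL)).le hb.B1n) hb.r2n) +
        (224020/1624617)*(mul_nonneg (mul_nonneg hb.wout hb.a2n) hb.a2n) +
        (877/180513)*(mul_nonneg (mul_nonneg (neg_nonneg.2 s) hb.B1n) hb.r2n) +
        (29120/180513)*(mul_nonneg ((sub_pos.2 k0.Rw)).le (neg_nonneg.2 s)) +
        (116480/180513)*(mul_nonneg (mul_nonneg hb.B2n hb.Tp1) hb.c21) +
        (157444/180513)*(mul_nonneg (mul_nonneg hb.r1n hb.Tp1) hb.c21) +
        (50284/180513)*(mul_nonneg (mul_nonneg (neg_nonneg.2 s) hb.A2n) hb.c12) +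
        (64844/180513)*(mul_nonneg (mul_nonneg (neg_nonneg.2 s) hb.B2n) hb.c12) +
        (31402/180513)*(mul_nonneg (mul_nonneg ((sub_pos.2 k3.RL)).le hb.a1n) hb.Tp1) +
        (31402/180513)*(mul_nonneg (mul_nonneg (neg_nonneg.2 s) hb.a1n) hb.r1n) +
        (29360/180513)*(mul_nonneg (mul_nonneg hb.wout (hb.TR1).le) hb.B2n) +
        (29120/180513)*(mul_nonneg (mul_nonneg (neg_nonneg.2 s) hb.B2n) hb.r2n) +
        (7016/180513)*(mul_nonneg (mul_nonneg (neg_nonneg.2 s) hb.a1n) hb.r2n) +
        (1754/180513)*(mul_nonneg (mul_nonneg hb.wout hb.a2n) hb.r1n) +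
        (76226/180513)*(mul_nonneg (mul_nonneg (neg_nonneg.2 s) (hb.TR1).le) (hb.RB1).le) +
        (257692/180513)*(mul_nonneg (mul_nonneg hb.a1n hb.b1n) hb.c21) +
        (14560/180513)*(mul_nonneg (mul_nonneg ((sub_pos.2 k1.TB)).le hb.B2n) hb.c21) +
        (94640/180513)*(mul_nonneg (mul_nonneg hb.r1n hb.c21) o0) +
        (7368/20057)*(mul_nonneg (mul_nonneg hb.Tp1 hb.c21) hb.c12) +
        (8066/180513)*(mul_nonneg ((mul_pos (sub_pos.2 k3.RL) hb.TR1)).le hb.b1n) +
        (589924/541539)*(mul_nonneg (mul_nonneg hb.a2n hb.b1n) hb.c21) +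
        (3508/180513)*(mul_nonneg (mul_nonneg ((sub_pos.2 k3.Rw)).le hb.a2n) o0) +
        (14560/180513)*(mul_nonneg (mul_nonneg (neg_nonneg.2 s) hb.a2n) hb.A2n) +
        (6866/541539)*(mul_nonneg (mul_nonneg hb.wout hb.c21) hb.c21) +
        (1754/180513)*(mul_nonneg (mul_nonneg hb.wout hb.a1n) hb.r2n) +
        (1754/180513)*(mul_nonneg ((mul_pos (sub_pos.2 k1.TB) hb.TR1)).le hb.a1n) +
        (1754/180513)*(mul_nonneg (mul_nonneg ((sub_pos.2 k1.RL)).le hb.a1n) hb.c21) +
        (1754/180513)*(mul_nonneg (mul_nonneg hb.wout hb.r1n) o1) +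
        (3508/180513)*(mul_nonneg (mul_nonneg (neg_nonneg.2 s) hb.a2n) hb.b1n) +
        (320/180513)*(mul_nonneg (mul_nonneg hb.wout hb.A2n) hb.A2n) +
        (320/180513)*(mul_nonneg (mul_nonneg hb.wout hb.A2n) hb.B2n) +
        (160/180513)*(mul_nonneg (mul_nonneg hb.wout hb.A1n) hb.B2n) +
        (160/180513)*(mul_nonneg (mul_nonneg hb.wout hb.B1n) hb.B2n) +
        (71923/180513)*(mul_nonneg (mul_nonneg (neg_nonneg.2 s) hb.a1n) hb.B2n) +
        (14560/180513)*(mul_nonneg (mul_nonneg ((sub_pos.2 k3.Rw)).le hb.b1n) hb.A2n) +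
        (29120/180513)*(mul_nonneg (mul_nonneg (neg_nonneg.2 s) hb.B2n) hb.Tp1) +
        (19121/60171)*(mul_nonneg (mul_nonneg (neg_nonneg.2 s) hb.a2n) hb.B1n) +
        (14560/180513)*(mul_nonneg (mul_nonneg ((sub_pos.2 k3.Rw)).le hb.b2n) hb.B2n) +
        (9680/60171)*(mul_nonneg (mul_nonneg hb.wout (hb.RB1).le) hb.B2n) +
        (25780/541539)*(mul_nonneg (mul_nonneg hb.wout hb.A1n) hb.A1n) +
        (51560/541539)*(mul_nonneg (mul_nonneg hb.wout hb.A1n) hb.B1n) +
        (25780/541539)*(mul_nonneg (mul_nonneg hb.wout hb.B1n) hb.B1n) +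
        (1820/180513)*(mul_nonneg (mul_nonneg (neg_nonneg.2 s) (hb.TR1).le) o1) +
        (3508/180513)*(mul_nonneg (mul_nonneg (hb.RB1).le hb.Tp1) hb.c21) +
        (1666/60171)*(mul_nonneg (mul_nonneg hb.wout (hb.RB1).le) hb.a1n) +
        (1820/180513)*(mul_nonneg (mul_nonneg (neg_nonneg.2 s) hb.r2n) hb.c21))

theorem K58 {c1 c2 a1 a2 B1 B2 r1 r2 : ℝ} (hb : Base c1 c2 a1 a2 B1 B2 r1 r2) (dca : 0 ≤ c2*a1-c1*a2) (k0 : Y1 c1 c2 a1 a2 a1 a2 r1 r2) (k1 : Y1 c1 c2 a1 a2 c1 c2 (2-c1-B1) (c2-B2)) (k2 : Y1 c1 c2 a1 a2 c1 c2 (2-a1-r1) (a2-r2)) (k3 : Y1 c1 c2 a1 a2 a1 a2 B1 B2) (o0 : 0 ≤ a2-r2) : False := by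
  exact lt_irrefl (0:ℝ) (by
      linear_combination
        (52552/1075719)*(sub_pos.2 k3.RL) +
        (223762/1075719)*(mul_pos (sub_pos.2 k3.RL) hb.TR1) +
        (81576/358573)*(mul_pos (mul_pos (sub_pos.2 k3.RL) hb.TR1) hb.TR1) +
        (9611/2151438)*(mul_pos (sub_pos.2 k2.RL) (k0.pos hb.a2n)) +
        (7912/358573)*(mul_pos (mul_pos (sub_pos.2 k0.TL) hb.TR1) hb.RB1) +
        (102927/717146)*(mul_pos (sub_pos.2 k1.Rw) (k0.pos hb.a2n)) +
        (1064528/1075719)*(mul_nonneg (mul_nonneg ((sub_pos.2 k0.TL)).le hb.A2n) hb.B2n) +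
        (2939785/2151438)*(mul_nonneg (mul_nonneg ((sub_pos.2 k1.Rw)).le hb.a2n) o0) +
        (10899/358573)*(mul_nonneg (mul_nonneg ((sub_pos.2 k1.Rw)).le hb.A2n) o0) +
        (1064528/1075719)*(mul_nonneg (mul_nonneg ((sub_pos.2 k0.TL)).le hb.B2n) hb.B2n) +
        (2925253/4302876)*(mul_nonneg (mul_nonneg ((sub_pos.2 k2.RL)).le hb.a2n) hb.a2n) +
        (158488/1075719)*(mul_nonneg ((mul_pos (sub_pos.2 k3.RL) hb.TR1)).le hb.r1n) +
        (10899/358573)*(mul_nonneg (mul_nonneg ((sub_pos.2 k1.RL)).le hb.B2n) o0) +
        (7266/358573)*(mul_nonneg (mul_nonneg ((sub_pos.2 k1.RL)).le hb.r2n) hb.c21) +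
        (1453544/1075719)*(mul_nonneg (mul_nonneg ((sub_pos.2 k2.RL)).le hb.a2n) hb.B2n) +
        (1008063/1434292)*(mul_nonneg ((mul_pos (sub_pos.2 k3.RL) hb.TR1)).le o0) +
        (3185329/4302876)*(mul_nonneg ((sub_pos.2 k3.RL)).le o0) +
        (421324/1075719)*(mul_nonneg ((mul_pos (sub_pos.2 k0.TL) hb.TR1)).le hb.a2n) +
        (40330/358573)*(mul_nonneg (mul_nonneg ((sub_pos.2 k3.TL)).le hb.A2n) hb.c21) +
        (28139/717146)*(mul_nonneg (mul_nonneg ((sub_pos.2 k0.TL)).le hb.a2n) hb.c21) +
        (8620/358573)*(mul_nonneg ((mul_pos (sub_pos.2 k2.Rw) hb.RB1)).le hb.a2n) +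
        (117639/717146)*(mul_nonneg (mul_nonneg ((sub_pos.2 k1.Rw)).le hb.a1n) o0) +
        (33233/1075719)*(mul_nonneg (mul_nonneg ((sub_pos.2 k3.RL)).le hb.a2n) hb.c21) +
        (7266/358573)*(mul_nonneg ((mul_pos (sub_pos.2 k1.RL) hb.TR1)).le hb.r2n) +
        (61234/358573)*(mul_nonneg (mul_nonneg ((sub_pos.2 k3.RL)).le hb.B1n) hb.c21) +
        (289559/4302876)*(mul_nonneg (mul_nonneg ((sub_pos.2 k2.RL)).le hb.a1n) hb.a2n) +
        (80660/358573)*(mul_pos (sub_pos.2 k1.Rw) (k3.pos hb.a2n)) +
        (3633/358573)*(mul_nonneg ((mul_pos (sub_pos.2 k2.Rw) hb.TR1)).le hb.a2n) +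
        (40330/358573)*(mul_nonneg ((mul_pos (sub_pos.2 k3.RL) hb.TR1)).le hb.B1n) +
        (210662/1075719)*(mul_nonneg (mul_nonneg ((sub_pos.2 k0.TL)).le hb.a2n) hb.Lp1) +
        (24506/358573)*(mul_nonneg (mul_nonneg ((sub_pos.2 k3.TL)).le hb.pB2) hb.c21) +
        (434572/1075719)*(mul_nonneg ((mul_pos (sub_pos.2 k3.RL) hb.TR1)).le hb.c21) +
        (63358/1075719)*(mul_nonneg (mul_nonneg ((sub_pos.2 k3.RL)).le hb.Tp1) hb.pB2) +
        (63358/1075719)*(mul_nonneg (mul_nonneg ((sub_pos.2 k3.TL)).le hb.r1n) hb.r2n) +
        (912319/2151438)*(mul_nonneg ((mul_pos (sub_pos.2 k1.Rw) hb.TR1)).le hb.a2n) +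
        (129672/358573)*(mul_nonneg ((mul_pos (sub_pos.2 k0.TL) hb.TR1)).le hb.B2n) +
        (366729/1434292)*(mul_nonneg (mul_nonneg ((sub_pos.2 k0.RL)).le hb.a2n) hb.c21) +
        (26661/358573)*(mul_nonneg (mul_nonneg ((sub_pos.2 k1.Rw)).le hb.a1n) hb.c21) +
        (79244/358573)*(mul_nonneg (mul_nonneg ((sub_pos.2 k2.RL)).le hb.a1n) hb.B2n) +
        (2561309/4302876)*(mul_nonneg (mul_nonneg ((sub_pos.2 k3.RL)).le hb.c21) o0) +
        (475831/2151438)*(mul_nonneg (mul_nonneg ((sub_pos.2 k1.RL)).le hb.a2n) hb.c21) +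
        (20904/358573)*(mul_nonneg ((mul_pos (sub_pos.2 k3.TL) hb.RB1)).le hb.B1n) +
        (7912/358573)*(mul_nonneg ((mul_pos (sub_pos.2 k0.TL) hb.RB1)).le hb.c21) +
        (82694/1075719)*(mul_nonneg ((sub_pos.2 k0.RL)).le hb.B1n) +
        (40330/358573)*(mul_nonneg ((sub_pos.2 k3.TL)).le hb.B2n) +
        (18041/717146)*(mul_nonneg ((mul_pos (sub_pos.2 k0.RL) hb.TR1)).le hb.c21) +
        (94339/2151438)*(mul_nonneg (mul_nonneg ((sub_pos.2 k1.RL)).le hb.a1n) hb.a2n) +
        (31679/1075719)*(mul_nonneg (mul_nonneg ((sub_pos.2 k2.Rw)).le hb.a1n) o0) +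
        (374843/2151438)*(mul_nonneg (mul_nonneg ((sub_pos.2 k0.TL)).le hb.a2n) hb.r1n) +
        (40330/358573)*(mul_nonneg ((mul_pos (sub_pos.2 k3.TL) hb.TR1)).le hb.B2n) +
        (158488/1075719)*(mul_nonneg (mul_nonneg ((sub_pos.2 k3.RL)).le hb.Tp1) hb.c21) +
        (19426/358573)*(mul_nonneg ((sub_pos.2 k3.RL)).le hb.B1n) +
        (40285/1075719)*(mul_nonneg ((mul_pos (sub_pos.2 k3.TL) hb.TR1)).le hb.a2n) +
        (40285/1075719)*(mul_nonneg ((sub_pos.2 k3.TL)).le hb.r2n) +
        (19457/358573)*(mul_nonneg ((mul_pos (sub_pos.2 k3.RL) hb.TR1)).le hb.a1n) +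
        (26745/717146)*(mul_nonneg (mul_nonneg ((sub_pos.2 k1.Rw)).le hb.a2n) hb.r1n) +
        (11514/358573)*(mul_pos (sub_pos.2 k0.TL) hb.RB1) +
        (82694/1075719)*(mul_nonneg ((mul_pos (sub_pos.2 k0.RL) hb.TR1)).le hb.B1n) +
        (82694/1075719)*(mul_nonneg (mul_nonneg ((sub_pos.2 k0.RL)).le hb.B1n) hb.c21) +
        (9611/4302876)*(mul_nonneg ((mul_pos (sub_pos.2 k0.RL) hb.TR1)).le hb.r1n) +
        (14104/1075719)*(mul_nonneg (mul_nonneg ((sub_pos.2 k2.RL)).le hb.B1n) o0) +
        (14104/1075719)*(mul_nonneg (mul_nonneg ((sub_pos.2 k2.Rw)).le hb.B1n) hb.r2n) +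
        (9611/4302876)*(mul_nonneg (mul_nonneg ((sub_pos.2 k0.RL)).le hb.r1n) hb.c21) +
        (64836/358573)*(mul_nonneg ((sub_pos.2 k0.TL)).le hb.qout) +
        (16209/358573)*(mul_nonneg ((mul_pos (sub_pos.2 k1.RL) hb.TR1)).le hb.a1n) +
        (5757/717146)*(mul_nonneg (mul_nonneg ((sub_pos.2 k1.RL)).le hb.a1n) hb.Lp1) +
        (1211/358573)*(mul_nonneg (mul_nonneg ((sub_pos.2 k0.RL)).le hb.r2n) hb.c21) +
        (9611/4302876)*(mul_nonneg ((sub_pos.2 k0.RL)).le hb.r1n) +
        (19457/358573)*(mul_nonneg (mul_nonneg ((sub_pos.2 k3.TL)).le hb.a1n) hb.c21) +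
        (19457/358573)*(mul_nonneg ((sub_pos.2 k3.RL)).le hb.a1n) +
        (7204/358573)*(mul_nonneg (mul_nonneg ((sub_pos.2 k0.TL)).le hb.a1n) hb.c21) +
        (3633/358573)*(mul_nonneg (mul_nonneg ((sub_pos.2 k1.Rw)).le hb.r2n) hb.pB2) +
        (3633/358573)*(mul_nonneg (mul_nonneg ((sub_pos.2 k1.RL)).le hb.r2n) hb.r2n) +
        (1211/358573)*(mul_nonneg (mul_nonneg ((sub_pos.2 k2.RL)).le hb.r2n) o0) +
        (1211/358573)*(mul_nonneg (mul_nonneg ((sub_pos.2 k2.Rw)).le hb.r2n) hb.r2n) +
        (2422/358573)*(mul_nonneg (mul_nonneg ((sub_pos.2 k2.Rw)).le hb.a2n) hb.a2n) +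
        (7204/358573)*(mul_nonneg (mul_nonneg ((sub_pos.2 k0.RL)).le hb.b1n) hb.c21) +
        (24506/358573)*(mul_pos (sub_pos.2 k3.TL) hb.TR1) +
        (46481/2151438)*(mul_nonneg (mul_nonneg ((sub_pos.2 k0.RL)).le hb.r2n) hb.Tp1) +
        (5757/717146)*(mul_nonneg (mul_nonneg ((sub_pos.2 k1.RL)).le hb.a1n) hb.r1n) +
        (46481/2151438)*(mul_nonneg (mul_nonneg ((sub_pos.2 k0.RL)).le hb.r1n) o0) +
        (15886/1075719)*(mul_nonneg (mul_nonneg ((sub_pos.2 k3.RL)).le hb.b2n) hb.r1n) +
        (15886/1075719)*(mul_nonneg (mul_nonneg ((sub_pos.2 k3.RL)).le hb.a2n) hb.Tp1) +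
        (10837/717146)*(mul_pos (sub_pos.2 k0.RL) hb.TR1) +
        (8926/1075719)*(mul_nonneg ((sub_pos.2 k1.Rw)).le hb.a2n) +
        (21491/2151438)*(mul_nonneg ((sub_pos.2 k1.RL)).le hb.a2n) +
        (3633/717146)*(mul_pos (mul_pos (sub_pos.2 k0.RL) hb.TR1) hb.TR1))

theorem K24 {c1 c2 a1 a2 B1 B2 r1 r2 : ℝ} (hb : Base c1 c2 a1 a2 B1 B2 r1 r2) (dca : 0 ≤ c2*a1-c1*a2) (k0 : Y1 c1 (2-c2) B1 B2 (2-c1-B1) (2-(2-c2)-B2) a1 a2) (k1 : Y1 c1 (2-c2) B1 B2 (2-c1-B1) (2-(2-c2)-B2) (2-a1-r1) (-(a2-r2))) : False := by
  linarith [hb.qout,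
    (mul_nonneg hb.A1n hb.pB2),
    (mul_pos (sub_pos.2 k0.TB) hb.RB1),
    (mul_pos (sub_pos.2 k0.TB) hb.pc2),
    (mul_nonneg ((sub_pos.2 k0.TB)).le hb.c12),
    (mul_nonneg hb.A2n hb.Tp1),
    (sub_pos.2 k1.TL)]

theorem K16 {c1 c2 a1 a2 B1 B2 r1 r2 : ℝ} (hb : Base c1 c2 a1 a2 B1 B2 r1 r2) (dca : 0 ≤ c2*a1-c1*a2) (k0 : Y1 c1 (2-c2) B1 B2 c1 (2-c2) (2-r1) r2) (k1 : Y1 c1 (2-c2) B1 B2 c1 (2-c2) (2-c1-a1) (2-c2-a2)) (o0 : 0 ≤ a2-r2) (o1 : 0 ≤ -(2-a1-r1)) : False := by
  linarith [(sub_pos.2 k1.RL),
    (sub_pos.2 k0.RL),
    (mul_nonneg (hb.pc1).le o0),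
    (mul_nonneg hb.b2n o1),
    (mul_nonneg hb.a2n o1)]

theorem K9 {c1 c2 a1 a2 B1 B2 r1 r2 : ℝ} (hb : Base c1 c2 a1 a2 B1 B2 r1 r2) (dca : 0 ≤ c2*a1-c1*a2) (k0 : Y1 c1 (2-c2) B1 B2 B1 B2 (2-r1) r2) (k1 : Y1 c1 (2-c2) B1 B2 B1 B2 (-(2-a1-r1)) (a2-r2)) : False := by
  linarith [(mul_nonneg hb.b1n hb.B2n),
    (mul_nonneg hb.b2n hb.B1n),
    (sub_pos.2 k0.Tw),
    (sub_pos.2 k1.Tw)]

theorem K15 {c1 c2 a1 a2 B1 B2 r1 r2 : ℝ} (hb : Base c1 c2 a1 a2 B1 B2 r1 r2) (dca : 0 ≤ c2*a1-c1*a2) (k0 : Y1 c1 (2-c2) B1 B2 B1 B2 (r1-c1) (2-c2-r2)) (k1 : Y1 c1 (2-c2) B1 B2 B1 B2 (2-a1-r1) (-(a2-r2))) : False := by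
  linarith [(sub_pos.2 k0.Tw),
    (sub_pos.2 k1.Tw),
    (mul_nonneg hb.a1n hb.B2n),
    (mul_nonneg hb.a2n hb.B1n)]

end H407R3.Seven
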