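import Pool.Agent.H407R3.Seven.Bases

set_option maxRecDepth 40000

namespace H407R3.Seven

theorem K90 {c1 c2 a1 a2 B1 B2 r1 r2 : ℝ} (hb : Base c1 c2 a1 a2 B1 B2 r1 r2) (dca : 0 ≤ c2*a1-c1*a2) (k0 : Y1 c1 (2-c2) B1 B2 c1 (2-c2) (2-r1) r2) (k1 : Y1 c1 (2-c2) B1 B2 B1 B2 a1 a2) (k2 : Y1 c1 c2 a1 a2 (2-c1-a1) (2-c2-a2) r1 r2) (k3 : Y1 c1 c2 a1 a2 c1 c2 (2-c1-B1) (c2-B2)) (k4 : Y1 c1 (2-c2) B1 B2 (2-c1-B1) (2-(2-c2)-B2) (r1-c1) (2-c2-r2)) (k5 : Y1 c1 c2 a1 a2 a1 a2 (2-a1-r1) (a2-r2)) (k6 : Y1 c1 c2 a1 a2 a1 a2 B1 B2) (k7 : Y1 c1 (2-c2) B1 B2 c1 (2-c2) (2-c1-a1) (2-c2-a2)) (o0 : 0 ≤ 2-a1-r1) (o1 : 0 ≤ a2-r2) : False := by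
  rcases le_total 0 (a2-(2-c2-a2)) with s | s
  · exact lt_irrefl (0:ℝ) (by
      linear_combination
        (799624382460054946289975735177/19074900671908333948536373416593)*(sub_pos.2 k2.TB) +
        (1863696024730682586679200304/19074900671908333948536373416593)*(mul_nonneg ((sub_pos.2 k2.TB)).le hb.r2n) +
        (4654285423735653268729147533498/19074900671908333948536373416593)*(mul_nonneg (mul_nonneg (hb.TR1).le hb.c21) o0) +
        (514330260490409684051251631215/19074900671908333948536373416593)*(mul_nonneg (mul_nonneg dca hb.a1n) hb.b2n) +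
        (269306217940643149749052228434/19074900671908333948536373416593)*(mul_nonneg (mul_nonneg ((sub_pos.2 k2.TB)).le hb.r1n) hb.c12) +
        (16702610336104987478340727940320/19074900671908333948536373416593)*(mul_nonneg (mul_nonneg ((sub_pos.2 k3.RL)).le hb.a2n) hb.r2n) +
        (950817392601887311919637026891/38149801343816667897072746833186)*(mul_pos (mul_pos (sub_pos.2 k3.RL) hb.TR1) hb.RB1) +
        (2201000728781639092349915714753/19074900671908333948536373416593)*(mul_nonneg (mul_nonneg ((sub_pos.2 k6.TL)).le hb.Tp1) hb.c21) +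
        (28611369651967533261835767126282/19074900671908333948536373416593)*(mul_nonneg (mul_nonneg dca hb.A2n) hb.r2n) +
        (2888670444949775252186368325240/19074900671908333948536373416593)*(mul_nonneg (mul_nonneg ((sub_pos.2 k2.TB)).le hb.a1n) hb.a2n) +
        (1948859321398606446519614982452/19074900671908333948536373416593)*(mul_pos (sub_pos.2 k2.TB) (k6.pos hb.a2n)) +
        (729017169198476035551045528032/19074900671908333948536373416593)*(mul_nonneg ((sub_pos.2 k2.TB)).le hb.a1n) +
        (3681506024748514405087915710851/19074900671908333948536373416593)*(mul_nonneg ((sub_pos.2 k7.Rw)).le dca) +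
        (1826247936663182742231535765746/19074900671908333948536373416593)*(mul_nonneg (mul_nonneg ((sub_pos.2 k2.TB)).le hb.a1n) hb.c21) +
        (2451362980547748657748306517550/19074900671908333948536373416593)*(mul_nonneg (mul_nonneg dca hb.a1n) hb.r2n) +
        (619645920165707637620863247611/19074900671908333948536373416593)*(mul_nonneg ((mul_pos (sub_pos.2 k3.Rw) hb.TR1)).le o1) +
        (9209906895460590130223018270814/19074900671908333948536373416593)*(mul_nonneg (mul_nonneg ((sub_pos.2 k4.TB)).le hb.a2n) hb.c21) +
        (624571292231439950658254479647/19074900671908333948536373416593)*(mul_pos (sub_pos.2 k3.RL) (k5.pos hb.a2n)) +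
        (3380195949409368817754206019731/38149801343816667897072746833186)*(mul_nonneg (mul_nonneg dca (hb.TR1).le) hb.c12) +
        (1393813697368477748190654123128/19074900671908333948536373416593)*(mul_nonneg (mul_nonneg hb.c21 hb.c21) hb.c21) +
        (460548378807199084245356740191/19074900671908333948536373416593)*(mul_nonneg (mul_nonneg ((sub_pos.2 k3.RL)).le hb.a1n) hb.r2n) +
        (1858265311333470172466540139251/38149801343816667897072746833186)*(mul_nonneg ((mul_pos (sub_pos.2 k5.TL) hb.RB1)).le hb.c21) +
        (5742260239368012487718386715301/19074900671908333948536373416593)*(mul_nonneg (mul_nonneg (hb.TR1).le hb.a2n) s) +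
        (1158732651607582623781727088392/19074900671908333948536373416593)*(mul_nonneg (mul_nonneg ((sub_pos.2 k5.RL)).le hb.a2n) hb.b2n) +
        (1488256331630968770179641852673/38149801343816667897072746833186)*(mul_pos (sub_pos.2 k5.TL) hb.RB1) +
        (75233003786313377628614088930/19074900671908333948536373416593)*(mul_nonneg (mul_nonneg ((sub_pos.2 k6.TL)).le hb.A2n) hb.c21) +
        (1017527539584286066315552642218/19074900671908333948536373416593)*(mul_nonneg (mul_nonneg ((sub_pos.2 k7.RL)).le hb.B2n) o1) +
        (1964671735932167349830631899607/38149801343816667897072746833186)*(mul_nonneg ((mul_pos (sub_pos.2 k3.RL) hb.TR1)).le hb.r2n) +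
        (4363585962256286469591354674603/19074900671908333948536373416593)*(mul_nonneg (mul_nonneg ((sub_pos.2 k5.TL)).le hb.b2n) hb.r1n) +
        (2206249778776417811596967745576/19074900671908333948536373416593)*(mul_nonneg (mul_nonneg ((sub_pos.2 k5.TL)).le hb.B1n) hb.c21) +
        (2173946721522394632619259444179/19074900671908333948536373416593)*(mul_nonneg (mul_nonneg ((sub_pos.2 k4.TB)).le hb.a1n) hb.c21) +
        (1386913379500472501809522611195/19074900671908333948536373416593)*(mul_nonneg (mul_nonneg ((sub_pos.2 k7.RL)).le hb.B1n) o1) +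
        (8631458857307177904650464663018/19074900671908333948536373416593)*(mul_nonneg (mul_nonneg ((sub_pos.2 k5.RL)).le hb.A2n) hb.c21) +
        (3345256381468146003329758934011/19074900671908333948536373416593)*(mul_nonneg (mul_nonneg dca (hb.TR1).le) hb.A2n) +
        (331046213685025572171147772890/19074900671908333948536373416593)*(mul_nonneg (mul_nonneg ((sub_pos.2 k5.RL)).le hb.b2n) hb.B1n) +
        (1957539853708047227873832715376/19074900671908333948536373416593)*(mul_pos (mul_pos (sub_pos.2 k6.TB) hb.TR1) hb.TR1) +
        (77454345485827650584641922466/19074900671908333948536373416593)*(mul_nonneg ((mul_pos (sub_pos.2 k5.TL) hb.TR1)).le hb.c21) +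
        (595425455497336997084794609861/19074900671908333948536373416593)*(mul_nonneg (mul_nonneg dca hb.A2n) o0) +
        (39392958516143567654310358163/19074900671908333948536373416593)*(mul_nonneg (mul_nonneg ((sub_pos.2 k5.TB)).le hb.a2n) hb.Tp1) +
        (172005318085467862152700788518/19074900671908333948536373416593)*(mul_nonneg (mul_nonneg ((sub_pos.2 k5.RL)).le hb.a1n) o0) +
        (172005318085467862152700788518/19074900671908333948536373416593)*(mul_nonneg (mul_nonneg ((sub_pos.2 k2.TB)).le hb.a1n) hb.a1n) +
        (1048470214646058543111324398883/38149801343816667897072746833186)*(mul_pos (mul_pos (sub_pos.2 k5.TL) hb.TR1) hb.TR1) +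
        (726944712409562628715805465416/19074900671908333948536373416593)*(mul_nonneg ((mul_pos (sub_pos.2 k1.Tw) hb.RB1)).le hb.a1n) +
        (1557605378536126325624742367308/19074900671908333948536373416593)*(mul_nonneg (mul_nonneg ((sub_pos.2 k2.TB)).le hb.a1n) hb.r2n) +
        (2216303421814400100350282995748/19074900671908333948536373416593)*(mul_nonneg (mul_nonneg hb.wout hb.r1n) o1) +
        (223081791777082577125855531808/19074900671908333948536373416593)*(mul_nonneg (mul_nonneg ((sub_pos.2 k1.TB)).le hb.r1n) s) +
        (747391778287094423048445347858/19074900671908333948536373416593)*(mul_nonneg ((mul_pos (sub_pos.2 k3.Rw) hb.RB1)).le hb.Tp1) +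
        (915065658448563637578693481610/19074900671908333948536373416593)*(mul_nonneg (mul_nonneg ((sub_pos.2 k6.TL)).le hb.a1n) hb.c21) +
        (454652396310788448229062848900/19074900671908333948536373416593)*(mul_nonneg (mul_nonneg ((sub_pos.2 k2.RL)).le hb.r1n) o1) +
        (369385839916186435493969968977/19074900671908333948536373416593)*(mul_nonneg (mul_nonneg ((sub_pos.2 k7.RL)).le hb.a1n) hb.B2n) +
        (2675893781477566056117417845080/19074900671908333948536373416593)*(mul_nonneg (mul_nonneg dca hb.A2n) hb.B1n) +
        (454652396310788448229062848900/19074900671908333948536373416593)*(mul_nonneg (mul_nonneg ((sub_pos.2 k2.TB)).le hb.r2n) hb.Tp1) +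
        (417752007578578037002379382192/19074900671908333948536373416593)*(mul_nonneg ((mul_pos (sub_pos.2 k2.TB) hb.RB1)).le hb.r2n) +
        (688088764193686819870412086892/19074900671908333948536373416593)*(mul_nonneg (mul_nonneg ((sub_pos.2 k5.TL)).le hb.r1n) o0) +
        (2237762815958126467749233245199/38149801343816667897072746833186)*(mul_nonneg (mul_nonneg ((sub_pos.2 k3.RL)).le hb.r2n) hb.c21) +
        (2156957278487326474943018739798/19074900671908333948536373416593)*(mul_nonneg ((mul_pos (sub_pos.2 k5.TL) hb.TR1)).le hb.a1n) +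
        (2737081006818473967152512759280/19074900671908333948536373416593)*(mul_nonneg (mul_nonneg hb.wout o1) o1) +
        (134653108970321574874526114217/19074900671908333948536373416593)*(mul_nonneg ((mul_pos (sub_pos.2 k2.TB) hb.RB1)).le hb.B2n) +
        (4397509999540466965349038751356/19074900671908333948536373416593)*(mul_nonneg (mul_nonneg ((sub_pos.2 k2.TB)).le hb.a2n) hb.c21) +
        (771238132040968814790993441297/19074900671908333948536373416593)*(mul_nonneg (mul_nonneg ((sub_pos.2 k5.TL)).le hb.c12) o1) +
        (2407543978543675596942257342513/19074900671908333948536373416593)*(mul_nonneg (mul_nonneg ((sub_pos.2 k2.TB)).le hb.a2n) hb.r1n) +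
        (3695780668119697780766160554831/19074900671908333948536373416593)*(mul_nonneg (mul_nonneg ((sub_pos.2 k5.RL)).le hb.a1n) hb.b2n) +
        (2946888858620128326947042050528/19074900671908333948536373416593)*(mul_nonneg (mul_nonneg ((sub_pos.2 k2.TB)).le hb.a2n) hb.a2n) +
        (964251001595235816534486248611/19074900671908333948536373416593)*(mul_nonneg (mul_nonneg ((sub_pos.2 k3.Rw)).le hb.a1n) hb.A2n) +
        (1788156207012545703165314962136/19074900671908333948536373416593)*(mul_nonneg (mul_nonneg ((sub_pos.2 k2.TL)).le hb.b2n) o1) +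
        (244844544509134088434533557652/19074900671908333948536373416593)*(mul_nonneg (mul_nonneg ((sub_pos.2 k2.TB)).le hb.A2n) hb.r2n) +
        (887589858366181301396054987158/19074900671908333948536373416593)*(mul_nonneg (mul_nonneg ((sub_pos.2 k5.TL)).le hb.B2n) hb.pB2) +
        (3572948177907040112911274126428/19074900671908333948536373416593)*(mul_nonneg ((mul_pos (sub_pos.2 k6.TL) hb.RB1)).le hb.c21) +
        (2140706555645084870593172018591/19074900671908333948536373416593)*(mul_nonneg ((mul_pos (sub_pos.2 k6.RL) hb.RB1)).le hb.r2n) +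
        (989039262297383290161879210464/19074900671908333948536373416593)*(mul_nonneg (mul_nonneg hb.wout hb.r1n) hb.Tp1) +
        (77045551695470731964223524907/19074900671908333948536373416593)*(mul_nonneg (mul_nonneg ((sub_pos.2 k2.TB)).le hb.B1n) hb.c21) +
        (4459208191304821124290987994873/19074900671908333948536373416593)*(mul_pos (sub_pos.2 k2.TB) hb.TR1) +
        (750495155366203797044950137717/19074900671908333948536373416593)*(mul_nonneg (mul_nonneg ((sub_pos.2 k5.TL)).le hb.r2n) o0) +
        (2212491784251882653810674262744/19074900671908333948536373416593)*(mul_nonneg (mul_nonneg ((sub_pos.2 k5.RL)).le hb.r2n) hb.Tp1) +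
        (3156696710421782686741571341776/19074900671908333948536373416593)*(mul_nonneg (mul_nonneg ((sub_pos.2 k6.TL)).le hb.b2n) hb.r2n) +
        (2668522563858885214034309866424/19074900671908333948536373416593)*(mul_nonneg (mul_nonneg hb.B2n hb.Tp1) s) +
        (3931474301242244703028328230609/38149801343816667897072746833186)*(mul_nonneg ((sub_pos.2 k7.RL)).le o1) +
        (2755354200677616459961960558267/19074900671908333948536373416593)*(mul_nonneg (mul_nonneg dca hb.c21) o0) +
        (860094082279154682023112875410/19074900671908333948536373416593)*(mul_nonneg (mul_nonneg ((sub_pos.2 k2.TB)).le hb.a1n) hb.r1n) +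
        (4404763091514171370480324197689/19074900671908333948536373416593)*(mul_nonneg (mul_nonneg dca (hb.RB1).le) s) +
        (1788156207012545703165314962136/19074900671908333948536373416593)*(mul_nonneg (mul_nonneg dca hb.b2n) hb.r2n) +
        (3733166088085210173635395741864/19074900671908333948536373416593)*(mul_nonneg (mul_nonneg hb.qout hb.c21) s) +
        (109348608949493910941931826304/19074900671908333948536373416593)*(mul_nonneg ((mul_pos (sub_pos.2 k2.TB) hb.TR1)).le hb.B1n) +
        (1788156207012545703165314962136/19074900671908333948536373416593)*(mul_nonneg (mul_nonneg ((sub_pos.2 k5.RL)).le hb.b2n) hb.r2n) +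
        (1578348355210891343370785670888/19074900671908333948536373416593)*(mul_nonneg (mul_nonneg ((sub_pos.2 k4.TL)).le hb.r2n) s) +
        (4426548186565890820050207149231/38149801343816667897072746833186)*(mul_nonneg (mul_nonneg ((sub_pos.2 k3.RL)).le hb.a2n) hb.A2n) +
        (1358332563432153695016833768361/19074900671908333948536373416593)*(mul_nonneg (mul_nonneg ((sub_pos.2 k7.RL)).le hb.a1n) o1) +
        (1663047686684462152108034554673/19074900671908333948536373416593)*(mul_pos (mul_pos (sub_pos.2 k6.RL) hb.TR1) hb.RB1) +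
        (6245531240541494509612027884207/38149801343816667897072746833186)*(mul_nonneg ((mul_pos (sub_pos.2 k7.RL) hb.TR1)).le o1) +
        (1838115660486952447392730347923/19074900671908333948536373416593)*(mul_nonneg (mul_nonneg ((sub_pos.2 k5.TL)).le hb.b2n) hb.c21) +
        (3409588758982161044254037030115/19074900671908333948536373416593)*(mul_nonneg (mul_nonneg ((sub_pos.2 k7.RL)).le hb.B2n) hb.c21) +
        (3750152630392630720624388616716/19074900671908333948536373416593)*(mul_pos (sub_pos.2 k7.RL) hb.TR1) +
        (51175025858149197948408906410/19074900671908333948536373416593)*(mul_nonneg ((mul_pos (sub_pos.2 k4.TL) hb.TR1)).le hb.c21) +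
        (1611791506925504266268178750645/19074900671908333948536373416593)*(mul_pos (sub_pos.2 k5.TL) hb.TR1) +
        (501433151456341965551558590994/19074900671908333948536373416593)*(mul_nonneg (mul_nonneg ((sub_pos.2 k1.Tw)).le hb.Tp1) hb.c21) +
        (640669984530751346816683724453/19074900671908333948536373416593)*(mul_nonneg ((mul_pos (sub_pos.2 k1.Tw) hb.RB1)).le o1) +
        (9057945718750884978425339668440/19074900671908333948536373416593)*(mul_nonneg (mul_nonneg (hb.TR1).le hb.r1n) s) +
        (4735804460449639399669272637360/19074900671908333948536373416593)*(mul_nonneg (mul_nonneg (hb.TR1).le hb.r2n) s) +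
        (4997841551006663874437457483532/19074900671908333948536373416593)*(mul_nonneg (mul_nonneg hb.r1n o1) s) +
        (1204104718450090406328514452446/19074900671908333948536373416593)*(mul_nonneg (mul_nonneg hb.wout hb.a1n) hb.Tp1) +
        (4523707332605939885448713587918/19074900671908333948536373416593)*(mul_nonneg (mul_nonneg (hb.TR1).le hb.r1n) hb.c21) +
        (1531231956284359446036318354478/19074900671908333948536373416593)*(mul_nonneg (mul_nonneg (hb.TR1).le hb.c21) hb.c21) +
        (308784222279571383057333835630/19074900671908333948536373416593)*(mul_nonneg (mul_nonneg ((sub_pos.2 k5.RL)).le hb.b1n) hb.A2n) +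
        (3156696710421782686741571341776/19074900671908333948536373416593)*(mul_nonneg (mul_nonneg ((sub_pos.2 k1.Tw)).le hb.r2n) o1) +
        (1333503810701757254936252113236/19074900671908333948536373416593)*(mul_nonneg (mul_nonneg ((sub_pos.2 k5.RL)).le hb.b2n) hb.B2n) +
        (538612435881286299498104456868/19074900671908333948536373416593)*(mul_nonneg (mul_nonneg ((sub_pos.2 k2.TB)).le hb.A2n) hb.Tp1) +
        (83478083112172376926117207807/19074900671908333948536373416593)*(mul_nonneg (mul_nonneg ((sub_pos.2 k4.TB)).le hb.c21) hb.c21) +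
        (690758496844710041974730683730/19074900671908333948536373416593)*(mul_nonneg (mul_nonneg ((sub_pos.2 k5.RL)).le hb.A2n) hb.r2n) +
        (538612435881286299498104456868/19074900671908333948536373416593)*(mul_nonneg (mul_nonneg ((sub_pos.2 k2.Rw)).le hb.B2n) hb.r1n) +
        (776475232773545620759010709841/19074900671908333948536373416593)*(mul_nonneg ((mul_pos (sub_pos.2 k7.RL) hb.TR1)).le hb.B1n) +
        (134653108970321574874526114217/19074900671908333948536373416593)*(mul_pos (mul_pos (sub_pos.2 k2.RL) hb.TR1) hb.TR1) +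
        (502714659909611594864183762570/19074900671908333948536373416593)*(mul_nonneg (mul_nonneg ((sub_pos.2 k5.TL)).le hb.a1n) hb.c21) +
        (10165928350352884598962757872170/19074900671908333948536373416593)*(mul_nonneg (mul_nonneg (hb.TR1).le hb.c21) o1) +
        (8517921857882138169492580937835/19074900671908333948536373416593)*(mul_nonneg ((mul_pos (sub_pos.2 k6.TL) hb.TR1)).le hb.r2n) +
        (469035906312067359339998290405/19074900671908333948536373416593)*(mul_nonneg (mul_nonneg ((sub_pos.2 k7.RL)).le hb.B2n) hb.r1n) +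
        (3104674264418288168451976376271/38149801343816667897072746833186)*(mul_nonneg (mul_nonneg dca (hb.RB1).le) hb.c21) +
        (2010189564541411379341543517052/19074900671908333948536373416593)*(mul_nonneg (mul_nonneg hb.qout hb.Tp1) hb.c21) +
        (1632552183965744199985867712972/19074900671908333948536373416593)*(mul_nonneg ((sub_pos.2 k5.TL)).le o0) +
        (3685731301879950876202082528579/38149801343816667897072746833186)*(mul_nonneg ((mul_pos (sub_pos.2 k6.TL) hb.TR1)).le hb.a2n) +
        (1234441646101782225842528252943/38149801343816667897072746833186)*(mul_nonneg ((mul_pos (sub_pos.2 k3.RL) hb.RB1)).le hb.c21) +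
        (283019632982194161753487596894/19074900671908333948536373416593)*(mul_nonneg ((mul_pos hb.TR1 hb.TR1)).le s) +
        (3339433859225438789528563041768/19074900671908333948536373416593)*(mul_nonneg ((sub_pos.2 k6.RL)).le hb.c21) +
        (1975304858934510965259717377709/38149801343816667897072746833186)*(mul_nonneg ((mul_pos (sub_pos.2 k6.TL) hb.RB1)).le hb.a2n) +
        (1461996628885678856765724125027/19074900671908333948536373416593)*(mul_nonneg (mul_nonneg ((sub_pos.2 k5.TL)).le hb.r1n) o1) +
        (1078391783124190157324755866480/19074900671908333948536373416593)*(mul_nonneg (mul_nonneg ((sub_pos.2 k5.TL)).le hb.r1n) hb.c21) +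
        (1333503810701757254936252113236/19074900671908333948536373416593)*(mul_nonneg (mul_nonneg ((sub_pos.2 k2.RL)).le hb.B2n) o1) +
        (320647752561333871198460803890/19074900671908333948536373416593)*(mul_nonneg ((mul_pos (sub_pos.2 k5.TL) hb.TR1)).le hb.r1n) +
        (1349363378722748997214487548526/19074900671908333948536373416593)*(mul_nonneg (mul_nonneg ((sub_pos.2 k6.RB)).le hb.Tp1) o1) +
        (443414775944273760406204177726/19074900671908333948536373416593)*(mul_nonneg ((mul_pos (sub_pos.2 k6.RB) hb.TR1)).le o0) +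
        (1411137204211262106700677744964/19074900671908333948536373416593)*(mul_nonneg (mul_nonneg hb.r1n hb.Tp1) s) +
        (1435670662913636641187196428850/19074900671908333948536373416593)*(mul_nonneg (mul_nonneg ((sub_pos.2 k6.TL)).le hb.Lp1) o0) +
        (253066340850697672877332065796/19074900671908333948536373416593)*(mul_nonneg ((sub_pos.2 k7.RL)).le hb.qout) +
        (1435670662913636641187196428850/19074900671908333948536373416593)*(mul_nonneg (mul_nonneg ((sub_pos.2 k6.RL)).le hb.r1n) o0) +
        (2927289458084413254167728809055/38149801343816667897072746833186)*(mul_nonneg (mul_nonneg ((sub_pos.2 k7.RL)).le hb.c21) o1) +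
        (807110223169922528579792229591/19074900671908333948536373416593)*(mul_nonneg (mul_nonneg ((sub_pos.2 k5.TL)).le hb.a1n) o1) +
        (4426548186565890820050207149231/38149801343816667897072746833186)*(mul_nonneg (mul_nonneg ((sub_pos.2 k3.RL)).le hb.a2n) hb.B2n) +
        (92698422641562608096523729010/19074900671908333948536373416593)*(mul_pos (mul_pos (sub_pos.2 k1.Tw) hb.RB1) hb.RB1) +
        (405862668695471862181443845506/19074900671908333948536373416593)*(mul_nonneg ((mul_pos (sub_pos.2 k6.RL) hb.TR1)).le hb.Tp1) +
        (28399268792183603248035140447/19074900671908333948536373416593)*(mul_nonneg (mul_nonneg ((sub_pos.2 k7.RL)).le hb.a1n) hb.pB2) +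
        (688088764193686819870412086892/19074900671908333948536373416593)*(mul_nonneg (mul_nonneg ((sub_pos.2 k5.TL)).le hb.r1n) hb.r1n) +
        (1430456688272492362723581555717/19074900671908333948536373416593)*(mul_nonneg ((sub_pos.2 k4.TB)).le hb.wout) +
        (2037043618176048034897231354954/19074900671908333948536373416593)*(mul_nonneg (mul_nonneg hb.a1n s) s) +
        (443794929183090650698027493579/19074900671908333948536373416593)*(mul_nonneg ((mul_pos (sub_pos.2 k5.TL) hb.TR1)).le hb.B2n) +
        (1984848818364680739164125506146/19074900671908333948536373416593)*(mul_nonneg (mul_nonneg ((sub_pos.2 k6.RL)).le hb.a1n) hb.r2n) +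
        (515406007967222533244652821336/19074900671908333948536373416593)*(mul_nonneg (mul_nonneg ((sub_pos.2 k4.TL)).le hb.Lp1) hb.c21) +
        (515406007967222533244652821336/19074900671908333948536373416593)*(mul_nonneg (mul_nonneg ((sub_pos.2 k4.TB)).le hb.r1n) hb.c21) +
        (34889527373279015475465634244/19074900671908333948536373416593)*(mul_nonneg (mul_nonneg (hb.TR1).le hb.a1n) hb.c21) +
        (1488412898311409783315937100400/19074900671908333948536373416593)*(mul_nonneg (mul_nonneg ((sub_pos.2 k6.TB)).le hb.B2n) hb.Tp1) +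
        (302441487444487335936611830355/19074900671908333948536373416593)*(mul_nonneg (mul_nonneg dca hb.a1n) hb.c21) +
        (834009684258736133907723493926/19074900671908333948536373416593)*(mul_nonneg (mul_nonneg ((sub_pos.2 k6.TL)).le hb.a1n) s) +
        (407565545463872033014065714752/19074900671908333948536373416593)*(mul_nonneg ((mul_pos (sub_pos.2 k1.TB) hb.TR1)).le hb.c21) +
        (1055696618294399163088865684275/152599205375266671588290987332744)*(mul_nonneg (mul_nonneg ((sub_pos.2 k3.RL)).le hb.a1n) hb.Lp1) +
        (319915217982298477614240804260/19074900671908333948536373416593)*(mul_nonneg (mul_nonneg ((sub_pos.2 k2.TB)).le hb.B1n) s) +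
        (596947114790733665471689632518/19074900671908333948536373416593)*(mul_nonneg (mul_nonneg (hb.RB1).le hb.Tp1) s) +
        (1450796396418253094501630055935/19074900671908333948536373416593)*(mul_nonneg (mul_nonneg ((sub_pos.2 k6.RL)).le hb.A2n) hb.r1n) +
        (1076568653409251906801664236590/19074900671908333948536373416593)*(mul_nonneg (mul_nonneg ((sub_pos.2 k6.TL)).le hb.r1n) hb.r2n) +
        (1435670662913636641187196428850/19074900671908333948536373416593)*(mul_nonneg (mul_nonneg dca hb.Tp1) hb.Tp1) +
        (1055696618294399163088865684275/152599205375266671588290987332744)*(mul_nonneg (mul_nonneg ((sub_pos.2 k3.RL)).le hb.a1n) hb.r1n) +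
        (145782465681369984798064814336/19074900671908333948536373416593)*(mul_nonneg (mul_nonneg ((sub_pos.2 k3.RL)).le hb.b1n) hb.c12) +
        (428802098663564146551552411230/19074900671908333948536373416593)*(mul_nonneg (mul_nonneg ((sub_pos.2 k3.RL)).le hb.A2n) hb.c12) +
        (428802098663564146551552411230/19074900671908333948536373416593)*(mul_nonneg (mul_nonneg ((sub_pos.2 k3.RL)).le hb.B2n) hb.c12) +
        (374391382791084559949413056906/19074900671908333948536373416593)*(mul_nonneg ((sub_pos.2 k2.TB)).le hb.c21) +
        (86002659042733931076350394259/19074900671908333948536373416593)*(mul_nonneg (mul_nonneg ((sub_pos.2 k7.RL)).le hb.a1n) hb.a1n) +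
        (366731747009283198374646269684/19074900671908333948536373416593)*(mul_nonneg s s) +
        (379473237330355782872958588536/19074900671908333948536373416593)*(mul_nonneg (mul_nonneg ((sub_pos.2 k1.Tw)).le hb.c21) hb.c21) +
        (172005318085467862152700788518/19074900671908333948536373416593)*(mul_nonneg (mul_nonneg dca hb.a1n) o0) +
        (401122719226649235533093410849/19074900671908333948536373416593)*(mul_nonneg (mul_nonneg ((sub_pos.2 k3.RL)).le hb.r1n) s) +
        (166956166224344753852234415614/19074900671908333948536373416593)*(mul_nonneg ((mul_pos (sub_pos.2 k2.TB) hb.RB1)).le hb.r1n) +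
        (731148902260926073884346540356/19074900671908333948536373416593)*(mul_nonneg (mul_nonneg hb.wout hb.Tp1) hb.Tp1) +
        (102350051716298395896817812820/19074900671908333948536373416593)*(mul_nonneg (mul_nonneg ((sub_pos.2 k0.RL)).le hb.Tp1) hb.c21) +
        (75233003786313377628614088930/19074900671908333948536373416593)*(mul_nonneg ((mul_pos (sub_pos.2 k6.TB) hb.TR1)).le hb.B2n) +
        (93356402371340001875428181846/19074900671908333948536373416593)*(mul_nonneg (mul_nonneg dca hb.r2n) hb.Tp1) +
        (37616501893156688814307044465/19074900671908333948536373416593)*(mul_nonneg (mul_nonneg ((sub_pos.2 k6.TL)).le hb.B2n) hb.Lp1) +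
        (373695889143547211524222673929/19074900671908333948536373416593)*(mul_nonneg (mul_nonneg ((sub_pos.2 k3.RL)).le hb.A2n) hb.Lp1) +
        (373695889143547211524222673929/19074900671908333948536373416593)*(mul_nonneg (mul_nonneg ((sub_pos.2 k3.RL)).le hb.B2n) o0) +
        (104903925900827179897264645624/19074900671908333948536373416593)*(mul_nonneg (mul_nonneg hb.a2n s) s) +
        (948924799805928263987197797144/19074900671908333948536373416593)*(mul_nonneg (mul_nonneg dca hb.a2n) hb.b2n) +
        (1395224643203975177402623675916/19074900671908333948536373416593)*(mul_nonneg (mul_nonneg ((sub_pos.2 k1.Tw)).le hb.a1n) hb.b2n) +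
        (577964611502851236653508209167/38149801343816667897072746833186)*(mul_pos (sub_pos.2 k3.RL) hb.RB1) +
        (122422272254567044217266778826/19074900671908333948536373416593)*(mul_nonneg (mul_nonneg hb.B2n s) s) +
        (79451337593002075378378079153/19074900671908333948536373416593)*(mul_nonneg (mul_nonneg ((sub_pos.2 k5.RL)).le hb.r2n) hb.c21) +
        (911232618454878793829823298444/19074900671908333948536373416593)*(mul_nonneg (mul_nonneg hb.Tp1 hb.c21) o1) +
        (928485108076047928738755435187/76299602687633335794145493666372)*(mul_nonneg (mul_nonneg ((sub_pos.2 k3.RL)).le hb.a1n) hb.c21) +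
        (2464141553052509349940102986400/19074900671908333948536373416593)*(mul_nonneg (mul_nonneg dca hb.b2n) hb.B2n) +
        (504327991031247887339086623635/19074900671908333948536373416593)*(mul_nonneg (mul_nonneg ((sub_pos.2 k3.RL)).le hb.a1n) hb.a2n) +
        (631535721983274769269092193920/19074900671908333948536373416593)*(mul_nonneg ((mul_pos (sub_pos.2 k6.RL) hb.TR1)).le hb.a1n) +
        (1788123889332502505730688722878/19074900671908333948536373416593)*(mul_nonneg (mul_nonneg hb.wout (hb.TR1).le) hb.B2n) +
        (59493134526263001446372255066/19074900671908333948536373416593)*(mul_nonneg (mul_nonneg dca hb.a1n) hb.Tp1) +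
        (447552633664859511049142931696/19074900671908333948536373416593)*(mul_nonneg ((sub_pos.2 k2.TB)).le hb.B2n) +
        (36822699590118029318429569761/19074900671908333948536373416593)*(mul_nonneg (mul_nonneg ((sub_pos.2 k7.RL)).le hb.A1n) hb.B1n) +
        (36822699590118029318429569761/19074900671908333948536373416593)*(mul_nonneg (mul_nonneg ((sub_pos.2 k7.RL)).le hb.B1n) hb.B1n) +
        (272794725313497090412823311936/19074900671908333948536373416593)*(mul_nonneg (mul_nonneg ((sub_pos.2 k6.TL)).le o0) o1) +
        (1330040197577129201771085243788/19074900671908333948536373416593)*(mul_nonneg (mul_nonneg dca (hb.RB1).le) hb.A2n) +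
        (244844544509134088434533557652/19074900671908333948536373416593)*(mul_nonneg (mul_nonneg hb.A2n o1) s) +
        (137642848578139273302854888143/19074900671908333948536373416593)*(mul_nonneg dca dca) +
        (2176139686802256223766716213155/38149801343816667897072746833186)*(mul_nonneg ((sub_pos.2 k3.RL)).le o1) +
        (566039265964388323506975193788/19074900671908333948536373416593)*(mul_nonneg ((mul_pos (sub_pos.2 k1.Tw) hb.TR1)).le hb.Tp1) +
        (95585334374360607654992544944/19074900671908333948536373416593)*(mul_nonneg (mul_nonneg hb.r2n hb.Tp1) s) +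
        (214543236941968608654498850982/19074900671908333948536373416593)*(mul_nonneg (mul_nonneg ((sub_pos.2 k3.RL)).le hb.a2n) hb.a2n) +
        (72812144407835339890247628556/19074900671908333948536373416593)*(mul_nonneg ((mul_pos hb.TR1 hb.TR1)).le hb.c21) +
        (221729566353789785560571935932/19074900671908333948536373416593)*(mul_nonneg (mul_nonneg dca hb.A2n) hb.r1n) +
        (474818153876592702401617025809/19074900671908333948536373416593)*(mul_nonneg ((mul_pos (sub_pos.2 k1.Tw) hb.TR1)).le hb.r2n) +
        (248756066405132513941432905632/19074900671908333948536373416593)*(mul_nonneg (mul_nonneg ((sub_pos.2 k6.TB)).le hb.a2n) hb.Tp1) +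
        (243077620154814127291070306122/19074900671908333948536373416593)*(mul_nonneg (mul_nonneg ((sub_pos.2 k1.TB)).le hb.Tp1) s) +
        (474567474366660705457329383431/76299602687633335794145493666372)*(mul_nonneg ((mul_pos (sub_pos.2 k3.RL) hb.TR1)).le hb.a1n) +
        (514666452190744173185444815135/19074900671908333948536373416593)*(mul_nonneg (mul_nonneg dca hb.r2n) hb.c21) +
        (222165629845095483023473393424/19074900671908333948536373416593)*(mul_nonneg (mul_nonneg (hb.TR1).le hb.a1n) s) +
        (73800777464420822453366933416/19074900671908333948536373416593)*(mul_nonneg (mul_nonneg hb.pin hb.r2n) hb.c21) +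
        (55090216713209307397631525528/19074900671908333948536373416593)*(mul_nonneg (mul_nonneg (hb.RB1).le hb.r1n) hb.c21) +
        (15646011464287142371807313836/19074900671908333948536373416593)*(mul_nonneg ((mul_pos (sub_pos.2 k7.RL) hb.RB1)).le hb.c21) +
        (72416337766873083062162619948/19074900671908333948536373416593)*(mul_nonneg (mul_nonneg (hb.TR1).le hb.B2n) hb.c21) +
        (3361562091675356672058173528/19074900671908333948536373416593)*(mul_nonneg (mul_nonneg ((sub_pos.2 k7.RL)).le hb.a1n) hb.c21))
  · exact lt_irrefl (0:ℝ) (by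
      linear_combination
        (153611889805157500567136008/4035357028315508513437232291)*(mul_nonneg hb.c21 (neg_nonneg.2 s)) +
        (169136871872611785593111592/4035357028315508513437232291)*(sub_pos.2 k2.TB) +
        (7762491033727142512987792/4035357028315508513437232291)*(mul_nonneg (mul_nonneg (hb.TR1).le hb.b1n) hb.c21) +
        (585473154777403638158779759/4035357028315508513437232291)*(mul_nonneg ((sub_pos.2 k5.TB)).le hb.qout) +
        (121350120509800399552496492/4035357028315508513437232291)*(mul_nonneg ((mul_pos (sub_pos.2 k6.RB) hb.TR1)).le hb.B1n) +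
        (467432044498631158426979888/4035357028315508513437232291)*(mul_nonneg (mul_nonneg ((sub_pos.2 k2.TB)).le hb.a2n) hb.r1n) +
        (489703728820232514710492493/4035357028315508513437232291)*(mul_nonneg (mul_nonneg hb.B1n hb.Lp1) (neg_nonneg.2 s)) +
        (503474902736001548712022941/4035357028315508513437232291)*(mul_nonneg (mul_nonneg hb.B1n hb.r1n) (neg_nonneg.2 s)) +
        (637072595417987944439695488/4035357028315508513437232291)*(mul_nonneg (mul_nonneg hb.B2n (neg_nonneg.2 s)) (neg_nonneg.2 s)) +
        (1338956912908626646626234120/4035357028315508513437232291)*(mul_nonneg (mul_nonneg ((sub_pos.2 k1.Tw)).le hb.a2n) hb.a2n) +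
        (123841656667047052923924146/4035357028315508513437232291)*(mul_nonneg (mul_nonneg ((sub_pos.2 k3.RL)).le hb.a2n) hb.r1n) +
        (1451580983693075699064371192/4035357028315508513437232291)*(mul_nonneg (mul_nonneg ((sub_pos.2 k2.TB)).le hb.a1n) hb.a2n) +
        (167974847667478165203539444/4035357028315508513437232291)*(mul_nonneg (mul_nonneg ((sub_pos.2 k6.TL)).le o1) (neg_nonneg.2 s)) +
        (232786569740128922950382588/4035357028315508513437232291)*(mul_nonneg (mul_nonneg ((sub_pos.2 k2.TB)).le hb.a2n) hb.a2n) +
        (725790491846537849532185596/4035357028315508513437232291)*(mul_nonneg (mul_nonneg ((sub_pos.2 k5.TL)).le hb.a1n) (neg_nonneg.2 s)) +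
        (172831258860402020658248384/4035357028315508513437232291)*(mul_nonneg (mul_nonneg ((sub_pos.2 k5.TL)).le hb.a1n) hb.r2n) +
        (41894916210478148517548784/4035357028315508513437232291)*(mul_nonneg (mul_nonneg hb.B1n hb.B2n) (neg_nonneg.2 s)) +
        (116393284870064461475191294/4035357028315508513437232291)*(mul_nonneg (mul_nonneg ((sub_pos.2 k5.TB)).le hb.a2n) (neg_nonneg.2 s)) +
        (86415629430201010329124192/4035357028315508513437232291)*(mul_nonneg (mul_nonneg ((sub_pos.2 k5.TL)).le hb.c12) o1) +
        (172831258860402020658248384/4035357028315508513437232291)*(mul_pos (sub_pos.2 k5.TL) (k2.pos hb.b2n)) +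
        (10214364784072927162832436/4035357028315508513437232291)*(mul_nonneg (mul_nonneg ((sub_pos.2 k2.TL)).le hb.a1n) hb.a1n) +
        (501503608786835158109577616/4035357028315508513437232291)*(mul_nonneg (mul_nonneg ((sub_pos.2 k6.RB)).le hb.a2n) (neg_nonneg.2 s)) +
        (297598291812779680697225732/4035357028315508513437232291)*(mul_nonneg (mul_nonneg ((sub_pos.2 k1.RB)).le hb.r2n) (neg_nonneg.2 s)) +
        (237886619173472600878425720/4035357028315508513437232291)*(mul_nonneg (mul_nonneg hb.B2n hb.B2n) (neg_nonneg.2 s)) +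
        (369354038685018981486111496/4035357028315508513437232291)*(mul_nonneg (mul_nonneg ((sub_pos.2 k6.TB)).le hb.B1n) hb.B2n) +
        (450308033307313054712330724/4035357028315508513437232291)*(mul_nonneg (mul_nonneg ((sub_pos.2 k3.RL)).le hb.a2n) hb.r2n) +
        (472189468206587384923010254/4035357028315508513437232291)*(mul_pos (mul_pos (sub_pos.2 k6.TB) hb.TR1) hb.RB1) +
        (1451580983693075699064371192/4035357028315508513437232291)*(mul_nonneg (mul_nonneg dca hb.a1n) (neg_nonneg.2 s)) +
        (450532412830937813973627144/4035357028315508513437232291)*(mul_nonneg ((sub_pos.2 k6.TB)).le hb.Tp1) +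
        (184677019342509490743055748/4035357028315508513437232291)*(mul_nonneg (mul_nonneg ((sub_pos.2 k6.TB)).le hb.B1n) (neg_nonneg.2 s)) +
        (223198718859584760522919299/4035357028315508513437232291)*(mul_nonneg ((sub_pos.2 k3.RL)).le o1) +
        (474322385271249053969223754/4035357028315508513437232291)*(mul_nonneg (mul_nonneg hb.a2n hb.c21) (neg_nonneg.2 s)) +
        (428617938895576344074561142/4035357028315508513437232291)*(mul_nonneg (mul_nonneg dca (hb.RB1).le) hb.Tp1) +
        (662235511665124752212736322/4035357028315508513437232291)*(mul_pos (sub_pos.2 k6.TL) hb.TR1) +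
        (255877716199435253552119414/4035357028315508513437232291)*(mul_nonneg (mul_nonneg ((sub_pos.2 k3.Rw)).le hb.a1n) hb.A2n) +
        (645140172110729302203753657/4035357028315508513437232291)*(mul_pos (sub_pos.2 k3.RL) (k6.pos hb.a2n)) +
        (123700274100942708454033161/4035357028315508513437232291)*(mul_nonneg ((mul_pos (sub_pos.2 k6.TL) hb.RB1)).le hb.c21) +
        (369354038685018981486111496/4035357028315508513437232291)*(mul_nonneg (mul_nonneg ((sub_pos.2 k6.RL)).le hb.A2n) hb.B1n) +
        (121350120509800399552496492/4035357028315508513437232291)*(mul_nonneg (mul_nonneg ((sub_pos.2 k6.TL)).le hb.B1n) hb.c21) +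
        (881179004828737188789030413/4035357028315508513437232291)*(sub_pos.2 k1.Tw) +
        (1053006957818342147338821220/4035357028315508513437232291)*(mul_nonneg (mul_nonneg ((sub_pos.2 k6.TL)).le hb.a1n) hb.r2n) +
        (410631351609763831696136225/8070714056631017026874464582)*(sub_pos.2 k5.TL) +
        (259246888290603030987372576/4035357028315508513437232291)*(mul_nonneg (mul_nonneg ((sub_pos.2 k6.RB)).le hb.r2n) o1) +
        (173571096136676328668736348/4035357028315508513437232291)*(mul_nonneg ((mul_pos (sub_pos.2 k3.Rw) hb.RB1)).le hb.a1n) +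
        (259246888290603030987372576/4035357028315508513437232291)*(mul_nonneg (mul_nonneg dca hb.r2n) hb.r2n) +
        (739287479557549139693889296/4035357028315508513437232291)*(mul_pos (sub_pos.2 k5.TL) (k6.pos hb.a2n)) +
        (50238626802173540556948741/4035357028315508513437232291)*(mul_nonneg ((mul_pos (sub_pos.2 k5.TL) hb.TR1)).le hb.c21) +
        (2017412510202410858754396076/4035357028315508513437232291)*(mul_nonneg (mul_nonneg dca hb.Tp1) o1) +
        (384544969242622627041663648/4035357028315508513437232291)*(mul_nonneg (mul_nonneg dca (hb.RB1).le) hb.A2n) +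
        (234256037786132960443085404/4035357028315508513437232291)*(mul_nonneg (mul_nonneg dca hb.A2n) hb.A2n) +
        (3431664501747191942371180560/4035357028315508513437232291)*(mul_nonneg (mul_nonneg dca hb.a1n) hb.r2n) +
        (319097021839331279369043678/4035357028315508513437232291)*(mul_nonneg (mul_nonneg ((sub_pos.2 k6.RB)).le hb.A2n) hb.c21) +
        (64811722072650757746843144/4035357028315508513437232291)*(mul_nonneg (mul_nonneg ((sub_pos.2 k2.TB)).le hb.B1n) hb.r2n) +
        (129623444145301515493686288/4035357028315508513437232291)*(mul_nonneg (mul_nonneg ((sub_pos.2 k1.Tw)).le hb.r1n) hb.r2n) +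
        (904791152150956907393279480/4035357028315508513437232291)*(mul_nonneg (mul_nonneg hb.a1n hb.B2n) (neg_nonneg.2 s)) +
        (262081428920608548286989426/4035357028315508513437232291)*(mul_nonneg ((sub_pos.2 k1.RL)).le dca) +
        (104624515109647167167009040/4035357028315508513437232291)*(mul_nonneg (mul_nonneg hb.B1n hb.r2n) (neg_nonneg.2 s)) +
        (64811722072650757746843144/4035357028315508513437232291)*(mul_nonneg ((mul_pos (sub_pos.2 k2.TB) hb.RB1)).le hb.r2n) +
        (64811722072650757746843144/4035357028315508513437232291)*(mul_nonneg (mul_nonneg ((sub_pos.2 k5.TB)).le hb.B2n) o1) +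
        (32405861036325378873421572/4035357028315508513437232291)*(mul_nonneg (mul_nonneg ((sub_pos.2 k5.RL)).le hb.B2n) (neg_nonneg.2 s)) +
        (64811722072650757746843144/4035357028315508513437232291)*(mul_nonneg (mul_nonneg ((sub_pos.2 k4.TB)).le hb.c21) o1) +
        (260072450815309801633878872/4035357028315508513437232291)*(mul_nonneg (mul_nonneg ((sub_pos.2 k5.TL)).le hb.a2n) hb.c21) +
        (64811722072650757746843144/4035357028315508513437232291)*(mul_nonneg (mul_nonneg ((sub_pos.2 k2.TB)).le hb.B2n) hb.r2n) +
        (226172786560922428756143280/4035357028315508513437232291)*(mul_nonneg (mul_nonneg hb.wout hb.r1n) hb.r1n) +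
        (364103584272155018534753384/4035357028315508513437232291)*(mul_nonneg (mul_nonneg dca hb.A2n) hb.r2n) +
        (1249629674181172493169689186/4035357028315508513437232291)*(mul_nonneg (mul_nonneg hb.wout (hb.TR1).le) hb.a2n) +
        (366850776527977030026099846/4035357028315508513437232291)*(mul_nonneg (mul_nonneg ((sub_pos.2 k6.TL)).le hb.c21) o0) +
        (73229523776073492305277325/4035357028315508513437232291)*(mul_pos (mul_pos (sub_pos.2 k1.Tw) hb.RB1) hb.RB1) +
        (522518090271593630317209440/4035357028315508513437232291)*(mul_nonneg (mul_nonneg ((sub_pos.2 k7.RL)).le hb.r1n) o1) +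
        (2842511228313794954533378104/4035357028315508513437232291)*(mul_nonneg (mul_nonneg hb.wout hb.B2n) hb.r1n) +
        (1887789066057109343260709788/4035357028315508513437232291)*(mul_nonneg (mul_nonneg dca hb.r2n) hb.Tp1) +
        (59876427161471891481685061/4035357028315508513437232291)*(mul_nonneg (mul_nonneg hb.qout hb.c21) hb.c21) +
        (78097682970029955153029748/4035357028315508513437232291)*(mul_nonneg (mul_nonneg ((sub_pos.2 k3.RL)).le hb.a2n) hb.A2n) +
        (128966095919146872987913848/4035357028315508513437232291)*(mul_nonneg (mul_nonneg ((sub_pos.2 k2.TB)).le hb.a1n) hb.r1n) +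
        (128966095919146872987913848/4035357028315508513437232291)*(mul_nonneg (mul_nonneg ((sub_pos.2 k5.RL)).le hb.a1n) o0) +
        (837844860844381164232451828/4035357028315508513437232291)*(mul_nonneg ((sub_pos.2 k5.TB)).le dca) +
        (909416902489765959139871257/4035357028315508513437232291)*(mul_nonneg ((sub_pos.2 k6.RL)).le (neg_nonneg.2 s)) +
        (583001851704458364208269266/4035357028315508513437232291)*(mul_nonneg (mul_nonneg dca hb.A2n) (neg_nonneg.2 s)) +
        (199050380025447254115482982/4035357028315508513437232291)*(mul_nonneg (mul_nonneg ((sub_pos.2 k1.Tw)).le hb.a1n) hb.c21) +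
        (64811722072650757746843144/4035357028315508513437232291)*(mul_nonneg (mul_nonneg ((sub_pos.2 k5.RL)).le hb.B1n) o1) +
        (116942446073617712739855952/4035357028315508513437232291)*(mul_nonneg (mul_nonneg ((sub_pos.2 k1.TB)).le hb.r2n) hb.c21) +
        (292452741398198589244478232/4035357028315508513437232291)*(mul_nonneg (mul_nonneg (hb.TR1).le hb.B1n) hb.c21) +
        (112757914581741190395407728/4035357028315508513437232291)*(mul_nonneg ((sub_pos.2 k0.RL)).le (neg_nonneg.2 s)) +
        (74399572953194920174306433/4035357028315508513437232291)*(mul_nonneg ((mul_pos (sub_pos.2 k3.RL) hb.TR1)).le hb.r2n) +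
        (444678230568102315151570730/4035357028315508513437232291)*(mul_nonneg (mul_nonneg ((sub_pos.2 k1.Tw)).le hb.a1n) hb.r2n) +
        (2212151825311360905371759108/4035357028315508513437232291)*(mul_nonneg (mul_nonneg hb.wout hb.a1n) o1) +
        (29624123265623062420213871/8070714056631017026874464582)*(mul_pos (mul_pos (sub_pos.2 k5.TL) hb.TR1) hb.TR1) +
        (967135098417574028565564788/4035357028315508513437232291)*(mul_nonneg (mul_nonneg hb.a1n hb.a2n) (neg_nonneg.2 s)) +
        (157944735404303840998974816/4035357028315508513437232291)*(mul_nonneg (mul_nonneg hb.B1n hb.Tp1) hb.c21) +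
        (143256927457934841048130804/4035357028315508513437232291)*(mul_nonneg ((sub_pos.2 k2.TB)).le dca) +
        (87211451216528266370907184/4035357028315508513437232291)*(mul_nonneg ((mul_pos (sub_pos.2 k5.RL) hb.TR1)).le hb.A2n) +
        (145025053127586626389972987/4035357028315508513437232291)*(mul_nonneg ((mul_pos (sub_pos.2 k5.TL) hb.TR1)).le (neg_nonneg.2 s)) +
        (820369593044384008822467448/4035357028315508513437232291)*(mul_nonneg (mul_nonneg hb.B2n hb.c21) (neg_nonneg.2 s)) +
        (297633006236477965073842898/4035357028315508513437232291)*(mul_nonneg (mul_nonneg hb.B1n hb.c21) hb.c21) +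
        (158521775485924038495366380/4035357028315508513437232291)*(mul_nonneg ((mul_pos (sub_pos.2 k2.TB) hb.RB1)).le hb.a1n) +
        (121350120509800399552496492/4035357028315508513437232291)*(mul_nonneg ((sub_pos.2 k6.TL)).le hb.B1n) +
        (69269470140070253706129822/4035357028315508513437232291)*(mul_nonneg (mul_nonneg ((sub_pos.2 k5.TL)).le hb.a1n) hb.c21) +
        (48055002605286211233812456/4035357028315508513437232291)*(mul_nonneg (mul_nonneg ((sub_pos.2 k4.TB)).le hb.Lp1) hb.c21) +
        (21603907357550252582281048/4035357028315508513437232291)*(mul_nonneg ((mul_pos (sub_pos.2 k5.RL) hb.RB1)).le hb.r2n) +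
        (297479289007962677024833596/4035357028315508513437232291)*(mul_nonneg (mul_nonneg hb.wout hb.a1n) (neg_nonneg.2 s)) +
        (64452767209525289346353068/4035357028315508513437232291)*(mul_nonneg (mul_nonneg ((sub_pos.2 k3.Rw)).le hb.c21) o0) +
        (166093700793789513671562918/4035357028315508513437232291)*(mul_nonneg (mul_nonneg ((sub_pos.2 k3.RL)).le hb.a2n) hb.A1n) +
        (216168422340753139853316556/4035357028315508513437232291)*(mul_nonneg (mul_nonneg ((sub_pos.2 k6.TL)).le hb.a2n) hb.c21) +
        (408660110006215644183204752/4035357028315508513437232291)*(mul_nonneg (mul_nonneg hb.wout (hb.TR1).le) hb.a1n) +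
        (87161455742634435511684747/4035357028315508513437232291)*(mul_nonneg (mul_nonneg dca hb.Tp1) hb.c12) +
        (41894916210478148517548784/4035357028315508513437232291)*(mul_nonneg (mul_nonneg hb.wout hb.B2n) hb.B2n) +
        (129623444145301515493686288/4035357028315508513437232291)*(mul_nonneg (mul_nonneg hb.wout hb.a2n) hb.a2n) +
        (89810651108305106073520392/4035357028315508513437232291)*(mul_nonneg (mul_nonneg hb.wout hb.B1n) o1) +
        (325385242920501984819235966/4035357028315508513437232291)*(mul_nonneg (mul_nonneg (hb.TR1).le hb.a2n) (neg_nonneg.2 s)) +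
        (74697412743646363656789360/4035357028315508513437232291)*(mul_nonneg (mul_nonneg ((sub_pos.2 k7.RL)).le hb.a1n) hb.Tp1) +
        (132206402722608893752062812/4035357028315508513437232291)*(mul_nonneg (mul_nonneg hb.qout hb.Tp1) hb.c21) +
        (45854144600088966019110382/4035357028315508513437232291)*(mul_nonneg (mul_nonneg ((sub_pos.2 k0.RL)).le hb.r1n) hb.c21) +
        (59948883922806614818536348/4035357028315508513437232291)*(mul_nonneg (mul_nonneg ((sub_pos.2 k0.Rw)).le hb.r1n) (neg_nonneg.2 s)) +
        (217902612897079752391558817/4035357028315508513437232291)*(mul_nonneg ((sub_pos.2 k5.TL)).le hb.Tp1) +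
        (57437244892958357398086850/4035357028315508513437232291)*(mul_nonneg (mul_nonneg ((sub_pos.2 k3.Rw)).le hb.B2n) (neg_nonneg.2 s)) +
        (1482102726281768496632976846/4035357028315508513437232291)*(mul_nonneg (mul_nonneg ((sub_pos.2 k1.Tw)).le hb.a2n) hb.r1n) +
        (421038245056144976721706721/8070714056631017026874464582)*(mul_nonneg (mul_nonneg dca hb.c21) hb.c21) +
        (147300392819114568884365752/4035357028315508513437232291)*(mul_nonneg (mul_nonneg ((sub_pos.2 k5.RL)).le hb.r1n) (neg_nonneg.2 s)) +
        (133007808387679992058913741/4035357028315508513437232291)*(mul_nonneg ((sub_pos.2 k6.TB)).le hb.qout) +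
        (525735158195107227068020190/4035357028315508513437232291)*(mul_nonneg (mul_nonneg (hb.TR1).le hb.a2n) hb.c21) +
        (417902172270987675838909152/4035357028315508513437232291)*(mul_nonneg (mul_nonneg hb.r2n hb.c21) (neg_nonneg.2 s)) +
        (4166488172609058054446208/4035357028315508513437232291)*(mul_nonneg ((mul_pos (sub_pos.2 k2.RL) hb.TR1)).le hb.B1n) +
        (758397708828895322796502654/4035357028315508513437232291)*(mul_nonneg (mul_nonneg ((sub_pos.2 k2.TL)).le hb.a1n) hb.B2n) +
        (216005818594461301607377796/4035357028315508513437232291)*(mul_nonneg (mul_nonneg ((sub_pos.2 k3.RL)).le hb.a1n) hb.a1n) +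
        (158617282114096726767555304/4035357028315508513437232291)*(mul_nonneg (mul_nonneg hb.r1n hb.c21) o1) +
        (693585986756244565049659510/4035357028315508513437232291)*(mul_nonneg (mul_nonneg ((sub_pos.2 k5.TL)).le hb.a2n) hb.B1n) +
        (112543281047960964697094210/4035357028315508513437232291)*(mul_nonneg (mul_nonneg hb.B1n hb.c21) (neg_nonneg.2 s)) +
        (179213361248038089319625515/4035357028315508513437232291)*(mul_nonneg (mul_nonneg ((sub_pos.2 k5.RL)).le hb.r1n) hb.c12) +
        (298388833732364567440099610/4035357028315508513437232291)*(mul_nonneg (mul_nonneg ((sub_pos.2 k5.TL)).le hb.B1n) hb.c21) +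
        (332544967058995891262686598/4035357028315508513437232291)*(mul_nonneg (mul_nonneg dca hb.a1n) hb.B1n) +
        (555346931157252582533278790/4035357028315508513437232291)*(mul_nonneg (mul_nonneg (hb.TR1).le hb.B2n) hb.c21) +
        (260261912032517715320294162/4035357028315508513437232291)*(mul_nonneg (mul_nonneg ((sub_pos.2 k6.RL)).le hb.r1n) hb.c12) +
        (675617200706659285866587200/4035357028315508513437232291)*(mul_nonneg (mul_nonneg hb.r1n hb.r2n) (neg_nonneg.2 s)) +
        (97995851481497226180438468/4035357028315508513437232291)*(mul_nonneg (mul_nonneg hb.qout hb.A2n) (neg_nonneg.2 s)) +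
        (22211349835008121948435082/4035357028315508513437232291)*(mul_nonneg (mul_nonneg ((sub_pos.2 k5.RL)).le hb.A2n) hb.r1n) +
        (129623444145301515493686288/4035357028315508513437232291)*(mul_nonneg (mul_nonneg hb.r2n o1) (neg_nonneg.2 s)) +
        (99466670129926711952068994/4035357028315508513437232291)*(mul_nonneg (mul_nonneg ((sub_pos.2 k5.TL)).le hb.a1n) hb.A1n) +
        (128966095919146872987913848/4035357028315508513437232291)*(mul_nonneg (mul_nonneg dca hb.a1n) o0) +
        (129623444145301515493686288/4035357028315508513437232291)*(mul_nonneg (mul_nonneg ((sub_pos.2 k6.TB)).le hb.r1n) o1) +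
        (118853306108007292928470548/4035357028315508513437232291)*(mul_nonneg ((mul_pos (sub_pos.2 k1.RB) hb.TR1)).le hb.c21) +
        (129623444145301515493686288/4035357028315508513437232291)*(mul_nonneg (mul_nonneg ((sub_pos.2 k6.RL)).le hb.r2n) hb.r2n) +
        (389738780398223205819698705/4035357028315508513437232291)*(mul_nonneg ((sub_pos.2 k5.TB)).le (neg_nonneg.2 s)) +
        (619572894407599550342299956/4035357028315508513437232291)*(mul_nonneg (mul_nonneg hb.a1n hb.Tp1) hb.c21) +
        (31759405277371317219684416/4035357028315508513437232291)*(mul_nonneg (mul_nonneg ((sub_pos.2 k2.TB)).le hb.r1n) hb.Lp1) +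
        (8332976345218116108892416/4035357028315508513437232291)*(mul_nonneg (mul_nonneg ((sub_pos.2 k2.TB)).le hb.A1n) hb.B1n) +
        (8332976345218116108892416/4035357028315508513437232291)*(mul_nonneg (mul_nonneg ((sub_pos.2 k2.TB)).le hb.B1n) hb.B1n) +
        (31759405277371317219684416/4035357028315508513437232291)*(mul_nonneg (mul_nonneg ((sub_pos.2 k2.TL)).le hb.r1n) hb.Tp1) +
        (48055002605286211233812456/4035357028315508513437232291)*(mul_nonneg (mul_nonneg ((sub_pos.2 k4.TL)).le hb.r1n) hb.c21) +
        (82806131801179926128860362/4035357028315508513437232291)*(mul_nonneg (mul_nonneg ((sub_pos.2 k7.RL)).le hb.b1n) o1) +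
        (302555321904973625494545818/4035357028315508513437232291)*(mul_nonneg ((mul_pos (sub_pos.2 k5.TL) hb.TR1)).le hb.B1n) +
        (96101409928980182350822049/4035357028315508513437232291)*(mul_nonneg ((mul_pos (sub_pos.2 k5.RL) hb.RB1)).le hb.Tp1) +
        (99466670129926711952068994/4035357028315508513437232291)*(mul_nonneg (mul_nonneg ((sub_pos.2 k5.RL)).le hb.a1n) hb.B1n) +
        (367197070700430010641020964/4035357028315508513437232291)*(mul_nonneg (mul_nonneg dca (hb.TR1).le) hb.B1n) +
        (234447592004343893678486352/4035357028315508513437232291)*(mul_nonneg (mul_nonneg hb.r2n hb.Tp1) hb.c21) +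
        (93938981719042228409218732/4035357028315508513437232291)*(mul_nonneg (mul_nonneg hb.wout (hb.TR1).le) hb.r1n) +
        (216168422340753139853316556/4035357028315508513437232291)*(mul_nonneg (mul_nonneg ((sub_pos.2 k3.RL)).le hb.a2n) hb.a2n) +
        (30535308985783236686237681/4035357028315508513437232291)*(mul_nonneg (mul_nonneg ((sub_pos.2 k3.Rw)).le hb.r2n) hb.c21) +
        (61287113802398824411452276/4035357028315508513437232291)*(mul_nonneg (mul_nonneg hb.r2n hb.c12) (neg_nonneg.2 s)) +
        (80534395717064297909901423/4035357028315508513437232291)*(mul_nonneg ((mul_pos (sub_pos.2 k7.RL) hb.TR1)).le hb.B2n) +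
        (455194771689095318114008324/4035357028315508513437232291)*(mul_nonneg hb.a1n (neg_nonneg.2 s)) +
        (2391356515706901602298813/8070714056631017026874464582)*(mul_nonneg (mul_nonneg ((sub_pos.2 k5.RL)).le hb.c21) hb.c21) +
        (129623444145301515493686288/4035357028315508513437232291)*(mul_nonneg (mul_nonneg hb.r2n hb.c21) o1) +
        (268717039046706235159195028/4035357028315508513437232291)*(mul_nonneg (mul_nonneg ((sub_pos.2 k7.RL)).le hb.a2n) o1) +
        (273697685184231834899877800/4035357028315508513437232291)*(mul_nonneg (mul_nonneg dca hb.B1n) o1) +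
        (369354038685018981486111496/4035357028315508513437232291)*(mul_nonneg (mul_nonneg ((sub_pos.2 k1.Tw)).le hb.B1n) o1) +
        (279543387576713875412591104/4035357028315508513437232291)*(mul_nonneg (mul_nonneg ((sub_pos.2 k1.Tw)).le hb.a1n) hb.a2n) +
        (139771693788356937706295552/4035357028315508513437232291)*(mul_nonneg (mul_nonneg ((sub_pos.2 k1.RB)).le hb.a1n) (neg_nonneg.2 s)) +
        (48205422091931525696760932/4035357028315508513437232291)*(mul_nonneg ((mul_pos (sub_pos.2 k6.TB) hb.TR1)).le hb.a1n) +
        (215183209299975459888587400/4035357028315508513437232291)*(mul_nonneg (mul_nonneg dca (hb.TR1).le) o1) +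
        (91800322703276705298538531/4035357028315508513437232291)*(mul_nonneg (mul_nonneg dca hb.r2n) hb.c21) +
        (723135392732770966305576/4035357028315508513437232291)*(mul_nonneg ((sub_pos.2 k1.Tw)).le hb.r1n) +
        (148563745657507923837331192/4035357028315508513437232291)*(mul_nonneg (mul_nonneg dca hb.a2n) hb.r2n) +
        (224120700564881835600278698/4035357028315508513437232291)*(mul_nonneg ((mul_pos (sub_pos.2 k6.TB) hb.TR1)).le hb.B2n) +
        (72254572697939823350381912/4035357028315508513437232291)*(mul_nonneg (mul_nonneg dca hb.B2n) (neg_nonneg.2 s)) +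
        (100579017493566419022092184/4035357028315508513437232291)*(mul_nonneg (mul_nonneg ((sub_pos.2 k6.RL)).le hb.A2n) hb.r2n) +
        (28189478645435297598851932/4035357028315508513437232291)*(mul_nonneg ((mul_pos (sub_pos.2 k0.RL) hb.TR1)).le (neg_nonneg.2 s)) +
        (20947458105239074258774392/4035357028315508513437232291)*(mul_nonneg (mul_nonneg ((sub_pos.2 k4.TL)).le hb.A2n) hb.c21) +
        (96700506390681036015034396/4035357028315508513437232291)*(mul_nonneg (mul_nonneg ((sub_pos.2 k5.RL)).le hb.A2n) hb.B2n) +
        (33427131167919126747138196/4035357028315508513437232291)*(mul_nonneg (mul_nonneg ((sub_pos.2 k2.RL)).le hb.B2n) hb.B2n) +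
        (273510867939739942495462350/4035357028315508513437232291)*(mul_nonneg (mul_nonneg dca hb.a2n) hb.B1n) +
        (54374589273158201005912588/4035357028315508513437232291)*(mul_nonneg ((mul_pos (sub_pos.2 k2.TL) hb.RB1)).le hb.B2n) +
        (20947458105239074258774392/4035357028315508513437232291)*(mul_nonneg (mul_nonneg ((sub_pos.2 k5.RL)).le hb.A2n) hb.B1n) +
        (75507992089152797664925806/4035357028315508513437232291)*(mul_nonneg (mul_nonneg dca hb.Tp1) hb.Lp1) +
        (129623444145301515493686288/4035357028315508513437232291)*(mul_nonneg (mul_nonneg ((sub_pos.2 k1.Tw)).le hb.r2n) hb.r2n) +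
        (75507992089152797664925806/4035357028315508513437232291)*(mul_nonneg (mul_nonneg dca hb.r1n) hb.r1n) +
        (98069538948700375518427504/4035357028315508513437232291)*(mul_nonneg (mul_nonneg (hb.TR1).le hb.Lp1) hb.c21) +
        (10473729052619537129387196/4035357028315508513437232291)*(mul_nonneg ((mul_pos (sub_pos.2 k0.RL) hb.RB1)).le hb.c21) +
        (160439945266286993608626270/4035357028315508513437232291)*(mul_nonneg (mul_nonneg dca hb.a1n) hb.c21) +
        (69367283170428738454094074/4035357028315508513437232291)*(mul_nonneg (mul_nonneg ((sub_pos.2 k7.Rw)).le hb.a1n) hb.c21) +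
        (97995851481497226180438468/4035357028315508513437232291)*(mul_nonneg (mul_nonneg ((sub_pos.2 k1.RB)).le hb.Tp1) (neg_nonneg.2 s)) +
        (75753048285441961756260004/4035357028315508513437232291)*(mul_nonneg (mul_nonneg ((sub_pos.2 k5.TL)).le hb.B2n) hb.B2n) +
        (134494718517814446642425380/4035357028315508513437232291)*(mul_nonneg (mul_nonneg dca hb.a2n) hb.c21) +
        (58684101283088270504543400/4035357028315508513437232291)*(mul_nonneg (mul_nonneg ((sub_pos.2 k6.RB)).le hb.B2n) hb.r2n) +
        (332665372720900225687744/4035357028315508513437232291)*(mul_nonneg (mul_nonneg (hb.TR1).le hb.r2n) hb.c21) +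
        (143423178824712389664532852/4035357028315508513437232291)*(mul_nonneg (mul_nonneg dca hb.B2n) hb.Tp1) +
        (78972367702151920499487408/4035357028315508513437232291)*(mul_nonneg (mul_nonneg ((sub_pos.2 k1.Tw)).le hb.r1n) hb.c12) +
        (69441997567821172388182797/8070714056631017026874464582)*(mul_nonneg (mul_nonneg ((sub_pos.2 k3.RL)).le hb.a1n) hb.Lp1) +
        (112108029961098902654291089/4035357028315508513437232291)*(mul_nonneg (mul_nonneg dca (hb.RB1).le) hb.r1n) +
        (29044426651735096471594104/4035357028315508513437232291)*(mul_nonneg (mul_nonneg hb.A2n hb.r2n) (neg_nonneg.2 s)) +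
        (22211349835008121948435082/4035357028315508513437232291)*(mul_nonneg (mul_nonneg ((sub_pos.2 k5.RL)).le hb.B2n) hb.Tp1) +
        (69441997567821172388182797/8070714056631017026874464582)*(mul_nonneg (mul_nonneg ((sub_pos.2 k3.RL)).le hb.a1n) hb.r1n) +
        (369354038685018981486111496/4035357028315508513437232291)*(mul_nonneg (mul_nonneg ((sub_pos.2 k1.Tw)).le hb.B1n) hb.r2n) +
        (118751731135073945825081412/4035357028315508513437232291)*(mul_nonneg (mul_nonneg ((sub_pos.2 k5.RL)).le hb.a1n) hb.a1n) +
        (118751731135073945825081412/4035357028315508513437232291)*(mul_nonneg (mul_nonneg dca hb.a1n) hb.a1n) +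
        (12479673062680052488363804/4035357028315508513437232291)*(mul_nonneg (mul_nonneg ((sub_pos.2 k2.TB)).le hb.B2n) hb.Lp1) +
        (12479673062680052488363804/4035357028315508513437232291)*(mul_nonneg (mul_nonneg ((sub_pos.2 k2.TB)).le hb.B2n) hb.Tp1) +
        (189786007873727501724998504/4035357028315508513437232291)*(mul_nonneg (mul_nonneg dca hb.B1n) hb.B2n) +
        (81950720922368902724605752/4035357028315508513437232291)*(mul_nonneg (mul_nonneg ((sub_pos.2 k6.RL)).le hb.a2n) hb.r1n) +
        (115668982742391174857915086/4035357028315508513437232291)*(mul_nonneg ((sub_pos.2 k1.TB)).le hb.wout) +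
        (42284217968152946398277898/4035357028315508513437232291)*(mul_nonneg (mul_nonneg ((sub_pos.2 k2.TB)).le hb.r1n) hb.c12) +
        (28189478645435297598851932/4035357028315508513437232291)*(mul_nonneg ((mul_pos (sub_pos.2 k2.TL) hb.TR1)).le hb.Tp1) +
        (27616496793307394206318276/4035357028315508513437232291)*(mul_nonneg (mul_nonneg ((sub_pos.2 k1.RB)).le hb.r1n) hb.c21) +
        (20947458105239074258774392/4035357028315508513437232291)*(mul_nonneg (mul_nonneg ((sub_pos.2 k2.RL)).le hb.B1n) hb.B2n) +
        (20947458105239074258774392/4035357028315508513437232291)*(mul_nonneg (mul_nonneg ((sub_pos.2 k1.Tw)).le hb.B2n) hb.r1n) +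
        (41894916210478148517548784/4035357028315508513437232291)*(mul_nonneg (mul_nonneg ((sub_pos.2 k6.RL)).le hb.A2n) hb.r1n) +
        (17715749592815760469464736/4035357028315508513437232291)*(mul_nonneg ((mul_pos (sub_pos.2 k0.RL) hb.TR1)).le hb.c21) +
        (6721550046665304167167288/4035357028315508513437232291)*(mul_nonneg (mul_nonneg ((sub_pos.2 k3.RL)).le hb.A2n) hb.c21) +
        (3360775023332652083583644/4035357028315508513437232291)*(mul_nonneg (mul_nonneg (hb.RB1).le hb.c21) hb.c21) +
        (41894916210478148517548784/4035357028315508513437232291)*(mul_nonneg (mul_nonneg ((sub_pos.2 k1.Tw)).le hb.B2n) hb.r2n) +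
        (54745405769221200563503464/4035357028315508513437232291)*(mul_nonneg (mul_nonneg hb.B2n hb.r2n) hb.c21) +
        (45255691233810800601132428/4035357028315508513437232291)*(mul_nonneg (mul_nonneg (hb.TR1).le hb.c21) hb.c21) +
        (8467785042559021770410588/4035357028315508513437232291)*(mul_nonneg (mul_nonneg hb.qout hb.B2n) hb.c21) +
        (65742336690231700422673780/4035357028315508513437232291)*(mul_nonneg (mul_nonneg hb.a1n hb.r2n) hb.c21) +
        (2034409900409792821519580/4035357028315508513437232291)*(mul_nonneg (mul_nonneg ((sub_pos.2 k3.RL)).le hb.A2n) hb.B2n) +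
        (20947458105239074258774392/4035357028315508513437232291)*(mul_nonneg (mul_nonneg ((sub_pos.2 k1.Tw)).le hb.B2n) hb.Tp1) +
        (2034409900409792821519580/4035357028315508513437232291)*(mul_nonneg (mul_nonneg ((sub_pos.2 k3.RL)).le hb.B2n) hb.c12) +
        (4166488172609058054446208/4035357028315508513437232291)*(mul_nonneg (mul_nonneg ((sub_pos.2 k0.RL)).le hb.B1n) hb.c21) +
        (6361249748522443480206740/4035357028315508513437232291)*(mul_nonneg (mul_nonneg hb.Lp1 hb.c21) hb.c21) +
        (13443100093330608334334576/4035357028315508513437232291)*(mul_nonneg (mul_nonneg hb.A2n hb.c21) hb.c12) +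
        (12479673062680052488363804/4035357028315508513437232291)*(mul_nonneg (mul_nonneg ((sub_pos.2 k2.TL)).le hb.A2n) hb.B2n) +
        (2034409900409792821519580/4035357028315508513437232291)*(mul_nonneg (mul_nonneg ((sub_pos.2 k3.Rw)).le hb.B2n) hb.B2n) +
        (453247624976000460442414/4035357028315508513437232291)*(mul_nonneg (mul_nonneg ((sub_pos.2 k3.RL)).le hb.B2n) hb.c21))

theorem K82 {c1 c2 a1 a2 B1 B2 r1 r2 : ℝ} (hb : Base c1 c2 a1 a2 B1 B2 r1 r2) (dca : 0 ≤ c2*a1-c1*a2) (k0 : Y1 c1 (2-c2) B1 B2 (2-c1-B1) (2-(2-c2)-B2) a1 a2) (k1 : Y1 c1 c2 a1 a2 (2-c1-a1) (2-c2-a2) r1 r2) (k2 : Y1 c1 c2 a1 a2 c1 c2 (2-c1-B1) (c2-B2)) (k3 : Y1 c1 (2-c2) B1 B2 B1 B2 (r1-c1) (2-c2-r2)) (k4 : Y1 c1 c2 a1 a2 c1 c2 (2-a1-r1) (a2-r2)) (k5 : Y1 c1 c2 a1 a2 a1 a2 B1 B2) (k6 : Y1 c1 (2-c2) B1 B2 B1 B2 (2-c1-a1) (2-c2-a2)) : False := by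
  exact lt_irrefl (0:ℝ) (by
      linear_combination
        (75494925826243978178448789895113/911632441078078857545810848600670)*(sub_pos.2 k2.RL) +
        (55477784910113783546092526619854/1367448661617118286318716272901005)*(mul_pos (sub_pos.2 k1.TL) hb.TR1) +
        (187283425379819951973467468867621/1823264882156157715091621697201340)*(sub_pos.2 k6.Tw) +
        (2743616362588725438349885929812/455816220539039428772905424300335)*(mul_nonneg ((sub_pos.2 k1.TB)).le hb.a1n) +
        (2619762804787921807797765313793/455816220539039428772905424300335)*(mul_nonneg ((sub_pos.2 k1.TB)).le hb.r2n) +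
        (37404602178083741913191103033713/5469794646468473145274865091604020)*(mul_nonneg (mul_nonneg hb.qout (hb.RB1).le) (hb.RB1).le) +
        (259449037641009355169417214423232/1367448661617118286318716272901005)*(mul_nonneg (mul_nonneg hb.A2n hb.r1n) hb.c21) +
        (13558301454355847297104006612517/455816220539039428772905424300335)*(mul_pos (sub_pos.2 k0.TB) (k5.pos hb.a2n)) +
        (13558301454355847297104006612517/455816220539039428772905424300335)*(mul_pos (sub_pos.2 k5.TL) (k5.pos hb.a2n)) +
        (116810272984574801403153840949967/2734897323234236572637432545802010)*(mul_nonneg ((mul_pos (sub_pos.2 k2.RL) hb.RB1)).le hb.c21) +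
        (7242587503095384573499446341529/455816220539039428772905424300335)*(mul_nonneg (mul_nonneg ((sub_pos.2 k4.RL)).le hb.b2n) hb.r1n) +
        (7741606594332485792343209772949/455816220539039428772905424300335)*(mul_nonneg (mul_nonneg ((sub_pos.2 k5.TL)).le hb.B2n) hb.r1n) +
        (21652965801788685778166793548958/455816220539039428772905424300335)*(mul_nonneg (mul_nonneg ((sub_pos.2 k6.Tw)).le hb.a1n) hb.c21) +
        (22488889368404309429433320693901/911632441078078857545810848600670)*(mul_nonneg ((mul_pos hb.TR1 hb.TR1)).le hb.c21) +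
        (41405751779922177292202078492459/1367448661617118286318716272901005)*(mul_nonneg ((mul_pos (sub_pos.2 k5.TL) hb.TR1)).le hb.B1n) +
        (19328776887606892159500212597531/1367448661617118286318716272901005)*(mul_nonneg (mul_nonneg ((sub_pos.2 k2.RL)).le hb.B1n) hb.B2n) +
        (35971588275719234070180030223697/1367448661617118286318716272901005)*(mul_nonneg (mul_nonneg ((sub_pos.2 k2.Rw)).le hb.B1n) hb.r2n) +
        (237176765721533316144315763778473/2734897323234236572637432545802010)*(mul_nonneg ((mul_pos (sub_pos.2 k5.TL) hb.TR1)).le hb.r1n) +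
        (21418178800667947322674827709804/1367448661617118286318716272901005)*(mul_nonneg (mul_nonneg ((sub_pos.2 k0.TB)).le hb.B2n) hb.B2n) +
        (2619762804787921807797765313793/455816220539039428772905424300335)*(mul_nonneg (mul_nonneg ((sub_pos.2 k2.Rw)).le hb.b2n) hb.r2n) +
        (41405751779922177292202078492459/1367448661617118286318716272901005)*(mul_nonneg (mul_nonneg ((sub_pos.2 k5.TL)).le hb.B1n) hb.c21) +
        (64809973457085119401832170590541/1367448661617118286318716272901005)*(mul_nonneg (mul_nonneg ((sub_pos.2 k1.TB)).le hb.B1n) hb.c21) +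
        (1319151339558010275075440273980/91163244107807885754581084860067)*(mul_nonneg ((mul_pos (sub_pos.2 k0.TB) hb.TR1)).le hb.A2n) +
        (73533381338105520166736234147317/1367448661617118286318716272901005)*(mul_pos (mul_pos (sub_pos.2 k0.TB) hb.TR1) hb.RB1) +
        (52967254270666594296260287798114/455816220539039428772905424300335)*(mul_nonneg ((mul_pos (sub_pos.2 k5.TL) hb.TR1)).le hb.r2n) +
        (27818123049682225487452395674383/2734897323234236572637432545802010)*(mul_nonneg (mul_nonneg hb.qout (hb.TR1).le) hb.A2n) +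
        (402225806252675714582848188187847/2734897323234236572637432545802010)*(mul_pos (sub_pos.2 k5.TL) hb.TR1) +
        (39913529372095441502908729188122/455816220539039428772905424300335)*(mul_nonneg (mul_nonneg ((sub_pos.2 k4.RL)).le hb.B2n) hb.c21) +
        (182044002004943451284240542840312/1367448661617118286318716272901005)*(mul_nonneg (mul_nonneg ((sub_pos.2 k5.RB)).le hb.A2n) hb.c21) +
        (659575669779005137537720136990/91163244107807885754581084860067)*(mul_nonneg ((mul_pos (sub_pos.2 k2.Rw) hb.TR1)).le hb.c12) +
        (12732664003349944482163563207797/546979464646847314527486509160402)*(mul_nonneg (mul_nonneg ((sub_pos.2 k0.TB)).le hb.a2n) hb.Tp1) +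
        (27398300408157064016524150724907/911632441078078857545810848600670)*(mul_nonneg ((mul_pos (sub_pos.2 k4.Rw) hb.TR1)).le hb.a1n) +
        (22366683242054964650405567546458/1367448661617118286318716272901005)*(mul_nonneg ((mul_pos (sub_pos.2 k5.RL) hb.RB1)).le hb.c21) +
        (1523209085842754000761391926960/273489732323423657263743254580201)*(mul_nonneg (mul_nonneg ((sub_pos.2 k2.RL)).le hb.a2n) hb.a2n) +
        (21418178800667947322674827709804/1367448661617118286318716272901005)*(mul_nonneg (mul_nonneg ((sub_pos.2 k5.TL)).le hb.B2n) hb.B2n) +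
        (48956562222449754112352333005389/455816220539039428772905424300335)*(sub_pos.2 k0.TB) +
        (3914700112725069324854964073333/91163244107807885754581084860067)*(mul_nonneg (mul_nonneg ((sub_pos.2 k0.TB)).le hb.A2n) hb.r2n) +
        (21418178800667947322674827709804/1367448661617118286318716272901005)*(mul_nonneg (mul_nonneg ((sub_pos.2 k0.TB)).le hb.B1n) hb.B2n) +
        (17327974728492152730308552380696/1367448661617118286318716272901005)*(mul_nonneg ((mul_pos (sub_pos.2 k1.TB) hb.TR1)).le hb.B1n) +
        (701758503074687654074326612745/91163244107807885754581084860067)*(mul_nonneg (mul_nonneg ((sub_pos.2 k6.Tw)).le hb.a2n) hb.A2n) +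
        (21418178800667947322674827709804/1367448661617118286318716272901005)*(mul_nonneg (mul_nonneg ((sub_pos.2 k6.Tw)).le hb.A2n) hb.B1n) +
        (125576733711027748313898063271828/1367448661617118286318716272901005)*(mul_pos (sub_pos.2 k6.Tw) hb.TR1) +
        (5454393386579825096783431240064/455816220539039428772905424300335)*(mul_nonneg (mul_nonneg ((sub_pos.2 k1.TB)).le hb.a2n) hb.Lp1) +
        (21418178800667947322674827709804/1367448661617118286318716272901005)*(mul_nonneg (mul_nonneg ((sub_pos.2 k5.TL)).le hb.a2n) hb.A2n) +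
        (144968312483034152125503946085386/1367448661617118286318716272901005)*(mul_nonneg ((sub_pos.2 k3.Tw)).le hb.c21) +
        (14143134431342902756057261163934/455816220539039428772905424300335)*(mul_nonneg (mul_nonneg ((sub_pos.2 k4.RL)).le hb.B1n) hb.c12) +
        (5454393386579825096783431240064/455816220539039428772905424300335)*(mul_nonneg (mul_nonneg ((sub_pos.2 k1.TB)).le hb.a2n) hb.Tp1) +
        (10670954142634893791442296437346/1367448661617118286318716272901005)*(mul_nonneg (mul_nonneg ((sub_pos.2 k2.RL)).le hb.a1n) hb.B2n) +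
        (14723890739408894678203658630233/273489732323423657263743254580201)*(mul_nonneg (mul_nonneg ((sub_pos.2 k6.Tw)).le hb.r2n) hb.c21) +
        (82559037352051056202170475118986/1367448661617118286318716272901005)*(mul_nonneg (mul_nonneg ((sub_pos.2 k5.TL)).le hb.r2n) hb.c21) +
        (10262990582954934144189806816829/455816220539039428772905424300335)*(mul_nonneg (mul_nonneg ((sub_pos.2 k2.Rw)).le hb.b2n) hb.r1n) +
        (5970765908583939797768441440457/364652976431231543018324339440268)*(mul_nonneg ((mul_pos (sub_pos.2 k0.TB) hb.TR1)).le hb.a1n) +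
        (52997326202812367368273832650453/1367448661617118286318716272901005)*(mul_nonneg (mul_nonneg hb.qout (hb.TR1).le) hb.r1n) +
        (4931175153941653190648605827661/455816220539039428772905424300335)*(mul_nonneg ((mul_pos (sub_pos.2 k1.TB) hb.TR1)).le hb.r2n) +
        (32131281694069049604981479525995/273489732323423657263743254580201)*(mul_nonneg (mul_nonneg ((sub_pos.2 k0.TB)).le hb.a2n) hb.c21) +
        (4829300465780157645759019875963/91163244107807885754581084860067)*(mul_nonneg (mul_nonneg ((sub_pos.2 k0.TB)).le hb.B2n) hb.r2n) +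
        (15374845487264685893175389783288/1367448661617118286318716272901005)*(mul_nonneg ((sub_pos.2 k1.TB)).le hb.c21) +
        (8674160211718018391996850339265/182326488215615771509162169720134)*(mul_nonneg ((mul_pos (sub_pos.2 k0.TB) hb.RB1)).le hb.c21) +
        (10416106404873739335893518636619/455816220539039428772905424300335)*(mul_nonneg (mul_nonneg ((sub_pos.2 k0.TB)).le hb.r1n) hb.c21) +
        (1267101008080931586021115845412/91163244107807885754581084860067)*(mul_nonneg ((mul_pos (sub_pos.2 k6.Tw) hb.TR1)).le hb.B2n) +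
        (1585500527408155115025451720886/455816220539039428772905424300335)*(mul_nonneg ((mul_pos (sub_pos.2 k5.TB) hb.TR1)).le hb.B2n) +
        (37854804088424884315616298691138/1367448661617118286318716272901005)*(mul_nonneg ((mul_pos (sub_pos.2 k6.Tw) hb.TR1)).le hb.B1n) +
        (11221124772734784922388971300807/1367448661617118286318716272901005)*(mul_nonneg (mul_nonneg ((sub_pos.2 k2.RL)).le hb.A1n) hb.B1n) +
        (65074881711599387860941404502232/273489732323423657263743254580201)*(mul_nonneg (mul_nonneg ((sub_pos.2 k5.TL)).le hb.a2n) hb.c21) +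
        (28764098265640755625332748656931/911632441078078857545810848600670)*(mul_nonneg (mul_nonneg ((sub_pos.2 k5.RL)).le hb.a1n) hb.c21) +
        (442767628405279917422859467493401/2734897323234236572637432545802010)*(mul_pos (sub_pos.2 k5.TL) hb.RB1) +
        (131005814808777462721641717926089/1367448661617118286318716272901005)*(mul_nonneg (mul_nonneg hb.qout (hb.RB1).le) hb.r2n) +
        (5146426507698074425673230719863/455816220539039428772905424300335)*(mul_nonneg (mul_nonneg ((sub_pos.2 k6.Tw)).le hb.a2n) hb.Lp1) +
        (275377869188960219318583793636697/2734897323234236572637432545802010)*(mul_nonneg ((sub_pos.2 k2.RL)).le hb.c12) +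
        (85541998819108086637299511866841/911632441078078857545810848600670)*(mul_nonneg (mul_nonneg ((sub_pos.2 k2.RL)).le hb.a2n) hb.c21) +
        (17193446685608027142022773819223/911632441078078857545810848600670)*(mul_nonneg (mul_nonneg ((sub_pos.2 k4.Rw)).le hb.Lp1) hb.c21) +
        (86033378281104726686711053186121/1367448661617118286318716272901005)*(mul_nonneg ((mul_pos (sub_pos.2 k0.TB) hb.TR1)).le hb.r1n) +
        (120060798709891504391716963447363/1367448661617118286318716272901005)*(mul_nonneg (mul_nonneg hb.qout (hb.RB1).le) hb.r1n) +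
        (288909016584512595160643420309/91163244107807885754581084860067)*(mul_nonneg (mul_nonneg ((sub_pos.2 k2.RL)).le hb.a1n) hb.b2n) +
        (11914643291061146029827989216239/1367448661617118286318716272901005)*(mul_nonneg (mul_nonneg hb.qout (hb.RB1).le) hb.B2n) +
        (17193446685608027142022773819223/911632441078078857545810848600670)*(mul_nonneg (mul_nonneg ((sub_pos.2 k4.RL)).le hb.r1n) hb.c21) +
        (15815094296880123297453760473614/455816220539039428772905424300335)*(mul_nonneg ((sub_pos.2 k3.Tw)).le hb.wout) +
        (10479051219151687231191061255172/455816220539039428772905424300335)*(mul_nonneg (mul_nonneg ((sub_pos.2 k2.RL)).le hb.r2n) hb.pB2) +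
        (5239525609575843615595530627586/455816220539039428772905424300335)*(mul_nonneg (mul_nonneg ((sub_pos.2 k4.RL)).le hb.B2n) hb.r2n) +
        (5239525609575843615595530627586/455816220539039428772905424300335)*(mul_nonneg (mul_nonneg ((sub_pos.2 k2.Rw)).le hb.r2n) hb.r2n) +
        (23173096962324205245668001256522/1367448661617118286318716272901005)*(mul_nonneg (mul_nonneg ((sub_pos.2 k0.TB)).le hb.B1n) hb.c21) +
        (19788008294761301449994917592737/455816220539039428772905424300335)*(mul_nonneg ((sub_pos.2 k1.TB)).le hb.B1n) +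
        (39393150296804383109757754676446/1367448661617118286318716272901005)*(mul_nonneg (mul_nonneg ((sub_pos.2 k6.Tw)).le hb.a1n) hb.pB2) +
        (5239525609575843615595530627586/455816220539039428772905424300335)*(mul_nonneg (mul_nonneg ((sub_pos.2 k3.Tw)).le hb.r2n) hb.c21) +
        (53193442710553458465177556399958/1367448661617118286318716272901005)*(mul_nonneg hb.qout hb.pin) +
        (31941368716034187863568071415493/2734897323234236572637432545802010)*(mul_nonneg ((mul_pos (sub_pos.2 k5.TB) hb.TR1)).le hb.a1n) +
        (266850830680347358635990424367519/2734897323234236572637432545802010)*(mul_pos (sub_pos.2 k2.RL) hb.RB1) +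
        (10891801254547632511559928518629/1367448661617118286318716272901005)*(mul_nonneg (mul_nonneg ((sub_pos.2 k0.TL)).le hb.a2n) hb.A2n) +
        (2808166248077957804736360711833/455816220539039428772905424300335)*(mul_nonneg ((sub_pos.2 k3.TB)).le hb.qout) +
        (2414195834365128191166482113843/455816220539039428772905424300335)*(mul_nonneg (mul_nonneg ((sub_pos.2 k1.TB)).le hb.A1n) hb.r1n) +
        (16628089749321279374975870447051/1367448661617118286318716272901005)*(mul_nonneg ((mul_pos (sub_pos.2 k3.Tw) hb.TR1)).le hb.c21) +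
        (16691548769327512525131937109074/1367448661617118286318716272901005)*(mul_nonneg (mul_nonneg ((sub_pos.2 k5.RL)).le hb.B2n) hb.r2n) +
        (20721014488711712360006506422733/5469794646468473145274865091604020)*(mul_nonneg ((sub_pos.2 k0.TB)).le hb.a1n) +
        (9680613378313308098733477398873/546979464646847314527486509160402)*(mul_nonneg ((mul_pos (sub_pos.2 k1.TB) hb.TR1)).le hb.a1n) +
        (14040465337396233945582648318455/273489732323423657263743254580201)*(mul_nonneg (mul_nonneg hb.qout (hb.TR1).le) hb.r2n) +
        (244924303915342460687626814023/273489732323423657263743254580201)*(mul_nonneg (mul_nonneg ((sub_pos.2 k2.RL)).le hb.A2n) hb.r1n) +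
        (3820564224324796403944175981677/2734897323234236572637432545802010)*(mul_nonneg (mul_nonneg ((sub_pos.2 k6.Tw)).le hb.r2n) hb.Lp1) +
        (74669165858123558846180736914818/455816220539039428772905424300335)*(mul_nonneg (mul_nonneg (hb.TR1).le hb.r2n) hb.c21) +
        (183119414838985411294706999537762/1367448661617118286318716272901005)*(mul_nonneg (mul_nonneg ((sub_pos.2 k6.Tw)).le hb.a2n) hb.c21) +
        (1448704243180945880906587700264/455816220539039428772905424300335)*(mul_nonneg ((mul_pos (sub_pos.2 k5.TB) hb.TR1)).le hb.r1n) +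
        (360257382025774597549839389270/91163244107807885754581084860067)*(mul_nonneg (mul_nonneg ((sub_pos.2 k0.TB)).le hb.A2n) hb.c21) +
        (160431930577541292848659433972738/1367448661617118286318716272901005)*(mul_nonneg (mul_nonneg ((sub_pos.2 k5.RL)).le hb.B2n) hb.c21) +
        (5616332496155915609472721423666/455816220539039428772905424300335)*(mul_nonneg (mul_nonneg ((sub_pos.2 k6.Tw)).le hb.B2n) hb.Lp1) +
        (24692350791125025834623153820439/1367448661617118286318716272901005)*(mul_nonneg ((mul_pos (sub_pos.2 k6.Tw) hb.TR1)).le hb.a1n) +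
        (42629439353989563268503704954213/2734897323234236572637432545802010)*(mul_nonneg (mul_nonneg ((sub_pos.2 k4.RL)).le hb.a2n) hb.c21) +
        (506047011925912959497743560950681/5469794646468473145274865091604020)*(mul_nonneg (mul_nonneg hb.qout (hb.TR1).le) (hb.RB1).le) +
        (1883128773573360678971865578385/182326488215615771509162169720134)*(mul_nonneg (mul_nonneg ((sub_pos.2 k5.TL)).le hb.a1n) hb.a1n) +
        (15515240322484759231459985721178/1367448661617118286318716272901005)*(mul_pos (mul_pos (sub_pos.2 k4.RL) hb.TR1) hb.TR1) +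
        (2847704218965592769027110628077/455816220539039428772905424300335)*(mul_nonneg (mul_nonneg ((sub_pos.2 k5.RL)).le hb.B2n) hb.Lp1) +
        (11230638004850309179227787228399/2734897323234236572637432545802010)*(mul_nonneg (mul_nonneg ((sub_pos.2 k1.TB)).le hb.a1n) hb.B2n) +
        (59057493043349987643147653938853/1367448661617118286318716272901005)*(mul_nonneg (mul_nonneg ((sub_pos.2 k3.Tw)).le hb.c21) hb.c21) +
        (6333813860607543942271763993076/455816220539039428772905424300335)*(mul_nonneg (mul_nonneg ((sub_pos.2 k2.RL)).le hb.r1n) hb.pB2) +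
        (28508211995002130340588605179406/1367448661617118286318716272901005)*(mul_nonneg (mul_nonneg ((sub_pos.2 k5.RL)).le hb.a2n) hb.c21) +
        (3046418171685508001522783853920/273489732323423657263743254580201)*(mul_nonneg (mul_nonneg ((sub_pos.2 k4.Rw)).le hb.b2n) hb.A2n) +
        (28463050748249990192334160781519/455816220539039428772905424300335)*(mul_nonneg (mul_nonneg ((sub_pos.2 k3.Tw)).le hb.b1n) hb.c21) +
        (5239525609575843615595530627586/455816220539039428772905424300335)*(mul_nonneg (mul_nonneg ((sub_pos.2 k4.Rw)).le hb.B1n) hb.r2n) +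
        (15224996702970337716765656246917/546979464646847314527486509160402)*(mul_nonneg ((mul_pos (sub_pos.2 k2.RL) hb.TR1)).le hb.c21) +
        (18627619269861597070864958943052/1367448661617118286318716272901005)*(mul_nonneg ((mul_pos (sub_pos.2 k6.Tw) hb.RB1)).le hb.r1n) +
        (22007699487705792518003109474103/1367448661617118286318716272901005)*(mul_nonneg (mul_nonneg ((sub_pos.2 k5.TL)).le hb.a2n) hb.r1n) +
        (8439981031965595322243064261661/1367448661617118286318716272901005)*(mul_nonneg (mul_nonneg ((sub_pos.2 k4.Rw)).le hb.r2n) hb.c12) +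
        (4828391668730256382332964227686/455816220539039428772905424300335)*(mul_nonneg ((mul_pos (sub_pos.2 k1.RL) hb.TR1)).le hb.Tp1) +
        (2414195834365128191166482113843/455816220539039428772905424300335)*(mul_nonneg (mul_nonneg ((sub_pos.2 k1.TB)).le hb.r1n) hb.c21) +
        (650240811834539688972351874664/273489732323423657263743254580201)*(mul_nonneg (mul_nonneg ((sub_pos.2 k4.RL)).le hb.a1n) hb.A2n) +
        (16879962063931190644486128523322/1367448661617118286318716272901005)*(mul_nonneg (mul_nonneg ((sub_pos.2 k4.RL)).le hb.a1n) hb.pB2) +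
        (2289870664913382841067827588586/455816220539039428772905424300335)*(mul_nonneg (mul_nonneg ((sub_pos.2 k6.Tw)).le hb.Lp1) hb.c21) +
        (969560089070992615202442100253/273489732323423657263743254580201)*(mul_nonneg (mul_nonneg ((sub_pos.2 k4.RL)).le hb.b1n) hb.r2n) +
        (48535142994037405159981702387817/1367448661617118286318716272901005)*(mul_nonneg (mul_nonneg ((sub_pos.2 k5.RL)).le hb.b1n) hb.r2n) +
        (2452819545903517142213346950609/2734897323234236572637432545802010)*(mul_nonneg (mul_nonneg ((sub_pos.2 k2.Rw)).le hb.a1n) hb.c21) +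
        (111041133728196767427011863792/273489732323423657263743254580201)*(mul_nonneg (mul_nonneg ((sub_pos.2 k5.TL)).le hb.a1n) hb.a2n) +
        (2414195834365128191166482113843/455816220539039428772905424300335)*(mul_nonneg (mul_nonneg ((sub_pos.2 k1.TB)).le hb.B1n) hb.r1n) +
        (32913761482570521770895188001968/1367448661617118286318716272901005)*(mul_nonneg (mul_nonneg hb.wout (hb.TR1).le) hb.c21) +
        (1883128773573360678971865578385/182326488215615771509162169720134)*(mul_nonneg (mul_nonneg ((sub_pos.2 k4.Rw)).le hb.a1n) hb.b1n) +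
        (1883128773573360678971865578385/182326488215615771509162169720134)*(mul_nonneg (mul_nonneg ((sub_pos.2 k5.RL)).le hb.a1n) hb.b1n) +
        (13207838307060388127402243247228/455816220539039428772905424300335)*(mul_nonneg (mul_nonneg ((sub_pos.2 k5.RL)).le hb.a1n) hb.r2n) +
        (80123916236422986588933170839963/5469794646468473145274865091604020)*(mul_nonneg (mul_nonneg ((sub_pos.2 k0.TB)).le hb.a1n) hb.c21) +
        (10510234871522808632788820568538/455816220539039428772905424300335)*(mul_nonneg (mul_nonneg ((sub_pos.2 k0.TB)).le hb.B2n) hb.r1n) +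
        (7763383922964069875495014085177/273489732323423657263743254580201)*(mul_nonneg (mul_nonneg hb.wout (hb.TR1).le) (hb.TR1).le) +
        (23166241692419900277423293603239/455816220539039428772905424300335)*(mul_nonneg ((mul_pos (sub_pos.2 k6.Tw) hb.TR1)).le hb.c21) +
        (7383008739174194241188295454904/455816220539039428772905424300335)*(mul_nonneg (mul_nonneg hb.qout hb.a1n) hb.B2n) +
        (11230638004850309179227787228399/2734897323234236572637432545802010)*(mul_nonneg (mul_nonneg ((sub_pos.2 k1.TB)).le hb.a2n) hb.B1n) +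
        (13084599184771758410127035756519/546979464646847314527486509160402)*(mul_nonneg (mul_nonneg ((sub_pos.2 k4.RL)).le hb.a1n) hb.c21) +
        (46666196167570104617957092740686/1367448661617118286318716272901005)*(mul_pos (mul_pos (sub_pos.2 k5.TB) hb.TR1) hb.TR1) +
        (21378652536088351175954318157764/1367448661617118286318716272901005)*(mul_nonneg ((mul_pos (sub_pos.2 k2.Rw) hb.RB1)).le hb.r2n) +
        (51330957323798391017074020764417/5469794646468473145274865091604020)*(mul_pos (mul_pos (sub_pos.2 k6.Tw) hb.TR1) hb.TR1) +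
        (4893902375366893023316099144872/455816220539039428772905424300335)*(mul_nonneg (mul_nonneg ((sub_pos.2 k0.TB)).le hb.B1n) hb.Tp1) +
        (4893902375366893023316099144872/455816220539039428772905424300335)*(mul_nonneg (mul_nonneg ((sub_pos.2 k6.Tw)).le hb.B1n) hb.Lp1) +
        (24552494491166632505587895936057/2734897323234236572637432545802010)*(mul_nonneg (mul_nonneg ((sub_pos.2 k5.TL)).le hb.a1n) hb.r1n) +
        (14667261065848748434064152973770/273489732323423657263743254580201)*(mul_nonneg ((mul_pos (sub_pos.2 k0.TB) hb.TR1)).le hb.r2n) +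
        (2015613528796613030908940331859/273489732323423657263743254580201)*(mul_nonneg (mul_nonneg ((sub_pos.2 k1.TB)).le hb.a1n) hb.c21) +
        (11221124772734784922388971300807/1367448661617118286318716272901005)*(mul_nonneg (mul_nonneg ((sub_pos.2 k2.RL)).le hb.B1n) hb.B1n) +
        (2311412349153731382850840513868/455816220539039428772905424300335)*(mul_nonneg ((mul_pos (sub_pos.2 k1.TL) hb.RB1)).le hb.r2n) +
        (27547089531485360655970948088198/1367448661617118286318716272901005)*(mul_nonneg (mul_nonneg ((sub_pos.2 k2.RL)).le hb.B1n) hb.pB2) +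
        (31941368716034187863568071415493/5469794646468473145274865091604020)*(mul_nonneg (mul_nonneg ((sub_pos.2 k6.Tw)).le hb.a1n) hb.r1n) +
        (967617606180175017272914571104/273489732323423657263743254580201)*(mul_nonneg ((mul_pos (sub_pos.2 k4.RL) hb.TR1)).le hb.c21) +
        (25782643756415898985914831275617/1367448661617118286318716272901005)*(mul_nonneg ((sub_pos.2 k4.RL)).le hb.c12) +
        (1297302205989799629564030258472/91163244107807885754581084860067)*(mul_nonneg (mul_nonneg ((sub_pos.2 k5.RL)).le hb.r1n) hb.c12) +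
        (3046418171685508001522783853920/273489732323423657263743254580201)*(mul_nonneg (mul_nonneg ((sub_pos.2 k1.TB)).le hb.b2n) hb.B2n) +
        (7937664952513350670916635174192/1367448661617118286318716272901005)*(mul_nonneg (mul_nonneg hb.c21 hb.c21) hb.c21) +
        (3046418171685508001522783853920/273489732323423657263743254580201)*(mul_nonneg (mul_nonneg ((sub_pos.2 k1.TB)).le hb.a2n) hb.B2n) +
        (44055005323615057490602663178462/1367448661617118286318716272901005)*(mul_nonneg (mul_nonneg ((sub_pos.2 k4.Rw)).le hb.B2n) hb.c12) +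
        (9513625816708623389381548977682/455816220539039428772905424300335)*(mul_nonneg ((mul_pos (sub_pos.2 k2.RL) hb.TR1)).le hb.r1n) +
        (2446951187683446511658049572436/455816220539039428772905424300335)*(mul_nonneg (mul_nonneg ((sub_pos.2 k2.RL)).le hb.B1n) hb.Tp1) +
        (4544793129792189988824966248167/911632441078078857545810848600670)*(mul_nonneg (mul_nonneg hb.qout (hb.TR1).le) hb.B2n) +
        (80188337960845617792665905142809/2734897323234236572637432545802010)*(mul_nonneg ((mul_pos (sub_pos.2 k5.TL) hb.TR1)).le hb.a1n) +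
        (12335973046148740484749289785129/364652976431231543018324339440268)*(mul_nonneg (mul_nonneg ((sub_pos.2 k2.RL)).le hb.a1n) hb.r1n) +
        (12635717838719001301826288044904/455816220539039428772905424300335)*(mul_nonneg (mul_nonneg ((sub_pos.2 k4.RL)).le hb.b1n) hb.B1n) +
        (37629550681836511986911334475232/1367448661617118286318716272901005)*(mul_nonneg (mul_nonneg ((sub_pos.2 k2.RL)).le hb.a1n) hb.a1n) +
        (1043330730880474004952442410516/455816220539039428772905424300335)*(mul_nonneg (mul_nonneg ((sub_pos.2 k6.Tw)).le hb.B2n) hb.r2n) +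
        (1043330730880474004952442410516/455816220539039428772905424300335)*(mul_nonneg (mul_nonneg hb.qout hb.A2n) hb.r2n) +
        (7640315295227325753279621654968/1367448661617118286318716272901005)*(mul_nonneg (mul_nonneg ((sub_pos.2 k2.Rw)).le hb.b1n) hb.r2n) +
        (34460699565748360158200171911753/1367448661617118286318716272901005)*(mul_nonneg ((mul_pos (sub_pos.2 k5.TB) hb.TR1)).le hb.pB2) +
        (28650795641523723972699174474372/455816220539039428772905424300335)*(mul_nonneg (mul_nonneg hb.wout hb.A2n) hb.Tp1) +
        (21554260452036997614401797972834/1367448661617118286318716272901005)*(mul_nonneg (mul_nonneg hb.wout hb.B1n) hb.r2n) +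
        (2702172135493271081178931776188/1367448661617118286318716272901005)*(mul_nonneg (mul_nonneg ((sub_pos.2 k5.TL)).le hb.r1n) hb.r2n) +
        (244924303915342460687626814023/273489732323423657263743254580201)*(mul_nonneg (mul_nonneg ((sub_pos.2 k2.RL)).le hb.b2n) hb.B2n) +
        (1205553890727172368490575361337/1367448661617118286318716272901005)*(mul_nonneg (mul_nonneg ((sub_pos.2 k2.RL)).le hb.A2n) hb.B2n) +
        (1262756777275792173333251487671/1367448661617118286318716272901005)*(mul_nonneg (mul_nonneg ((sub_pos.2 k2.RL)).le hb.a2n) hb.B2n) +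
        (613752918045534358386725764276/455816220539039428772905424300335)*(mul_nonneg (mul_nonneg ((sub_pos.2 k5.TL)).le hb.a2n) hb.a2n) +
        (2702172135493271081178931776188/1367448661617118286318716272901005)*(mul_nonneg (mul_nonneg ((sub_pos.2 k5.RL)).le hb.r2n) hb.Lp1) +
        (49203185049771024231377525351231/1367448661617118286318716272901005)*(mul_nonneg ((mul_pos (sub_pos.2 k2.RL) hb.RB1)).le hb.r2n) +
        (1205553890727172368490575361337/1367448661617118286318716272901005)*(mul_nonneg (mul_nonneg ((sub_pos.2 k2.RL)).le hb.B2n) hb.B2n) +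
        (34450257844826428938330950736121/911632441078078857545810848600670)*(mul_nonneg (mul_nonneg ((sub_pos.2 k5.RL)).le hb.r1n) hb.c21) +
        (3137063834624045271079244160144/91163244107807885754581084860067)*(mul_nonneg (mul_nonneg (hb.TR1).le hb.r1n) hb.c21) +
        (8704491402793558175239321508073/1823264882156157715091621697201340)*(mul_nonneg (mul_nonneg ((sub_pos.2 k5.RL)).le hb.a1n) hb.Lp1) +
        (25036389585819824132972782070789/2734897323234236572637432545802010)*(mul_nonneg (mul_nonneg (hb.TR1).le hb.c21) hb.c21) +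
        (11414419719796437301162134696391/2734897323234236572637432545802010)*(mul_nonneg (mul_nonneg ((sub_pos.2 k1.TB)).le hb.B2n) hb.Lp1) +
        (11414419719796437301162134696391/2734897323234236572637432545802010)*(mul_nonneg (mul_nonneg ((sub_pos.2 k1.TB)).le hb.B2n) hb.r1n) +
        (1219844471176913829506051197399/273489732323423657263743254580201)*(mul_nonneg (mul_nonneg ((sub_pos.2 k1.TL)).le hb.c21) hb.c21) +
        (306876459022767179193362882138/455816220539039428772905424300335)*(mul_nonneg (mul_nonneg ((sub_pos.2 k0.TB)).le hb.a2n) hb.a2n) +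
        (31941368716034187863568071415493/5469794646468473145274865091604020)*(mul_nonneg (mul_nonneg ((sub_pos.2 k0.TB)).le hb.a1n) hb.Lp1) +
        (880986440960136298879634025373/91163244107807885754581084860067)*(mul_nonneg ((sub_pos.2 k0.TB)).le hb.a2n) +
        (8491389836223526175719703821906/1367448661617118286318716272901005)*(mul_nonneg ((sub_pos.2 k0.TB)).le hb.B1n) +
        (2873229162424306166054266247543/455816220539039428772905424300335)*(mul_nonneg (mul_nonneg ((sub_pos.2 k2.RL)).le hb.A2n) hb.B1n) +
        (20883311815631146940382852798803/911632441078078857545810848600670)*(mul_nonneg (mul_nonneg ((sub_pos.2 k5.TL)).le hb.a1n) hb.pB2) +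
        (111041133728196767427011863792/273489732323423657263743254580201)*(mul_nonneg (mul_nonneg ((sub_pos.2 k5.TB)).le hb.a2n) hb.b2n) +
        (4852119735554852490991937302619/455816220539039428772905424300335)*(mul_nonneg ((mul_pos (sub_pos.2 k6.Tw) hb.TR1)).le hb.r2n) +
        (42293719358916233781156789303239/2734897323234236572637432545802010)*(mul_nonneg ((mul_pos (sub_pos.2 k2.RL) hb.TR1)).le hb.a1n) +
        (218857650206340065335246673098/91163244107807885754581084860067)*(mul_nonneg (mul_nonneg ((sub_pos.2 k2.Rw)).le hb.r1n) hb.r2n) +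
        (4569181312200200494256663438806/1367448661617118286318716272901005)*(mul_nonneg hb.qout hb.qout) +
        (23573964948841119140596190881529/1367448661617118286318716272901005)*(mul_nonneg (mul_nonneg hb.a1n hb.c21) hb.c21) +
        (2619762804787921807797765313793/455816220539039428772905424300335)*(mul_nonneg (mul_nonneg ((sub_pos.2 k4.Rw)).le hb.b2n) hb.r2n) +
        (8439981031965595322243064261661/1367448661617118286318716272901005)*(mul_nonneg (mul_nonneg ((sub_pos.2 k4.Rw)).le hb.r2n) hb.c21) +
        (8092895123352392559113190205111/1367448661617118286318716272901005)*(mul_nonneg (mul_nonneg ((sub_pos.2 k6.Tw)).le hb.a1n) hb.r2n) +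
        (1847218556216888839495043869859/1367448661617118286318716272901005)*(mul_nonneg (mul_nonneg hb.wout hb.a1n) hb.c21) +
        (2976420069854993104038039708166/455816220539039428772905424300335)*(mul_nonneg ((mul_pos (sub_pos.2 k1.TB) hb.TR1)).le hb.b2n) +
        (2976420069854993104038039708166/455816220539039428772905424300335)*(mul_nonneg (mul_nonneg ((sub_pos.2 k1.TB)).le hb.a2n) hb.c21) +
        (8196111491555828630409614489454/455816220539039428772905424300335)*(mul_nonneg (mul_nonneg hb.wout (hb.TR1).le) hb.a2n) +
        (4707075786329144309305033258269/455816220539039428772905424300335)*(mul_nonneg (mul_nonneg ((sub_pos.2 k2.Rw)).le hb.a2n) hb.Tp1) +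
        (24299512925515139967551525194228/1367448661617118286318716272901005)*(mul_nonneg ((mul_pos (sub_pos.2 k5.TB) hb.TR1)).le hb.c21) +
        (730847416854635400890058654908/1367448661617118286318716272901005)*(mul_nonneg (mul_nonneg ((sub_pos.2 k6.Tw)).le hb.a2n) hb.B1n) +
        (37176252923585692976260788527096/1367448661617118286318716272901005)*(mul_nonneg (mul_nonneg hb.A2n hb.B1n) hb.c21) +
        (12711752566359956631705805852/455816220539039428772905424300335)*(mul_nonneg (mul_nonneg ((sub_pos.2 k2.RL)).le hb.A2n) hb.r2n) +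
        (14551659625276125227318580987202/1367448661617118286318716272901005)*(mul_nonneg (mul_nonneg ((sub_pos.2 k5.TB)).le hb.a1n) hb.r2n) +
        (22828213097315571972828680321629/5469794646468473145274865091604020)*(mul_nonneg (mul_nonneg ((sub_pos.2 k6.Tw)).le hb.c21) hb.c21) +
        (12711752566359956631705805852/455816220539039428772905424300335)*(mul_nonneg (mul_nonneg ((sub_pos.2 k3.Tw)).le hb.B2n) hb.c21) +
        (12711752566359956631705805852/455816220539039428772905424300335)*(mul_nonneg (mul_nonneg ((sub_pos.2 k4.RL)).le hb.B2n) hb.B2n) +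
        (12711752566359956631705805852/455816220539039428772905424300335)*(mul_nonneg (mul_nonneg ((sub_pos.2 k4.RL)).le hb.B1n) hb.B2n) +
        (5721206755433025715869240152207/5469794646468473145274865091604020)*(mul_nonneg (mul_nonneg ((sub_pos.2 k5.TL)).le hb.r1n) hb.r1n) +
        (4232357650620328172130096105757/455816220539039428772905424300335)*(mul_nonneg ((sub_pos.2 k0.TB)).le hb.Tp1) +
        (623290057702719734736430299638/1367448661617118286318716272901005)*(mul_nonneg (mul_nonneg (hb.RB1).le hb.pB2) hb.c21) +
        (458239928255536829125355233919/273489732323423657263743254580201)*(mul_nonneg ((mul_pos (sub_pos.2 k4.Rw) hb.RB1)).le hb.c21) +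
        (111041133728196767427011863792/273489732323423657263743254580201)*(mul_nonneg (mul_nonneg ((sub_pos.2 k6.Tw)).le hb.a1n) hb.a2n) +
        (6505181929773662924108140140007/2734897323234236572637432545802010)*(mul_nonneg (mul_nonneg ((sub_pos.2 k4.RL)).le hb.a2n) hb.c12) +
        (10746461822325137101989736969826/1367448661617118286318716272901005)*(mul_nonneg (mul_nonneg hb.qout hb.a2n) hb.pB2) +
        (1204759861821435702171126544133/1367448661617118286318716272901005)*(mul_nonneg ((mul_pos (sub_pos.2 k5.RL) hb.TR1)).le hb.a1n) +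
        (5721206755433025715869240152207/5469794646468473145274865091604020)*(mul_nonneg (mul_nonneg ((sub_pos.2 k5.TB)).le hb.Tp1) hb.Lp1) +
        (9085437146410350064344758825923/2734897323234236572637432545802010)*(mul_nonneg (mul_nonneg ((sub_pos.2 k2.RL)).le hb.a2n) hb.c12) +
        (4598302954790518097091565469579/1093958929293694629054973018320804)*(mul_nonneg (mul_nonneg ((sub_pos.2 k5.RL)).le hb.b1n) hb.r1n) +
        (5721206755433025715869240152207/5469794646468473145274865091604020)*(mul_nonneg (mul_nonneg hb.wout hb.r1n) hb.r1n) +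
        (3820564224324796403944175981677/2734897323234236572637432545802010)*(mul_nonneg (mul_nonneg ((sub_pos.2 k6.Tw)).le hb.r1n) hb.r2n) +
        (11044114705667010270324907492673/1367448661617118286318716272901005)*(mul_nonneg ((mul_pos (sub_pos.2 k2.RL) hb.TR1)).le hb.r2n) +
        (157448719140234303286227161924/1367448661617118286318716272901005)*(mul_nonneg (mul_nonneg ((sub_pos.2 k5.TB)).le hb.B2n) hb.r2n) +
        (146468215615726954511777648127/455816220539039428772905424300335)*(mul_nonneg (mul_nonneg ((sub_pos.2 k2.Rw)).le hb.a1n) hb.a2n) +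
        (18690325037565061397370527585261/5469794646468473145274865091604020)*(mul_nonneg (mul_nonneg hb.qout hb.a1n) hb.r1n) +
        (730847416854635400890058654908/1367448661617118286318716272901005)*(mul_nonneg (mul_nonneg ((sub_pos.2 k5.TL)).le hb.a2n) hb.B1n) +
        (365423708427317700445029327454/1367448661617118286318716272901005)*(mul_nonneg (mul_nonneg ((sub_pos.2 k2.RL)).le hb.b1n) hb.B1n) +
        (27506710803413430969466498535147/2734897323234236572637432545802010)*(mul_nonneg (hb.TR1).le hb.c21) +
        (111041133728196767427011863792/273489732323423657263743254580201)*(mul_nonneg (mul_nonneg hb.qout hb.a1n) hb.a1n) +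
        (584278097199999211505565635114/455816220539039428772905424300335)*(mul_nonneg ((mul_pos (sub_pos.2 k6.Tw) hb.TR1)).le hb.a2n) +
        (580692617601829898849768320282/1367448661617118286318716272901005)*(mul_nonneg (mul_nonneg ((sub_pos.2 k4.Rw)).le hb.r2n) hb.Lp1) +
        (580692617601829898849768320282/1367448661617118286318716272901005)*(mul_nonneg (mul_nonneg ((sub_pos.2 k4.RL)).le hb.r1n) hb.r2n) +
        (2838049465481937408930909441089/2734897323234236572637432545802010)*(mul_nonneg (mul_nonneg hb.wout hb.a1n) hb.r2n) +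
        (1186486261877632433543016652559/1367448661617118286318716272901005)*(mul_nonneg (mul_nonneg ((sub_pos.2 k2.RL)).le hb.B2n) hb.Tp1) +
        (730847416854635400890058654908/1367448661617118286318716272901005)*(mul_nonneg (mul_nonneg hb.qout hb.a1n) hb.B1n) +
        (365423708427317700445029327454/1367448661617118286318716272901005)*(mul_nonneg (mul_nonneg ((sub_pos.2 k6.Tw)).le hb.a2n) hb.a2n) +
        (115801021793802973599726374579/2734897323234236572637432545802010)*(mul_nonneg (mul_nonneg ((sub_pos.2 k4.RL)).le hb.a1n) hb.b2n))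

theorem K76 {c1 c2 a1 a2 B1 B2 r1 r2 : ℝ} (hb : Base c1 c2 a1 a2 B1 B2 r1 r2) (dca : 0 ≤ c2*a1-c1*a2) (k0 : Y1 c1 (2-c2) B1 B2 c1 (2-c2) (2-r1) r2) (k1 : Y1 c1 (2-c2) B1 B2 (2-c1-B1) (2-(2-c2)-B2) a1 a2) (k2 : Y1 c1 c2 a1 a2 (2-c1-a1) (2-c2-a2) r1 r2) (k3 : Y1 c1 c2 a1 a2 c1 c2 (2-c1-B1) (c2-B2)) (k4 : Y1 c1 (2-c2) B1 B2 B1 B2 (r1-c1) (2-c2-r2)) (k5 : Y1 c1 c2 a1 a2 c1 c2 (2-a1-r1) (a2-r2)) (k6 : Y1 c1 c2 a1 a2 a1 a2 B1 B2) (k7 : Y1 c1 (2-c2) B1 B2 c1 (2-c2) (2-c1-a1) (2-c2-a2)) : False := by
  exact lt_irrefl (0:ℝ) (by
      linear_combination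
        (6540102044874929865692359982018934/51215606243546213782363513567739363)*(sub_pos.2 k2.TB) +
        (557944484921235793510401517055094/51215606243546213782363513567739363)*(mul_nonneg ((sub_pos.2 k2.TB)).le hb.r2n) +
        (2276530051159965042401288852342880/51215606243546213782363513567739363)*(mul_nonneg (mul_nonneg ((sub_pos.2 k3.TB)).le hb.A2n) hb.Tp1) +
        (1945874509849754028863004477604750/51215606243546213782363513567739363)*(mul_nonneg ((sub_pos.2 k1.TB)).le hb.r2n) +
        (11060181470654943933630626120485452/51215606243546213782363513567739363)*(mul_nonneg (mul_nonneg hb.qout (hb.RB1).le) hb.r2n) +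
        (1115888969842471587020803034110188/51215606243546213782363513567739363)*(mul_nonneg (mul_nonneg ((sub_pos.2 k4.Tw)).le hb.r2n) hb.c21) +
        (507551634067024416580719578691449/51215606243546213782363513567739363)*(mul_nonneg ((mul_pos (sub_pos.2 k3.Rw) hb.RB1)).le hb.c21) +
        (1115888969842471587020803034110188/51215606243546213782363513567739363)*(mul_nonneg (mul_nonneg ((sub_pos.2 k6.RL)).le hb.r2n) hb.r2n) +
        (3213533540280343357801099219587043/51215606243546213782363513567739363)*(mul_pos (sub_pos.2 k3.RL) (k6.pos hb.a2n)) +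
        (402297459060575252072928635488056/51215606243546213782363513567739363)*(mul_nonneg (mul_nonneg ((sub_pos.2 k6.TL)).le hb.B1n) hb.c21) +
        (15159934755598454745055473827392636/51215606243546213782363513567739363)*(mul_nonneg ((mul_pos hb.TR1 hb.TR1)).le hb.c21) +
        (2276530051159965042401288852342880/51215606243546213782363513567739363)*(mul_nonneg (mul_nonneg ((sub_pos.2 k4.Tw)).le hb.B2n) hb.c21) +
        (7943494846614340427609967888873634/51215606243546213782363513567739363)*(mul_nonneg (mul_nonneg ((sub_pos.2 k4.Tw)).le hb.a2n) hb.c21) +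
        (2237198988441506180203289081007938/51215606243546213782363513567739363)*(mul_nonneg (mul_nonneg ((sub_pos.2 k3.RL)).le hb.a2n) hb.a2n) +
        (1131521612233349893507671364402217/51215606243546213782363513567739363)*(mul_nonneg (mul_nonneg ((sub_pos.2 k2.TB)).le hb.c21) hb.c21) +
        (14672225962485719811567553944472224/51215606243546213782363513567739363)*(mul_nonneg (mul_nonneg (hb.TR1).le hb.B1n) hb.c21) +
        (3645835573712904987632895145193726/51215606243546213782363513567739363)*(mul_nonneg (mul_nonneg ((sub_pos.2 k3.RL)).le hb.a2n) hb.Lp1) +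
        (10941320180706611181265718679857886/51215606243546213782363513567739363)*(mul_nonneg ((sub_pos.2 k5.RL)).le hb.qout) +
        (505869370467040217354647513317668/51215606243546213782363513567739363)*(mul_nonneg ((sub_pos.2 k4.Tw)).le hb.qout) +
        (15232969930519688086333461767893128/51215606243546213782363513567739363)*(mul_nonneg ((sub_pos.2 k4.Tw)).le hb.c21) +
        (5950303588286715391781817580921762/51215606243546213782363513567739363)*(mul_nonneg (mul_nonneg ((sub_pos.2 k5.Rw)).le hb.b2n) hb.A2n) +
        (15598309147352694809340216153927800/51215606243546213782363513567739363)*(mul_nonneg (mul_nonneg hb.qout (hb.TR1).le) hb.r1n) +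
        (5343094723095527132936463183771334/51215606243546213782363513567739363)*(mul_nonneg (mul_nonneg ((sub_pos.2 k2.TB)).le hb.B1n) hb.c21) +
        (557944484921235793510401517055094/51215606243546213782363513567739363)*(mul_nonneg (mul_nonneg ((sub_pos.2 k5.Rw)).le hb.b2n) hb.r2n) +
        (3086378826307860878755062467072317/51215606243546213782363513567739363)*(mul_nonneg ((sub_pos.2 k2.TB)).le hb.a1n) +
        (4104007935211230414443550151977276/51215606243546213782363513567739363)*(mul_nonneg ((sub_pos.2 k1.TB)).le hb.r1n) +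
        (153458455990558479160009419101374/51215606243546213782363513567739363)*(mul_nonneg (mul_nonneg ((sub_pos.2 k7.RL)).le hb.a2n) hb.c21) +
        (13124841448333941257954889639421650/51215606243546213782363513567739363)*(mul_pos (sub_pos.2 k6.TL) hb.TR1) +
        (22053104331176197863033825936921754/153646818730638641347090540703218089)*(mul_nonneg ((mul_pos (sub_pos.2 k3.RL) hb.TR1)).le hb.a1n) +
        (2038895648569300326452713129923516/51215606243546213782363513567739363)*(mul_nonneg (mul_nonneg ((sub_pos.2 k3.Rw)).le hb.c21) hb.c12) +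
        (155707095626566234837533414868436/51215606243546213782363513567739363)*(mul_nonneg (mul_nonneg ((sub_pos.2 k2.TB)).le hb.r1n) hb.Lp1) +
        (11588571306737262138293642933375152/51215606243546213782363513567739363)*(mul_nonneg (mul_nonneg ((sub_pos.2 k3.RL)).le hb.a2n) hb.c21) +
        (7523896903646702019771334380765770/51215606243546213782363513567739363)*(mul_nonneg (mul_nonneg ((sub_pos.2 k1.TB)).le hb.r2n) hb.c21) +
        (12072918926539382964250292633033820/51215606243546213782363513567739363)*(mul_pos (mul_pos (sub_pos.2 k6.TB) hb.TR1) hb.TR1) +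
        (1492166856201661081996795440224786/51215606243546213782363513567739363)*(mul_nonneg (mul_nonneg ((sub_pos.2 k2.TB)).le hb.B1n) hb.Lp1) +
        (5422204025729468645033705846305965/51215606243546213782363513567739363)*(mul_nonneg ((sub_pos.2 k2.TB)).le hb.c21) +
        (7514986224574888325140696814938924/51215606243546213782363513567739363)*(mul_nonneg ((mul_pos (sub_pos.2 k3.Rw) hb.RB1)).le hb.r2n) +
        (758843350386655014133762950780960/51215606243546213782363513567739363)*(mul_nonneg ((sub_pos.2 k6.TB)).le hb.qout) +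
        (4550025918459078469153379496618430/51215606243546213782363513567739363)*(mul_nonneg ((mul_pos (sub_pos.2 k7.Rw) hb.TR1)).le hb.c21) +
        (10013343588664438198864845961421058/51215606243546213782363513567739363)*(mul_nonneg (mul_nonneg (hb.TR1).le hb.c21) hb.c21) +
        (91671878263744926843652162880420/51215606243546213782363513567739363)*(mul_nonneg (mul_nonneg ((sub_pos.2 k1.TB)).le hb.a1n) hb.b2n) +
        (1224120198904460474556696869852140/51215606243546213782363513567739363)*(mul_nonneg ((mul_pos (sub_pos.2 k2.TB) hb.TR1)).le hb.B1n) +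
        (5055646618579453210087749964330362/51215606243546213782363513567739363)*(mul_nonneg (mul_nonneg ((sub_pos.2 k3.RL)).le hb.a2n) hb.pB2) +
        (3433981573998965593092237946010992/153646818730638641347090540703218089)*(mul_nonneg (mul_nonneg ((sub_pos.2 k5.RL)).le hb.a1n) hb.pB2) +
        (1457641775007096213769212377833424/51215606243546213782363513567739363)*(mul_nonneg (mul_nonneg ((sub_pos.2 k6.RL)).le hb.B1n) hb.r2n) +
        (880106756749430844718447005298716/51215606243546213782363513567739363)*(mul_nonneg ((sub_pos.2 k4.Tw)).le hb.wout) +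
        (6590561066382965334847952537661988/51215606243546213782363513567739363)*(mul_nonneg ((sub_pos.2 k5.Rw)).le hb.b2n) +
        (5916514803613142319541099318055143/102431212487092427564727027135478726)*(mul_nonneg (mul_nonneg ((sub_pos.2 k6.RL)).le hb.r2n) hb.Lp1) +
        (1191930030921990645522012634430232/51215606243546213782363513567739363)*(mul_nonneg (mul_nonneg ((sub_pos.2 k7.RL)).le hb.a1n) hb.pB2) +
        (864490866526225369412444619159444/51215606243546213782363513567739363)*(mul_nonneg (mul_nonneg hb.qout hb.a1n) hb.Tp1) +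
        (64780060935732239241541627319184/51215606243546213782363513567739363)*(mul_nonneg (mul_nonneg ((sub_pos.2 k2.TB)).le hb.a2n) hb.b2n) +
        (677228576695921225097593212148446/51215606243546213782363513567739363)*(mul_nonneg (mul_nonneg ((sub_pos.2 k7.RL)).le hb.b2n) hb.r1n) +
        (11902897100848846637079217403625032/153646818730638641347090540703218089)*(mul_nonneg (mul_nonneg ((sub_pos.2 k3.RL)).le hb.a1n) hb.pB2) +
        (1210107327571423994924357008214064/51215606243546213782363513567739363)*(mul_nonneg (mul_nonneg ((sub_pos.2 k7.RL)).le hb.a1n) hb.c21) +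
        (4454925394451620260516282416440851/51215606243546213782363513567739363)*(mul_nonneg ((mul_pos (sub_pos.2 k6.RL) hb.TR1)).le hb.c12) +
        (10690164571022537882324132697027824/51215606243546213782363513567739363)*(mul_nonneg (mul_nonneg ((sub_pos.2 k4.Tw)).le hb.c21) hb.c21) +
        (5633003621135151827059786308931248/51215606243546213782363513567739363)*(mul_nonneg (mul_nonneg hb.B1n hb.c21) hb.c21) +
        (4096366854282948709697375303352602/153646818730638641347090540703218089)*(mul_nonneg ((mul_pos (sub_pos.2 k5.RL) hb.TR1)).le hb.a1n) +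
        (1115888969842471587020803034110188/51215606243546213782363513567739363)*(mul_nonneg (mul_nonneg ((sub_pos.2 k5.Rw)).le hb.B1n) hb.r2n) +
        (1616263784125440500955312932164356/51215606243546213782363513567739363)*(mul_nonneg (mul_nonneg ((sub_pos.2 k3.RL)).le hb.a2n) hb.b1n) +
        (14200284787977497382136474412493572/51215606243546213782363513567739363)*(mul_nonneg (mul_nonneg hb.qout (hb.TR1).le) hb.r2n) +
        (9067902385144457694339805092175434/51215606243546213782363513567739363)*(mul_nonneg (mul_nonneg ((sub_pos.2 k5.RL)).le hb.B2n) hb.c21) +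
        (2276530051159965042401288852342880/51215606243546213782363513567739363)*(mul_nonneg (mul_nonneg ((sub_pos.2 k3.RL)).le hb.B2n) hb.pB2) +
        (722687915554690068994289488850130/51215606243546213782363513567739363)*(mul_nonneg ((mul_pos (sub_pos.2 k2.TB) hb.RB1)).le hb.r2n) +
        (1011738740934080434709295026635336/51215606243546213782363513567739363)*(mul_nonneg (mul_nonneg ((sub_pos.2 k1.TB)).le hb.B2n) hb.r2n) +
        (155707095626566234837533414868436/51215606243546213782363513567739363)*(mul_nonneg (mul_nonneg hb.wout hb.Tp1) hb.Lp1) +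
        (6566284875559859144071691086243444/51215606243546213782363513567739363)*(mul_nonneg (mul_nonneg hb.wout hb.Tp1) hb.c21) +
        (719909806049837379842442780102042/51215606243546213782363513567739363)*(mul_nonneg (mul_nonneg ((sub_pos.2 k7.RL)).le hb.b2n) hb.B1n) +
        (1093145618894716970966242795175968/51215606243546213782363513567739363)*(mul_nonneg (mul_nonneg ((sub_pos.2 k5.RL)).le hb.B1n) hb.B2n) +
        (1475905611403703031375239418905886/51215606243546213782363513567739363)*(mul_nonneg (mul_nonneg ((sub_pos.2 k3.Rw)).le hb.b2n) hb.A2n) +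
        (10813735742089237324656362516115198/51215606243546213782363513567739363)*(mul_pos (sub_pos.2 k2.Rw) hb.TR1) +
        (818978257145246861558122272152091/102431212487092427564727027135478726)*(mul_pos (mul_pos (sub_pos.2 k1.TB) hb.TR1) hb.RB1) +
        (2915283550014192427538424755666848/51215606243546213782363513567739363)*(mul_nonneg ((mul_pos (sub_pos.2 k6.TB) hb.TR1)).le hb.B1n) +
        (5466301536847477407736792498799614/51215606243546213782363513567739363)*(mul_nonneg ((mul_pos (sub_pos.2 k1.TB) hb.TR1)).le hb.r2n) +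
        (758843350386655014133762950780960/51215606243546213782363513567739363)*(mul_nonneg (mul_nonneg hb.qout (hb.TR1).le) hb.B2n) +
        (25767826110075545947885615636434710/153646818730638641347090540703218089)*(mul_nonneg (mul_nonneg ((sub_pos.2 k6.RL)).le hb.b1n) hb.c21) +
        (20397239219428935211732293161171288/153646818730638641347090540703218089)*(mul_nonneg (mul_nonneg ((sub_pos.2 k6.RL)).le hb.a1n) hb.c21) +
        (674073866917964916420616698661832/51215606243546213782363513567739363)*(mul_nonneg (mul_nonneg ((sub_pos.2 k7.RL)).le hb.a1n) hb.A2n) +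
        (6860684788895069458383122982331367/51215606243546213782363513567739363)*(mul_nonneg ((mul_pos (sub_pos.2 k6.RL) hb.TR1)).le hb.r2n) +
        (657233829085112331392071691308588/51215606243546213782363513567739363)*(mul_nonneg (mul_nonneg ((sub_pos.2 k2.TB)).le hb.b1n) hb.B2n) +
        (657233829085112331392071691308588/51215606243546213782363513567739363)*(mul_nonneg (mul_nonneg ((sub_pos.2 k2.TB)).le hb.a1n) hb.B2n) +
        (1492166856201661081996795440224786/51215606243546213782363513567739363)*(mul_nonneg (mul_nonneg ((sub_pos.2 k2.TB)).le hb.B1n) hb.r1n) +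
        (250976780353045845970250164493196/51215606243546213782363513567739363)*(mul_nonneg (mul_nonneg ((sub_pos.2 k5.Rw)).le hb.b1n) hb.B1n) +
        (1497280710719915855565640683884172/51215606243546213782363513567739363)*(mul_nonneg hb.qout hb.wout) +
        (2685593382908289545126890405994324/51215606243546213782363513567739363)*(mul_nonneg ((sub_pos.2 k5.RL)).le hb.wout) +
        (4244462914367589581364891396165792/51215606243546213782363513567739363)*(mul_nonneg (mul_nonneg ((sub_pos.2 k4.Tw)).le hb.b1n) hb.c21) +
        (14441749412848522757957310020187431/51215606243546213782363513567739363)*(mul_nonneg (mul_nonneg ((sub_pos.2 k6.RL)).le hb.r2n) hb.c21) +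
        (125488390176522922985125082246598/51215606243546213782363513567739363)*(mul_nonneg (mul_nonneg ((sub_pos.2 k5.RL)).le hb.a1n) hb.B1n) +
        (2954719919152565854021796986568956/51215606243546213782363513567739363)*(mul_nonneg (mul_nonneg ((sub_pos.2 k6.TL)).le hb.a2n) hb.c21) +
        (9349939080913113253642751716614556/51215606243546213782363513567739363)*(mul_nonneg ((mul_pos (sub_pos.2 k6.TB) hb.TR1)).le hb.Tp1) +
        (4847456861775969155433520169740934/51215606243546213782363513567739363)*(mul_nonneg (mul_nonneg ((sub_pos.2 k6.RL)).le hb.r1n) hb.c12) +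
        (1183384432265248071435046057166912/51215606243546213782363513567739363)*(mul_nonneg (mul_nonneg ((sub_pos.2 k4.Tw)).le hb.A1n) hb.c21) +
        (3970264552133316005163287837013895/51215606243546213782363513567739363)*(mul_nonneg ((mul_pos (sub_pos.2 k2.Rw) hb.TR1)).le hb.c21) +
        (4427486165016805358525472657048012/51215606243546213782363513567739363)*(mul_nonneg (mul_nonneg ((sub_pos.2 k5.RL)).le hb.B1n) hb.c21) +
        (999599529622132592502192181665776/51215606243546213782363513567739363)*(mul_nonneg ((mul_pos (sub_pos.2 k6.TB) hb.TR1)).le hb.a1n) +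
        (2611225057660400165870019663061160/51215606243546213782363513567739363)*(mul_nonneg (mul_nonneg ((sub_pos.2 k3.Rw)).le hb.b2n) hb.r1n) +
        (336914889744933613298749301741554/51215606243546213782363513567739363)*(mul_nonneg (mul_nonneg ((sub_pos.2 k2.TB)).le hb.b2n) hb.r1n) +
        (2580704127091870765605334222941772/51215606243546213782363513567739363)*(mul_nonneg (mul_nonneg ((sub_pos.2 k3.RL)).le hb.A1n) hb.pB2) +
        (5094489716462122822492483776159854/51215606243546213782363513567739363)*(mul_nonneg (mul_nonneg ((sub_pos.2 k5.RL)).le hb.A1n) hb.B1n) +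
        (2685280587646964030272814041534909/51215606243546213782363513567739363)*(mul_nonneg ((mul_pos (sub_pos.2 k7.RL) hb.TR1)).le hb.A2n) +
        (885291045660367724421528988708148/51215606243546213782363513567739363)*(mul_nonneg hb.qout hb.qout) +
        (1011738740934080434709295026635336/51215606243546213782363513567739363)*(mul_nonneg (mul_nonneg hb.qout hb.A2n) hb.Tp1) +
        (12969373831012245483771929388693448/51215606243546213782363513567739363)*(mul_nonneg (mul_nonneg hb.qout (hb.RB1).le) hb.Tp1) +
        (1280632400475925862504691005905224/51215606243546213782363513567739363)*(mul_nonneg ((mul_pos (sub_pos.2 k2.TB) hb.TR1)).le hb.r2n) +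
        (1436358412184862868214161494630204/51215606243546213782363513567739363)*(mul_nonneg (mul_nonneg ((sub_pos.2 k3.RL)).le hb.B1n) hb.Tp1) +
        (1183384432265248071435046057166912/51215606243546213782363513567739363)*(mul_nonneg (mul_nonneg ((sub_pos.2 k3.RL)).le hb.a1n) hb.B1n) +
        (921749941656949089165408102651508/51215606243546213782363513567739363)*(mul_nonneg ((mul_pos (sub_pos.2 k6.TL) hb.RB1)).le hb.B2n) +
        (7934212436542503459817107591638234/153646818730638641347090540703218089)*(mul_nonneg (mul_nonneg ((sub_pos.2 k6.RL)).le hb.c21) hb.c21) +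
        (142634685268455313379412525968488/51215606243546213782363513567739363)*(mul_nonneg (mul_nonneg ((sub_pos.2 k3.RL)).le hb.Tp1) hb.Lp1) +
        (1231912643920197371759847452113859/51215606243546213782363513567739363)*(mul_nonneg (mul_nonneg ((sub_pos.2 k7.RL)).le hb.B2n) hb.c21) +
        (1993191258327625035828150307951872/51215606243546213782363513567739363)*(mul_nonneg (mul_nonneg ((sub_pos.2 k2.Rw)).le hb.B2n) hb.c21) +
        (7624434962208953793317338173172140/51215606243546213782363513567739363)*(mul_nonneg ((mul_pos (sub_pos.2 k1.TB) hb.TR1)).le hb.r1n) +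
        (155707095626566234837533414868436/51215606243546213782363513567739363)*(mul_nonneg (mul_nonneg ((sub_pos.2 k2.RL)).le hb.r1n) hb.Tp1) +
        (2439436642430259117432934004213428/51215606243546213782363513567739363)*(mul_nonneg ((mul_pos (sub_pos.2 k6.TB) hb.TR1)).le hb.B2n) +
        (1457641775007096213769212377833424/51215606243546213782363513567739363)*(mul_pos (sub_pos.2 k6.TL) (k4.pos hb.B2n)) +
        (1063216276991382719639778303753384/51215606243546213782363513567739363)*(mul_nonneg ((mul_pos (sub_pos.2 k7.RL) hb.TR1)).le hb.Lp1) +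
        (758843350386655014133762950780960/51215606243546213782363513567739363)*(mul_nonneg (mul_nonneg ((sub_pos.2 k1.TL)).le hb.A2n) hb.c21) +
        (5147241228131133964575631026681156/51215606243546213782363513567739363)*(mul_nonneg (mul_nonneg (hb.TR1).le hb.B2n) hb.c21) +
        (1875981616805674773028513889210611/51215606243546213782363513567739363)*(mul_pos (sub_pos.2 k1.TB) (k3.pos hb.pc2.le)) +
        (2417673430383225169834964728050276/51215606243546213782363513567739363)*(mul_nonneg ((mul_pos (sub_pos.2 k7.RL) hb.TR1)).le hb.pB2) +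
        (891450324359582476815640652457192/51215606243546213782363513567739363)*(mul_nonneg (mul_nonneg ((sub_pos.2 k3.RL)).le hb.B1n) hb.pB2) +
        (957506639115220859459957385922758/51215606243546213782363513567739363)*(mul_nonneg (mul_nonneg ((sub_pos.2 k5.Rw)).le hb.a1n) hb.b2n) +
        (1011738740934080434709295026635336/51215606243546213782363513567739363)*(mul_nonneg (mul_nonneg hb.qout (hb.TR1).le) hb.B1n) +
        (1931270832084593769625977300072067/51215606243546213782363513567739363)*(mul_nonneg ((mul_pos (sub_pos.2 k7.RL) hb.TR1)).le hb.B2n) +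
        (45835939131872463421826081440210/51215606243546213782363513567739363)*(mul_nonneg (mul_nonneg ((sub_pos.2 k7.RL)).le hb.a2n) hb.b2n) +
        (666482096185370071340553169389530/51215606243546213782363513567739363)*(mul_nonneg ((sub_pos.2 k3.RL)).le hb.qout) +
        (1907088529847677798013507415821852/51215606243546213782363513567739363)*(mul_nonneg (mul_nonneg hb.wout hb.Tp1) hb.pB2) +
        (979697200375984215208036399084019/51215606243546213782363513567739363)*(mul_pos (sub_pos.2 k1.TB) hb.RB1) +
        (64780060935732239241541627319184/51215606243546213782363513567739363)*(mul_nonneg (mul_nonneg ((sub_pos.2 k2.TB)).le hb.a2n) hb.a2n) +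
        (4095147929103925389869543045280972/51215606243546213782363513567739363)*(mul_nonneg (mul_nonneg ((sub_pos.2 k5.Rw)).le hb.B2n) hb.c12) +
        (2276530051159965042401288852342880/51215606243546213782363513567739363)*(mul_nonneg (mul_nonneg ((sub_pos.2 k5.RL)).le hb.B2n) hb.B2n) +
        (4300681410912226333758323120887495/153646818730638641347090540703218089)*(mul_nonneg ((mul_pos (sub_pos.2 k6.RL) hb.TR1)).le hb.c21) +
        (557944484921235793510401517055094/51215606243546213782363513567739363)*(mul_nonneg (mul_nonneg ((sub_pos.2 k5.Rw)).le hb.r2n) hb.c21) +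
        (505947959839229593558230874926584/51215606243546213782363513567739363)*(mul_nonneg (mul_nonneg hb.qout hb.A1n) hb.Tp1) +
        (1907088529847677798013507415821852/51215606243546213782363513567739363)*(mul_nonneg (mul_nonneg ((sub_pos.2 k6.TB)).le hb.r2n) hb.Tp1) +
        (557944484921235793510401517055094/51215606243546213782363513567739363)*(mul_nonneg (mul_nonneg ((sub_pos.2 k5.Rw)).le hb.r2n) hb.c12) +
        (1183384432265248071435046057166912/51215606243546213782363513567739363)*(mul_nonneg (mul_nonneg ((sub_pos.2 k1.TB)).le hb.B1n) hb.c21) +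
        (5151080418625120589827598777153928/51215606243546213782363513567739363)*(mul_nonneg ((mul_pos (sub_pos.2 k6.TB) hb.TR1)).le hb.pB2) +
        (1775451956576855680688660554061640/51215606243546213782363513567739363)*(mul_nonneg (mul_nonneg ((sub_pos.2 k6.RL)).le hb.b2n) hb.Lp1) +
        (280228951303927201068653320577167/51215606243546213782363513567739363)*(mul_nonneg ((sub_pos.2 k7.RL)).le hb.qout) +
        (760748723520643554664570771364451/51215606243546213782363513567739363)*(mul_nonneg ((mul_pos (sub_pos.2 k3.RL) hb.TR1)).le hb.A2n) +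
        (702518764463879587711037198211853/51215606243546213782363513567739363)*(mul_nonneg ((mul_pos (sub_pos.2 k2.TB) hb.TR1)).le hb.a1n) +
        (702518764463879587711037198211853/51215606243546213782363513567739363)*(mul_nonneg (mul_nonneg ((sub_pos.2 k2.TB)).le hb.a1n) hb.c21) +
        (1011738740934080434709295026635336/51215606243546213782363513567739363)*(mul_nonneg (mul_nonneg ((sub_pos.2 k6.TL)).le hb.B2n) hb.r2n) +
        (832233380083320544872375107574438/51215606243546213782363513567739363)*(mul_nonneg ((sub_pos.2 k7.RL)).le hb.pin) +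
        (110616000067604702663367708759394/51215606243546213782363513567739363)*(mul_nonneg (mul_nonneg ((sub_pos.2 k2.TB)).le hb.a2n) hb.c21) +
        (1011738740934080434709295026635336/51215606243546213782363513567739363)*(mul_nonneg (mul_nonneg hb.qout hb.b2n) hb.r2n) +
        (1816184681694091989623426122066284/51215606243546213782363513567739363)*(mul_nonneg (mul_nonneg ((sub_pos.2 k1.TB)).le hb.a2n) hb.Tp1) +
        (865834760851475932616305223042338/51215606243546213782363513567739363)*(mul_nonneg (mul_nonneg ((sub_pos.2 k6.RL)).le hb.a2n) hb.b1n) +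
        (505947959839229593558230874926584/51215606243546213782363513567739363)*(mul_nonneg (mul_nonneg ((sub_pos.2 k1.TB)).le hb.B2n) hb.r1n) +
        (555966280633144837296643957215352/51215606243546213782363513567739363)*(mul_nonneg (mul_nonneg ((sub_pos.2 k7.RL)).le hb.pB2) hb.c21) +
        (657221651370488670291504022864344/51215606243546213782363513567739363)*(mul_nonneg (mul_nonneg hb.wout hb.b1n) hb.Tp1) +
        (146260325882447610832021344018074/51215606243546213782363513567739363)*(mul_nonneg ((sub_pos.2 k6.RL)).le hb.wout) +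
        (4099450943263499157232037595847756/51215606243546213782363513567739363)*(mul_nonneg ((sub_pos.2 k6.TL)).le hb.pin) +
        (874789267318106501476140470369040/51215606243546213782363513567739363)*(mul_nonneg (mul_nonneg hb.r2n hb.Tp1) hb.c21) +
        (1115888969842471587020803034110188/51215606243546213782363513567739363)*(mul_nonneg (mul_nonneg ((sub_pos.2 k3.RL)).le hb.r2n) hb.pB2) +
        (1115888969842471587020803034110188/51215606243546213782363513567739363)*(mul_nonneg (mul_nonneg ((sub_pos.2 k5.Rw)).le hb.B2n) hb.r2n) +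
        (2685200186591587147562199886096224/51215606243546213782363513567739363)*(mul_nonneg (mul_nonneg (hb.TR1).le hb.Tp1) hb.c21) +
        (1528895095547190798498756844005650/51215606243546213782363513567739363)*(mul_nonneg (mul_nonneg ((sub_pos.2 k5.Rw)).le hb.b1n) hb.c21) +
        (2799779813151273993455980762862692/51215606243546213782363513567739363)*(mul_nonneg (mul_nonneg ((sub_pos.2 k5.Rw)).le hb.a1n) hb.A2n) +
        (2226084731632334849756097238740272/51215606243546213782363513567739363)*(mul_nonneg ((mul_pos (sub_pos.2 k4.Tw) hb.TR1)).le hb.c21) +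
        (14899559325090022535635024935709136/51215606243546213782363513567739363)*(mul_nonneg (mul_nonneg hb.A2n hb.Tp1) hb.c21) +
        (2618194240468747800515008977836702/51215606243546213782363513567739363)*(mul_nonneg ((sub_pos.2 k3.Rw)).le hb.wout) +
        (3838217041883758043051565028933648/51215606243546213782363513567739363)*(mul_nonneg (mul_nonneg hb.qout hb.pB2) hb.c21) +
        (1358554693684737087411851305415024/51215606243546213782363513567739363)*(mul_nonneg (mul_nonneg ((sub_pos.2 k3.RL)).le hb.r1n) hb.pB2) +
        (3914216480924465469778393772143882/51215606243546213782363513567739363)*(mul_nonneg (mul_nonneg ((sub_pos.2 k6.TB)).le hb.b2n) hb.Tp1) +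
        (3911105284196874751057437718992942/51215606243546213782363513567739363)*(mul_nonneg (mul_nonneg ((sub_pos.2 k5.RL)).le hb.B1n) hb.B1n) +
        (4243841982738691357887283403269134/51215606243546213782363513567739363)*(mul_nonneg (mul_nonneg hb.B2n hb.c21) hb.c21) +
        (1285403538747668371348670856200365/51215606243546213782363513567739363)*(mul_nonneg ((mul_pos (sub_pos.2 k1.TB) hb.RB1)).le hb.a1n) +
        (1504391621090001133204628817219885/51215606243546213782363513567739363)*(mul_nonneg ((mul_pos (sub_pos.2 k1.TB) hb.TR1)).le hb.a1n) +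
        (774320798541663511497431372605218/51215606243546213782363513567739363)*(mul_nonneg ((mul_pos (sub_pos.2 k7.RL) hb.TR1)).le hb.a1n) +
        (951693815167866620210981502906840/51215606243546213782363513567739363)*(mul_nonneg (mul_nonneg ((sub_pos.2 k6.TB)).le hb.A2n) hb.Tp1) +
        (1609096991920783223872702183478412/51215606243546213782363513567739363)*(mul_nonneg (mul_nonneg ((sub_pos.2 k5.Rw)).le hb.Lp1) hb.c21) +
        (1686950539734066341291468890912630/51215606243546213782363513567739363)*(mul_nonneg (mul_nonneg ((sub_pos.2 k5.RL)).le hb.r1n) hb.c21) +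
        (1115888969842471587020803034110188/51215606243546213782363513567739363)*(mul_nonneg (mul_nonneg ((sub_pos.2 k6.TL)).le hb.r2n) hb.pB2) +
        (2512851009168931512838922558185908/51215606243546213782363513567739363)*(mul_nonneg (mul_nonneg ((sub_pos.2 k6.TL)).le hb.c21) hb.c21) +
        (1890677031356904345339301602974412/51215606243546213782363513567739363)*(mul_nonneg (mul_nonneg ((sub_pos.2 k6.TB)).le hb.a2n) hb.Tp1) +
        (657085089671987304148644137579896/51215606243546213782363513567739363)*(mul_pos (mul_pos (sub_pos.2 k5.RL) hb.TR1) hb.TR1) +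
        (1093145618894716970966242795175968/51215606243546213782363513567739363)*(mul_nonneg (mul_nonneg ((sub_pos.2 k3.RL)).le hb.a2n) hb.B1n) +
        (922048636742133315389196440386104/51215606243546213782363513567739363)*(mul_nonneg (mul_nonneg ((sub_pos.2 k5.RL)).le hb.Lp1) hb.c12) +
        (1535562722915312838831390895052352/51215606243546213782363513567739363)*(mul_nonneg (mul_nonneg ((sub_pos.2 k5.Rw)).le hb.Tp1) hb.c12) +
        (2064272174684797433373857737174114/51215606243546213782363513567739363)*(mul_nonneg (mul_nonneg ((sub_pos.2 k6.TL)).le hb.a2n) hb.r1n) +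
        (889123046194880479060318871487588/51215606243546213782363513567739363)*(mul_nonneg ((mul_pos (sub_pos.2 k3.RL) hb.TR1)).le hb.a2n) +
        (142941419032962888694133080126826/51215606243546213782363513567739363)*(mul_nonneg (mul_nonneg ((sub_pos.2 k3.RL)).le hb.A2n) hb.B2n) +
        (126288808324315307709974416717984/51215606243546213782363513567739363)*(mul_nonneg ((mul_pos (sub_pos.2 k3.RL) hb.TR1)).le hb.Tp1) +
        (856179810015445023833242725971084/51215606243546213782363513567739363)*(mul_nonneg (mul_nonneg ((sub_pos.2 k3.Rw)).le hb.r2n) hb.Tp1) +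
        (540678094723304296020084712524836/51215606243546213782363513567739363)*(mul_nonneg (mul_nonneg hb.wout hb.c21) hb.c21) +
        (800624439756262011026049433436994/51215606243546213782363513567739363)*(mul_nonneg (mul_nonneg ((sub_pos.2 k3.RL)).le hb.a2n) hb.B2n) +
        (613514086173179523442194454666248/51215606243546213782363513567739363)*(mul_nonneg ((mul_pos (sub_pos.2 k5.RL) hb.TR1)).le hb.Tp1) +
        (985243970742999696272565433219980/51215606243546213782363513567739363)*(mul_nonneg ((mul_pos (sub_pos.2 k2.Rw) hb.TR1)).le hb.r1n) +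
        (2102337743917786723514084486411439/102431212487092427564727027135478726)*(mul_nonneg (mul_nonneg ((sub_pos.2 k6.RL)).le hb.r1n) hb.r2n) +
        (328610825685244335145752011432172/51215606243546213782363513567739363)*(mul_nonneg (mul_nonneg ((sub_pos.2 k7.RL)).le hb.a1n) hb.Tp1) +
        (3651679875625079710617959622457340/51215606243546213782363513567739363)*(mul_nonneg (mul_nonneg ((sub_pos.2 k3.Rw)).le hb.pB2) hb.c21) +
        (761789963259543400095120296638616/51215606243546213782363513567739363)*(mul_nonneg (mul_nonneg hb.Tp1 hb.c21) hb.c21) +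
        (1436060410424061489786378544006456/51215606243546213782363513567739363)*(mul_nonneg ((mul_pos (sub_pos.2 k6.TB) hb.TR1)).le hb.c21) +
        (717520930711059673818507905561018/51215606243546213782363513567739363)*(mul_nonneg (mul_nonneg ((sub_pos.2 k6.RL)).le hb.a2n) hb.c12) +
        (45835939131872463421826081440210/51215606243546213782363513567739363)*(mul_nonneg (mul_nonneg ((sub_pos.2 k5.RL)).le hb.a2n) hb.b2n) +
        (336712484786026388183666099536306/51215606243546213782363513567739363)*(mul_nonneg (mul_nonneg ((sub_pos.2 k3.Rw)).le hb.b2n) hb.r2n) +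
        (45835939131872463421826081440210/51215606243546213782363513567739363)*(mul_nonneg ((sub_pos.2 k6.TB)).le hb.wout) +
        (312597966284020932528979254519404/51215606243546213782363513567739363)*(mul_nonneg (mul_nonneg hb.qout (hb.TR1).le) hb.a2n) +
        (1477865956114499544408848149829970/51215606243546213782363513567739363)*(mul_nonneg (mul_nonneg ((sub_pos.2 k5.RL)).le hb.b2n) hb.Tp1) +
        (829536875116433461435032018351544/51215606243546213782363513567739363)*(mul_nonneg (mul_nonneg ((sub_pos.2 k2.TB)).le hb.r1n) hb.c21) +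
        (887431346188144344478177460645166/51215606243546213782363513567739363)*(mul_nonneg (mul_nonneg ((sub_pos.2 k5.RL)).le hb.b1n) hb.r2n) +
        (690264738032667201550562460287552/51215606243546213782363513567739363)*(mul_nonneg (mul_nonneg ((sub_pos.2 k6.TL)).le hb.r1n) hb.c21) +
        (77853547813283117418766707434218/51215606243546213782363513567739363)*(mul_nonneg (mul_nonneg ((sub_pos.2 k0.RL)).le hb.Tp1) hb.c21) +
        (64013235781305812824170455224042/51215606243546213782363513567739363)*(mul_nonneg (mul_nonneg ((sub_pos.2 k7.RL)).le hb.a1n) hb.A1n) +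
        (280166718663960155795842698503179/51215606243546213782363513567739363)*(mul_nonneg ((mul_pos (sub_pos.2 k3.RL) hb.RB1)).le hb.A2n) +
        (805313870170733870536116155506802/51215606243546213782363513567739363)*(mul_nonneg (mul_nonneg ((sub_pos.2 k5.RL)).le hb.a2n) hb.c21) +
        (155707095626566234837533414868436/51215606243546213782363513567739363)*(mul_nonneg (mul_nonneg ((sub_pos.2 k3.Rw)).le hb.Tp1) hb.Tp1) +
        (166823321224622770226796417534518/153646818730638641347090540703218089)*(mul_nonneg (mul_nonneg ((sub_pos.2 k5.Rw)).le hb.a1n) hb.c21) +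
        (191432334248062188962214241925754/51215606243546213782363513567739363)*(mul_nonneg ((mul_pos (sub_pos.2 k5.RL) hb.TR1)).le hb.c21) +
        (43203553749315622574742223998848/51215606243546213782363513567739363)*(mul_nonneg ((mul_pos (sub_pos.2 k5.RL) hb.TR1)).le hb.a2n) +
        (774162882587731005772653060161918/51215606243546213782363513567739363)*(mul_nonneg (mul_nonneg ((sub_pos.2 k6.TL)).le hb.a1n) hb.a2n) +
        (255584000491052061468780763386884/51215606243546213782363513567739363)*(mul_nonneg (mul_nonneg hb.qout hb.b1n) hb.r2n) +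
        (2512986090953617175465496120178792/51215606243546213782363513567739363)*(mul_nonneg (mul_nonneg ((sub_pos.2 k6.RL)).le hb.B1n) hb.c21) +
        (64013235781305812824170455224042/51215606243546213782363513567739363)*(mul_nonneg (mul_nonneg ((sub_pos.2 k7.RL)).le hb.a1n) hb.B1n) +
        (3475568798443252504640810372911076/153646818730638641347090540703218089)*(mul_nonneg (mul_nonneg ((sub_pos.2 k3.Rw)).le hb.a1n) hb.r2n) +
        (197235007149026024439671803256500/51215606243546213782363513567739363)*(mul_nonneg (mul_nonneg ((sub_pos.2 k3.RL)).le hb.r1n) hb.r1n) +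
        (77772903576023304917650559775283/51215606243546213782363513567739363)*(mul_nonneg (mul_nonneg ((sub_pos.2 k3.RL)).le hb.B1n) hb.c12) +
        (190161854837584965183969864593372/51215606243546213782363513567739363)*(mul_nonneg (mul_nonneg hb.qout hb.a1n) hb.pB2) +
        (613514086173179523442194454666248/51215606243546213782363513567739363)*(mul_nonneg (mul_nonneg ((sub_pos.2 k5.Rw)).le hb.B2n) hb.Lp1) +
        (613514086173179523442194454666248/51215606243546213782363513567739363)*(mul_nonneg (mul_nonneg ((sub_pos.2 k4.Tw)).le hb.Lp1) hb.c21) +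
        (613514086173179523442194454666248/51215606243546213782363513567739363)*(mul_nonneg (mul_nonneg ((sub_pos.2 k5.Rw)).le hb.B1n) hb.Lp1) +
        (1127376696176772205148996774336536/153646818730638641347090540703218089)*(mul_nonneg (mul_nonneg ((sub_pos.2 k3.Rw)).le hb.a1n) hb.c21) +
        (170537938417931040805496469292800/51215606243546213782363513567739363)*(mul_nonneg (mul_nonneg ((sub_pos.2 k5.RL)).le hb.a2n) hb.B1n) +
        (163595749241607123280526075041071/51215606243546213782363513567739363)*(mul_nonneg ((mul_pos (sub_pos.2 k3.RL) hb.RB1)).le hb.B1n) +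
        (64780060935732239241541627319184/51215606243546213782363513567739363)*(mul_nonneg (mul_nonneg ((sub_pos.2 k7.RL)).le hb.a2n) hb.pB2) +
        (403206668666042577544401762509800/51215606243546213782363513567739363)*(mul_nonneg (mul_nonneg ((sub_pos.2 k3.RL)).le hb.r1n) hb.Tp1) +
        (336914889744933613298749301741554/51215606243546213782363513567739363)*(mul_nonneg (mul_nonneg ((sub_pos.2 k2.TL)).le hb.a2n) hb.Tp1) +
        (141159461990026150150083275557445/102431212487092427564727027135478726)*(mul_pos (mul_pos (sub_pos.2 k1.TB) hb.TR1) hb.TR1) +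
        (142941419032962888694133080126826/51215606243546213782363513567739363)*(mul_nonneg (mul_nonneg ((sub_pos.2 k3.RL)).le hb.B2n) hb.B2n) +
        (86314664471550832029828843680428/153646818730638641347090540703218089)*(mul_nonneg (mul_nonneg ((sub_pos.2 k5.Rw)).le hb.a1n) hb.r2n))

theorem K63 {c1 c2 a1 a2 B1 B2 r1 r2 : ℝ} (hb : Base c1 c2 a1 a2 B1 B2 r1 r2) (dca : 0 ≤ c2*a1-c1*a2) (k0 : Y1 c1 c2 a1 a2 (2-c1-a1) (2-c2-a2) r1 r2) (k1 : Y1 c1 (2-c2) B1 B2 c1 (2-c2) (r1-c1) (2-c2-r2)) (k2 : Y1 c1 c2 a1 a2 c1 c2 (2-a1-r1) (a2-r2)) : False := by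
  exact lt_irrefl (0:ℝ) (by
      linear_combination
        (157824214227/1219010449369)*(mul_pos (mul_pos (sub_pos.2 k2.Rw) hb.RB1) hb.RB1) +
        (341536447368/1219010449369)*(mul_pos (sub_pos.2 k0.TB) hb.TR1) +
        (1630583316646/1219010449369)*(mul_nonneg (mul_nonneg (hb.TR1).le hb.a1n) hb.r2n) +
        (36418068487/2438020898738)*(sub_pos.2 k1.RL) +
        (872063320469/4876041797476)*(mul_nonneg (mul_nonneg ((sub_pos.2 k1.RL)).le hb.a2n) hb.r1n) +
        (5077539244151/6095052246845)*(mul_nonneg (mul_nonneg (hb.RB1).le hb.a1n) hb.c21) +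
        (1323024155277/2438020898738)*(mul_nonneg ((sub_pos.2 k1.RL)).le hb.c21) +
        (126750280119/2438020898738)*(mul_nonneg ((mul_pos (sub_pos.2 k2.RL) hb.RB1)).le hb.c21) +
        (467051723153/1219010449369)*(mul_nonneg (mul_nonneg (hb.TR1).le hb.r1n) hb.c21) +
        (2447658277729/24380208987380)*(mul_nonneg (mul_nonneg hb.pin hb.a1n) hb.c21) +
        (743969724946/1219010449369)*(mul_nonneg (mul_nonneg ((sub_pos.2 k2.Rw)).le hb.b2n) hb.r1n) +
        (3808624897211/12190104493690)*(mul_nonneg (mul_nonneg ((sub_pos.2 k1.TB)).le hb.a1n) hb.c21) +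
        (227435665118/1219010449369)*(sub_pos.2 k0.TB) +
        (4105050518379/12190104493690)*(mul_nonneg hb.a1n hb.r2n) +
        (466503381163/1219010449369)*(mul_nonneg ((sub_pos.2 k2.Rw)).le hb.pin) +
        (60830086532/1219010449369)*(mul_nonneg (mul_nonneg ((sub_pos.2 k0.TB)).le hb.r2n) hb.c12) +
        (374138532920/1219010449369)*(mul_nonneg (mul_nonneg ((sub_pos.2 k2.RL)).le hb.r2n) hb.c12) +
        (335428647249/2438020898738)*(mul_nonneg ((mul_pos (sub_pos.2 k2.Rw) hb.TR1)).le hb.c12) +
        (2198055240130/1219010449369)*(mul_nonneg (mul_nonneg (hb.TR1).le hb.r1n) hb.r2n) +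
        (136190805283/2438020898738)*(mul_nonneg (mul_nonneg hb.a2n hb.b2n) hb.c21) +
        (41776758843/2438020898738)*(mul_nonneg (mul_nonneg ((sub_pos.2 k0.TB)).le hb.a2n) hb.b2n) +
        (41776758843/2438020898738)*(mul_nonneg (mul_nonneg ((sub_pos.2 k0.Rw)).le hb.a2n) hb.a2n) +
        (386241315564/1219010449369)*(mul_nonneg (mul_nonneg ((sub_pos.2 k2.Rw)).le hb.r1n) hb.c12) +
        (765643815444/1219010449369)*(mul_nonneg (mul_nonneg hb.pin hb.r1n) hb.c21) +
        (98199685169/2438020898738)*(mul_pos (mul_pos (sub_pos.2 k2.Rw) hb.TR1) hb.RB1) +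
        (121660173064/1219010449369)*(mul_nonneg (mul_nonneg ((sub_pos.2 k1.TB)).le hb.a1n) hb.r2n) +
        (243320346128/1219010449369)*(mul_nonneg (mul_nonneg hb.a1n hb.r2n) hb.r2n) +
        (295788451001/1219010449369)*(mul_nonneg (mul_nonneg hb.a1n hb.a1n) hb.r2n) +
        (1124313777393/2438020898738)*(mul_nonneg (mul_nonneg hb.a1n hb.r1n) hb.c21) +
        (272213773586/1219010449369)*(mul_nonneg (mul_nonneg (hb.TR1).le hb.r2n) hb.r2n) +
        (38415430271/1219010449369)*(mul_nonneg (mul_nonneg ((sub_pos.2 k2.RL)).le hb.a2n) hb.b2n) +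
        (2561221811249/3657031348107)*(mul_nonneg (mul_nonneg ((sub_pos.2 k1.RL)).le hb.r1n) hb.c21) +
        (561194425196/1219010449369)*(mul_nonneg (hb.TR1).le hb.c21) +
        (263082566143/2438020898738)*(mul_nonneg ((mul_pos (sub_pos.2 k0.TB) hb.RB1)).le hb.r1n) +
        (27607389153/1219010449369)*(mul_nonneg (mul_nonneg hb.wout hb.Tp1) hb.Lp1) +
        (142170638379/2438020898738)*(mul_nonneg (mul_nonneg hb.wout (hb.RB1).le) hb.c21) +
        (152927762802/1219010449369)*(mul_nonneg ((mul_pos (sub_pos.2 k2.RL) hb.TR1)).le hb.r1n) +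
        (243320346128/1219010449369)*(mul_nonneg hb.pin hb.r2n) +
        (237798358667/2438020898738)*(mul_nonneg ((sub_pos.2 k0.TB)).le hb.a1n) +
        (60830086532/1219010449369)*(mul_nonneg (mul_nonneg ((sub_pos.2 k0.TB)).le hb.r2n) hb.c21) +
        (5455683468881/12190104493690)*(mul_nonneg (mul_nonneg (hb.RB1).le hb.a1n) hb.r2n) +
        (3034834390925/7314062696214)*(mul_nonneg ((mul_pos (sub_pos.2 k1.RL) hb.TR1)).le hb.r1n) +
        (313699342722/1219010449369)*(mul_nonneg ((mul_pos (sub_pos.2 k2.Rw) hb.RB1)).le hb.Tp1) +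
        (1231682067423/4876041797476)*(mul_nonneg ((mul_pos (sub_pos.2 k1.RL) hb.TR1)).le hb.a1n) +
        (157594512683/1219010449369)*(mul_pos (mul_pos (sub_pos.2 k0.TB) hb.RB1) hb.RB1) +
        (117737588495/1219010449369)*(mul_nonneg (mul_nonneg ((sub_pos.2 k0.TB)).le hb.b1n) hb.r1n) +
        (117737588495/1219010449369)*(mul_nonneg (mul_nonneg ((sub_pos.2 k0.TB)).le hb.a1n) hb.r1n) +
        (252353746135/1219010449369)*(mul_nonneg ((mul_pos (sub_pos.2 k2.Rw) hb.TR1)).le hb.r2n) +
        (177034059449/4876041797476)*(mul_nonneg (mul_nonneg hb.wout hb.a1n) hb.c12) +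
        (417146138501/2438020898738)*(mul_nonneg (mul_nonneg ((sub_pos.2 k2.Rw)).le hb.a1n) hb.c12) +
        (201585679792/1219010449369)*(mul_nonneg (mul_nonneg hb.pin hb.c21) hb.c21) +
        (5228423476567/24380208987380)*(mul_nonneg (mul_nonneg hb.a1n hb.A2n) hb.c21) +
        (5228423476567/24380208987380)*(mul_nonneg (mul_nonneg hb.a1n hb.B2n) hb.c21) +
        (82054456880/1219010449369)*(mul_pos (mul_pos (sub_pos.2 k0.TB) hb.TR1) hb.RB1) +
        (223058421314/1219010449369)*(mul_nonneg (mul_nonneg ((sub_pos.2 k2.RL)).le hb.r2n) hb.c21) +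
        (80385789960/1219010449369)*(mul_nonneg (mul_nonneg ((sub_pos.2 k2.RL)).le hb.b1n) hb.Tp1) +
        (111884962241/4876041797476)*(mul_nonneg (mul_nonneg ((sub_pos.2 k2.RL)).le hb.a2n) hb.a2n) +
        (581111471901/9752083594952)*(mul_nonneg (mul_nonneg ((sub_pos.2 k2.RL)).le hb.a1n) hb.c21) +
        (80385789960/1219010449369)*(mul_nonneg (mul_nonneg ((sub_pos.2 k2.RL)).le hb.a1n) hb.r1n) +
        (146072191109/3657031348107)*(mul_nonneg (mul_nonneg ((sub_pos.2 k1.RL)).le hb.b1n) hb.r1n) +
        (20703905510/1219010449369)*(mul_nonneg (mul_nonneg ((sub_pos.2 k0.TB)).le hb.b2n) hb.r1n) +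
        (20703905510/1219010449369)*(mul_nonneg (mul_nonneg ((sub_pos.2 k0.TL)).le hb.a2n) hb.Tp1) +
        (160451778135/4876041797476)*(mul_nonneg (mul_nonneg ((sub_pos.2 k1.RL)).le hb.a1n) hb.a2n) +
        (83184569863/4876041797476)*(mul_nonneg (mul_nonneg ((sub_pos.2 k0.TB)).le hb.a2n) hb.c21) +
        (335428647249/2438020898738)*(mul_nonneg (mul_nonneg hb.wout (hb.TR1).le) (hb.TR1).le) +
        (141089538951/1219010449369)*(mul_nonneg ((sub_pos.2 k1.RL)).le hb.r2n) +
        (272213773586/1219010449369)*(mul_nonneg (mul_nonneg (hb.RB1).le hb.r2n) hb.r2n) +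
        (386986819095/1219010449369)*(mul_nonneg ((mul_pos hb.RB1 hb.RB1)).le hb.c21) +
        (674724632316/1219010449369)*(mul_nonneg (mul_nonneg ((sub_pos.2 k2.Rw)).le hb.a2n) hb.Tp1) +
        (376373263103/1219010449369)*(mul_nonneg (mul_nonneg hb.wout hb.r1n) hb.c21) +
        (75276800261/2438020898738)*(mul_pos (sub_pos.2 k1.RL) hb.TR1) +
        (633385460259/4876041797476)*(mul_nonneg ((mul_pos (sub_pos.2 k1.RL) hb.RB1)).le hb.a2n) +
        (1460235589539/9752083594952)*(mul_nonneg ((mul_pos (sub_pos.2 k2.RL) hb.TR1)).le hb.a2n) +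
        (61170031035/1219010449369)*(mul_nonneg (mul_nonneg ((sub_pos.2 k2.Rw)).le hb.r2n) hb.Lp1) +
        (202178321235/4876041797476)*(mul_nonneg (mul_nonneg ((sub_pos.2 k1.RL)).le hb.a2n) hb.r2n) +
        (101273634529/1219010449369)*(mul_nonneg (mul_nonneg ((sub_pos.2 k2.Rw)).le hb.b2n) hb.r2n) +
        (202916216881/4876041797476)*(mul_nonneg (mul_nonneg ((sub_pos.2 k2.RL)).le hb.a2n) hb.r2n) +
        (61170031035/1219010449369)*(mul_nonneg (mul_nonneg ((sub_pos.2 k2.RL)).le hb.r1n) hb.r2n) +
        (330207849907/1219010449369)*(mul_nonneg (mul_nonneg hb.a1n hb.r1n) hb.r2n) +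
        (1100643807597/9752083594952)*(mul_nonneg ((mul_pos (sub_pos.2 k2.RL) hb.RB1)).le hb.a2n) +
        (41142024893/1219010449369)*(mul_nonneg (mul_nonneg hb.a2n hb.r2n) hb.Tp1) +
        (174541831857/2438020898738)*(mul_nonneg hb.wout hb.c12) +
        (295235752269/2438020898738)*(mul_pos (mul_pos (sub_pos.2 k2.RL) hb.TR1) hb.TR1) +
        (305460014983/4876041797476)*(mul_nonneg (mul_nonneg ((sub_pos.2 k1.RL)).le hb.a2n) hb.A2n) +
        (305460014983/4876041797476)*(mul_nonneg (mul_nonneg ((sub_pos.2 k1.RL)).le hb.a2n) hb.B2n) +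
        (35071285863/1219010449369)*(mul_nonneg (mul_nonneg (hb.RB1).le hb.a2n) hb.r2n) +
        (30382149609/1219010449369)*(mul_nonneg (mul_nonneg hb.wout hb.a1n) hb.r2n) +
        (101011136372/1219010449369)*(mul_nonneg (mul_nonneg (hb.TR1).le hb.r2n) hb.c21) +
        (28995046167/1219010449369)*(mul_nonneg ((mul_pos (sub_pos.2 k0.TL) hb.RB1)).le hb.b1n) +
        (28995046167/1219010449369)*(mul_nonneg (mul_nonneg ((sub_pos.2 k1.RL)).le hb.a1n) hb.a1n) +
        (408994428785/2438020898738)*(mul_nonneg (mul_nonneg hb.a1n hb.a1n) hb.c21) +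
        (57990092334/1219010449369)*(mul_nonneg (mul_nonneg hb.wout hb.a1n) hb.Tp1) +
        (209322214759/7314062696214)*(mul_nonneg (mul_nonneg ((sub_pos.2 k1.RL)).le hb.a1n) hb.r1n) +
        (123671407885/4876041797476)*(mul_nonneg ((mul_pos (sub_pos.2 k2.RL) hb.TR1)).le hb.a1n) +
        (21072853333/2438020898738)*(mul_nonneg (mul_nonneg ((sub_pos.2 k1.RL)).le hb.a2n) hb.a2n) +
        (27607942725/2438020898738)*(mul_nonneg (mul_nonneg ((sub_pos.2 k2.Rw)).le hb.a1n) hb.b2n) +
        (27607942725/2438020898738)*(mul_nonneg (mul_nonneg ((sub_pos.2 k0.TB)).le hb.a1n) hb.b2n) +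
        (27607942725/2438020898738)*(mul_nonneg (mul_nonneg ((sub_pos.2 k0.RL)).le hb.a1n) hb.a2n) +
        (27607942725/2438020898738)*(mul_nonneg (mul_nonneg hb.wout hb.a2n) hb.b1n) +
        (22789218468/1219010449369)*(mul_nonneg (mul_nonneg hb.a1n hb.a2n) hb.r2n) +
        (19310614387/1219010449369)*(mul_nonneg (mul_nonneg hb.a1n hb.a2n) hb.c21) +
        (13063991103/2438020898738)*(mul_nonneg (mul_nonneg hb.wout hb.a2n) hb.c21) +
        (35440233686/1219010449369)*(mul_nonneg (mul_nonneg hb.a2n hb.A2n) hb.r2n) +
        (35440233686/1219010449369)*(mul_nonneg (mul_nonneg hb.a2n hb.B2n) hb.r2n) +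
        (34321027697/1219010449369)*(mul_nonneg ((mul_pos hb.TR1 hb.RB1)).le hb.c21) +
        (12866515733/1219010449369)*(mul_nonneg (mul_nonneg hb.wout (hb.TR1).le) hb.c21) +
        (13897804377/4876041797476)*(mul_nonneg (mul_nonneg ((sub_pos.2 k2.RL)).le hb.a2n) hb.r1n) +
        (6535089392/1219010449369)*(mul_nonneg (mul_nonneg hb.wout (hb.TR1).le) hb.a2n))

theorem K56 {c1 c2 a1 a2 B1 B2 r1 r2 : ℝ} (hb : Base c1 c2 a1 a2 B1 B2 r1 r2) (dca : 0 ≤ c2*a1-c1*a2) (k0 : Y1 c1 c2 a1 a2 (2-c1-a1) (2-c2-a2) r1 r2) (k1 : Y1 c1 (2-c2) B1 B2 (2-c1-B1) (2-(2-c2)-B2) (-(2-a1-r1)) (a2-r2)) (k2 : Y1 c1 c2 a1 a2 a1 a2 B1 B2) (k3 : Y1 c1 (2-c2) B1 B2 B1 B2 (2-c1-a1) (2-c2-a2)) (o0 : 0 ≤ -(2-a1-r1)) : False := by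
  rcases le_total 0 (c2-1) with s | s
  · linarith [(mul_nonneg (mul_nonneg hb.qout (hb.RB1).le) hb.r2n),
    (mul_nonneg (mul_nonneg hb.A1n hb.B1n) hb.r2n),
    (mul_nonneg (mul_nonneg hb.A2n hb.B1n) hb.Lp1),
    (mul_pos (sub_pos.2 k1.TB) (k2.pos hb.a2n)),
    (mul_nonneg (mul_nonneg hb.qout hb.a2n) o0),
    (mul_nonneg (mul_nonneg hb.qout hb.a1n) hb.r2n),
    (mul_nonneg (mul_nonneg hb.qout hb.A2n) hb.r2n),
    (mul_nonneg (mul_nonneg hb.qout hb.B2n) hb.r2n),
    (mul_nonneg ((mul_pos (sub_pos.2 k1.TB) hb.RB1)).le hb.B2n),
    (mul_nonneg (mul_nonneg hb.qout hb.a1n) hb.b2n),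
    (mul_nonneg ((mul_pos (sub_pos.2 k1.TB) hb.TR1)).le hb.B2n),
    (mul_pos (sub_pos.2 k3.Tw) (k1.pos hb.A2n_)),
    (mul_nonneg (mul_nonneg hb.A2n hb.B2n) hb.Lp1),
    (mul_nonneg ((sub_pos.2 k2.RL)).le hb.qout),
    (mul_nonneg hb.qout hb.Lp1),
    (mul_nonneg (mul_nonneg hb.qout (hb.TR1).le) hb.B2n),
    (mul_nonneg ((mul_pos (sub_pos.2 k1.TB) hb.TR1)).le hb.B1n),
    (mul_nonneg ((mul_pos (sub_pos.2 k3.Tw) hb.TR1)).le hb.A2n),
    (mul_nonneg (mul_nonneg hb.A2n hb.B1n) hb.r2n),
    (mul_nonneg ((sub_pos.2 k0.TB)).le hb.qout),
    (mul_nonneg (mul_nonneg hb.qout hb.a1n) s),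
    (mul_nonneg (mul_nonneg ((sub_pos.2 k1.TB)).le hb.B1n) hb.c21),
    (mul_nonneg (mul_nonneg hb.qout (hb.RB1).le) hb.B2n),
    (mul_nonneg ((sub_pos.2 k2.TL)).le hb.qout),
    (mul_nonneg ((mul_pos (sub_pos.2 k3.Tw) hb.RB1)).le hb.A2n),
    (mul_nonneg (mul_nonneg ((sub_pos.2 k3.Tw)).le hb.A1n) s),
    (mul_nonneg (mul_nonneg hb.qout hb.A1n) hb.r2n),
    (mul_nonneg (mul_nonneg ((sub_pos.2 k1.Rw)).le hb.B2n) hb.Lp1),
    (mul_nonneg (mul_nonneg ((sub_pos.2 k1.TB)).le hb.B2n) hb.r1n),
    (mul_nonneg ((sub_pos.2 k3.Tw)).le hb.A1n),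
    (mul_nonneg (mul_nonneg hb.qout hb.B1n) s),
    (mul_nonneg (mul_nonneg hb.qout hb.A2n) hb.c21),
    (mul_nonneg (mul_nonneg hb.qout hb.b2n) hb.c21),
    (mul_nonneg (mul_nonneg hb.qout hb.a2n) s),
    (mul_nonneg (mul_nonneg hb.qout (hb.RB1).le) hb.Lp1),
    (mul_nonneg (mul_nonneg hb.qout (hb.TR1).le) o0),
    (mul_nonneg (mul_nonneg hb.qout hb.a1n) hb.c21),
    (mul_nonneg (mul_nonneg hb.qout hb.B1n) hb.r2n),
    (mul_nonneg (mul_nonneg hb.qout hb.b2n) hb.Lp1),
    (mul_nonneg hb.qout hb.qout),
    (mul_nonneg ((sub_pos.2 k3.Tw)).le hb.A2n)]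
  · linarith [(mul_nonneg (mul_nonneg hb.A1n hb.B1n) hb.r2n),
    (mul_nonneg (mul_nonneg hb.qout hb.B2n) hb.r2n),
    (mul_nonneg ((mul_pos (sub_pos.2 k1.TL) hb.TR1)).le hb.B1n),
    (mul_nonneg (mul_nonneg hb.qout (hb.TR1).le) hb.B2n),
    (mul_nonneg (mul_nonneg hb.A2n hb.B1n) hb.Lp1),
    (mul_nonneg (mul_nonneg hb.qout hb.B1n) hb.c21),
    (mul_nonneg (mul_nonneg hb.A2n hb.B2n) hb.r2n),
    (mul_pos (sub_pos.2 k3.Tw) (k1.pos hb.A2n_)),
    (mul_nonneg (mul_nonneg hb.qout (hb.RB1).le) hb.r2n),
    (mul_nonneg (mul_nonneg hb.A2n hb.B2n) hb.Lp1),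
    (mul_nonneg (mul_nonneg hb.qout hb.a1n) hb.r2n),
    (mul_nonneg ((mul_pos (sub_pos.2 k1.TB) hb.RB1)).le hb.B2n),
    (mul_pos (sub_pos.2 k1.TB) (k2.pos hb.a2n)),
    (mul_nonneg ((sub_pos.2 k2.RL)).le hb.qout),
    (mul_nonneg (mul_nonneg hb.qout hb.r2n) hb.Lp1),
    (mul_nonneg (mul_nonneg ((sub_pos.2 k1.TB)).le hb.A2n) hb.B2n),
    (mul_nonneg (mul_nonneg hb.A2n hb.B1n) hb.r2n),
    (mul_nonneg (mul_nonneg ((sub_pos.2 k1.TB)).le hb.B1n) hb.c21),
    (mul_nonneg ((sub_pos.2 k0.TB)).le hb.qout),
    (mul_nonneg (mul_nonneg ((sub_pos.2 k1.TB)).le hb.B2n) hb.B2n),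
    (mul_nonneg (mul_nonneg hb.qout hb.A2n) hb.c21),
    (mul_nonneg (mul_nonneg hb.qout (hb.TR1).le) hb.B1n),
    (mul_nonneg (mul_nonneg hb.qout hb.b2n) hb.Lp1),
    (mul_nonneg ((mul_pos (sub_pos.2 k3.Tw) hb.TR1)).le hb.A2n),
    (mul_nonneg (mul_nonneg ((sub_pos.2 k3.Tw)).le hb.A1n) hb.c21),
    (mul_nonneg (mul_nonneg ((sub_pos.2 k1.TB)).le hb.B2n) hb.pB2),
    (mul_nonneg (mul_nonneg ((sub_pos.2 k1.Rw)).le hb.B2n) hb.r2n),
    (mul_nonneg (mul_nonneg hb.qout (hb.TR1).le) hb.r2n),
    (mul_nonneg hb.qout hb.qout),
    (mul_nonneg ((mul_pos (sub_pos.2 k3.Tw) hb.TR1)).le hb.A1n),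
    (mul_nonneg ((mul_pos (sub_pos.2 k3.Tw) hb.RB1)).le hb.A2n),
    (mul_nonneg (mul_nonneg hb.qout hb.r1n) hb.r2n),
    (mul_nonneg (mul_nonneg ((sub_pos.2 k3.Tw)).le hb.A1n) hb.A1n),
    (mul_nonneg (mul_nonneg ((sub_pos.2 k3.Tw)).le hb.A1n) hb.B1n),
    (mul_nonneg (mul_nonneg ((sub_pos.2 k3.Tw)).le hb.A1n) hb.A2n),
    (mul_nonneg (mul_nonneg ((sub_pos.2 k3.Tw)).le hb.A2n) hb.B1n),
    (mul_nonneg (mul_nonneg hb.qout hb.c21) (neg_nonneg.2 s))]

theorem K27 {c1 c2 a1 a2 B1 B2 r1 r2 : ℝ} (hb : Base c1 c2 a1 a2 B1 B2 r1 r2) (dca : 0 ≤ c2*a1-c1*a2) (k0 : Y1 c1 (2-c2) B1 B2 (2-c1-B1) (2-(2-c2)-B2) (2-r1) r2) (k1 : Y1 c1 (2-c2) B1 B2 B1 B2 (r1-c1) (2-c2-r2)) : False := by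
  linarith [(mul_pos (sub_pos.2 k0.TB) (k1.pos hb.B2n)),
    (mul_nonneg (mul_nonneg hb.qout hb.B1n) hb.Lp1),
    (mul_nonneg hb.qout hb.pin),
    (mul_nonneg hb.qout hb.qout),
    (mul_nonneg (mul_nonneg hb.qout hb.B1n) hb.r1n),
    (mul_nonneg ((sub_pos.2 k1.Tw)).le hb.qout),
    (mul_nonneg (mul_nonneg ((sub_pos.2 k1.Tw)).le hb.A1n) hb.pB2),
    (mul_nonneg (mul_nonneg ((sub_pos.2 k1.Tw)).le hb.A2n) hb.Tp1)]

theorem K26 {c1 c2 a1 a2 B1 B2 r1 r2 : ℝ} (hb : Base c1 c2 a1 a2 B1 B2 r1 r2) (dca : 0 ≤ c2*a1-c1*a2) (k0 : Y1 c1 (2-c2) B1 B2 (2-c1-B1) (2-(2-c2)-B2) (2-r1) r2) (k1 : Y1 c1 (2-c2) B1 B2 (2-c1-B1) (2-(2-c2)-B2) (-(2-a1-r1)) (a2-r2)) : False := by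
  linarith [(mul_nonneg hb.qout hb.b2n),
    (mul_nonneg hb.qout (hb.pc2).le),
    (sub_pos.2 k0.TB),
    (mul_nonneg hb.b2n hb.A1n),
    (mul_nonneg hb.qout hb.a2n),
    (mul_nonneg hb.b1n hb.A2n),
    (sub_pos.2 k1.TB)]

theorem K18 {c1 c2 a1 a2 B1 B2 r1 r2 : ℝ} (hb : Base c1 c2 a1 a2 B1 B2 r1 r2) (dca : 0 ≤ c2*a1-c1*a2) (k0 : Y1 c1 (2-c2) B1 B2 (2-c1-B1) (2-(2-c2)-B2) (r1-c1) (2-c2-r2)) (k1 : Y1 c1 (2-c2) B1 B2 (2-c1-B1) (2-(2-c2)-B2) (2-a1-r1) (-(a2-r2))) : False := by
  linarith [(sub_pos.2 k0.TL),
    (mul_nonneg hb.a2n hb.A1n),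
    (mul_nonneg hb.a1n hb.A2n),
    (sub_pos.2 k1.TB),
    hb.qout]

theorem K12 {c1 c2 a1 a2 B1 B2 r1 r2 : ℝ} (hb : Base c1 c2 a1 a2 B1 B2 r1 r2) (dca : 0 ≤ c2*a1-c1*a2) (k0 : Y1 c1 (2-c2) B1 B2 c1 (2-c2) (2-r1) r2) (k1 : Y1 c1 (2-c2) B1 B2 c1 (2-c2) (r1-c1) (2-c2-r2)) : False := by
  linarith [(sub_pos.2 k0.RL),
    (mul_pos (sub_pos.2 k1.RL) hb.pc2),
    (mul_pos (sub_pos.2 k1.RL) hb.pc1),
    (mul_pos (sub_pos.2 k0.RL) hb.TR1)]

theorem K1 {c1 c2 a1 a2 B1 B2 r1 r2 : ℝ} (hb : Base c1 c2 a1 a2 B1 B2 r1 r2) (dca : 0 ≤ c2*a1-c1*a2) (k0 : Y1 c1 (2-c2) B1 B2 B1 B2 a1 a2) (k1 : Y1 c1 (2-c2) B1 B2 B1 B2 (2-c1-a1) (2-c2-a2)) : False := by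
  linarith [(sub_pos.2 k1.Tw),
    (sub_pos.2 k0.Tw)]

end H407R3.Seven
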