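import Pool.Agent.H407R3.Seven.Reduce

namespace H407R3.Seven

/-- Among seven distinct points of a two-dimensional real normed space the largest distance is at
least twice the smallest one (Joos and Langi 2007; not a hand-in, kept as a helper). -/
theorem seven_points {E : Type} [NormedAddCommGroup E] [NormedSpace ℝ E]
    (hE : Module.finrank ℝ E = 2) (p : Fin 7 → E) (hp : Function.Injective p) :
    ∃ i j k l : Fin 7, k ≠ l ∧ 2 * dist (p k) (p l) ≤ dist (p i) (p j) := by
  by_contra hcon
  push Not at hcon
  exact reduction hE p hp hcon

end H407R3.Seven
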