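import Pool.Agent.H407R3.Seven.Bases
namespace H407R3.Seven

theorem ud_core0 {c1 c2 x1 x2 r1 r2 : ℝ} (hb : BaseUD c1 c2 x1 x2 r1 r2) (k0 : c2 < (2-c1-x1)*c2+(c2-x2)*c1) (k1 : c2 < x1*c2+x2*c1) : False := by
  linarith [(sub_pos.2 k1),
    (sub_pos.2 k0)]

theorem ud_core1 {c1 c2 x1 x2 r1 r2 : ℝ} (hb : BaseUD c1 c2 x1 x2 r1 r2) (k0 : 2-c2 < (2-r1)*(2-c2)+r2*c1) (k1 : 2-c2 < (r1-c1)*(2-c2)+(2-c2-r2)*c1) : False := by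
  linarith [(sub_pos.2 k0),
    (sub_pos.2 k1)]

theorem ud_core2 {c1 c2 x1 x2 r1 r2 : ℝ} (hb : BaseUD c1 c2 x1 x2 r1 r2) (k0 : 2-c1 < (r1-c1)*(2-(2-c2))+(2-c2-r2)*(2-c1)) (k1 : c2 < x1*c2+x2*c1) (k2 : 2-c2 < (2-r1-x1)*(2-c2)+(r2+x2)*c1) : False := by
  linarith [(sub_pos.2 k2),
    (mul_nonneg hb.qin (hb.RB1).le),
    (mul_nonneg ((sub_pos.2 k2)).le hb.c21),
    (mul_nonneg (mul_nonneg hb.c21 hb.c12) hb.Tp1),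
    (mul_nonneg (mul_nonneg ((sub_pos.2 k2)).le hb.c21) hb.c21),
    (mul_pos (sub_pos.2 k2) hb.TR1),
    (mul_pos (sub_pos.2 k0) hb.TR1),
    (mul_nonneg (mul_nonneg ((sub_pos.2 k1)).le hb.c12) hb.Lp1),
    (mul_nonneg (mul_nonneg (hb.TR1).le hb.c12) hb.Tp1),
    (mul_nonneg (mul_nonneg ((sub_pos.2 k1)).le hb.c12) hb.Tp1),
    (mul_nonneg hb.c12 hb.Tp1),
    (mul_pos (sub_pos.2 k0) hb.RB1),
    (mul_nonneg ((mul_pos (sub_pos.2 k0) hb.RB1)).le hb.c21),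
    (mul_nonneg (mul_nonneg hb.qin (hb.TR1).le) hb.c21),
    (mul_nonneg hb.qin (hb.TR1).le),
    (mul_nonneg (mul_nonneg hb.qin (hb.RB1).le) hb.c21),
    (mul_nonneg (mul_nonneg hb.qin (hb.TR1).le) hb.c12),
    (mul_nonneg ((mul_pos (sub_pos.2 k2) hb.TR1)).le hb.c12),
    (mul_pos (mul_pos (sub_pos.2 k0) hb.TR1) hb.TR1)]

theorem ud_core3 {c1 c2 x1 x2 r1 r2 : ℝ} (hb : BaseUD c1 c2 x1 x2 r1 r2) (k0 : 2-c1 < (r1-c1)*(2-(2-c2))+(2-c2-r2)*(2-c1)) (k1 : 2-c1 < (2-r1-x1)*(2-(2-c2))+(r2+x2)*(2-c1)) : False := by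
  linarith [(sub_pos.2 k0),
    (sub_pos.2 k1),
    hb.qin]

theorem ud_core4 {c1 c2 x1 x2 r1 r2 : ℝ} (hb : BaseUD c1 c2 x1 x2 r1 r2) (k0 : 2-c2 < (2-r1)*(2-c2)+r2*c1) (k1 : 2-c1 < (2-c1-x1)*(2-c2)+(c2-x2)*(2-c1)) (k2 : c2 < (-(2-r1-x1))*c2+(r2+x2)*c1) : False := by
  linarith [(mul_pos (sub_pos.2 k1) hb.TR1),
    (mul_pos (sub_pos.2 k2) (lt_trans hb.pc2 k2)),
    (mul_nonneg (mul_nonneg (hb.RB1).le hb.c21) hb.X1n),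
    (mul_nonneg (mul_nonneg ((sub_pos.2 k2)).le hb.c12) hb.r2n),
    (mul_nonneg (mul_nonneg hb.pin (hb.TR1).le) hb.x1n),
    (mul_nonneg (mul_nonneg ((sub_pos.2 k2)).le hb.c12) hb.x1n),
    (mul_nonneg ((mul_pos (sub_pos.2 k1) hb.TR1)).le hb.x1n),
    (mul_nonneg (mul_nonneg hb.c21 hb.Tp1) hb.X1n),
    (mul_nonneg (mul_nonneg hb.c21 hb.x1n) hb.X1n),
    (mul_nonneg (mul_nonneg hb.pin (hb.TR1).le) hb.r2n),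
    (mul_pos (sub_pos.2 k2) hb.RB1),
    (mul_nonneg (mul_nonneg ((sub_pos.2 k0)).le hb.c21) hb.x1n),
    (mul_nonneg (mul_nonneg ((sub_pos.2 k0)).le hb.c21) hb.c12),
    (mul_nonneg ((mul_pos (sub_pos.2 k2) hb.TR1)).le hb.c21),
    (mul_nonneg (mul_nonneg ((sub_pos.2 k0)).le hb.c21) hb.X2n),
    (mul_pos (mul_pos (sub_pos.2 k1) hb.TR1) hb.RB1),
    (mul_pos (sub_pos.2 k1) hb.RB1),
    (mul_nonneg ((mul_pos (sub_pos.2 k1) hb.RB1)).le hb.x1n),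
    (mul_nonneg ((mul_pos (sub_pos.2 k1) hb.RB1)).le hb.x2n),
    (mul_nonneg (mul_nonneg ((sub_pos.2 k2)).le hb.c12) hb.x2n),
    (mul_nonneg hb.pin (hb.TR1).le),
    (mul_nonneg (mul_nonneg hb.pin (hb.RB1).le) hb.x1n),
    (mul_nonneg hb.pin (hb.RB1).le),
    (mul_nonneg ((sub_pos.2 k2)).le hb.c12),
    (mul_nonneg (mul_nonneg ((sub_pos.2 k2)).le hb.x1n) hb.X2n),
    (mul_nonneg (mul_nonneg ((sub_pos.2 k2)).le hb.x1n) hb.x2n),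
    (mul_nonneg (mul_nonneg ((sub_pos.2 k0)).le hb.c21) hb.x2n),
    (mul_nonneg ((mul_pos (sub_pos.2 k2) hb.RB1)).le hb.c21),
    (mul_nonneg (mul_nonneg hb.c21 hb.c12) hb.X1n),
    (mul_pos (mul_pos (sub_pos.2 k2) hb.TR1) hb.TR1),
    (mul_nonneg ((mul_pos (sub_pos.2 k2) hb.RB1)).le hb.Tp1),
    (mul_pos (mul_pos (sub_pos.2 k1) hb.RB1) hb.RB1),
    (mul_nonneg (mul_nonneg ((sub_pos.2 k2)).le hb.c21) hb.x2n),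
    (mul_nonneg (mul_nonneg ((sub_pos.2 k2)).le hb.c12) hb.Tp1),
    (mul_nonneg ((mul_pos (sub_pos.2 k1) hb.TR1)).le hb.c12),
    (mul_nonneg (mul_nonneg hb.pin (hb.TR1).le) hb.c12),
    (mul_nonneg (mul_nonneg hb.pin (hb.TR1).le) hb.Tp1),
    (mul_nonneg (mul_nonneg ((sub_pos.2 k0)).le hb.c21) hb.Tp1),
    (mul_nonneg ((sub_pos.2 k2)).le hb.r2n),
    (mul_nonneg (mul_nonneg hb.pin (hb.RB1).le) hb.r2n),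
    (mul_nonneg (mul_nonneg ((sub_pos.2 k0)).le hb.c21) hb.r2n),
    (mul_nonneg (mul_nonneg hb.pin (hb.TR1).le) hb.c21),
    (mul_nonneg (mul_nonneg hb.pin (hb.RB1).le) hb.Tp1),
    (mul_nonneg ((mul_pos (sub_pos.2 k2) hb.RB1)).le hb.r2n),
    (mul_nonneg (mul_nonneg hb.pin (hb.RB1).le) hb.x2n),
    (mul_nonneg (mul_nonneg hb.pin (hb.TR1).le) hb.x2n),
    (mul_nonneg ((sub_pos.2 k2)).le hb.Tp1),
    (mul_nonneg ((mul_pos (sub_pos.2 k1) hb.TR1)).le hb.Tp1),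
    (mul_nonneg (mul_nonneg hb.c21 hb.r2n) hb.X1n),
    (mul_nonneg ((mul_pos (sub_pos.2 k1) hb.RB1)).le hb.Lp1),
    (mul_nonneg ((mul_pos (sub_pos.2 k1) hb.RB1)).le hb.pB2),
    (mul_nonneg (mul_nonneg hb.c21 hb.x2n) hb.X1n),
    (mul_nonneg ((mul_pos (sub_pos.2 k1) hb.TR1)).le hb.x2n),
    (mul_nonneg ((sub_pos.2 k2)).le hb.x2n)]

theorem ud_core5 {c1 c2 x1 x2 r1 r2 : ℝ} (hb : BaseUD c1 c2 x1 x2 r1 r2) (k0 : 2-c1 < (2-c1-x1)*(2-c2)+(c2-x2)*(2-c1)) (k1 : 2-c1 < (-(2-r1-x1))*(2-c2)+(r2+x2)*(2-c1)) : False := by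
  linarith [(sub_pos.2 k0),
    (sub_pos.2 k1),
    (mul_nonneg hb.pin hb.Lp1),
    (mul_nonneg hb.pin hb.Tp1),
    (mul_nonneg hb.pin (hb.pc1).le)]

theorem ud_core6 {c1 c2 x1 x2 r1 r2 : ℝ} (hb : BaseUD c1 c2 x1 x2 r1 r2) (k0 : 2-c1 < (2-r1)*(2-(2-c2))+r2*(2-c1)) (k1 : 2-c2 < (r1-c1)*(2-c2)+(2-c2-r2)*c1) : False := by
  linarith [(sub_pos.2 k1),
    (mul_pos (sub_pos.2 k0) hb.RB1),
    (sub_pos.2 k0),
    (mul_nonneg ((sub_pos.2 k1)).le hb.c21),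
    (mul_nonneg ((sub_pos.2 k1)).le hb.c12),
    (mul_nonneg hb.pin hb.c12),
    (mul_nonneg ((sub_pos.2 k0)).le hb.c12)]

theorem ud_core7 {c1 c2 x1 x2 r1 r2 : ℝ} (hb : BaseUD c1 c2 x1 x2 r1 r2) (k0 : 2-c1 < (2-r1)*(2-(2-c2))+r2*(2-c1)) (k1 : 2-c1 < (r1-c1)*(2-(2-c2))+(2-c2-r2)*(2-c1)) : False := by
  linarith [(sub_pos.2 k0),
    (sub_pos.2 k1)]

theorem ud_core8 {c1 c2 x1 x2 r1 r2 : ℝ} (hb : BaseUD c1 c2 x1 x2 r1 r2) (k0 : c2 < (2-c1-x1)*c2+(c2-x2)*c1) (k1 : 2-c1 < x1*(2-c2)+x2*(2-c1)) : False := by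
  linarith [(sub_pos.2 k0),
    (mul_pos (sub_pos.2 k1) hb.pc2),
    (mul_nonneg ((sub_pos.2 k0)).le hb.c12),
    (mul_nonneg hb.qin hb.c21),
    (mul_nonneg ((sub_pos.2 k0)).le hb.c21)]

theorem ud_core9 {c1 c2 x1 x2 r1 r2 : ℝ} (hb : BaseUD c1 c2 x1 x2 r1 r2) (k0 : 2-c1 < (2-c1-x1)*(2-c2)+(c2-x2)*(2-c1)) (k1 : 2-c1 < x1*(2-c2)+x2*(2-c1)) : False := by
  linarith [(sub_pos.2 k1),
    (sub_pos.2 k0)]

theorem ud_arith {c1 c2 x1 x2 r1 r2 : ℝ} (hb : BaseUD c1 c2 x1 x2 r1 r2) (h_qL : D0 c1 c2 x1 x2) (h_Tq : D0 c1 c2 (2-c1-x1) (c2-x2)) (h_Lp : D0 c1 (2-c2) (2-r1) r2) (h_pB : D0 c1 (2-c2) (r1-c1) (2-c2-r2)) (h_qp : (0 ≤ 2-r1-x1 ∧ D0 c1 (2-c2) (2-r1-x1) (r2+x2)) ∨ (0 ≤ -(2-r1-x1) ∧ D0 c1 c2 (-(2-r1-x1)) (r2+x2))) : False := by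
  rcases h_qL with hqL | hqL
  · rcases h_Tq with hTq | hTq
    · exact ud_core0 hb hTq hqL
    · rcases h_Lp with hLp | hLp
      · rcases h_pB with hpB | hpB
        · exact ud_core1 hb hLp hpB
        · rcases h_qp with ⟨oqp_qpW, hqp | hqp⟩ | ⟨oqp_qpE, hqp | hqp⟩
          · exact ud_core2 hb hpB hqL hqp
          · exact ud_core3 hb hpB hqp
          · exact ud_core4 hb hLp hTq hqp
          · exact ud_core5 hb hTq hqp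
      · rcases h_pB with hpB | hpB
        · exact ud_core6 hb hLp hpB
        · exact ud_core7 hb hLp hpB
  · rcases h_Tq with hTq | hTq
    · exact ud_core8 hb hTq hqL
    · exact ud_core9 hb hTq hqL
theorem dd_core0 {c1 c2 x1 x2 r1 r2 : ℝ} (hb : BaseDd c1 c2 x1 x2 r1 r2) (k0 : 2-c2 < (2-r1)*(2-c2)+r2*c1) (k1 : 2-c2 < (r1-c1)*(2-c2)+(2-c2-r2)*c1) : False := by
  linarith [(sub_pos.2 k0),
    (sub_pos.2 k1)]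

theorem dd_core1 {c1 c2 x1 x2 r1 r2 : ℝ} (hb : BaseDd c1 c2 x1 x2 r1 r2) (k0 : c2 < r1*c2+r2*c1) (k1 : c2 < (x1-r1)*c2+(x2-r2)*c1) : False := by
  linarith [(sub_pos.2 k0),
    (sub_pos.2 k1),
    (mul_nonneg hb.c21 hb.x2n),
    (mul_nonneg hb.xin (hb.TR1).le),
    (mul_nonneg hb.c21 hb.Lx1),
    (mul_nonneg ((sub_pos.2 k1)).le hb.c12),
    (mul_nonneg ((sub_pos.2 k0)).le hb.c12),
    hb.xin]

theorem dd_core2 {c1 c2 x1 x2 r1 r2 : ℝ} (hb : BaseDd c1 c2 x1 x2 r1 r2) (k0 : c2 < r1*c2+r2*c1) (k1 : 2-c1 < (x1-r1)*(2-c2)+(x2-r2)*(2-c1)) : False := by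
  linarith [(sub_pos.2 k0),
    (mul_nonneg hb.c21 hb.r2n),
    (mul_pos (sub_pos.2 k1) hb.pc2),
    (mul_nonneg hb.c21 hb.c21),
    (mul_nonneg ((sub_pos.2 k0)).le hb.c12),
    (mul_nonneg hb.xin (hb.pc2).le),
    (mul_nonneg (hb.TR1).le hb.c21),
    (mul_nonneg hb.c21 hb.X2n),
    (mul_pos (sub_pos.2 k0) hb.RB1),
    (mul_nonneg hb.c21 hb.x2n)]

theorem dd_core3 {c1 c2 x1 x2 r1 r2 : ℝ} (hb : BaseDd c1 c2 x1 x2 r1 r2) (k0 : 2-c1 < (r1-c1)*(2-(2-c2))+(2-c2-r2)*(2-c1)) (k1 : 2-c1 < (x1-r1)*(2-(2-c2))+(r2-x2)*(2-c1)) : False := by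
  linarith [(sub_pos.2 k0),
    (sub_pos.2 k1),
    (mul_nonneg (hb.pc2).le hb.Lx1),
    (mul_nonneg hb.c12 hb.x2n),
    (mul_nonneg (hb.pc2).le hb.x2n)]

theorem dd_core4 {c1 c2 x1 x2 r1 r2 : ℝ} (hb : BaseDd c1 c2 x1 x2 r1 r2) (k0 : 2-c2 < (2-x1)*(2-c2)+x2*c1) (k1 : 2-c2 < (x1-r1)*(2-c2)+(r2-x2)*c1) : False := by
  linarith [(sub_pos.2 k0),
    (sub_pos.2 k1),
    (mul_nonneg (hb.pC2).le hb.Tp1),
    (mul_nonneg (hb.pc1).le hb.pB2)]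

theorem dd_core5 {c1 c2 x1 x2 r1 r2 : ℝ} (hb : BaseDd c1 c2 x1 x2 r1 r2) (k0 : 2-c1 < (2-x1)*(2-(2-c2))+x2*(2-c1)) (k1 : 2-c2 < (x1-r1)*(2-c2)+(r2-x2)*c1) : False := by
  linarith [(sub_pos.2 k0),
    (sub_pos.2 k1),
    (mul_nonneg hb.Tp1 hb.X2n),
    (mul_nonneg hb.Tp1 hb.x2n),
    (mul_pos (sub_pos.2 k0) hb.RB1),
    (mul_nonneg hb.pin (hb.RB1).le),
    (mul_nonneg ((sub_pos.2 k1)).le hb.c21),
    (mul_nonneg ((sub_pos.2 k0)).le hb.c12),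
    (mul_nonneg hb.xin hb.c12),
    (mul_nonneg hb.pin (hb.TR1).le),
    (mul_nonneg ((sub_pos.2 k1)).le hb.c12)]

theorem dd_core6 {c1 c2 x1 x2 r1 r2 : ℝ} (hb : BaseDd c1 c2 x1 x2 r1 r2) (k0 : 2-c1 < r1*(2-c2)+r2*(2-c1)) (k1 : c2 < (x1-r1)*c2+(x2-r2)*c1) (o0 : 0 ≤ x2-r2) : False := by
  linarith [(sub_pos.2 k1),
    (mul_pos (sub_pos.2 k0) hb.pc2),
    (mul_nonneg hb.c21 o0),
    (mul_pos (sub_pos.2 k1) hb.RB1),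
    (mul_nonneg hb.xin (hb.pc2).le),
    (mul_nonneg ((sub_pos.2 k1)).le hb.c12),
    (mul_nonneg hb.c21 hb.c21),
    (mul_nonneg hb.c21 (hb.pc1).le)]

theorem dd_core7 {c1 c2 x1 x2 r1 r2 : ℝ} (hb : BaseDd c1 c2 x1 x2 r1 r2) (k0 : 2-c1 < r1*(2-c2)+r2*(2-c1)) (k1 : 2-c1 < (x1-r1)*(2-c2)+(x2-r2)*(2-c1)) : False := by
  linarith [(sub_pos.2 k0),
    (sub_pos.2 k1),
    (mul_nonneg hb.xin hb.X2n),
    (mul_nonneg hb.c21 (hb.pc2).le),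
    (mul_nonneg hb.xin hb.x2n),
    (mul_nonneg hb.c21 (hb.pc1).le),
    (mul_nonneg hb.xin (hb.pc2).le),
    (mul_nonneg hb.c21 hb.c12)]

theorem dd_core8 {c1 c2 x1 x2 r1 r2 : ℝ} (hb : BaseDd c1 c2 x1 x2 r1 r2) (k0 : 2-c1 < (2-r1)*(2-(2-c2))+r2*(2-c1)) (k1 : 2-c2 < (r1-c1)*(2-c2)+(2-c2-r2)*c1) : False := by
  linarith [(sub_pos.2 k1),
    (mul_pos (sub_pos.2 k0) hb.RB1),
    (sub_pos.2 k0),
    (mul_nonneg ((sub_pos.2 k1)).le hb.c21),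
    (mul_nonneg ((sub_pos.2 k1)).le hb.c12),
    (mul_nonneg hb.pin hb.c12),
    (mul_nonneg ((sub_pos.2 k0)).le hb.c12)]

theorem dd_core9 {c1 c2 x1 x2 r1 r2 : ℝ} (hb : BaseDd c1 c2 x1 x2 r1 r2) (k0 : 2-c1 < (2-r1)*(2-(2-c2))+r2*(2-c1)) (k1 : 2-c1 < (r1-c1)*(2-(2-c2))+(2-c2-r2)*(2-c1)) : False := by
  linarith [(sub_pos.2 k0),
    (sub_pos.2 k1)]

theorem dd_arith {c1 c2 x1 x2 r1 r2 : ℝ} (hb : BaseDd c1 c2 x1 x2 r1 r2) (h_Lp : D0 c1 (2-c2) (2-r1) r2) (h_pB : D0 c1 (2-c2) (r1-c1) (2-c2-r2)) (h_Rp : D0 c1 c2 r1 r2) (h_Lx : D0 c1 (2-c2) (2-x1) x2) (h_px : (0 ≤ x2-r2 ∧ D0 c1 c2 (x1-r1) (x2-r2)) ∨ (0 ≤ r2-x2 ∧ D0 c1 (2-c2) (x1-r1) (r2-x2))) : False := by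
  rcases h_Lp with hLp | hLp
  · rcases h_pB with hpB | hpB
    · exact dd_core0 hb hLp hpB
    · rcases h_Rp with hRp | hRp
      · rcases h_px with ⟨opx_px2, hpx | hpx⟩ | ⟨opx_xp2, hpx | hpx⟩
        · exact dd_core1 hb hRp hpx
        · exact dd_core2 hb hRp hpx
        · rcases h_Lx with hLx | hLx
          · exact dd_core4 hb hLx hpx
          · exact dd_core5 hb hLx hpx
        · exact dd_core3 hb hpB hpx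
      · rcases h_px with ⟨opx_px2, hpx | hpx⟩ | ⟨opx_xp2, hpx | hpx⟩
        · exact dd_core6 hb hRp hpx opx_px2
        · exact dd_core7 hb hRp hpx
        · rcases h_Lx with hLx | hLx
          · exact dd_core4 hb hLx hpx
          · exact dd_core5 hb hLx hpx
        · exact dd_core3 hb hpB hpx
  · rcases h_pB with hpB | hpB
    · exact dd_core8 hb hLp hpB
    · exact dd_core9 hb hLp hpB
theorem DD_core0 {c1 c2 a1 a2 x1 x2 : ℝ} (hb : BaseDD c1 c2 a1 a2 x1 x2) (k0 : 2-c2 < a1*(2-c2)+a2*c1) (k1 : 2-c2 < (2-c1-a1)*(2-c2)+(2-c2-a2)*c1) : False := by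
  linarith [(sub_pos.2 k0),
    (sub_pos.2 k1)]

theorem DD_core1 {c1 c2 a1 a2 x1 x2 : ℝ} (hb : BaseDD c1 c2 a1 a2 x1 x2) (k0 : 2-c2 < a1*(2-c2)+a2*c1) (k1 : 2-c1 < (2-c1-a1)*(2-(2-c2))+(2-c2-a2)*(2-c1)) : False := by
  linarith [(sub_pos.2 k0),
    (sub_pos.2 k1),
    (mul_pos (sub_pos.2 k1) hb.RB1),
    (mul_nonneg ((sub_pos.2 k1)).le hb.c12),
    (mul_nonneg hb.wout hb.c12),
    (mul_nonneg ((sub_pos.2 k0)).le hb.c21),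
    (mul_nonneg ((sub_pos.2 k0)).le hb.c12)]

theorem DD_core2 {c1 c2 a1 a2 x1 x2 : ℝ} (hb : BaseDD c1 c2 a1 a2 x1 x2) (k0 : 2-c1 < a1*(2-(2-c2))+a2*(2-c1)) (k1 : 2-c1 < (2-c1-a1)*(2-(2-c2))+(2-c2-a2)*(2-c1)) : False := by
  linarith [(sub_pos.2 k0),
    (sub_pos.2 k1)]

theorem DD_core3 {c1 c2 a1 a2 x1 x2 : ℝ} (hb : BaseDD c1 c2 a1 a2 x1 x2) (k0 : 2-c2 < (2-c1-a1)*(2-c2)+(2-c2-a2)*c1) (k1 : 2-c2 < (a1-x1)*(2-c2)+(a2-x2)*c1) : False := by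
  linarith [(sub_pos.2 k0),
    (sub_pos.2 k1),
    (mul_nonneg (hb.pC2).le hb.x1n),
    (mul_nonneg (hb.pc1).le hb.x2n)]

theorem DD_core4 {c1 c2 a1 a2 x1 x2 : ℝ} (hb : BaseDD c1 c2 a1 a2 x1 x2) (k0 : 2-c2 < (2-c1-a1)*(2-c2)+(2-c2-a2)*c1) (k1 : Y1 c1 c2 x1 x2 x1 x2 (a1-x1) (x2-a2)) : False := by
  linarith [(mul_nonneg hb.a2n hb.x1n),
    (mul_nonneg (mul_nonneg (hb.TR1).le hb.a2n) hb.x2n),
    (mul_nonneg ((sub_pos.2 k1.RL)).le hb.ax),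
    (mul_nonneg ((sub_pos.2 k1.RL)).le hb.x1n),
    (mul_nonneg ((mul_pos (sub_pos.2 k1.RL) hb.TR1)).le hb.a2n),
    (mul_nonneg (mul_nonneg hb.a2n hb.x1n) hb.x1n),
    (mul_nonneg (mul_nonneg ((sub_pos.2 k1.RL)).le hb.c21) hb.b1n),
    (mul_nonneg ((mul_pos (sub_pos.2 k1.TL) hb.RB1)).le hb.a2n),
    (mul_pos (sub_pos.2 k0) (k1.pos hb.x2n)),
    (mul_nonneg (mul_nonneg ((sub_pos.2 k1.RL)).le hb.c12) hb.ax),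
    (mul_nonneg (mul_nonneg ((sub_pos.2 k1.TL)).le hb.c12) hb.x1n),
    (mul_nonneg (mul_nonneg ((sub_pos.2 k1.RB)).le hb.c12) hb.x1n),
    (mul_nonneg ((mul_pos (sub_pos.2 k1.RB) hb.RB1)).le hb.a2n),
    (mul_nonneg ((mul_pos (sub_pos.2 k1.RB) hb.RB1)).le hb.ax),
    (mul_nonneg (mul_nonneg (hb.TR1).le hb.x1n) hb.x2n),
    (mul_nonneg ((mul_pos (sub_pos.2 k1.RL) hb.RB1)).le hb.x1n),
    (mul_nonneg (mul_nonneg (hb.RB1).le hb.x1n) hb.ax),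
    (mul_nonneg ((mul_pos (sub_pos.2 k1.TL) hb.RB1)).le hb.ax),
    (mul_nonneg (mul_nonneg (hb.RB1).le hb.a2n) hb.x1n),
    (mul_nonneg (mul_nonneg (hb.RB1).le hb.x1n) hb.x2n),
    (mul_nonneg (mul_nonneg hb.c12 hb.a2n) hb.x1n),
    (mul_nonneg ((mul_pos (sub_pos.2 k1.TL) hb.TR1)).le hb.c21),
    (mul_nonneg (mul_nonneg hb.c12 hb.x1n) hb.x1n),
    (mul_nonneg (mul_nonneg (hb.TR1).le hb.c21) hb.x2n),
    (mul_nonneg ((mul_pos (sub_pos.2 k1.RB) hb.TR1)).le hb.c21),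
    (mul_nonneg (mul_nonneg hb.x1n hb.X2n) hb.ax),
    (mul_nonneg (mul_nonneg hb.x1n hb.x1n) hb.X2n),
    (mul_nonneg ((mul_pos (sub_pos.2 k1.TL) hb.TR1)).le hb.a2n),
    (mul_nonneg (mul_nonneg hb.wout (hb.RB1).le) hb.x2n),
    (mul_nonneg hb.wout hb.x1n),
    (mul_nonneg (mul_nonneg ((sub_pos.2 k0)).le hb.c21) hb.x2n),
    (mul_nonneg ((mul_pos (sub_pos.2 k1.RL) hb.TR1)).le hb.c12),
    (mul_nonneg (mul_nonneg hb.wout (hb.TR1).le) hb.x2n),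
    (mul_nonneg (mul_nonneg (hb.TR1).le hb.c12) hb.x2n),
    (mul_nonneg ((mul_pos hb.RB1 hb.RB1)).le hb.x2n),
    (sub_pos.2 k1.RL),
    (mul_nonneg (mul_nonneg hb.wout (hb.RB1).le) hb.x1n),
    (mul_nonneg (mul_nonneg hb.xout hb.c21) hb.x1n),
    (mul_nonneg (mul_nonneg hb.x1n hb.x1n) hb.x2n),
    (mul_nonneg (mul_nonneg (hb.TR1).le hb.c21) hb.x1n)]

theorem DD_core5 {c1 c2 a1 a2 x1 x2 : ℝ} (hb : BaseDD c1 c2 a1 a2 x1 x2) (k0 : 2-c1 < a1*(2-(2-c2))+a2*(2-c1)) (k1 : Y1 c1 c2 x1 x2 (2-c1-x1) (2-c2-x2) (a1-x1) (x2-a2)) : False := by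
  linarith [(sub_pos.2 k1.TB),
    (mul_nonneg hb.b1n hb.X2n),
    (mul_nonneg hb.b2n hb.x1n),
    (mul_nonneg hb.a2n hb.ax),
    (mul_nonneg hb.wout hb.a2n),
    (mul_nonneg hb.wout (hb.pc2).le),
    (mul_nonneg hb.c21 hb.ax),
    (mul_nonneg ((sub_pos.2 k0)).le hb.b2n),
    (mul_nonneg (hb.TR1).le hb.ax),
    (mul_nonneg (hb.TR1).le hb.b1n),
    (mul_nonneg hb.c21 hb.b1n)]

theorem DD_core6 {c1 c2 a1 a2 x1 x2 : ℝ} (hb : BaseDD c1 c2 a1 a2 x1 x2) (k0 : 2-c2 < (2-c1-a1)*(2-c2)+(2-c2-a2)*c1) (k1 : Y1 c1 c2 x1 x2 c1 c2 (a1-x1) (x2-a2)) : False := by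
  linarith [(mul_pos (sub_pos.2 k0) hb.TR1),
    (sub_pos.2 k1.Rw),
    (mul_nonneg ((mul_pos hb.TR1 hb.TR1)).le hb.a2n),
    (mul_nonneg ((sub_pos.2 k0)).le hb.c21),
    (mul_nonneg ((mul_pos hb.TR1 hb.RB1)).le hb.x1n),
    (mul_nonneg ((mul_pos (sub_pos.2 k0) hb.TR1)).le hb.c21),
    (mul_nonneg hb.b1n hb.x1n),
    (mul_nonneg (mul_nonneg (hb.TR1).le hb.b1n) hb.x1n),
    (mul_nonneg ((mul_pos hb.TR1 hb.RB1)).le hb.a2n),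
    (mul_nonneg hb.x1n hb.ax),
    (mul_nonneg (mul_nonneg (hb.TR1).le hb.x1n) hb.ax),
    (mul_nonneg (mul_nonneg ((sub_pos.2 k1.Rw)).le hb.c21) hb.c12),
    (mul_nonneg hb.x1n hb.x1n),
    (mul_nonneg (mul_nonneg (hb.TR1).le hb.x1n) hb.x1n),
    (mul_nonneg (mul_nonneg (hb.TR1).le hb.c12) hb.ax),
    (mul_pos hb.TR1 hb.TR1),
    (mul_nonneg (mul_nonneg (hb.RB1).le hb.c21) hb.x1n),
    (mul_nonneg (mul_nonneg (hb.TR1).le hb.c12) hb.x1n),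
    (mul_nonneg ((mul_pos hb.TR1 hb.RB1)).le hb.X2n),
    (mul_nonneg (mul_nonneg (hb.RB1).le hb.c21) hb.x2n),
    (mul_pos (sub_pos.2 k1.Rw) hb.RB1),
    (mul_nonneg hb.wout (hb.RB1).le),
    (mul_nonneg ((mul_pos hb.TR1 hb.RB1)).le hb.c21),
    (mul_nonneg (hb.RB1).le hb.X2n),
    (mul_nonneg ((mul_pos (sub_pos.2 k1.RL) hb.TR1)).le hb.c21),
    (mul_nonneg hb.wout (hb.TR1).le),
    (mul_nonneg (hb.TR1).le hb.X2n),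
    (mul_nonneg ((mul_pos hb.TR1 hb.RB1)).le hb.x2n),
    (mul_pos (mul_pos hb.TR1 hb.TR1) hb.RB1),
    (mul_nonneg ((sub_pos.2 k1.Rw)).le hb.c12),
    (mul_nonneg (hb.RB1).le hb.x2n),
    (mul_nonneg ((mul_pos hb.TR1 hb.TR1)).le hb.x2n)]

theorem DD_core7 {c1 c2 a1 a2 x1 x2 : ℝ} (hb : BaseDD c1 c2 a1 a2 x1 x2) (k0 : 2-c2 < x1*(2-c2)+x2*c1) (k1 : 2-c1 < (a1-x1)*(2-(2-c2))+(a2-x2)*(2-c1)) : False := by
  linarith [(sub_pos.2 k0),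
    (sub_pos.2 k1),
    (mul_nonneg hb.b1n hb.b2n),
    (mul_nonneg hb.b2n hb.ax),
    (mul_nonneg hb.wout hb.c21),
    (mul_nonneg hb.b2n hb.x1n),
    (mul_nonneg hb.wout hb.b1n),
    (mul_pos (sub_pos.2 k1) hb.RB1),
    (mul_nonneg hb.wout (hb.TR1).le),
    (mul_nonneg hb.wout hb.ax),
    (mul_nonneg ((sub_pos.2 k0)).le hb.c21),
    (mul_nonneg hb.wout hb.x1n),
    (mul_nonneg hb.xout hb.c12),
    (mul_nonneg ((sub_pos.2 k0)).le hb.c12),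
    (mul_nonneg ((sub_pos.2 k1)).le hb.c12)]

theorem DD_core8 {c1 c2 a1 a2 x1 x2 : ℝ} (hb : BaseDD c1 c2 a1 a2 x1 x2) (k0 : 2-c1 < x1*(2-(2-c2))+x2*(2-c1)) (k1 : 2-c1 < (a1-x1)*(2-(2-c2))+(a2-x2)*(2-c1)) : False := by
  linarith [(sub_pos.2 k0),
    (mul_nonneg (hb.pc2).le hb.b1n),
    (sub_pos.2 k1),
    (mul_nonneg hb.b1n hb.b2n),
    (mul_nonneg hb.b2n hb.ax),
    (mul_nonneg hb.b2n hb.x1n)]

theorem DD_arith {c1 c2 a1 a2 x1 x2 : ℝ} (hb : BaseDD c1 c2 a1 a2 x1 x2) (h_Lw : D0 c1 (2-c2) a1 a2) (h_wB : D0 c1 (2-c2) (2-c1-a1) (2-c2-a2)) (h_Lx : D0 c1 (2-c2) x1 x2) (h_wx : (0 ≤ a2-x2 ∧ D0 c1 (2-c2) (a1-x1) (a2-x2)) ∨ (0 ≤ x2-a2 ∧ D1 c1 c2 x1 x2 (a1-x1) (x2-a2))) : False := by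
  rcases h_Lw with hLw | hLw
  · rcases h_wB with hwB | hwB
    · exact DD_core0 hb hLw hwB
    · exact DD_core1 hb hLw hwB
  · rcases h_wB with hwB | hwB
    · rcases h_wx with ⟨owx_wxN, hwx | hwx⟩ | ⟨owx_wxS, hwx | hwx | hwx⟩
      · exact DD_core3 hb hwB hwx
      · rcases h_Lx with hLx | hLx
        · exact DD_core7 hb hLx hwx
        · exact DD_core8 hb hLx hwx
      · exact DD_core4 hb hwB hwx
      · exact DD_core5 hb hLw hwx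
      · exact DD_core6 hb hwB hwx
    · exact DD_core2 hb hLw hwB
end H407R3.Seven
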