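import Pool.Agent.H407R3.Seven.Combine

namespace H407R3.Seven

def Seven (S : ℝ → ℝ → Prop) : Prop :=
  ∃ P : Fin 7 → ℝ × ℝ, Function.Injective P ∧ ∀ i, S (P i).1 (P i).2

variable {N : ℝ → ℝ → ℝ} {S : ℝ → ℝ → Prop} {s t : ℝ}

theorem ne_of_pair {a b : ℝ × ℝ} (h : a ≠ b) : a.1 ≠ b.1 ∨ a.2 ≠ b.2 := by
  by_contra hcon
  push Not at hcon
  exact h (Prod.ext hcon.1 hcon.2)

theorem main_false (h : Main N S s t) (h7 : Seven S) : False := by
  classical
  obtain ⟨P, hP, hS⟩ := h7
  set F : Finset (ℝ × ℝ) := Finset.univ.image P with hF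
  have cF : F.card = 7 := by
    rw [hF, Finset.card_image_of_injective _ hP]; simp
  set C : Finset (ℝ × ℝ) := {(1, s), (-1, s), (t, 1), (t, -1)} with hC
  have cC : C.card ≤ 4 := Finset.card_le_four
  have cQ : 2 < (F \ C).card := by
    have := Finset.le_card_sdiff C F
    omega
  obtain ⟨a, ha, b, hb, c, hc, hab, hac, hbc⟩ := Finset.two_lt_card.1 cQ
  have hmem : ∀ z ∈ F \ C, S z.1 z.2 ∧ NC s t z.1 z.2 := by
    intro z hz
    rw [Finset.mem_sdiff] at hz
    obtain ⟨hz1, hz2⟩ := hz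
    rw [hF, Finset.mem_image] at hz1
    obtain ⟨i, _, rfl⟩ := hz1
    simp only [hC, Finset.mem_insert, Finset.mem_singleton, not_or] at hz2
    refine ⟨hS i, ?_, ?_, ?_, ?_⟩
    · exact or_symm' (ne_of_pair hz2.1)
    · exact or_symm' (ne_of_pair hz2.2.1)
    · exact or_symm' (ne_of_pair hz2.2.2.1)
    · exact ne_of_pair hz2.2.2.2
  exact no_three h (hmem a ha).1 (hmem b hb).1 (hmem c hc).1 (hmem a ha).2 (hmem b hb).2
    (hmem c hc).2 (ne_of_pair hab) (ne_of_pair hac) (ne_of_pair hbc)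

theorem maxb (h : Good N S 1 1) {p r : ℝ} (hp : 0 ≤ p) (hr : 0 ≤ r) (hp1 : p ≤ 1) (hr1 : r ≤ 1) :
    N (-p) r ≤ 1 := by
  have nLB := h.diam _ _ _ _ h.L h.B
  have e1 : (-1 : ℝ) - 1 = -2 := by norm_num
  have e2 : (1 : ℝ) - -1 = 2 := by norm_num
  rw [e1, e2] at nLB
  rcases le_total p r with hh | hh
  · have := h.pn.comb (α := p / 2) (β := (r - p) / 2) (by linarith) (by linarith) nLB h.n3
    have f1 : p / 2 * -2 + (r - p) / 2 * 0 = -p := by ring
    have f2 : p / 2 * 2 + (r - p) / 2 * 2 = r := by ring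
    rw [f1, f2] at this
    linarith
  · have n0' : N (-2) 0 ≤ 2 := by
      have := h.pn.neg 2 0
      rw [neg_zero] at this
      rw [this]; exact h.n0
    have := h.pn.comb (α := r / 2) (β := (p - r) / 2) (by linarith) (by linarith) nLB n0'
    have f1 : r / 2 * -2 + (p - r) / 2 * -2 = -p := by ring
    have f2 : r / 2 * 2 + (p - r) / 2 * 0 = r := by ring
    rw [f1, f2] at this
    linarith

theorem maxb' (h : Good N S 1 1) {p r : ℝ} (hp : 0 ≤ p) (hr : 0 ≤ r) (hN : 1 < N (-p) r) :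
    1 < p ∨ 1 < r := by
  by_contra hcon
  push Not at hcon
  exact absurd (maxb h hp hr hcon.1 hcon.2) (not_le.2 hN)

theorem cls1 (h : Good N S 1 1) {x y : ℝ} (hp : S x y) (nR : 1 ≠ x ∨ 1 ≠ y) (nL : x ≠ -1 ∨ y ≠ 1)
    (nB : x ≠ 1 ∨ y ≠ -1) : (0 < x ∧ 0 < y ∧ x + y < 1) ∨ (x < 0 ∧ y < 0) := by
  have b1 := h.x1 _ _ hp; have b2 := h.x2 _ _ hp; have b3 := h.y1 _ _ hp; have b4 := h.y2 _ _ hp
  have g1 := h.sep _ _ _ _ h.R hp nR
  have g1' := h.l1 (x := 1 - x) (y := 1 - y) (by linarith) (by linarith)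
  have g2 := h.sep _ _ _ _ hp h.L nL
  have e1 : x - -1 = - -(x + 1) := by ring
  have e2 : y - 1 = -(1 - y) := by ring
  rw [e1, e2, h.pn.neg] at g2
  have g2' := maxb' h (by linarith) (by linarith) g2
  have g3 := h.sep _ _ _ _ hp h.B nB
  have e3 : x - 1 = -(1 - x) := by ring
  rw [e3] at g3
  have g3' := maxb' h (by linarith) (by linarith) g3
  rcases g2' with g2' | g2' <;> rcases g3' with g3' | g3'
  · exfalso; linarith
  · left; exact ⟨by linarith, by linarith, by linarith⟩
  · right; exact ⟨by linarith, by linarith⟩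
  · exfalso; linarith

theorem pair1 (h : Good N S 1 1) {x y x' y' : ℝ} (hp : S x y) (hq : S x' y')
    (ne : x ≠ x' ∨ y ≠ y') :
    (1 < x - x' ∨ 1 < x' - x ∨ 1 < y - y' ∨ 1 < y' - y) ∨ (1 < (x + y) - (x' + y')) ∨
      (1 < (x' + y') - (x + y)) := by
  have g := h.sep _ _ _ _ hp hq ne
  rcases le_total x x' with hx | hx <;> rcases le_total y y' with hy | hy
  · right; right
    have e1 : x - x' = -(x' - x) := by ring
    have e2 : y - y' = -(y' - y) := by ring
    rw [e1, e2, h.pn.neg] at g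
    have := h.l1 (x := x' - x) (y := y' - y) (by linarith) (by linarith)
    linarith
  · left
    have e1 : x - x' = -(x' - x) := by ring
    rw [e1] at g
    rcases maxb' h (by linarith) (by linarith) g with hh | hh
    · right; left; exact hh
    · right; right; left; exact hh
  · left
    have e1 : x - x' = - -(x - x') := by ring
    have e2 : y - y' = -(y' - y) := by ring
    rw [e1, e2, h.pn.neg] at g
    rcases maxb' h (by linarith) (by linarith) g with hh | hh
    · left; exact hh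
    · right; right; right; exact hh
  · right; left
    have := h.l1 (x := x - x') (y := y - y') (by linarith) (by linarith)
    linarith

theorem case1 (h : Good N S 1 1) (h7 : Seven S) : False := by
  classical
  obtain ⟨P, hP, hS⟩ := h7
  set F : Finset (ℝ × ℝ) := Finset.univ.image P with hF
  have cF : F.card = 7 := by
    rw [hF, Finset.card_image_of_injective _ hP]; simp
  set C : Finset (ℝ × ℝ) := {(1, 1), (-1, 1), (1, -1)} with hC
  have cC : C.card ≤ 3 := Finset.card_le_three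
  have cQ : 3 < (F \ C).card := by
    have := Finset.le_card_sdiff C F
    omega
  have hmem : ∀ z ∈ F \ C, S z.1 z.2 ∧ ((0 < z.1 ∧ 0 < z.2 ∧ z.1 + z.2 < 1) ∨
      (z.1 < 0 ∧ z.2 < 0)) := by
    intro z hz
    rw [Finset.mem_sdiff] at hz
    obtain ⟨hz1, hz2⟩ := hz
    rw [hF, Finset.mem_image] at hz1
    obtain ⟨i, _, rfl⟩ := hz1
    simp only [hC, Finset.mem_insert, Finset.mem_singleton, not_or] at hz2
    exact ⟨hS i, cls1 h (hS i) (or_symm' (ne_of_pair hz2.1)) (ne_of_pair hz2.2.1)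
      (ne_of_pair hz2.2.2)⟩
  have hcard := Finset.card_filter_add_card_filter_not (s := F \ C) (fun z => 0 < z.1)
  have c1 : ((F \ C).filter (fun z => 0 < z.1)).card ≤ 1 := by
    by_contra hcon
    obtain ⟨a, b, ha, hb, hab⟩ := Finset.one_lt_card_iff.1 (not_le.1 hcon)
    rw [Finset.mem_filter] at ha hb
    obtain ⟨sa, ca⟩ := hmem a ha.1
    obtain ⟨sb, cb⟩ := hmem b hb.1
    have ca' : 0 < a.1 ∧ 0 < a.2 ∧ a.1 + a.2 < 1 := by
      rcases ca with ca | ca
      · exact ca
      · exact absurd ha.2 (not_lt.2 ca.1.le)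
    have cb' : 0 < b.1 ∧ 0 < b.2 ∧ b.1 + b.2 < 1 := by
      rcases cb with cb | cb
      · exact cb
      · exact absurd hb.2 (not_lt.2 cb.1.le)
    obtain ⟨u1, u2, u3⟩ := ca'
    obtain ⟨v1, v2, v3⟩ := cb'
    rcases pair1 h sa sb (ne_of_pair hab) with (hh | hh | hh | hh) | hh | hh <;> linarith
  have c2 : ((F \ C).filter (fun z => ¬ 0 < z.1)).card ≤ 2 := by
    by_contra hcon
    obtain ⟨a, ha, b, hb, c, hc, hab, hac, hbc⟩ := Finset.two_lt_card.1 (not_le.1 hcon)
    rw [Finset.mem_filter] at ha hb hc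
    have key : ∀ z : ℝ × ℝ, z ∈ F \ C → ¬ 0 < z.1 → S z.1 z.2 ∧ z.1 < 0 ∧ z.2 < 0 ∧ -1 ≤ z.1 ∧
        -1 ≤ z.2 := by
      intro z hz hn
      obtain ⟨sz, cz⟩ := hmem z hz
      rcases cz with cz | cz
      · exact absurd cz.1 hn
      · exact ⟨sz, cz.1, cz.2, h.x2 _ _ sz, h.y2 _ _ sz⟩
    obtain ⟨sa, a1, a2, a3, a4⟩ := key a ha.1 ha.2
    obtain ⟨sb, b1, b2, b3, b4⟩ := key b hb.1 hb.2
    obtain ⟨sc, d1, d2, d3, d4⟩ := key c hc.1 hc.2
    have p1 : 1 < (a.1 + a.2) - (b.1 + b.2) ∨ 1 < (b.1 + b.2) - (a.1 + a.2) := by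
      rcases pair1 h sa sb (ne_of_pair hab) with (hh | hh | hh | hh) | hh | hh
      · exfalso; linarith
      · exfalso; linarith
      · exfalso; linarith
      · exfalso; linarith
      · left; exact hh
      · right; exact hh
    have p2 : 1 < (a.1 + a.2) - (c.1 + c.2) ∨ 1 < (c.1 + c.2) - (a.1 + a.2) := by
      rcases pair1 h sa sc (ne_of_pair hac) with (hh | hh | hh | hh) | hh | hh
      · exfalso; linarith
      · exfalso; linarith
      · exfalso; linarith
      · exfalso; linarith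
      · left; exact hh
      · right; exact hh
    have p3 : 1 < (b.1 + b.2) - (c.1 + c.2) ∨ 1 < (c.1 + c.2) - (b.1 + b.2) := by
      rcases pair1 h sb sc (ne_of_pair hbc) with (hh | hh | hh | hh) | hh | hh
      · exfalso; linarith
      · exfalso; linarith
      · exfalso; linarith
      · exfalso; linarith
      · left; exact hh
      · right; exact hh
    rcases p1 with p1 | p1 <;> rcases p2 with p2 | p2 <;> rcases p3 with p3 | p3 <;> linarith
  omega

theorem Seven.flipx (h : Seven S) : Seven (fun x y => S (-x) y) := by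
  obtain ⟨P, hP, hS⟩ := h
  refine ⟨fun i => (-(P i).1, (P i).2), ?_, ?_⟩
  · intro i j hij
    simp only [Prod.mk.injEq, neg_inj] at hij
    exact hP (Prod.ext hij.1 hij.2)
  · intro i
    show S (- -(P i).1) (P i).2
    rw [neg_neg]; exact hS i

theorem Seven.flipy (h : Seven S) : Seven (fun x y => S x (-y)) := by
  obtain ⟨P, hP, hS⟩ := h
  refine ⟨fun i => ((P i).1, -(P i).2), ?_, ?_⟩
  · intro i j hij
    simp only [Prod.mk.injEq, neg_inj] at hij
    exact hP (Prod.ext hij.1 hij.2)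
  · intro i
    show S (P i).1 (- -(P i).2)
    rw [neg_neg]; exact hS i

theorem Seven.swap (h : Seven S) : Seven (fun x y => S y x) := by
  obtain ⟨P, hP, hS⟩ := h
  refine ⟨fun i => ((P i).2, (P i).1), ?_, ?_⟩
  · intro i j hij
    simp only [Prod.mk.injEq] at hij
    exact hP (Prod.ext hij.2 hij.1)
  · intro i
    exact hS i

theorem planar1 (h : Good N S s t) (h7 : Seven S) (h1 : s ≤ t) (h2 : -t ≤ s) : False := by
  have tb := h.x1 _ _ h.T
  have sb := h.y1 _ _ h.R
  have sb2 := h.y2 _ _ h.R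
  by_cases c1 : t = 1 ∧ s = 1
  · obtain ⟨rfl, rfl⟩ := c1
    exact case1 h h7
  by_cases c2 : t = 1 ∧ s = -1
  · obtain ⟨rfl, rfl⟩ := c2
    have := h.flipy
    rw [neg_neg] at this
    exact case1 this h7.flipy
  have d1 : s + t < 1 := by
    have g := h.sep _ _ _ _ h.T h.R (by
      by_contra hcon
      push Not at hcon
      exact c1 ⟨hcon.1, hcon.2.symm⟩)
    have e1 : t - 1 = -(1 - t) := by ring
    rw [e1] at g
    have := h.l1' (x := 1 - t) (y := 1 - s) (by linarith) (by linarith)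
    linarith
  have d2 : t - s < 1 := by
    have g := h.sep _ _ _ _ h.R h.B (by
      by_contra hcon
      push Not at hcon
      exact c2 ⟨hcon.1.symm, hcon.2⟩)
    have := h.l1 (x := 1 - t) (y := s - -1) (by linarith) (by linarith)
    linarith
  exact main_false ⟨h, h1, h2, d1, d2⟩ h7

theorem planar2 (h : Good N S s t) (h7 : Seven S) (h1 : |s| ≤ |t|) : False := by
  rcases le_total 0 t with ht | ht
  · rw [abs_of_nonneg ht] at h1
    exact planar1 h h7 (le_trans (le_abs_self s) h1) (by linarith [neg_abs_le s])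
  · rw [abs_of_nonpos ht] at h1
    exact planar1 h.flipx h7.flipx (le_trans (le_abs_self s) h1) (by linarith [neg_abs_le s])

theorem planar (h : Good N S s t) (h7 : Seven S) : False := by
  rcases le_total |s| |t| with hh | hh
  · exact planar2 h h7 hh
  · exact planar2 h.swap h7.swap hh

end H407R3.Seven
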