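import Pool.Agent.H407R3.Seven.Planar

namespace H407R3.Seven

open Module

variable {E : Type} [NormedAddCommGroup E] [NormedSpace ℝ E]

/-- the coordinate determinant -/
noncomputable def cr (b : Basis (Fin 2) ℝ E) (x y : E) : ℝ :=
  b.repr x 0 * b.repr y 1 - b.repr x 1 * b.repr y 0

theorem cr_sub_left (b : Basis (Fin 2) ℝ E) (x x' y : E) : cr b (x - x') y = cr b x y - cr b x' y := by
  simp only [cr, map_sub, Finsupp.sub_apply]; ring

theorem cr_sub_right (b : Basis (Fin 2) ℝ E) (x y y' : E) : cr b x (y - y') = cr b x y - cr b x y' := by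
  simp only [cr, map_sub, Finsupp.sub_apply]; ring

theorem cr_self (b : Basis (Fin 2) ℝ E) (x : E) : cr b x x = 0 := by
  simp only [cr]; ring

theorem cramer (b : Basis (Fin 2) ℝ E) (u v w : E) (h : cr b u v ≠ 0) :
    (cr b w v / cr b u v) • u + (cr b u w / cr b u v) • v = w := by
  apply b.ext_elem
  intro i
  simp only [map_add, map_smul, Finsupp.add_apply, Finsupp.smul_apply, smul_eq_mul]
  rw [div_mul_eq_mul_div, div_mul_eq_mul_div, ← add_div, div_eq_iff h]
  fin_cases i
  · simp only [cr, Fin.zero_eta]; ring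
  · simp only [cr, Fin.mk_one]; ring

theorem collinear_case (b : Basis (Fin 2) ℝ E) (p : Fin 7 → E) (hp : Function.Injective p)
    (H : ∀ i j k l : Fin 7, k ≠ l → dist (p i) (p j) < 2 * dist (p k) (p l))
    (h0 : cr b (p 1 - p 0) (p 2 - p 0) = 0) : False := by
  set u := p 1 - p 0 with hu
  set w := p 2 - p 0 with hw
  have hune : u ≠ 0 := by
    rw [hu, sub_ne_zero]
    exact fun e => absurd (hp e) (by decide)
  have hc : ∃ c : ℝ, w = c • u := by
    by_cases h1 : b.repr u 0 = 0
    · have h2 : b.repr u 1 ≠ 0 := by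
        intro h2
        apply hune
        apply b.ext_elem
        intro i
        rw [map_zero]
        fin_cases i
        · simpa using h1
        · simpa using h2
      refine ⟨b.repr w 1 / b.repr u 1, ?_⟩
      apply b.ext_elem
      intro i
      simp only [map_smul, Finsupp.smul_apply, smul_eq_mul]
      rw [div_mul_eq_mul_div, eq_div_iff h2]
      simp only [cr] at h0
      fin_cases i
      · simp only [Fin.zero_eta]; linarith
      · simp only [Fin.mk_one]
    · refine ⟨b.repr w 0 / b.repr u 0, ?_⟩
      apply b.ext_elem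
      intro i
      simp only [map_smul, Finsupp.smul_apply, smul_eq_mul]
      rw [div_mul_eq_mul_div, eq_div_iff h1]
      simp only [cr] at h0
      fin_cases i
      · simp only [Fin.zero_eta]
      · simp only [Fin.mk_one]; linarith
  obtain ⟨c, hc⟩ := hc
  have hn : 0 < ‖u‖ := norm_pos_iff.2 hune
  have d01 : dist (p 1) (p 0) = ‖u‖ := dist_eq_norm _ _
  have d02 : dist (p 2) (p 0) = |c| * ‖u‖ := by
    rw [dist_eq_norm, ← hw, hc, norm_smul, Real.norm_eq_abs]
  have d12 : dist (p 2) (p 1) = |c - 1| * ‖u‖ := by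
    have e : p 2 - p 1 = (c - 1) • u := by
      rw [sub_smul, one_smul, ← hc, hw, hu]; abel
    rw [dist_eq_norm, e, norm_smul, Real.norm_eq_abs]
  have H1 := H 2 0 1 0 (by decide)
  have H2 := H 1 0 2 0 (by decide)
  have H3 := H 2 1 1 0 (by decide)
  have H4 := H 1 0 2 1 (by decide)
  have H5 := H 2 0 2 1 (by decide)
  have H6 := H 2 1 2 0 (by decide)
  rw [d01, d02] at H1 H2
  rw [d01, d12] at H3 H4
  rw [d12, d02] at H5 H6
  have K1 : |c| < 2 := by
    by_contra hh; have := mul_le_mul_of_nonneg_right (not_lt.1 hh) hn.le; linarith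
  have K2 : 1 < 2 * |c| := by
    by_contra hh; have := mul_le_mul_of_nonneg_right (not_lt.1 hh) hn.le; linarith
  have K3 : |c - 1| < 2 := by
    by_contra hh; have := mul_le_mul_of_nonneg_right (not_lt.1 hh) hn.le; linarith
  have K4 : 1 < 2 * |c - 1| := by
    by_contra hh; have := mul_le_mul_of_nonneg_right (not_lt.1 hh) hn.le; linarith
  have K5 : |c| < 2 * |c - 1| := by
    by_contra hh; have := mul_le_mul_of_nonneg_right (not_lt.1 hh) hn.le; linarith
  have K6 : |c - 1| < 2 * |c| := by
    by_contra hh; have := mul_le_mul_of_nonneg_right (not_lt.1 hh) hn.le; linarith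
  rcases le_total 0 c with a | a <;> rcases le_total 0 (c - 1) with a' | a'
  · rw [abs_of_nonneg a, abs_of_nonneg a'] at *; linarith
  · rw [abs_of_nonneg a] at *; rw [abs_of_nonpos a'] at *; linarith
  · linarith
  · rw [abs_of_nonpos a] at *; rw [abs_of_nonpos a'] at *; linarith

theorem reduction (hE : finrank ℝ E = 2) (p : Fin 7 → E) (hp : Function.Injective p)
    (H : ∀ i j k l : Fin 7, k ≠ l → dist (p i) (p j) < 2 * dist (p k) (p l)) : False := by
  have hfin : Module.Finite ℝ E := Module.finite_of_finrank_pos (by omega)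
  let b : Basis (Fin 2) ℝ E := finBasisOfFinrankEq ℝ E hE
  obtain ⟨⟨i0, j0⟩, hD⟩ := Finite.exists_max (fun q : Fin 7 × Fin 7 => dist (p q.1) (p q.2))
  set D := dist (p i0) (p j0) with hDdef
  have hDmax : ∀ i j, dist (p i) (p j) ≤ D := fun i j => hD (i, j)
  have hDpos : 0 < D := lt_of_lt_of_le
    (dist_pos.2 (fun e => absurd (hp e) (by decide : (0 : Fin 7) ≠ 1))) (hDmax 0 1)
  obtain ⟨⟨iR, iL, iT, iB⟩, hM⟩ := Finite.exists_max
    (fun q : Fin 7 × Fin 7 × Fin 7 × Fin 7 => cr b (p q.1 - p q.2.1) (p q.2.2.1 - p q.2.2.2))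
  have hM' : ∀ i j k l, cr b (p i - p j) (p k - p l) ≤ cr b (p iR - p iL) (p iT - p iB) :=
    fun i j k l => hM (i, j, k, l)
  set R := p iR with hR
  set L := p iL with hL
  set T := p iT with hT
  set B := p iB with hB
  set U := R - L with hU
  set V := T - B with hV
  set M := cr b U V with hMdef
  rcases le_or_gt M 0 with hM0 | hM0
  · apply collinear_case b p hp H
    have a1 := hM' 1 0 2 0
    have a2 := hM' 0 1 2 0
    have e : cr b (p 0 - p 1) (p 2 - p 0) = - cr b (p 1 - p 0) (p 2 - p 0) := by
      rw [cr_sub_left, cr_sub_left]; ring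
    rw [e] at a2
    linarith
  · have hMne : M ≠ 0 := ne_of_gt hM0
    set f : E → ℝ := fun x => cr b x V with hf
    set g : E → ℝ := fun x => cr b U x with hg
    have fU : f R - f L = M := by simp only [hf]; rw [← cr_sub_left]
    have gV : g T - g B = M := by simp only [hg]; rw [← cr_sub_right]
    have fV : f T - f B = 0 := by simp only [hf]; rw [← cr_sub_left]; exact cr_self b V
    have gU : g R - g L = 0 := by simp only [hg]; rw [← cr_sub_right]; exact cr_self b U
    set X : E → ℝ := fun x => (2 * f x - f R - f L) / M with hX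
    set Y : E → ℝ := fun x => (2 * g x - g T - g B) / M with hY
    set N : ℝ → ℝ → ℝ := fun x y => 2 / D * ‖(x / 2) • U + (y / 2) • V‖ with hN
    have key : ∀ a c : E, N (X a - X c) (Y a - Y c) = 2 / D * ‖a - c‖ := by
      intro a c
      have e1 : (X a - X c) / 2 = cr b (a - c) V / M := by
        simp only [hX, hf]; rw [cr_sub_left]; field_simp; ring
      have e2 : (Y a - Y c) / 2 = cr b U (a - c) / M := by
        simp only [hY, hg]; rw [cr_sub_right]; field_simp; ring
      simp only [hN]
      rw [e1, e2, cramer b U V (a - c) hMne]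
    have pn : PN N := by
      refine ⟨fun x y x' y' => ?_, fun a x y => ?_⟩
      · simp only [hN]
        rw [← mul_add]
        apply mul_le_mul_of_nonneg_left _ (by positivity)
        have e : ((x + x') / 2) • U + ((y + y') / 2) • V
            = ((x / 2) • U + (y / 2) • V) + ((x' / 2) • U + (y' / 2) • V) := by
          rw [add_div, add_div, add_smul, add_smul]; abel
        rw [e]; exact norm_add_le _ _
      · simp only [hN]
        have e : (a * x / 2) • U + (a * y / 2) • V = a • ((x / 2) • U + (y / 2) • V) := by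
          rw [smul_add, smul_smul, smul_smul, mul_div_assoc, mul_div_assoc]
        rw [e, norm_smul, Real.norm_eq_abs]; ring
    have XR : X R = 1 := by
      simp only [hX]; rw [div_eq_iff hMne]; linarith
    have XL : X L = -1 := by
      simp only [hX]; rw [div_eq_iff hMne]; linarith
    have YT : Y T = 1 := by
      simp only [hY]; rw [div_eq_iff hMne]; linarith
    have YB : Y B = -1 := by
      simp only [hY]; rw [div_eq_iff hMne]; linarith
    have YL : Y L = Y R := by
      simp only [hY]; have : g L = g R := by linarith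
      rw [this]
    have XB : X B = X T := by
      simp only [hX]; have : f B = f T := by linarith
      rw [this]
    have good : Good N (fun x y => ∃ i, x = X (p i) ∧ y = Y (p i)) (Y R) (X T) := by
      refine ⟨pn, ?_, ?_, ?_, ?_, ?_, ?_, ⟨iR, XR.symm, rfl⟩, ⟨iL, XL.symm, YL.symm⟩,
        ⟨iT, rfl, YT.symm⟩, ⟨iB, XB.symm, YB.symm⟩⟩
      · rintro x y ⟨m, rfl, rfl⟩
        have h1 := hM' m iL iT iB
        rw [cr_sub_left] at h1
        have h2 : f (p m) - f L ≤ M := h1
        simp only [hX]
        rw [div_le_iff₀ hM0]; linarith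
      · rintro x y ⟨m, rfl, rfl⟩
        have h1 := hM' iR m iT iB
        rw [cr_sub_left] at h1
        have h2 : f R - f (p m) ≤ M := h1
        simp only [hX]
        rw [le_div_iff₀ hM0]; linarith
      · rintro x y ⟨m, rfl, rfl⟩
        have h1 := hM' iR iL m iB
        rw [cr_sub_right] at h1
        have h2 : g (p m) - g B ≤ M := h1
        simp only [hY]
        rw [div_le_iff₀ hM0]; linarith
      · rintro x y ⟨m, rfl, rfl⟩
        have h1 := hM' iR iL iT m
        rw [cr_sub_right] at h1
        have h2 : g T - g (p m) ≤ M := h1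
        simp only [hY]
        rw [le_div_iff₀ hM0]; linarith
      · rintro x y x' y' ⟨m, rfl, rfl⟩ ⟨m', rfl, rfl⟩
        rw [key, ← dist_eq_norm, div_mul_eq_mul_div, div_le_iff₀ hDpos]
        linarith [hDmax m m']
      · rintro x y x' y' ⟨m, rfl, rfl⟩ ⟨m', rfl, rfl⟩ hne
        have hmm : m ≠ m' := by
          rintro rfl
          rcases hne with hne | hne <;> exact hne rfl
        rw [key, ← dist_eq_norm, div_mul_eq_mul_div, lt_div_iff₀ hDpos]
        linarith [H i0 j0 m m' hmm]
    refine planar good ⟨fun i => (X (p i), Y (p i)), ?_, fun i => ⟨i, rfl, rfl⟩⟩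
    intro i j hij
    simp only [Prod.mk.injEq] at hij
    have h1 := key (p i) (p j)
    rw [hij.1, hij.2, sub_self, sub_self] at h1
    have h2 : N 0 0 = 0 := by simp [hN]
    rw [h2] at h1
    have h3 : ‖p i - p j‖ = 0 := by
      rcases mul_eq_zero.1 h1.symm with hh | hh
      · exact absurd hh (by positivity)
      · exact hh
    exact hp (sub_eq_zero.1 (norm_eq_zero.1 h3))

end H407R3.Seven
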