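import Pool.Agent.H407R3.Seven.Bases
set_option maxRecDepth 40000

namespace H407R3.Seven

theorem Uab2_core0 {c1 c2 a1 a2 B1 B2 r1 r2 : ℝ} (hb : Base c1 c2 a1 a2 B1 B2 r1 r2) (k0 : Y1 c1 (2-c2) B1 B2 (2-c1-B1) (2-(2-c2)-B2) a1 a2) (k1 : Y1 c1 c2 a1 a2 a1 a2 (2-c1-B1) (c2-B2)) (k2 : Y1 c1 c2 a1 a2 (2-c1-a1) (2-c2-a2) B1 B2) : False := by
  linarith [(mul_pos (sub_pos.2 k2.TB) (k1.pos hb.a2n)),
    (mul_nonneg ((sub_pos.2 k0.TB)).le hb.wout),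
    (mul_nonneg (mul_nonneg ((sub_pos.2 k1.TL)).le hb.b1n) hb.A2n),
    (mul_nonneg (mul_nonneg hb.wout hb.a1n) hb.b2n),
    (mul_nonneg (mul_nonneg ((sub_pos.2 k1.TL)).le hb.b2n) hb.A1n),
    (mul_nonneg (mul_nonneg hb.wout hb.b2n) hb.b2n),
    (mul_nonneg (mul_nonneg hb.wout hb.b2n) hb.c21),
    (mul_nonneg (mul_nonneg ((sub_pos.2 k2.TB)).le hb.a1n) hb.b2n),
    (mul_nonneg (mul_nonneg ((sub_pos.2 k1.TL)).le hb.b1n) hb.b2n),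
    (mul_nonneg (mul_nonneg hb.wout hb.b1n) hb.A2n),
    (mul_nonneg (mul_nonneg hb.wout hb.a2n) hb.b2n)]

theorem Uab2_core1 {c1 c2 a1 a2 B1 B2 r1 r2 : ℝ} (hb : Base c1 c2 a1 a2 B1 B2 r1 r2) (k0 : Y1 c1 (2-c2) B1 B2 B1 B2 a1 a2) (k1 : Y1 c1 (2-c2) B1 B2 (2-c1-B1) (2-(2-c2)-B2) (2-c1-a1) (2-c2-a2)) : False := by
  linarith [(mul_pos (sub_pos.2 k1.TB) (k0.pos hb.B2n)),
    (mul_nonneg (mul_nonneg ((sub_pos.2 k0.Tw)).le hb.a1n) hb.A2n),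
    (mul_nonneg hb.qout hb.wout),
    (mul_nonneg (mul_nonneg hb.qout hb.B1n) hb.B2n),
    (mul_nonneg ((sub_pos.2 k0.RB)).le hb.qout),
    (mul_nonneg (mul_nonneg ((sub_pos.2 k0.Tw)).le hb.a2n) hb.A1n),
    (mul_nonneg (mul_nonneg hb.qout hb.A2n) hb.B1n),
    (mul_nonneg (mul_nonneg hb.qout (hb.TR1).le) hb.B2n),
    (mul_nonneg (mul_nonneg hb.qout (hb.RB1).le) hb.B2n)]

theorem Uab2_core2 {c1 c2 a1 a2 B1 B2 r1 r2 : ℝ} (hb : Base c1 c2 a1 a2 B1 B2 r1 r2) (k0 : Y1 c1 (2-c2) B1 B2 B1 B2 a1 a2) (k1 : Y1 c1 (2-c2) B1 B2 B1 B2 (2-c1-a1) (2-c2-a2)) : False := by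
  linarith [(sub_pos.2 k1.Tw),
    (sub_pos.2 k0.Tw)]

theorem Uab2_core3 {c1 c2 a1 a2 B1 B2 r1 r2 : ℝ} (hb : Base c1 c2 a1 a2 B1 B2 r1 r2) (k0 : Y1 c1 c2 a1 a2 a1 a2 r1 r2) (k1 : Y1 c1 c2 a1 a2 a1 a2 (2-a1-r1) (a2-r2)) : False := by
  linarith [(sub_pos.2 k0.RL),
    (sub_pos.2 k1.RL)]

theorem Uab2_core4 {c1 c2 a1 a2 B1 B2 r1 r2 : ℝ} (hb : Base c1 c2 a1 a2 B1 B2 r1 r2) (k0 : Y1 c1 c2 a1 a2 a1 a2 r1 r2) (k1 : Y1 c1 c2 a1 a2 a1 a2 (2-c1-B1) (c2-B2)) (k2 : Y1 c1 c2 a1 a2 (2-c1-a1) (2-c2-a2) (2-a1-r1) (a2-r2)) (k3 : Y1 c1 c2 a1 a2 (2-c1-a1) (2-c2-a2) B1 B2) : False := by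
  linarith [(mul_pos (sub_pos.2 k2.TB) (k0.pos hb.a2n)),
    (mul_nonneg hb.wout hb.r2n),
    (mul_nonneg (mul_nonneg ((sub_pos.2 k2.TB)).le hb.a1n) hb.a2n),
    (mul_nonneg (mul_nonneg ((sub_pos.2 k0.RL)).le hb.b1n) hb.r2n),
    (mul_nonneg (mul_nonneg ((sub_pos.2 k1.RL)).le hb.b1n) hb.r2n),
    (mul_nonneg (mul_nonneg hb.wout hb.B1n) hb.r2n),
    (mul_nonneg (mul_nonneg ((sub_pos.2 k1.RL)).le hb.a1n) hb.b2n),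
    (mul_nonneg (mul_nonneg ((sub_pos.2 k0.RL)).le hb.b2n) hb.r1n),
    (mul_nonneg (mul_nonneg ((sub_pos.2 k1.RL)).le hb.b2n) hb.r1n),
    (mul_nonneg (mul_nonneg hb.wout hb.A2n) hb.r1n),
    (mul_nonneg (mul_nonneg hb.wout (hb.TR1).le) hb.r2n),
    (mul_nonneg (mul_nonneg hb.wout (hb.RB1).le) hb.r2n),
    (mul_nonneg (mul_nonneg ((sub_pos.2 k3.TB)).le hb.a2n) hb.r1n),
    (mul_nonneg (mul_nonneg ((sub_pos.2 k0.RL)).le hb.a1n) hb.b2n),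
    (mul_nonneg (mul_nonneg ((sub_pos.2 k3.Rw)).le hb.a1n) hb.r2n),
    (mul_nonneg (mul_nonneg hb.wout hb.a1n) hb.A2n),
    (mul_nonneg (mul_nonneg ((sub_pos.2 k3.TB)).le hb.a1n) hb.a2n)]

theorem Uab2_core5 {c1 c2 a1 a2 B1 B2 r1 r2 : ℝ} (hb : Base c1 c2 a1 a2 B1 B2 r1 r2) (k0 : Y1 c1 (2-c2) B1 B2 B1 B2 a1 a2) (k1 : Y1 c1 c2 a1 a2 a1 a2 r1 r2) (k2 : Y1 c1 c2 a1 a2 a1 a2 (2-c1-B1) (c2-B2)) (k3 : Y1 c1 c2 a1 a2 c1 c2 (2-a1-r1) (a2-r2)) (k4 : Y1 c1 c2 a1 a2 (2-c1-a1) (2-c2-a2) B1 B2) (o0 : 0 ≤ 2-a1-r1) (o1 : 0 ≤ a2-r2) : False := by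
  rcases le_total 0 (c2*a1-c1*a2) with s | s
  · linarith [(sub_pos.2 k1.TL),
    (mul_nonneg (mul_nonneg s hb.pB2) hb.pB2),
    (mul_nonneg (mul_nonneg s hb.a1n) hb.r1n),
    (mul_nonneg (mul_nonneg s hb.a1n) hb.a1n),
    (mul_nonneg (mul_nonneg s hb.r1n) hb.r1n),
    (mul_nonneg ((mul_pos (sub_pos.2 k1.RL) hb.TR1)).le hb.Tp1),
    (mul_pos (sub_pos.2 k1.RL) hb.TR1),
    (mul_pos (mul_pos (sub_pos.2 k1.RL) hb.TR1) hb.TR1),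
    (mul_nonneg ((mul_pos (sub_pos.2 k1.RL) hb.RB1)).le hb.r2n),
    (mul_nonneg (mul_nonneg s hb.c21) o1),
    (mul_nonneg (mul_nonneg s (hb.TR1).le) hb.a1n),
    (mul_nonneg ((mul_pos (sub_pos.2 k1.RL) hb.TR1)).le hb.a1n),
    (mul_nonneg s o1),
    (mul_pos (sub_pos.2 k3.RL) (k2.pos hb.a2n)),
    (mul_nonneg (mul_nonneg ((sub_pos.2 k3.RL)).le hb.a1n) hb.B2n),
    (mul_nonneg (mul_nonneg ((sub_pos.2 k3.Rw)).le hb.B1n) o1),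
    (mul_nonneg (mul_nonneg s hb.a2n) o1),
    (mul_nonneg (mul_nonneg ((sub_pos.2 k1.TL)).le hb.a1n) hb.c21),
    (mul_nonneg ((mul_pos (sub_pos.2 k3.RL) hb.RB1)).le hb.a1n),
    (mul_nonneg (mul_nonneg ((sub_pos.2 k3.Rw)).le hb.B1n) hb.r2n),
    (mul_nonneg (mul_nonneg ((sub_pos.2 k3.RL)).le hb.A2n) o1),
    (mul_nonneg (mul_nonneg ((sub_pos.2 k3.Rw)).le hb.B2n) o1),
    (mul_pos (sub_pos.2 k3.RL) (k1.pos hb.a2n)),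
    (mul_nonneg ((mul_pos (sub_pos.2 k3.Rw) hb.RB1)).le o1),
    (mul_nonneg (mul_nonneg ((sub_pos.2 k1.TL)).le hb.a2n) hb.c21),
    (mul_nonneg ((mul_pos (sub_pos.2 k3.Rw) hb.TR1)).le hb.r2n),
    (mul_nonneg (mul_nonneg ((sub_pos.2 k3.Rw)).le hb.a1n) hb.a1n),
    (mul_nonneg (mul_nonneg ((sub_pos.2 k3.Rw)).le hb.a1n) hb.Tp1),
    (mul_nonneg (mul_nonneg ((sub_pos.2 k3.RL)).le hb.a2n) hb.a2n),
    (mul_nonneg ((sub_pos.2 k2.RL)).le s),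
    (mul_nonneg ((sub_pos.2 k1.RL)).le hb.Tp1),
    (mul_nonneg (mul_nonneg s (hb.RB1).le) hb.c21),
    (mul_nonneg (mul_nonneg s hb.a1n) hb.B2n),
    (mul_nonneg (mul_nonneg s (hb.TR1).le) hb.Tp1),
    (mul_nonneg (mul_nonneg ((sub_pos.2 k3.Rw)).le hb.r2n) hb.pB2),
    (mul_nonneg (mul_nonneg ((sub_pos.2 k1.RL)).le hb.c21) hb.c21),
    (mul_nonneg (mul_nonneg s (hb.TR1).le) hb.r1n),
    (mul_nonneg (mul_nonneg ((sub_pos.2 k3.Rw)).le o1) o1),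
    (mul_nonneg ((sub_pos.2 k1.RL)).le hb.a1n),
    (mul_nonneg (mul_nonneg ((sub_pos.2 k3.Rw)).le hb.r2n) hb.Lp1),
    (mul_nonneg (mul_nonneg ((sub_pos.2 k3.RL)).le hb.r1n) hb.r2n),
    (mul_nonneg (mul_nonneg ((sub_pos.2 k3.Rw)).le hb.a2n) hb.r1n),
    (mul_nonneg (mul_nonneg ((sub_pos.2 k1.TL)).le hb.pB2) hb.c21),
    (mul_nonneg (mul_nonneg s hb.Tp1) hb.c21),
    (mul_nonneg ((mul_pos (sub_pos.2 k1.RL) hb.TR1)).le hb.r2n),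
    (mul_nonneg ((sub_pos.2 k1.TL)).le hb.r2n),
    (mul_nonneg (mul_nonneg s hb.B2n) hb.r2n),
    (mul_nonneg (mul_nonneg s hb.a2n) hb.b2n),
    (mul_nonneg (mul_nonneg s hb.a2n) hb.Tp1),
    (mul_nonneg s s),
    (mul_nonneg (mul_nonneg ((sub_pos.2 k1.TL)).le hb.r1n) hb.c21),
    (mul_nonneg (mul_nonneg s hb.a1n) hb.c21),
    (mul_nonneg (mul_nonneg s (hb.TR1).le) hb.c21),
    (mul_nonneg (mul_nonneg s hb.a2n) hb.A2n),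
    (mul_nonneg s (hb.RB1).le),
    (mul_nonneg ((sub_pos.2 k3.RL)).le hb.wout),
    (mul_nonneg (mul_nonneg s hb.a2n) hb.r2n)]
  · linarith [(mul_nonneg (mul_nonneg (neg_nonneg.2 s) hb.r2n) hb.c21),
    (mul_pos (sub_pos.2 k4.TB) (k0.pos hb.B2n)),
    (mul_nonneg (mul_nonneg (neg_nonneg.2 s) hb.b2n) hb.A2n),
    (mul_nonneg (mul_nonneg hb.a1n hb.A2n) hb.c21),
    (mul_nonneg (mul_nonneg (neg_nonneg.2 s) hb.c21) hb.c21),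
    (mul_nonneg (mul_nonneg ((sub_pos.2 k4.TB)).le hb.a2n) hb.B2n),
    (mul_nonneg (mul_nonneg (neg_nonneg.2 s) hb.A2n) hb.r2n),
    (mul_nonneg (mul_nonneg ((sub_pos.2 k4.TB)).le hb.a2n) hb.A2n),
    (mul_nonneg ((sub_pos.2 k2.TL)).le hb.b2n),
    (mul_nonneg ((sub_pos.2 k0.RL)).le hb.wout),
    (mul_nonneg (mul_nonneg ((sub_pos.2 k2.TL)).le hb.b2n) hb.B1n),
    (mul_nonneg (mul_nonneg hb.wout hb.A2n) hb.B1n),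
    (mul_nonneg (mul_nonneg ((sub_pos.2 k2.TL)).le hb.B2n) o0),
    (mul_nonneg (mul_nonneg ((sub_pos.2 k2.RL)).le hb.B2n) hb.Tp1),
    (mul_nonneg hb.wout (neg_nonneg.2 s)),
    (mul_nonneg (mul_nonneg ((sub_pos.2 k1.RL)).le hb.a1n) hb.c21),
    (mul_nonneg (mul_nonneg (neg_nonneg.2 s) (hb.TR1).le) hb.c21),
    (mul_nonneg (mul_nonneg ((sub_pos.2 k3.RL)).le hb.a2n) hb.A2n),
    (mul_nonneg ((mul_pos (sub_pos.2 k2.TL) hb.TR1)).le hb.b2n),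
    (mul_nonneg (mul_nonneg (neg_nonneg.2 s) hb.a2n) hb.c12),
    (mul_nonneg (mul_nonneg ((sub_pos.2 k0.RL)).le hb.a2n) hb.c21),
    (mul_nonneg (mul_nonneg hb.wout hb.a1n) hb.A2n),
    (mul_nonneg ((sub_pos.2 k4.TB)).le (neg_nonneg.2 s)),
    (mul_nonneg (mul_nonneg ((sub_pos.2 k1.TB)).le hb.A2n) hb.A2n),
    (mul_nonneg (neg_nonneg.2 s) (neg_nonneg.2 s)),
    (mul_nonneg (mul_nonneg ((sub_pos.2 k1.RL)).le hb.A2n) hb.B2n),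
    (mul_nonneg (mul_nonneg (neg_nonneg.2 s) hb.A2n) hb.B2n),
    (mul_nonneg (mul_nonneg ((sub_pos.2 k2.TL)).le hb.a2n) hb.c21),
    (mul_nonneg ((mul_pos (sub_pos.2 k1.RL) hb.TR1)).le hb.c21),
    (mul_nonneg ((sub_pos.2 k2.TL)).le (neg_nonneg.2 s)),
    (mul_nonneg (mul_nonneg hb.A2n hb.c21) o1),
    (mul_nonneg (mul_nonneg ((sub_pos.2 k4.TB)).le hb.a1n) hb.A2n),
    (mul_nonneg ((mul_pos (sub_pos.2 k1.RL) hb.TR1)).le hb.r2n),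
    (mul_nonneg (mul_nonneg ((sub_pos.2 k2.TL)).le hb.c21) hb.c21),
    (mul_nonneg ((mul_pos (sub_pos.2 k2.TL) hb.TR1)).le hb.c21),
    (mul_nonneg (mul_nonneg (neg_nonneg.2 s) hb.A2n) hb.c12),
    (mul_nonneg (mul_nonneg (neg_nonneg.2 s) hb.B2n) hb.Tp1),
    (mul_nonneg (mul_nonneg ((sub_pos.2 k2.TL)).le hb.a2n) hb.Tp1),
    (mul_nonneg (mul_nonneg ((sub_pos.2 k1.RL)).le hb.b2n) hb.A2n),
    (mul_nonneg (mul_nonneg hb.wout hb.A2n) hb.B2n),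
    (mul_nonneg ((sub_pos.2 k4.TB)).le o1),
    (mul_nonneg (mul_nonneg ((sub_pos.2 k3.Rw)).le hb.b1n) o1),
    (mul_nonneg (mul_nonneg ((sub_pos.2 k3.Rw)).le hb.r2n) hb.c12),
    (mul_nonneg (mul_nonneg ((sub_pos.2 k3.Rw)).le hb.r2n) hb.c21),
    (mul_nonneg ((mul_pos (sub_pos.2 k4.TB) hb.RB1)).le hb.r2n),
    (mul_nonneg (mul_nonneg ((sub_pos.2 k4.TB)).le hb.r2n) hb.Lp1),
    (mul_nonneg (mul_nonneg ((sub_pos.2 k4.TB)).le hb.r2n) hb.Tp1),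
    (mul_nonneg (mul_nonneg ((sub_pos.2 k4.TB)).le hb.B2n) hb.r2n),
    (mul_nonneg (mul_nonneg ((sub_pos.2 k4.TL)).le hb.A2n) hb.r2n),
    (mul_nonneg (mul_nonneg (neg_nonneg.2 s) hb.a2n) hb.c21),
    (mul_nonneg (mul_nonneg (neg_nonneg.2 s) hb.B1n) hb.c12),
    (mul_nonneg (mul_nonneg ((sub_pos.2 k2.RL)).le hb.b2n) hb.r1n),
    (mul_nonneg (mul_nonneg ((sub_pos.2 k1.RL)).le hb.b2n) hb.B2n),
    (mul_nonneg (mul_nonneg ((sub_pos.2 k3.Rw)).le hb.a1n) hb.b1n),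
    (mul_nonneg ((mul_pos (sub_pos.2 k2.RL) hb.RB1)).le o0),
    (mul_nonneg (mul_nonneg (neg_nonneg.2 s) hb.B1n) o0),
    (mul_nonneg (mul_nonneg ((sub_pos.2 k2.RL)).le hb.Lp1) o0),
    (mul_nonneg (mul_nonneg ((sub_pos.2 k1.RL)).le hb.a2n) hb.c21),
    (mul_nonneg (mul_nonneg ((sub_pos.2 k2.RL)).le hb.Tp1) o0),
    (mul_nonneg (mul_nonneg (neg_nonneg.2 s) hb.a1n) hb.B1n),
    (mul_nonneg (mul_nonneg (neg_nonneg.2 s) hb.B1n) hb.r1n),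
    (mul_nonneg (mul_nonneg (neg_nonneg.2 s) (hb.RB1).le) hb.B1n),
    (mul_nonneg (mul_nonneg ((sub_pos.2 k4.Rw)).le hb.A2n) hb.r2n),
    (mul_nonneg (mul_nonneg ((sub_pos.2 k2.RL)).le hb.a1n) hb.Tp1),
    (mul_nonneg (mul_nonneg ((sub_pos.2 k2.RL)).le hb.r1n) hb.Tp1),
    (mul_nonneg (mul_nonneg (neg_nonneg.2 s) o0) o0),
    (mul_nonneg (mul_nonneg (neg_nonneg.2 s) hb.r2n) hb.Lp1),
    (mul_nonneg ((sub_pos.2 k3.Rw)).le hb.r2n),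
    (mul_nonneg (mul_nonneg (neg_nonneg.2 s) hb.b1n) hb.b2n),
    (mul_nonneg (mul_nonneg ((sub_pos.2 k2.RL)).le hb.a1n) hb.c21),
    (mul_nonneg ((mul_pos (sub_pos.2 k1.RL) hb.RB1)).le hb.r2n),
    (mul_nonneg (mul_nonneg (neg_nonneg.2 s) hb.r2n) hb.c12),
    (mul_nonneg (mul_nonneg ((sub_pos.2 k1.TL)).le hb.c21) o0),
    (mul_nonneg (mul_nonneg ((sub_pos.2 k1.RL)).le hb.r1n) hb.c21),
    (mul_nonneg (mul_nonneg hb.wout hb.A2n) o1),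
    (mul_nonneg (mul_nonneg ((sub_pos.2 k2.RL)).le hb.Tp1) hb.c12),
    (mul_nonneg (mul_nonneg (neg_nonneg.2 s) hb.Tp1) o0),
    (mul_nonneg (mul_nonneg (neg_nonneg.2 s) hb.a1n) hb.Tp1),
    (mul_nonneg (mul_nonneg ((sub_pos.2 k1.RL)).le hb.c21) hb.c21),
    (mul_nonneg ((sub_pos.2 k3.Rw)).le hb.wout),
    (mul_nonneg (mul_nonneg (neg_nonneg.2 s) hb.r1n) hb.r2n),
    (mul_nonneg (mul_nonneg hb.wout hb.b2n) hb.A2n),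
    (mul_nonneg (mul_nonneg (neg_nonneg.2 s) hb.c21) o0),
    (mul_nonneg (mul_nonneg (neg_nonneg.2 s) hb.B2n) hb.c21)]

theorem Uab2_core6 {c1 c2 a1 a2 B1 B2 r1 r2 : ℝ} (hb : Base c1 c2 a1 a2 B1 B2 r1 r2) (k0 : Y1 c1 c2 a1 a2 a1 a2 (2-c1-B1) (c2-B2)) (k1 : Y1 c1 (2-c2) B1 B2 (2-c1-B1) (2-(2-c2)-B2) (-(2-a1-r1)) (a2-r2)) (k2 : Y1 c1 c2 a1 a2 (2-c1-a1) (2-c2-a2) B1 B2) : False := by
  linarith [(mul_nonneg (mul_nonneg ((sub_pos.2 k0.TL)).le hb.b1n) hb.A2n),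
    (mul_nonneg (mul_nonneg hb.wout hb.A2n) hb.Lp1),
    (mul_pos (sub_pos.2 k2.TB) (k0.pos hb.a2n)),
    (mul_nonneg ((sub_pos.2 k1.TB)).le hb.wout),
    (mul_nonneg hb.wout hb.r2n),
    (mul_nonneg (mul_nonneg hb.wout hb.a1n) hb.r2n),
    (mul_nonneg (mul_nonneg ((sub_pos.2 k0.TL)).le hb.b1n) hb.r2n),
    (mul_nonneg (mul_nonneg ((sub_pos.2 k2.TB)).le hb.a1n) hb.r2n),
    (mul_nonneg (mul_nonneg hb.wout hb.r2n) hb.c21),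
    (mul_nonneg (mul_nonneg ((sub_pos.2 k0.TL)).le hb.b2n) hb.A1n),
    (mul_nonneg (mul_nonneg hb.wout hb.r2n) hb.c12),
    (mul_nonneg (mul_nonneg hb.wout hb.b2n) hb.A1n),
    (mul_nonneg (mul_nonneg hb.wout hb.b1n) hb.A2n)]

theorem Uab2_core7 {c1 c2 a1 a2 B1 B2 r1 r2 : ℝ} (hb : Base c1 c2 a1 a2 B1 B2 r1 r2) (k0 : Y1 c1 (2-c2) B1 B2 c1 (2-c2) (-(2-a1-r1)) (a2-r2)) (k1 : Y1 c1 (2-c2) B1 B2 c1 (2-c2) (2-c1-a1) (2-c2-a2)) : False := by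
  linarith [(mul_pos (sub_pos.2 k0.RL) hb.pc2),
    (mul_nonneg hb.pin (hb.pc2).le),
    (mul_nonneg (hb.pc2).le hb.r2n),
    (mul_pos (sub_pos.2 k1.RL) hb.pc2)]

theorem Uab2_core8 {c1 c2 a1 a2 B1 B2 r1 r2 : ℝ} (hb : Base c1 c2 a1 a2 B1 B2 r1 r2) (k0 : Y1 c1 (2-c2) B1 B2 B1 B2 a1 a2) (k1 : Y1 c1 (2-c2) B1 B2 (2-c1-B1) (2-(2-c2)-B2) (2-a1-r1) (-(a2-r2))) : False := by
  linarith [(mul_pos (sub_pos.2 k1.TB) (k0.pos hb.B2n)),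
    (mul_nonneg (mul_nonneg ((sub_pos.2 k0.RL)).le hb.A2n) hb.Tp1),
    (mul_nonneg hb.qout hb.wout),
    (mul_nonneg (mul_nonneg ((sub_pos.2 k0.Tw)).le hb.a1n) hb.A2n),
    (mul_nonneg (mul_nonneg hb.qout hb.a2n) hb.B1n),
    (mul_nonneg (mul_nonneg ((sub_pos.2 k0.RB)).le hb.A1n) hb.pB2),
    (mul_nonneg (mul_nonneg hb.qout hb.a1n) hb.B2n),
    (mul_nonneg (mul_nonneg hb.A2n hb.B2n) hb.Tp1),
    (mul_nonneg (mul_nonneg hb.qout hb.B1n) hb.pB2),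
    (mul_nonneg (mul_nonneg ((sub_pos.2 k0.Tw)).le hb.a2n) hb.A1n),
    (mul_nonneg (mul_nonneg hb.A2n hb.B1n) hb.pB2),
    (mul_nonneg (mul_nonneg hb.qout (hb.TR1).le) hb.pB2),
    (mul_nonneg (mul_nonneg hb.qout (hb.RB1).le) hb.pB2)]

theorem Uab2_core9 {c1 c2 a1 a2 B1 B2 r1 r2 : ℝ} (hb : Base c1 c2 a1 a2 B1 B2 r1 r2) (k0 : Y1 c1 (2-c2) B1 B2 B1 B2 a1 a2) (k1 : Y1 c1 (2-c2) B1 B2 B1 B2 (2-a1-r1) (-(a2-r2))) : False := by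
  linarith [(sub_pos.2 k0.Tw),
    (mul_nonneg hb.B1n hb.pB2),
    (mul_nonneg hb.B2n hb.Tp1),
    (mul_pos (sub_pos.2 k1.Tw) hb.pc2),
    (mul_nonneg ((sub_pos.2 k1.Tw)).le hb.c12),
    (mul_pos (sub_pos.2 k1.Tw) hb.pc1)]

theorem Uab2_core10 {c1 c2 a1 a2 B1 B2 r1 r2 : ℝ} (hb : Base c1 c2 a1 a2 B1 B2 r1 r2) (k0 : Y1 c1 (2-c2) B1 B2 (2-c1-B1) (2-(2-c2)-B2) (2-r1) r2) (k1 : Y1 c1 (2-c2) B1 B2 B1 B2 (-(2-a1-r1)) (a2-r2)) : False := by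
  linarith [(mul_nonneg (mul_nonneg hb.b1n hb.A2n) hb.B2n),
    (mul_nonneg (mul_nonneg ((sub_pos.2 k0.RL)).le hb.b2n) hb.B1n),
    (mul_nonneg hb.qout hb.wout),
    (mul_nonneg (mul_nonneg ((sub_pos.2 k0.RL)).le hb.b1n) hb.B2n),
    (mul_nonneg (mul_nonneg ((sub_pos.2 k0.TL)).le hb.B2n) hb.Lp1),
    (mul_pos (sub_pos.2 k0.TL) (k1.pos hb.B2n)),
    (mul_nonneg (mul_nonneg hb.b2n hb.A2n) hb.B1n),
    (mul_nonneg (mul_nonneg ((sub_pos.2 k1.RB)).le hb.b2n) hb.A1n),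
    (mul_nonneg hb.qout hb.pin),
    (mul_nonneg (mul_nonneg ((sub_pos.2 k1.TB)).le hb.b1n) hb.A2n),
    (mul_nonneg (mul_nonneg ((sub_pos.2 k1.Tw)).le hb.a1n) hb.A2n),
    (mul_nonneg (mul_nonneg hb.b1n hb.A2n) hb.B1n),
    (mul_nonneg (mul_nonneg ((sub_pos.2 k0.TL)).le hb.B1n) hb.r2n),
    (mul_nonneg (mul_nonneg ((sub_pos.2 k1.Tw)).le hb.a2n) hb.A1n),
    (mul_nonneg (mul_nonneg hb.qout hb.b2n) hb.B1n),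
    (mul_nonneg (mul_nonneg hb.qout (hb.TR1).le) hb.b2n),
    (mul_nonneg (mul_nonneg hb.qout (hb.RB1).le) hb.b2n)]

theorem Uab2_core11 {c1 c2 a1 a2 B1 B2 r1 r2 : ℝ} (hb : Base c1 c2 a1 a2 B1 B2 r1 r2) (k0 : Y1 c1 (2-c2) B1 B2 B1 B2 (2-r1) r2) (k1 : Y1 c1 (2-c2) B1 B2 B1 B2 (-(2-a1-r1)) (a2-r2)) : False := by
  linarith [(mul_nonneg hb.b1n hb.B2n),
    (mul_nonneg hb.b2n hb.B1n),
    (sub_pos.2 k0.Tw),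
    (sub_pos.2 k1.Tw)]

theorem Uab2_core12 {c1 c2 a1 a2 B1 B2 r1 r2 : ℝ} (hb : Base c1 c2 a1 a2 B1 B2 r1 r2) (k0 : Y1 c1 (2-c2) B1 B2 c1 (2-c2) (2-r1) r2) (k1 : Y1 c1 (2-c2) B1 B2 c1 (2-c2) (2-c1-a1) (2-c2-a2)) (o0 : 0 ≤ a2-r2) (o1 : 0 ≤ -(2-a1-r1)) : False := by
  linarith [(sub_pos.2 k1.RL),
    (sub_pos.2 k0.RL),
    (mul_nonneg (hb.pc1).le o0),
    (mul_nonneg hb.b2n o1),
    (mul_nonneg hb.a2n o1)]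

theorem Uab2_core13 {c1 c2 a1 a2 B1 B2 r1 r2 : ℝ} (hb : Base c1 c2 a1 a2 B1 B2 r1 r2) (k0 : Y1 c1 (2-c2) B1 B2 (2-c1-B1) (2-(2-c2)-B2) (2-r1) r2) (k1 : Y1 c1 (2-c2) B1 B2 (2-c1-B1) (2-(2-c2)-B2) (r1-c1) (2-c2-r2)) : False := by
  linarith [(sub_pos.2 k1.TL),
    (sub_pos.2 k0.TB),
    (mul_nonneg hb.qout hb.A1n),
    (mul_nonneg hb.qout hb.B1n),
    (mul_nonneg hb.qout (hb.pc1).le)]

theorem Uab2_core14 {c1 c2 a1 a2 B1 B2 r1 r2 : ℝ} (hb : Base c1 c2 a1 a2 B1 B2 r1 r2) (k0 : Y1 c1 (2-c2) B1 B2 (2-c1-B1) (2-(2-c2)-B2) (2-r1) r2) (k1 : Y1 c1 (2-c2) B1 B2 B1 B2 (r1-c1) (2-c2-r2)) : False := by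
  linarith [(mul_pos (sub_pos.2 k0.TB) (k1.pos hb.B2n)),
    (mul_nonneg (mul_nonneg hb.qout hb.B1n) hb.Lp1),
    (mul_nonneg hb.qout hb.pin),
    (mul_nonneg hb.qout hb.qout),
    (mul_nonneg (mul_nonneg hb.qout hb.B1n) hb.r1n),
    (mul_nonneg ((sub_pos.2 k1.Tw)).le hb.qout),
    (mul_nonneg (mul_nonneg ((sub_pos.2 k1.Tw)).le hb.A1n) hb.pB2),
    (mul_nonneg (mul_nonneg ((sub_pos.2 k1.Tw)).le hb.A2n) hb.Tp1)]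

theorem Uab2_core15 {c1 c2 a1 a2 B1 B2 r1 r2 : ℝ} (hb : Base c1 c2 a1 a2 B1 B2 r1 r2) (k0 : Y1 c1 (2-c2) B1 B2 (2-c1-B1) (2-(2-c2)-B2) (2-r1) r2) (k1 : Y1 c1 (2-c2) B1 B2 c1 (2-c2) (r1-c1) (2-c2-r2)) : False := by
  linarith [(mul_nonneg ((mul_pos (sub_pos.2 k0.TB) hb.RB1)).le hb.r2n),
    (mul_nonneg (mul_nonneg ((sub_pos.2 k0.TL)).le hb.A1n) hb.r2n),
    (mul_pos (sub_pos.2 k1.RL) (k0.pos hb.A2n_)),
    (mul_nonneg (mul_nonneg ((sub_pos.2 k0.TB)).le hb.B1n) hb.r2n),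
    (mul_nonneg ((mul_pos (sub_pos.2 k0.TL) hb.TR1)).le hb.r2n),
    (mul_nonneg ((sub_pos.2 k0.RL)).le hb.pin),
    (mul_nonneg (mul_nonneg hb.qout hb.B1n) hb.r2n),
    (mul_nonneg (mul_nonneg hb.qout (hb.RB1).le) hb.r2n)]

theorem Uab2_core16 {c1 c2 a1 a2 B1 B2 r1 r2 : ℝ} (hb : Base c1 c2 a1 a2 B1 B2 r1 r2) (k0 : Y1 c1 (2-c2) B1 B2 B1 B2 a1 a2) (k1 : Y1 c1 (2-c2) B1 B2 (2-c1-B1) (2-(2-c2)-B2) (r1-c1) (2-c2-r2)) (o0 : 0 ≤ 2-a1-r1) (o1 : 0 ≤ -(a2-r2)) : False := by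
  linarith [(mul_nonneg hb.qout hb.wout),
    (mul_nonneg (mul_nonneg ((sub_pos.2 k0.Tw)).le hb.a2n) hb.A1n),
    (mul_pos (sub_pos.2 k1.TB) (k0.pos hb.B2n)),
    (mul_nonneg (mul_nonneg ((sub_pos.2 k0.Tw)).le hb.a1n) hb.A2n),
    (mul_nonneg (mul_nonneg ((sub_pos.2 k0.RB)).le hb.A2n) o0),
    (mul_nonneg ((sub_pos.2 k0.RB)).le hb.qout),
    (mul_nonneg (mul_nonneg hb.A2n hb.B2n) o0),
    (mul_nonneg (mul_nonneg hb.A2n hb.B1n) o1),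
    (mul_nonneg (mul_nonneg ((sub_pos.2 k0.RB)).le hb.A1n) o1),
    (mul_nonneg (mul_nonneg hb.qout (hb.TR1).le) o1),
    (mul_nonneg (mul_nonneg hb.A2n hb.B1n) o0),
    (mul_nonneg (mul_nonneg hb.qout hb.B1n) o1),
    (mul_nonneg (mul_nonneg hb.qout (hb.RB1).le) o1),
    (mul_nonneg (mul_nonneg hb.qout (hb.RB1).le) hb.B2n),
    (mul_nonneg (mul_nonneg ((sub_pos.2 k0.Tw)).le hb.A2n) hb.Lp1),
    (mul_nonneg (mul_nonneg hb.qout (hb.TR1).le) hb.B2n),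
    (mul_nonneg (mul_nonneg hb.qout hb.A2n) hb.B1n),
    (mul_nonneg (mul_nonneg hb.qout hb.B1n) hb.B2n)]

theorem Uab2_core17 {c1 c2 a1 a2 B1 B2 r1 r2 : ℝ} (hb : Base c1 c2 a1 a2 B1 B2 r1 r2) (k0 : Y1 c1 (2-c2) B1 B2 B1 B2 (2-r1) r2) (k1 : Y1 c1 (2-c2) B1 B2 B1 B2 (r1-c1) (2-c2-r2)) : False := by
  linarith [(sub_pos.2 k1.Tw),
    (sub_pos.2 k0.Tw)]

theorem Uab2_core18 {c1 c2 a1 a2 B1 B2 r1 r2 : ℝ} (hb : Base c1 c2 a1 a2 B1 B2 r1 r2) (k0 : Y1 c1 (2-c2) B1 B2 B1 B2 (2-r1) r2) (k1 : Y1 c1 (2-c2) B1 B2 c1 (2-c2) (r1-c1) (2-c2-r2)) : False := by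
  linarith [(mul_nonneg ((sub_pos.2 k0.RL)).le hb.pin),
    (mul_pos (sub_pos.2 k1.RL) (k0.pos hb.B2n)),
    (mul_nonneg ((sub_pos.2 k0.Tw)).le hb.r2n)]

theorem Uab2_core19 {c1 c2 a1 a2 B1 B2 r1 r2 : ℝ} (hb : Base c1 c2 a1 a2 B1 B2 r1 r2) (k0 : Y1 c1 (2-c2) B1 B2 B1 B2 a1 a2) (k1 : Y1 c1 (2-c2) B1 B2 B1 B2 (r1-c1) (2-c2-r2)) (o0 : 0 ≤ 2-a1-r1) (o1 : 0 ≤ -(a2-r2)) : False := by
  linarith [(mul_nonneg hb.B1n o1),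
    (mul_nonneg hb.B2n o0),
    (mul_nonneg ((sub_pos.2 k0.Tw)).le hb.c12),
    (mul_pos (sub_pos.2 k0.Tw) hb.pc1),
    (mul_pos (sub_pos.2 k0.Tw) hb.pc2),
    (sub_pos.2 k1.Tw)]

theorem Uab2_core20 {c1 c2 a1 a2 B1 B2 r1 r2 : ℝ} (hb : Base c1 c2 a1 a2 B1 B2 r1 r2) (k0 : Y1 c1 (2-c2) B1 B2 c1 (2-c2) (2-r1) r2) (k1 : Y1 c1 (2-c2) B1 B2 c1 (2-c2) (r1-c1) (2-c2-r2)) : False := by
  linarith [(sub_pos.2 k0.RL),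
    (mul_pos (sub_pos.2 k1.RL) hb.pc2),
    (mul_pos (sub_pos.2 k1.RL) hb.pc1),
    (mul_pos (sub_pos.2 k0.RL) hb.TR1)]

theorem Uab2_core21 {c1 c2 a1 a2 B1 B2 r1 r2 : ℝ} (hb : Base c1 c2 a1 a2 B1 B2 r1 r2) (k0 : Y1 c1 c2 a1 a2 (2-c1-a1) (2-c2-a2) r1 r2) (k1 : Y1 c1 c2 a1 a2 a1 a2 (2-c1-B1) (c2-B2)) (k2 : Y1 c1 c2 a1 a2 a1 a2 (2-a1-r1) (a2-r2)) (k3 : Y1 c1 c2 a1 a2 (2-c1-a1) (2-c2-a2) B1 B2) (o0 : 0 ≤ 2-a1-r1) (o1 : 0 ≤ a2-r2) : False := by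
  linarith [(mul_nonneg (mul_nonneg hb.wout hb.A2n) o1),
    (mul_nonneg (mul_nonneg ((sub_pos.2 k1.RL)).le hb.b2n) hb.Lp1),
    (mul_pos (sub_pos.2 k3.TB) (k2.pos hb.a2n)),
    (mul_nonneg (mul_nonneg ((sub_pos.2 k2.RL)).le o0) o1),
    (mul_nonneg (mul_nonneg ((sub_pos.2 k2.RL)).le hb.A2n) o0),
    (mul_nonneg (mul_nonneg hb.wout hb.a1n) hb.A2n),
    (mul_nonneg (mul_nonneg ((sub_pos.2 k1.RL)).le hb.b1n) hb.A2n),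
    (mul_nonneg (mul_nonneg hb.wout hb.A2n) hb.B1n),
    (mul_nonneg (mul_nonneg ((sub_pos.2 k3.RL)).le hb.a1n) hb.A2n),
    (mul_nonneg (mul_nonneg ((sub_pos.2 k3.TB)).le hb.a1n) hb.r2n),
    (mul_nonneg (mul_nonneg hb.wout (hb.RB1).le) hb.A2n),
    (mul_pos (sub_pos.2 k0.TB) (k2.pos hb.a2n)),
    (mul_nonneg (mul_nonneg ((sub_pos.2 k0.TB)).le hb.a1n) hb.A2n),
    (mul_nonneg (mul_nonneg hb.wout hb.B2n) o1),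
    (mul_nonneg (mul_nonneg ((sub_pos.2 k2.RL)).le hb.b2n) o0),
    (mul_nonneg (mul_nonneg ((sub_pos.2 k2.RL)).le hb.a1n) hb.b2n),
    (mul_nonneg (mul_nonneg hb.wout hb.B1n) o1),
    (mul_nonneg (mul_nonneg ((sub_pos.2 k3.RL)).le hb.a1n) o1),
    (mul_nonneg (mul_nonneg ((sub_pos.2 k1.RL)).le o0) o1),
    (mul_nonneg (mul_nonneg hb.wout (hb.RB1).le) o1),
    (mul_nonneg (mul_nonneg hb.wout hb.A2n) hb.r1n),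
    (mul_nonneg (mul_nonneg ((sub_pos.2 k2.RL)).le hb.Tp1) o1),
    (mul_nonneg (mul_nonneg hb.wout hb.a1n) o1),
    (mul_nonneg (mul_nonneg hb.wout (hb.TR1).le) hb.A2n),
    (mul_nonneg (mul_nonneg ((sub_pos.2 k2.RL)).le hb.A2n) hb.Tp1),
    (mul_nonneg (mul_nonneg ((sub_pos.2 k0.TB)).le hb.a1n) hb.a2n),
    (mul_nonneg (mul_nonneg ((sub_pos.2 k1.RL)).le hb.Tp1) o1)]

theorem Uab2_core22 {c1 c2 a1 a2 B1 B2 r1 r2 : ℝ} (hb : Base c1 c2 a1 a2 B1 B2 r1 r2) (k0 : Y1 c1 c2 a1 a2 (2-c1-a1) (2-c2-a2) r1 r2) (k1 : Y1 c1 c2 a1 a2 (2-c1-a1) (2-c2-a2) (2-a1-r1) (a2-r2)) : False := by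
  linarith [(sub_pos.2 k0.RL),
    (sub_pos.2 k1.Rw),
    (mul_nonneg hb.wout (hb.TR1).le),
    (mul_pos (sub_pos.2 k0.Rw) hb.pc1),
    (mul_nonneg hb.b2n hb.c21),
    (sub_pos.2 k0.TB),
    (mul_nonneg hb.b1n hb.c21),
    (mul_nonneg ((sub_pos.2 k0.TB)).le hb.c12),
    (mul_pos (sub_pos.2 k0.Rw) hb.pc2)]

theorem Uab2_core23 {c1 c2 a1 a2 B1 B2 r1 r2 : ℝ} (hb : Base c1 c2 a1 a2 B1 B2 r1 r2) (k0 : Y1 c1 c2 a1 a2 (2-c1-a1) (2-c2-a2) r1 r2) (k1 : Y1 c1 c2 a1 a2 a1 a2 (2-c1-B1) (c2-B2)) (k2 : Y1 c1 c2 a1 a2 c1 c2 (2-a1-r1) (a2-r2)) (k3 : Y1 c1 c2 a1 a2 (2-c1-a1) (2-c2-a2) B1 B2) (o0 : 0 ≤ 2-a1-r1) (o1 : 0 ≤ a2-r2) : False := by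
  linarith [(mul_nonneg (mul_nonneg hb.wout hb.A2n) o1),
    (mul_pos (sub_pos.2 k3.TB) (k1.pos hb.a2n)),
    (mul_nonneg (mul_nonneg ((sub_pos.2 k3.TB)).le hb.a2n) hb.B1n),
    (mul_nonneg (mul_nonneg hb.wout hb.A2n) hb.B1n),
    (mul_nonneg (mul_nonneg hb.wout hb.a1n) hb.A2n),
    (mul_nonneg ((mul_pos (sub_pos.2 k3.TB) hb.TR1)).le hb.a2n),
    (mul_nonneg (mul_nonneg ((sub_pos.2 k1.TL)).le hb.A2n) hb.Tp1),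
    (mul_nonneg (mul_nonneg ((sub_pos.2 k1.RL)).le hb.b2n) o1),
    (mul_nonneg (mul_nonneg hb.wout hb.A2n) hb.c21),
    (mul_nonneg (mul_nonneg ((sub_pos.2 k1.RL)).le hb.b2n) hb.A2n),
    (mul_nonneg (mul_nonneg hb.wout (hb.TR1).le) hb.A2n),
    (mul_nonneg (mul_nonneg ((sub_pos.2 k1.RL)).le hb.b2n) hb.B2n),
    (mul_nonneg (mul_nonneg ((sub_pos.2 k2.RL)).le hb.a2n) hb.b2n),
    (mul_nonneg (mul_nonneg ((sub_pos.2 k0.TB)).le hb.a2n) hb.c21),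
    (mul_nonneg (mul_nonneg ((sub_pos.2 k3.TB)).le hb.a2n) hb.c21),
    (mul_nonneg ((mul_pos (sub_pos.2 k0.TB) hb.TR1)).le hb.a2n),
    (mul_nonneg (mul_nonneg ((sub_pos.2 k3.RL)).le hb.a2n) o1),
    (mul_nonneg ((sub_pos.2 k0.TB)).le hb.a2n),
    (mul_nonneg hb.wout hb.A2n),
    (mul_nonneg (mul_nonneg ((sub_pos.2 k1.TL)).le hb.A2n) o0)]

theorem Uab2_core24 {c1 c2 a1 a2 B1 B2 r1 r2 : ℝ} (hb : Base c1 c2 a1 a2 B1 B2 r1 r2) (k0 : Y1 c1 (2-c2) B1 B2 c1 (2-c2) (r1-c1) (2-c2-r2)) (k1 : Y1 c1 (2-c2) B1 B2 c1 (2-c2) (2-a1-r1) (-(a2-r2))) : False := by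
  linarith [(sub_pos.2 k1.RL),
    (mul_nonneg hb.a1n (hb.pC2).le),
    (mul_nonneg (hb.pc1).le hb.a2n),
    (sub_pos.2 k0.RL)]

theorem Uab2_core25 {c1 c2 a1 a2 B1 B2 r1 r2 : ℝ} (hb : Base c1 c2 a1 a2 B1 B2 r1 r2) (k0 : Y1 c1 (2-c2) B1 B2 B1 B2 a1 a2) (k1 : Y1 c1 c2 a1 a2 c1 c2 r1 r2) (k2 : Y1 c1 c2 a1 a2 a1 a2 (2-c1-B1) (c2-B2)) (k3 : Y1 c1 c2 a1 a2 a1 a2 (2-a1-r1) (a2-r2)) (k4 : Y1 c1 c2 a1 a2 (2-c1-a1) (2-c2-a2) B1 B2) (o0 : 0 ≤ 2-a1-r1) (o1 : 0 ≤ a2-r2) : False := by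
  rcases le_total 0 (c2*a1-c1*a2) with s | s
  · linarith [(mul_nonneg (mul_nonneg ((sub_pos.2 k1.RL)).le hb.a2n) hb.r1n),
    (mul_nonneg (mul_nonneg s (hb.TR1).le) hb.r2n),
    (mul_pos (sub_pos.2 k3.TL) (k1.pos hb.pc2.le)),
    (mul_nonneg s hb.r2n),
    (mul_nonneg (mul_nonneg ((sub_pos.2 k1.RL)).le hb.a1n) hb.r2n),
    (mul_nonneg (mul_nonneg s hb.A2n) hb.r1n),
    (mul_nonneg (mul_nonneg s hb.B2n) hb.r1n),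
    (mul_nonneg (mul_nonneg s (hb.RB1).le) hb.r2n)]
  · linarith [(mul_pos (sub_pos.2 k1.RL) (k2.pos hb.a2n)),
    (mul_nonneg (mul_nonneg (neg_nonneg.2 s) hb.b1n) o1),
    (mul_nonneg (mul_nonneg (neg_nonneg.2 s) hb.a1n) o1),
    (mul_pos (sub_pos.2 k4.TB) (k0.pos hb.B2n)),
    (mul_nonneg ((mul_pos (sub_pos.2 k3.RL) hb.TR1)).le hb.B1n),
    (mul_nonneg (mul_nonneg ((sub_pos.2 k3.RL)).le hb.B1n) hb.c21),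
    (mul_nonneg (neg_nonneg.2 s) hb.Tp1),
    (mul_nonneg ((mul_pos (sub_pos.2 k1.Rw) hb.RB1)).le hb.a1n),
    (mul_nonneg (mul_nonneg ((sub_pos.2 k1.Rw)).le hb.a2n) hb.r1n),
    (mul_pos (sub_pos.2 k3.TL) hb.TR1),
    (mul_pos (mul_pos (sub_pos.2 k3.TL) hb.TR1) hb.TR1),
    (mul_nonneg (mul_nonneg ((sub_pos.2 k2.TL)).le hb.b2n) hb.B2n),
    (mul_nonneg (mul_nonneg ((sub_pos.2 k4.TB)).le hb.a2n) hb.B2n),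
    (mul_nonneg (mul_nonneg ((sub_pos.2 k1.Rw)).le hb.a1n) hb.A2n),
    (mul_nonneg (mul_nonneg (neg_nonneg.2 s) (hb.TR1).le) hb.a1n),
    (mul_nonneg (mul_nonneg ((sub_pos.2 k3.TB)).le hb.a1n) hb.A2n),
    (mul_nonneg (mul_nonneg hb.wout hb.A2n) hb.B2n),
    (mul_pos (mul_pos (sub_pos.2 k3.RL) hb.TR1) hb.RB1),
    (mul_pos (sub_pos.2 k1.Rw) (k0.pos hb.B2n)),
    (mul_nonneg ((sub_pos.2 k0.RL)).le hb.wout),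
    (mul_nonneg (mul_nonneg (neg_nonneg.2 s) hb.B1n) hb.pB2),
    (mul_nonneg (mul_nonneg hb.a1n hb.A2n) hb.c21),
    (mul_nonneg (mul_nonneg ((sub_pos.2 k3.RL)).le hb.b2n) hb.B1n),
    (mul_nonneg (mul_nonneg (neg_nonneg.2 s) hb.a2n) hb.Tp1),
    (mul_nonneg (mul_nonneg ((sub_pos.2 k1.Rw)).le hb.a1n) hb.a2n),
    (mul_pos (sub_pos.2 k2.RL) (k4.pos hb.b2n)),
    (mul_pos (sub_pos.2 k3.RL) (k0.pos hb.B2n)),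
    (mul_nonneg ((sub_pos.2 k3.RL)).le (neg_nonneg.2 s)),
    (mul_nonneg (mul_nonneg (neg_nonneg.2 s) hb.c21) hb.c21),
    (mul_nonneg (mul_nonneg (neg_nonneg.2 s) (hb.TR1).le) hb.Tp1),
    (mul_nonneg (mul_nonneg (neg_nonneg.2 s) hb.Tp1) hb.c21),
    (mul_nonneg ((mul_pos (sub_pos.2 k2.RL) hb.RB1)).le o0),
    (mul_nonneg (mul_nonneg ((sub_pos.2 k0.RL)).le hb.a2n) hb.c21),
    (mul_nonneg ((sub_pos.2 k4.TB)).le (neg_nonneg.2 s)),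
    (mul_pos (sub_pos.2 k3.RL) hb.RB1),
    (mul_nonneg ((sub_pos.2 k4.TB)).le hb.a2n),
    (mul_nonneg ((mul_pos (sub_pos.2 k2.TL) hb.RB1)).le hb.b2n),
    (mul_nonneg ((sub_pos.2 k2.TL)).le hb.wout),
    (mul_nonneg (mul_nonneg hb.wout hb.b2n) hb.A2n),
    (mul_nonneg hb.wout (neg_nonneg.2 s)),
    (mul_nonneg (mul_nonneg ((sub_pos.2 k2.TL)).le hb.c21) hb.c12),
    (mul_nonneg (mul_nonneg ((sub_pos.2 k2.TL)).le hb.b2n) hb.B1n),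
    (mul_nonneg (mul_nonneg hb.wout hb.A2n) hb.B1n),
    (mul_nonneg (mul_nonneg ((sub_pos.2 k3.RL)).le hb.B2n) hb.c21),
    (mul_nonneg ((sub_pos.2 k3.TL)).le hb.A2n),
    (mul_nonneg (mul_nonneg ((sub_pos.2 k3.RL)).le hb.B2n) hb.c12),
    (mul_nonneg ((mul_pos (sub_pos.2 k2.TL) hb.RB1)).le hb.c21),
    (mul_nonneg (neg_nonneg.2 s) (neg_nonneg.2 s)),
    (mul_nonneg (mul_nonneg (neg_nonneg.2 s) hb.A2n) hb.Tp1),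
    (mul_nonneg ((mul_pos (sub_pos.2 k2.TL) hb.TR1)).le hb.b2n),
    (mul_nonneg (mul_nonneg (neg_nonneg.2 s) hb.A2n) hb.pB2),
    (mul_nonneg ((sub_pos.2 k4.TB)).le hb.a1n),
    (mul_nonneg ((mul_pos (sub_pos.2 k4.TB) hb.TR1)).le hb.a1n),
    (mul_nonneg (mul_nonneg ((sub_pos.2 k4.TB)).le hb.a1n) hb.c21),
    (mul_nonneg (mul_nonneg ((sub_pos.2 k0.RL)).le hb.a1n) hb.c21),
    (mul_nonneg (mul_nonneg (neg_nonneg.2 s) hb.A2n) hb.A2n),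
    (mul_nonneg (mul_nonneg ((sub_pos.2 k1.Rw)).le hb.a1n) hb.a1n),
    (mul_nonneg (mul_nonneg ((sub_pos.2 k4.TB)).le hb.a2n) hb.B1n),
    (mul_nonneg (mul_nonneg (neg_nonneg.2 s) hb.A2n) hb.r2n),
    (mul_nonneg (mul_nonneg (neg_nonneg.2 s) hb.A2n) hb.B2n),
    (mul_nonneg (mul_nonneg ((sub_pos.2 k3.RL)).le hb.a1n) hb.B2n),
    (mul_nonneg (mul_nonneg ((sub_pos.2 k1.Rw)).le hb.a1n) hb.r1n),
    (mul_nonneg (mul_nonneg (neg_nonneg.2 s) hb.a1n) hb.Tp1),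
    (mul_nonneg (mul_nonneg hb.a2n hb.A2n) hb.c21),
    (mul_nonneg (mul_nonneg (neg_nonneg.2 s) hb.B2n) hb.c21),
    (mul_nonneg (mul_nonneg (neg_nonneg.2 s) hb.r1n) o1),
    (mul_nonneg ((mul_pos (sub_pos.2 k3.TL) hb.TR1)).le hb.r1n),
    (mul_nonneg (mul_nonneg (neg_nonneg.2 s) hb.a1n) hb.a1n),
    (mul_nonneg ((mul_pos (sub_pos.2 k3.RL) hb.TR1)).le hb.a1n),
    (mul_nonneg ((mul_pos (sub_pos.2 k2.TL) hb.RB1)).le hb.Tp1),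
    (mul_nonneg (mul_nonneg (neg_nonneg.2 s) hb.a1n) hb.B2n),
    (mul_nonneg (mul_nonneg ((sub_pos.2 k3.TL)).le hb.b2n) hb.r1n),
    (mul_nonneg (mul_nonneg ((sub_pos.2 k3.RL)).le hb.r1n) o1),
    (mul_nonneg (mul_nonneg ((sub_pos.2 k3.RL)).le hb.r1n) hb.r2n),
    (mul_nonneg (mul_nonneg (neg_nonneg.2 s) (hb.TR1).le) hb.B2n),
    (mul_nonneg (mul_nonneg ((sub_pos.2 k3.RL)).le hb.a1n) hb.b2n),
    (mul_nonneg (mul_nonneg (neg_nonneg.2 s) hb.r1n) hb.r1n),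
    (mul_nonneg (mul_nonneg (neg_nonneg.2 s) (hb.RB1).le) hb.pB2),
    (mul_nonneg (mul_nonneg (neg_nonneg.2 s) (hb.RB1).le) hb.r2n),
    (mul_nonneg (mul_nonneg ((sub_pos.2 k3.RL)).le hb.a1n) hb.a2n),
    (mul_nonneg (mul_nonneg hb.wout hb.a2n) hb.A2n)]

theorem Uab2_core26 {c1 c2 a1 a2 B1 B2 r1 r2 : ℝ} (hb : Base c1 c2 a1 a2 B1 B2 r1 r2) (k0 : Y1 c1 c2 a1 a2 c1 c2 r1 r2) (k1 : Y1 c1 c2 a1 a2 a1 a2 (2-c1-B1) (c2-B2)) (k2 : Y1 c1 c2 a1 a2 (2-c1-a1) (2-c2-a2) (2-a1-r1) (a2-r2)) (k3 : Y1 c1 c2 a1 a2 (2-c1-a1) (2-c2-a2) B1 B2) : False := by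
  linarith [(mul_nonneg (mul_nonneg hb.wout hb.A2n) hb.B1n),
    (mul_nonneg (mul_nonneg ((sub_pos.2 k1.TL)).le hb.b1n) hb.A2n),
    (mul_nonneg (mul_nonneg ((sub_pos.2 k3.TB)).le hb.a2n) hb.B1n),
    (mul_nonneg (mul_nonneg ((sub_pos.2 k3.RL)).le hb.a2n) hb.r2n),
    (mul_nonneg (mul_nonneg ((sub_pos.2 k0.RL)).le hb.a2n) hb.b2n),
    (mul_nonneg (mul_nonneg ((sub_pos.2 k1.RL)).le hb.b2n) hb.B2n),
    (mul_nonneg ((mul_pos (sub_pos.2 k2.TB) hb.TR1)).le hb.a2n),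
    (mul_nonneg (mul_nonneg ((sub_pos.2 k1.RL)).le hb.b2n) hb.r2n),
    (mul_pos (sub_pos.2 k3.TB) (k1.pos hb.a2n)),
    (mul_nonneg (mul_nonneg hb.wout hb.a1n) hb.A2n),
    (mul_nonneg hb.wout hb.A2n),
    (mul_nonneg ((mul_pos (sub_pos.2 k3.TB) hb.TR1)).le hb.a2n),
    (mul_nonneg (mul_nonneg ((sub_pos.2 k2.TB)).le hb.a2n) hb.c21),
    (mul_nonneg (mul_nonneg hb.wout (hb.TR1).le) hb.A2n),
    (mul_nonneg (mul_nonneg ((sub_pos.2 k1.RL)).le hb.b2n) hb.A2n),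
    (mul_nonneg (mul_nonneg hb.wout hb.A2n) hb.r2n),
    (mul_nonneg (mul_nonneg hb.wout hb.A2n) hb.c21),
    (mul_nonneg (mul_nonneg ((sub_pos.2 k3.TB)).le hb.a2n) hb.c21),
    (mul_nonneg ((sub_pos.2 k2.TB)).le hb.a2n)]

theorem Uab2_core27 {c1 c2 a1 a2 B1 B2 r1 r2 : ℝ} (hb : Base c1 c2 a1 a2 B1 B2 r1 r2) (k0 : Y1 c1 c2 a1 a2 c1 c2 r1 r2) (k1 : Y1 c1 c2 a1 a2 c1 c2 (2-a1-r1) (a2-r2)) : False := by
  linarith [(sub_pos.2 k1.Rw),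
    (sub_pos.2 k0.Rw)]

theorem Uab2_core28 {c1 c2 a1 a2 B1 B2 r1 r2 : ℝ} (hb : Base c1 c2 a1 a2 B1 B2 r1 r2) (k0 : Y1 c1 (2-c2) B1 B2 c1 (2-c2) a1 a2) (k1 : Y1 c1 (2-c2) B1 B2 (2-c1-B1) (2-(2-c2)-B2) (2-c1-a1) (2-c2-a2)) : False := by
  linarith [(mul_nonneg hb.qout hb.wout),
    (mul_nonneg (mul_nonneg ((sub_pos.2 k0.RL)).le hb.a1n) hb.A2n),
    (mul_nonneg (mul_nonneg hb.qout hb.b1n) hb.A2n),
    (mul_nonneg (mul_nonneg hb.qout hb.b1n) hb.B2n),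
    (mul_nonneg (mul_nonneg hb.qout (hb.RB1).le) hb.a2n),
    (mul_nonneg (mul_nonneg ((sub_pos.2 k0.RL)).le hb.a2n) hb.A1n),
    (mul_pos (sub_pos.2 k0.RL) (k1.pos hb.A2n_)),
    (mul_nonneg (mul_nonneg hb.wout hb.A2n) hb.c12),
    (mul_pos (mul_pos (sub_pos.2 k1.TL) hb.TR1) hb.RB1),
    (sub_pos.2 k1.TB),
    (mul_nonneg (mul_nonneg hb.qout (hb.TR1).le) hb.a1n),
    (mul_nonneg (mul_nonneg hb.qout hb.a2n) hb.c12),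
    (mul_nonneg ((mul_pos (sub_pos.2 k1.TL) hb.RB1)).le hb.c21),
    (mul_nonneg (mul_nonneg hb.qout hb.a1n) hb.c21),
    (mul_nonneg ((sub_pos.2 k1.TL)).le hb.c12),
    (mul_nonneg (mul_nonneg hb.wout hb.A1n) hb.c12),
    (mul_nonneg (mul_nonneg ((sub_pos.2 k0.RL)).le hb.A1n) hb.c21),
    (mul_nonneg (mul_nonneg hb.qout (hb.TR1).le) (hb.TR1).le),
    (mul_nonneg (mul_nonneg hb.qout hb.b2n) hb.c21),
    (mul_nonneg (mul_nonneg hb.qout (hb.RB1).le) hb.A1n),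
    (mul_nonneg (mul_nonneg hb.qout (hb.RB1).le) hb.B1n),
    (mul_nonneg (mul_nonneg hb.qout (hb.RB1).le) (hb.RB1).le),
    (mul_nonneg (mul_nonneg hb.qout (hb.TR1).le) hb.A1n),
    (mul_nonneg (mul_nonneg hb.qout (hb.TR1).le) hb.B1n),
    (mul_nonneg (mul_nonneg hb.qout (hb.TR1).le) hb.c21)]

theorem Uab2_core29 {c1 c2 a1 a2 B1 B2 r1 r2 : ℝ} (hb : Base c1 c2 a1 a2 B1 B2 r1 r2) (k0 : Y1 c1 (2-c2) B1 B2 c1 (2-c2) a1 a2) (k1 : Y1 c1 (2-c2) B1 B2 B1 B2 (2-c1-a1) (2-c2-a2)) : False := by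
  linarith [(mul_pos (sub_pos.2 k0.RL) (k1.pos hb.B2n)),
    (mul_nonneg (mul_nonneg ((sub_pos.2 k1.Tw)).le hb.b2n) hb.B2n),
    (mul_nonneg ((sub_pos.2 k1.RL)).le hb.wout),
    (mul_nonneg (mul_nonneg ((sub_pos.2 k1.Tw)).le hb.b2n) hb.A1n),
    (mul_nonneg (mul_nonneg ((sub_pos.2 k1.Tw)).le hb.b2n) hb.B1n),
    (mul_nonneg ((mul_pos (sub_pos.2 k1.Tw) hb.RB1)).le hb.b2n),
    (mul_nonneg (mul_nonneg ((sub_pos.2 k1.Tw)).le hb.b2n) hb.A2n)]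

theorem Uab2_core30 {c1 c2 a1 a2 B1 B2 r1 r2 : ℝ} (hb : Base c1 c2 a1 a2 B1 B2 r1 r2) (k0 : Y1 c1 (2-c2) B1 B2 c1 (2-c2) a1 a2) (k1 : Y1 c1 (2-c2) B1 B2 c1 (2-c2) (2-c1-a1) (2-c2-a2)) : False := by
  linarith [(sub_pos.2 k1.RL),
    (mul_pos (sub_pos.2 k0.RL) hb.pc2),
    (mul_pos (sub_pos.2 k0.RL) hb.pc1),
    (mul_pos (sub_pos.2 k1.RL) hb.TR1)]

theorem Uab2_arith {c1 c2 a1 a2 B1 B2 r1 r2 : ℝ} (hb : Base c1 c2 a1 a2 B1 B2 r1 r2) (hTq : Y1 c1 c2 a1 a2 a1 a2 (2-c1-B1) (c2-B2)) (hqL : Y1 c1 c2 a1 a2 (2-c1-a1) (2-c2-a2) B1 B2) (h_Rp : D1 c1 c2 a1 a2 r1 r2) (h_Lw : D1 c1 (2-c2) B1 B2 a1 a2) (h_wB : D1 c1 (2-c2) B1 B2 (2-c1-a1) (2-c2-a2)) (h_Lp : D1 c1 (2-c2) B1 B2 (2-r1) r2) (h_pB : D1 c1 (2-c2) B1 B2 (r1-c1) (2-c2-r2)) (h_pw : (0 ≤ 2-a1-r1 ∧ 0 ≤ a2-r2 ∧ D1 c1 c2 a1 a2 (2-a1-r1) (a2-r2)) ∨ (0 ≤ -(2-a1-r1)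 ∧ 0 ≤ a2-r2 ∧ D1 c1 (2-c2) B1 B2 (-(2-a1-r1)) (a2-r2)) ∨ (0 ≤ 2-a1-r1 ∧ 0 ≤ -(a2-r2) ∧ D1 c1 (2-c2) B1 B2 (2-a1-r1) (-(a2-r2)))) : False := by
  rcases h_Lw with hLw | hLw | hLw
  · rcases h_wB with hwB | hwB | hwB
    · exact Uab2_core2 hb hLw hwB
    · exact Uab2_core1 hb hLw hwB
    · rcases h_Rp with hRp | hRp | hRp
      · rcases h_pw with ⟨opw_pwx, opw_pwy, hpw | hpw | hpw⟩ | ⟨opw_wpx, opw_pwy, hpw | hpw | hpw⟩ | ⟨opw_pwx, opw_wpy, hpw | hpw | hpw⟩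
        · exact Uab2_core3 hb hRp hpw
        · exact Uab2_core4 hb hRp hTq hpw hqL
        · exact Uab2_core5 hb hLw hRp hTq hpw hqL opw_pwx opw_pwy
        · rcases h_Lp with hLp | hLp | hLp
          · exact Uab2_core11 hb hLp hpw
          · exact Uab2_core10 hb hLp hpw
          · exact Uab2_core12 hb hLp hwB opw_pwy opw_wpx
        · exact Uab2_core6 hb hTq hpw hqL
        · exact Uab2_core7 hb hpw hwB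
        · exact Uab2_core9 hb hLw hpw
        · exact Uab2_core8 hb hLw hpw
        · rcases h_Lp with hLp | hLp | hLp
          · rcases h_pB with hpB | hpB | hpB
            · exact Uab2_core17 hb hLp hpB
            · exact Uab2_core16 hb hLw hpB opw_pwx opw_wpy
            · exact Uab2_core18 hb hLp hpB
          · rcases h_pB with hpB | hpB | hpB
            · exact Uab2_core14 hb hLp hpB
            · exact Uab2_core13 hb hLp hpB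
            · exact Uab2_core15 hb hLp hpB
          · rcases h_pB with hpB | hpB | hpB
            · exact Uab2_core19 hb hLw hpB opw_pwx opw_wpy
            · exact Uab2_core16 hb hLw hpB opw_pwx opw_wpy
            · exact Uab2_core20 hb hLp hpB
      · rcases h_pw with ⟨opw_pwx, opw_pwy, hpw | hpw | hpw⟩ | ⟨opw_wpx, opw_pwy, hpw | hpw | hpw⟩ | ⟨opw_pwx, opw_wpy, hpw | hpw | hpw⟩
        · exact Uab2_core21 hb hRp hTq hpw hqL opw_pwx opw_pwy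
        · exact Uab2_core22 hb hRp hpw
        · exact Uab2_core23 hb hRp hTq hpw hqL opw_pwx opw_pwy
        · rcases h_Lp with hLp | hLp | hLp
          · exact Uab2_core11 hb hLp hpw
          · exact Uab2_core10 hb hLp hpw
          · exact Uab2_core12 hb hLp hwB opw_pwy opw_wpx
        · exact Uab2_core6 hb hTq hpw hqL
        · exact Uab2_core7 hb hpw hwB
        · exact Uab2_core9 hb hLw hpw
        · exact Uab2_core8 hb hLw hpw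
        · rcases h_pB with hpB | hpB | hpB
          · exact Uab2_core19 hb hLw hpB opw_pwx opw_wpy
          · exact Uab2_core16 hb hLw hpB opw_pwx opw_wpy
          · exact Uab2_core24 hb hpB hpw
      · rcases h_pw with ⟨opw_pwx, opw_pwy, hpw | hpw | hpw⟩ | ⟨opw_wpx, opw_pwy, hpw | hpw | hpw⟩ | ⟨opw_pwx, opw_wpy, hpw | hpw | hpw⟩
        · exact Uab2_core25 hb hLw hRp hTq hpw hqL opw_pwx opw_pwy
        · exact Uab2_core26 hb hRp hTq hpw hqL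
        · exact Uab2_core27 hb hRp hpw
        · rcases h_Lp with hLp | hLp | hLp
          · exact Uab2_core11 hb hLp hpw
          · exact Uab2_core10 hb hLp hpw
          · exact Uab2_core12 hb hLp hwB opw_pwy opw_wpx
        · exact Uab2_core6 hb hTq hpw hqL
        · exact Uab2_core7 hb hpw hwB
        · exact Uab2_core9 hb hLw hpw
        · exact Uab2_core8 hb hLw hpw
        · rcases h_Lp with hLp | hLp | hLp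
          · rcases h_pB with hpB | hpB | hpB
            · exact Uab2_core17 hb hLp hpB
            · exact Uab2_core16 hb hLw hpB opw_pwx opw_wpy
            · exact Uab2_core18 hb hLp hpB
          · rcases h_pB with hpB | hpB | hpB
            · exact Uab2_core14 hb hLp hpB
            · exact Uab2_core13 hb hLp hpB
            · exact Uab2_core15 hb hLp hpB
          · rcases h_pB with hpB | hpB | hpB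
            · exact Uab2_core19 hb hLw hpB opw_pwx opw_wpy
            · exact Uab2_core16 hb hLw hpB opw_pwx opw_wpy
            · exact Uab2_core20 hb hLp hpB
  · exact Uab2_core0 hb hLw hTq hqL
  · rcases h_wB with hwB | hwB | hwB
    · exact Uab2_core29 hb hLw hwB
    · exact Uab2_core28 hb hLw hwB
    · exact Uab2_core30 hb hLw hwB

end H407R3.Seven
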